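import Pool.Agent.ML.R1

/-!
# ML-R2a: one circuit of an edge set with all degrees 0 or 2
-/

set_option autoImplicit false
set_option linter.unusedSectionVars false
set_option linter.unusedFintypeInType false
set_option linter.unusedVariables false

namespace ML.R

variable {V E : Type} [Fintype V] [Fintype E] [DecidableEq V] [DecidableEq E] (G : MGraph V E)

/-- One circuit.  Proof: choose `e ∈ D`, let `R a b := a ∈ D ∧ b ∈ D ∧ ∃ v, v ∈ G.ends a ∧ v ∈ G.ends b`
and `C := D.filter (fun f => Relation.ReflTransGen R e f)` (classical decidability).  `e ∈ C`.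
For every vertex `v`: `G.deg C v = 0` or `G.deg C v = G.deg D v`: if some `f ∈ C` has `G.mult f v ≠ 0`,
i.e. `v ∈ G.ends f`, then every `g ∈ D` with `v ∈ G.ends g` is in `C` (one more step `f, g`), so the two
sums have the same nonzero terms (`Finset.sum_subset`; `G.mult g v = 0` iff `v ∉ G.ends g`); otherwise
all terms of `G.deg C v` are `0`.  So `C` has degrees `0` or `2`, and `D \ C` has degrees
`G.deg D v - G.deg C v`, which is `0` or `2` (`Finset.sum_sdiff`).
Connectedness of `C`: all elements of an `R`-chain from `e` are in `C`, so an `R`-chain from `e` to `f`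
is a chain for the relation of `C`; this relation is symmetric, so `ReflTransGen.symmetric` turns chains
`e … f`, `e … g` into a chain `f … g`. -/
theorem exists_circuit {D : Finset E} (h : ∀ v, G.deg D v = 0 ∨ G.deg D v = 2) (hD : D.Nonempty) :
    ∃ C ⊆ D, G.IsCircuit C ∧ ∀ v, G.deg (D \ C) v = 0 ∨ G.deg (D \ C) v = 2 := by
  classical
  obtain ⟨e, he⟩ := hD
  set R : E → E → Prop := fun a b => a ∈ D ∧ b ∈ D ∧ ∃ v, v ∈ G.ends a ∧ v ∈ G.ends b with hR
  set C := D.filter (fun f => Relation.ReflTransGen R e f) with hC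
  have hCD : C ⊆ D := Finset.filter_subset _ _
  have hmem : ∀ f, f ∈ C ↔ f ∈ D ∧ Relation.ReflTransGen R e f := fun f => Finset.mem_filter
  have heC : e ∈ C := (hmem e).2 ⟨he, Relation.ReflTransGen.refl⟩
  have hm0 : ∀ g v, v ∉ G.ends g → G.mult g v = 0 := by
    intro g v hv
    unfold MGraph.mult
    rw [if_neg, if_neg hv]
    intro h'
    apply hv
    rw [h']
    exact Sym2.mem_mk_left v v
  have hdeg : ∀ v, G.deg C v = 0 ∨ G.deg C v = G.deg D v := by
    intro v
    by_cases hv : ∃ f ∈ C, v ∈ G.ends f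
    · right
      obtain ⟨f, hf, hvf⟩ := hv
      unfold MGraph.deg
      refine Finset.sum_subset hCD fun g hg hgC => ?_
      apply hm0
      intro hvg
      apply hgC
      exact (hmem g).2 ⟨hg, ((hmem f).1 hf).2.tail ⟨hCD hf, hg, v, hvf, hvg⟩⟩
    · left
      unfold MGraph.deg
      refine Finset.sum_eq_zero fun f hf => ?_
      apply hm0
      intro hvf
      exact hv ⟨f, hf, hvf⟩
  have hsd : ∀ v, G.deg (D \ C) v + G.deg C v = G.deg D v := by
    intro v
    unfold MGraph.deg
    exact Finset.sum_sdiff hCD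
  refine ⟨C, hCD, ⟨⟨e, heC⟩, ?_, ?_⟩, ?_⟩
  · intro v
    rcases hdeg v with h1 | h1
    · exact Or.inl h1
    · rw [h1]; exact h v
  · have hchain : ∀ f, Relation.ReflTransGen R e f →
        Relation.ReflTransGen
          (fun a b => a ∈ C ∧ b ∈ C ∧ ∃ v, v ∈ G.ends a ∧ v ∈ G.ends b) e f := by
      intro f hf
      induction hf with
      | refl => exact Relation.ReflTransGen.refl
      | @tail b c hb hbc ih =>
        refine ih.tail ⟨(hmem b).2 ⟨hbc.1, hb⟩, (hmem c).2 ⟨hbc.2.1, hb.tail hbc⟩, hbc.2.2⟩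
    intro f hf g hg
    have hs : ∀ f, Relation.ReflTransGen
        (fun a b => a ∈ C ∧ b ∈ C ∧ ∃ v, v ∈ G.ends a ∧ v ∈ G.ends b) e f →
        Relation.ReflTransGen
          (fun a b => a ∈ C ∧ b ∈ C ∧ ∃ v, v ∈ G.ends a ∧ v ∈ G.ends b) f e := by
      intro f hf
      induction hf with
      | refl => exact Relation.ReflTransGen.refl
      | @tail b c _ hbc ih =>
        obtain ⟨h1, h2, v, h3, h4⟩ := hbc
        exact Relation.ReflTransGen.head ⟨h2, h1, v, h4, h3⟩ ih
    exact (hs f (hchain f ((hmem f).1 hf).2)).trans (hchain g ((hmem g).1 hg).2)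
  · intro v
    have h1 := hsd v
    rcases hdeg v with h2 | h2
    · rw [h2, add_zero] at h1
      rw [h1]; exact h v
    · left; omega

end ML.R
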