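import Pool.Agent.ML.Defs

/-!
# ML-A1: membership lemmas, cuts, handshake

Everything here is elementary.  `inc e v` counts the ends of `e` equal to `v` (a loop counts twice).
-/

set_option autoImplicit false
set_option linter.unusedSectionVars false
set_option linter.unusedFintypeInType false
set_option linter.unusedVariables false

namespace ML
namespace MG

variable {V E : Type} [Fintype V] [Fintype E] [DecidableEq V] [DecidableEq E] (G : MG V E)

lemma mem_cut {X : Finset V} {e : E} : e ∈ G.cut X ↔ e ∈ G.F ∧ ¬ (G.s e ∈ X ↔ G.t e ∈ X) :=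
  Finset.mem_filter

lemma mem_inn {X : Finset V} {e : E} : e ∈ G.inn X ↔ e ∈ G.F ∧ G.s e ∈ X ∧ G.t e ∈ X :=
  Finset.mem_filter

lemma mem_tou {X : Finset V} {e : E} : e ∈ G.tou X ↔ e ∈ G.F ∧ (G.s e ∈ X ∨ G.t e ∈ X) :=
  Finset.mem_filter

lemma mem_nb {X : Finset V} {v : V} : v ∈ G.nb X ↔ v ∈ G.U ∧ ∃ e ∈ G.F,
    (G.s e = v ∧ G.t e ∈ X) ∨ (G.t e = v ∧ G.s e ∈ X) :=
  Finset.mem_filter

lemma cut_sub (X : Finset V) : G.cut X ⊆ G.F := Finset.filter_subset _ _

lemma inn_sub (X : Finset V) : G.inn X ⊆ G.F := Finset.filter_subset _ _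

lemma tou_sub (X : Finset V) : G.tou X ⊆ G.F := Finset.filter_subset _ _

lemma nb_sub (X : Finset V) : G.nb X ⊆ G.U := Finset.filter_subset _ _

lemma tou_eq (X : Finset V) : G.tou X = G.inn X ∪ G.cut X := by
  ext e
  rw [Finset.mem_union, mem_tou, mem_inn, mem_cut]
  tauto

lemma disj_inn_cut (X : Finset V) : Disjoint (G.inn X) (G.cut X) := by
  rw [Finset.disjoint_left]
  intro e h1 h2
  rw [mem_inn] at h1
  rw [mem_cut] at h2
  tauto

lemma inn_U : G.inn G.U = G.F := by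
  ext e
  rw [mem_inn]
  exact ⟨fun h => h.1, fun h => ⟨h, G.hs e h, G.ht e h⟩⟩

lemma cut_U : G.cut G.U = ∅ := by
  rw [Finset.eq_empty_iff_forall_notMem]
  intro e h
  rw [mem_cut] at h
  exact h.2 ⟨fun _ => G.ht e h.1, fun _ => G.hs e h.1⟩

lemma cut_compl {X : Finset V} (hX : X ⊆ G.U) : G.cut (G.U \ X) = G.cut X := by
  ext e
  rw [mem_cut, mem_cut, Finset.mem_sdiff, Finset.mem_sdiff]
  constructor
  · rintro ⟨h, h2⟩
    have h3 := G.hs e h
    have h4 := G.ht e h
    refine ⟨h, ?_⟩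
    tauto
  · rintro ⟨h, h2⟩
    have h3 := G.hs e h
    have h4 := G.ht e h
    refine ⟨h, ?_⟩
    tauto

/-- The edges outside `tou X` are the edges inside the complement. -/
lemma F_sdiff_tou {X : Finset V} (hX : X ⊆ G.U) : G.F \ G.tou X = G.inn (G.U \ X) := by
  ext e
  rw [Finset.mem_sdiff, mem_tou, mem_inn, Finset.mem_sdiff, Finset.mem_sdiff]
  constructor
  · rintro ⟨h, h2⟩
    have h3 := G.hs e h
    have h4 := G.ht e h
    refine ⟨h, ?_⟩
    tauto
  · rintro ⟨h, h2⟩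
    refine ⟨h, ?_⟩
    tauto

lemma mem_tou_or {X : Finset V} (hX : X ⊆ G.U) {e : E} (he : e ∈ G.F) :
    e ∈ G.inn X ∨ e ∈ G.cut X ∨ e ∈ G.inn (G.U \ X) := by
  rw [mem_inn, mem_cut, mem_inn, Finset.mem_sdiff, Finset.mem_sdiff]
  have h3 := G.hs e he
  have h4 := G.ht e he
  tauto

lemma sum_inc (X : Finset V) (e : E) : ∑ v ∈ X, G.inc e v =
    (if G.s e ∈ X then 1 else 0) + (if G.t e ∈ X then 1 else 0) := by
  unfold inc
  rw [Finset.sum_add_distrib, Finset.sum_ite_eq, Finset.sum_ite_eq]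

/-- Handshake lemma: the degree sum over `X` is the weight of the cut plus twice the weight inside.
Proof: exchange the sums, `sum_inc`, and split `F` into `inn X`, `cut X` and the rest. -/
lemma hand {M : Type} [AddCommMonoid M] (w : E → M) (X : Finset V) :
    ∑ v ∈ X, G.deg w v = ∑ e ∈ G.cut X, w e + 2 • ∑ e ∈ G.inn X, w e := by
  unfold deg
  rw [Finset.sum_comm]
  have h1 : ∀ e ∈ G.F, ∑ v ∈ X, G.inc e v • w e =
      (if ¬ (G.s e ∈ X ↔ G.t e ∈ X) then w e else 0) +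
        (if G.s e ∈ X ∧ G.t e ∈ X then 2 • w e else 0) := by
    intro e _
    rw [← Finset.sum_smul, sum_inc]
    by_cases ha : G.s e ∈ X <;> by_cases hb : G.t e ∈ X <;> simp [ha, hb]
  rw [Finset.sum_congr rfl h1, Finset.sum_add_distrib]
  unfold cut inn
  rw [Finset.sum_filter, Finset.smul_sum, Finset.sum_filter]

/-- Handshake for a set of edges. -/
lemma hand_set {N : Finset E} (hN : N ⊆ G.F) (X : Finset V) :
    ∑ v ∈ X, ∑ e ∈ N, G.inc e v = (N ∩ G.cut X).card + 2 * (N ∩ G.inn X).card := by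
  rw [Finset.sum_comm]
  have h1 : ∀ e ∈ N, ∑ v ∈ X, G.inc e v =
      (if e ∈ G.cut X then 1 else 0) + 2 * (if e ∈ G.inn X then 1 else 0) := by
    intro e he
    have hF := hN he
    rw [sum_inc]
    have hc : e ∈ G.cut X ↔ ¬ (G.s e ∈ X ↔ G.t e ∈ X) := by
      rw [mem_cut]
      tauto
    have hi : e ∈ G.inn X ↔ (G.s e ∈ X ∧ G.t e ∈ X) := by
      rw [mem_inn]
      tauto
    by_cases ha : G.s e ∈ X <;> by_cases hb : G.t e ∈ X <;> simp [hc, hi, ha, hb]
  rw [Finset.sum_congr rfl h1, Finset.sum_add_distrib, ← Finset.mul_sum,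
    ← Finset.filter_mem_eq_inter, ← Finset.filter_mem_eq_inter, Finset.card_filter,
    Finset.card_filter]

/-- Potentials: for a set `N ⊆ F` of edges with degrees `m v` at the vertices of `U`. -/
lemma pot_set {M : Type} [AddCommMonoid M] {N : Finset E} (hN : N ⊆ G.F) (y : V → M) :
    ∑ e ∈ N, (y (G.s e) + y (G.t e)) = ∑ v ∈ G.U, (∑ e ∈ N, G.inc e v) • y v := by
  have h1 : ∀ v ∈ G.U, (∑ e ∈ N, G.inc e v) • y v = ∑ e ∈ N, G.inc e v • y v :=
    fun v _ => Finset.sum_smul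
  rw [Finset.sum_congr rfl h1, Finset.sum_comm]
  refine Finset.sum_congr rfl fun e he => ?_
  have hF := hN he
  have h2 : ∀ v ∈ G.U, G.inc e v • y v =
      (if G.s e = v then y v else 0) + (if G.t e = v then y v else 0) := by
    intro v _
    unfold inc
    rw [add_smul]
    by_cases ha : G.s e = v <;> by_cases hb : G.t e = v <;> simp [ha, hb]
  rw [Finset.sum_congr rfl h2, Finset.sum_add_distrib, Finset.sum_ite_eq, Finset.sum_ite_eq,
    if_pos (G.hs e hF), if_pos (G.ht e hF)]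

end MG
end ML
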