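import Pool.Agent.ML.A1

/-!
# ML-A2: perfect matchings, first properties
-/

set_option autoImplicit false
set_option linter.unusedSectionVars false
set_option linter.unusedFintypeInType false
set_option linter.unusedVariables false

namespace ML
namespace MG

variable {V E : Type} [Fintype V] [Fintype E] [DecidableEq V] [DecidableEq E] (G : MG V E)

lemma a2_inc_eq_zero {e : E} {v : V} (h : ¬ (G.s e = v ∨ G.t e = v)) : G.inc e v = 0 := by
  push Not at h
  unfold inc
  rw [if_neg h.1, if_neg h.2]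

lemma a2_inc_pos {e : E} {v : V} (h : G.s e = v ∨ G.t e = v) : 1 ≤ G.inc e v := by
  unfold inc
  rcases h with h | h
  · rw [if_pos h]; omega
  · rw [if_pos h]; omega

variable {G} in
lemma IsPM.card {N : Finset E} (hN : G.IsPM N) {X : Finset V} (hX : X ⊆ G.U) :
    X.card = (N ∩ G.cut X).card + 2 * (N ∩ G.inn X).card := by
  rw [← G.hand_set hN.1 X, Finset.sum_congr rfl (fun v hv => hN.2 v (hX hv))]
  simp

variable {G} in
lemma IsPM.even {N : Finset E} (hN : G.IsPM N) : Even G.U.card := by
  have h := hN.card (Finset.Subset.refl G.U)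
  rw [cut_U, Finset.inter_empty, Finset.card_empty, zero_add] at h
  rw [h]
  exact even_two_mul _

variable {G} in
lemma IsPM.odd_cut {N : Finset E} (hN : G.IsPM N) {X : Finset V} (hX : X ⊆ G.U) (ho : Odd X.card) :
    Odd (N ∩ G.cut X).card := by
  have h := hN.card hX
  rw [h] at ho
  rcases Nat.even_or_odd (N ∩ G.cut X).card with h1 | h1
  · exact absurd ho (Nat.not_odd_iff_even.mpr (h1.add (even_two_mul _)))
  · exact h1

variable {G} in
lemma IsPM.even_cut {N : Finset E} (hN : G.IsPM N) {X : Finset V} (hX : X ⊆ G.U) (ho : Even X.card) :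
    Even (N ∩ G.cut X).card := by
  have h := hN.card hX
  rw [h] at ho
  exact (Nat.even_add.mp ho).mpr (even_two_mul _)

variable {G} in
/-- Sum of a potential over a perfect matching. -/
lemma IsPM.pot {M : Type} [AddCommMonoid M] {N : Finset E} (hN : G.IsPM N) (y : V → M) :
    ∑ e ∈ N, (y (G.s e) + y (G.t e)) = ∑ v ∈ G.U, y v := by
  rw [G.pot_set hN.1 y]
  exact Finset.sum_congr rfl fun v hv => by rw [hN.2 v hv, one_smul]

variable {G} in
/-- Edges of perfect matchings are not loops (a loop `e` has `inc e v = 2`). -/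
lemma IsPM.ne {N : Finset E} (hN : G.IsPM N) {e : E} (he : e ∈ N) : G.s e ≠ G.t e := by
  intro h
  have h1 := hN.2 (G.s e) (G.hs e (hN.1 he))
  have h2 : G.inc e (G.s e) ≤ ∑ f ∈ N, G.inc f (G.s e) :=
    Finset.single_le_sum (f := fun f => G.inc f (G.s e)) (fun _ _ => Nat.zero_le _) he
  have h3 : G.inc e (G.s e) = 2 := by
    unfold inc
    rw [if_pos rfl, if_pos h.symm]
  omega

variable {G} in
/-- Every vertex of `U` is covered. -/
lemma IsPM.exists_edge {N : Finset E} (hN : G.IsPM N) {v : V} (hv : v ∈ G.U) :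
    ∃ e ∈ N, G.s e = v ∨ G.t e = v := by
  by_contra hne
  push Not at hne
  have h1 := hN.2 v hv
  rw [Finset.sum_eq_zero (fun e he => G.a2_inc_eq_zero (by
    have := hne e he
    tauto))] at h1
  exact absurd h1 (by norm_num)

variable {G} in
/-- Every vertex of `U` is covered only once. -/
lemma IsPM.unique {N : Finset E} (hN : G.IsPM N) {v : V} (hv : v ∈ G.U) {e f : E} (he : e ∈ N)
    (hf : f ∈ N) (h1 : G.s e = v ∨ G.t e = v) (h2 : G.s f = v ∨ G.t f = v) : e = f := by
  by_contra hne
  have h3 := hN.2 v hv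
  have h4 : ∑ g ∈ ({e, f} : Finset E), G.inc g v ≤ ∑ g ∈ N, G.inc g v :=
    Finset.sum_le_sum_of_subset (by
      intro g hg
      rcases Finset.mem_insert.mp hg with rfl | hg
      · exact he
      · rw [Finset.mem_singleton] at hg
        rw [hg]; exact hf)
  rw [Finset.sum_pair hne] at h4
  have h5 := G.a2_inc_pos h1
  have h6 := G.a2_inc_pos h2
  omega

/-- Criterion: a set of edges of `F` which are not loops, pairwise without common ends, covering
`U`, is a perfect matching. -/
lemma isPM_of {N : Finset E} (hN : N ⊆ G.F) (hl : ∀ e ∈ N, G.s e ≠ G.t e)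
    (hc : ∀ v ∈ G.U, ∃ e ∈ N, G.s e = v ∨ G.t e = v)
    (hu : ∀ v ∈ G.U, ∀ e ∈ N, ∀ f ∈ N, (G.s e = v ∨ G.t e = v) → (G.s f = v ∨ G.t f = v) → e = f) :
    G.IsPM N := by
  refine ⟨hN, fun v hv => ?_⟩
  obtain ⟨e, he, h1⟩ := hc v hv
  rw [Finset.sum_eq_single e]
  · have h2 := hl e he
    unfold inc
    rcases h1 with h1 | h1
    · rw [if_pos h1, if_neg (fun h3 => h2 (h1.trans h3.symm))]
    · rw [if_pos h1, if_neg (fun h3 => h2 (h3.trans h1.symm))]
  · intro f hf hfe
    refine G.a2_inc_eq_zero (fun h3 => hfe ?_)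
    exact hu v hv f hf e he h3 h1
  · intro h3
    exact absurd he h3

variable {G} in
/-- `F` contains no loops if `G` is matching covered. -/
lemma Mc.ne (h : G.Mc) {e : E} (he : e ∈ G.F) : G.s e ≠ G.t e := by
  obtain ⟨N, hN, heN⟩ := h.2 e he
  exact hN.ne heN

variable {G} in
lemma Mc.even (h : G.Mc) : Even G.U.card := by
  obtain ⟨N, hN⟩ := h.1
  exact hN.even

/-- The empty set is a perfect matching iff `U` is empty. -/
lemma isPM_empty (h : G.U = ∅) : G.IsPM ∅ := by
  refine ⟨Finset.empty_subset _, fun v hv => ?_⟩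
  rw [h] at hv
  exact absurd hv (Finset.notMem_empty v)

end MG
end ML
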