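import Pool.Agent.ML.A2

/-!
# ML-A3: perfect matchings of induced subgraphs; unions and restrictions
-/

set_option autoImplicit false
set_option linter.unusedSectionVars false
set_option linter.unusedFintypeInType false
set_option linter.unusedVariables false

namespace ML
namespace MG

variable {V E : Type} [Fintype V] [Fintype E] [DecidableEq V] [DecidableEq E] (G : MG V E)

@[simp] lemma sub_s (W : Finset V) : (G.sub W).s = G.s := rfl
@[simp] lemma sub_t (W : Finset V) : (G.sub W).t = G.t := rfl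
@[simp] lemma sub_U (W : Finset V) : (G.sub W).U = W := rfl
@[simp] lemma sub_F (W : Finset V) : (G.sub W).F = G.inn W := rfl
@[simp] lemma sub_inc (W : Finset V) : (G.sub W).inc = G.inc := rfl
@[simp] lemma del_s (e : E) : (G.del e).s = G.s := rfl
@[simp] lemma del_t (e : E) : (G.del e).t = G.t := rfl
@[simp] lemma del_U (e : E) : (G.del e).U = G.U := rfl
@[simp] lemma del_F (e : E) : (G.del e).F = G.F.erase e := rfl
@[simp] lemma del_inc (e : E) : (G.del e).inc = G.inc := rfl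

lemma sub_isPM {W : Finset V} {N : Finset E} : (G.sub W).IsPM N ↔
    N ⊆ G.inn W ∧ ∀ v ∈ W, ∑ e ∈ N, G.inc e v = 1 := Iff.rfl

lemma del_cut (e : E) (X : Finset V) : (G.del e).cut X = (G.cut X).erase e := by
  ext f
  simp only [mem_cut, Finset.mem_erase, del_s, del_t, del_F]
  tauto

lemma del_inn (e : E) (X : Finset V) : (G.del e).inn X = (G.inn X).erase e := by
  ext f
  simp only [mem_inn, Finset.mem_erase, del_s, del_t, del_F]
  tauto

lemma sub_cut {W X : Finset V} : (G.sub W).cut X = G.cut X ∩ G.inn W := by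
  ext f
  simp only [mem_cut, mem_inn, Finset.mem_inter, sub_s, sub_t, sub_F]
  tauto

lemma sub_inn {W X : Finset V} (h : X ⊆ W) : (G.sub W).inn X = G.inn X := by
  ext f
  simp only [mem_inn, sub_s, sub_t, sub_F]
  constructor
  · rintro ⟨⟨h1, _, _⟩, h2, h3⟩
    exact ⟨h1, h2, h3⟩
  · rintro ⟨h1, h2, h3⟩
    exact ⟨⟨h1, h h2, h h3⟩, h2, h3⟩

lemma sub_sub {W X : Finset V} (h : X ⊆ W) : (G.sub W).sub X = G.sub X := by
  have h1 : (G.sub W).inn X = G.inn X := G.sub_inn h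
  unfold sub at h1 ⊢
  rw [MG.mk.injEq]
  exact ⟨rfl, rfl, rfl, h1⟩

/-- Perfect matchings of `G.sub G.U` are those of `G` (`G.inn G.U = G.F`). -/
lemma sub_self_isPM {N : Finset E} : (G.sub G.U).IsPM N ↔ G.IsPM N := by
  rw [sub_isPM, inn_U]
  exact Iff.rfl

/-- Perfect matchings of the graph without the edge `e` are those not containing `e`. -/
lemma del_isPM {N : Finset E} {e : E} : (G.del e).IsPM N ↔ G.IsPM N ∧ e ∉ N := by
  have h1 : (G.del e).IsPM N ↔ (N ⊆ G.F.erase e ∧ ∀ v ∈ G.U, ∑ e ∈ N, G.inc e v = 1) := Iff.rfl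
  have h2 : G.IsPM N ↔ (N ⊆ G.F ∧ ∀ v ∈ G.U, ∑ e ∈ N, G.inc e v = 1) := Iff.rfl
  rw [h1, h2, Finset.subset_erase]
  tauto

/-- Perfect matchings of a part of `G.del e`. -/
lemma del_sub_isPM {N : Finset E} {e : E} {W : Finset V} :
    ((G.del e).sub W).IsPM N ↔ (G.sub W).IsPM N ∧ e ∉ N := by
  have h1 : ((G.del e).sub W).IsPM N ↔
      (N ⊆ (G.del e).inn W ∧ ∀ v ∈ W, ∑ e ∈ N, G.inc e v = 1) := Iff.rfl
  rw [h1, sub_isPM, del_inn, Finset.subset_erase]
  tauto

/-- Union of perfect matchings of disjoint vertex sets. -/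
lemma isPM_union {W₁ W₂ : Finset V} (hd : Disjoint W₁ W₂) {N₁ N₂ : Finset E}
    (h₁ : (G.sub W₁).IsPM N₁) (h₂ : (G.sub W₂).IsPM N₂) : (G.sub (W₁ ∪ W₂)).IsPM (N₁ ∪ N₂) := by
  rw [sub_isPM] at h₁ h₂ ⊢
  have hdN : Disjoint N₁ N₂ := by
    rw [Finset.disjoint_left]
    intro e he1 he2
    exact Finset.disjoint_left.1 hd ((G.mem_inn).1 (h₁.1 he1)).2.1 ((G.mem_inn).1 (h₂.1 he2)).2.1
  have hzero : ∀ (W : Finset V) (N : Finset E), N ⊆ G.inn W → ∀ v, v ∉ W →
      ∑ e ∈ N, G.inc e v = 0 := by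
    intro W N hN v hv
    apply Finset.sum_eq_zero
    intro e he
    obtain ⟨_, hs, ht⟩ := (G.mem_inn).1 (hN he)
    have h1 : G.s e ≠ v := fun h => hv (h ▸ hs)
    have h2 : G.t e ≠ v := fun h => hv (h ▸ ht)
    simp [inc, h1, h2]
  refine ⟨?_, ?_⟩
  · intro e he
    rw [Finset.mem_union] at he
    rw [mem_inn]
    rcases he with he | he
    · obtain ⟨hF, hs, ht⟩ := (G.mem_inn).1 (h₁.1 he)
      exact ⟨hF, Finset.mem_union_left _ hs, Finset.mem_union_left _ ht⟩
    · obtain ⟨hF, hs, ht⟩ := (G.mem_inn).1 (h₂.1 he)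
      exact ⟨hF, Finset.mem_union_right _ hs, Finset.mem_union_right _ ht⟩
  · intro v hv
    rw [Finset.sum_union hdN]
    rw [Finset.mem_union] at hv
    rcases hv with hv | hv
    · rw [h₁.2 v hv, hzero W₂ N₂ h₂.1 v (Finset.disjoint_left.1 hd hv)]
    · rw [h₂.2 v hv, hzero W₁ N₁ h₁.1 v (Finset.disjoint_right.1 hd hv)]

/-- The two matchings of the previous lemma are disjoint. -/
lemma disj_of_isPM {W₁ W₂ : Finset V} (hd : Disjoint W₁ W₂) {N₁ N₂ : Finset E}
    (h₁ : (G.sub W₁).IsPM N₁) (h₂ : (G.sub W₂).IsPM N₂) : Disjoint N₁ N₂ := by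
  rw [sub_isPM] at h₁ h₂
  rw [Finset.disjoint_left]
  intro e he1 he2
  exact Finset.disjoint_left.1 hd ((G.mem_inn).1 (h₁.1 he1)).2.1 ((G.mem_inn).1 (h₂.1 he2)).2.1

/-- Restriction: if no edge of the perfect matching `N` of `G` leaves `W`, then the edges of `N`
inside `W` form a perfect matching of `G.sub W`. -/
lemma isPM_restrict {N : Finset E} (hN : G.IsPM N) {W : Finset V} (hW : W ⊆ G.U)
    (h : N ∩ G.cut W = ∅) : (G.sub W).IsPM (N ∩ G.inn W) := by
  rw [sub_isPM]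
  refine ⟨Finset.inter_subset_right, ?_⟩
  intro v hv
  have h1 : ∑ e ∈ N ∩ G.inn W, G.inc e v = ∑ e ∈ N, G.inc e v := by
    apply Finset.sum_subset Finset.inter_subset_left
    intro e heN hne
    have hF : e ∈ G.F := hN.1 heN
    have hcut : e ∉ G.cut W := by
      intro hc
      have h2 : e ∈ N ∩ G.cut W := Finset.mem_inter.2 ⟨heN, hc⟩
      rw [h] at h2
      exact Finset.notMem_empty e h2
    have hiff : G.s e ∈ W ↔ G.t e ∈ W := by
      by_contra hc
      exact hcut ((G.mem_cut).2 ⟨hF, hc⟩)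
    have hns : G.s e ∉ W := by
      intro hs
      exact hne (Finset.mem_inter.2 ⟨heN, (G.mem_inn).2 ⟨hF, hs, hiff.1 hs⟩⟩)
    have hnt : G.t e ∉ W := fun ht => hns (hiff.2 ht)
    have h3 : G.s e ≠ v := fun hh => hns (hh ▸ hv)
    have h4 : G.t e ≠ v := fun hh => hnt (hh ▸ hv)
    simp [inc, h3, h4]
  rw [h1]
  exact hN.2 v (hW hv)

/-- Restriction inside a part: `N` perfect matching of `G.sub W'`, `W ⊆ W'`, no edge of `N` leaves
`W`. -/
lemma isPM_restrict' {N : Finset E} {W W' : Finset V} (hN : (G.sub W').IsPM N) (hW : W ⊆ W')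
    (h : N ∩ G.cut W = ∅) : (G.sub W).IsPM (N ∩ G.inn W) := by
  have h1 : N ∩ (G.sub W').cut W = ∅ := by
    rw [sub_cut, ← Finset.inter_assoc, h, Finset.empty_inter]
  have h2 := (G.sub W').isPM_restrict hN (W := W) hW h1
  rw [G.sub_sub hW, G.sub_inn hW] at h2
  exact h2

end MG
end ML
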