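import Pool.Agent.ML.A3

/-!
# ML-A3b: perfect matchings of induced subgraphs, continued
-/

set_option autoImplicit false
set_option linter.unusedSectionVars false
set_option linter.unusedFintypeInType false
set_option linter.unusedVariables false

namespace ML
namespace MG

variable {V E : Type} [Fintype V] [Fintype E] [DecidableEq V] [DecidableEq E] (G : MG V E)

lemma a3b_inc_eq_zero {e : E} {v : V} (h1 : G.s e ≠ v) (h2 : G.t e ≠ v) : G.inc e v = 0 := by
  unfold inc
  rw [if_neg h1, if_neg h2]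

/-- The part of a perfect matching of `G.sub W'` outside a closed set `W`. -/
lemma isPM_restrict_sdiff {N : Finset E} {W W' : Finset V} (hN : (G.sub W').IsPM N) (hW : W ⊆ W')
    (h : N ∩ G.cut W = ∅) : (G.sub (W' \ W)).IsPM (N \ G.inn W) := by
  rw [sub_isPM] at hN ⊢
  obtain ⟨h1, h2⟩ := hN
  refine ⟨?_, ?_⟩
  · intro e he
    rw [Finset.mem_sdiff] at he
    have h3 := (G.mem_inn).1 (h1 he.1)
    have h4 : e ∉ G.cut W := fun h5 => by
      have : e ∈ N ∩ G.cut W := Finset.mem_inter.2 ⟨he.1, h5⟩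
      rw [h] at this
      exact absurd this (Finset.notMem_empty e)
    rw [G.mem_cut] at h4
    have h5 := he.2
    rw [G.mem_inn] at h5
    rw [G.mem_inn, Finset.mem_sdiff, Finset.mem_sdiff]
    tauto
  · intro v hv
    rw [Finset.mem_sdiff] at hv
    rw [← h2 v hv.1]
    apply Finset.sum_subset Finset.sdiff_subset
    intro e he he'
    have h5 : e ∈ G.inn W := by
      by_contra h6
      exact he' (Finset.mem_sdiff.2 ⟨he, h6⟩)
    rw [G.mem_inn] at h5
    apply a3b_inc_eq_zero
    · rintro rfl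
      exact hv.2 h5.2.1
    · rintro rfl
      exact hv.2 h5.2.2

/-- A single edge which is not a loop is a perfect matching of its two ends. -/
lemma isPM_single {e : E} (he : e ∈ G.F) (hne : G.s e ≠ G.t e) :
    (G.sub {G.s e, G.t e}).IsPM {e} := by
  rw [sub_isPM]
  refine ⟨?_, ?_⟩
  · rw [Finset.singleton_subset_iff, G.mem_inn]
    exact ⟨he, by simp, by simp⟩
  · intro v hv
    rw [Finset.sum_singleton]
    rw [Finset.mem_insert, Finset.mem_singleton] at hv
    unfold inc
    rcases hv with rfl | rfl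
    · rw [if_pos rfl, if_neg (Ne.symm hne)]
    · rw [if_pos rfl, if_neg hne]

/-- Removing an edge of a perfect matching: `N \ {e}` is a perfect matching of the rest. -/
lemma isPM_erase {N : Finset E} {W : Finset V} (hN : (G.sub W).IsPM N) {e : E} (he : e ∈ N) :
    (G.sub (W \ {G.s e, G.t e})).IsPM (N.erase e) := by
  have hu := @IsPM.unique V E _ _ _ _ (G.sub W) N hN
  rw [sub_isPM] at hN ⊢
  obtain ⟨h1, h2⟩ := hN
  have h3 := (G.mem_inn).1 (h1 he)
  refine ⟨?_, ?_⟩
  · intro f hf
    rw [Finset.mem_erase] at hf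
    have h4 := (G.mem_inn).1 (h1 hf.2)
    rw [G.mem_inn, Finset.mem_sdiff, Finset.mem_sdiff, Finset.mem_insert, Finset.mem_singleton,
      Finset.mem_insert, Finset.mem_singleton]
    refine ⟨h4.1, ⟨h4.2.1, ?_⟩, ⟨h4.2.2, ?_⟩⟩
    · rintro (h5 | h5)
      · exact hf.1 (hu h4.2.1 hf.2 he (Or.inl rfl) (Or.inl h5.symm))
      · exact hf.1 (hu h4.2.1 hf.2 he (Or.inl rfl) (Or.inr h5.symm))
    · rintro (h5 | h5)
      · exact hf.1 (hu h4.2.2 hf.2 he (Or.inr rfl) (Or.inl h5.symm))
      · exact hf.1 (hu h4.2.2 hf.2 he (Or.inr rfl) (Or.inr h5.symm))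
  · intro v hv
    rw [Finset.mem_sdiff, Finset.mem_insert, Finset.mem_singleton] at hv
    rw [← h2 v hv.1]
    apply Finset.sum_subset (Finset.erase_subset _ _)
    intro f hf hf'
    have h5 : f = e := by
      by_contra h6
      exact hf' (Finset.mem_erase.2 ⟨h6, hf⟩)
    rw [h5]
    apply a3b_inc_eq_zero
    · rintro rfl
      exact hv.2 (Or.inl rfl)
    · rintro rfl
      exact hv.2 (Or.inr rfl)

/-- Adding an edge. -/
lemma isPM_insert {N : Finset E} {W : Finset V} (hN : (G.sub W).IsPM N) {e : E} (he : e ∈ G.F)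
    (hne : G.s e ≠ G.t e) (h1 : G.s e ∉ W) (h2 : G.t e ∉ W) :
    (G.sub (insert (G.s e) (insert (G.t e) W))).IsPM (insert e N) ∧ e ∉ N := by
  refine ⟨?_, ?_⟩
  · have hd : Disjoint ({G.s e, G.t e} : Finset V) W := by
      rw [Finset.disjoint_left]
      intro v hv
      rw [Finset.mem_insert, Finset.mem_singleton] at hv
      rcases hv with rfl | rfl
      · exact h1
      · exact h2
    have h3 := G.isPM_union hd (G.isPM_single he hne) hN
    have e1 : ({G.s e, G.t e} : Finset V) ∪ W = insert (G.s e) (insert (G.t e) W) := by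
      rw [Finset.insert_union, Finset.singleton_union]
    have e2 : ({e} : Finset E) ∪ N = insert e N := Finset.singleton_union _ _
    rw [e1, e2] at h3
    exact h3
  · intro h3
    rw [sub_isPM] at hN
    exact h1 ((G.mem_inn).1 (hN.1 h3)).2.1

/-- Union over a finite family of pairwise disjoint vertex sets. -/
lemma isPM_biUnion {ι : Type} [Fintype ι] [DecidableEq ι] (W : ι → Finset V) (N : ι → Finset E)
    (hd : ∀ i j, i ≠ j → Disjoint (W i) (W j)) (h : ∀ i, (G.sub (W i)).IsPM (N i)) :
    (G.sub (Finset.univ.biUnion W)).IsPM (Finset.univ.biUnion N) := by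
  have h' := fun i => (G.sub_isPM).1 (h i)
  rw [sub_isPM]
  refine ⟨?_, ?_⟩
  · intro e he
    rw [Finset.mem_biUnion] at he
    obtain ⟨i, _, hi⟩ := he
    have h3 := (G.mem_inn).1 ((h' i).1 hi)
    rw [G.mem_inn]
    exact ⟨h3.1, Finset.mem_biUnion.2 ⟨i, Finset.mem_univ _, h3.2.1⟩,
      Finset.mem_biUnion.2 ⟨i, Finset.mem_univ _, h3.2.2⟩⟩
  · intro v hv
    rw [Finset.mem_biUnion] at hv
    obtain ⟨i, _, hi⟩ := hv
    rw [Finset.sum_biUnion (by
      intro j _ k _ hjk
      exact G.disj_of_isPM (hd j k hjk) (h j) (h k)), Finset.sum_eq_single i]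
    · exact (h' i).2 v hi
    · intro j _ hji
      apply Finset.sum_eq_zero
      intro e he
      have h3 := (G.mem_inn).1 ((h' j).1 he)
      have h4 : v ∉ W j := fun h5 => Finset.disjoint_left.1 (hd j i hji) h5 hi
      apply a3b_inc_eq_zero
      · rintro rfl
        exact h4 h3.2.1
      · rintro rfl
        exact h4 h3.2.2
    · intro h3
      exact absurd (Finset.mem_univ i) h3

end MG
end ML
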