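import Pool.Agent.ML.A3b

/-!
# ML-A4: Hall and perfect matchings of bipartite parts
-/

set_option autoImplicit false
set_option linter.unusedSectionVars false
set_option linter.unusedFintypeInType false
set_option linter.unusedVariables false

namespace ML
namespace MG

variable {V E : Type} [Fintype V] [Fintype E] [DecidableEq V] [DecidableEq E] (G : MG V E)

/-- Hall: if `A`, `B` are disjoint vertex sets of the same size and every `Z ⊆ B` has at least
`|Z|` neighbours in `A`, then there is a perfect matching of `G.sub (A ∪ B)` all of whose edges join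
`A` and `B`.
Proof: `Finset.all_card_le_biUnion_card_iff_exists_injective` for the index type `↥B` (or a version
over all of `V`) and `b ↦ G.nb {b} ∩ A` (note `G.nb Z = Z.biUnion (fun b => G.nb {b})`) gives an
injective choice `f b ∈ G.nb {b} ∩ A`; as `|A| = |B|` it is a bijection of `B` onto `A`.  Choose an
edge `e b` joining `f b` and `b`; the set of these edges is the matching (`isPM_of` for
`G.sub (A ∪ B)`). -/
theorem hall {A B : Finset V} (hA : A ⊆ G.U) (hB : B ⊆ G.U) (hd : Disjoint A B)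
    (hc : A.card = B.card) (h : ∀ Z, Z ⊆ B → Z.card ≤ (G.nb Z ∩ A).card) :
    ∃ N, (G.sub (A ∪ B)).IsPM N ∧ N ⊆ G.cut A := by
  classical
  have h1 : ∀ T : Finset B, T.card ≤ (T.biUnion fun b : B => G.nb {b.1} ∩ A).card := by
    intro T
    have hZ : T.map (Function.Embedding.subtype _) ⊆ B := by
      intro x hx
      obtain ⟨y, -, rfl⟩ := Finset.mem_map.1 hx
      exact y.2
    have h2 := h _ hZ
    rw [Finset.card_map] at h2
    refine h2.trans (Finset.card_le_card ?_)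
    intro x hx
    obtain ⟨hx1, hx2⟩ := Finset.mem_inter.1 hx
    obtain ⟨hxU, e, he, hor⟩ := G.mem_nb.1 hx1
    rcases hor with ⟨ha, hb⟩ | ⟨ha, hb⟩
    · obtain ⟨b, hbT, hbe⟩ := Finset.mem_map.1 hb
      refine Finset.mem_biUnion.2 ⟨b, hbT, Finset.mem_inter.2 ⟨G.mem_nb.2 ⟨hxU, e, he, Or.inl
        ⟨ha, ?_⟩⟩, hx2⟩⟩
      rw [Finset.mem_singleton]
      exact hbe.symm
    · obtain ⟨b, hbT, hbe⟩ := Finset.mem_map.1 hb
      refine Finset.mem_biUnion.2 ⟨b, hbT, Finset.mem_inter.2 ⟨G.mem_nb.2 ⟨hxU, e, he, Or.inr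
        ⟨ha, ?_⟩⟩, hx2⟩⟩
      rw [Finset.mem_singleton]
      exact hbe.symm
  obtain ⟨f, hfi, hf⟩ := (Finset.all_card_le_biUnion_card_iff_exists_injective _).1 h1
  have hfA : ∀ b, f b ∈ A := fun b => (Finset.mem_inter.1 (hf b)).2
  have hex : ∀ b : B, ∃ e ∈ G.F, (G.s e = f b ∧ G.t e = b.1) ∨ (G.t e = f b ∧ G.s e = b.1) := by
    intro b
    obtain ⟨-, e, he, hor⟩ := G.mem_nb.1 (Finset.mem_inter.1 (hf b)).1
    refine ⟨e, he, ?_⟩
    rcases hor with ⟨ha, hb⟩ | ⟨ha, hb⟩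
    · exact Or.inl ⟨ha, Finset.mem_singleton.1 hb⟩
    · exact Or.inr ⟨ha, Finset.mem_singleton.1 hb⟩
  choose e heF he using hex
  have himg : Finset.univ.image f = A := by
    apply Finset.eq_of_subset_of_card_le
    · intro x hx
      obtain ⟨b, -, rfl⟩ := Finset.mem_image.1 hx
      exact hfA b
    · rw [Finset.card_image_of_injective _ hfi, Finset.card_univ, Fintype.card_coe, hc]
  have hnA : ∀ b : B, b.1 ∉ A := fun b hb => Finset.disjoint_left.1 hd hb b.2
  have hnB : ∀ b : B, f b ∉ B := fun b hb => Finset.disjoint_left.1 hd (hfA b) hb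
  refine ⟨Finset.univ.image e, ?_, ?_⟩
  · apply isPM_of
    · intro x hx
      obtain ⟨b, -, rfl⟩ := Finset.mem_image.1 hx
      show e b ∈ G.inn (A ∪ B)
      rw [G.mem_inn]
      refine ⟨heF b, ?_⟩
      have h3 : f b ∈ A ∪ B := Finset.mem_union_left _ (hfA b)
      have h4 : b.1 ∈ A ∪ B := Finset.mem_union_right _ b.2
      rcases he b with ⟨h1, h2⟩ | ⟨h1, h2⟩
      · rw [h1, h2]; exact ⟨h3, h4⟩
      · rw [h1, h2]; exact ⟨h4, h3⟩
    · intro x hx
      obtain ⟨b, -, rfl⟩ := Finset.mem_image.1 hx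
      show G.s (e b) ≠ G.t (e b)
      intro heq
      rcases he b with ⟨h1, h2⟩ | ⟨h1, h2⟩
      · rw [h1, h2] at heq
        exact hnA b (heq ▸ hfA b)
      · rw [h1, h2] at heq
        exact hnA b (heq ▸ hfA b)
    · intro v hv
      rcases Finset.mem_union.1 hv with hv | hv
      · rw [← himg] at hv
        obtain ⟨b, -, rfl⟩ := Finset.mem_image.1 hv
        refine ⟨e b, Finset.mem_image_of_mem _ (Finset.mem_univ _), ?_⟩
        rcases he b with ⟨h1, h2⟩ | ⟨h1, h2⟩
        · exact Or.inl h1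
        · exact Or.inr h1
      · refine ⟨e ⟨v, hv⟩, Finset.mem_image_of_mem _ (Finset.mem_univ _), ?_⟩
        rcases he ⟨v, hv⟩ with ⟨h1, h2⟩ | ⟨h1, h2⟩
        · exact Or.inr h2
        · exact Or.inl h2
    · intro v hv x hx y hy hxv hyv
      obtain ⟨b, -, rfl⟩ := Finset.mem_image.1 hx
      obtain ⟨b', -, rfl⟩ := Finset.mem_image.1 hy
      have key : ∀ c : B, (G.s (e c) = v ∨ G.t (e c) = v) → v = f c ∨ v = c.1 := by
        intro c hcv
        rcases he c with ⟨h1, h2⟩ | ⟨h1, h2⟩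
        · rw [h1, h2] at hcv
          rcases hcv with h3 | h3
          · exact Or.inl h3.symm
          · exact Or.inr h3.symm
        · rw [h1, h2] at hcv
          rcases hcv with h3 | h3
          · exact Or.inr h3.symm
          · exact Or.inl h3.symm
      have k1 := key b hxv
      have k2 := key b' hyv
      have hbb : b = b' := by
        rcases k1 with k1 | k1 <;> rcases k2 with k2 | k2
        · exact hfi (k1.symm.trans k2)
        · exact absurd (k2.symm.trans k1 ▸ b'.2 : f b ∈ B) (hnB b)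
        · exact absurd (k1.symm.trans k2 ▸ b.2 : f b' ∈ B) (hnB b')
        · exact Subtype.ext (k1.symm.trans k2)
      rw [hbb]
  · intro x hx
    obtain ⟨b, -, rfl⟩ := Finset.mem_image.1 hx
    rw [G.mem_cut]
    refine ⟨heF b, ?_⟩
    rcases he b with ⟨h1, h2⟩ | ⟨h1, h2⟩
    · rw [h1, h2]
      exact fun hh => hnA b (hh.1 (hfA b))
    · rw [h1, h2]
      exact fun hh => hnA b (hh.2 (hfA b))

/-- Converse count: if `N` is a perfect matching of `G.sub W`, `Z ⊆ W` and no edge of `N` has both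
ends in `Z`, then the partners of `Z` are `|Z|` distinct vertices of `nb Z ∩ (W \ Z)`. -/
theorem nb_card_of_isPM {W Z : Finset V} (hW : W ⊆ G.U) {N : Finset E} (hN : (G.sub W).IsPM N)
    (hZ : Z ⊆ W) (hi : N ∩ G.inn Z = ∅) : Z.card ≤ (G.nb Z ∩ (W \ Z)).card := by
  classical
  have hex : ∀ z : Z, ∃ e, ∃ q, e ∈ N ∧ ((G.s e = z.1 ∧ G.t e = q) ∨ (G.t e = z.1 ∧ G.s e = q)) := by
    intro z
    obtain ⟨e, he, hor⟩ := hN.exists_edge (v := z.1) (hZ z.2)
    rcases hor with h1 | h1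
    · exact ⟨e, G.t e, he, Or.inl ⟨h1, rfl⟩⟩
    · exact ⟨e, G.s e, he, Or.inr ⟨h1, rfl⟩⟩
  choose e q heN hq using hex
  have hinn : ∀ z : Z, e z ∈ G.inn W := fun z => hN.1 (heN z)
  have hqW : ∀ z : Z, q z ∈ W := by
    intro z
    obtain ⟨-, h1, h2⟩ := G.mem_inn.1 (hinn z)
    rcases hq z with ⟨-, h4⟩ | ⟨-, h4⟩
    · rw [← h4]; exact h2
    · rw [← h4]; exact h1
  have hqZ : ∀ z : Z, q z ∉ Z := by
    intro z hz
    have h0 : e z ∈ N ∩ G.inn Z := by
      refine Finset.mem_inter.2 ⟨heN z, G.mem_inn.2 ⟨(G.mem_inn.1 (hinn z)).1, ?_⟩⟩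
      rcases hq z with ⟨h3, h4⟩ | ⟨h3, h4⟩
      · rw [h3, h4]; exact ⟨z.2, hz⟩
      · rw [h3, h4]; exact ⟨hz, z.2⟩
    rw [hi] at h0
    exact absurd h0 (Finset.notMem_empty _)
  have hinj : Function.Injective q := by
    intro z z' hzz
    have h1 : G.s (e z) = q z ∨ G.t (e z) = q z := by
      rcases hq z with ⟨h3, h4⟩ | ⟨h3, h4⟩
      · exact Or.inr h4
      · exact Or.inl h4
    have h2 : G.s (e z') = q z ∨ G.t (e z') = q z := by
      rw [hzz]
      rcases hq z' with ⟨h3, h4⟩ | ⟨h3, h4⟩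
      · exact Or.inr h4
      · exact Or.inl h4
    have h3 : e z = e z' := hN.unique (v := q z) (hqW z) (heN z) (heN z') h1 h2
    have h4 := hq z
    have h5 := hq z'
    rw [← h3] at h5
    apply Subtype.ext
    rcases h4 with ⟨a1, a2⟩ | ⟨a1, a2⟩ <;> rcases h5 with ⟨b1, b2⟩ | ⟨b1, b2⟩
    · exact a1.symm.trans b1
    · exact absurd (a1.symm.trans b2 ▸ z.2 : q z' ∈ Z) (hqZ z')
    · exact absurd (a1.symm.trans b2 ▸ z.2 : q z' ∈ Z) (hqZ z')
    · exact a1.symm.trans b1
  have hcard : (Finset.univ.image q).card = Z.card := by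
    rw [Finset.card_image_of_injective _ hinj, Finset.card_univ, Fintype.card_coe]
  rw [← hcard]
  apply Finset.card_le_card
  intro x hx
  obtain ⟨z, -, rfl⟩ := Finset.mem_image.1 hx
  refine Finset.mem_inter.2 ⟨G.mem_nb.2 ⟨hW (hqW z), e z, (G.mem_inn.1 (hinn z)).1, ?_⟩,
    Finset.mem_sdiff.2 ⟨hqW z, hqZ z⟩⟩
  rcases hq z with ⟨h3, h4⟩ | ⟨h3, h4⟩
  · refine Or.inr ⟨h4, ?_⟩
    rw [h3]; exact z.2
  · refine Or.inl ⟨h4, ?_⟩
    rw [h3]; exact z.2

end MG
end ML
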