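import Pool.Agent.ML.A3b

/-!
# ML-A5: Tutte theorem for the bundled multigraphs
-/

set_option autoImplicit false
set_option linter.unusedSectionVars false
set_option linter.unusedFintypeInType false
set_option linter.unusedVariables false

namespace ML
namespace MG

variable {V E : Type} [Fintype V] [Fintype E] [DecidableEq V] [DecidableEq E] (G : MG V E)

/-- The simple graph on `U` of a multigraph. -/
def a5_gr : SimpleGraph {v // v ∈ G.U} where
  Adj a b := a ≠ b ∧ ∃ e ∈ G.F, s(G.s e, G.t e) = s(a.1, b.1)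
  symm := ⟨fun a b h => by
    obtain ⟨h1, e, he, h2⟩ := h
    exact ⟨h1.symm, e, he, by rw [h2, Sym2.eq_swap]⟩⟩
  loopless := ⟨fun a h => h.1 rfl⟩

theorem a5_pm (M : (G.a5_gr).Subgraph) (hM : M.IsPerfectMatching) : ∃ N, G.IsPM N := by
  classical
  have hM2 := SimpleGraph.Subgraph.isPerfectMatching_iff.mp hM
  have hex : ∀ z, z ∈ M.edgeSet → ∃ e, e ∈ G.F ∧ s(G.s e, G.t e) = z.map Subtype.val := by
    intro z
    induction z using Sym2.ind with
    | _ a b =>
      intro hz
      rw [SimpleGraph.Subgraph.mem_edgeSet] at hz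
      obtain ⟨_, e, he, h2⟩ := M.adj_sub hz
      exact ⟨e, he, by rw [h2, Sym2.map_mk]⟩
  choose c hcF hc using hex
  have hend : ∀ z (hz : z ∈ M.edgeSet) (v : V) (hv : v ∈ G.U),
      (G.s (c z hz) = v ∨ G.t (c z hz) = v) →
      ∃ w, M.Adj ⟨v, hv⟩ w ∧ z = s(⟨v, hv⟩, w) := by
    intro z hz v hv h
    have h1 : v ∈ s(G.s (c z hz), G.t (c z hz)) := by
      rw [Sym2.mem_iff]
      rcases h with h | h
      · exact Or.inl h.symm
      · exact Or.inr h.symm
    rw [hc z hz, Sym2.mem_map] at h1
    obtain ⟨a, ha, hav⟩ := h1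
    have hae : a = ⟨v, hv⟩ := Subtype.ext hav
    rw [hae, Sym2.mem_iff_exists] at ha
    obtain ⟨w, hw⟩ := ha
    refine ⟨w, ?_, hw⟩
    rw [hw, SimpleGraph.Subgraph.mem_edgeSet] at hz
    exact hz
  refine ⟨Finset.univ.filter (fun e => ∃ z, ∃ hz : z ∈ M.edgeSet, c z hz = e),
    G.isPM_of ?_ ?_ ?_ ?_⟩
  · intro e he
    obtain ⟨_, z, hz, hze⟩ := Finset.mem_filter.mp he
    rw [← hze]
    exact hcF z hz
  · intro e he
    obtain ⟨_, z, hz, hze⟩ := Finset.mem_filter.mp he
    subst hze
    intro hst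
    obtain ⟨w, hw1, hw2⟩ := hend z hz (G.s (c z hz)) (G.hs _ (hcF z hz)) (Or.inl rfl)
    have h1 := hc z hz
    have h3 : z.map Subtype.val = s(G.s (c z hz), w.1) := by
      conv_lhs => rw [hw2]
      rw [Sym2.map_mk]
    rw [h3, Sym2.eq_iff] at h1
    apply hw1.ne
    apply Subtype.ext
    rcases h1 with ⟨_, h1⟩ | ⟨h1, h2⟩
    · show G.s (c z hz) = w.1
      rw [← h1]
      exact hst
    · show G.s (c z hz) = w.1
      exact h1
  · intro v hv
    obtain ⟨w, hw, _⟩ := hM2 ⟨v, hv⟩
    have hz : s((⟨v, hv⟩ : {v // v ∈ G.U}), w) ∈ M.edgeSet := by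
      rw [SimpleGraph.Subgraph.mem_edgeSet]
      exact hw
    refine ⟨c _ hz, Finset.mem_filter.mpr ⟨Finset.mem_univ _, _, hz, rfl⟩, ?_⟩
    have h1 := hc _ hz
    rw [Sym2.map_mk, Sym2.eq_iff] at h1
    rcases h1 with ⟨h1, _⟩ | ⟨_, h1⟩
    · exact Or.inl h1
    · exact Or.inr h1
  · intro v hv e he f hf h1 h2
    obtain ⟨_, z, hz, hze⟩ := Finset.mem_filter.mp he
    obtain ⟨_, z', hz', hze'⟩ := Finset.mem_filter.mp hf
    rw [← hze] at h1
    rw [← hze'] at h2
    obtain ⟨w, hw1, hw2⟩ := hend z hz v hv h1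
    obtain ⟨w', hw1', hw2'⟩ := hend z' hz' v hv h2
    have hww : w = w' := (hM2 ⟨v, hv⟩).unique hw1 hw1'
    have hzz : z = z' := by rw [hw2, hw2', hww]
    subst hzz
    rw [← hze, ← hze']

/-- Tutte's theorem.  If `G` has no perfect matching then there are a set `S ⊆ U` and a family `Q`
of pairwise disjoint odd sets outside `S` such that all edges leaving a member of `Q` have an end in
`S`, with `|S| < |Q|`; if `|U|` is even then `|S| + 2 ≤ |Q|`.

Proof: let `Γ : SimpleGraph ↥G.U` be the graph with `a ~ b` iff `a ≠ b` and some `e ∈ F` has ends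
`a, b` (in one of the two orders).  A perfect matching subgraph `M` of `Γ`
(`SimpleGraph.Subgraph.IsPerfectMatching`) gives a perfect matching of `G`: choose for every edge of
`M` one edge of `F` with these ends (`isPM_of`).  So `Γ` has no perfect matching and
`SimpleGraph.tutte` gives a set `u` with `SimpleGraph.IsTutteViolator`: `u.ncard` is less than the
number of odd components of the graph with the vertices of `u` deleted.  `S` := image of `u` in `V`,
`Q` := the images in `V` of the supports of the odd components (different components have disjoint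
supports, nonempty since odd, so the number is the same; an edge of `F` leaving a component has its
other end in `u` (otherwise this end would be adjacent to the component in the deleted graph and so
belong to it)).  Parity: if `|U|` is even: `U` is the disjoint union of `S`, the odd components and
the even components, so `|S| + |Q|` is even and `|S| < |Q|` gives `|S| + 2 ≤ |Q|`
(`SimpleGraph.odd_ncard_oddComponents` may help). -/
theorem tutte (h : ¬ ∃ N, G.IsPM N) :
    ∃ S Q, G.Fam S Q ∧ S.card < Q.card ∧ (Even G.U.card → S.card + 2 ≤ Q.card) := by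
  classical
  have h1 : ¬ ∃ M : (G.a5_gr).Subgraph, M.IsPerfectMatching := fun ⟨M, hM⟩ => h (G.a5_pm M hM)
  rw [SimpleGraph.tutte] at h1
  push Not at h1
  obtain ⟨u, hu⟩ := h1
  unfold SimpleGraph.IsTutteViolator at hu
  have hverts : ((⊤ : (G.a5_gr).Subgraph).deleteVerts u).verts = uᶜ := by
    rw [SimpleGraph.Subgraph.deleteVerts_verts, SimpleGraph.Subgraph.verts_top]
    exact (Set.compl_eq_univ_sdiff u).symm
  have hvi : ∀ a, a ∈ ((⊤ : (G.a5_gr).Subgraph).deleteVerts u).verts ↔ a ∉ u := by
    intro a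
    rw [hverts]
    rfl
  obtain ⟨K, hK⟩ : ∃ K, K = ((⊤ : (G.a5_gr).Subgraph).deleteVerts u).coe := ⟨_, rfl⟩
  rw [← hK] at hu
  have hKadj : ∀ x y, (G.a5_gr).Adj x.1 y.1 → K.Adj x y := by
    intro x y hxy
    have hx : x.1 ∉ u := (hvi _).mp x.2
    have hy : y.1 ∉ u := (hvi _).mp y.2
    rw [hK, SimpleGraph.Subgraph.coe_adj, SimpleGraph.Subgraph.deleteVerts_adj]
    exact ⟨trivial, hx, trivial, hy, hxy⟩
  obtain ⟨img, himg⟩ : ∃ img : K.ConnectedComponent → Finset V,
      ∀ c v, v ∈ img c ↔ ∃ x, x ∈ c.supp ∧ x.1.1 = v :=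
    ⟨fun c => Finset.univ.filter (fun v => ∃ x, x ∈ c.supp ∧ x.1.1 = v), fun c v => by simp⟩
  have hcard : ∀ c, (img c).card = c.supp.ncard := by
    intro c
    have h2 : (img c : Set V) = (fun x : ((⊤ : (G.a5_gr).Subgraph).deleteVerts u).verts =>
        x.1.1) '' c.supp := by
      ext v
      rw [Finset.mem_coe, himg]
      rfl
    rw [← Set.ncard_coe_finset, h2, Set.ncard_image_of_injective]
    intro x y hxy
    exact Subtype.ext (Subtype.ext hxy)
  have hdisj : ∀ c c' v, v ∈ img c → v ∈ img c' → c = c' := by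
    intro c c' v h2 h3
    obtain ⟨x, hx, hxv⟩ := (himg c v).mp h2
    obtain ⟨y, hy, hyv⟩ := (himg c' v).mp h3
    have hxy : x = y := Subtype.ext (Subtype.ext (hxv.trans hyv.symm))
    rw [← hxy] at hy
    exact SimpleGraph.ConnectedComponent.eq_of_common_vertex hx hy
  have himgU : ∀ c, img c ⊆ G.U := by
    intro c v hv
    obtain ⟨x, _, hxv⟩ := (himg c v).mp hv
    rw [← hxv]
    exact x.1.2
  obtain ⟨S, hS⟩ : ∃ S : Finset V, S = (Finset.univ.filter (fun a => a ∈ u)).image
    Subtype.val := ⟨_, rfl⟩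
  have hmemS : ∀ v (hv : v ∈ G.U), v ∈ S ↔ (⟨v, hv⟩ : {v // v ∈ G.U}) ∈ u := by
    intro v hv
    rw [hS, Finset.mem_image]
    constructor
    · rintro ⟨a, ha, hav⟩
      have hae : a = ⟨v, hv⟩ := Subtype.ext hav
      rw [← hae]
      exact (Finset.mem_filter.mp ha).2
    · intro h2
      exact ⟨_, Finset.mem_filter.mpr ⟨Finset.mem_univ _, h2⟩, rfl⟩
  have hSU : S ⊆ G.U := by
    intro v hv
    rw [hS, Finset.mem_image] at hv
    obtain ⟨a, _, hav⟩ := hv
    rw [← hav]
    exact a.2
  have hScard : S.card = u.ncard := by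
    rw [hS, Finset.card_image_of_injective _ Subtype.val_injective, ← Set.ncard_coe_finset]
    congr 1
    ext a
    simp
  have hodd : ∀ c ∈ K.oddComponents, Odd (img c).card := by
    intro c hc
    rw [hcard]
    exact hc
  have : Fintype K.ConnectedComponent := Fintype.ofFinite _
  obtain ⟨Q, hQ⟩ : ∃ Q : Finset (Finset V), Q = (Finset.univ.filter
    (fun c => c ∈ K.oddComponents)).image img := ⟨_, rfl⟩
  have hmemQ : ∀ A, A ∈ Q ↔ ∃ c, c ∈ K.oddComponents ∧ img c = A := by
    intro A
    rw [hQ, Finset.mem_image]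
    constructor
    · rintro ⟨c, hc, hcA⟩
      exact ⟨c, (Finset.mem_filter.mp hc).2, hcA⟩
    · rintro ⟨c, hc, hcA⟩
      exact ⟨c, Finset.mem_filter.mpr ⟨Finset.mem_univ _, hc⟩, hcA⟩
  have hQcard : Q.card = K.oddComponents.ncard := by
    rw [hQ, Finset.card_image_of_injOn, ← Set.ncard_coe_finset]
    · congr 1
      ext c
      simp
    · intro c hc c' hc' hcc
      have hco : Odd (img c).card := hodd c (by simpa using hc)
      obtain ⟨v, hv⟩ := Finset.card_pos.mp hco.pos
      have hcc2 : img c = img c' := hcc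
      have hv' : v ∈ img c' := by rw [← hcc2]; exact hv
      exact hdisj c c' v hv hv'
  have hlt : S.card < Q.card := by rw [hScard, hQcard]; exact hu
  refine ⟨S, Q, ⟨hSU, ?_, ?_⟩, hlt, ?_⟩
  · intro A hA
    obtain ⟨c, hc, hcA⟩ := (hmemQ A).mp hA
    subst hcA
    refine ⟨himgU c, ?_, hodd c hc, ?_⟩
    · rw [Finset.disjoint_left]
      intro v hv hvS
      obtain ⟨x, hx, hxv⟩ := (himg c v).mp hv
      rw [hmemS v (himgU c hv)] at hvS
      have h2 := (hvi _).mp x.2
      apply h2
      have h3 : x.1 = ⟨v, himgU c hv⟩ := Subtype.ext hxv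
      rw [h3]
      exact hvS
    · intro e he
      rw [G.mem_cut] at he
      obtain ⟨heF, hne⟩ := he
      by_contra hcon
      push Not at hcon
      obtain ⟨hsS, htS⟩ := hcon
      have key : ∀ p q (hp : p ∈ G.U) (hq : q ∈ G.U), p ≠ q → s(G.s e, G.t e) = s(p, q) →
          q ∉ S → p ∈ img c → q ∈ img c := by
        intro p q hp hq hpq hs hqS hpc
        obtain ⟨x, hx, hxp⟩ := (himg c p).mp hpc
        have hqu : (⟨q, hq⟩ : {v // v ∈ G.U}) ∈
            ((⊤ : (G.a5_gr).Subgraph).deleteVerts u).verts := by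
          rw [hvi]
          intro h2
          exact hqS ((hmemS q hq).mpr h2)
        have hxy : K.Adj x ⟨⟨q, hq⟩, hqu⟩ := by
          apply hKadj
          refine ⟨?_, e, heF, ?_⟩
          · intro h2
            apply hpq
            rw [← hxp, h2]
          · show s(G.s e, G.t e) = s(x.1.1, q)
            rw [hxp]
            exact hs
        rw [himg]
        exact ⟨_, (c.mem_supp_congr_adj hxy).mp hx, rfl⟩
      apply hne
      have hst : G.s e ≠ G.t e := by
        intro h2
        apply hne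
        rw [h2]
      constructor
      · intro h2
        exact key _ _ (G.hs e heF) (G.ht e heF) hst rfl htS h2
      · intro h2
        exact key _ _ (G.ht e heF) (G.hs e heF) hst.symm Sym2.eq_swap hsS h2
  · intro A hA B hB hAB
    obtain ⟨c, hc, hcA⟩ := (hmemQ A).mp hA
    obtain ⟨c', hc', hcB⟩ := (hmemQ B).mp hB
    rw [Finset.disjoint_left]
    intro v hvA hvB
    apply hAB
    rw [← hcA] at hvA
    rw [← hcB] at hvB
    rw [← hcA, ← hcB, hdisj c c' v hvA hvB]
  · intro hev
    have h2 := K.odd_ncard_oddComponents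
    have h3 : Nat.card ((⊤ : (G.a5_gr).Subgraph).deleteVerts u).verts + u.ncard
        = G.U.card := by
      rw [Nat.card_coe_set_eq, hverts, add_comm, Set.ncard_add_ncard_compl,
        Nat.card_eq_fintype_card, Fintype.card_coe]
    rw [← hQcard] at h2
    rw [← hScard] at h3
    rw [← h3] at hev
    rcases Nat.even_or_odd Q.card with h4 | h4
    · have h5 : ¬ Odd (Nat.card ((⊤ : (G.a5_gr).Subgraph).deleteVerts u).verts) := by
        rw [← h2, Nat.not_odd_iff_even]
        exact h4
      rw [Nat.not_odd_iff_even] at h5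
      have h6 : Even S.card := (Nat.even_add.mp hev).mp h5
      obtain ⟨a, ha⟩ := h4
      obtain ⟨b, hb⟩ := h6
      omega
    · have h5 := h2.mp h4
      have h6 : ¬ Even S.card := by
        intro h7
        have h8 := (Nat.even_add.mp hev).mpr h7
        rw [← Nat.not_odd_iff_even] at h8
        exact h8 h5
      rw [Nat.not_even_iff_odd] at h6
      obtain ⟨a, ha⟩ := h4
      obtain ⟨b, hb⟩ := h6
      omega

end MG
end ML
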