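import Pool.Agent.ML.A3b

/-!
# ML-A6: families with many members (steps 0.6 and 0.7 of the proof)
-/

set_option autoImplicit false
set_option linter.unusedSectionVars false
set_option linter.unusedFintypeInType false
set_option linter.unusedVariables false

namespace ML
namespace MG

variable {V E : Type} [Fintype V] [Fintype E] [DecidableEq V] [DecidableEq E] (G : MG V E)

/-- The end in `S` of an edge leaving a member; the other end is in the member. -/
private lemma a6_end {S : Finset V} {Q : Finset (Finset V)} (hF : G.Fam S Q) {A : Finset V}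
    (hA : A ∈ Q) {e : E} (he : e ∈ G.cut A) :
    (G.s e ∈ S ∧ G.t e ∈ A) ∨ (G.t e ∈ S ∧ G.s e ∈ A) := by
  obtain ⟨-, h1, -⟩ := hF
  obtain ⟨-, hd, -, h2⟩ := h1 A hA
  have h3 := (G.mem_cut.1 he).2
  rcases h2 e he with h | h
  · have h4 : G.s e ∉ A := fun h5 => Finset.disjoint_left.1 hd h5 h
    left
    refine ⟨h, ?_⟩
    by_contra h5
    exact h3 ⟨fun h6 => absurd h6 h4, fun h6 => absurd h6 h5⟩
  · have h4 : G.t e ∉ A := fun h5 => Finset.disjoint_left.1 hd h5 h
    right
    refine ⟨h, ?_⟩
    by_contra h5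
    exact h3 ⟨fun h6 => absurd h6 h5, fun h6 => absurd h6 h4⟩

private lemma a6_disj {S : Finset V} {Q : Finset (Finset V)} (hF : G.Fam S Q) {A B : Finset V}
    (hA : A ∈ Q) (hB : B ∈ Q) (hAB : A ≠ B) {e : E} (he : e ∈ G.cut A) (he' : e ∈ G.cut B) :
    False := by
  have hd := hF.2.2 A hA B hB hAB
  have hdA := (hF.2.1 A hA).2.1
  have hdB := (hF.2.1 B hB).2.1
  rcases G.a6_end hF hA he with ⟨h1, h2⟩ | ⟨h1, h2⟩ <;>
    rcases G.a6_end hF hB he' with ⟨h3, h4⟩ | ⟨h3, h4⟩
  · exact Finset.disjoint_left.1 hd h2 h4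
  · exact Finset.disjoint_left.1 hdB h4 h1
  · exact Finset.disjoint_left.1 hdB h4 h1
  · exact Finset.disjoint_left.1 hd h2 h4

private lemma a6_sum_le {S : Finset V} {Q : Finset (Finset V)} {N : Finset E} (hN : G.IsPM N)
    (hF : G.Fam S Q) {S' : Finset V} (hS' : S' ⊆ S)
    (h : ∀ e ∈ N, (G.s e ∈ S' ∨ G.t e ∈ S') → ∀ A ∈ Q, e ∉ G.cut A) :
    ∑ A ∈ Q, (N ∩ G.cut A).card + S'.card ≤ S.card := by
  classical
  have h1 : ∑ A ∈ Q, (N ∩ G.cut A).card = (Q.biUnion (fun A => N ∩ G.cut A)).card := by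
    rw [Finset.card_biUnion]
    intro A hA B hB hAB
    show Disjoint (N ∩ G.cut A) (N ∩ G.cut B)
    rw [Finset.disjoint_left]
    intro e he he'
    exact G.a6_disj hF (Finset.mem_coe.1 hA) (Finset.mem_coe.1 hB) hAB (Finset.mem_inter.1 he).2 (Finset.mem_inter.1 he').2
  have h2 : (Q.biUnion (fun A => N ∩ G.cut A)).card ≤ (S \ S').card := by
    apply Finset.card_le_card_of_injOn (fun e => if G.s e ∈ S then G.s e else G.t e)
    · intro e he
      obtain ⟨A, hA, heA⟩ := Finset.mem_biUnion.1 (Finset.mem_coe.1 he)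
      obtain ⟨heN, hec⟩ := Finset.mem_inter.1 heA
      have hnot : ¬ (G.s e ∈ S' ∨ G.t e ∈ S') := fun h3 => h e heN h3 A hA hec
      push Not at hnot
      simp only [Finset.coe_sdiff, Set.mem_sdiff, Finset.mem_coe]
      by_cases hs : G.s e ∈ S
      · rw [if_pos hs]
        exact ⟨hs, hnot.1⟩
      · rw [if_neg hs]
        rcases G.a6_end hF hA hec with ⟨h3, -⟩ | ⟨h3, -⟩
        · exact absurd h3 hs
        · exact ⟨h3, hnot.2⟩
    · intro e he f hf hef
      obtain ⟨A, hA, heA⟩ := Finset.mem_biUnion.1 (Finset.mem_coe.1 he)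
      obtain ⟨heN, hec⟩ := Finset.mem_inter.1 heA
      obtain ⟨B, hB, hfB⟩ := Finset.mem_biUnion.1 (Finset.mem_coe.1 hf)
      obtain ⟨hfN, hfc⟩ := Finset.mem_inter.1 hfB
      have key : ∀ g : E, ∀ C ∈ Q, g ∈ G.cut C →
          (if G.s g ∈ S then G.s g else G.t g) ∈ S := by
        intro g C hC hg
        by_cases hs : G.s g ∈ S
        · rw [if_pos hs]
          exact hs
        · rw [if_neg hs]
          rcases G.a6_end hF hC hg with ⟨h3, -⟩ | ⟨h3, -⟩
          · exact absurd h3 hs
          · exact h3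
      have key2 : ∀ g : E, G.s g = (if G.s g ∈ S then G.s g else G.t g) ∨
          G.t g = (if G.s g ∈ S then G.s g else G.t g) := by
        intro g
        by_cases hs : G.s g ∈ S
        · left
          rw [if_pos hs]
        · right
          rw [if_neg hs]
      have hv := key e A hA hec
      simp only at hef
      refine hN.unique (hF.1 hv) heN hfN (key2 e) ?_
      rw [hef]
      exact key2 f
  rw [h1]
  have h3 : (S \ S').card + S'.card = S.card := Finset.card_sdiff_add_card_eq_card hS'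
  omega

/-- Members of a family have an edge of every perfect matching to `S`, different members to different
vertices of `S`: `|Q| ≤ |S|`.
Proof: a member `A` is odd, so `N ∩ cut A` is nonempty (`IsPM.odd_cut`); such an edge has one end in
`A` and, by `Fam`, the other end in `S`.  The map `A ↦` this end in `S` is injective: two members with
the same vertex of `S` would use the same edge (`IsPM.unique`), which then has an end in both members,
but its ends are one in `S` (disjoint from members) and one in the member; the members are disjoint. -/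
theorem fam_card_le {S : Finset V} {Q : Finset (Finset V)} {N : Finset E} (hN : G.IsPM N)
    (hF : G.Fam S Q) : Q.card ≤ S.card := by
  have h1 := G.a6_sum_le hN hF (S' := ∅) (Finset.empty_subset _) (by
    intro e _ he
    simp at he)
  have h2 : Q.card ≤ ∑ A ∈ Q, (N ∩ G.cut A).card := by
    rw [Finset.card_eq_sum_ones]
    apply Finset.sum_le_sum
    intro A hA
    have h3 := hN.odd_cut (hF.2.1 A hA).1 (hF.2.1 A hA).2.2.1
    exact h3.pos
  rw [Finset.card_empty] at h1
  omega

/-- More precisely: the total number of edges of `N` leaving members of the family is at most `|S|`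
(minus the number of vertices of `S` which are matched by `N` elsewhere). -/
theorem fam_sum_le {S : Finset V} {Q : Finset (Finset V)} {N : Finset E} (hN : G.IsPM N)
    (hF : G.Fam S Q) {S' : Finset V} (hS' : S' ⊆ S)
    (h : ∀ e ∈ N, (G.s e ∈ S' ∨ G.t e ∈ S') → ∀ A ∈ Q, e ∉ G.cut A) :
    ∑ A ∈ Q, (N ∩ G.cut A).card + S'.card ≤ S.card :=
  G.a6_sum_le hN hF hS' h

/-- Step 0.7.  `G` matching covered and connected, `S` nonempty, `|Q| = |S|`: every member of `Q` is
tight, `U` is the union of `S` and the members, there is no edge inside `S`.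
Proof: let `N` be a perfect matching.  `fam_sum_le` with `S' = ∅`: the numbers `|N ∩ cut A|` are all
odd, so at least 1, and their sum is at most `|S| = |Q|`: all are 1.  With `S' = {x}`, `x ∈ S`:
every vertex of `S` is the end of an edge of `N` leaving a member.  So no edge of `N` is inside `S`
(its end in `S` would be covered twice, `IsPM.unique`, the other edge has an end in a member which is
disjoint from `S`) and no edge of `N` joins `S` to `R := U \ S \ (union of the members)`.  As every
edge of `F` is in some perfect matching, the same holds for the edges of `F`.  Edges of `F` do not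
join `R` to a member (by `Fam` they would have an end in `S`).  So `cut R = ∅`; `R ≠ U` as `S` is
nonempty, so `R = ∅` by `Conn`. -/
theorem fam_eq (hM : G.Mc) (hC : G.Conn) {S : Finset V} {Q : Finset (Finset V)}
    (hF : G.Fam S Q) (hS : S.Nonempty) (hc : Q.card = S.card) :
    (∀ A ∈ Q, G.Tight A) ∧ G.U = S ∪ Q.biUnion id ∧ G.inn S = ∅ := by
  classical
  have hpos : ∀ N, G.IsPM N → ∀ A ∈ Q, 1 ≤ (N ∩ G.cut A).card := by
    intro N hN A hA
    exact (hN.odd_cut (hF.2.1 A hA).1 (hF.2.1 A hA).2.2.1).pos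
  have hge : ∀ N, G.IsPM N → Q.card ≤ ∑ A ∈ Q, (N ∩ G.cut A).card := by
    intro N hN
    rw [Finset.card_eq_sum_ones]
    exact Finset.sum_le_sum (hpos N hN)
  have hT : ∀ A ∈ Q, G.Tight A := by
    intro A hA N hN
    have h1 := G.fam_sum_le hN hF (S' := ∅) (Finset.empty_subset _) (by
      intro e _ he
      simp at he)
    rw [Finset.card_empty, add_zero, ← hc] at h1
    have h2 : ∑ A ∈ Q, 1 = ∑ A ∈ Q, (N ∩ G.cut A).card := by
      rw [← Finset.card_eq_sum_ones]
      exact le_antisymm (hge N hN) h1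
    exact ((Finset.sum_eq_sum_iff_of_le (hpos N hN)).1 h2 A hA).symm
  have hx : ∀ N, G.IsPM N → ∀ x ∈ S, ∃ e ∈ N, (G.s e = x ∨ G.t e = x) ∧
      ∃ A ∈ Q, e ∈ G.cut A := by
    intro N hN x hx
    by_contra hcon
    push Not at hcon
    have h1 := G.fam_sum_le hN hF (S' := {x}) (Finset.singleton_subset_iff.2 hx) (by
      intro e he h2 A hA
      simp only [Finset.mem_singleton] at h2
      exact hcon e he h2 A hA)
    have h2 := hge N hN
    rw [Finset.card_singleton] at h1
    omega
  have hE : ∀ e ∈ G.F, ∀ x ∈ S, (G.s e = x ∨ G.t e = x) → ∃ A ∈ Q, e ∈ G.cut A := by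
    intro e he x hxS h1
    obtain ⟨N, hN, heN⟩ := hM.2 e he
    obtain ⟨f, hf, h2, A, hA, hfA⟩ := hx N hN x hxS
    have h3 : e = f := hN.unique (hF.1 hxS) heN hf h1 h2
    subst h3
    exact ⟨A, hA, hfA⟩
  have hinn : G.inn S = ∅ := by
    rw [Finset.eq_empty_iff_forall_notMem]
    intro e he
    obtain ⟨heF, h1, h2⟩ := G.mem_inn.1 he
    obtain ⟨A, hA, heA⟩ := hE e heF _ h1 (Or.inl rfl)
    have hd := (hF.2.1 A hA).2.1
    rcases G.a6_end hF hA heA with ⟨-, h3⟩ | ⟨-, h3⟩
    · exact Finset.disjoint_left.1 hd h3 h2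
    · exact Finset.disjoint_left.1 hd h3 h1
  refine ⟨hT, ?_, hinn⟩
  have hR : ∀ u v : V, ∀ e ∈ G.F, ((G.s e = u ∧ G.t e = v) ∨ (G.s e = v ∧ G.t e = u)) →
      u ∈ G.U \ (S ∪ Q.biUnion id) → v ∈ S ∪ Q.biUnion id → False := by
    intro u v e he hends hu hv
    rw [Finset.mem_sdiff, Finset.mem_union, not_or] at hu
    obtain ⟨huU, huS, huQ⟩ := hu
    have huA : ∀ A ∈ Q, u ∉ A := by
      intro A hA h1
      exact huQ (Finset.mem_biUnion.2 ⟨A, hA, h1⟩)
    rcases Finset.mem_union.1 hv with hv | hv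
    · obtain ⟨A, hA, heA⟩ := hE e he v hv (by
        rcases hends with ⟨-, h⟩ | ⟨h, -⟩
        · exact Or.inr h
        · exact Or.inl h)
      have hd := (hF.2.1 A hA).2.1
      rcases hends with ⟨h1, h2⟩ | ⟨h1, h2⟩ <;>
        rcases G.a6_end hF hA heA with ⟨h3, h4⟩ | ⟨h3, h4⟩
      · rw [h1] at h3
        exact huS h3
      · rw [h1] at h4
        exact huA A hA h4
      · rw [h2] at h4
        exact huA A hA h4
      · rw [h2] at h3
        exact huS h3
    · obtain ⟨A, hA, hvA⟩ := Finset.mem_biUnion.1 hv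
      simp only [id] at hvA
      have hd := (hF.2.1 A hA).2.1
      have heA : e ∈ G.cut A := by
        rw [G.mem_cut]
        refine ⟨he, ?_⟩
        rcases hends with ⟨h1, h2⟩ | ⟨h1, h2⟩
        · rw [h1, h2]
          intro h3
          exact huA A hA (h3.2 hvA)
        · rw [h1, h2]
          intro h3
          exact huA A hA (h3.1 hvA)
      rcases hends with ⟨h1, h2⟩ | ⟨h1, h2⟩ <;>
        rcases G.a6_end hF hA heA with ⟨h3, h4⟩ | ⟨h3, h4⟩
      · rw [h1] at h3
        exact huS h3
      · rw [h1] at h4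
        exact huA A hA h4
      · rw [h2] at h4
        exact huA A hA h4
      · rw [h2] at h3
        exact huS h3
  have hcut : G.cut (G.U \ (S ∪ Q.biUnion id)) = ∅ := by
    rw [Finset.eq_empty_iff_forall_notMem]
    intro e he
    obtain ⟨heF, h1⟩ := G.mem_cut.1 he
    have hsU := G.hs e heF
    have htU := G.ht e heF
    by_cases h2 : G.s e ∈ G.U \ (S ∪ Q.biUnion id)
    · have h3 : G.t e ∉ G.U \ (S ∪ Q.biUnion id) := fun h4 => h1 ⟨fun _ => h4, fun _ => h2⟩
      have h4 : G.t e ∈ S ∪ Q.biUnion id := by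
        by_contra h5
        exact h3 (Finset.mem_sdiff.2 ⟨htU, h5⟩)
      exact hR _ _ e heF (Or.inl ⟨rfl, rfl⟩) h2 h4
    · have h3 : G.t e ∈ G.U \ (S ∪ Q.biUnion id) := by
        by_contra h4
        exact h1 ⟨fun h5 => absurd h5 h2, fun h5 => absurd h5 h4⟩
      have h4 : G.s e ∈ S ∪ Q.biUnion id := by
        by_contra h5
        exact h2 (Finset.mem_sdiff.2 ⟨hsU, h5⟩)
      exact hR _ _ e heF (Or.inr ⟨rfl, rfl⟩) h3 h4
  have hRe : G.U \ (S ∪ Q.biUnion id) = ∅ := by
    by_contra hne
    have h1 := hC _ (Finset.sdiff_subset) (Finset.nonempty_iff_ne_empty.2 hne) (by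
      intro h2
      obtain ⟨x, hx⟩ := hS
      have h3 : x ∈ G.U \ (S ∪ Q.biUnion id) := by
        rw [h2]
        exact hF.1 hx
      exact (Finset.mem_sdiff.1 h3).2 (Finset.mem_union_left _ hx))
    rw [hcut] at h1
    exact Finset.not_nonempty_empty h1
  apply Finset.Subset.antisymm
  · exact Finset.sdiff_eq_empty_iff_subset.1 hRe
  · apply Finset.union_subset hF.1
    intro x hx
    obtain ⟨A, hA, hxA⟩ := Finset.mem_biUnion.1 hx
    exact (hF.2.1 A hA).1 hxA

end MG
end ML
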