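import Pool.Agent.ML.A6

/-!
# ML-A7: step 0.8 (B1) for bricks
-/

set_option autoImplicit false
set_option linter.unusedSectionVars false
set_option linter.unusedFintypeInType false
set_option linter.unusedVariables false

namespace ML
namespace MG

variable {V E : Type} [Fintype V] [Fintype E] [DecidableEq V] [DecidableEq E] (G : MG V E)

variable {G} in
private lemma a7_ne (hB : G.Brick) {S : Finset V} {Q : Finset (Finset V)} (hF : G.Fam S Q)
    (hS : 2 ≤ S.card) : Q.card ≠ S.card := by
  intro hc
  obtain ⟨hM, hC, hnb, hnt⟩ := hB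
  have hSn : S.Nonempty := Finset.card_pos.1 (by omega)
  obtain ⟨ht, hU, hinn⟩ := G.fam_eq hM hC hF hSn hc
  obtain ⟨hSU, hQ, hd⟩ := hF
  have hev : Even G.U.card := hM.even
  have h1 : ∀ A ∈ Q, A.card = 1 := by
    intro A hA
    obtain ⟨hAU, hAS, hAo, -⟩ := hQ A hA
    by_contra hne
    have h3 : 3 ≤ A.card := by
      obtain ⟨k, hk⟩ := hAo
      omega
    have hle : (A ∪ S).card ≤ G.U.card := Finset.card_le_card (Finset.union_subset hAU hSU)
    rw [Finset.card_union_of_disjoint hAS] at hle
    refine hnt A ⟨hAU, hAo, h3, ?_⟩ (ht A hA)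
    obtain ⟨k, hk⟩ := hAo
    obtain ⟨l, hl⟩ := hev
    omega
  refine hnb ⟨S, hSU, fun e he => ?_⟩
  rw [G.mem_cut]
  refine ⟨he, fun hiff => ?_⟩
  by_cases hs : G.s e ∈ S
  · have : e ∈ G.inn S := G.mem_inn.2 ⟨he, hs, hiff.1 hs⟩
    rw [hinn] at this
    exact absurd this (Finset.notMem_empty _)
  · have htS : G.t e ∉ S := fun h => hs (hiff.2 h)
    have hsU : G.s e ∈ G.U := G.hs e he
    rw [hU, Finset.mem_union] at hsU
    have hsB : G.s e ∈ Q.biUnion id := hsU.resolve_left hs
    obtain ⟨A, hA, hsA⟩ := Finset.mem_biUnion.1 hsB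
    simp only [id] at hsA
    obtain ⟨hAU, hAS, hAo, hcut⟩ := hQ A hA
    have htA : G.t e ∈ A := by
      by_contra htA
      have hec : e ∈ G.cut A := G.mem_cut.2 ⟨he, fun h => htA (h.1 hsA)⟩
      rcases hcut e hec with h | h
      · exact hs h
      · exact htS h
    have := Finset.card_le_one.1 (le_of_eq (h1 A hA)) _ hsA _ htA
    exact hM.ne he this

variable {G} in
private lemma a7_parity {Q : Finset (Finset V)} (h : ∀ A ∈ Q, Odd A.card) :
    (∑ A ∈ Q, A.card) % 2 = Q.card % 2 := by
  rw [Finset.sum_nat_mod]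
  rw [Finset.sum_congr rfl (g := fun _ => 1) (fun A hA => Nat.odd_iff.1 (h A hA))]
  simp

variable {G} in
/-- Step 0.8 (B1).  In a brick, `|Q| + 2 ≤ |S|` if `|S| ≥ 2`.
Proof: `|Q| ≤ |S|` (`fam_card_le`).
(i) `|Q| = |S|`: `fam_eq`: members `A` are tight; `U \ A ⊇ S` has at least 2 elements and is odd
(`|U|` even), so at least 3; as the brick has no nontrivial tight cut, `|A| < 3`, `|A| = 1`.  So all
members are singletons; there is no edge inside `S`; an edge with no end in `S` would have its ends in
two members (or be inside a member: a loop, excluded by `Mc.ne`), excluded by `Fam`.  So `F ⊆ cut S`: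
`Bip`, contradiction.
(ii) `|Q| = |S| - 1`: the rest `R := U \ S \ ∪Q` is odd (`|U|` even, the members odd:
`|U| = |S| + ∑ |A| + |R|`) and `Fam S (insert R Q)` holds (`R` is not a member: disjoint and
nonempty; an edge leaving `R` has the other end in `S`, since an edge from `R` to a member would have
an end in `S`).  So (i) applies to `insert R Q`. -/
theorem Brick.b1 (hB : G.Brick) {S : Finset V} {Q : Finset (Finset V)} (hF : G.Fam S Q)
    (hS : 2 ≤ S.card) : Q.card + 2 ≤ S.card := by
  obtain ⟨N, hN⟩ := hB.1.1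
  have hle : Q.card ≤ S.card := G.fam_card_le hN hF
  have hne : Q.card ≠ S.card := a7_ne hB hF hS
  by_contra hcon
  have hc : Q.card + 1 = S.card := by omega
  have hev : Even G.U.card := hB.1.even
  obtain ⟨hSU, hQ, hd⟩ := id hF
  have hBU : Q.biUnion id ⊆ G.U := by
    intro v hv
    obtain ⟨A, hA, hvA⟩ := Finset.mem_biUnion.1 hv
    exact (hQ A hA).1 hvA
  have hBS : Disjoint S (Q.biUnion id) := by
    rw [Finset.disjoint_biUnion_right]
    intro A hA
    exact (hQ A hA).2.1.symm
  obtain ⟨R, hR⟩ : ∃ R, R = (G.U \ S) \ Q.biUnion id := ⟨_, rfl⟩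
  have hmR : ∀ v, v ∈ R ↔ v ∈ G.U ∧ v ∉ S ∧ ∀ A ∈ Q, v ∉ A := by
    intro v
    rw [hR]
    simp only [Finset.mem_sdiff, Finset.mem_biUnion, id, not_exists, not_and]
    tauto
  have hcardB : (Q.biUnion id).card = ∑ A ∈ Q, A.card := by
    rw [Finset.card_biUnion]
    · rfl
    · intro A hA B hB hne
      exact hd A hA B hB hne
  have hcardU : G.U.card = S.card + (∑ A ∈ Q, A.card) + R.card := by
    have e1 : ((G.U \ S) \ Q.biUnion id).card + (Q.biUnion id).card = (G.U \ S).card := by
      apply Finset.card_sdiff_add_card_eq_card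
      rw [Finset.subset_sdiff]
      exact ⟨hBU, hBS.symm⟩
    have e2 : (G.U \ S).card + S.card = G.U.card := Finset.card_sdiff_add_card_eq_card hSU
    rw [← hR, hcardB] at e1
    omega
  have hpar := a7_parity (Q := Q) (fun A hA => (hQ A hA).2.2.1)
  have hRo : Odd R.card := by
    obtain ⟨l, hl⟩ := hev
    rw [Nat.odd_iff]
    omega
  have hRn : R.Nonempty := Finset.card_pos.1 hRo.pos
  have hRQ : R ∉ Q := by
    intro hRQ
    obtain ⟨v, hv⟩ := hRn
    exact ((hmR v).1 hv).2.2 R hRQ hv
  have hFR : G.Fam S (insert R Q) := by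
    refine ⟨hSU, ?_, ?_⟩
    · intro A hA
      rcases Finset.mem_insert.1 hA with rfl | hA
      · refine ⟨fun v hv => ((hmR v).1 hv).1, ?_, hRo, ?_⟩
        · rw [Finset.disjoint_left]
          intro v hv
          exact ((hmR v).1 hv).2.1
        · intro e he
          rw [G.mem_cut] at he
          obtain ⟨heF, hne⟩ := he
          by_contra hSS
          push Not at hSS
          obtain ⟨hs, ht⟩ := hSS
          have key : ∀ a b : V, a ∈ A → b ∉ A → b ∈ G.U → b ∉ S →
              ∃ B ∈ Q, b ∈ B ∧ a ∉ B := by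
            intro a b ha hb hbU hbS
            have : ¬ ∀ B ∈ Q, b ∉ B := fun h => hb ((hmR b).2 ⟨hbU, hbS, h⟩)
            push Not at this
            obtain ⟨B, hBQ, hbB⟩ := this
            exact ⟨B, hBQ, hbB, ((hmR a).1 ha).2.2 B hBQ⟩
          by_cases hsR : G.s e ∈ A
          · have htR : G.t e ∉ A := fun h => hne ⟨fun _ => h, fun _ => hsR⟩
            obtain ⟨B, hBQ, h1, h2⟩ := key _ _ hsR htR (G.ht e heF) ht
            rcases (hQ B hBQ).2.2.2 e (G.mem_cut.2 ⟨heF, fun h => h2 (h.2 h1)⟩) with h | h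
            · exact hs h
            · exact ht h
          · have htR : G.t e ∈ A := by
              by_contra htR
              exact hne ⟨fun h => absurd h hsR, fun h => absurd h htR⟩
            obtain ⟨B, hBQ, h1, h2⟩ := key _ _ htR hsR (G.hs e heF) hs
            rcases (hQ B hBQ).2.2.2 e (G.mem_cut.2 ⟨heF, fun h => h2 (h.1 h1)⟩) with h | h
            · exact hs h
            · exact ht h
      · exact hQ A hA
    · have hdR : ∀ B ∈ Q, Disjoint R B := by
        intro B hB
        rw [Finset.disjoint_left]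
        intro v hv
        exact ((hmR v).1 hv).2.2 B hB
      intro A hA B hB hAB
      rcases Finset.mem_insert.1 hA with hA' | hA'
      · rcases Finset.mem_insert.1 hB with hB' | hB'
        · exact absurd (hA'.trans hB'.symm) hAB
        · rw [hA']; exact hdR B hB'
      · rcases Finset.mem_insert.1 hB with hB' | hB'
        · rw [hB']; exact (hdR A hA').symm
        · exact hd A hA' B hB' hAB
  refine a7_ne hB hFR hS ?_
  rw [Finset.card_insert_of_notMem hRQ, hc]


end MG
end ML
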