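import Pool.Agent.ML.A7

/-!
# ML-A7b: step 0.9 (B2) for bricks
-/

set_option autoImplicit false
set_option linter.unusedSectionVars false
set_option linter.unusedFintypeInType false
set_option linter.unusedVariables false

namespace ML
namespace MG

variable {V E : Type} [Fintype V] [Fintype E] [DecidableEq V] [DecidableEq E] (G : MG V E)

theorem a7b_le {G : MG V E} {N : Finset E} (hN : G.IsPM N) {v : V} (hv : v ∈ G.U) :
    (N.filter fun e => G.s e = v ∨ G.t e = v).card ≤ 1 := by
  rw [Finset.card_le_one]
  intro e he f hf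
  rw [Finset.mem_filter] at he hf
  exact hN.unique hv he.1 hf.1 he.2 hf.2

theorem a7b_one {G : MG V E} (hM : G.Mc) (hC : G.Conn) {K : Finset V} (hKU : K ⊆ G.U)
    (hK : K.Nonempty) (hKne : K ≠ G.U) (hev : Even K.card) {a : V} (ha : a ∈ G.U)
    (h : ∀ e ∈ G.cut K, G.s e = a ∨ G.t e = a) : False := by
  obtain ⟨e, he⟩ := hC K hKU hK hKne
  obtain ⟨N, hN, heN⟩ := hM.2 e (cut_sub G K he)
  have h1 := hN.even_cut hKU hev
  have h2 : e ∈ N ∩ G.cut K := Finset.mem_inter.2 ⟨heN, he⟩
  have h3 : 0 < (N ∩ G.cut K).card := Finset.card_pos.mpr ⟨e, h2⟩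
  have h4 : 1 < (N ∩ G.cut K).card := by
    obtain ⟨m, hm⟩ := h1
    omega
  obtain ⟨f, hf, g, hg, hfg⟩ := Finset.one_lt_card.mp h4
  rw [Finset.mem_inter] at hf hg
  exact hfg (hN.unique ha hf.1 hg.1 (h f hf.2) (h g hg.2))

variable {G} in
/-- Step 0.9 (B2).  A brick minus at most two vertices is connected.
Proof: `|S| = 0`: `cut K₁ = ∅` contradicts `Conn`.
`|S| = 1`, `S = {a}`: `|U|` is even so exactly one of `K₁`, `K₂` is even, call it `K` (nonempty, not
`U`).  An edge of `F` leaving `K` ends in `a`; let `N` be a perfect matching containing it; `N ∩ cut K`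
is even (`IsPM.even_cut`) and nonempty, so it has two edges, both with end `a`: contradiction to
`IsPM.unique`.  So `cut K = ∅`, contradiction to `Conn`.
`|S| = 2`, `S = {a, b}`: `|K₁| + |K₂|` is even.  Both odd: `Fam S {K₁, K₂}` contradicts `Brick.b1`
(`2 + 2 ≤ 2`).  Both even: `X := insert a K₁` is nontrivial (`|X| ≥ 3`, the complement contains `b`
and `K₂`, `|K₂| ≥ 2`) and tight: let `N` be a perfect matching, `N ∩ cut X` is odd; its edges have an
end `a` (outside `K₁`) or `b` (end in `K₁`; edges leaving `K₁` go to `a` or `b`), so there are at most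
two, hence exactly one.  Contradiction. -/
theorem Brick.b2 (hB : G.Brick) {S K₁ K₂ : Finset V} (hU : G.U = S ∪ (K₁ ∪ K₂))
    (h1 : Disjoint S K₁) (h2 : Disjoint S K₂) (h3 : Disjoint K₁ K₂) (hS : S.card ≤ 2)
    (hK₁ : K₁.Nonempty) (hK₂ : K₂.Nonempty)
    (h : ∀ e ∈ G.F, ¬ ((G.s e ∈ K₁ ∧ G.t e ∈ K₂) ∨ (G.s e ∈ K₂ ∧ G.t e ∈ K₁))) : False := by
  obtain ⟨hM, hC, -, hT⟩ := id hB
  have hK₁U : K₁ ⊆ G.U := by
    rw [hU]
    exact Finset.subset_union_left.trans Finset.subset_union_right
  have hK₂U : K₂ ⊆ G.U := by
    rw [hU]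
    exact Finset.subset_union_right.trans Finset.subset_union_right
  have hSU : S ⊆ G.U := by
    rw [hU]
    exact Finset.subset_union_left
  have hne1 : K₁ ≠ G.U := by
    intro h0
    obtain ⟨x, hx⟩ := hK₂
    exact Finset.disjoint_left.mp h3 (by rw [h0]; exact hK₂U hx) hx
  have hne2 : K₂ ≠ G.U := by
    intro h0
    obtain ⟨x, hx⟩ := hK₁
    exact Finset.disjoint_left.mp h3 hx (by rw [h0]; exact hK₁U hx)
  have hc1 : ∀ e ∈ G.cut K₁, (G.s e ∈ K₁ ∧ G.t e ∈ S) ∨ (G.t e ∈ K₁ ∧ G.s e ∈ S) := by
    intro e he
    obtain ⟨heF, hx⟩ := (mem_cut G).1 he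
    have hs := G.hs e heF
    have ht := G.ht e heF
    rw [hU, Finset.mem_union, Finset.mem_union] at hs ht
    have := h e heF
    tauto
  have hc2 : ∀ e ∈ G.cut K₂, (G.s e ∈ K₂ ∧ G.t e ∈ S) ∨ (G.t e ∈ K₂ ∧ G.s e ∈ S) := by
    intro e he
    obtain ⟨heF, hx⟩ := (mem_cut G).1 he
    have hs := G.hs e heF
    have ht := G.ht e heF
    rw [hU, Finset.mem_union, Finset.mem_union] at hs ht
    have := h e heF
    tauto
  have hcard : G.U.card = S.card + (K₁.card + K₂.card) := by
    rw [hU, Finset.card_union_of_disjoint, Finset.card_union_of_disjoint h3]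
    rw [Finset.disjoint_union_right]
    exact ⟨h1, h2⟩
  have hev := hM.even
  have hS3 : S.card = 0 ∨ S.card = 1 ∨ S.card = 2 := by omega
  rcases hS3 with hS0 | hS0 | hS0
  · rw [Finset.card_eq_zero] at hS0
    obtain ⟨e, he⟩ := hC K₁ hK₁U hK₁ hne1
    have := hc1 e he
    rw [hS0] at this
    simp at this
  · obtain ⟨a, ha⟩ := Finset.card_eq_one.mp hS0
    have haU : a ∈ G.U := hSU (by rw [ha]; exact Finset.mem_singleton_self a)
    rcases Nat.even_or_odd K₁.card with he1 | ho1
    · exact a7b_one hM hC hK₁U hK₁ hne1 he1 haU (fun e he => by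
        have := hc1 e he
        rw [ha, Finset.mem_singleton, Finset.mem_singleton] at this
        tauto)
    · have he2 : Even K₂.card := by
        rw [hcard, hS0] at hev
        rcases Nat.even_or_odd K₂.card with h5 | h5
        · exact h5
        · exfalso
          obtain ⟨m, hm⟩ := hev
          obtain ⟨p, hp⟩ := ho1
          obtain ⟨q, hq⟩ := h5
          omega
      exact a7b_one hM hC hK₂U hK₂ hne2 he2 haU (fun e he => by
        have := hc2 e he
        rw [ha, Finset.mem_singleton, Finset.mem_singleton] at this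
        tauto)
  · rcases Nat.even_or_odd K₁.card with he1 | ho1
    · have he2 : Even K₂.card := by
        rw [hcard, hS0] at hev
        rcases Nat.even_or_odd K₂.card with h5 | h5
        · exact h5
        · exfalso
          obtain ⟨m, hm⟩ := hev
          obtain ⟨p, hp⟩ := he1
          obtain ⟨q, hq⟩ := h5
          omega
      obtain ⟨a, b, hab, hSab⟩ := Finset.card_eq_two.mp hS0
      have haS : a ∈ S := by rw [hSab]; simp
      have hbS : b ∈ S := by rw [hSab]; simp
      have haK : a ∉ K₁ := Finset.disjoint_left.mp h1 haS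
      have hk1 : 2 ≤ K₁.card := by
        obtain ⟨p, hp⟩ := he1
        have := hK₁.card_pos
        omega
      have hk2 : 2 ≤ K₂.card := by
        obtain ⟨p, hp⟩ := he2
        have := hK₂.card_pos
        omega
      have hXc : (insert a K₁).card = K₁.card + 1 := Finset.card_insert_of_notMem haK
      have hXU : insert a K₁ ⊆ G.U := Finset.insert_subset (hSU haS) hK₁U
      have hXo : Odd (insert a K₁).card := by
        rw [hXc]
        exact he1.add_one
      refine hT (insert a K₁) ⟨hXU, hXo, by omega, by omega⟩ ?_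
      intro N hN
      have hodd := hN.odd_cut hXU hXo
      have hsub : N ∩ G.cut (insert a K₁) ⊆
          (N.filter fun e => G.s e = a ∨ G.t e = a) ∪ (N.filter fun e => G.s e = b ∨ G.t e = b) := by
        intro e he
        obtain ⟨heN, hec⟩ := Finset.mem_inter.1 he
        obtain ⟨heF, hx⟩ := (mem_cut G).1 hec
        have hs := G.hs e heF
        have ht := G.ht e heF
        have h6 := h e heF
        rw [hU, hSab] at hs ht
        simp only [Finset.mem_union, Finset.mem_insert, Finset.mem_singleton] at hs ht hx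
        rw [Finset.mem_union, Finset.mem_filter, Finset.mem_filter]
        by_cases ha1 : G.s e = a
        · exact Or.inl ⟨heN, Or.inl ha1⟩
        by_cases ha2 : G.t e = a
        · exact Or.inl ⟨heN, Or.inr ha2⟩
        by_cases hb1 : G.s e = b
        · exact Or.inr ⟨heN, Or.inl hb1⟩
        by_cases hb2 : G.t e = b
        · exact Or.inr ⟨heN, Or.inr hb2⟩
        exfalso
        rcases hs with (hs | hs) | hs | hs
        · exact ha1 hs
        · exact hb1 hs
        · rcases ht with (ht | ht) | ht | ht
          · exact ha2 ht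
          · exact hb2 ht
          · exact hx ⟨fun _ => Or.inr ht, fun _ => Or.inr hs⟩
          · exact h6 (Or.inl ⟨hs, ht⟩)
        · rcases ht with (ht | ht) | ht | ht
          · exact ha2 ht
          · exact hb2 ht
          · exact h6 (Or.inr ⟨hs, ht⟩)
          · refine hx ⟨fun h7 => ?_, fun h7 => ?_⟩
            · rcases h7 with h7 | h7
              · exact absurd h7 ha1
              · exact (Finset.disjoint_left.mp h3 h7 hs).elim
            · rcases h7 with h7 | h7
              · exact absurd h7 ha2
              · exact (Finset.disjoint_left.mp h3 h7 ht).elim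
      have hle := (Finset.card_le_card hsub).trans (Finset.card_union_le _ _)
      have h7 := a7b_le hN (hSU haS)
      have h8 := a7b_le hN (hSU hbS)
      obtain ⟨m, hm⟩ := hodd
      omega
    · have ho2 : Odd K₂.card := by
        rw [hcard, hS0] at hev
        rcases Nat.even_or_odd K₂.card with h5 | h5
        · exfalso
          obtain ⟨m, hm⟩ := hev
          obtain ⟨p, hp⟩ := ho1
          obtain ⟨q, hq⟩ := h5
          omega
        · exact h5
      have hKne : K₁ ≠ K₂ := by
        intro h0
        obtain ⟨x, hx⟩ := hK₁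
        exact Finset.disjoint_left.mp h3 hx (by rw [← h0]; exact hx)
      have hF : G.Fam S {K₁, K₂} := by
        refine ⟨hSU, ?_, ?_⟩
        · intro A hA
          rw [Finset.mem_insert, Finset.mem_singleton] at hA
          rcases hA with rfl | rfl
          · refine ⟨hK₁U, h1.symm, ho1, fun e he => ?_⟩
            have := hc1 e he
            tauto
          · refine ⟨hK₂U, h2.symm, ho2, fun e he => ?_⟩
            have := hc2 e he
            tauto
        · intro A hA B hB' hAB
          rw [Finset.mem_insert, Finset.mem_singleton] at hA hB'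
          rcases hA with rfl | rfl <;> rcases hB' with rfl | rfl
          · exact absurd rfl hAB
          · exact h3
          · exact h3.symm
          · exact absurd rfl hAB
      have h9 := hB.b1 hF (by omega)
      rw [Finset.card_pair hKne] at h9
      omega


end MG
end ML
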