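import Pool.Agent.ML.A7b

/-!
# ML-A7c: step 0.10 (independent sets in bricks)
-/

set_option autoImplicit false
set_option linter.unusedSectionVars false
set_option linter.unusedFintypeInType false
set_option linter.unusedVariables false

namespace ML
namespace MG

variable {V E : Type} [Fintype V] [Fintype E] [DecidableEq V] [DecidableEq E] (G : MG V E)

variable {G} in
/-- Step 0.10.  In a brick a nonempty independent set `Z` has at least `|Z| + 2` neighbours.
Proof: `Q` := the singletons `{z}`, `z ∈ Z`; `Fam (nb Z) Q` holds (`nb Z` is disjoint from `Z` as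
there is no edge inside `Z`).  `|nb Z| ≥ 2`: `Brick.b1`.  `|nb Z| = 0`: `Z` has no leaving edges, by
`Conn` `Z = U` and `F = ∅`; but then `G` is bipartite (`S = ∅`, `F = ∅`).  `|nb Z| = 1`:
`|Z| ≤ 1` (`fam_card_le`), `Z = {z}`, `nb Z = {a}`; if `U = {a, z}` then `F ⊆ cut {a}` (no loops):
`Bip`.  Otherwise `Brick.b2` with `S = {a}`, `K₁ = {z}`, `K₂ = U \ {a, z}`. -/
theorem Brick.ind_nb (hB : G.Brick) {Z : Finset V} (hZ : Z ⊆ G.U) (hne : Z.Nonempty)
    (hi : G.inn Z = ∅) : Z.card + 2 ≤ (G.nb Z).card := by
  obtain ⟨hM, hC, hnb, hT⟩ := id hB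
  have hinn : ∀ e ∈ G.F, G.s e ∈ Z → G.t e ∈ Z → False := by
    intro e he h1 h2
    have h3 : e ∈ G.inn Z := (mem_inn G).2 ⟨he, h1, h2⟩
    rw [hi] at h3
    exact absurd h3 (Finset.notMem_empty e)
  have hcut : ∀ e ∈ G.cut Z, (G.s e ∈ Z ∧ G.t e ∈ G.nb Z) ∨ (G.t e ∈ Z ∧ G.s e ∈ G.nb Z) := by
    intro e he
    obtain ⟨heF, hx⟩ := (mem_cut G).1 he
    by_cases h1 : G.s e ∈ Z
    · exact Or.inl ⟨h1, (mem_nb G).2 ⟨G.ht e heF, e, heF, Or.inr ⟨rfl, h1⟩⟩⟩
    · have h2 : G.t e ∈ Z := by
        by_contra h3
        exact hx ⟨fun h => absurd h h1, fun h => absurd h h3⟩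
      exact Or.inr ⟨h2, (mem_nb G).2 ⟨G.hs e heF, e, heF, Or.inl ⟨rfl, h2⟩⟩⟩
  have hdis : ∀ z ∈ Z, z ∉ G.nb Z := by
    intro z hz h1
    obtain ⟨-, e, he, h2⟩ := (mem_nb G).1 h1
    rcases h2 with ⟨h2, h3⟩ | ⟨h2, h3⟩
    · exact hinn e he (by rw [h2]; exact hz) h3
    · exact hinn e he h3 (by rw [h2]; exact hz)
  have hinj : Function.Injective (fun z : V => ({z} : Finset V)) := fun x y h =>
    Finset.singleton_injective h
  have hQc : (Z.image fun z : V => ({z} : Finset V)).card = Z.card :=
    Finset.card_image_of_injective _ hinj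
  have hF : G.Fam (G.nb Z) (Z.image fun z : V => ({z} : Finset V)) := by
    refine ⟨nb_sub G Z, ?_, ?_⟩
    · intro A hA
      obtain ⟨z, hz, rfl⟩ := Finset.mem_image.1 hA
      refine ⟨Finset.singleton_subset_iff.2 (hZ hz), ?_, ?_, ?_⟩
      · rw [Finset.disjoint_singleton_left]
        exact hdis z hz
      · rw [Finset.card_singleton]
        exact odd_one
      · intro e he
        obtain ⟨heF, hx⟩ := (mem_cut G).1 he
        rw [Finset.mem_singleton, Finset.mem_singleton] at hx
        by_cases h1 : G.s e = z
        · exact Or.inr ((mem_nb G).2 ⟨G.ht e heF, e, heF, Or.inr ⟨rfl, by rw [h1]; exact hz⟩⟩)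
        · have h2 : G.t e = z := by
            by_contra h3
            exact hx ⟨fun h => absurd h h1, fun h => absurd h h3⟩
          exact Or.inl ((mem_nb G).2 ⟨G.hs e heF, e, heF, Or.inl ⟨rfl, by rw [h2]; exact hz⟩⟩)
    · intro A hA B hB' hAB
      obtain ⟨z, hz, rfl⟩ := Finset.mem_image.1 hA
      obtain ⟨z', hz', rfl⟩ := Finset.mem_image.1 hB'
      rw [Finset.disjoint_singleton_left, Finset.mem_singleton]
      rintro rfl
      exact hAB rfl
  by_cases h2 : 2 ≤ (G.nb Z).card
  · have h3 := hB.b1 hF h2
    rw [hQc] at h3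
    exact h3
  · exfalso
    have h01 : (G.nb Z).card = 0 ∨ (G.nb Z).card = 1 := by omega
    rcases h01 with h0 | h1
    · rw [Finset.card_eq_zero] at h0
      have hce : G.cut Z = ∅ := by
        rw [Finset.eq_empty_iff_forall_notMem]
        intro e he
        have := hcut e he
        rw [h0] at this
        simp at this
      have hZU : Z = G.U := by
        by_contra h3
        obtain ⟨e, he⟩ := hC Z hZ hne h3
        rw [hce] at he
        exact absurd he (Finset.notMem_empty e)
      have hFe : G.F = ∅ := by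
        rw [← inn_U G, ← hZU]
        exact hi
      exact hnb ⟨∅, Finset.empty_subset _, by rw [hFe]; exact Finset.empty_subset _⟩
    · obtain ⟨N, hN⟩ := hM.1
      have h3 := fam_card_le G hN hF
      rw [hQc, h1] at h3
      have h4 : Z.card = 1 := by
        have := hne.card_pos
        omega
      obtain ⟨z, rfl⟩ := Finset.card_eq_one.mp h4
      obtain ⟨a, ha⟩ := Finset.card_eq_one.mp h1
      have haU : a ∈ G.U := nb_sub G _ (by rw [ha]; exact Finset.mem_singleton_self a)
      have hzU : z ∈ G.U := hZ (Finset.mem_singleton_self z)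
      have haz : z ≠ a := by
        intro h5
        apply hdis z (Finset.mem_singleton_self z)
        rw [ha, h5]
        exact Finset.mem_singleton_self a
      by_cases hU : G.U = {a, z}
      · refine hnb ⟨{a}, Finset.singleton_subset_iff.2 haU, fun e he => (mem_cut G).2 ⟨he, ?_⟩⟩
        have h5 := hM.ne he
        have h6 := G.hs e he
        have h7 := G.ht e he
        rw [hU, Finset.mem_insert, Finset.mem_singleton] at h6 h7
        rw [Finset.mem_singleton, Finset.mem_singleton]
        rintro ⟨h8, h9⟩
        rcases h6 with h6 | h6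
        · exact h5 (h6.trans (h8 h6).symm)
        · rcases h7 with h7 | h7
          · exact h5 ((h9 h7).trans h7.symm)
          · exact h5 (h6.trans h7.symm)
      · have hsub : ({a, z} : Finset V) ⊆ G.U := by
          intro x hx
          rw [Finset.mem_insert, Finset.mem_singleton] at hx
          rcases hx with rfl | rfl
          · exact haU
          · exact hzU
        have hne3 : (G.U \ {a, z}).Nonempty := by
          rw [Finset.sdiff_nonempty]
          intro h5
          exact hU (Finset.Subset.antisymm h5 hsub)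
        refine hB.b2 (S := {a}) (K₁ := {z}) (K₂ := G.U \ {a, z}) ?_ ?_ ?_ ?_ ?_ ?_ hne3 ?_
        · ext x
          simp only [Finset.mem_union, Finset.mem_singleton, Finset.mem_sdiff, Finset.mem_insert]
          constructor
          · intro hx
            by_cases h5 : x = a
            · exact Or.inl h5
            · by_cases h6 : x = z
              · exact Or.inr (Or.inl h6)
              · exact Or.inr (Or.inr ⟨hx, fun h7 => h7.elim h5 h6⟩)
          · rintro (rfl | rfl | ⟨hx, -⟩)
            · exact haU
            · exact hzU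
            · exact hx
        · rw [Finset.disjoint_singleton_left, Finset.mem_singleton]
          exact haz.symm
        · rw [Finset.disjoint_singleton_left, Finset.mem_sdiff]
          rintro ⟨-, h5⟩
          exact h5 (Finset.mem_insert_self _ _)
        · rw [Finset.disjoint_singleton_left, Finset.mem_sdiff]
          rintro ⟨-, h5⟩
          exact h5 (Finset.mem_insert_of_mem (Finset.mem_singleton_self _))
        · rw [Finset.card_singleton]
          norm_num
        · exact Finset.singleton_nonempty z
        · intro e he h5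
          rw [Finset.mem_singleton, Finset.mem_singleton, Finset.mem_sdiff, Finset.mem_sdiff] at h5
          rcases h5 with ⟨h5, -, h6⟩ | ⟨⟨-, h6⟩, h5⟩
          · have h7 : G.t e ∈ G.nb {z} := (mem_nb G).2 ⟨G.ht e he, e, he,
              Or.inr ⟨rfl, by rw [h5]; exact Finset.mem_singleton_self z⟩⟩
            rw [ha, Finset.mem_singleton] at h7
            exact h6 (by rw [h7]; exact Finset.mem_insert_self _ _)
          · have h7 : G.s e ∈ G.nb {z} := (mem_nb G).2 ⟨G.hs e he, e, he,
              Or.inl ⟨rfl, by rw [h5]; exact Finset.mem_singleton_self z⟩⟩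
            rw [ha, Finset.mem_singleton] at h7
            exact h6 (by rw [h7]; exact Finset.mem_insert_self _ _)

variable {G} in
/-- A brick has at least four vertices. Proof: `U` is nonempty (otherwise `F = ∅`, `Bip`); for
`v ∈ U`: `G.inn {v} = ∅` (no loops), so `|nb {v}| ≥ 3` and `v ∉ nb {v}`. -/
theorem Brick.four_le (hB : G.Brick) : 4 ≤ G.U.card := by
  obtain ⟨hM, hC, hnb, hT⟩ := id hB
  have hne : G.U.Nonempty := by
    by_contra h0
    rw [Finset.not_nonempty_iff_eq_empty] at h0
    refine hnb ⟨∅, Finset.empty_subset _, fun e he => ?_⟩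
    have h1 := G.hs e he
    rw [h0] at h1
    exact absurd h1 (Finset.notMem_empty _)
  obtain ⟨v, hv⟩ := hne
  have hi : G.inn {v} = ∅ := by
    rw [Finset.eq_empty_iff_forall_notMem]
    intro e he
    obtain ⟨heF, h1, h2⟩ := (mem_inn G).1 he
    rw [Finset.mem_singleton] at h1 h2
    exact hM.ne heF (h1.trans h2.symm)
  have h3 := hB.ind_nb (Finset.singleton_subset_iff.2 hv) (Finset.singleton_nonempty v) hi
  rw [Finset.card_singleton] at h3
  have h4 : v ∉ G.nb {v} := by
    intro h5
    obtain ⟨-, e, he, h6⟩ := (mem_nb G).1 h5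
    rw [Finset.mem_singleton, Finset.mem_singleton] at h6
    rcases h6 with ⟨h6, h7⟩ | ⟨h6, h7⟩
    · exact hM.ne he (h6.trans h7.symm)
    · exact hM.ne he (h7.trans h6.symm)
  have h5 : insert v (G.nb {v}) ⊆ G.U := Finset.insert_subset hv (nb_sub G _)
  have h6 := Finset.card_le_card h5
  rw [Finset.card_insert_of_notMem h4] at h6
  omega


end MG
end ML
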