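import Pool.Agent.ML.A3b

/-!
# ML-C1: contraction, first facts
-/

set_option autoImplicit false
set_option linter.unusedSectionVars false
set_option linter.unusedFintypeInType false
set_option linter.unusedVariables false

namespace ML
namespace MG

variable {V E : Type} [Fintype V] [Fintype E] [DecidableEq V] [DecidableEq E] (G : MG V E)

/-- The function `w` on `S`, zero elsewhere. -/
def _root_.ML.restr {E : Type} [DecidableEq E] {M : Type} [Zero M] (S : Finset E) (w : E → M) : E → M :=
  fun e => if e ∈ S then w e else 0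

@[simp] lemma shr_U (X : Finset V) (x : V) : (G.shr X x).U = insert x X := rfl

@[simp] lemma shr_F (X : Finset V) (x : V) : (G.shr X x).F = G.tou X := rfl

lemma shr_s (X : Finset V) (x : V) (e : E) :
    (G.shr X x).s e = if G.s e ∈ X then G.s e else x := rfl

lemma shr_t (X : Finset V) (x : V) (e : E) :
    (G.shr X x).t e = if G.t e ∈ X then G.t e else x := rfl

variable {X : Finset V} {x : V}

lemma shr_inc_mem (hx : x ∉ X) {v : V} (hv : v ∈ X) (e : E) :
    (G.shr X x).inc e v = G.inc e v := by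
  unfold inc
  rw [shr_s, shr_t]
  have hxv : x ≠ v := fun h => hx (h ▸ hv)
  have key : ∀ a : V, (if (if a ∈ X then a else x) = v then 1 else 0 : ℕ) = if a = v then 1 else 0 := by
    intro a
    by_cases ha : a ∈ X
    · rw [if_pos ha]
    · rw [if_neg ha, if_neg hxv, if_neg (fun h : a = v => ha (h ▸ hv))]
  rw [key, key]

lemma shr_inc_x (hx : x ∉ X) (e : E) : (G.shr X x).inc e x =
    (if G.s e ∈ X then 0 else 1) + (if G.t e ∈ X then 0 else 1) := by
  unfold inc
  rw [shr_s, shr_t]
  have key : ∀ a : V, (if (if a ∈ X then a else x) = x then 1 else 0 : ℕ) = if a ∈ X then 0 else 1 := by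
    intro a
    by_cases ha : a ∈ X
    · rw [if_pos ha, if_pos ha, if_neg (fun h : a = x => hx (h ▸ ha))]
    · rw [if_neg ha, if_neg ha, if_pos rfl]
  rw [key, key]

/-- Degrees at the vertices of `X` are unchanged (the edges of `F` at `v ∈ X` are in `tou X`). -/
lemma shr_deg_mem {M : Type} [AddCommMonoid M] (hx : x ∉ X) {v : V} (hv : v ∈ X) (w : E → M) :
    (G.shr X x).deg w v = G.deg w v := by
  unfold deg
  rw [shr_F]
  have h1 : ∑ e ∈ G.tou X, (G.shr X x).inc e v • w e = ∑ e ∈ G.tou X, G.inc e v • w e :=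
    Finset.sum_congr rfl fun e _ => by rw [G.shr_inc_mem hx hv]
  rw [h1]
  refine Finset.sum_subset (G.tou_sub X) fun e he hn => ?_
  have h2 : G.inc e v = 0 := by
    have h3 : ¬ (G.s e ∈ X ∨ G.t e ∈ X) := fun h => hn (G.mem_tou.2 ⟨he, h⟩)
    unfold inc
    rw [if_neg (fun h : G.s e = v => h3 (Or.inl (h ▸ hv))), if_neg (fun h : G.t e = v => h3 (Or.inr (h ▸ hv)))]
  rw [h2, zero_smul]

/-- The degree at the contracted vertex is the weight of the cut. -/
lemma shr_deg_x {M : Type} [AddCommMonoid M] (hx : x ∉ X) (w : E → M) :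
    (G.shr X x).deg w x = ∑ e ∈ G.cut X, w e := by
  unfold deg
  rw [shr_F]
  have hsub : G.cut X ⊆ G.tou X := by
    intro e he
    rw [G.mem_cut] at he
    rw [G.mem_tou]
    refine ⟨he.1, ?_⟩
    by_contra hc
    exact he.2 (iff_of_false (fun h => hc (Or.inl h)) (fun h => hc (Or.inr h)))
  rw [← Finset.sum_subset hsub]
  · refine Finset.sum_congr rfl fun e he => ?_
    rw [G.mem_cut] at he
    rw [G.shr_inc_x hx]
    by_cases h1 : G.s e ∈ X
    · have h2 : G.t e ∉ X := fun h2 => he.2 (iff_of_true h1 h2)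
      rw [if_pos h1, if_neg h2, zero_add, one_smul]
    · have h2 : G.t e ∈ X := by
        by_contra h2
        exact he.2 (iff_of_false h1 h2)
      rw [if_neg h1, if_pos h2, add_zero, one_smul]
  · intro e he hn
    rw [G.mem_tou] at he
    have h3 : G.s e ∈ X ↔ G.t e ∈ X := by
      by_contra hc
      exact hn (G.mem_cut.2 ⟨he.1, hc⟩)
    have h1 : G.s e ∈ X := by
      rcases he.2 with h | h
      · exact h
      · exact h3.2 h
    rw [G.shr_inc_x hx, if_pos h1, if_pos (h3.1 h1), add_zero, zero_smul]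

/-- Cuts of the contraction, shore not containing the contracted vertex. -/
lemma shr_cut_of_subset (hx : x ∉ X) {Z : Finset V} (hZ : Z ⊆ X) :
    (G.shr X x).cut Z = G.cut Z := by
  have hxZ : x ∉ Z := fun h => hx (hZ h)
  have key : ∀ a : V, (if a ∈ X then a else x) ∈ Z ↔ a ∈ Z := by
    intro a
    by_cases ha : a ∈ X
    · rw [if_pos ha]
    · rw [if_neg ha]
      exact iff_of_false hxZ (fun h => ha (hZ h))
  ext e
  rw [mem_cut, mem_cut, shr_F, shr_s, shr_t, key, key, mem_tou]
  constructor
  · rintro ⟨⟨h1, _⟩, h3⟩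
    exact ⟨h1, h3⟩
  · rintro ⟨h1, h3⟩
    refine ⟨⟨h1, ?_⟩, h3⟩
    by_contra hc
    exact h3 (iff_of_false (fun h => hc (Or.inl (hZ h))) (fun h => hc (Or.inr (hZ h))))

/-- Cuts of the contraction, shore containing the contracted vertex. -/
lemma shr_cut_insert (hX : X ⊆ G.U) (hx : x ∉ X) {Z : Finset V} (hZ : Z ⊆ X) :
    (G.shr X x).cut (insert x Z) = G.cut (Z ∪ (G.U \ X)) := by
  have key : ∀ a : V, a ∈ G.U → ((if a ∈ X then a else x) ∈ insert x Z ↔ a ∈ Z ∪ (G.U \ X)) := by
    intro a haU
    rw [Finset.mem_insert, Finset.mem_union, Finset.mem_sdiff]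
    by_cases ha : a ∈ X
    · rw [if_pos ha]
      constructor
      · rintro (h | h)
        · exact absurd (h ▸ ha) hx
        · exact Or.inl h
      · rintro (h | h)
        · exact Or.inr h
        · exact absurd ha h.2
    · rw [if_neg ha]
      exact iff_of_true (Or.inl rfl) (Or.inr ⟨haU, ha⟩)
  ext e
  rw [mem_cut, mem_cut, shr_F, shr_s, shr_t, mem_tou]
  constructor
  · rintro ⟨⟨h1, _⟩, h3⟩
    rw [key _ (G.hs e h1), key _ (G.ht e h1)] at h3
    exact ⟨h1, h3⟩
  · rintro ⟨h1, h3⟩
    rw [key _ (G.hs e h1), key _ (G.ht e h1)]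
    refine ⟨⟨h1, ?_⟩, h3⟩
    by_contra hc
    refine h3 (iff_of_true ?_ ?_)
    · exact Finset.mem_union_right _ (Finset.mem_sdiff.2 ⟨G.hs e h1, fun h => hc (Or.inl h)⟩)
    · exact Finset.mem_union_right _ (Finset.mem_sdiff.2 ⟨G.ht e h1, fun h => hc (Or.inr h)⟩)

/-- Degrees do not depend on the weights outside `F`. -/
lemma deg_restr {M : Type} [AddCommMonoid M] (w : E → M) (v : V) {S : Finset E} (hS : G.F ⊆ S) :
    G.deg (restr S w) v = G.deg w v := by
  unfold deg
  refine Finset.sum_congr rfl fun e he => ?_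
  have h : restr S w e = w e := if_pos (hS he)
  rw [h]

lemma sum_cut_restr {M : Type} [AddCommMonoid M] (w : E → M) {S T : Finset E} (hS : T ⊆ S) :
    ∑ e ∈ T, restr S w e = ∑ e ∈ T, w e := by
  exact Finset.sum_congr rfl fun e he => if_pos (hS he)

/-- A contraction of a connected graph is connected. -/
lemma shr_conn (hC : G.Conn) (hX : X ⊆ G.U) (hx : x ∈ G.U \ X) : (G.shr X x).Conn := by
  rw [Finset.mem_sdiff] at hx
  intro Y hY hne hYU
  rw [shr_U] at hY hYU
  by_cases hxY : x ∈ Y
  · have hZ : Y.erase x ⊆ X := by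
      intro a ha
      rw [Finset.mem_erase] at ha
      rcases Finset.mem_insert.1 (hY ha.2) with h | h
      · exact absurd h ha.1
      · exact h
    have hYe : insert x (Y.erase x) = Y := Finset.insert_erase hxY
    rw [← hYe, G.shr_cut_insert hX hx.2 hZ]
    apply hC
    · exact Finset.union_subset (hZ.trans hX) Finset.sdiff_subset
    · exact ⟨x, Finset.mem_union_right _ (Finset.mem_sdiff.2 hx)⟩
    · intro hU
      apply hYU
      rw [← hYe]
      congr 1
      apply Finset.Subset.antisymm hZ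
      intro a ha
      have h1 : a ∈ Y.erase x ∪ (G.U \ X) := by rw [hU]; exact hX ha
      rcases Finset.mem_union.1 h1 with h | h
      · exact h
      · exact absurd ha (Finset.mem_sdiff.1 h).2
  · have hZ : Y ⊆ X := by
      intro a ha
      rcases Finset.mem_insert.1 (hY ha) with h | h
      · exact absurd (h ▸ ha) hxY
      · exact h
    rw [G.shr_cut_of_subset hx.2 hZ]
    apply hC _ (hZ.trans hX) hne
    intro h
    apply hxY
    rw [h]
    exact hx.1

end MG
end ML
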