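import Pool.Agent.ML.C1

/-!
# ML-C2: perfect matchings and contraction
-/

set_option autoImplicit false
set_option linter.unusedSectionVars false
set_option linter.unusedFintypeInType false
set_option linter.unusedVariables false

namespace ML
namespace MG

variable {V E : Type} [Fintype V] [Fintype E] [DecidableEq V] [DecidableEq E] (G : MG V E)

variable {X : Finset V} {x x' : V}

/-- A perfect matching with exactly one edge in `cut X` gives a perfect matching of `G.shr X x`. -/
theorem shr_isPM_of (hX : X ⊆ G.U) (hx : x ∉ X) {N : Finset E} (hN : G.IsPM N)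
    (h : (N ∩ G.cut X).card = 1) : (G.shr X x).IsPM (N ∩ G.tou X) := by
  refine ⟨?_, ?_⟩
  · rw [shr_F]
    exact Finset.inter_subset_right
  · intro v hv
    rw [shr_U, Finset.mem_insert] at hv
    rcases hv with hv | hv
    · rw [hv]
      have h1 : ∑ e ∈ N ∩ G.tou X, (G.shr X x).inc e x = ∑ e ∈ N ∩ G.cut X, 1 := by
        have hsub : N ∩ G.cut X ⊆ N ∩ G.tou X := by
          intro e he
          rw [Finset.mem_inter] at he ⊢
          rw [G.mem_cut] at he
          rw [G.mem_tou]
          refine ⟨he.1, he.2.1, ?_⟩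
          by_contra hc
          exact he.2.2 (iff_of_false (fun h => hc (Or.inl h)) (fun h => hc (Or.inr h)))
        rw [← Finset.sum_subset hsub]
        · refine Finset.sum_congr rfl fun e he => ?_
          rw [Finset.mem_inter, G.mem_cut] at he
          rw [G.shr_inc_x hx]
          by_cases h1 : G.s e ∈ X
          · have h2 : G.t e ∉ X := fun h2 => he.2.2 (iff_of_true h1 h2)
            rw [if_pos h1, if_neg h2]
          · have h2 : G.t e ∈ X := by
              by_contra h2
              exact he.2.2 (iff_of_false h1 h2)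
            rw [if_neg h1, if_pos h2]
        · intro e he hn
          rw [Finset.mem_inter, G.mem_tou] at he
          have h3 : G.s e ∈ X ↔ G.t e ∈ X := by
            by_contra hc
            exact hn (Finset.mem_inter.2 ⟨he.1, G.mem_cut.2 ⟨he.2.1, hc⟩⟩)
          have h1 : G.s e ∈ X := by
            rcases he.2.2 with h | h
            · exact h
            · exact h3.2 h
          rw [G.shr_inc_x hx, if_pos h1, if_pos (h3.1 h1), add_zero]
      rw [h1, Finset.sum_const, smul_eq_mul, mul_one, h]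
    · rw [← hN.2 v (hX hv)]
      have h1 : ∑ e ∈ N ∩ G.tou X, (G.shr X x).inc e v = ∑ e ∈ N ∩ G.tou X, G.inc e v :=
        Finset.sum_congr rfl fun e _ => by rw [G.shr_inc_mem hx hv]
      rw [h1]
      refine Finset.sum_subset Finset.inter_subset_left fun e he hn => ?_
      have h3 : ¬ (G.s e ∈ X ∨ G.t e ∈ X) := fun h =>
        hn (Finset.mem_inter.2 ⟨he, G.mem_tou.2 ⟨hN.1 he, h⟩⟩)
      unfold inc
      rw [if_neg (fun h : G.s e = v => h3 (Or.inl (h ▸ hv))),
        if_neg (fun h : G.t e = v => h3 (Or.inr (h ▸ hv))), add_zero]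

/-- A perfect matching of `G.shr X x` has exactly one edge in `cut X` (look at the degree of `x`). -/
theorem shr_isPM_cut (hx : x ∉ X) {N : Finset E} (hN : (G.shr X x).IsPM N) :
    (N ∩ G.cut X).card = 1 := by
  have h0 := hN.2 x (Finset.mem_insert_self x X)
  have hNt : N ⊆ G.tou X := hN.1
  rw [← h0, Finset.card_eq_sum_ones]
  rw [← Finset.sum_subset (Finset.inter_subset_left : N ∩ G.cut X ⊆ N)]
  · refine Finset.sum_congr rfl fun e he => ?_
    rw [Finset.mem_inter, G.mem_cut] at he
    rw [G.shr_inc_x hx]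
    by_cases h1 : G.s e ∈ X
    · have h2 : G.t e ∉ X := fun h2 => he.2.2 (iff_of_true h1 h2)
      rw [if_pos h1, if_neg h2]
    · have h2 : G.t e ∈ X := by
        by_contra h2
        exact he.2.2 (iff_of_false h1 h2)
      rw [if_neg h1, if_pos h2]
  · intro e he hn
    have het := G.mem_tou.1 (hNt he)
    have h3 : G.s e ∈ X ↔ G.t e ∈ X := by
      by_contra hc
      exact hn (Finset.mem_inter.2 ⟨he, G.mem_cut.2 ⟨het.1, hc⟩⟩)
    have h1 : G.s e ∈ X := by
      rcases het.2 with h | h
      · exact h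
      · exact h3.2 h
    rw [G.shr_inc_x hx, if_pos h1, if_pos (h3.1 h1), add_zero]

/-- Gluing: perfect matchings of the two contractions with the same cut edge. -/
theorem shr_glue (hX : X ⊆ G.U) (hx : x ∈ G.U \ X) (hx' : x' ∈ X) {N₁ N₂ : Finset E}
    (h1 : (G.shr X x).IsPM N₁) (h2 : (G.shr (G.U \ X) x').IsPM N₂)
    (h : N₁ ∩ G.cut X = N₂ ∩ G.cut X) :
    G.IsPM (N₁ ∪ N₂) ∧ (N₁ ∪ N₂) ∩ G.cut X = N₁ ∩ G.cut X ∧ (N₁ ∪ N₂) ∩ G.tou X = N₁ ∧
      (N₁ ∪ N₂) ∩ G.tou (G.U \ X) = N₂ := by
  rw [Finset.mem_sdiff] at hx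
  have hN1 : N₁ ⊆ G.tou X := h1.1
  have hN2 : N₂ ⊆ G.tou (G.U \ X) := h2.1
  have hx'' : x' ∉ G.U \ X := fun h => (Finset.mem_sdiff.1 h).2 hx'
  -- an edge touching both sides is in the cut
  have hboth : ∀ e, e ∈ G.tou X → e ∈ G.tou (G.U \ X) → e ∈ G.cut X := by
    intro e ha hb
    rw [G.mem_tou] at ha hb
    rw [G.mem_cut]
    refine ⟨ha.1, fun hc => ?_⟩
    have hs : G.s e ∈ X := by
      rcases ha.2 with h | h
      · exact h
      · exact hc.2 h
    rcases hb.2 with h | h
    · exact (Finset.mem_sdiff.1 h).2 hs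
    · exact (Finset.mem_sdiff.1 h).2 (hc.1 hs)
  have h12 : ∀ e ∈ N₁, e ∈ G.tou (G.U \ X) → e ∈ N₂ := by
    intro e he ht
    have hc := hboth e (hN1 he) ht
    have : e ∈ N₂ ∩ G.cut X := by rw [← h]; exact Finset.mem_inter.2 ⟨he, hc⟩
    exact (Finset.mem_inter.1 this).1
  have h21 : ∀ e ∈ N₂, e ∈ G.tou X → e ∈ N₁ := by
    intro e he ht
    have hc := hboth e ht (hN2 he)
    have : e ∈ N₁ ∩ G.cut X := by rw [h]; exact Finset.mem_inter.2 ⟨he, hc⟩
    exact (Finset.mem_inter.1 this).1
  have hF : N₁ ∪ N₂ ⊆ G.F :=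
    Finset.union_subset (hN1.trans (G.tou_sub X)) (hN2.trans (G.tou_sub _))
  refine ⟨⟨hF, ?_⟩, ?_, ?_, ?_⟩
  · intro v hv
    by_cases hvX : v ∈ X
    · rw [← h1.2 v (Finset.mem_insert_of_mem hvX)]
      have e1 : ∑ e ∈ N₁, (G.shr X x).inc e v = ∑ e ∈ N₁, G.inc e v :=
        Finset.sum_congr rfl fun e _ => by rw [G.shr_inc_mem hx.2 hvX]
      rw [e1]
      refine (Finset.sum_subset Finset.subset_union_left fun e he hn => ?_).symm
      have he2 : e ∈ N₂ := (Finset.mem_union.1 he).resolve_left hn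
      have h3 : ¬ (G.s e ∈ X ∨ G.t e ∈ X) := fun hh =>
        hn (h21 e he2 (G.mem_tou.2 ⟨hF he, hh⟩))
      unfold inc
      rw [if_neg (fun hh : G.s e = v => h3 (Or.inl (hh ▸ hvX))),
        if_neg (fun hh : G.t e = v => h3 (Or.inr (hh ▸ hvX))), add_zero]
    · have hvX' : v ∈ G.U \ X := Finset.mem_sdiff.2 ⟨hv, hvX⟩
      rw [← h2.2 v (Finset.mem_insert_of_mem hvX')]
      have e1 : ∑ e ∈ N₂, (G.shr (G.U \ X) x').inc e v = ∑ e ∈ N₂, G.inc e v :=
        Finset.sum_congr rfl fun e _ => by rw [G.shr_inc_mem hx'' hvX']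
      rw [e1]
      refine (Finset.sum_subset Finset.subset_union_right fun e he hn => ?_).symm
      have he1 : e ∈ N₁ := (Finset.mem_union.1 he).resolve_right hn
      have h3 : ¬ (G.s e ∈ G.U \ X ∨ G.t e ∈ G.U \ X) := fun hh =>
        hn (h12 e he1 (G.mem_tou.2 ⟨hF he, hh⟩))
      unfold inc
      rw [if_neg (fun hh : G.s e = v => h3 (Or.inl (hh ▸ hvX'))),
        if_neg (fun hh : G.t e = v => h3 (Or.inr (hh ▸ hvX'))), add_zero]
  · rw [Finset.union_inter_distrib_right, ← h, Finset.union_self]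
  · apply Finset.Subset.antisymm
    · intro e he
      rw [Finset.mem_inter, Finset.mem_union] at he
      rcases he.1 with hh | hh
      · exact hh
      · exact h21 e hh he.2
    · intro e he
      exact Finset.mem_inter.2 ⟨Finset.mem_union_left _ he, hN1 he⟩
  · apply Finset.Subset.antisymm
    · intro e he
      rw [Finset.mem_inter, Finset.mem_union] at he
      rcases he.1 with hh | hh
      · exact h12 e hh he.2
      · exact hh
    · intro e he
      exact Finset.mem_inter.2 ⟨Finset.mem_union_right _ he, hN2 he⟩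

/-- A perfect matching with one edge in the cut is the union of its two parts. -/
theorem tou_union_tou (hX : X ⊆ G.U) {N : Finset E} (hN : N ⊆ G.F) :
    (N ∩ G.tou X) ∪ (N ∩ G.tou (G.U \ X)) = N := by
  apply Finset.Subset.antisymm
  · exact Finset.union_subset Finset.inter_subset_left Finset.inter_subset_left
  · intro e he
    rw [Finset.mem_union, Finset.mem_inter, Finset.mem_inter, G.mem_tou, G.mem_tou]
    have heF := hN he
    by_cases hs : G.s e ∈ X
    · exact Or.inl ⟨he, heF, Or.inl hs⟩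
    · exact Or.inr ⟨he, heF, Or.inl (Finset.mem_sdiff.2 ⟨G.hs e heF, hs⟩)⟩

end MG
end ML
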