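import Pool.Agent.ML.C2

/-!
# ML-C3: the hypotheses of the cone theorem pass to contractions (step 1.1)
-/

set_option autoImplicit false
set_option linter.unusedSectionVars false
set_option linter.unusedFintypeInType false
set_option linter.unusedVariables false

namespace ML
namespace MG

variable {V E : Type} [Fintype V] [Fintype E] [DecidableEq V] [DecidableEq E] (G : MG V E)

/-- Step 1.1.  `X` odd with `w(cut X) = r`: the contraction satisfies the hypotheses of the cone
theorem with the weight restricted to `tou X`.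
Proof: nonnegativity and support are clear.  Degrees: `shr_deg_mem`, `shr_deg_x`.  Odd sets
`Z' ⊆ insert x X`: if `x ∉ Z'` then `Z' ⊆ X`, `shr_cut_of_subset`.  If `x ∈ Z'`, `Z' = insert x Z` with
`Z = Z'.erase x ⊆ X` even, and `Z ∪ (U \ X)` is odd because `|U|` is even and `|X|` is odd
(disjoint union); `shr_cut_insert`.  The sum over the cut of the restricted weight is the sum of `w`
(all edges of the cuts of `G.shr X x` are in `tou X`, `sum_cut_restr`). -/
theorem coneHyp_shr (hE : Even G.U.card) {X : Finset V} {x : V} (hX : X ⊆ G.U) (hx : x ∈ G.U \ X)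
    (ho : Odd X.card) {r : ℚ} {w : E → ℚ} (hw : G.ConeHyp r w) (ht : ∑ e ∈ G.cut X, w e = r) :
    (G.shr X x).ConeHyp r (restr (G.tou X) w) := by
  obtain ⟨hnn, hsup, hdeg, hcut⟩ := hw
  obtain ⟨hxU, hxX⟩ := Finset.mem_sdiff.1 hx
  refine ⟨fun e => ?_, fun e he => ?_, fun v hv => ?_, fun Z' hZ' hZo => ?_⟩
  · unfold restr
    split_ifs
    · exact hnn e
    · exact le_refl 0
  · exact if_neg he
  · rw [deg_restr (G.shr X x) w v (S := G.tou X) (Finset.Subset.refl _)]
    rcases Finset.mem_insert.1 hv with rfl | hvX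
    · rw [shr_deg_x G hxX w]
      exact ht
    · rw [shr_deg_mem G hxX hvX w]
      exact hdeg v (hX hvX)
  · have e1 : ∑ e ∈ (G.shr X x).cut Z', restr (G.tou X) w e = ∑ e ∈ (G.shr X x).cut Z', w e :=
      sum_cut_restr w ((G.shr X x).cut_sub Z')
    rw [e1]
    have hZ'' : Z' ⊆ insert x X := hZ'
    by_cases hxZ : x ∈ Z'
    · have hZX : Z'.erase x ⊆ X := by
        intro z hz
        obtain ⟨hzx, hzZ⟩ := Finset.mem_erase.1 hz
        rcases Finset.mem_insert.1 (hZ'' hzZ) with h | h
        · exact absurd h hzx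
        · exact h
      have e2 : (G.shr X x).cut Z' = G.cut (Z'.erase x ∪ (G.U \ X)) := by
        rw [← shr_cut_insert G hX hxX hZX, Finset.insert_erase hxZ]
      rw [e2]
      refine hcut _ (Finset.union_subset (hZX.trans hX) Finset.sdiff_subset) ?_
      have hdis : Disjoint (Z'.erase x) (G.U \ X) :=
        Finset.disjoint_of_subset_left hZX Finset.disjoint_sdiff
      have hc1 : (Z'.erase x).card + 1 = Z'.card := Finset.card_erase_add_one hxZ
      have hc2 : (G.U \ X).card + X.card = G.U.card := Finset.card_sdiff_add_card_eq_card hX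
      rw [Finset.card_union_of_disjoint hdis]
      obtain ⟨a, ha⟩ := hZo
      obtain ⟨b, hb⟩ := ho
      obtain ⟨c, hc⟩ := hE
      rw [Nat.odd_iff]
      omega
    · have hZX : Z' ⊆ X := by
        intro z hz
        rcases Finset.mem_insert.1 (hZ'' hz) with h | h
        · exact absurd (h ▸ hz) hxZ
        · exact h
      rw [shr_cut_of_subset G hxX hZX]
      exact hcut Z' (hZX.trans hX) hZo

/-- If `r > 0` then `|U|` is even (otherwise `X = U` is odd with empty cut). -/
theorem ConeHyp.even {r : ℚ} {w : E → ℚ} (hw : G.ConeHyp r w) (hr : 0 < r) : Even G.U.card := by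
  by_contra hcon
  have hodd : Odd G.U.card := Nat.not_even_iff_odd.1 hcon
  have h1 := hw.2.2.2 G.U (Finset.Subset.refl _) hodd
  rw [cut_U, Finset.sum_empty] at h1
  exact absurd hr (not_lt.2 h1)

/-- The cut of a single vertex has weight `r`, and loops have weight zero.
Proof: `deg w v = w(cut {v}) + 2 w(inn {v})` (`hand` for `X = {v}`), all weights are nonnegative and
`w(cut {v}) ≥ r = deg w v`. -/
theorem ConeHyp.cut_single {r : ℚ} {w : E → ℚ} (hw : G.ConeHyp r w) {v : V} (hv : v ∈ G.U) :
    ∑ e ∈ G.cut {v}, w e = r ∧ ∀ e ∈ G.inn {v}, w e = 0 := by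
  obtain ⟨hnn, hsup, hdeg, hcut⟩ := hw
  have h1 := G.hand w {v}
  rw [Finset.sum_singleton, hdeg v hv] at h1
  have h2 := hcut {v} (Finset.singleton_subset_iff.2 hv) (by rw [Finset.card_singleton]; exact odd_one)
  have h3 : 0 ≤ ∑ e ∈ G.inn {v}, w e := Finset.sum_nonneg fun e _ => hnn e
  rw [nsmul_eq_mul, Nat.cast_ofNat] at h1
  have h4 : ∑ e ∈ G.inn {v}, w e = 0 := by linarith
  refine ⟨by linarith, fun e he => ?_⟩
  exact (Finset.sum_eq_zero_iff_of_nonneg fun e _ => hnn e).1 h4 e he

end MG
end ML
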