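import Pool.Agent.ML.C3

/-!
# ML-C4: gluing decompositions (step 1.3)
-/

set_option autoImplicit false
set_option linter.unusedSectionVars false
set_option linter.unusedFintypeInType false
set_option linter.unusedVariables false

namespace ML
namespace MG

variable {V E : Type} [Fintype V] [Fintype E] [DecidableEq V] [DecidableEq E] (G : MG V E)

/-- A matching with positive coefficient and one edge in `C`: that edge has positive weight. -/
private lemma c4_pos {C : Finset E} {w : E → ℚ} {c₁ : Finset E → ℚ} (hnn : ∀ N, 0 ≤ c₁ N)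
    (hw : ∀ h ∈ C, ∑ N : Finset E, (if h ∈ N then c₁ N else 0) = w h) {N : Finset E}
    (hN : 0 < c₁ N) {h : E} (hh : N ∩ C = {h}) : 0 < w h := by
  have hm : h ∈ N ∩ C := by rw [hh]; exact Finset.mem_singleton_self h
  rw [Finset.mem_inter] at hm
  rw [← hw h hm.2]
  have h1 : (if h ∈ N then c₁ N else 0) ≤ ∑ N : Finset E, (if h ∈ N then c₁ N else 0) := by
    apply Finset.single_le_sum (f := fun N : Finset E => if h ∈ N then c₁ N else 0)
    · intro M _
      show 0 ≤ if h ∈ M then c₁ M else 0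
      split_ifs
      · exact hnn M
      · exact le_refl 0
    · exact Finset.mem_univ N
  rw [if_pos hm.1] at h1
  exact lt_of_lt_of_le hN h1

private lemma c4_sum {C : Finset E} {w : E → ℚ} {c₁ c₂ : Finset E → ℚ} (hnn : ∀ N, 0 ≤ c₁ N)
    (h1c : ∀ N, c₁ N ≠ 0 → (N ∩ C).card = 1)
    (h1w : ∀ h ∈ C, ∑ N : Finset E, (if h ∈ N then c₁ N else 0) = w h)
    (h2c : ∀ N, c₂ N ≠ 0 → (N ∩ C).card = 1)
    (h2w : ∀ h ∈ C, ∑ N : Finset E, (if h ∈ N then c₂ N else 0) = w h) (e : E) :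
    ∑ N₁ : Finset E, ∑ N₂ : Finset E, (if N₁ ∩ C = N₂ ∩ C then
      c₁ N₁ * c₂ N₂ / (∑ f ∈ N₁ ∩ C, w f) * (if e ∈ N₁ then 1 else 0) else 0) =
      ∑ N₁ : Finset E, (if e ∈ N₁ then c₁ N₁ else 0) := by
  apply Finset.sum_congr rfl
  intro N₁ _
  by_cases hN : c₁ N₁ = 0
  · rw [hN, ite_self]
    apply Finset.sum_eq_zero
    intro N₂ _
    rw [zero_mul, zero_div, zero_mul, ite_self]
  · obtain ⟨h, hh⟩ := Finset.card_eq_one.1 (h1c N₁ hN)
    have hpos : 0 < w h := c4_pos hnn h1w (lt_of_le_of_ne (hnn N₁) (Ne.symm hN)) hh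
    have hm : h ∈ N₁ ∩ C := by rw [hh]; exact Finset.mem_singleton_self h
    rw [Finset.mem_inter] at hm
    have key : ∀ N₂ : Finset E, (if N₁ ∩ C = N₂ ∩ C then
        c₁ N₁ * c₂ N₂ / (∑ f ∈ N₁ ∩ C, w f) * (if e ∈ N₁ then 1 else 0) else 0) =
        (c₁ N₁ / w h * (if e ∈ N₁ then 1 else 0)) * (if h ∈ N₂ then c₂ N₂ else 0) := by
      intro N₂
      rw [hh, Finset.sum_singleton]
      by_cases h2 : c₂ N₂ = 0
      · rw [h2]
        simp
      · obtain ⟨k, hk⟩ := Finset.card_eq_one.1 (h2c N₂ h2)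
        by_cases hhN : h ∈ N₂
        · have h3 : h ∈ N₂ ∩ C := Finset.mem_inter.2 ⟨hhN, hm.2⟩
          have h4 : {h} = N₂ ∩ C := by
            rw [hk] at h3 ⊢
            rw [Finset.mem_singleton.1 h3]
          rw [if_pos h4, if_pos hhN]
          ring
        · have h4 : ¬ ({h} = N₂ ∩ C) := by
            intro h5
            apply hhN
            have h6 : h ∈ N₂ ∩ C := by rw [← h5]; exact Finset.mem_singleton_self h
            exact (Finset.mem_inter.1 h6).1
          rw [if_neg h4, if_neg hhN, mul_zero]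
    rw [Finset.sum_congr rfl (fun N₂ _ => key N₂), ← Finset.mul_sum, h2w h hm.2]
    by_cases he : e ∈ N₁
    · rw [if_pos he, if_pos he, mul_one, div_mul_cancel₀ _ (ne_of_gt hpos)]
    · rw [if_neg he, if_neg he, mul_zero, zero_mul]

/-- Step 1.3.  Decompositions of the two restricted weights on the contractions give a
decomposition of `w`, positive at all glued matchings with positive coefficients.

Proof: put `c N := c₁ (N ∩ tou X) * c₂ (N ∩ tou (U \ X)) / ∑ e ∈ N ∩ cut X, w e` if `G.IsPM N` and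
`(N ∩ cut X).card = 1`, and `0` otherwise.  Note that `N ∩ cut X = {h}` and the denominator is `w h`.
(i) `c N ≥ 0` as `w ≥ 0`.  (ii) support: by definition.
(iii) the sums: the map `N ↦ (N ∩ tou X, N ∩ tou (U \ X))` is a bijection between the perfect
matchings with one cut edge and the pairs `(N₁, N₂)` of perfect matchings of the contractions with
`N₁ ∩ cut X = N₂ ∩ cut X` (`shr_isPM_of`, `shr_glue`, `tou_union_tou`; for the second contraction use
`cut (U \ X) = cut X` and `U \ (U \ X) = X`).  Let `e ∈ tou X`.  `∑_{N ∋ e} c N` is the sum over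
`N₁ ∋ e` of `c₁ N₁ / w h` times the sum of `c₂ N₂` over `N₂ ∋ h`, where `N₁ ∩ cut X = {h}`
(`shr_isPM_cut`); the last sum is `w h` by the decomposition property of `c₂` at `h ∈ tou (U \ X)`.
If `w h ≠ 0` we get `c₁ N₁`.  If `w h = 0` then `c₁ N₁ = 0`, because `∑_{N ∋ h} c₁ N = w h = 0` with
nonnegative terms.  So the total is `∑_{N₁ ∋ e} c₁ N₁ = w e`.  The same for `e ∈ tou (U \ X)`.
For `e ∉ F` both sides are `0` (`c N ≠ 0` implies `N ⊆ F`).
(iv) positivity: for `N = N₁ ∪ N₂` as in the statement, `c₁ N₁ > 0` and `h ∈ N₁` give `w h > 0`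
(by the decomposition property of `c₁`), and the two parts of `N` are `N₁`, `N₂` (`shr_glue`; they are
perfect matchings by `Dec`). -/
theorem dec_glue {X : Finset V} {x x' : V} (hX : X ⊆ G.U) (hx : x ∈ G.U \ X) (hx' : x' ∈ X)
    {w : E → ℚ} (h0 : ∀ e, 0 ≤ w e) (hF : ∀ e, e ∉ G.F → w e = 0) {c₁ c₂ : Finset E → ℚ}
    (h1 : (G.shr X x).Dec (restr (G.tou X) w) c₁)
    (h2 : (G.shr (G.U \ X) x').Dec (restr (G.tou (G.U \ X)) w) c₂) :
    ∃ c, G.Dec w c ∧ ∀ N₁ N₂, 0 < c₁ N₁ → 0 < c₂ N₂ → N₁ ∩ G.cut X = N₂ ∩ G.cut X →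
      0 < c (N₁ ∪ N₂) := by
  classical
  obtain ⟨h1nn, h1s, h1w⟩ := h1
  obtain ⟨h2nn, h2s, h2w⟩ := h2
  have hxX : x ∉ X := (Finset.mem_sdiff.1 hx).2
  have hx'X : x' ∉ G.U \ X := fun h => (Finset.mem_sdiff.1 h).2 hx'
  have hXX : G.U \ X ⊆ G.U := Finset.sdiff_subset
  have hCC : G.cut (G.U \ X) = G.cut X := G.cut_compl hX
  have hCA : G.cut X ⊆ G.tou X := by
    rw [G.tou_eq X]
    exact Finset.subset_union_right
  have hCB : G.cut X ⊆ G.tou (G.U \ X) := by
    rw [G.tou_eq (G.U \ X), hCC]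
    exact Finset.subset_union_right
  have h1c : ∀ N, c₁ N ≠ 0 → (N ∩ G.cut X).card = 1 := fun N hN => G.shr_isPM_cut hxX (h1s N hN)
  have h2c : ∀ N, c₂ N ≠ 0 → (N ∩ G.cut X).card = 1 := by
    intro N hN
    rw [← hCC]
    exact G.shr_isPM_cut hx'X (h2s N hN)
  have h1w' : ∀ h ∈ G.cut X, ∑ N : Finset E, (if h ∈ N then c₁ N else 0) = w h := by
    intro h hh
    rw [h1w h]
    show (if h ∈ G.tou X then w h else 0) = w h
    rw [if_pos (hCA hh)]
  have h2w' : ∀ h ∈ G.cut X, ∑ N : Finset E, (if h ∈ N then c₂ N else 0) = w h := by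
    intro h hh
    rw [h2w h]
    show (if h ∈ G.tou (G.U \ X) then w h else 0) = w h
    rw [if_pos (hCB hh)]
  let c : Finset E → ℚ := fun N => if G.IsPM N ∧ (N ∩ G.cut X).card = 1 then
    c₁ (N ∩ G.tou X) * c₂ (N ∩ G.tou (G.U \ X)) / ∑ f ∈ N ∩ G.cut X, w f else 0
  have hc1 : ∀ N, G.IsPM N → (N ∩ G.cut X).card = 1 →
      c N = c₁ (N ∩ G.tou X) * c₂ (N ∩ G.tou (G.U \ X)) / ∑ f ∈ N ∩ G.cut X, w f := by
    intro N hN hN1
    show (if G.IsPM N ∧ (N ∩ G.cut X).card = 1 then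
      c₁ (N ∩ G.tou X) * c₂ (N ∩ G.tou (G.U \ X)) / ∑ f ∈ N ∩ G.cut X, w f else 0) = _
    rw [if_pos ⟨hN, hN1⟩]
  have hc0 : ∀ N, ¬ (G.IsPM N ∧ (N ∩ G.cut X).card = 1) → c N = 0 := by
    intro N hN
    show (if G.IsPM N ∧ (N ∩ G.cut X).card = 1 then
      c₁ (N ∩ G.tou X) * c₂ (N ∩ G.tou (G.U \ X)) / ∑ f ∈ N ∩ G.cut X, w f else 0) = _
    rw [if_neg hN]
  have hcn : ∀ N, c N ≠ 0 → G.IsPM N ∧ (N ∩ G.cut X).card = 1 := by
    intro N hN
    by_contra h
    exact hN (hc0 N h)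
  -- value at glued matchings
  have hgl : ∀ N₁ N₂, c₁ N₁ ≠ 0 → c₂ N₂ ≠ 0 → N₁ ∩ G.cut X = N₂ ∩ G.cut X →
      c (N₁ ∪ N₂) = c₁ N₁ * c₂ N₂ / (∑ f ∈ N₁ ∩ G.cut X, w f) ∧
        (N₁ ∪ N₂) ∩ G.tou X = N₁ ∧ (N₁ ∪ N₂) ∩ G.tou (G.U \ X) = N₂ := by
    intro N₁ N₂ hN₁ hN₂ hN
    obtain ⟨g1, g2, g3, g4⟩ := G.shr_glue hX hx hx' (h1s N₁ hN₁) (h2s N₂ hN₂) hN
    have g5 : ((N₁ ∪ N₂) ∩ G.cut X).card = 1 := by
      rw [g2]
      exact h1c N₁ hN₁
    refine ⟨?_, g3, g4⟩
    rw [hc1 _ g1 g5, g2, g3, g4]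
  -- change of variables
  have hcv : ∀ f : Finset E → ℚ, ∑ N : Finset E, c N * f N =
      ∑ p : Finset E × Finset E, (if p.1 ∩ G.cut X = p.2 ∩ G.cut X then
        c₁ p.1 * c₂ p.2 / (∑ f ∈ p.1 ∩ G.cut X, w f) * f (p.1 ∪ p.2) else 0) := by
    intro f
    refine Finset.sum_bij_ne_zero (fun N _ _ => (N ∩ G.tou X, N ∩ G.tou (G.U \ X)))
      (fun N _ _ => Finset.mem_univ _) ?_ ?_ ?_
    · intro N _ hN N' _ hN' hNN
      have e1 := congrArg Prod.fst hNN
      have e2 := congrArg Prod.snd hNN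
      simp only at e1 e2
      have hP := (hcn N (left_ne_zero_of_mul hN)).1
      have hP' := (hcn N' (left_ne_zero_of_mul hN')).1
      rw [← G.tou_union_tou hX hP.1, ← G.tou_union_tou hX hP'.1, e1, e2]
    · rintro ⟨N₁, N₂⟩ _ hp
      simp only at hp
      have hcond : N₁ ∩ G.cut X = N₂ ∩ G.cut X := by
        by_contra h
        exact hp (if_neg h)
      rw [if_pos hcond] at hp
      have hA : c₁ N₁ ≠ 0 := by
        intro h
        apply hp
        rw [h, zero_mul, zero_div, zero_mul]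
      have hB : c₂ N₂ ≠ 0 := by
        intro h
        apply hp
        rw [h, mul_zero, zero_div, zero_mul]
      obtain ⟨g1, g2, g3⟩ := hgl N₁ N₂ hA hB hcond
      refine ⟨N₁ ∪ N₂, Finset.mem_univ _, ?_, ?_⟩
      · rw [g1]
        exact hp
      · rw [g2, g3]
    · intro N _ hN
      obtain ⟨hP, hP1⟩ := hcn N (left_ne_zero_of_mul hN)
      have e1 : N ∩ G.tou X ∩ G.cut X = N ∩ G.cut X := by
        rw [Finset.inter_assoc, Finset.inter_eq_right.2 hCA]
      have e2 : N ∩ G.tou (G.U \ X) ∩ G.cut X = N ∩ G.cut X := by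
        rw [Finset.inter_assoc, Finset.inter_eq_right.2 hCB]
      simp only
      rw [e1, e2, if_pos rfl, G.tou_union_tou hX hP.1, hc1 N hP hP1]
  have hpair : ∀ g : Finset E → Finset E → ℚ, ∑ p : Finset E × Finset E, g p.1 p.2 =
      ∑ N₁ : Finset E, ∑ N₂ : Finset E, g N₁ N₂ := by
    intro g
    rw [Fintype.sum_prod_type]
  refine ⟨c, ⟨?_, fun N hN => (hcn N hN).1, ?_⟩, ?_⟩
  · intro N
    show 0 ≤ (if G.IsPM N ∧ (N ∩ G.cut X).card = 1 then
      c₁ (N ∩ G.tou X) * c₂ (N ∩ G.tou (G.U \ X)) / ∑ f ∈ N ∩ G.cut X, w f else 0)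
    split_ifs
    · exact div_nonneg (mul_nonneg (h1nn _) (h2nn _)) (Finset.sum_nonneg fun f _ => h0 f)
    · exact le_refl 0
  · intro e
    have hstart : ∑ N : Finset E, (if e ∈ N then c N else 0) =
        ∑ N : Finset E, c N * (if e ∈ N then 1 else 0) := by
      apply Finset.sum_congr rfl
      intro N _
      by_cases he : e ∈ N
      · rw [if_pos he, if_pos he, mul_one]
      · rw [if_neg he, if_neg he, mul_zero]
    rw [hstart, hcv fun N => if e ∈ N then 1 else 0]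
    by_cases heA : e ∈ G.tou X
    · have hst : ∀ N₁ N₂ : Finset E, (if N₁ ∩ G.cut X = N₂ ∩ G.cut X then
          c₁ N₁ * c₂ N₂ / (∑ f ∈ N₁ ∩ G.cut X, w f) * (if e ∈ N₁ ∪ N₂ then 1 else 0) else 0) =
          (if N₁ ∩ G.cut X = N₂ ∩ G.cut X then
          c₁ N₁ * c₂ N₂ / (∑ f ∈ N₁ ∩ G.cut X, w f) * (if e ∈ N₁ then 1 else 0) else 0) := by
        intro N₁ N₂
        by_cases hcond : N₁ ∩ G.cut X = N₂ ∩ G.cut X
        · rw [if_pos hcond, if_pos hcond]
          by_cases hA : c₁ N₁ = 0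
          · rw [hA, zero_mul, zero_div, zero_mul, zero_mul]
          by_cases hB : c₂ N₂ = 0
          · rw [hB, mul_zero, zero_div, zero_mul, zero_mul]
          obtain ⟨g1, g2, g3⟩ := hgl N₁ N₂ hA hB hcond
          have hiff : e ∈ N₁ ∪ N₂ ↔ e ∈ N₁ := by
            constructor
            · intro h
              rw [← g2]
              exact Finset.mem_inter.2 ⟨h, heA⟩
            · intro h
              exact Finset.mem_union_left _ h
          by_cases he : e ∈ N₁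
          · rw [if_pos he, if_pos (hiff.2 he)]
          · rw [if_neg he, if_neg (fun h => he (hiff.1 h))]
        · rw [if_neg hcond, if_neg hcond]
      rw [hpair fun N₁ N₂ => (if N₁ ∩ G.cut X = N₂ ∩ G.cut X then
          c₁ N₁ * c₂ N₂ / (∑ f ∈ N₁ ∩ G.cut X, w f) * (if e ∈ N₁ ∪ N₂ then 1 else 0) else 0),
        Finset.sum_congr rfl fun N₁ _ => Finset.sum_congr rfl fun N₂ _ => hst N₁ N₂,
        c4_sum h1nn h1c h1w' h2c h2w' e, h1w e]
      show (if e ∈ G.tou X then w e else 0) = w e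
      rw [if_pos heA]
    · by_cases heB : e ∈ G.tou (G.U \ X)
      · have hst : ∀ N₁ N₂ : Finset E, (if N₁ ∩ G.cut X = N₂ ∩ G.cut X then
            c₁ N₁ * c₂ N₂ / (∑ f ∈ N₁ ∩ G.cut X, w f) * (if e ∈ N₁ ∪ N₂ then 1 else 0) else 0) =
            (if N₂ ∩ G.cut X = N₁ ∩ G.cut X then
            c₂ N₂ * c₁ N₁ / (∑ f ∈ N₂ ∩ G.cut X, w f) * (if e ∈ N₂ then 1 else 0) else 0) := by
          intro N₁ N₂
          by_cases hcond : N₁ ∩ G.cut X = N₂ ∩ G.cut X
          · rw [if_pos hcond, if_pos hcond.symm, hcond]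
            by_cases hA : c₁ N₁ = 0
            · rw [hA, mul_zero, zero_mul, zero_div, zero_mul, zero_mul]
            by_cases hB : c₂ N₂ = 0
            · rw [hB, mul_zero, zero_mul, zero_div, zero_mul, zero_mul]
            obtain ⟨g1, g2, g3⟩ := hgl N₁ N₂ hA hB hcond
            have hiff : e ∈ N₁ ∪ N₂ ↔ e ∈ N₂ := by
              constructor
              · intro h
                rw [← g3]
                exact Finset.mem_inter.2 ⟨h, heB⟩
              · intro h
                exact Finset.mem_union_right _ h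
            rw [mul_comm (c₁ N₁) (c₂ N₂)]
            by_cases he : e ∈ N₂
            · rw [if_pos he, if_pos (hiff.2 he)]
            · rw [if_neg he, if_neg (fun h => he (hiff.1 h))]
          · rw [if_neg hcond, if_neg (fun h => hcond h.symm)]
        rw [hpair fun N₁ N₂ => (if N₁ ∩ G.cut X = N₂ ∩ G.cut X then
            c₁ N₁ * c₂ N₂ / (∑ f ∈ N₁ ∩ G.cut X, w f) * (if e ∈ N₁ ∪ N₂ then 1 else 0) else 0),
          Finset.sum_congr rfl fun N₁ _ => Finset.sum_congr rfl fun N₂ _ => hst N₁ N₂,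
          Finset.sum_comm, c4_sum h2nn h2c h2w' h1c h1w' e, h2w e]
        show (if e ∈ G.tou (G.U \ X) then w e else 0) = w e
        rw [if_pos heB]
      · have heF : e ∉ G.F := by
          intro he
          rcases G.mem_tou_or hX he with h | h | h
          · apply heA
            rw [G.tou_eq X]
            exact Finset.mem_union_left _ h
          · exact heA (hCA h)
          · apply heB
            rw [G.tou_eq (G.U \ X)]
            exact Finset.mem_union_left _ h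
        rw [hF e heF]
        apply Finset.sum_eq_zero
        rintro ⟨N₁, N₂⟩ _
        simp only
        by_cases hcond : N₁ ∩ G.cut X = N₂ ∩ G.cut X
        · rw [if_pos hcond]
          by_cases hA : c₁ N₁ = 0
          · rw [hA, zero_mul, zero_div, zero_mul]
          by_cases hB : c₂ N₂ = 0
          · rw [hB, mul_zero, zero_div, zero_mul]
          have he1 : e ∉ N₁ := fun h => heA ((h1s N₁ hA).1 h)
          have he2 : e ∉ N₂ := fun h => heB ((h2s N₂ hB).1 h)
          have he3 : e ∉ N₁ ∪ N₂ := by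
            intro h
            rcases Finset.mem_union.1 h with h | h
            · exact he1 h
            · exact he2 h
          rw [if_neg he3, mul_zero]
        · rw [if_neg hcond]
  · intro N₁ N₂ hN₁ hN₂ hN
    rw [(hgl N₁ N₂ (ne_of_gt hN₁) (ne_of_gt hN₂) hN).1]
    obtain ⟨h, hh⟩ := Finset.card_eq_one.1 (h1c N₁ (ne_of_gt hN₁))
    have hpos : 0 < w h := c4_pos h1nn h1w' hN₁ hh
    rw [hh, Finset.sum_singleton]
    exact div_pos (mul_pos hN₁ hN₂) hpos

end MG
end ML
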