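import Pool.Agent.ML.C3
import Pool.Agent.ML.A5

/-!
# ML-C5: a perfect matching in the support (step 1.4)
-/

set_option autoImplicit false
set_option linter.unusedSectionVars false
set_option linter.unusedFintypeInType false
set_option linter.unusedVariables false

namespace ML
namespace MG

variable {V E : Type} [Fintype V] [Fintype E] [DecidableEq V] [DecidableEq E] (G : MG V E)

/-- Step 1.4.  If `r > 0`, the support of `w` contains a perfect matching.
Proof: let `G' := G.res (F.filter (0 < w))` (`res` keeps only these edges).  If `G'` has no perfect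
matching, `tutte` gives `S`, `Q` with `G'.Fam S Q` and `|S| < |Q|`.  For `A ∈ Q` the weight of
`G.cut A` equals the weight of `G'.cut A` (the other edges have weight 0) and is `≥ r`.  The edges of
`G'.cut A` have an end in `S`, and the sets `G'.cut A` (`A ∈ Q`) are disjoint, so
`r |Q| ≤ ∑_{A ∈ Q} w(G'.cut A) ≤ ∑_{v ∈ S} deg w v = r |S|`, a contradiction (`r > 0`). -/
theorem exists_isPM_pos {r : ℚ} {w : E → ℚ} (hw : G.ConeHyp r w) (hr : 0 < r) :
    ∃ N, G.IsPM N ∧ ∀ e ∈ N, 0 < w e := by
  by_contra hcon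
  push Not at hcon
  obtain ⟨hw0, hw1, hw2, hw3⟩ := hw
  have hF' : ∀ e, e ∈ (G.res (G.F.filter (fun e => 0 < w e))).F ↔ e ∈ G.F ∧ 0 < w e := by
    intro e
    show e ∈ G.F ∩ (G.F.filter (fun e => 0 < w e)) ↔ _
    rw [Finset.mem_inter, Finset.mem_filter]
    exact ⟨fun h => h.2, fun h => ⟨h.1, h⟩⟩
  have hno : ¬ ∃ N, (G.res (G.F.filter (fun e => 0 < w e))).IsPM N := by
    rintro ⟨N, hN1, hN2⟩
    obtain ⟨e, he, hle⟩ := hcon N ⟨fun e he => ((hF' e).1 (hN1 he)).1, hN2⟩
    exact absurd ((hF' e).1 (hN1 he)).2 (not_lt.2 hle)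
  obtain ⟨S, Q, ⟨hSU, hQ, hdisj⟩, hlt, -⟩ := (G.res (G.F.filter (fun e => 0 < w e))).tutte hno
  have hcut : ∀ A e, e ∈ (G.res (G.F.filter (fun e => 0 < w e))).cut A ↔
      (e ∈ G.F ∧ 0 < w e) ∧ ¬ (G.s e ∈ A ↔ G.t e ∈ A) := by
    intro A e
    show e ∈ Finset.filter _ _ ↔ _
    rw [Finset.mem_filter, hF']
    exact Iff.rfl
  have h1 : ∀ A ∈ Q, r ≤ ∑ e ∈ G.F,
      (if e ∈ (G.res (G.F.filter (fun e => 0 < w e))).cut A then w e else 0) := by
    intro A hA
    refine (hw3 A (hQ A hA).1 (hQ A hA).2.2.1).trans (le_of_eq ?_)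
    rw [cut, Finset.sum_filter]
    refine Finset.sum_congr rfl fun e he => ?_
    by_cases hc : G.s e ∈ A ↔ G.t e ∈ A
    · rw [if_neg (not_not.2 hc), if_neg (fun h => ((hcut A e).1 h).2 hc)]
    · rw [if_pos hc]
      by_cases hp : 0 < w e
      · rw [if_pos ((hcut A e).2 ⟨⟨he, hp⟩, hc⟩)]
      · rw [if_neg (fun h => hp ((hcut A e).1 h).1.2)]
        exact le_antisymm (not_lt.1 hp) (hw0 e)
  have h2 : ∀ e ∈ G.F, ∑ A ∈ Q,
      (if e ∈ (G.res (G.F.filter (fun e => 0 < w e))).cut A then w e else 0) ≤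
      ∑ v ∈ S, G.inc e v • w e := by
    intro e he
    have hnn : ∀ v ∈ S, 0 ≤ G.inc e v • w e := fun v _ => nsmul_nonneg (hw0 e) _
    by_cases hex : ∃ A ∈ Q, e ∈ (G.res (G.F.filter (fun e => 0 < w e))).cut A
    · obtain ⟨A, hA, heA⟩ := hex
      have huniq : ∀ B ∈ Q, B ≠ A →
          (if e ∈ (G.res (G.F.filter (fun e => 0 < w e))).cut B then w e else 0) = 0 := by
        intro B hB hBA
        refine if_neg fun heB => ?_
        have hAS := (hQ A hA).2.1
        have hBS := (hQ B hB).2.1
        have hAB := hdisj A hA B hB (Ne.symm hBA)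
        have e1 := (hQ A hA).2.2.2 e heA
        have c1 := ((hcut A e).1 heA).2
        have c2 := ((hcut B e).1 heB).2
        rw [Finset.disjoint_left] at hAS hBS hAB
        have e1' : G.s e ∈ S ∨ G.t e ∈ S := e1
        rcases e1' with h | h
        · have a1 : G.s e ∉ A := fun h' => hAS h' h
          have b1 : G.s e ∉ B := fun h' => hBS h' h
          have a2 : G.t e ∈ A := by
            by_contra h'
            exact c1 ⟨fun x => absurd x a1, fun x => absurd x h'⟩
          have b2 : G.t e ∈ B := by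
            by_contra h'
            exact c2 ⟨fun x => absurd x b1, fun x => absurd x h'⟩
          exact hAB a2 b2
        · have a1 : G.t e ∉ A := fun h' => hAS h' h
          have b1 : G.t e ∉ B := fun h' => hBS h' h
          have a2 : G.s e ∈ A := by
            by_contra h'
            exact c1 ⟨fun x => absurd x h', fun x => absurd x a1⟩
          have b2 : G.s e ∈ B := by
            by_contra h'
            exact c2 ⟨fun x => absurd x h', fun x => absurd x b1⟩
          exact hAB a2 b2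
      rw [Finset.sum_eq_single_of_mem A hA huniq, if_pos heA]
      have key : ∀ v ∈ S, 1 ≤ G.inc e v → w e ≤ ∑ v ∈ S, G.inc e v • w e := by
        intro v hv h
        refine le_trans ?_ (Finset.single_le_sum hnn hv)
        rw [nsmul_eq_mul]
        have : (1 : ℚ) ≤ G.inc e v := by exact_mod_cast h
        exact le_mul_of_one_le_left (hw0 e) this
      have e1 : G.s e ∈ S ∨ G.t e ∈ S := (hQ A hA).2.2.2 e heA
      rcases e1 with h | h
      · refine key _ h ?_
        unfold inc
        rw [if_pos rfl]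
        exact Nat.le_add_right _ _
      · refine key _ h ?_
        unfold inc
        rw [if_pos (rfl : G.t e = G.t e)]
        exact Nat.le_add_left _ _
    · push Not at hex
      rw [Finset.sum_eq_zero fun A hA => if_neg (hex A hA)]
      exact Finset.sum_nonneg hnn
  have h3 : (Q.card : ℚ) * r ≤ S.card * r := by
    calc (Q.card : ℚ) * r = ∑ A ∈ Q, r := by rw [Finset.sum_const, nsmul_eq_mul]
      _ ≤ ∑ A ∈ Q, ∑ e ∈ G.F,
          (if e ∈ (G.res (G.F.filter (fun e => 0 < w e))).cut A then w e else 0) :=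
        Finset.sum_le_sum h1
      _ = ∑ e ∈ G.F, ∑ A ∈ Q,
          (if e ∈ (G.res (G.F.filter (fun e => 0 < w e))).cut A then w e else 0) :=
        Finset.sum_comm
      _ ≤ ∑ e ∈ G.F, ∑ v ∈ S, G.inc e v • w e := Finset.sum_le_sum h2
      _ = ∑ v ∈ S, ∑ e ∈ G.F, G.inc e v • w e := Finset.sum_comm
      _ = ∑ v ∈ S, r := Finset.sum_congr rfl fun v hv => hw2 v (hSU hv)
      _ = S.card * r := by rw [Finset.sum_const, nsmul_eq_mul]
  have h4 : (Q.card : ℚ) ≤ S.card := le_of_mul_le_mul_right h3 hr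
  have h5 : Q.card ≤ S.card := by exact_mod_cast h4
  omega

end MG
end ML
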