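import Pool.Agent.ML.C3

/-!
# ML-C6: peeling off a perfect matching (step 1.5)
-/

set_option autoImplicit false
set_option linter.unusedSectionVars false
set_option linter.unusedFintypeInType false
set_option linter.unusedVariables false

namespace ML
namespace MG

variable {V E : Type} [Fintype V] [Fintype E] [DecidableEq V] [DecidableEq E] (G : MG V E)

/-- The weight of a cut after subtracting `l` on `N`. -/
private lemma c6_sum (w : E → ℚ) (l : ℚ) (N T : Finset E) :
    ∑ e ∈ T, (w e - (if e ∈ N then l else 0)) = ∑ e ∈ T, w e - l * ((N ∩ T).card : ℚ) := by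
  rw [Finset.sum_sub_distrib, ← Finset.sum_filter, Finset.sum_const, nsmul_eq_mul,
    Finset.filter_mem_eq_inter, Finset.inter_comm T N, mul_comm]

private lemma c6_deg {w : E → ℚ} (l : ℚ) {N : Finset E} (hN : G.IsPM N) {v : V} (hv : v ∈ G.U) :
    G.deg (fun e => w e - (if e ∈ N then l else 0)) v = G.deg w v - l := by
  have h1 : ∑ e ∈ G.F, G.inc e v • (if e ∈ N then l else 0) = l := by
    have h2 : ∀ e ∈ G.F, G.inc e v • (if e ∈ N then l else (0 : ℚ)) =
        if e ∈ N then (G.inc e v : ℚ) * l else 0 := by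
      intro e _
      by_cases he : e ∈ N
      · simp [he]
      · simp [he]
    rw [Finset.sum_congr rfl h2, ← Finset.sum_filter, Finset.filter_mem_eq_inter,
      Finset.inter_eq_right.2 hN.1, ← Finset.sum_mul, ← Nat.cast_sum, hN.2 v hv, Nat.cast_one,
      one_mul]
  unfold deg
  have h3 : ∀ e ∈ G.F, G.inc e v • (w e - (if e ∈ N then l else 0)) =
      G.inc e v • w e - G.inc e v • (if e ∈ N then l else (0 : ℚ)) := by
    intro e _
    rw [smul_sub]
  rw [Finset.sum_congr rfl h3, Finset.sum_sub_distrib, h1]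

/-- Odd sets that are not nontrivial are met once. -/
private lemma c6_triv {N : Finset E} (hN : G.IsPM N) {X : Finset V} (hX : X ⊆ G.U)
    (ho : Odd X.card) (hn : ¬ G.Nontriv X) : (N ∩ G.cut X).card = 1 := by
  have hev : Even G.U.card := hN.even
  have hle : X.card ≤ G.U.card := Finset.card_le_card hX
  by_cases h3 : 3 ≤ X.card
  · have h4 : ¬ (X.card + 3 ≤ G.U.card) := fun h => hn ⟨hX, ho, h3, h⟩
    have h5 : (G.U \ X).card = 1 := by
      rw [Finset.card_sdiff_of_subset hX]
      obtain ⟨a, ha⟩ := ho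
      obtain ⟨b, hb⟩ := hev
      omega
    have h6 := hN.card (X := G.U \ X) Finset.sdiff_subset
    rw [G.cut_compl hX, h5] at h6
    omega
  · have h5 : X.card = 1 := by
      obtain ⟨a, ha⟩ := ho
      omega
    have h6 := hN.card hX
    rw [h5] at h6
    omega

/-- Step 1.5.  `r > 0`, all nontrivial odd cuts have weight `> r`, `N` is a perfect matching in the
support of `w`.  Then for some `0 < l ≤ r` the weight `w - l N` satisfies the hypotheses of the cone
theorem with `r - l`, and `l = r`, or an edge of the support vanishes, or a nontrivial odd cut becomes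
tight.
Proof: `l` := the minimum of the finite set consisting of `r`, all `w e` (`e ∈ N`) and all
`(w(cut X) - r) / (|N ∩ cut X| - 1)` for nontrivial `X` with `|N ∩ cut X| ≠ 1` (then `≥ 3`,
`IsPM.odd_cut`); all these numbers are positive.  Nonnegativity: `w e ≥ l` on `N`.  Degrees: the degree
of `ind N` is `1`.  Odd sets `X`: `|U|` is even (`ConeHyp.even`) so `X ≠ U`.  If `|X| = 1` or
`|U \ X| = 1` then `w(cut X) = r` (`ConeHyp.cut_single`, `cut_compl`) and `|N ∩ cut X| = 1` (the cut of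
a single vertex contains exactly one edge of `N`: `IsPM.card`: `1 = |N ∩ cut| + 2 |N ∩ inn|`).
Otherwise `X` is nontrivial, and `w(cut X) - l |N ∩ cut X| ≥ r - l` by the choice of `l` (if
`|N ∩ cut X| = 1` it is clear).  The minimum is attained, which gives the last three alternatives. -/
theorem peel {r : ℚ} {w : E → ℚ} (hw : G.ConeHyp r w) (hr : 0 < r)
    (hn : ∀ X, G.Nontriv X → r < ∑ e ∈ G.cut X, w e) {N : Finset E} (hN : G.IsPM N)
    (hp : ∀ e ∈ N, 0 < w e) :
    ∃ l : ℚ, 0 < l ∧ l ≤ r ∧ G.ConeHyp (r - l) (fun e => w e - (if e ∈ N then l else 0)) ∧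
      (l = r ∨ (∃ e, w e ≠ 0 ∧ w e - (if e ∈ N then l else 0) = 0) ∨
        ∃ X, G.Nontriv X ∧ ∑ e ∈ G.cut X, (w e - (if e ∈ N then l else 0)) = r - l) := by
  classical
  have hodd : ∀ X, G.Nontriv X → (N ∩ G.cut X).card ≠ 1 → 3 ≤ (N ∩ G.cut X).card := by
    intro X hX h1
    obtain ⟨a, ha⟩ := hN.odd_cut hX.1 hX.2.1
    omega
  set q : Finset V → ℚ := fun X =>
    (∑ e ∈ G.cut X, w e - r) / (((N ∩ G.cut X).card : ℚ) - 1) with hq
  set B : Finset (Finset V) :=
    Finset.univ.filter (fun X => G.Nontriv X ∧ (N ∩ G.cut X).card ≠ 1) with hB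
  set A : Finset ℚ := insert r (N.image w ∪ B.image q) with hA
  have hAne : A.Nonempty := ⟨r, Finset.mem_insert_self _ _⟩
  have hAmem : ∀ a, a ∈ A ↔ a = r ∨ (∃ e ∈ N, w e = a) ∨
      ∃ X, (G.Nontriv X ∧ (N ∩ G.cut X).card ≠ 1) ∧ q X = a := by
    intro a
    rw [hA, Finset.mem_insert, Finset.mem_union, Finset.mem_image, Finset.mem_image]
    simp only [hB, Finset.mem_filter, Finset.mem_univ, true_and]
  have hcpos : ∀ X, G.Nontriv X → (N ∩ G.cut X).card ≠ 1 →
      0 < ((N ∩ G.cut X).card : ℚ) - 1 := by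
    intro X hX h1
    have h2 := hodd X hX h1
    have h3 : (3 : ℚ) ≤ ((N ∩ G.cut X).card : ℚ) := by exact_mod_cast h2
    linarith
  have hApos : ∀ a ∈ A, 0 < a := by
    intro a ha
    rcases (hAmem a).1 ha with h | ⟨e, he, h⟩ | ⟨X, ⟨hX, h1⟩, h⟩
    · rw [h]; exact hr
    · rw [← h]; exact hp e he
    · rw [← h]
      exact div_pos (by linarith [hn X hX]) (hcpos X hX h1)
  set l : ℚ := A.min' hAne with hl
  have hlA : l ∈ A := Finset.min'_mem A hAne
  have hlmin : ∀ a ∈ A, l ≤ a := fun a ha => Finset.min'_le A a ha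
  have hl0 : 0 < l := hApos l hlA
  have hlr : l ≤ r := hlmin r ((hAmem r).2 (Or.inl rfl))
  have hlN : ∀ e ∈ N, l ≤ w e := fun e he => hlmin _ ((hAmem _).2 (Or.inr (Or.inl ⟨e, he, rfl⟩)))
  have hlX : ∀ X, G.Nontriv X → (N ∩ G.cut X).card ≠ 1 →
      l * (((N ∩ G.cut X).card : ℚ) - 1) ≤ ∑ e ∈ G.cut X, w e - r := by
    intro X hX h1
    have h2 : l ≤ q X := hlmin _ ((hAmem _).2 (Or.inr (Or.inr ⟨X, ⟨hX, h1⟩, rfl⟩)))
    rw [hq] at h2
    exact (le_div_iff₀ (hcpos X hX h1)).1 h2
  obtain ⟨hw0, hwF, hwd, hwc⟩ := hw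
  refine ⟨l, hl0, hlr, ⟨?_, ?_, ?_, ?_⟩, ?_⟩
  · intro e
    by_cases he : e ∈ N
    · simp only [he, if_true]
      linarith [hlN e he]
    · simp only [he, if_false, sub_zero]
      exact hw0 e
  · intro e he
    have heN : e ∉ N := fun h => he (hN.1 h)
    simp only [heN, if_false, sub_zero]
    exact hwF e he
  · intro v hv
    rw [G.c6_deg l hN hv, hwd v hv]
  · intro X hX ho
    rw [c6_sum]
    by_cases h1 : (N ∩ G.cut X).card = 1
    · rw [h1, Nat.cast_one, mul_one]
      linarith [hwc X hX ho]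
    · have hnt : G.Nontriv X := by
        by_contra hnt
        exact h1 (G.c6_triv hN hX ho hnt)
      have h2 := hlX X hnt h1
      linarith
  · rcases (hAmem l).1 hlA with h | ⟨e, he, h⟩ | ⟨X, ⟨hX, h1⟩, h⟩
    · exact Or.inl h
    · refine Or.inr (Or.inl ⟨e, (hp e he).ne', ?_⟩)
      simp only [he, if_true]
      rw [h, sub_self]
    · refine Or.inr (Or.inr ⟨X, hX, ?_⟩)
      rw [c6_sum]
      have h2 : q X * (((N ∩ G.cut X).card : ℚ) - 1) = ∑ e ∈ G.cut X, w e - r := by
        rw [hq]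
        exact div_mul_cancel₀ _ (hcpos X hX h1).ne'
      rw [h] at h2
      linarith

end MG
end ML
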