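import Pool.Agent.ML.C4
import Pool.Agent.ML.C5
import Pool.Agent.ML.C6

/-!
# ML-C7: the cone theorem
-/

set_option autoImplicit false
set_option linter.unusedSectionVars false
set_option linter.unusedFintypeInType false
set_option linter.unusedVariables false

namespace ML
namespace MG

variable {V E : Type} [Fintype V] [Fintype E] [DecidableEq V] [DecidableEq E] (G : MG V E)

private lemma c7_zero {r : ℚ} {w : E → ℚ} (hw : G.ConeHyp r w) (hr : r ≤ 0) : ∀ e, w e = 0 := by
  intro e
  by_cases he : e ∈ G.F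
  · have hd := hw.2.2.1 (G.s e) (G.hs e he)
    unfold MG.deg at hd
    have h1 : G.inc e (G.s e) • w e ≤ ∑ e' ∈ G.F, G.inc e' (G.s e) • w e' :=
      Finset.single_le_sum (f := fun e' => G.inc e' (G.s e) • w e')
        (fun e' _ => nsmul_nonneg (hw.1 e') _) he
    have h2 : 1 ≤ G.inc e (G.s e) := by
      unfold MG.inc
      simp
    have h3 : w e ≤ G.inc e (G.s e) • w e := by
      rw [nsmul_eq_mul]
      have h4 : (1 : ℚ) ≤ (G.inc e (G.s e) : ℚ) := by exact_mod_cast h2
      nlinarith [hw.1 e]
    have := hw.1 e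
    linarith
  · exact hw.2.1 e he

private lemma c7_dec_zero {w : E → ℚ} (hw : ∀ e, w e = 0) : G.Dec w (fun _ => 0) := by
  refine ⟨fun _ => le_refl _, fun N h => absurd rfl h, fun e => ?_⟩
  rw [hw e]
  exact Finset.sum_eq_zero fun N _ => by split_ifs <;> rfl

private lemma c7_add {w : E → ℚ} {N : Finset E} (hN : G.IsPM N) {l : ℚ} (hl : 0 ≤ l)
    {c : Finset E → ℚ} (hc : G.Dec (fun e => w e - (if e ∈ N then l else 0)) c) :
    G.Dec w (fun N' => c N' + if N' = N then l else 0) := by
  refine ⟨fun N' => ?_, fun N' h => ?_, fun e => ?_⟩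
  · have := hc.1 N'
    show 0 ≤ c N' + if N' = N then l else 0
    split_ifs <;> linarith
  · by_cases h' : N' = N
    · rw [h']; exact hN
    · apply hc.2.1
      simpa [h'] using h
  · have h1 := hc.2.2 e
    have h2 : ∀ N' : Finset E, (if e ∈ N' then (c N' + if N' = N then l else 0) else 0) =
        (if e ∈ N' then c N' else 0) + (if N' = N then (if e ∈ N then l else 0) else 0) := by
      intro N'
      by_cases h3 : N' = N
      · subst h3
        by_cases h4 : e ∈ N' <;> simp [h4]
      · simp [h3]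
    rw [Finset.sum_congr rfl (fun N' _ => h2 N'), Finset.sum_add_distrib, h1, Finset.sum_ite_eq']
    simp

private lemma c7_tight (ih : ∀ (G' : MG V E), G'.U.card < G.U.card → ∀ {r : ℚ} {w : E → ℚ},
      G'.ConeHyp r w → ∃ c, G'.Dec w c)
    {r : ℚ} {w : E → ℚ} (hw : G.ConeHyp r w) (hr : 0 < r) {X : Finset V} (hX : G.Nontriv X)
    (ht : ∑ e ∈ G.cut X, w e = r) : ∃ c, G.Dec w c := by
  obtain ⟨hXU, ho, h3, h3'⟩ := hX
  have hE : Even G.U.card := ConeHyp.even G hw hr
  have hcard : (G.U \ X).card = G.U.card - X.card := Finset.card_sdiff_of_subset hXU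
  obtain ⟨x, hx⟩ : (G.U \ X).Nonempty := by
    rw [← Finset.card_pos, hcard]; omega
  obtain ⟨x', hx'⟩ : X.Nonempty := by
    rw [← Finset.card_pos]; omega
  have hxX : x ∉ X := (Finset.mem_sdiff.1 hx).2
  have hUU : G.U \ (G.U \ X) = X := by
    ext v
    simp only [Finset.mem_sdiff]
    constructor
    · rintro ⟨h1, h2⟩
      by_contra h4
      exact h2 ⟨h1, h4⟩
    · intro h1
      exact ⟨hXU h1, fun h2 => h2.2 h1⟩
  have hx'2 : x' ∈ G.U \ (G.U \ X) := by rw [hUU]; exact hx'
  have ho' : Odd (G.U \ X).card := by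
    rw [hcard]
    exact Nat.Even.sub_odd (by omega) hE ho
  have h1 := coneHyp_shr G hE hXU hx ho hw ht
  have ht' : ∑ e ∈ G.cut (G.U \ X), w e = r := by rw [cut_compl G hXU]; exact ht
  have h2 := coneHyp_shr G hE Finset.sdiff_subset hx'2 ho' hw ht'
  obtain ⟨c₁, hc₁⟩ := ih (G.shr X x) (by
    rw [shr_U, Finset.card_insert_of_notMem hxX]; omega) h1
  obtain ⟨c₂, hc₂⟩ := ih (G.shr (G.U \ X) x') (by
    have hx'3 : x' ∉ G.U \ X := fun h => (Finset.mem_sdiff.1 h).2 hx'
    rw [shr_U, Finset.card_insert_of_notMem hx'3, hcard]; omega) h2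
  obtain ⟨c, hc, -⟩ := dec_glue G hXU hx hx' hw.1 hw.2.1 hc₁ hc₂
  exact ⟨c, hc⟩

private lemma c7_step (ih : ∀ (G' : MG V E), G'.U.card < G.U.card → ∀ {r : ℚ} {w : E → ℚ},
      G'.ConeHyp r w → ∃ c, G'.Dec w c) : ∀ (m : ℕ) {r : ℚ} {w : E → ℚ}, G.ConeHyp r w →
      (Finset.univ.filter (fun e => w e ≠ 0)).card < m → ∃ c, G.Dec w c := by
  intro m
  induction m with
  | zero => intro r w hw h; exact absurd h (Nat.not_lt_zero _)
  | succ m ihm =>
    intro r w hw hm
    by_cases hr : r ≤ 0
    · exact ⟨_, c7_dec_zero G (c7_zero G hw hr)⟩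
    push Not at hr
    by_cases hX : ∃ X, G.Nontriv X ∧ ∑ e ∈ G.cut X, w e = r
    · obtain ⟨X, hX, ht⟩ := hX
      exact c7_tight G ih hw hr hX ht
    push Not at hX
    obtain ⟨N, hN, hp⟩ := exists_isPM_pos G hw hr
    obtain ⟨l, hl0, hlr, hw', hcase⟩ := peel G hw hr (fun X hX' =>
      lt_of_le_of_ne (hw.2.2.2 X hX'.1 hX'.2.1) (Ne.symm (hX X hX'))) hN hp
    suffices h : ∃ c, G.Dec (fun e => w e - (if e ∈ N then l else 0)) c by
      obtain ⟨c, hc⟩ := h
      exact ⟨_, c7_add G hN hl0.le hc⟩
    by_cases hrl : r - l ≤ 0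
    · exact ⟨_, c7_dec_zero G (c7_zero G hw' hrl)⟩
    push Not at hrl
    rcases hcase with h | h | h
    · exact absurd h (by intro h; linarith)
    · obtain ⟨e, he1, he2⟩ := h
      apply ihm hw'
      have hlt : (Finset.univ.filter (fun e => w e - (if e ∈ N then l else 0) ≠ 0)).card <
          (Finset.univ.filter (fun e => w e ≠ 0)).card := by
        apply Finset.card_lt_card
        rw [Finset.ssubset_iff_of_subset]
        · refine ⟨e, ?_, ?_⟩
          · simp [he1]
          · simp [he2]
        · intro f hf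
          simp only [Finset.mem_filter, Finset.mem_univ, true_and] at hf ⊢
          intro h0
          apply hf
          have hfN : f ∉ N := fun h => absurd (hp f h) (by rw [h0]; exact lt_irrefl _)
          simp [h0, hfN]
      omega
    · obtain ⟨X, hX1, hX2⟩ := h
      exact c7_tight G ih hw' hrl hX1 hX2

private lemma c7_main : ∀ (n : ℕ) (G : MG V E), G.U.card < n → ∀ {r : ℚ} {w : E → ℚ},
    G.ConeHyp r w → ∃ c, G.Dec w c := by
  intro n
  induction n with
  | zero => intro G h; exact absurd h (Nat.not_lt_zero _)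
  | succ n ih =>
    intro G hG r w hw
    exact c7_step G (fun G' hG' _ _ hw' => ih G' (by omega) hw')
      ((Finset.univ.filter (fun e => w e ≠ 0)).card + 1) hw (Nat.lt_succ_self _)

/-- The cone theorem (Edmonds).  Induction on `|U|`, then on the size of the support of `w`.
Proof: if `r ≤ 0`: for `v ∈ U` the degree `deg w v = r` is a sum of nonnegative terms, so `w = 0` on
`F` (every edge of `F` has an end in `U`; `inc ≥ 1` there), `w = 0`, and `c = 0` works.
`r > 0`: `|U|` is even.
(i) some nontrivial `X` has `w(cut X) = r`: choose `x ∈ U \ X`, `x' ∈ X`; both contractions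
`G.shr X x`, `G.shr (U \ X) x'` satisfy `ConeHyp r` with the restricted weights (`coneHyp_shr`; for the
second: `U \ X` is odd, `cut (U \ X) = cut X`), and have fewer vertices (`|X| + 1 < |U|`,
`|U \ X| + 1 < |U|`).  By induction both have decompositions; `dec_glue`.
(ii) otherwise `exists_isPM_pos` gives `N`, `peel` gives `l`.  If `l = r`: the weight `w - r N` satisfies
`ConeHyp 0`, so it is `0` (first case), `w = r N`.  If an edge vanishes: smaller support, same `U`:
induction gives a decomposition `c` of `w - l N`, and `c + l` at `N` is one of `w`.  If a nontrivial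
cut became tight for `w' = w - l N`: case (i) applied to `w'` (if `r - l > 0`; if `r - l = 0` then
`w' = 0`), again add `l N`.  (Case (i) should be proved first as a lemma for fixed `|U|`, using only the
induction hypothesis for smaller `|U|`.) -/
theorem cone {r : ℚ} {w : E → ℚ} (hw : G.ConeHyp r w) : ∃ c, G.Dec w c :=
  c7_main (G.U.card + 1) G (Nat.lt_succ_self _) hw

end MG
end ML
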