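import Pool.Agent.ML.C7

/-!
# ML-C8: integral corollaries of the cone theorem (step 1.6)
-/

set_option autoImplicit false
set_option linter.unusedSectionVars false
set_option linter.unusedFintypeInType false
set_option linter.unusedVariables false

namespace ML
namespace MG

variable {V E : Type} [Fintype V] [Fintype E] [DecidableEq V] [DecidableEq E] (G : MG V E)

/-- Integral version: a positive multiple of an integral weight in the cone is a sum of perfect
matchings.  Proof: `cone`, and multiply by a common denominator of the finitely many values `c N`. -/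
theorem cone_int {r : ℚ} {w : E → ℤ} (hw : G.ConeHyp r (fun e => (w e : ℚ))) :
    ∃ m : ℕ, 0 < m ∧ ∃ c : Finset E → ℕ, (∀ N, c N ≠ 0 → G.IsPM N) ∧
      ∀ e, ∑ N : Finset E, (if e ∈ N then (c N : ℤ) else 0) = m * w e := by
  obtain ⟨c, hc0, hcP, hcs'⟩ := G.cone hw
  have hcs : ∀ e, ∑ N : Finset E, (if e ∈ N then c N else 0) = ((w e : ℤ) : ℚ) := hcs'
  have hmpos : 0 < ∏ N : Finset E, (c N).den := Finset.prod_pos fun N _ => (c N).den_pos
  have hkey : ∀ N : Finset E, ∃ k : ℕ, (k : ℚ) = ((∏ N : Finset E, (c N).den : ℕ) : ℚ) * c N := by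
    intro N
    have hdvd : (c N).den ∣ ∏ N : Finset E, (c N).den :=
      Finset.dvd_prod_of_mem (fun N : Finset E => (c N).den) (Finset.mem_univ N)
    obtain ⟨k, hk⟩ := hdvd
    refine ⟨k * (c N).num.toNat, ?_⟩
    have hnum : ((c N).num.toNat : ℚ) = ((c N).num : ℚ) := by
      have h1 : (((c N).num.toNat : ℕ) : ℤ) = (c N).num :=
        Int.toNat_of_nonneg (Rat.num_nonneg.2 (hc0 N))
      exact_mod_cast congrArg (fun z : ℤ => (z : ℚ)) h1
    have hden : ((c N).den : ℚ) * c N = ((c N).num : ℚ) := Rat.den_mul_eq_num (c N)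
    rw [hk]
    push_cast
    rw [hnum, ← hden]
    ring
  choose k hk using hkey
  refine ⟨∏ N : Finset E, (c N).den, hmpos, k, ?_, ?_⟩
  · intro N hN
    apply hcP
    intro h0
    apply hN
    have := hk N
    rw [h0, mul_zero] at this
    exact_mod_cast this
  · intro e
    have h1 : ((∑ N : Finset E, (if e ∈ N then (k N : ℤ) else 0) : ℤ) : ℚ) =
        (((∏ N : Finset E, (c N).den : ℕ) * w e : ℤ) : ℚ) := by
      rw [Int.cast_sum, Int.cast_mul, ← hcs e, Finset.mul_sum]
      apply Finset.sum_congr rfl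
      intro N _
      by_cases he : e ∈ N
      · rw [if_pos he, if_pos he, Int.cast_natCast, hk N]
        push_cast
        rfl
      · rw [if_neg he, if_neg he, Int.cast_zero, mul_zero]
    exact_mod_cast h1

/-- Face version.  `q : E → ℤ` with `q(N) ≥ 0` for all perfect matchings and `q(w) = 0`: a positive
multiple of `w` is in the lattice of the perfect matchings with `q(N) = 0`.
Proof: `cone_int`; `∑_N c N * q(N) = m * q(w) = 0` with nonnegative terms, so `c N ≠ 0` implies
`q(N) = 0`; and `m • w = ∑_N c N • ind N`. -/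
theorem cone_face {r : ℚ} {w : E → ℤ} (hw : G.ConeHyp r (fun e => (w e : ℚ))) (q : E → ℤ)
    (hq : ∀ N, G.IsPM N → 0 ≤ ∑ e ∈ N, q e) (h0 : ∑ e, w e * q e = 0) :
    ∃ m : ℕ, 0 < m ∧ m • w ∈
      AddSubgroup.closure {z | ∃ N, G.IsPM N ∧ ∑ e ∈ N, q e = 0 ∧ z = ind N} := by
  obtain ⟨m, hm, c, hcP, hcs⟩ := G.cone_int hw
  refine ⟨m, hm, ?_⟩
  have hmw : m • w = ∑ N : Finset E, c N • ind N := by
    funext e
    rw [Finset.sum_apply, Pi.smul_apply, nsmul_eq_mul, ← hcs e]
    apply Finset.sum_congr rfl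
    intro N _
    rw [Pi.smul_apply, nsmul_eq_mul, ind]
    by_cases he : e ∈ N
    · rw [if_pos he, if_pos he, mul_one]
    · rw [if_neg he, if_neg he, mul_zero]
  have hsum : ∑ N : Finset E, (c N : ℤ) * ∑ e ∈ N, q e = 0 := by
    have h1 : ∀ N : Finset E, (c N : ℤ) * ∑ e ∈ N, q e =
        ∑ e : E, (if e ∈ N then (c N : ℤ) else 0) * q e := by
      intro N
      rw [Finset.mul_sum]
      have h2 : ∀ e : E, (if e ∈ N then (c N : ℤ) else 0) * q e =
          if e ∈ N then (c N : ℤ) * q e else 0 := by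
        intro e
        by_cases he : e ∈ N
        · rw [if_pos he, if_pos he]
        · rw [if_neg he, if_neg he, zero_mul]
      rw [Finset.sum_congr rfl (fun e _ => h2 e), Finset.sum_ite_mem, Finset.univ_inter]
    rw [Finset.sum_congr rfl (fun N _ => h1 N), Finset.sum_comm]
    have h3 : ∀ e : E, ∑ N : Finset E, (if e ∈ N then (c N : ℤ) else 0) * q e =
        m * (w e * q e) := by
      intro e
      rw [← Finset.sum_mul, hcs e]
      ring
    rw [Finset.sum_congr rfl (fun e _ => h3 e), ← Finset.mul_sum, h0, mul_zero]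
  have hnn : ∀ N ∈ (Finset.univ : Finset (Finset E)), 0 ≤ (c N : ℤ) * ∑ e ∈ N, q e := by
    intro N _
    by_cases hN : c N = 0
    · rw [hN]; simp
    · exact mul_nonneg (Int.natCast_nonneg _) (hq N (hcP N hN))
  have hz := (Finset.sum_eq_zero_iff_of_nonneg hnn).1 hsum
  rw [hmw]
  apply AddSubgroup.sum_mem
  intro N _
  by_cases hN : c N = 0
  · rw [hN, zero_smul]
    exact AddSubgroup.zero_mem _
  · apply AddSubgroup.nsmul_mem
    apply AddSubgroup.subset_closure
    refine ⟨N, hcP N hN, ?_, rfl⟩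
    rcases mul_eq_zero.1 (hz N (Finset.mem_univ N)) with h | h
    · exact absurd (by exact_mod_cast h) hN
    · exact h

omit [Fintype V] [Fintype E] in
theorem c8_sum_ind (N S : Finset E) : ∑ e ∈ S, ind N e = ((N ∩ S).card : ℤ) := by
  unfold ind
  rw [Finset.sum_ite_mem, Finset.sum_const, nsmul_eq_mul, mul_one, Finset.inter_comm]

theorem c8_deg_ind {N : Finset E} (hN : G.IsPM N) {v : V} (hv : v ∈ G.U) :
    G.deg (ind N) v = 1 := by
  unfold deg
  have h1 : ∀ e ∈ G.F, G.inc e v • ind N e = if e ∈ N then (G.inc e v : ℤ) else 0 := by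
    intro e _
    unfold ind
    by_cases he : e ∈ N
    · rw [if_pos he, if_pos he, nsmul_eq_mul, mul_one]
    · rw [if_neg he, if_neg he, smul_zero]
  rw [Finset.sum_congr rfl h1, Finset.sum_ite_mem, Finset.inter_eq_right.2 hN.1]
  exact_mod_cast hN.2 v hv

theorem c8_deg_add (f g : E → ℤ) (a : ℤ) (v : V) :
    G.deg (fun e => f e + a * g e) v = G.deg f v + a * G.deg g v := by
  unfold deg
  rw [Finset.mul_sum, ← Finset.sum_add_distrib]
  apply Finset.sum_congr rfl
  intro e _
  simp only [nsmul_eq_mul]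
  ring

theorem c8_deg_sum (P : Finset (Finset E)) (v : V) :
    G.deg (fun e => ∑ N ∈ P, ind N e) v = ∑ N ∈ P, G.deg (ind N) v := by
  unfold deg
  rw [Finset.sum_comm]
  apply Finset.sum_congr rfl
  intro e _
  rw [Finset.smul_sum]

theorem c8_cut_single (hl : ∀ e ∈ G.F, G.s e ≠ G.t e) (f : E → ℤ) (v : V) :
    ∑ e ∈ G.cut {v}, f e = G.deg f v := by
  unfold deg cut
  rw [Finset.sum_filter]
  apply Finset.sum_congr rfl
  intro e he
  have hne := hl e he
  unfold inc
  by_cases h1 : G.s e = v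
  · by_cases h2 : G.t e = v
    · exact absurd (h1.trans h2.symm) hne
    · simp [h1, h2]
  · by_cases h2 : G.t e = v
    · simp [h1, h2]
    · simp [h1, h2]

/-- Large multiples.  `P` a finite set of perfect matchings, `w` integral of constant degree `r`;
every edge not covered by `P` has `w e ≥ 0`, every nontrivial shore `X` which all members of `P` meet
exactly once has `w(cut X) ≥ r`.  Then for all large `M'` the weight `w + M' ∑_{N ∈ P} ind N` satisfies
the hypotheses of the cone theorem.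
Proof: `z := ∑_{N ∈ P} ind N` is nonnegative of constant degree `|P|`.  For `e` covered by `P`,
`z e ≥ 1`, so `w e + M' z e ≥ 0` for large `M'`.  For an odd set `X ⊆ U` (not `U`, as `|U|` is even):
if `|X| = 1` or `|U \ X| = 1` there are no loops, so `w(cut X) = r` and `z(cut X) = |P|` (`hand`, with
`inn {v} = ∅`; `cut_compl`).  Otherwise `X` is nontrivial: if some `N ∈ P` has `|N ∩ cut X| ≠ 1` (so
`≥ 3`, odd) then `z(cut X) ≥ |P| + 2`, and `w(cut X) + M' z(cut X) ≥ r + M' |P|` for large `M'`;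
otherwise `z(cut X) = |P|` and `w(cut X) ≥ r`.  There are finitely many `e` and `X`. -/
theorem coneHyp_large (hE : Even G.U.card) (hl : ∀ e ∈ G.F, G.s e ≠ G.t e)
    (P : Finset (Finset E)) (hP : ∀ N ∈ P, G.IsPM N) {r : ℤ} {w : E → ℤ} (hw : G.Reg r w)
    (h1 : ∀ e ∈ G.F, (∃ N ∈ P, e ∈ N) ∨ 0 ≤ w e)
    (h2 : ∀ X, G.Nontriv X → (∃ N ∈ P, (N ∩ G.cut X).card ≠ 1) ∨ r ≤ ∑ e ∈ G.cut X, w e) :
    ∃ M : ℕ, ∀ M' : ℕ, M ≤ M' → G.ConeHyp ((r : ℚ) + M' * P.card)
      (fun e => ((w e + M' * ∑ N ∈ P, ind N e : ℤ) : ℚ)) := by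
  refine ⟨r.natAbs + ∑ e : E, (w e).natAbs, ?_⟩
  intro M' hM'
  have hMr : |r| + ∑ e : E, |w e| ≤ (M' : ℤ) := by
    have h3 : ((r.natAbs + ∑ e : E, (w e).natAbs : ℕ) : ℤ) ≤ (M' : ℤ) := by exact_mod_cast hM'
    push_cast at h3
    simpa using h3
  have hW0 : ∀ S : Finset E, |∑ e ∈ S, w e| ≤ ∑ e : E, |w e| := by
    intro S
    calc |∑ e ∈ S, w e| ≤ ∑ e ∈ S, |w e| := Finset.abs_sum_le_sum_abs _ _
      _ ≤ ∑ e : E, |w e| :=
        Finset.sum_le_sum_of_subset_of_nonneg (Finset.subset_univ _) fun _ _ _ => abs_nonneg _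
  have hWe : ∀ e : E, |w e| ≤ ∑ e : E, |w e| := fun e =>
    Finset.single_le_sum (f := fun e => |w e|) (fun _ _ => abs_nonneg _) (Finset.mem_univ e)
  have hr0 : 0 ≤ |r| := abs_nonneg r
  have hind0 : ∀ (N : Finset E) (e : E), 0 ≤ ind N e := by
    intro N e
    unfold ind
    split_ifs <;> norm_num
  set z : E → ℤ := fun e => ∑ N ∈ P, ind N e with hz
  have hz0 : ∀ e, 0 ≤ z e := fun e => Finset.sum_nonneg fun N _ => hind0 N e
  have hzF : ∀ e, e ∉ G.F → z e = 0 := by
    intro e he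
    apply Finset.sum_eq_zero
    intro N hN
    unfold ind
    rw [if_neg]
    intro h
    exact he ((hP N hN).1 h)
  set f : E → ℤ := fun e => w e + M' * z e with hf
  have hdeg : ∀ v ∈ G.U, G.deg f v = r + M' * P.card := by
    intro v hv
    rw [hf, c8_deg_add, hw.2 v hv, hz, c8_deg_sum,
      Finset.sum_congr rfl (fun N hN => G.c8_deg_ind (hP N hN) hv)]
    simp
  have hcutz : ∀ S : Finset E, ∑ e ∈ S, z e = ∑ N ∈ P, ((N ∩ S).card : ℤ) := by
    intro S
    rw [hz, Finset.sum_comm]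
    exact Finset.sum_congr rfl fun N _ => c8_sum_ind N S
  have hcutf : ∀ S : Finset E, ∑ e ∈ S, f e = ∑ e ∈ S, w e + M' * ∑ e ∈ S, z e := by
    intro S
    rw [hf, Finset.sum_add_distrib, Finset.mul_sum]
  have hM0 : (0 : ℤ) ≤ M' := Int.natCast_nonneg _
  have hmain : ∀ X, X ⊆ G.U → Odd X.card → r + M' * P.card ≤ ∑ e ∈ G.cut X, f e := by
    intro X hX ho
    have hodd : ∀ N ∈ P, Odd (N ∩ G.cut X).card := fun N hN => (hP N hN).odd_cut hX ho
    by_cases hX1 : X.card = 1
    · obtain ⟨v, hv⟩ := Finset.card_eq_one.1 hX1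
      have hvU : v ∈ G.U := hX (by rw [hv]; exact Finset.mem_singleton_self v)
      rw [hv, G.c8_cut_single hl f v, hdeg v hvU]
    by_cases hY1 : (G.U \ X).card = 1
    · obtain ⟨v, hv⟩ := Finset.card_eq_one.1 hY1
      have hvU : v ∈ G.U := by
        have h3 : v ∈ G.U \ X := by rw [hv]; exact Finset.mem_singleton_self v
        exact (Finset.mem_sdiff.1 h3).1
      rw [← G.cut_compl hX, hv, G.c8_cut_single hl f v, hdeg v hvU]
    have hcard : (G.U \ X).card + X.card = G.U.card := Finset.card_sdiff_add_card_eq_card hX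
    have hnt : G.Nontriv X := by
      refine ⟨hX, ho, ?_, ?_⟩
      · obtain ⟨a, ha⟩ := ho
        omega
      · obtain ⟨a, ha⟩ := ho
        obtain ⟨b, hb⟩ := hE
        omega
    rw [hcutf, hcutz]
    have hge1 : ∀ N ∈ P, (1 : ℤ) ≤ ((N ∩ G.cut X).card : ℤ) := by
      intro N hN
      obtain ⟨a, ha⟩ := hodd N hN
      rw [ha]
      push_cast
      have : (0 : ℤ) ≤ a := Int.natCast_nonneg _
      linarith
    have hsumge : (P.card : ℤ) ≤ ∑ N ∈ P, ((N ∩ G.cut X).card : ℤ) := by
      calc (P.card : ℤ) = ∑ N ∈ P, (1 : ℤ) := by simp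
        _ ≤ _ := Finset.sum_le_sum hge1
    rcases h2 X hnt with ⟨N, hN, hN1⟩ | hr
    · have hN3 : (3 : ℤ) ≤ ((N ∩ G.cut X).card : ℤ) := by
        obtain ⟨a, ha⟩ := hodd N hN
        have : 3 ≤ (N ∩ G.cut X).card := by omega
        exact_mod_cast this
      have hsum2 : (P.card : ℤ) + 2 ≤ ∑ N ∈ P, ((N ∩ G.cut X).card : ℤ) := by
        rw [← Finset.add_sum_erase P _ hN]
        have h4 : ((P.erase N).card : ℤ) ≤ ∑ N' ∈ P.erase N, ((N' ∩ G.cut X).card : ℤ) := by
          calc ((P.erase N).card : ℤ) = ∑ N' ∈ P.erase N, (1 : ℤ) := by simp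
            _ ≤ _ := Finset.sum_le_sum fun N' hN' => hge1 N' (Finset.mem_of_mem_erase hN')
        have h5 : ((P.erase N).card : ℤ) + 1 = P.card := by
          exact_mod_cast Finset.card_erase_add_one hN
        linarith
      have h6 := abs_le.1 (hW0 (G.cut X))
      have h7 : r ≤ |r| := le_abs_self r
      have h8 : (M' : ℤ) * (P.card + 2) ≤ M' * ∑ N ∈ P, ((N ∩ G.cut X).card : ℤ) :=
        mul_le_mul_of_nonneg_left hsum2 hM0
      have h9 : (M' : ℤ) * (P.card + 2) = M' * P.card + 2 * M' := by ring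
      linarith [h6.1]
    · have h8 : (M' : ℤ) * P.card ≤ M' * ∑ N ∈ P, ((N ∩ G.cut X).card : ℤ) :=
        mul_le_mul_of_nonneg_left hsumge hM0
      linarith
  have hnn : ∀ e, 0 ≤ f e := by
    intro e
    by_cases he : e ∈ G.F
    · rcases h1 e he with ⟨N, hN, heN⟩ | h0
      · have hz1 : 1 ≤ z e := by
          have h3 : ind N e = 1 := by
            unfold ind
            rw [if_pos heN]
          rw [← h3]
          exact Finset.single_le_sum (f := fun N => ind N e) (fun N _ => hind0 N e) hN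
        have h3 : (M' : ℤ) ≤ M' * z e := by nlinarith
        have h4 := neg_abs_le (w e)
        have h5 := hWe e
        change 0 ≤ w e + M' * z e
        linarith
      · exact add_nonneg h0 (mul_nonneg hM0 (hz0 e))
    · change 0 ≤ w e + M' * z e
      rw [hw.1 e he, hzF e he]
      simp
  have hcast : ∀ v, G.deg (fun e => ((f e : ℤ) : ℚ)) v = ((G.deg f v : ℤ) : ℚ) := by
    intro v
    unfold deg
    rw [Int.cast_sum]
    apply Finset.sum_congr rfl
    intro e _
    simp only [nsmul_eq_mul]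
    push_cast
    rfl
  change G.ConeHyp ((r : ℚ) + M' * P.card) (fun e => ((f e : ℤ) : ℚ))
  refine ⟨?_, ?_, ?_, ?_⟩
  · intro e
    change (0 : ℚ) ≤ ((f e : ℤ) : ℚ)
    exact_mod_cast hnn e
  · intro e he
    have h3 : f e = 0 := by
      change w e + M' * z e = 0
      rw [hw.1 e he, hzF e he]
      simp
    change ((f e : ℤ) : ℚ) = 0
    exact_mod_cast h3
  · intro v hv
    have h3 := hcast v
    rw [hdeg v hv] at h3
    push_cast at h3
    exact h3
  · intro X hX ho
    have h3 := hmain X hX ho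
    have h4 : ((r + M' * P.card : ℤ) : ℚ) ≤ ((∑ e ∈ G.cut X, f e : ℤ) : ℚ) := by
      exact_mod_cast h3
    rw [Int.cast_sum] at h4
    push_cast at h4
    exact h4

end MG
end ML
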