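import Pool.Agent.ML.Defs

/-!
# ML-D1: characters of finitely generated free groups with values in `ℚ/ℤ`
-/

set_option autoImplicit false
set_option linter.unusedSectionVars false
set_option linter.unusedFintypeInType false
set_option linter.unusedVariables false

namespace ML

variable {E : Type} [Fintype E] [DecidableEq E]

lemma pair_add (χ : E → QZ) (w z : E → ℤ) : pair χ (w + z) = pair χ w + pair χ z := by
  unfold pair
  rw [← Finset.sum_add_distrib]
  exact Finset.sum_congr rfl fun e _ => by rw [Pi.add_apply, add_smul]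

lemma pair_sub (χ : E → QZ) (w z : E → ℤ) : pair χ (w - z) = pair χ w - pair χ z := by
  unfold pair
  rw [← Finset.sum_sub_distrib]
  exact Finset.sum_congr rfl fun e _ => by rw [Pi.sub_apply, sub_smul]

lemma pair_zsmul (χ : E → QZ) (m : ℤ) (w : E → ℤ) : pair χ (m • w) = m • pair χ w := by
  unfold pair
  rw [Finset.smul_sum]
  exact Finset.sum_congr rfl fun e _ => by rw [Pi.smul_apply, smul_eq_mul, mul_smul]

lemma pair_nsmul (χ : E → QZ) (m : ℕ) (w : E → ℤ) : pair χ (m • w) = m • pair χ w := by
  have h := pair_zsmul χ (m : ℤ) w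
  rw [natCast_zsmul, natCast_zsmul] at h
  exact h

lemma pair_sum {ι : Type} (s : Finset ι) (χ : E → QZ) (w : ι → E → ℤ) :
    pair χ (∑ i ∈ s, w i) = ∑ i ∈ s, pair χ (w i) := by
  let f : (E → ℤ) →+ QZ :=
    { toFun := pair χ
      map_zero' := by simp [pair]
      map_add' := pair_add χ }
  exact map_sum f w s

lemma pair_ind (χ : E → QZ) (N : Finset E) : pair χ (ind N) = ∑ e ∈ N, χ e := by
  unfold pair ind
  simp only [ite_smul, one_smul, zero_smul]
  rw [Finset.sum_ite_mem, Finset.univ_inter]

lemma pair_add_left (χ ψ : E → QZ) (w : E → ℤ) :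
    pair (fun e => χ e + ψ e) w = pair χ w + pair ψ w := by
  unfold pair
  rw [← Finset.sum_add_distrib]
  exact Finset.sum_congr rfl fun e _ => by rw [smul_add]

/-- `pair` only depends on the values of `χ` on the support of `w`. -/
lemma pair_congr {χ ψ : E → QZ} {w z : E → ℤ} (h : ∀ e, w e • χ e = z e • ψ e) :
    pair χ w = pair ψ z := by
  unfold pair
  exact Finset.sum_congr rfl fun e _ => h e

lemma half_add_half : half + half = 0 := by
  unfold half
  rw [← AddCircle.coe_add, AddCircle.coe_eq_zero_iff]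
  exact ⟨1, by norm_num⟩

lemma half_ne_zero : half ≠ 0 := by
  unfold half
  rw [Ne, AddCircle.coe_eq_zero_iff]
  rintro ⟨n, hn⟩
  rw [zsmul_eq_mul, mul_one] at hn
  have h2 : (2 * n : ℚ) = 1 := by rw [hn]; norm_num
  have h3 : (2 * n : ℤ) = 1 := by exact_mod_cast h2
  omega

/-- The only elements `x` of `ℚ/ℤ` with `x + x = 0` are `0` and `1/2`. -/
lemma eq_zero_or_half {x : QZ} (h : x + x = 0) : x = 0 ∨ x = half := by
  induction x using QuotientAddGroup.induction_on with
  | H x =>
    have h' : ((x + x : ℚ) : QZ) = 0 := by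
      rw [AddCircle.coe_add]; exact h
    rw [AddCircle.coe_eq_zero_iff] at h'
    obtain ⟨n, hn⟩ := h'
    rw [zsmul_eq_mul, mul_one] at hn
    rcases Int.even_or_odd' n with ⟨k, hk | hk⟩
    · left
      have hx : x = k := by
        have : (n : ℚ) = 2 * k := by rw [hk]; push_cast; ring
        linarith
      show ((x : ℚ) : QZ) = 0
      rw [AddCircle.coe_eq_zero_iff]
      exact ⟨k, by rw [zsmul_eq_mul, mul_one, hx]⟩
    · right
      have hx : x = k + 1 / 2 := by
        have : (n : ℚ) = 2 * k + 1 := by rw [hk]; push_cast; ring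
        linarith
      show ((x : ℚ) : QZ) = half
      have h0 : ((k : ℚ) : QZ) = 0 := by
        rw [AddCircle.coe_eq_zero_iff]
        exact ⟨k, by rw [zsmul_eq_mul, mul_one]⟩
      rw [hx, AddCircle.coe_add, h0, zero_add]
      rfl

lemma d1_hom {ι : Type} [Fintype ι] [DecidableEq ι] (f : (ι → ℤ) →+ QZ) (z : ι → ℤ) :
    pair (fun e => f (Pi.single e 1)) z = f z := by
  unfold pair
  have h1 : z = ∑ e, z e • (Pi.single e 1 : ι → ℤ) := by
    ext a
    simp [Finset.sum_apply, Pi.single_apply]
  conv_rhs => rw [h1]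
  rw [map_sum]
  exact Finset.sum_congr rfl fun e _ => by rw [map_zsmul]

/-- `ℚ/ℤ` separates: an integral vector is in the subgroup generated by `P` iff every character which
kills `P` kills it.
Proof of `←`: if `w` is not in the closure `H`, its class in `(E → ℤ) ⧸ H` is nonzero, and
`CharacterModule.exists_character_apply_ne_zero_of_ne_zero` gives a homomorphism `c` of the quotient to
`AddCircle (1 : ℚ)` which does not vanish at it.  With `χ e := c (class of Pi.single e 1)` we have
`pair χ z = c (class of z)` for all `z` (a vector is `∑ e, z e • Pi.single e 1`). -/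
theorem mem_closure_iff_pair (P : Set (E → ℤ)) (w : E → ℤ) :
    w ∈ AddSubgroup.closure P ↔ ∀ χ : E → QZ, (∀ z ∈ P, pair χ z = 0) → pair χ w = 0 := by
  constructor
  · intro hw χ hχ
    let f : (E → ℤ) →+ QZ :=
      { toFun := pair χ
        map_zero' := by simp [pair]
        map_add' := pair_add χ }
    have hle : AddSubgroup.closure P ≤ f.ker := by
      rw [AddSubgroup.closure_le]
      intro z hz
      exact hχ z hz
    exact hle hw
  · intro h
    by_contra hw
    have hne : (QuotientAddGroup.mk' (AddSubgroup.closure P) w) ≠ 0 := by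
      intro h0
      exact hw ((QuotientAddGroup.eq_zero_iff w).1 h0)
    obtain ⟨c, hc⟩ := CharacterModule.exists_character_apply_ne_zero_of_ne_zero hne
    let f : (E → ℤ) →+ QZ :=
      AddMonoidHom.comp (c : _ →+ AddCircle (1 : ℚ)) (QuotientAddGroup.mk' (AddSubgroup.closure P))
    have hf : ∀ z, pair (fun e => f (Pi.single e 1)) z = f z := d1_hom f
    have h1 := h (fun e => f (Pi.single e 1)) (by
      intro z hz
      rw [hf]
      have hz0 : QuotientAddGroup.mk' (AddSubgroup.closure P) z = 0 :=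
        (QuotientAddGroup.eq_zero_iff z).2 (AddSubgroup.subset_closure hz)
      show c (QuotientAddGroup.mk' (AddSubgroup.closure P) z) = 0
      rw [hz0]
      exact map_zero c)
    rw [hf] at h1
    exact hc h1

/-- Injectivity of `ℚ/ℤ`: if `χ` kills the common kernel of the integral functionals `φ i`, then `χ`
is a combination of them with coefficients in `ℚ/ℤ`.
Proof: let `Φ : (E → ℤ) →+ (ι → ℤ)` have components `φ i`.  The homomorphism `pair χ` vanishes on the
kernel of `Φ`, so it factors through the range of `Φ`, a subgroup of `ι → ℤ`; it extends to `ι → ℤ`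
because `ℚ/ℤ` is injective (`CharacterModule.dual_surjective_of_injective` for the inclusion of the
range, or `Module.Baer`/divisibility).  `y i` := value of the extension at `Pi.single i 1`. -/
theorem char_factor {ι : Type} [Fintype ι] [DecidableEq ι] (φ : ι → (E → ℤ) →+ ℤ) (χ : E → QZ)
    (h : ∀ w, (∀ i, φ i w = 0) → pair χ w = 0) :
    ∃ y : ι → QZ, ∀ w, pair χ w = ∑ i, φ i w • y i := by
  let Φ : (E → ℤ) →+ (ι → ℤ) := AddMonoidHom.pi φ
  let f : (E → ℤ) →+ QZ :=
    { toFun := pair χ
      map_zero' := by simp [pair]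
      map_add' := pair_add χ }
  have hker : Φ.rangeRestrict.ker ≤ f.ker := by
    intro w hw
    have hw1 : Φ.rangeRestrict w = 0 := hw
    have hw2 : Φ w = 0 := by
      have := congrArg Subtype.val hw1
      exact this
    exact h w fun i => congrFun hw2 i
  let g : Φ.range →+ QZ :=
    AddMonoidHom.liftOfSurjective Φ.rangeRestrict Φ.rangeRestrict_surjective ⟨f, hker⟩
  have hg : ∀ w, g (Φ.rangeRestrict w) = pair χ w := fun w =>
    AddMonoidHom.liftOfRightInverse_comp_apply Φ.rangeRestrict _ _ ⟨f, hker⟩ w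
  obtain ⟨c, hc⟩ := CharacterModule.dual_surjective_of_injective
    (Φ.range.subtype.toIntLinearMap) (Subtype.val_injective) g
  let c' : (ι → ℤ) →+ QZ := (c : _ →+ AddCircle (1 : ℚ))
  have hc' : ∀ w, c' (Φ w) = pair χ w := by
    intro w
    rw [← hg w, ← hc]
    rfl
  refine ⟨fun i => c' (Pi.single i 1), fun w => ?_⟩
  rw [← hc' w, ← d1_hom c' (Φ w)]
  rfl

/-- Rational version.  Proof: linear algebra over `ℚ` (`mem_span_of_iInf_ker_le_ker` for the
extensions of `l`, `φ i` to `E → ℚ`; a rational vector in the common kernel has an integral positive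
multiple there), or extend as before using that `ℚ` is divisible. -/
theorem rat_factor {ι : Type} [Fintype ι] [DecidableEq ι] (φ : ι → (E → ℤ) →+ ℤ)
    (l : (E → ℤ) →+ ℤ) (h : ∀ w, (∀ i, φ i w = 0) → l w = 0) :
    ∃ y : ι → ℚ, ∀ w, (l w : ℚ) = ∑ i, (φ i w : ℚ) * y i := by
  let L : ι → (E → ℚ) →ₗ[ℚ] ℚ := fun i => ∑ e, ((φ i (Pi.single e 1) : ℤ) : ℚ) • LinearMap.proj e
  let K : (E → ℚ) →ₗ[ℚ] ℚ := ∑ e, ((l (Pi.single e 1) : ℤ) : ℚ) • LinearMap.proj e
  have hL : ∀ i x, L i x = ∑ e, ((φ i (Pi.single e 1) : ℤ) : ℚ) * x e := by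
    intro i x
    simp [L, LinearMap.sum_apply]
  have hK : ∀ x, K x = ∑ e, ((l (Pi.single e 1) : ℤ) : ℚ) * x e := by
    intro x
    simp [K, LinearMap.sum_apply]
  have hint : ∀ (g : (E → ℤ) →+ ℤ) (w : E → ℤ),
      ((g w : ℤ) : ℚ) = ∑ e, ((g (Pi.single e 1) : ℤ) : ℚ) * (w e : ℚ) := by
    intro g w
    have h1 : w = ∑ e, w e • (Pi.single e 1 : E → ℤ) := by
      ext a
      simp [Finset.sum_apply, Pi.single_apply]
    have h2 : g w = ∑ e, w e * g (Pi.single e 1) := by
      conv_lhs => rw [h1]
      rw [map_sum]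
      exact Finset.sum_congr rfl fun e _ => by rw [map_zsmul, smul_eq_mul]
    rw [h2]
    push_cast
    exact Finset.sum_congr rfl fun e _ => by ring
  have hle : iInf (LinearMap.ker ∘ L) ≤ LinearMap.ker K := by
    intro x hx
    rw [Submodule.mem_iInf] at hx
    have hx' : ∀ i, L i x = 0 := fun i => hx i
    let N : ℕ := ∏ e, (x e).den
    have hN : (N : ℚ) ≠ 0 := by
      have : N ≠ 0 := Finset.prod_ne_zero_iff.2 fun e _ => (x e).den_nz
      exact_mod_cast this
    have hw : ∀ e, ∃ z : ℤ, (z : ℚ) = N * x e := by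
      intro e
      obtain ⟨k, hk⟩ : (x e).den ∣ N := Finset.dvd_prod_of_mem _ (Finset.mem_univ e)
      refine ⟨k * (x e).num, ?_⟩
      have hd : ((x e).den : ℚ) * x e = (x e).num := Rat.den_mul_eq_num (x e)
      rw [hk]
      push_cast
      rw [← hd]
      ring
    choose w hw using hw
    have hzero : ∀ i, φ i w = 0 := by
      intro i
      have h1 := hint (φ i) w
      have h2 : ∑ e, ((φ i (Pi.single e 1) : ℤ) : ℚ) * (w e : ℚ) = N * L i x := by
        rw [hL, Finset.mul_sum]
        exact Finset.sum_congr rfl fun e _ => by rw [hw e]; ring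
      rw [h2, hx' i, mul_zero] at h1
      exact_mod_cast h1
    have h3 := h w hzero
    have h4 := hint l w
    have h5 : ∑ e, ((l (Pi.single e 1) : ℤ) : ℚ) * (w e : ℚ) = N * K x := by
      rw [hK, Finset.mul_sum]
      exact Finset.sum_congr rfl fun e _ => by rw [hw e]; ring
    rw [h5, h3, Int.cast_zero] at h4
    rcases mul_eq_zero.1 h4.symm with h6 | h6
    · exact absurd h6 hN
    · exact h6
  have hmem := mem_span_of_iInf_ker_le_ker hle
  rw [Submodule.mem_span_range_iff_exists_fun] at hmem
  obtain ⟨y, hy⟩ := hmem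
  refine ⟨y, fun w => ?_⟩
  have h1 : K (fun e => (w e : ℚ)) = ((l w : ℤ) : ℚ) := by rw [hK, hint l w]
  rw [← h1, ← hy, LinearMap.sum_apply]
  refine Finset.sum_congr rfl fun i _ => ?_
  rw [LinearMap.smul_apply, smul_eq_mul, hL, ← hint (φ i) w, mul_comm]

end ML
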