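import Pool.Agent.ML.D1
import Pool.Agent.ML.A3b
import Pool.Agent.ML.C1

/-!
# ML-D2: potentials on graphs (step 2.2), lattices and characters
-/

set_option autoImplicit false
set_option linter.unusedSectionVars false
set_option linter.unusedFintypeInType false
set_option linter.unusedVariables false

namespace ML
namespace MG

variable {V E : Type} [Fintype V] [Fintype E] [DecidableEq V] [DecidableEq E] (G : MG V E)

/-- A character which kills the perfect matchings kills the lattice. -/
lemma Kills.pair_lat {G : MG V E} {χ : E → QZ} (hk : G.Kills χ) {w : E → ℤ} (hw : w ∈ G.lat) :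
    pair χ w = 0 := by
  refine (mem_closure_iff_pair _ w).1 hw χ ?_
  rintro z ⟨N, hN, rfl⟩
  rw [pair_ind]
  exact hk N hN

private lemma d2_deg_add (f g : E → ℤ) (v : V) :
    G.deg (f + g) v = G.deg f v + G.deg g v := by
  unfold deg
  rw [← Finset.sum_add_distrib]
  apply Finset.sum_congr rfl
  intro e _
  rw [Pi.add_apply, smul_add]

private lemma d2_deg_sub (f g : E → ℤ) (v : V) :
    G.deg (f - g) v = G.deg f v - G.deg g v := by
  unfold deg
  rw [← Finset.sum_sub_distrib]
  apply Finset.sum_congr rfl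
  intro e _
  rw [Pi.sub_apply, smul_sub]

private lemma d2_deg_smul (m : ℤ) (f : E → ℤ) (v : V) :
    G.deg (m • f) v = m * G.deg f v := by
  unfold deg
  rw [Finset.mul_sum]
  apply Finset.sum_congr rfl
  intro e _
  simp only [Pi.smul_apply, nsmul_eq_mul, smul_eq_mul]
  ring

/-- `G.Reg` weights form a group. -/
lemma Reg.add {G : MG V E} {r r' : ℤ} {w w' : E → ℤ} (h : G.Reg r w) (h' : G.Reg r' w') :
    G.Reg (r + r') (w + w') := by
  refine ⟨fun e he => ?_, fun v hv => ?_⟩
  · rw [Pi.add_apply, h.1 e he, h'.1 e he, add_zero]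
  · rw [d2_deg_add, h.2 v hv, h'.2 v hv]

lemma Reg.sub {G : MG V E} {r r' : ℤ} {w w' : E → ℤ} (h : G.Reg r w) (h' : G.Reg r' w') :
    G.Reg (r - r') (w - w') := by
  refine ⟨fun e he => ?_, fun v hv => ?_⟩
  · rw [Pi.sub_apply, h.1 e he, h'.1 e he, sub_zero]
  · rw [d2_deg_sub, h.2 v hv, h'.2 v hv]

lemma Reg.smul {G : MG V E} {r : ℤ} {w : E → ℤ} (m : ℤ) (h : G.Reg r w) :
    G.Reg (m * r) (m • w) := by
  refine ⟨fun e he => ?_, fun v hv => ?_⟩
  · rw [Pi.smul_apply, h.1 e he, smul_zero]
  · rw [d2_deg_smul, h.2 v hv]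

lemma IsPM.reg {G : MG V E} {N : Finset E} (hN : G.IsPM N) : G.Reg 1 (ind N) := by
  refine ⟨fun e he => ?_, fun v hv => ?_⟩
  · unfold ind
    rw [if_neg fun h => he (hN.1 h)]
  · unfold deg
    have h1 : ∀ e ∈ G.F, G.inc e v • ind N e = if e ∈ N then (G.inc e v : ℤ) else 0 := by
      intro e _
      unfold ind
      by_cases he : e ∈ N
      · rw [if_pos he, if_pos he, nsmul_eq_mul, mul_one]
      · rw [if_neg he, if_neg he, smul_zero]
    rw [Finset.sum_congr rfl h1, Finset.sum_ite_mem, Finset.inter_eq_right.2 hN.1]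
    exact_mod_cast hN.2 v hv

/-- The sum of a potential over the ends of an edge. -/
private lemma d2_sum_inc {M : Type} [AddCommMonoid M] (y : V → M) {e : E} (he : e ∈ G.F) :
    ∑ v ∈ G.U, G.inc e v • y v = y (G.s e) + y (G.t e) := by
  unfold inc
  simp only [add_smul, Finset.sum_add_distrib, ite_smul, one_smul, zero_smul]
  rw [Finset.sum_ite_eq, Finset.sum_ite_eq, if_pos (G.hs e he), if_pos (G.ht e he)]

/-- Value of a potential plus a cut term on a regular weight. -/
lemma Reg.pair_pot {G : MG V E} {r : ℤ} {w : E → ℤ} (h : G.Reg r w) {χ : E → QZ} {X : Finset V}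
    (y : V → QZ) (η : QZ)
    (hχ : ∀ e ∈ G.F, χ e = y (G.s e) + y (G.t e) + (if e ∈ G.cut X then η else 0)) :
    pair χ w = r • (∑ v ∈ G.U, y v) + (∑ e ∈ G.cut X, w e) • η := by
  have h1 : pair χ w = ∑ e ∈ G.F, w e • χ e := by
    unfold pair
    symm
    apply Finset.sum_subset (Finset.subset_univ _)
    intro e _ he
    rw [h.1 e he, zero_smul]
  have h2 : ∀ e ∈ G.F, w e • χ e = w e • (y (G.s e) + y (G.t e)) +
      (if e ∈ G.cut X then w e • η else 0) := by
    intro e he
    rw [hχ e he, smul_add]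
    congr 1
    split_ifs with hc
    · rfl
    · rw [smul_zero]
  rw [h1, Finset.sum_congr rfl h2, Finset.sum_add_distrib]
  congr 1
  · have h3 : ∀ v ∈ G.U, r • y v = ∑ e ∈ G.F, w e • (G.inc e v • y v) := by
      intro v hv
      rw [← h.2 v hv]
      unfold deg
      rw [Finset.sum_smul]
      apply Finset.sum_congr rfl
      intro e _
      rw [smul_assoc, smul_comm]
    rw [Finset.smul_sum, Finset.sum_congr rfl h3, Finset.sum_comm]
    apply Finset.sum_congr rfl
    intro e he
    rw [← Finset.smul_sum, G.d2_sum_inc y he]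
  · rw [Finset.sum_ite_mem, Finset.inter_eq_right.2 (G.cut_sub X), Finset.sum_smul]

/-- Value of a potential plus a cut term on a perfect matching. -/
lemma IsPM.sum_pot {G : MG V E} {N : Finset E} (hN : G.IsPM N) {χ : E → QZ} {X : Finset V}
    (y : V → QZ) (η : QZ)
    (hχ : ∀ e ∈ G.F, χ e = y (G.s e) + y (G.t e) + (if e ∈ G.cut X then η else 0)) :
    ∑ e ∈ N, χ e = (∑ v ∈ G.U, y v) + (N ∩ G.cut X).card • η := by
  have h2 : ∀ e ∈ N, χ e = (y (G.s e) + y (G.t e)) + (if e ∈ G.cut X then η else 0) :=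
    fun e he => hχ e (hN.1 he)
  rw [Finset.sum_congr rfl h2, Finset.sum_add_distrib, hN.pot y, Finset.sum_ite_mem,
    Finset.sum_const]

private lemma d2_deg_single {e : E} (he : e ∈ G.F) (v : V) :
    G.deg (Pi.single e (1 : ℤ)) v = G.inc e v := by
  unfold deg
  rw [Finset.sum_eq_single e]
  · rw [Pi.single_eq_same, nsmul_eq_mul, mul_one]
  · intro f _ hf
    rw [Pi.single_eq_of_ne hf, smul_zero]
  · intro h
    exact absurd he h

omit [Fintype V] [Fintype E] [DecidableEq V] in
private lemma d2_sum_single (S : Finset E) (e : E) :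
    ∑ f ∈ S, (Pi.single e (1 : ℤ) : E → ℤ) f = if e ∈ S then 1 else 0 := by
  by_cases he : e ∈ S
  · rw [if_pos he, Finset.sum_eq_single e]
    · rw [Pi.single_eq_same]
    · intro f _ hf
      rw [Pi.single_eq_of_ne hf]
    · intro h
      exact absurd he h
  · rw [if_neg he]
    apply Finset.sum_eq_zero
    intro f hf
    rw [Pi.single_eq_of_ne]
    rintro rfl
    exact he hf

/-- The degree functional at `v` (zero if `v` is not a vertex). -/
private def d2_phi (v : V) : (E → ℤ) →+ ℤ where
  toFun w := if v ∈ G.U then G.deg w v else 0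
  map_zero' := by
    split_ifs
    · unfold deg
      apply Finset.sum_eq_zero
      intro e _
      rw [Pi.zero_apply, smul_zero]
    · rfl
  map_add' w z := by
    split_ifs
    · exact G.d2_deg_add w z v
    · rfl

/-- The cut functional. -/
private def d2_cutf (X : Finset V) : (E → ℤ) →+ ℤ where
  toFun w := ∑ e ∈ G.cut X, w e
  map_zero' := by simp
  map_add' w z := by simp [Finset.sum_add_distrib]

private lemma d2_restr_apply {M : Type} [Zero M] {S : Finset E} {w : E → M} {e : E} :
    restr S w e = if e ∈ S then w e else 0 := rfl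

/-- Step 2.2 (a).  Proof: apply `char_factor` to `restr F χ` and the functionals `w ↦ deg w v`
(`v ∈ U`; zero for other `v`) and `w ↦ w(cut X)` (index type `Option V`).  If all vanish at `w`, the
weight `restr F w` satisfies the hypothesis (degrees and cut only involve edges of `F`), so
`pair (restr F χ) w = pair χ (restr F w) = 0`.  Evaluate at `Pi.single e 1`: `deg = inc e v`, and
`∑_{v ∈ U} inc e v • y v = y (s e) + y (t e)`. -/
theorem pot_char (χ : E → QZ) (X : Finset V)
    (h : ∀ w : E → ℤ, (∀ e, e ∉ G.F → w e = 0) → (∀ v ∈ G.U, G.deg w v = 0) →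
      ∑ e ∈ G.cut X, w e = 0 → pair χ w = 0) :
    ∃ (y : V → QZ) (η : QZ), ∀ e ∈ G.F,
      χ e = y (G.s e) + y (G.t e) + (if e ∈ G.cut X then η else 0) := by
  obtain ⟨y', hy'⟩ := char_factor (ι := Option V)
    (fun i => i.elim (G.d2_cutf X) G.d2_phi) (restr G.F χ) (by
      intro w hw
      have e1 : pair (restr G.F χ) w = pair χ (restr G.F w) := by
        apply pair_congr
        intro e
        rw [d2_restr_apply, d2_restr_apply]
        split_ifs
        · rfl
        · rw [smul_zero, zero_smul]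
      rw [e1]
      apply h
      · intro e he
        rw [d2_restr_apply, if_neg he]
      · intro v hv
        rw [G.deg_restr w v (le_refl _)]
        have := hw (some v)
        change (if v ∈ G.U then G.deg w v else 0) = 0 at this
        rwa [if_pos hv] at this
      · rw [sum_cut_restr w (G.cut_sub X)]
        exact hw none)
  refine ⟨fun v => y' (some v), y' none, ?_⟩
  intro e he
  have h1 := hy' (Pi.single e 1)
  have h2 : pair (restr G.F χ) (Pi.single e 1) = χ e := by
    unfold pair
    rw [Finset.sum_eq_single e]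
    · rw [Pi.single_eq_same, one_smul, d2_restr_apply, if_pos he]
    · intro f _ hf
      rw [Pi.single_eq_of_ne hf, zero_smul]
    · intro hn
      exact absurd (Finset.mem_univ e) hn
  rw [h2, Fintype.sum_option] at h1
  have h3 : ∑ v : V, (if v ∈ G.U then G.deg (Pi.single e (1 : ℤ)) v else 0) • y' (some v) =
      y' (some (G.s e)) + y' (some (G.t e)) := by
    rw [← G.d2_sum_inc (fun v => y' (some v)) he]
    have h4 : ∀ v : V, (if v ∈ G.U then G.deg (Pi.single e (1 : ℤ)) v else 0) • y' (some v) =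
        if v ∈ G.U then G.inc e v • y' (some v) else 0 := by
      intro v
      split_ifs
      · rw [G.d2_deg_single he, natCast_zsmul]
      · rw [zero_smul]
    rw [Finset.sum_congr rfl fun v _ => h4 v, Finset.sum_ite_mem, Finset.univ_inter]
  have h5 : (∑ f ∈ G.cut X, (Pi.single e (1 : ℤ) : E → ℤ) f) • y' none =
      if e ∈ G.cut X then y' none else 0 := by
    rw [d2_sum_single]
    split_ifs
    · rw [one_smul]
    · rw [zero_smul]
  rw [h1, ← h5, ← h3, add_comm]
  rfl

/-- The same without cut. -/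
theorem pot_char0 (χ : E → QZ)
    (h : ∀ w : E → ℤ, (∀ e, e ∉ G.F → w e = 0) → (∀ v ∈ G.U, G.deg w v = 0) → pair χ w = 0) :
    ∃ y : V → QZ, ∀ e ∈ G.F, χ e = y (G.s e) + y (G.t e) := by
  obtain ⟨y, η, hy⟩ := G.pot_char χ ∅ fun w h1 h2 _ => h w h1 h2
  refine ⟨y, fun e he => ?_⟩
  rw [hy e he, if_neg, add_zero]
  rw [G.mem_cut]
  simp

/-- Step 2.2 (b), rational potentials (`rat_factor`). -/
theorem pot_rat (X : Finset V)
    (h : ∀ w : E → ℤ, (∀ e, e ∉ G.F → w e = 0) → (∀ v ∈ G.U, G.deg w v = 0) →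
      ∑ e ∈ G.cut X, w e = 0) :
    ∃ y : V → ℚ, ∀ e ∈ G.F, y (G.s e) + y (G.t e) = if e ∈ G.cut X then 1 else 0 := by
  obtain ⟨y, hy⟩ := rat_factor (ι := V) G.d2_phi (G.d2_cutf X) (by
    intro w hw
    have e1 := h (restr G.F w) (fun e he => by rw [d2_restr_apply, if_neg he]) (fun v hv => by
      rw [G.deg_restr w v (le_refl _)]
      have := hw v
      change (if v ∈ G.U then G.deg w v else 0) = 0 at this
      rwa [if_pos hv] at this)
    rw [sum_cut_restr w (G.cut_sub X)] at e1
    exact e1)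
  refine ⟨y, ?_⟩
  intro e he
  have h1 := hy (Pi.single e 1)
  have h3 : ∑ v : V, (((if v ∈ G.U then G.deg (Pi.single e (1 : ℤ)) v else 0 : ℤ)) : ℚ) * y v =
      y (G.s e) + y (G.t e) := by
    rw [← G.d2_sum_inc y he]
    have h4 : ∀ v : V, (((if v ∈ G.U then G.deg (Pi.single e (1 : ℤ)) v else 0 : ℤ)) : ℚ) * y v =
        if v ∈ G.U then G.inc e v • y v else 0 := by
      intro v
      split_ifs
      · rw [G.d2_deg_single he, nsmul_eq_mul, Int.cast_natCast]
      · rw [Int.cast_zero, zero_mul]
    rw [Finset.sum_congr rfl fun v _ => h4 v, Finset.sum_ite_mem, Finset.univ_inter]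
  have h5 : ((∑ f ∈ G.cut X, (Pi.single e (1 : ℤ) : E → ℤ) f : ℤ) : ℚ) =
      if e ∈ G.cut X then 1 else 0 := by
    rw [d2_sum_single]
    split_ifs
    · rw [Int.cast_one]
    · rw [Int.cast_zero]
  rw [← h3, ← h5]
  exact h1.symm

end MG
end ML
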