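import Pool.Agent.ML.D1
import Pool.Agent.ML.C2

/-!
# ML-D3: composition of characters along a cut (step 2.3)
-/

set_option autoImplicit false
set_option linter.unusedSectionVars false
set_option linter.unusedFintypeInType false
set_option linter.unusedVariables false

namespace ML
namespace MG

variable {V E : Type} [Fintype V] [Fintype E] [DecidableEq V] [DecidableEq E] (G : MG V E)

private lemma d3_split {Y : Finset V} {N : Finset E} (hN : N ⊆ G.tou Y) (f : E → QZ) :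
    ∑ e ∈ N, f e = ∑ e ∈ N ∩ G.inn Y, f e + ∑ e ∈ N ∩ G.cut Y, f e := by
  have hd : Disjoint (N ∩ G.inn Y) (N ∩ G.cut Y) :=
    (G.disj_inn_cut Y).mono Finset.inter_subset_right Finset.inter_subset_right
  rw [← Finset.sum_union hd, ← Finset.inter_union_distrib_left, ← G.tou_eq,
    Finset.inter_eq_left.2 hN]

private lemma d3_inn_compl {X : Finset V} {e : E} (h : e ∈ G.inn X) :
    e ∉ G.tou (G.U \ X) := by
  intro h2
  obtain ⟨_, hs, ht⟩ := (G.mem_inn).1 h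
  rcases ((G.mem_tou).1 h2).2 with h3 | h3
  · exact (Finset.mem_sdiff.1 h3).2 hs
  · exact (Finset.mem_sdiff.1 h3).2 ht

private lemma d3_key {X : Finset V} {x x' : V} (hX : X ⊆ G.U) (hx : x ∈ G.U \ X) (hx' : x' ∈ X)
    (χ : E → QZ) (hk : ∀ N, G.IsPM N → (N ∩ G.cut X).card = 1 → ∑ e ∈ N, χ e = 0)
    {N₁ M₂ : Finset E} (h1 : (G.shr X x).IsPM N₁) (h2 : (G.shr (G.U \ X) x').IsPM M₂)
    (h : N₁ ∩ G.cut X = M₂ ∩ G.cut X) :
    ∑ e ∈ N₁ ∩ G.inn X, χ e + ∑ e ∈ M₂, χ e = 0 := by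
  have hxX : x ∉ X := (Finset.mem_sdiff.1 hx).2
  obtain ⟨g1, g2, g3, g4⟩ := G.shr_glue hX hx hx' h1 h2 h
  have g5 : ((N₁ ∪ M₂) ∩ G.cut X).card = 1 := by
    rw [g2]
    exact G.shr_isPM_cut hxX h1
  have g6 := hk _ g1 g5
  have hN1 : N₁ ⊆ G.tou X := h1.1
  have hM2 : M₂ ⊆ G.tou (G.U \ X) := h2.1
  have hd : Disjoint (N₁ ∩ G.inn X) M₂ := by
    rw [Finset.disjoint_left]
    intro e he1 he2
    exact G.d3_inn_compl (Finset.mem_inter.1 he1).2 (hM2 he2)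
  have hu : N₁ ∪ M₂ = (N₁ ∩ G.inn X) ∪ M₂ := by
    ext e
    rw [Finset.mem_union, Finset.mem_union, Finset.mem_inter]
    constructor
    · rintro (he | he)
      · have h3 := hN1 he
        rw [G.tou_eq, Finset.mem_union] at h3
        rcases h3 with h3 | h3
        · exact Or.inl ⟨he, h3⟩
        · have h4 : e ∈ N₁ ∩ G.cut X := Finset.mem_inter.2 ⟨he, h3⟩
          rw [h] at h4
          exact Or.inr (Finset.mem_inter.1 h4).1
      · exact Or.inr he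
    · rintro (he | he)
      · exact Or.inl he.1
      · exact Or.inr he
  rw [hu, Finset.sum_union hd] at g6
  exact g6

/-- Step 2.3.  Every edge lies in a perfect matching meeting `cut X` once, and `χ` kills the perfect
matchings meeting `cut X` once.  Then `χ = χ₁ + χ₂` where `χ₁` lives on `tou X` and kills the perfect
matchings of `G.shr X x`, and `χ₂` lives on `tou (U \ X)` and kills those of `G.shr (U \ X) x'`.

Proof.  For `h ∈ cut X` choose a perfect matching `N h` of `G` with `N h ∩ cut X = {h}` (hypothesis)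
and put `N₂ h := N h ∩ tou (U \ X)`, a perfect matching of `G.shr (U \ X) x'` containing `h`
(`shr_isPM_of`).  Define `χ₁ e := χ e` for `e ∈ inn X`, `χ₁ h := ∑ g ∈ N₂ h, χ g` for `h ∈ cut X`, and
`0` elsewhere; `χ₂ e := χ e` for `e ∈ inn (U \ X)`, `χ₂ h := χ h - χ₁ h` for `h ∈ cut X`, `0` elsewhere.
Sum: clear on the three parts of `F` (`mem_tou_or`).
Key: if `N₁`, `N₂` are perfect matchings of the two contractions with the same cut edge `h`
(`N₁ ∩ cut X = N₂ ∩ cut X = {h}`), then `N₁ ∪ N₂` is a perfect matching of `G` meeting the cut once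
(`shr_glue`), so `0 = ∑_{N₁ ∪ N₂} χ = ∑_{N₁ ∩ inn X} χ + ∑_{N₂} χ` (`N₁ ∪ N₂` is the disjoint union of
`N₁ ∩ inn X` and `N₂`; a set `N₁ ⊆ tou X` is the disjoint union of `N₁ ∩ inn X` and `N₁ ∩ cut X`).
`χ₁` kills `N₁`: let `h` be its cut edge (`shr_isPM_cut`); with `N₂ = N₂ h`:
`∑_{N₁} χ₁ = ∑_{N₁ ∩ inn X} χ + χ₁ h = ∑_{N₁ ∩ inn X} χ + ∑_{N₂ h} χ = 0`.
`χ₂` kills `N₂` with cut edge `h`: let `N₁ := N h ∩ tou X`; by the key for `(N₁, N₂)` and for
`(N₁, N₂ h)`: `∑_{N₂} χ = ∑_{N₂ h} χ = χ₁ h`; hence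
`∑_{N₂} χ₂ = ∑_{N₂ ∩ inn (U \ X)} χ + χ h - χ₁ h = ∑_{N₂} χ - χ₁ h = 0`. -/
theorem char_comp {X : Finset V} {x x' : V} (hX : X ⊆ G.U) (hx : x ∈ G.U \ X) (hx' : x' ∈ X)
    (hcov : ∀ e ∈ G.F, ∃ N, G.IsPM N ∧ (N ∩ G.cut X).card = 1 ∧ e ∈ N) (χ : E → QZ)
    (hk : ∀ N, G.IsPM N → (N ∩ G.cut X).card = 1 → ∑ e ∈ N, χ e = 0) :
    ∃ χ₁ χ₂ : E → QZ, (∀ e ∈ G.F, χ e = χ₁ e + χ₂ e) ∧ (∀ e, e ∉ G.tou X → χ₁ e = 0) ∧
      (∀ e, e ∉ G.tou (G.U \ X) → χ₂ e = 0) ∧ (G.shr X x).Kills χ₁ ∧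
      (G.shr (G.U \ X) x').Kills χ₂ := by
  classical
  have hxX : x ∉ X := (Finset.mem_sdiff.1 hx).2
  have hx'U : x' ∉ G.U \ X := fun h => (Finset.mem_sdiff.1 h).2 hx'
  have hcc : G.cut (G.U \ X) = G.cut X := G.cut_compl hX
  have hch : ∀ h : E, ∃ N : Finset E, h ∈ G.cut X →
      G.IsPM N ∧ (N ∩ G.cut X).card = 1 ∧ h ∈ N := by
    intro h
    by_cases hh : h ∈ G.cut X
    · obtain ⟨N, hN⟩ := hcov h (G.cut_sub X hh)
      exact ⟨N, fun _ => hN⟩
    · exact ⟨∅, fun h' => absurd h' hh⟩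
  choose N hN using hch
  have hNcut : ∀ h ∈ G.cut X, N h ∩ G.cut X = {h} := by
    intro h hh
    obtain ⟨h1, h2, h3⟩ := hN h hh
    obtain ⟨a, ha⟩ := Finset.card_eq_one.1 h2
    have h4 : h ∈ N h ∩ G.cut X := Finset.mem_inter.2 ⟨h3, hh⟩
    rw [ha, Finset.mem_singleton] at h4
    rw [ha, h4]
  have hcut1 : G.cut X ⊆ G.tou X := by
    rw [G.tou_eq]
    exact Finset.subset_union_right
  have hcut2 : G.cut X ⊆ G.tou (G.U \ X) := by
    rw [G.tou_eq, hcc]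
    exact Finset.subset_union_right
  have hP1 : ∀ h ∈ G.cut X, (G.shr X x).IsPM (N h ∩ G.tou X) := by
    intro h hh
    exact G.shr_isPM_of hX hxX (hN h hh).1 (hN h hh).2.1
  have hP2 : ∀ h ∈ G.cut X, (G.shr (G.U \ X) x').IsPM (N h ∩ G.tou (G.U \ X)) := by
    intro h hh
    refine G.shr_isPM_of Finset.sdiff_subset hx'U (hN h hh).1 ?_
    rw [hcc]
    exact (hN h hh).2.1
  have hC1 : ∀ h ∈ G.cut X, (N h ∩ G.tou X) ∩ G.cut X = {h} := by
    intro h hh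
    rw [Finset.inter_assoc, Finset.inter_eq_right.2 hcut1, hNcut h hh]
  have hC2 : ∀ h ∈ G.cut X, (N h ∩ G.tou (G.U \ X)) ∩ G.cut X = {h} := by
    intro h hh
    rw [Finset.inter_assoc, Finset.inter_eq_right.2 hcut2, hNcut h hh]
  set S : E → QZ := fun e => ∑ g ∈ N e ∩ G.tou (G.U \ X), χ g with hS
  set χ₁ : E → QZ := fun e => if e ∈ G.inn X then χ e else if e ∈ G.cut X then S e else 0 with hχ1
  set χ₂ : E → QZ := fun e => if e ∈ G.inn (G.U \ X) then χ e else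
    if e ∈ G.cut X then χ e - S e else 0 with hχ2
  have hic : ∀ e, e ∈ G.cut X → e ∉ G.inn X := fun e he h =>
    Finset.disjoint_left.1 (G.disj_inn_cut X) h he
  have hic2 : ∀ e, e ∈ G.cut X → e ∉ G.inn (G.U \ X) := by
    intro e he h
    rw [← hcc] at he
    exact Finset.disjoint_left.1 (G.disj_inn_cut (G.U \ X)) h he
  have hii : ∀ e, e ∈ G.inn X → e ∉ G.inn (G.U \ X) := by
    intro e he h
    apply G.d3_inn_compl he
    rw [G.tou_eq]
    exact Finset.mem_union_left _ h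
  have hχ1i : ∀ e ∈ G.inn X, χ₁ e = χ e := fun e he => if_pos he
  have hχ1c : ∀ e ∈ G.cut X, χ₁ e = S e := by
    intro e he
    simp only [hχ1, if_neg (hic e he), if_pos he]
  have hχ2i : ∀ e ∈ G.inn (G.U \ X), χ₂ e = χ e := fun e he => if_pos he
  have hχ2c : ∀ e ∈ G.cut X, χ₂ e = χ e - S e := by
    intro e he
    simp only [hχ2, if_neg (hic2 e he), if_pos he]
  refine ⟨χ₁, χ₂, ?_, ?_, ?_, ?_, ?_⟩
  · intro e he
    rcases G.mem_tou_or hX he with h | h | h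
    · have h1 : e ∉ G.cut X := fun h' => hic e h' h
      rw [hχ1i e h]
      simp only [hχ2, if_neg (hii e h), if_neg h1, add_zero]
    · rw [hχ1c e h, hχ2c e h]
      abel
    · have h1 : e ∉ G.cut X := fun h' => hic2 e h' h
      have h2 : e ∉ G.inn X := fun h' => hii e h' h
      rw [hχ2i e h]
      simp only [hχ1, if_neg h2, if_neg h1, zero_add]
  · intro e he
    rw [G.tou_eq, Finset.mem_union, not_or] at he
    simp only [hχ1, if_neg he.1, if_neg he.2]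
  · intro e he
    rw [G.tou_eq, hcc, Finset.mem_union, not_or] at he
    simp only [hχ2, if_neg he.1, if_neg he.2]
  · intro N₁ hN₁
    have hN1t : N₁ ⊆ G.tou X := hN₁.1
    have hcard := G.shr_isPM_cut hxX hN₁
    obtain ⟨h, hh⟩ := Finset.card_eq_one.1 hcard
    have hhc : h ∈ G.cut X := by
      have h1 : h ∈ N₁ ∩ G.cut X := by rw [hh]; exact Finset.mem_singleton_self h
      exact (Finset.mem_inter.1 h1).2
    have h1 : ∑ e ∈ N₁ ∩ G.inn X, χ₁ e = ∑ e ∈ N₁ ∩ G.inn X, χ e :=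
      Finset.sum_congr rfl fun e he => hχ1i e (Finset.mem_inter.1 he).2
    rw [G.d3_split hN1t, h1, hh, Finset.sum_singleton, hχ1c h hhc]
    exact G.d3_key hX hx hx' χ hk hN₁ (hP2 h hhc) (by rw [hh, hC2 h hhc])
  · intro M₂ hM₂
    have hM2t : M₂ ⊆ G.tou (G.U \ X) := hM₂.1
    have hcard := G.shr_isPM_cut hx'U hM₂
    rw [hcc] at hcard
    obtain ⟨h, hh⟩ := Finset.card_eq_one.1 hcard
    have hhc : h ∈ G.cut X := by
      have h1 : h ∈ M₂ ∩ G.cut X := by rw [hh]; exact Finset.mem_singleton_self h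
      exact (Finset.mem_inter.1 h1).2
    have h1 : ∑ e ∈ M₂ ∩ G.inn (G.U \ X), χ₂ e = ∑ e ∈ M₂ ∩ G.inn (G.U \ X), χ e :=
      Finset.sum_congr rfl fun e he => hχ2i e (Finset.mem_inter.1 he).2
    have hk1 := G.d3_key hX hx hx' χ hk (hP1 h hhc) hM₂ (by rw [hh, hC1 h hhc])
    have hk2 := G.d3_key hX hx hx' χ hk (hP1 h hhc) (hP2 h hhc) (by rw [hC1 h hhc, hC2 h hhc])
    have hk3 : ∑ e ∈ M₂, χ e = S h := by
      rw [← hk2] at hk1
      exact add_left_cancel hk1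
    have hk4 := G.d3_split hM2t χ
    rw [hcc, hh, Finset.sum_singleton, hk3] at hk4
    rw [G.d3_split hM2t, hcc, h1, hh, Finset.sum_singleton, hχ2c h hhc, hk4]
    abel

end MG
end ML
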