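import Pool.Agent.ML.D2
import Pool.Agent.ML.C2

/-!
# ML-D4: lattices, regular weights and contraction (steps 2.4, 2.5)
-/

set_option autoImplicit false
set_option linter.unusedSectionVars false
set_option linter.unusedFintypeInType false
set_option linter.unusedVariables false

namespace ML
namespace MG

variable {V E : Type} [Fintype V] [Fintype E] [DecidableEq V] [DecidableEq E] (G : MG V E)

variable {X : Finset V} {x x' : V}

lemma d4_restr_ind (S N : Finset E) : restr S (ind N) = ind (N ∩ S) := by
  funext e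
  unfold restr ind
  by_cases h1 : e ∈ S <;> by_cases h2 : e ∈ N <;> simp [h1, h2]

/-- restriction as a homomorphism. -/
def d4_hom (S : Finset E) : (E → ℤ) →+ (E → ℤ) where
  toFun := fun w => restr S w
  map_zero' := by
    funext e
    unfold restr
    simp
  map_add' := by
    intro a b
    funext e
    unfold restr
    by_cases h : e ∈ S <;> simp [h]

lemma d4_sum_ind (S N : Finset E) : ∑ e ∈ S, ind N e = ((N ∩ S).card : ℤ) := by
  unfold ind
  rw [Finset.sum_ite_mem, Finset.sum_const, Finset.inter_comm, nsmul_eq_mul, mul_one]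

/-- the weight of a cut as a homomorphism. -/
def d4_L (S : Finset E) : (E → ℤ) →+ ℤ where
  toFun := fun w => ∑ e ∈ S, w e
  map_zero' := by simp
  map_add' := by
    intro a b
    simp [Finset.sum_add_distrib]

/-- the degree as a homomorphism. -/
def d4_D (G : MG V E) (v : V) : (E → ℤ) →+ ℤ where
  toFun := fun w => G.deg w v
  map_zero' := by simp [deg]
  map_add' := by
    intro a b
    simp [deg, Finset.sum_add_distrib, mul_add]

lemma d4_inc_zero {v : V} {e : E} (h1 : G.s e ≠ v) (h2 : G.t e ≠ v) : G.inc e v = 0 := by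
  unfold inc
  rw [if_neg h1, if_neg h2]

lemma d4_deg_restr (w : E → ℤ) {v : V} (hv : v ∈ X) :
    G.deg (restr (G.tou X) w) v = G.deg w v := by
  unfold deg
  refine Finset.sum_congr rfl fun e he => ?_
  unfold restr
  by_cases h : e ∈ G.tou X
  · rw [if_pos h]
  · rw [if_neg h]
    rw [G.mem_tou] at h
    have h1 : G.s e ≠ v := fun h2 => h ⟨he, Or.inl (h2 ▸ hv)⟩
    have h2 : G.t e ≠ v := fun h2 => h ⟨he, Or.inr (h2 ▸ hv)⟩
    rw [G.d4_inc_zero h1 h2, zero_smul, zero_smul]

lemma d4_cut_sub_tou : G.cut X ⊆ G.tou X := by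
  rw [G.tou_eq]
  exact Finset.subset_union_right

lemma d4_not_inn {e : E} (he : e ∈ G.tou X) : e ∉ G.inn (G.U \ X) := by
  intro h
  rw [G.mem_tou] at he
  rw [G.mem_inn] at h
  rcases he.2 with h1 | h1
  · exact (Finset.mem_sdiff.1 h.2.1).2 h1
  · exact (Finset.mem_sdiff.1 h.2.2).2 h1

lemma latX_compl (hX : X ⊆ G.U) : G.latX (G.U \ X) = G.latX X := by
  unfold latX
  rw [G.cut_compl hX]

/-- If the cut is tight, the two lattices agree. -/
lemma latX_of_tight (hT : G.Tight X) : G.latX X = G.lat := by
  unfold latX lat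
  congr 1
  ext w
  constructor
  · rintro ⟨N, hN, -, hw⟩
    exact ⟨N, hN, hw⟩
  · rintro ⟨N, hN, hw⟩
    exact ⟨N, hN, hT N hN, hw⟩

/-- Step 2.4: restriction maps `latX X` to the lattice of the contraction (`shr_isPM_of`: the
restriction of `ind N` is `ind (N ∩ tou X)`; closure induction). -/
theorem restr_lat (hX : X ⊆ G.U) (hx : x ∉ X) {w : E → ℤ} (hw : w ∈ G.latX X) :
    restr (G.tou X) w ∈ (G.shr X x).lat := by
  have h : G.latX X ≤ (G.shr X x).lat.comap (d4_hom (G.tou X)) := by
    unfold latX
    rw [AddSubgroup.closure_le]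
    rintro z ⟨N, hN, hc, rfl⟩
    change restr (G.tou X) (ind N) ∈ (G.shr X x).lat
    rw [d4_restr_ind]
    exact AddSubgroup.subset_closure ⟨N ∩ G.tou X, G.shr_isPM_of hX hx hN hc, rfl⟩
  exact h hw

/-- Restriction of a regular weight with `w(cut X) = r` (`shr_deg_mem`, `shr_deg_x`). -/
theorem Reg.restr {G : MG V E} {X : Finset V} {x : V} {r : ℤ} {w : E → ℤ} (hw : G.Reg r w)
    (hX : X ⊆ G.U) (hx : x ∉ X) (hc : ∑ e ∈ G.cut X, w e = r) :
    (G.shr X x).Reg r (ML.restr (G.tou X) w) := by
  refine ⟨?_, ?_⟩
  · intro e he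
    rw [shr_F] at he
    unfold ML.restr
    rw [if_neg he]
  · intro v hv
    rw [shr_U, Finset.mem_insert] at hv
    rcases hv with rfl | hv
    · rw [G.shr_deg_x hx, sum_cut_restr w G.d4_cut_sub_tou, hc]
    · rw [G.shr_deg_mem hx hv, G.d4_deg_restr w hv]
      exact hw.2 v (hX hv)

/-- In the closure of a set of vectors on which a linear condition holds, the condition holds; here:
if a positive multiple of `w` is in `G.lat` and the cut of `X` is tight then `w(cut X) = r`. -/
theorem tight_reg (hT : G.Tight X) {r : ℤ} {w : E → ℤ} (hw : G.Reg r w) (hU : G.U.Nonempty)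
    {m : ℕ} (hm : 0 < m) (hl : m • w ∈ G.lat) : ∑ e ∈ G.cut X, w e = r := by
  obtain ⟨v, hv⟩ := hU
  have h : G.lat ≤ ((d4_L (G.cut X)) - (d4_D G v)).ker := by
    unfold lat
    rw [AddSubgroup.closure_le]
    rintro z ⟨N, hN, rfl⟩
    change (∑ e ∈ G.cut X, ind N e) - G.deg (ind N) v = 0
    rw [d4_sum_ind, hT N hN, hN.reg.2 v hv]
    simp
  have h1 := h hl
  change (∑ e ∈ G.cut X, (m • w) e) - G.deg (m • w) v = 0 at h1
  have h2 : ∑ e ∈ G.cut X, (m • w) e = m * ∑ e ∈ G.cut X, w e := by
    rw [Finset.mul_sum]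
    refine Finset.sum_congr rfl fun e _ => ?_
    simp
  have h3 : G.deg (m • w) v = m * r := by
    rw [← hw.2 v hv]
    unfold deg
    rw [Finset.mul_sum]
    refine Finset.sum_congr rfl fun e _ => ?_
    simp only [Pi.smul_apply, nsmul_eq_mul]
    ring
  rw [h2, h3, sub_eq_zero] at h1
  exact mul_left_cancel₀ (by exact_mod_cast hm.ne') h1

/-- Step 2.5.  Near-brick contraction.
Proof.  `Conn`: `shr_conn`.  `cut X` is nonempty (`G.Conn`), so there is a perfect matching meeting the
cut once, and its part in `tou X` is a perfect matching of `G.shr X x`; every `e ∈ tou X` is in a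
perfect matching `N` of `G` meeting the cut once, so in `N ∩ tou X`: `Mc`.
Let `w₁` be `Reg r` on `G.shr X x` (so `w₁ = 0` outside `tou X`, and `w₁(cut X) = r` by `shr_deg_x`).
For `h ∈ cut X` let `N h` be a perfect matching of `G` with `N h ∩ cut X = {h}`.
`w := w₁ + ∑_{h ∈ cut X} w₁ h • ind (N h ∩ inn (U \ X))`.  `w` is `Reg r` on `G`: at `v ∈ X` the degree is
that of `w₁` (`shr_deg_mem`); at `v ∈ U \ X` it is
`∑_{h ∈ cut X} w₁ h * (inc h v + ∑_{g ∈ N h ∩ inn (U \ X)} inc g v) = ∑_{h ∈ cut X} w₁ h = r`, because the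
edges of `N h` at `v` are `h` or inside `U \ X`, and their total incidence is `1`.  `w(cut X) = r`.
By hypothesis `m • w ∈ latX X`; `restr_lat`; and `restr (tou X) (m • w) = m • w₁`. -/
theorem nb_shr (hX : X ⊆ G.U) (hx : x ∈ G.U \ X) (hx' : x' ∈ X) (hC : G.Conn)
    (hcov : ∀ e ∈ G.F, ∃ N, G.IsPM N ∧ (N ∩ G.cut X).card = 1 ∧ e ∈ N)
    (hsat : ∀ r w, G.Reg r w → ∑ e ∈ G.cut X, w e = r → ∃ m : ℕ, 0 < m ∧ m • w ∈ G.latX X) :
    (G.shr X x).NB := by
  classical
  have hxX : x ∉ X := (Finset.mem_sdiff.1 hx).2
  have hxU : x ∈ G.U := (Finset.mem_sdiff.1 hx).1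
  have hne : X ≠ G.U := fun h => hxX (h ▸ hxU)
  obtain ⟨h0, hh0⟩ := hC X hX ⟨x', hx'⟩ hne
  refine ⟨⟨?_, ?_⟩, G.shr_conn hC hX hx, ?_⟩
  · obtain ⟨N, hN, hc, -⟩ := hcov h0 (G.cut_sub X hh0)
    exact ⟨N ∩ G.tou X, G.shr_isPM_of hX hxX hN hc⟩
  · intro e he
    rw [shr_F] at he
    obtain ⟨N, hN, hc, heN⟩ := hcov e (G.tou_sub X he)
    exact ⟨N ∩ G.tou X, G.shr_isPM_of hX hxX hN hc, Finset.mem_inter.2 ⟨heN, he⟩⟩
  · intro r w1 hw1
    have hN : ∀ h : E, ∃ N : Finset E, h ∈ G.cut X →
        G.IsPM N ∧ N ∩ G.cut X = {h} := by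
      intro h
      by_cases hh : h ∈ G.cut X
      · obtain ⟨N, hN, hc, hhN⟩ := hcov h (G.cut_sub X hh)
        refine ⟨N, fun _ => ⟨hN, ?_⟩⟩
        obtain ⟨a, ha⟩ := Finset.card_eq_one.1 hc
        have : h ∈ N ∩ G.cut X := Finset.mem_inter.2 ⟨hhN, hh⟩
        rw [ha, Finset.mem_singleton] at this
        rw [ha, this]
      · exact ⟨∅, fun h' => absurd h' hh⟩
    choose N hN using hN
    set w : E → ℤ := fun e => w1 e + ∑ h ∈ G.cut X, w1 h * ind (N h ∩ G.inn (G.U \ X)) e with hw
    have hind : ∀ e ∈ G.tou X, ∀ h, ind (N h ∩ G.inn (G.U \ X)) e = 0 := by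
      intro e he h
      unfold ind
      rw [if_neg]
      intro h1
      exact G.d4_not_inn he (Finset.mem_inter.1 h1).2
    have hwt : ∀ e ∈ G.tou X, w e = w1 e := by
      intro e he
      rw [hw]
      simp only
      rw [Finset.sum_eq_zero, add_zero]
      intro h _
      rw [hind e he h, mul_zero]
    have hdeg : ∀ v, G.deg w v = G.deg w1 v +
        ∑ h ∈ G.cut X, w1 h * G.deg (ind (N h ∩ G.inn (G.U \ X))) v := by
      intro v
      unfold deg
      rw [hw]
      simp only [smul_add, Finset.sum_add_distrib, Finset.mul_sum, Finset.smul_sum]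
      congr 1
      rw [Finset.sum_comm]
      refine Finset.sum_congr rfl fun h _ => Finset.sum_congr rfl fun e _ => ?_
      simp only [nsmul_eq_mul]
      ring
    have hdegind : ∀ h v, G.deg (ind (N h ∩ G.inn (G.U \ X))) v =
        ((∑ g ∈ N h ∩ G.inn (G.U \ X), G.inc g v : ℕ) : ℤ) := by
      intro h v
      unfold deg ind
      have hs : N h ∩ G.inn (G.U \ X) ⊆ G.F :=
        Finset.inter_subset_right.trans (G.inn_sub _)
      simp only [smul_ite, smul_zero]
      rw [Finset.sum_ite_mem, Finset.inter_eq_right.2 hs]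
      push_cast
      refine Finset.sum_congr rfl fun g _ => ?_
      simp
    have hsum : ∑ h ∈ G.cut X, w1 h = r := by
      have h1 := hw1.2 x (by rw [shr_U]; exact Finset.mem_insert_self _ _)
      rwa [G.shr_deg_x hxX] at h1
    have hreg : G.Reg r w := by
      refine ⟨?_, ?_⟩
      · intro e he
        rw [hw]
        simp only
        rw [hw1.1 e (fun h => he (G.tou_sub X h)), zero_add]
        refine Finset.sum_eq_zero fun h _ => ?_
        unfold ind
        rw [if_neg, mul_zero]
        intro h1
        exact he (G.inn_sub _ (Finset.mem_inter.1 h1).2)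
      · intro v hv
        rw [hdeg v]
        by_cases hvX : v ∈ X
        · have h1 := hw1.2 v (by rw [shr_U]; exact Finset.mem_insert_of_mem hvX)
          rw [G.shr_deg_mem hxX hvX] at h1
          rw [h1, Finset.sum_eq_zero, add_zero]
          intro h _
          rw [hdegind, Finset.sum_eq_zero]
          · simp
          · intro g hg
            have h2 := (G.mem_inn).1 (Finset.mem_inter.1 hg).2
            apply G.d4_inc_zero
            · intro h3
              exact (Finset.mem_sdiff.1 h2.2.1).2 (h3 ▸ hvX)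
            · intro h3
              exact (Finset.mem_sdiff.1 h2.2.2).2 (h3 ▸ hvX)
        · have h1 : G.deg w1 v = ∑ h ∈ G.cut X, w1 h * (G.inc h v : ℤ) := by
            unfold deg
            symm
            refine Finset.sum_subset_zero_on_sdiff (G.cut_sub X) ?_ ?_
            · intro e he
              rw [Finset.mem_sdiff] at he
              by_cases het : e ∈ G.tou X
              · have hi : G.inc e v = 0 := by
                  have het' := het
                  rw [G.tou_eq, Finset.mem_union] at het'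
                  rcases het' with h2 | h2
                  · rw [G.mem_inn] at h2
                    apply G.d4_inc_zero
                    · intro h3; exact hvX (h3 ▸ h2.2.1)
                    · intro h3; exact hvX (h3 ▸ h2.2.2)
                  · exact absurd h2 he.2
                rw [hi, zero_smul]
              · rw [hw1.1 e het, smul_zero]
            · intro e _
              rw [nsmul_eq_mul, mul_comm]
          rw [h1, ← Finset.sum_add_distrib, ← hsum]
          refine Finset.sum_congr rfl fun h hh => ?_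
          obtain ⟨hNh, hNc⟩ := hN h hh
          rw [hdegind, ← mul_add]
          have h2 : G.inc h v + ∑ g ∈ N h ∩ G.inn (G.U \ X), G.inc g v = 1 := by
            rw [← hNh.2 v hv]
            have h3 : ∑ g ∈ N h ∩ G.cut X, G.inc g v = G.inc h v := by
              rw [hNc, Finset.sum_singleton]
            have h4 : ∑ g ∈ N h ∩ G.inn X, G.inc g v = 0 := by
              refine Finset.sum_eq_zero fun g hg => ?_
              have h5 := (G.mem_inn).1 (Finset.mem_inter.1 hg).2
              apply G.d4_inc_zero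
              · intro h3; exact hvX (h3 ▸ h5.2.1)
              · intro h3; exact hvX (h3 ▸ h5.2.2)
            have h5 : N h = (N h ∩ G.inn X ∪ N h ∩ G.cut X) ∪ N h ∩ G.inn (G.U \ X) := by
              ext g
              simp only [Finset.mem_union, Finset.mem_inter]
              constructor
              · intro hg
                rcases G.mem_tou_or hX (hNh.1 hg) with h6 | h6 | h6
                · exact Or.inl (Or.inl ⟨hg, h6⟩)
                · exact Or.inl (Or.inr ⟨hg, h6⟩)
                · exact Or.inr ⟨hg, h6⟩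
              · rintro ((h6 | h6) | h6) <;> exact h6.1
            have d1 : Disjoint (N h ∩ G.inn X) (N h ∩ G.cut X) :=
              (G.disj_inn_cut X).mono Finset.inter_subset_right Finset.inter_subset_right
            have d2 : Disjoint (N h ∩ G.inn X ∪ N h ∩ G.cut X) (N h ∩ G.inn (G.U \ X)) := by
              rw [Finset.disjoint_left]
              intro g hg hg'
              have h7 : g ∈ G.tou X := by
                rw [G.tou_eq]
                simp only [Finset.mem_union, Finset.mem_inter] at hg ⊢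
                rcases hg with h8 | h8
                · exact Or.inl h8.2
                · exact Or.inr h8.2
              exact G.d4_not_inn h7 (Finset.mem_inter.1 hg').2
            conv_rhs => rw [h5]
            rw [Finset.sum_union d2, Finset.sum_union d1, h3, h4, zero_add]
          have h3 : (G.inc h v : ℤ) + ((∑ g ∈ N h ∩ G.inn (G.U \ X), G.inc g v : ℕ) : ℤ) = 1 := by
            exact_mod_cast h2
          rw [h3, mul_one]
    have hcut : ∑ e ∈ G.cut X, w e = r := by
      rw [← hsum]
      exact Finset.sum_congr rfl fun e he => hwt e (G.d4_cut_sub_tou he)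
    obtain ⟨m, hm, hmw⟩ := hsat r w hreg hcut
    refine ⟨m, hm, ?_⟩
    have h1 := G.restr_lat hX hxX hmw
    have h2 : restr (G.tou X) (m • w) = m • w1 := by
      funext e
      unfold restr
      by_cases he : e ∈ G.tou X
      · rw [if_pos he, Pi.smul_apply, Pi.smul_apply, hwt e he]
      · rw [if_neg he, Pi.smul_apply, hw1.1 e he, smul_zero]
    rwa [h2] at h1

end MG
end ML
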