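import Pool.Agent.ML.D2
import Pool.Agent.ML.A4

/-!
# ML-D5: the bipartite case (step 2.6)
-/

set_option autoImplicit false
set_option linter.unusedSectionVars false
set_option linter.unusedFintypeInType false
set_option linter.unusedVariables false

namespace ML
namespace MG

variable {V E : Type} [Fintype V] [Fintype E] [DecidableEq V] [DecidableEq E] (G : MG V E)

@[simp] lemma res_U (F' : Finset E) : (G.res F').U = G.U := rfl
@[simp] lemma res_F (F' : Finset E) : (G.res F').F = G.F ∩ F' := rfl
@[simp] lemma res_s (F' : Finset E) : (G.res F').s = G.s := rfl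
@[simp] lemma res_t (F' : Finset E) : (G.res F').t = G.t := rfl
@[simp] lemma res_inc (F' : Finset E) : (G.res F').inc = G.inc := rfl

lemma res_isPM {F' N : Finset E} : (G.res F').IsPM N ↔ G.IsPM N ∧ N ⊆ F' := by
  unfold IsPM
  rw [res_F, res_U, res_inc, Finset.subset_inter_iff]
  tauto

lemma res_cut {F' : Finset E} {X : Finset V} : (G.res F').cut X = G.cut X ∩ F' := by
  unfold cut
  rw [res_F, res_s, res_t, Finset.filter_inter]

lemma d5_sum_deg (w : E → ℤ) (X : Finset V) :
    ∑ v ∈ X, G.deg w v = ∑ e ∈ G.F, ((if G.s e ∈ X then 1 else 0) + (if G.t e ∈ X then 1 else 0) : ℕ) •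
      w e := by
  unfold deg
  rw [Finset.sum_comm]
  refine Finset.sum_congr rfl fun e _ => ?_
  rw [← Finset.sum_smul, sum_inc]

lemma d5_ind {S : Finset V} (hS : S ⊆ G.U) (hFS : G.F ⊆ G.cut S) (k : ℕ) :
    ∀ w : E → ℤ, G.Reg (k : ℤ) w → (∀ e, 0 ≤ w e) → w ∈ G.lat := by
  induction k with
  | zero =>
    intro w hw h0
    have hw0 : w = 0 := by
      funext e
      by_cases he : e ∈ G.F
      · have h1 := hw.2 (G.s e) (G.hs e he)
        unfold deg at h1
        rw [Nat.cast_zero, Finset.sum_eq_zero_iff_of_nonneg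
          (fun f _ => nsmul_nonneg (h0 f) _)] at h1
        have h2 := h1 e he
        rw [smul_eq_zero] at h2
        rcases h2 with h2 | h2
        · exfalso
          unfold inc at h2
          rw [if_pos rfl] at h2
          omega
        · exact h2
      · exact hw.1 e he
    rw [hw0]
    exact zero_mem _
  | succ k ih =>
    intro w hw h0
    have hex : ∀ e ∈ G.F, (G.s e ∈ S ∧ G.t e ∈ G.U \ S) ∨ (G.t e ∈ S ∧ G.s e ∈ G.U \ S) := by
      intro e he
      have h1 := ((mem_cut G).1 (hFS he)).2
      have h2 := G.hs e he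
      have h3 := G.ht e he
      rw [Finset.mem_sdiff, Finset.mem_sdiff]
      tauto
    have hdis : Disjoint S (G.U \ S) := Finset.disjoint_sdiff
    have hcard : S.card = (G.U \ S).card := by
      have h1 : ∑ v ∈ S, G.deg w v = ∑ v ∈ G.U \ S, G.deg w v := by
        rw [d5_sum_deg, d5_sum_deg]
        refine Finset.sum_congr rfl fun e he => ?_
        congr 1
        rcases hex e he with ⟨h2, h3⟩ | ⟨h2, h3⟩
        · have h4 : G.t e ∉ S := (Finset.mem_sdiff.1 h3).2
          have h5 : G.s e ∉ G.U \ S := fun h => (Finset.mem_sdiff.1 h).2 h2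
          rw [if_pos h2, if_neg h4, if_neg h5, if_pos h3]
        · have h4 : G.s e ∉ S := (Finset.mem_sdiff.1 h3).2
          have h5 : G.t e ∉ G.U \ S := fun h => (Finset.mem_sdiff.1 h).2 h2
          rw [if_pos h2, if_neg h4, if_neg h5, if_pos h3]
      rw [Finset.sum_congr rfl (fun v hv => hw.2 v (hS hv)),
        Finset.sum_congr rfl (fun v hv => hw.2 v (Finset.sdiff_subset hv)),
        Finset.sum_const, Finset.sum_const, nsmul_eq_mul, nsmul_eq_mul] at h1
      have h2 : ((k + 1 : ℕ) : ℤ) ≠ 0 := by positivity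
      exact_mod_cast mul_right_cancel₀ h2 h1
    obtain ⟨N, hN, -⟩ := hall (G.res (G.F.filter fun e => 0 < w e)) (A := S) (B := G.U \ S) hS
      Finset.sdiff_subset hdis hcard (by
        intro Z hZ
        set Y : Finset V := (G.res (G.F.filter fun e => 0 < w e)).nb Z ∩ S with hY
        have hle : ∑ v ∈ Z, G.deg w v ≤ ∑ v ∈ Y, G.deg w v := by
          rw [d5_sum_deg, d5_sum_deg]
          refine Finset.sum_le_sum fun e he => ?_
          rcases (h0 e).eq_or_lt with h1 | h1
          · rw [← h1]
            simp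
          · refine nsmul_le_nsmul_left h1.le ?_
            have heF : e ∈ (G.res (G.F.filter fun e => 0 < w e)).F := by
              rw [res_F, Finset.mem_inter, Finset.mem_filter]
              exact ⟨he, he, h1⟩
            rcases hex e he with ⟨h2, h3⟩ | ⟨h2, h3⟩
            · have h5 : G.s e ∉ Z := fun h => (Finset.mem_sdiff.1 (hZ h)).2 h2
              rw [if_neg h5]
              by_cases h6 : G.t e ∈ Z
              · have h7 : G.s e ∈ Y := by
                  rw [hY, Finset.mem_inter]
                  refine ⟨(mem_nb _).2 ⟨G.hs e he, e, heF, Or.inl ⟨rfl, h6⟩⟩, h2⟩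
                rw [if_pos h6, if_pos h7]
                omega
              · rw [if_neg h6]
                omega
            · have h5 : G.t e ∉ Z := fun h => (Finset.mem_sdiff.1 (hZ h)).2 h2
              rw [if_neg h5]
              by_cases h6 : G.s e ∈ Z
              · have h7 : G.t e ∈ Y := by
                  rw [hY, Finset.mem_inter]
                  refine ⟨(mem_nb _).2 ⟨G.ht e he, e, heF, Or.inr ⟨rfl, h6⟩⟩, h2⟩
                rw [if_pos h6, if_pos h7]
                omega
              · rw [if_neg h6]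
                omega
        have hYS : Y ⊆ S := Finset.inter_subset_right
        rw [Finset.sum_congr rfl (fun v hv => hw.2 v (Finset.sdiff_subset (hZ hv))),
          Finset.sum_congr rfl (fun v hv => hw.2 v (hS (hYS hv))),
          Finset.sum_const, Finset.sum_const, nsmul_eq_mul, nsmul_eq_mul] at hle
        have h2 : (0 : ℤ) < ((k + 1 : ℕ) : ℤ) := by positivity
        exact_mod_cast le_of_mul_le_mul_right hle h2)
    have hSU : S ∪ (G.U \ S) = G.U := Finset.union_sdiff_of_subset hS
    rw [hSU] at hN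
    have hN2 := ((G.res (G.F.filter fun e => 0 < w e)).sub_self_isPM (N := N)).1 hN
    obtain ⟨hN3, hN4⟩ := (res_isPM G).1 hN2
    have hreg : G.Reg (k : ℤ) (w - ind N) := by
      have h1 := Reg.sub hw hN3.reg
      have h2 : ((k + 1 : ℕ) : ℤ) - 1 = (k : ℤ) := by
        push_cast
        ring
      rwa [h2] at h1
    have hnn : ∀ e, 0 ≤ (w - ind N) e := by
      intro e
      rw [Pi.sub_apply]
      unfold ind
      by_cases he : e ∈ N
      · rw [if_pos he]
        have h1 := (Finset.mem_filter.1 (hN4 he)).2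
        omega
      · rw [if_neg he, sub_zero]
        exact h0 e
    have h3 := ih (w - ind N) hreg hnn
    have h4 : ind N ∈ G.lat := AddSubgroup.subset_closure ⟨N, hN3, rfl⟩
    have h5 : w = (w - ind N) + ind N := by abel
    rw [h5]
    exact add_mem h3 h4

/-- Koenig: in a bipartite graph a nonnegative integral weight of constant degree is a sum of perfect
matchings.
Proof: induction on `r.toNat`.  `r < 0` is impossible if `U` is nonempty (degrees of nonnegative weights);
if `U = ∅` then `F = ∅` and `w = 0`.  `r = 0`: every edge of `F` has an end in `U` where the degree is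
`0` and all terms are nonnegative, so `w = 0`.  `r > 0`: let `S` be the class (`F ⊆ cut S`, `S ⊆ U`),
`S' = U \ S`.  `r |S| = ∑_{v ∈ S} deg w v = w(F) = r |S'|` (every edge has exactly one end in `S` and one
in `S'`), so `|S| = |S'|`.  Let `G' = G.res (F.filter (0 < w))`.  Hall's condition for `Z ⊆ S'`:
`r |Z| = ∑_{v ∈ Z} deg w v` is the weight of the edges with an end in `Z`; these have positive weight
only if their other end is in `G'.nb Z ∩ S`, so `r |Z| ≤ ∑_{v ∈ G'.nb Z ∩ S} deg w v = r |G'.nb Z ∩ S|`.
`hall` for `G'` gives a perfect matching `N` of `G'` (`S ∪ S' = U`, `sub_self_isPM`), which is a perfect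
matching of `G` contained in the support of `w`.  `w - ind N` is nonnegative and `Reg (r - 1)`. -/
theorem bip_nonneg (hB : G.Bip) {r : ℤ} {w : E → ℤ} (hw : G.Reg r w) (h0 : ∀ e, 0 ≤ w e) :
    w ∈ G.lat := by
  obtain ⟨S, hS, hFS⟩ := hB
  by_cases hU : G.U = ∅
  · have hw0 : w = 0 := by
      funext e
      by_cases he : e ∈ G.F
      · have h1 := G.hs e he
        rw [hU] at h1
        exact absurd h1 (Finset.notMem_empty _)
      · exact hw.1 e he
    rw [hw0]
    exact zero_mem _
  · obtain ⟨v, hv⟩ := Finset.nonempty_iff_ne_empty.mpr hU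
    have hr : 0 ≤ r := by
      rw [← hw.2 v hv]
      exact Finset.sum_nonneg fun e _ => nsmul_nonneg (h0 e) _
    obtain ⟨k, rfl⟩ := Int.eq_ofNat_of_zero_le hr
    exact d5_ind G hS hFS k w hw h0

/-- Step 2.6.  Proof: let `z` be the sum of `ind N` over all perfect matchings; `z e ≥ 1` on `F` by
`Mc`; `w + M • z ≥ 0` for large `M`, and it has constant degree: `bip_nonneg`; `z ∈ lat`. -/
theorem bip_lat (hB : G.Bip) (hM : G.Mc) {r : ℤ} {w : E → ℤ} (hw : G.Reg r w) : w ∈ G.lat := by
  classical
  choose f hf using hM.2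
  have hreg : ∀ s : Finset {e // e ∈ G.F}, (∑ e ∈ s, ind (f e.1 e.2)) ∈ G.lat ∧
      (∃ r, G.Reg r (∑ e ∈ s, ind (f e.1 e.2))) ∧ ∀ x, 0 ≤ (∑ e ∈ s, ind (f e.1 e.2)) x := by
    intro s
    induction s using Finset.induction_on with
    | empty =>
      refine ⟨zero_mem _, ⟨0, ?_, ?_⟩, ?_⟩
      · intro e _
        rfl
      · intro v _
        simp [deg]
      · intro x
        exact le_rfl
    | insert a s ha ih =>
      obtain ⟨h1, ⟨r', h2⟩, h3⟩ := ih
      rw [Finset.sum_insert ha]
      refine ⟨add_mem (AddSubgroup.subset_closure ⟨_, (hf a.1 a.2).1, rfl⟩) h1,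
        ⟨1 + r', (hf a.1 a.2).1.reg.add h2⟩, ?_⟩
      intro x
      rw [Pi.add_apply]
      refine add_nonneg ?_ (h3 x)
      unfold ind
      split_ifs
      · exact zero_le_one
      · exact le_rfl
  obtain ⟨hz1, ⟨r', hz2⟩, hz3⟩ := hreg Finset.univ
  set z : E → ℤ := ∑ e ∈ (Finset.univ : Finset {e // e ∈ G.F}), ind (f e.1 e.2) with hz
  have hz4 : ∀ e ∈ G.F, 1 ≤ z e := by
    intro e he
    rw [hz, Finset.sum_apply]
    have h1 : ind (f e he) e ≤ ∑ c : {e // e ∈ G.F}, ind (f c.1 c.2) e := by
      refine Finset.single_le_sum (f := fun c : {e // e ∈ G.F} => ind (f c.1 c.2) e)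
        (fun i _ => ?_) (Finset.mem_univ (⟨e, he⟩ : {e // e ∈ G.F}))
      unfold ind
      split_ifs
      · exact zero_le_one
      · exact le_rfl
    have h2 : ind (f e he) e = 1 := by
      unfold ind
      rw [if_pos (hf e he).2]
    rw [h2] at h1
    exact h1
  set m : ℤ := ∑ e : E, |w e| with hm
  have hm1 : ∀ e, |w e| ≤ m := fun e =>
    Finset.single_le_sum (f := fun e => |w e|) (fun i _ => abs_nonneg _) (Finset.mem_univ e)
  have h5 : w + m • z ∈ G.lat := by
    refine bip_nonneg G hB (hw.add (Reg.smul m hz2)) ?_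
    intro e
    rw [Pi.add_apply, Pi.smul_apply, smul_eq_mul]
    have h6 := hm1 e
    have h7 := abs_nonneg (w e)
    have h8 := neg_abs_le (w e)
    by_cases he : e ∈ G.F
    · have h9 := hz4 e he
      nlinarith
    · rw [hw.1 e he]
      have h9 := hz3 e
      have h10 : 0 ≤ m := h7.trans h6
      have := mul_nonneg h10 h9
      linarith
  have h6 : w = (w + m • z) - m • z := by abel
  rw [h6]
  exact sub_mem h5 (zsmul_mem hz1 m)

theorem bip_kills (hB : G.Bip) (hM : G.Mc) {χ : E → QZ} (hk : G.Kills χ) : G.KillsReg χ := by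
  intro r w hw
  exact hk.pair_lat (bip_lat G hB hM hw)

end MG
end ML
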