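import Pool.Agent.ML.C8
import Pool.Agent.ML.D2

/-!
# ML-D6: bricks are near-bricks (step 2.7)
-/

set_option autoImplicit false
set_option linter.unusedSectionVars false
set_option linter.unusedFintypeInType false
set_option linter.unusedVariables false

namespace ML
namespace MG

variable {V E : Type} [Fintype V] [Fintype E] [DecidableEq V] [DecidableEq E] (G : MG V E)

variable {G} in
/-- Step 2.7.  Proof: let `w` be `Reg r`, `P` the finite set of all perfect matchings.
`coneHyp_large` applies (`|U|` is even, no loops: `Mc.even`, `Mc.ne`; every edge is in a member of `P`;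
nontrivial shores are not tight, so some `N ∈ P` has `|N ∩ cut X| ≠ 1`).  So `w + M z`,
`z = ∑_{N ∈ P} ind N`, satisfies `ConeHyp`; `cone_int`: `m • (w + M • z)` is a sum of perfect
matchings, so in `lat`; `z ∈ lat`; so `m • w ∈ lat`. -/
theorem Brick.nb (hB : G.Brick) : G.NB := by
  classical
  obtain ⟨hMc, hConn, hNB, hT⟩ := hB
  refine ⟨hMc, hConn, ?_⟩
  intro r w hw
  set P : Finset (Finset E) := Finset.univ.filter (fun N => G.IsPM N) with hPdef
  have hP : ∀ N ∈ P, G.IsPM N := fun N hN => (Finset.mem_filter.1 hN).2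
  have h1 : ∀ e ∈ G.F, (∃ N ∈ P, e ∈ N) ∨ 0 ≤ w e := by
    intro e he
    obtain ⟨N, hN, heN⟩ := hMc.2 e he
    exact Or.inl ⟨N, Finset.mem_filter.2 ⟨Finset.mem_univ _, hN⟩, heN⟩
  have h2 : ∀ X, G.Nontriv X → (∃ N ∈ P, (N ∩ G.cut X).card ≠ 1) ∨
      r ≤ ∑ e ∈ G.cut X, w e := by
    intro X hX
    have hnt := hT X hX
    left
    by_contra hcon
    apply hnt
    intro N hN
    by_contra hne
    exact hcon ⟨N, Finset.mem_filter.2 ⟨Finset.mem_univ _, hN⟩, hne⟩
  obtain ⟨M, hM⟩ := G.coneHyp_large hMc.even (fun e he => hMc.ne he) P hP hw h1 h2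
  have hcone := hM M le_rfl
  obtain ⟨m, hm, c, hc, hsum⟩ := G.cone_int (r := (r : ℚ) + M * P.card)
    (w := fun e => w e + M * ∑ N ∈ P, ind N e) hcone
  refine ⟨m, hm, ?_⟩
  have hz : (∑ N ∈ P, ind N) ∈ G.lat := by
    apply AddSubgroup.sum_mem
    intro N hN
    exact AddSubgroup.subset_closure ⟨N, hP N hN, rfl⟩
  have hs : (∑ N : Finset E, c N • ind N) ∈ G.lat := by
    apply AddSubgroup.sum_mem
    intro N _
    by_cases h0 : c N = 0
    · rw [h0, zero_smul]; exact G.lat.zero_mem
    · exact G.lat.nsmul_mem (AddSubgroup.subset_closure ⟨N, hc N h0, rfl⟩) _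
  have heq : m • w = (∑ N : Finset E, c N • ind N) - (m * M) • (∑ N ∈ P, ind N) := by
    funext e
    have h3 := hsum e
    have h5 : ((∑ N : Finset E, c N • ind N) - (m * M) • (∑ N ∈ P, ind N)) e
        = (∑ N : Finset E, (c N : ℤ) * ind N e) - ((m : ℤ) * M) * ∑ N ∈ P, ind N e := by
      rw [Pi.sub_apply, Finset.sum_apply, Pi.smul_apply, Finset.sum_apply, nsmul_eq_mul]
      push_cast
      congr 1
    rw [h5, Pi.smul_apply, nsmul_eq_mul]
    have h4 : ∑ N : Finset E, (c N : ℤ) * ind N e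
        = ∑ N : Finset E, (if e ∈ N then (c N : ℤ) else 0) := by
      apply Finset.sum_congr rfl
      intro N _
      unfold ind
      split_ifs <;> simp
    rw [h4, h3]
    ring
  rw [heq]
  exact G.lat.sub_mem hs (G.lat.nsmul_mem hz _)

end MG
end ML
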