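import Mathlib

/-!
# ML: matching lattice of near-bricks, definitions

All graphs are finite multigraphs on fixed types `V` (vertices) and `E` (edges), given by two end
maps, a finite vertex set `U` and a finite edge set `F`.  Contraction does not change the types.
-/

set_option autoImplicit false
set_option linter.unusedSectionVars false
set_option linter.unusedFintypeInType false
set_option linter.unusedVariables false

namespace ML

/-- A multigraph: end maps `s`, `t`, a finite vertex set `U`, a finite edge set `F`; the edges of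
`F` have both ends in `U`. -/
structure MG (V E : Type) where
  s : E → V
  t : E → V
  U : Finset V
  F : Finset E
  hs : ∀ e ∈ F, s e ∈ U
  ht : ∀ e ∈ F, t e ∈ U

/-- The group of characters values, `ℚ/ℤ`. -/
abbrev QZ := AddCircle (1 : ℚ)

/-- The element of order two of `ℚ/ℤ`. -/
noncomputable def half : QZ := ((1 / 2 : ℚ) : QZ)

/-- The indicator function of a set of edges. -/
def ind {E : Type} [DecidableEq E] (N : Finset E) : E → ℤ := fun e => if e ∈ N then 1 else 0

/-- The value of the character `χ` on the integral weight `w`. -/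
noncomputable def pair {E : Type} [Fintype E] (χ : E → QZ) (w : E → ℤ) : QZ := ∑ e, w e • χ e

namespace MG

variable {V E : Type} [Fintype V] [Fintype E] [DecidableEq V] [DecidableEq E]

variable (G : MG V E)

/-- Number of times the edge `e` is attached to `v` (a loop counts twice). -/
def inc (e : E) (v : V) : ℕ := (if G.s e = v then 1 else 0) + (if G.t e = v then 1 else 0)

/-- Weighted degree. -/
def deg {M : Type} [AddCommMonoid M] (w : E → M) (v : V) : M := ∑ e ∈ G.F, G.inc e v • w e

/-- The cut of `X`: edges of `F` with exactly one end in `X`. -/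
def cut (X : Finset V) : Finset E := G.F.filter (fun e => ¬ (G.s e ∈ X ↔ G.t e ∈ X))

/-- The edges of `F` with both ends in `X`. -/
def inn (X : Finset V) : Finset E := G.F.filter (fun e => G.s e ∈ X ∧ G.t e ∈ X)

/-- The edges of `F` with at least one end in `X`. -/
def tou (X : Finset V) : Finset E := G.F.filter (fun e => G.s e ∈ X ∨ G.t e ∈ X)

/-- The vertices joined to some vertex of `X` by an edge of `F`. -/
def nb (X : Finset V) : Finset V :=
  G.U.filter (fun v => ∃ e ∈ G.F, (G.s e = v ∧ G.t e ∈ X) ∨ (G.t e = v ∧ G.s e ∈ X))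

/-- Perfect matchings of `G`. -/
def IsPM (N : Finset E) : Prop := N ⊆ G.F ∧ ∀ v ∈ G.U, ∑ e ∈ N, G.inc e v = 1

/-- `G` is matching covered (except that it may be disconnected): there is a perfect matching and
every edge lies in one. -/
def Mc : Prop := (∃ N, G.IsPM N) ∧ ∀ e ∈ G.F, ∃ N, G.IsPM N ∧ e ∈ N

/-- `G` is connected: every proper nonempty part of the vertex set has an edge leaving it. -/
def Conn : Prop := ∀ X, X ⊆ G.U → X.Nonempty → X ≠ G.U → (G.cut X).Nonempty

/-- `G` is bipartite. -/
def Bip : Prop := ∃ S, S ⊆ G.U ∧ G.F ⊆ G.cut S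

/-- Every perfect matching has exactly one edge in the cut of `X`. -/
def Tight (X : Finset V) : Prop := ∀ N, G.IsPM N → (N ∩ G.cut X).card = 1

/-- `X` is a nontrivial odd shore. -/
def Nontriv (X : Finset V) : Prop :=
  X ⊆ G.U ∧ Odd X.card ∧ 3 ≤ X.card ∧ X.card + 3 ≤ G.U.card

/-- Bricks: matching covered, connected, not bipartite, without nontrivial tight cut. -/
def Brick : Prop := G.Mc ∧ G.Conn ∧ ¬ G.Bip ∧ ∀ X, G.Nontriv X → ¬ G.Tight X

/-- Integral weights supported on `F` with all degrees equal to `r`. -/
def Reg (r : ℤ) (w : E → ℤ) : Prop := (∀ e, e ∉ G.F → w e = 0) ∧ ∀ v ∈ G.U, G.deg w v = r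

/-- The lattice spanned by the perfect matchings. -/
def lat : AddSubgroup (E → ℤ) := AddSubgroup.closure {w | ∃ N, G.IsPM N ∧ w = ind N}

/-- The lattice spanned by the perfect matchings that meet the cut of `X` exactly once. -/
def latX (X : Finset V) : AddSubgroup (E → ℤ) :=
  AddSubgroup.closure {w | ∃ N, G.IsPM N ∧ (N ∩ G.cut X).card = 1 ∧ w = ind N}

/-- Near-bricks: matching covered, connected, and every integral weight of constant degree has a
positive multiple in the lattice of the perfect matchings. -/
def NB : Prop :=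
  G.Mc ∧ G.Conn ∧ ∀ r w, G.Reg r w → ∃ m : ℕ, 0 < m ∧ m • w ∈ G.lat

/-- `χ` kills all perfect matchings. -/
def Kills (χ : E → QZ) : Prop := ∀ N, G.IsPM N → ∑ e ∈ N, χ e = 0

/-- `χ` kills all integral weights of constant degree. -/
def KillsReg (χ : E → QZ) : Prop := ∀ r w, G.Reg r w → pair χ w = 0

/-- The subgraph induced by the vertices of `W` (used for `W ⊆ U`). -/
def sub (W : Finset V) : MG V E where
  s := G.s
  t := G.t
  U := W
  F := G.inn W
  hs := fun e he => (Finset.mem_filter.1 he).2.1
  ht := fun e he => (Finset.mem_filter.1 he).2.2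

/-- Deletion of an edge. -/
def del (e : E) : MG V E where
  s := G.s
  t := G.t
  U := G.U
  F := G.F.erase e
  hs := fun f hf => G.hs f (Finset.mem_of_mem_erase hf)
  ht := fun f hf => G.ht f (Finset.mem_of_mem_erase hf)

/-- Restriction to the edges of `F'` (used for `F' ⊆ F`). -/
def res (F' : Finset E) : MG V E where
  s := G.s
  t := G.t
  U := G.U
  F := G.F ∩ F'
  hs := fun f hf => G.hs f (Finset.mem_inter.1 hf).1
  ht := fun f hf => G.ht f (Finset.mem_inter.1 hf).1

/-- Contraction: the vertices outside `X` are contracted to the single vertex `x` (used for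
`X ⊆ U`, `x ∉ X`); the edges are the edges of `F` with an end in `X`. -/
def shr (X : Finset V) (x : V) : MG V E where
  s := fun e => if G.s e ∈ X then G.s e else x
  t := fun e => if G.t e ∈ X then G.t e else x
  U := insert x X
  F := G.tou X
  hs := fun e _ => by
    by_cases h : G.s e ∈ X
    · rw [if_pos h]; exact Finset.mem_insert_of_mem h
    · rw [if_neg h]; exact Finset.mem_insert_self _ _
  ht := fun e _ => by
    by_cases h : G.t e ∈ X
    · rw [if_pos h]; exact Finset.mem_insert_of_mem h
    · rw [if_neg h]; exact Finset.mem_insert_self _ _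

/-- A family of pairwise disjoint odd sets of vertices outside `S`, such that every edge leaving a
member of the family has an end in `S`. -/
def Fam (S : Finset V) (Q : Finset (Finset V)) : Prop :=
  S ⊆ G.U ∧ (∀ A ∈ Q, A ⊆ G.U ∧ Disjoint A S ∧ Odd A.card ∧
    ∀ e ∈ G.cut A, G.s e ∈ S ∨ G.t e ∈ S) ∧
  ∀ A ∈ Q, ∀ B ∈ Q, A ≠ B → Disjoint A B

/-- The hypotheses of the cone theorem, for a rational weight: nonnegative, supported on `F`, all
degrees `r`, all odd cuts at least `r`. -/
def ConeHyp (r : ℚ) (w : E → ℚ) : Prop :=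
  (∀ e, 0 ≤ w e) ∧ (∀ e, e ∉ G.F → w e = 0) ∧ (∀ v ∈ G.U, G.deg w v = r) ∧
    ∀ X, X ⊆ G.U → Odd X.card → r ≤ ∑ e ∈ G.cut X, w e

/-- `c` is a decomposition of the rational weight `w` into perfect matchings. -/
def Dec (w : E → ℚ) (c : Finset E → ℚ) : Prop :=
  (∀ N, 0 ≤ c N) ∧ (∀ N, c N ≠ 0 → G.IsPM N) ∧ ∀ e, ∑ N : Finset E, (if e ∈ N then c N else 0) = w e

end MG

/-! ### The Petersen graph -/

/-- Vertices of the Petersen graph: `(false, i)` outer, `(true, i)` inner. -/
abbrev PV := Bool × Fin 5

/-- Adjacency of the Petersen graph. -/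
def padj : PV → PV → Bool
  | (false, i), (false, j) => decide (j = i + 1 ∨ i = j + 1)
  | (false, i), (true, j) => decide (i = j)
  | (true, i), (false, j) => decide (i = j)
  | (true, i), (true, j) => decide (j = i + 2 ∨ i = j + 2)

/-- Both vertices outer and distinct (for adjacent vertices: an edge of the outer 5-cycle). -/
def oc (p q : PV) : Bool := !p.1 && !q.1 && decide (p ≠ q)

/-- The value `1/2` on the edges of the outer cycle, `0` elsewhere. -/
noncomputable def och (p q : PV) : QZ := if oc p q then half else 0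

namespace MG

variable {V E : Type} [Fintype V] [Fintype E] [DecidableEq V] [DecidableEq E]

variable (G : MG V E)

/-- The fibre of `p`. -/
def fib (π : V → PV) (p : PV) : Finset V := G.U.filter (fun v => π v = p)

/-- Combinatorial Petersen structure: the fibres of `π` are bipartite with classes `A` and not `A`,
the class `A` has one more vertex, edges between different fibres join vertices of `A` in adjacent
fibres, and every edge of the Petersen graph occurs. -/
structure PS (π : V → PV) (A : Finset V) : Prop where
  edge : ∀ e ∈ G.F, (π (G.s e) = π (G.t e) ∧ ¬ (G.s e ∈ A ↔ G.t e ∈ A)) ∨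
    (padj (π (G.s e)) (π (G.t e)) = true ∧ G.s e ∈ A ∧ G.t e ∈ A)
  size : ∀ p, ((G.fib π p) ∩ A).card = ((G.fib π p) \ A).card + 1
  real : ∀ p q, padj p q = true → ∃ e ∈ G.F, (π (G.s e) = p ∧ π (G.t e) = q) ∨
    (π (G.s e) = q ∧ π (G.t e) = p)

/-- The character `χ` is a potential plus `1/2` on the edges over the outer cycle. -/
def PC (π : V → PV) (y : V → QZ) (χ : E → QZ) : Prop :=
  ∀ e ∈ G.F, χ e = y (G.s e) + y (G.t e) + och (π (G.s e)) (π (G.t e))

/-- Petersen structure for `G` and `χ`. -/
def PStr (χ : E → QZ) : Prop := ∃ π A y, G.PS π A ∧ G.PC π y χ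

end MG

end ML
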