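import Pool.Agent.ML.D5
import Pool.Agent.ML.A5
import Pool.Agent.ML.A7c

/-!
# ML-E1: dependence of edges (steps 3.3, 3.4)
-/

set_option autoImplicit false
set_option linter.unusedSectionVars false
set_option linter.unusedFintypeInType false
set_option linter.unusedVariables false

namespace ML
namespace MG

variable {V E : Type} [Fintype V] [Fintype E] [DecidableEq V] [DecidableEq E] (G : MG V E)

/-- Step 3.3.  Choose `e ∈ F` with the number of `f ∈ F` such that every perfect matching containing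
`f` contains `e` minimal.  If `g` is such an edge, the corresponding set of `g` is contained in that of
`e`, so by minimality they are equal and contain `e`: every perfect matching containing `e` contains
`g`.  If `g` is not such an edge some perfect matching contains `g` but not `e`. -/
theorem dep_exists (hne : G.F.Nonempty) : ∃ e ∈ G.F, ∀ g ∈ G.F,
    (∀ N, G.IsPM N → (g ∈ N ↔ e ∈ N)) ∨ ∃ N, G.IsPM N ∧ g ∈ N ∧ e ∉ N := by
  classical
  let D : E → Finset E := fun e => G.F.filter (fun f => ∀ N, G.IsPM N → f ∈ N → e ∈ N)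
  obtain ⟨e, he, hmin⟩ := Finset.exists_min_image G.F (fun e => (D e).card) hne
  refine ⟨e, he, fun g hg => ?_⟩
  by_cases h : ∀ N, G.IsPM N → g ∈ N → e ∈ N
  · left
    have h1 : D g ⊆ D e := by
      intro f hf
      have hf' := Finset.mem_filter.mp hf
      exact Finset.mem_filter.mpr ⟨hf'.1, fun N hN hfN => h N hN (hf'.2 N hN hfN)⟩
    have h2 : D g = D e := Finset.eq_of_subset_of_card_le h1 (hmin g hg)
    have h3 : e ∈ D e := Finset.mem_filter.mpr ⟨he, fun N _ h => h⟩
    rw [← h2] at h3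
    exact fun N hN => ⟨h N hN, (Finset.mem_filter.mp h3).2 N hN⟩
  · right
    push Not at h
    exact h

/-- Counting: the edges of `M` leaving members of `Q` have different ends in `S`. -/
private lemma e1_count {M : Finset E} {S S1 : Finset V} {Q : Finset (Finset V)} (hS1 : S1 ⊆ S)
    (hd : ∀ A ∈ Q, Disjoint A S) (hp : ∀ A ∈ Q, ∀ B ∈ Q, A ≠ B → Disjoint A B)
    (he : ∀ A ∈ Q, ∀ g ∈ M, g ∈ G.cut A → G.s g ∈ S ∨ G.t g ∈ S)
    (hu : ∀ v ∈ S, ∀ g ∈ M, ∀ g' ∈ M, (G.s g = v ∨ G.t g = v) → (G.s g' = v ∨ G.t g' = v) →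
      g = g')
    (h1 : ∀ A ∈ Q, ∀ g ∈ M, g ∈ G.cut A → G.s g ∉ S1 ∧ G.t g ∉ S1) :
    ∑ A ∈ Q, (M ∩ G.cut A).card + S1.card ≤ S.card := by
  have h2 : ∑ A ∈ Q, (M ∩ G.cut A).card = (Q.sigma (fun A => M ∩ G.cut A)).card :=
    (Finset.card_sigma _ _).symm
  have h3 : (Q.sigma (fun A => M ∩ G.cut A)).card ≤ (S \ S1).card := by
    refine Finset.card_le_card_of_injOn (fun p => if G.s p.2 ∈ S then G.s p.2 else G.t p.2) ?_ ?_
    · rintro ⟨A, g⟩ hp'
      have h4 := Finset.mem_sigma.mp hp'
      have hA : A ∈ Q := h4.1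
      have hg := Finset.mem_inter.mp h4.2
      have h5 := h1 A hA g hg.1 hg.2
      have h6 := he A hA g hg.1 hg.2
      simp only [Finset.coe_sdiff, Set.mem_sdiff, Finset.mem_coe]
      by_cases hs : G.s g ∈ S
      · rw [if_pos hs]; exact ⟨hs, h5.1⟩
      · rw [if_neg hs]; exact ⟨h6.resolve_left hs, h5.2⟩
    · rintro ⟨A, g⟩ hp1 ⟨B, g'⟩ hp2 heq
      have h4 := Finset.mem_sigma.mp hp1
      have h5 := Finset.mem_sigma.mp hp2
      have hA : A ∈ Q := h4.1
      have hB : B ∈ Q := h5.1
      have hg := Finset.mem_inter.mp h4.2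
      have hg' := Finset.mem_inter.mp h5.2
      simp only at heq hg hg'
      have h6 := he A hA g hg.1 hg.2
      have h7 : (if G.s g ∈ S then G.s g else G.t g) ∈ S := by
        by_cases hs : G.s g ∈ S
        · rw [if_pos hs]; exact hs
        · rw [if_neg hs]; exact h6.resolve_left hs
      have h8 : g = g' := by
        refine hu _ h7 g hg.1 g' hg'.1 ?_ ?_
        · by_cases hs : G.s g ∈ S
          · rw [if_pos hs]; exact Or.inl rfl
          · rw [if_neg hs]; exact Or.inr rfl
        · rw [heq]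
          by_cases hs : G.s g' ∈ S
          · rw [if_pos hs]; exact Or.inl rfl
          · rw [if_neg hs]; exact Or.inr rfl
      subst h8
      have h9 : A = B := by
        by_contra hne
        have hdis := hp A hA B hB hne
        have hcA := (G.mem_cut.mp hg.2).2
        have hcB := (G.mem_cut.mp hg'.2).2
        have hdA := Finset.disjoint_left.mp (hd A hA)
        have hdB := Finset.disjoint_left.mp (hd B hB)
        have hdAB := Finset.disjoint_left.mp hdis
        rcases h6 with h6 | h6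
        · have a1 : G.s g ∉ A := fun h => hdA h h6
          have b1 : G.s g ∉ B := fun h => hdB h h6
          have a2 : G.t g ∈ A := by tauto
          have b2 : G.t g ∈ B := by tauto
          exact hdAB a2 b2
        · have a1 : G.t g ∉ A := fun h => hdA h h6
          have b1 : G.t g ∉ B := fun h => hdB h h6
          have a2 : G.s g ∈ A := by tauto
          have b2 : G.s g ∈ B := by tauto
          exact hdAB a2 b2
      subst h9
      rfl
  rw [Finset.card_sdiff_of_subset hS1] at h3
  have h4 := Finset.card_le_card hS1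
  omega

variable {G} in
/-- Step 3.4.  `f = xy ≠ e` lies in the same perfect matchings as `e`.  Then `G` minus `e`, `f` is
bipartite.
Proof.  Let `G' := (G.del e).sub (U \ {x, y})`.  `G'` has no perfect matching `N'`: `N' ∪ {f}` would be a
perfect matching of `G` (`isPM_insert`) containing `f` but not `e`.  `|U \ {x, y}|` is even.  `tutte`:
`G'.Fam S' Q`, `|S'| + 2 ≤ |Q|`.  `S := S' ∪ {x, y}`, `|S| = |S'| + 2` (`x ≠ y`, no loops).
(1) Let `N` be a perfect matching with `f ∈ N`, so `e ∈ N` (exists by `Mc`).  All vertices of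
`U \ {x, y}` are matched by `N \ {f}`.  For `A ∈ Q` the number `n_A = |N ∩ cut A|` is odd, `≥ 1`; the edges
of `N ∩ cut A` other than `e` are edges of `G'` (they avoid `x`, `y`), so have an end in `S'`; so
`∑_A n_A ≤ |S'| + (number of A with e ∈ cut A) ≤ |S'| + 2 ≤ |Q|` (members are disjoint, so `e` has its
ends in at most two members).  So all `n_A = 1`, `|Q| = |S'| + 2`, all vertices of `S'` are matched by
`N` to members, and `e` joins two different members.
(2) Let `N` be a perfect matching without `e` (so without `f`).  Edges of `N` leaving `A ∈ Q` have an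
end in `S` (if the other end is not `x` or `y`, it is an edge of `G'`).  `∑_A n_A ≤ |S| = |Q|`, so all
`n_A = 1` and all vertices of `S` are matched to members.
So all members are tight in `G`; `U \ A` contains `S`, is odd, so has at least 3 elements; the brick has
no nontrivial tight cut, so all members are singletons.
`R := U \ S \ ∪ Q`: an edge `g` leaving `R` does not end in a member (`g ≠ e` as `e` joins two members;
both ends are in `U \ {x, y}`; `Fam`), so it ends in `S`; let `N` be a perfect matching containing `g`: in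
case (2) all vertices of `S` are matched to members, contradiction; in case (1) the same for `S'`, and
`x`, `y` are covered by `f`, which does not touch `R`.  So `cut R = ∅`, `R ≠ U` (`S` nonempty), `R = ∅`.
Let `g ∈ F`, `g ≠ e`, `g ≠ f`.  Not both ends in `S`: take `N ∋ g`; in case (2) the vertices of `S` are
matched to members; in case (1) the vertices of `S'` too, and `x`, `y` by `f`.  Not both ends outside
`S`: they would be in two members (no loops; members are singletons), `g` would be an edge of `G'`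
leaving a member, so it would have an end in `S'`.  So `g ∈ cut S`. -/
theorem Brick.dep_bip (hB : G.Brick) {e f : E} (he : e ∈ G.F) (hf : f ∈ G.F) (hne : f ≠ e)
    (h : ∀ N, G.IsPM N → (f ∈ N ↔ e ∈ N)) :
    ∃ S, S ⊆ G.U ∧ ∀ g ∈ G.F, g ≠ e → g ≠ f → g ∈ G.cut S := by
  classical
  have hMc := hB.1
  have hxU : G.s f ∈ G.U := G.hs f hf
  have hyU : G.t f ∈ G.U := G.ht f hf
  have hxy : G.s f ≠ G.t f := hMc.ne hf
  obtain ⟨W, hW⟩ : ∃ W, W = G.U \ {G.s f, G.t f} := ⟨_, rfl⟩
  have hWU : W ⊆ G.U := by rw [hW]; exact Finset.sdiff_subset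
  have hxW : G.s f ∉ W := by rw [hW]; simp
  have hyW : G.t f ∉ W := by rw [hW]; simp
  have hmemW : ∀ v, v ∈ W ↔ v ∈ G.U ∧ v ≠ G.s f ∧ v ≠ G.t f := by
    intro v
    rw [hW]
    simp
  have hpair : ({G.s f, G.t f} : Finset V) ⊆ G.U := by
    intro v hv
    rcases Finset.mem_insert.mp hv with rfl | hv
    · exact hxU
    · rw [Finset.mem_singleton.mp hv]; exact hyU
  have hWcard : W.card + 2 = G.U.card := by
    rw [hW, Finset.card_sdiff_of_subset hpair, Finset.card_pair hxy]
    have := Finset.card_le_card hpair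
    rw [Finset.card_pair hxy] at this
    omega
  have hWeven : Even W.card := by
    have := hMc.even
    rw [← hWcard, Nat.even_add] at this
    exact this.mpr even_two
  -- no perfect matching
  have hno : ¬ ∃ N, ((G.del e).sub W).IsPM N := by
    rintro ⟨N, hN⟩
    rw [del_sub_isPM] at hN
    have h1 := (G.isPM_insert hN.1 hf hxy hxW hyW).1
    have h2 : insert (G.s f) (insert (G.t f) W) = G.U := by
      ext v
      rw [Finset.mem_insert, Finset.mem_insert, hmemW]
      constructor
      · rintro (rfl | rfl | h)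
        · exact hxU
        · exact hyU
        · exact h.1
      · intro h
        by_cases h3 : v = G.s f
        · exact Or.inl h3
        · by_cases h4 : v = G.t f
          · exact Or.inr (Or.inl h4)
          · exact Or.inr (Or.inr ⟨h, h3, h4⟩)
    rw [h2, sub_self_isPM] at h1
    have h3 := (h _ h1).mp (Finset.mem_insert_self _ _)
    rcases Finset.mem_insert.mp h3 with h4 | h4
    · exact hne h4.symm
    · exact hN.2 h4
  obtain ⟨S', Q, hFam, -, hcard⟩ := ((G.del e).sub W).tutte hno
  have hcard2 : S'.card + 2 ≤ Q.card := hcard hWeven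
  obtain ⟨hS'W, hQ, hQd⟩ := hFam
  have hS'W' : S' ⊆ W := hS'W
  have hQW : ∀ A ∈ Q, A ⊆ W := fun A hA => (hQ A hA).1
  have hQS' : ∀ A ∈ Q, Disjoint A S' := fun A hA => (hQ A hA).2.1
  have hQo : ∀ A ∈ Q, Odd A.card := fun A hA => (hQ A hA).2.2.1
  have hP0 : ∀ A ∈ Q, ∀ g ∈ G.cut A, g ≠ e → G.s g ∈ W → G.t g ∈ W →
      G.s g ∈ S' ∨ G.t g ∈ S' := by
    intro A hA g hg hge hs ht
    refine (hQ A hA).2.2.2 g ?_
    rw [sub_cut, del_cut, del_inn, Finset.mem_inter, Finset.mem_erase, Finset.mem_erase]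
    exact ⟨⟨hge, hg⟩, hge, G.mem_inn.mpr ⟨G.cut_sub A hg, hs, ht⟩⟩
  obtain ⟨S, hS⟩ : ∃ S, S = insert (G.s f) (insert (G.t f) S') := ⟨_, rfl⟩
  have hmemS : ∀ v, v ∈ S ↔ v = G.s f ∨ v = G.t f ∨ v ∈ S' := by
    intro v
    rw [hS, Finset.mem_insert, Finset.mem_insert]
  have hxS' : G.s f ∉ S' := fun h => hxW (hS'W' h)
  have hyS' : G.t f ∉ S' := fun h => hyW (hS'W' h)
  have hScard : S.card = S'.card + 2 := by
    rw [hS, Finset.card_insert_of_notMem, Finset.card_insert_of_notMem hyS']
    rw [Finset.mem_insert, not_or]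
    exact ⟨hxy, hxS'⟩
  have hSU : S ⊆ G.U := by
    intro v hv
    rcases (hmemS v).mp hv with rfl | rfl | hv
    · exact hxU
    · exact hyU
    · exact hWU (hS'W' hv)
  have hQS : ∀ A ∈ Q, Disjoint A S := by
    intro A hA
    rw [Finset.disjoint_left]
    intro v hv hvS
    rcases (hmemS v).mp hvS with rfl | rfl | h1
    · exact hxW (hQW A hA hv)
    · exact hyW (hQW A hA hv)
    · exact Finset.disjoint_left.mp (hQS' A hA) hv h1
  have hP1 : ∀ A ∈ Q, ∀ g ∈ G.cut A, g ≠ e → G.s g ∈ S ∨ G.t g ∈ S := by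
    intro A hA g hg hge
    have hgF := G.cut_sub A hg
    by_cases h1 : G.s g ∈ W
    · by_cases h2 : G.t g ∈ W
      · rcases hP0 A hA g hg hge h1 h2 with h3 | h3
        · exact Or.inl ((hmemS _).mpr (Or.inr (Or.inr h3)))
        · exact Or.inr ((hmemS _).mpr (Or.inr (Or.inr h3)))
      · right
        rw [hmemW] at h2
        rw [hmemS]
        have := G.ht g hgF
        tauto
    · left
      rw [hmemW] at h1
      rw [hmemS]
      have := G.hs g hgF
      tauto
  have hfcut : ∀ A ∈ Q, f ∉ G.cut A := by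
    intro A hA hfA
    have h1 := (G.mem_cut.mp hfA).2
    apply h1
    constructor
    · intro h2; exact absurd (hQW A hA h2) hxW
    · intro h2; exact absurd (hQW A hA h2) hyW
  -- case 1
  have hc1 : ∀ N, G.IsPM N → e ∈ N → ∀ S1 ⊆ S',
      (∀ A ∈ Q, ∀ g ∈ N, g ≠ e → g ∈ G.cut A → G.s g ∉ S1 ∧ G.t g ∉ S1) →
      ∑ A ∈ Q, ((N.erase e) ∩ G.cut A).card + S1.card ≤ S'.card := by
    intro N hN heN S1 hS1 h1
    have hfN : f ∈ N := (h N hN).mpr heN
    refine G.e1_count hS1 hQS' hQd ?_ ?_ ?_
    · intro A hA g hg hgA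
      have hgN := Finset.mem_of_mem_erase hg
      have hge := Finset.ne_of_mem_erase hg
      have hgF := hN.1 hgN
      have hgf : g ≠ f := fun h => hfcut A hA (h ▸ hgA)
      refine hP0 A hA g hgA hge ?_ ?_
      · rw [hmemW]
        refine ⟨G.hs g hgF, fun h2 => hgf ?_, fun h2 => hgf ?_⟩
        · exact hN.unique hxU hgN hfN (Or.inl h2) (Or.inl rfl)
        · exact hN.unique hyU hgN hfN (Or.inl h2) (Or.inr rfl)
      · rw [hmemW]
        refine ⟨G.ht g hgF, fun h2 => hgf ?_, fun h2 => hgf ?_⟩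
        · exact hN.unique hxU hgN hfN (Or.inr h2) (Or.inl rfl)
        · exact hN.unique hyU hgN hfN (Or.inr h2) (Or.inr rfl)
    · intro v hv g hg g' hg' h2 h3
      exact hN.unique (hWU (hS'W' hv)) (Finset.mem_of_mem_erase hg) (Finset.mem_of_mem_erase hg')
        h2 h3
    · intro A hA g hg hgA
      exact h1 A hA g (Finset.mem_of_mem_erase hg) (Finset.ne_of_mem_erase hg) hgA
  -- case 2
  have hc2 : ∀ N, G.IsPM N → e ∉ N → ∀ S1 ⊆ S,
      (∀ A ∈ Q, ∀ g ∈ N, g ∈ G.cut A → G.s g ∉ S1 ∧ G.t g ∉ S1) →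
      ∑ A ∈ Q, (N ∩ G.cut A).card + S1.card ≤ S.card := by
    intro N hN heN S1 hS1 h1
    refine G.e1_count hS1 hQS hQd ?_ ?_ h1
    · intro A hA g hg hgA
      exact hP1 A hA g hgA (fun h => heN (h ▸ hg))
    · intro v hv g hg g' hg' h2 h3
      exact hN.unique (hSU hv) hg hg' h2 h3
  have hodd : ∀ N, G.IsPM N → ∀ A ∈ Q, 1 ≤ (N ∩ G.cut A).card := by
    intro N hN A hA
    have := hN.odd_cut ((hQW A hA).trans hWU) (hQo A hA)
    exact this.pos
  -- members containing a given vertex
  have hone : ∀ v : V, (Q.filter (fun A => v ∈ A)).card ≤ 1 := by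
    intro v
    rw [Finset.card_le_one]
    intro A hA B hB'
    have hA' := Finset.mem_filter.mp hA
    have hB'' := Finset.mem_filter.mp hB'
    by_contra hAB
    exact Finset.disjoint_left.mp (hQd A hA'.1 B hB''.1 hAB) hA'.2 hB''.2
  obtain ⟨Qe, hQe⟩ : ∃ Qe, Qe = Q.filter (fun A => e ∈ G.cut A) := ⟨_, rfl⟩
  have hQeQ : Qe ⊆ Q := by rw [hQe]; exact Finset.filter_subset _ _
  have hQe2 : Qe.card ≤ 2 := by
    have h1 : Qe ⊆ Q.filter (fun A => G.s e ∈ A) ∪ Q.filter (fun A => G.t e ∈ A) := by
      intro A hA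
      rw [hQe] at hA
      have hA' := Finset.mem_filter.mp hA
      have h2 := (G.mem_cut.mp hA'.2).2
      rw [Finset.mem_union, Finset.mem_filter, Finset.mem_filter]
      have h3 := hA'.1
      tauto
    have h2 := Finset.card_le_card h1
    have h3 := Finset.card_union_le (Q.filter (fun A => G.s e ∈ A)) (Q.filter (fun A => G.t e ∈ A))
    have h4 := hone (G.s e)
    have h5 := hone (G.t e)
    omega
  have hsplit : ∀ N, G.IsPM N → (Q \ Qe).card ≤ ∑ A ∈ Q, ((N.erase e) ∩ G.cut A).card := by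
    intro N hN
    have h1 : ∑ A ∈ Q \ Qe, ((N.erase e) ∩ G.cut A).card ≤
        ∑ A ∈ Q, ((N.erase e) ∩ G.cut A).card :=
      Finset.sum_le_sum_of_subset Finset.sdiff_subset
    have h2 : (Q \ Qe).card ≤ ∑ A ∈ Q \ Qe, ((N.erase e) ∩ G.cut A).card := by
      rw [Finset.card_eq_sum_ones]
      refine Finset.sum_le_sum fun A hA => ?_
      have hA' := Finset.mem_sdiff.mp hA
      have h3 : e ∉ G.cut A := fun h4 => hA'.2 (by
        rw [hQe]; exact Finset.mem_filter.mpr ⟨hA'.1, h4⟩)
      have h4 : (N.erase e) ∩ G.cut A = N ∩ G.cut A := by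
        ext g
        rw [Finset.mem_inter, Finset.mem_inter, Finset.mem_erase]
        constructor
        · rintro ⟨⟨-, h5⟩, h6⟩; exact ⟨h5, h6⟩
        · rintro ⟨h5, h6⟩; exact ⟨⟨fun h7 => h3 (h7 ▸ h6), h5⟩, h6⟩
      rw [h4]
      exact hodd N hN A hA'.1
    exact h2.trans h1
  have hsd : (Q \ Qe).card + Qe.card = Q.card := Finset.card_sdiff_add_card_eq_card hQeQ
  -- a matching containing e
  obtain ⟨N0, hN0, heN0⟩ := hMc.2 e he
  have hc1' := hc1 N0 hN0 heN0 ∅ (Finset.empty_subset _) (fun A hA g hg _ _ =>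
    ⟨Finset.notMem_empty _, Finset.notMem_empty _⟩)
  rw [Finset.card_empty, add_zero] at hc1'
  have hsp0 := hsplit N0 hN0
  have hQcard : Q.card = S'.card + 2 := by omega
  have hQecard : Qe.card = 2 := by omega
  have hsdcard : (Q \ Qe).card = S'.card := by omega
  -- e joins two different members
  have heA : (∃ A ∈ Q, G.s e ∈ A) ∧ ∃ A ∈ Q, G.t e ∈ A := by
    have h1 : Qe ⊆ Q.filter (fun A => G.s e ∈ A) ∪ Q.filter (fun A => G.t e ∈ A) := by
      intro A hA
      rw [hQe] at hA
      have hA' := Finset.mem_filter.mp hA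
      have h2 := (G.mem_cut.mp hA'.2).2
      rw [Finset.mem_union, Finset.mem_filter, Finset.mem_filter]
      have h3 := hA'.1
      tauto
    have h2 := Finset.card_le_card h1
    have h3 := Finset.card_union_le (Q.filter (fun A => G.s e ∈ A)) (Q.filter (fun A => G.t e ∈ A))
    have h4 := hone (G.s e)
    have h5 := hone (G.t e)
    constructor
    · have h6 : 0 < (Q.filter (fun A => G.s e ∈ A)).card := by omega
      obtain ⟨A, hA⟩ := Finset.card_pos.mp h6
      exact ⟨A, (Finset.mem_filter.mp hA).1, (Finset.mem_filter.mp hA).2⟩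
    · have h6 : 0 < (Q.filter (fun A => G.t e ∈ A)).card := by omega
      obtain ⟨A, hA⟩ := Finset.card_pos.mp h6
      exact ⟨A, (Finset.mem_filter.mp hA).1, (Finset.mem_filter.mp hA).2⟩
  -- touched vertices
  have ht1 : ∀ N, G.IsPM N → e ∈ N → ∀ v ∈ S', ∃ A ∈ Q, ∃ g ∈ N, g ∈ G.cut A ∧
      (G.s g = v ∨ G.t g = v) := by
    intro N hN heN v hv
    by_contra hcon
    push Not at hcon
    have h1 := hc1 N hN heN {v} (Finset.singleton_subset_iff.mpr hv) (fun A hA g hg _ hgA => by
      have := hcon A hA g hg hgA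
      rw [Finset.mem_singleton, Finset.mem_singleton]
      exact this)
    have h2 := hsplit N hN
    rw [Finset.card_singleton] at h1
    omega
  have ht2 : ∀ N, G.IsPM N → e ∉ N → ∀ v ∈ S, ∃ A ∈ Q, ∃ g ∈ N, g ∈ G.cut A ∧
      (G.s g = v ∨ G.t g = v) := by
    intro N hN heN v hv
    by_contra hcon
    push Not at hcon
    have h1 := hc2 N hN heN {v} (Finset.singleton_subset_iff.mpr hv) (fun A hA g hg hgA => by
      have := hcon A hA g hg hgA
      rw [Finset.mem_singleton, Finset.mem_singleton]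
      exact this)
    have h2 : Q.card ≤ ∑ A ∈ Q, (N ∩ G.cut A).card := by
      rw [Finset.card_eq_sum_ones]
      exact Finset.sum_le_sum fun A hA => hodd N hN A hA
    rw [Finset.card_singleton] at h1
    omega
  have hK : ∀ N, G.IsPM N → ∀ g ∈ N, g ≠ f → ∀ v ∈ S, (G.s g = v ∨ G.t g = v) →
      ∃ A ∈ Q, g ∈ G.cut A := by
    intro N hN g hg hgf v hv hgv
    by_cases heN : e ∈ N
    · have hfN : f ∈ N := (h N hN).mpr heN
      rcases (hmemS v).mp hv with rfl | rfl | hv'
      · exact absurd (hN.unique hxU hg hfN hgv (Or.inl rfl)) hgf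
      · exact absurd (hN.unique hyU hg hfN hgv (Or.inr rfl)) hgf
      · obtain ⟨A, hA, g', hg', hgA, hg'v⟩ := ht1 N hN heN v hv'
        have h1 := hN.unique (hSU hv) hg hg' hgv hg'v
        exact ⟨A, hA, h1 ▸ hgA⟩
    · obtain ⟨A, hA, g', hg', hgA, hg'v⟩ := ht2 N hN heN v hv
      have h1 := hN.unique (hSU hv) hg hg' hgv hg'v
      exact ⟨A, hA, h1 ▸ hgA⟩
  -- all members are tight
  have htight : ∀ A ∈ Q, G.Tight A := by
    intro A hA N hN
    by_cases heN : e ∈ N
    · -- the sum over the other members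
      have h1 := hc1 N hN heN ∅ (Finset.empty_subset _) (fun A hA g hg _ _ =>
        ⟨Finset.notMem_empty _, Finset.notMem_empty _⟩)
      rw [Finset.card_empty, add_zero] at h1
      have hle : ∀ B ∈ Q, (if B ∈ Qe then 0 else 1) ≤ ((N.erase e) ∩ G.cut B).card := by
        intro B hB'
        by_cases hBe : B ∈ Qe
        · rw [if_pos hBe]; exact Nat.zero_le _
        · rw [if_neg hBe]
          have h3 : e ∉ G.cut B := fun h4 => hBe (by
            rw [hQe]; exact Finset.mem_filter.mpr ⟨hB', h4⟩)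
          have h4 : (N.erase e) ∩ G.cut B = N ∩ G.cut B := by
            ext g
            rw [Finset.mem_inter, Finset.mem_inter, Finset.mem_erase]
            constructor
            · rintro ⟨⟨-, h5⟩, h6⟩; exact ⟨h5, h6⟩
            · rintro ⟨h5, h6⟩; exact ⟨⟨fun h7 => h3 (h7 ▸ h6), h5⟩, h6⟩
          rw [h4]
          exact hodd N hN B hB'
      have hsum : ∑ B ∈ Q, (if B ∈ Qe then 0 else 1) = S'.card := by
        rw [← hsdcard, Finset.card_eq_sum_ones, ← Finset.sum_filter_add_sum_filter_not Q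
          (fun B => B ∈ Qe)]
        have e1' : ∑ B ∈ Q.filter (fun B => B ∈ Qe), (if B ∈ Qe then 0 else 1) = 0 := by
          refine Finset.sum_eq_zero fun B hB' => ?_
          rw [if_pos (Finset.mem_filter.mp hB').2]
        rw [e1', zero_add]
        have e2' : Q.filter (fun B => ¬ B ∈ Qe) = Q \ Qe := by
          ext B
          rw [Finset.mem_filter, Finset.mem_sdiff]
        rw [e2']
        refine Finset.sum_congr rfl fun B hB' => ?_
        rw [if_neg (Finset.mem_sdiff.mp hB').2]
      have heq : ∀ B ∈ Q, (if B ∈ Qe then 0 else 1) = ((N.erase e) ∩ G.cut B).card := by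
        refine (Finset.sum_eq_sum_iff_of_le hle).mp ?_
        refine le_antisymm (Finset.sum_le_sum hle) ?_
        rw [hsum]
        exact h1
      have h2 := heq A hA
      by_cases hAe : A ∈ Qe
      · rw [if_pos hAe] at h2
        have h3 : e ∈ G.cut A := by
          rw [hQe] at hAe
          exact (Finset.mem_filter.mp hAe).2
        have h4 : (N.erase e) ∩ G.cut A = (N ∩ G.cut A).erase e := by
          ext g
          simp only [Finset.mem_inter, Finset.mem_erase]
          tauto
        rw [h4, Finset.card_erase_of_mem (Finset.mem_inter.mpr ⟨heN, h3⟩)] at h2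
        have := hodd N hN A hA
        omega
      · rw [if_neg hAe] at h2
        have h3 : e ∉ G.cut A := fun h4 => hAe (by
            rw [hQe]; exact Finset.mem_filter.mpr ⟨hA, h4⟩)
        have h4 : (N.erase e) ∩ G.cut A = N ∩ G.cut A := by
          ext g
          rw [Finset.mem_inter, Finset.mem_inter, Finset.mem_erase]
          constructor
          · rintro ⟨⟨-, h5⟩, h6⟩; exact ⟨h5, h6⟩
          · rintro ⟨h5, h6⟩; exact ⟨⟨fun h7 => h3 (h7 ▸ h6), h5⟩, h6⟩
        rw [h4] at h2
        exact h2.symm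
    · have h1 := hc2 N hN heN ∅ (Finset.empty_subset _) (fun A hA g hg _ =>
        ⟨Finset.notMem_empty _, Finset.notMem_empty _⟩)
      rw [Finset.card_empty, add_zero, hScard, ← hQcard, Finset.card_eq_sum_ones] at h1
      have heq : ∀ B ∈ Q, 1 = (N ∩ G.cut B).card := by
        refine (Finset.sum_eq_sum_iff_of_le (fun B hB' => hodd N hN B hB')).mp ?_
        exact le_antisymm (Finset.sum_le_sum fun B hB' => hodd N hN B hB') h1
      exact (heq A hA).symm
  -- all members are singletons
  have hsing : ∀ A ∈ Q, A.card = 1 := by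
    intro A hA
    by_contra hA1
    have ho := hQo A hA
    have h3 : 3 ≤ A.card := by
      obtain ⟨m, hm⟩ := ho
      omega
    have hAU : A ⊆ G.U := (hQW A hA).trans hWU
    have h4 : A.card + 3 ≤ G.U.card := by
      have h5 : A.card + S.card ≤ G.U.card := by
        rw [← Finset.card_union_of_disjoint (hQS A hA)]
        exact Finset.card_le_card (Finset.union_subset hAU hSU)
      have h6 := hMc.even
      obtain ⟨m, hm⟩ := ho
      obtain ⟨l, hl⟩ := h6
      omega
    exact hB.2.2.2 A ⟨hAU, ho, h3, h4⟩ (htight A hA)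
  -- the rest is empty
  obtain ⟨R, hR⟩ : ∃ R, R = (G.U \ S) \ Q.biUnion id := ⟨_, rfl⟩
  have hmemR : ∀ v, v ∈ R ↔ v ∈ G.U ∧ v ∉ S ∧ ∀ A ∈ Q, v ∉ A := by
    intro v
    rw [hR, Finset.mem_sdiff, Finset.mem_sdiff, Finset.mem_biUnion]
    constructor
    · rintro ⟨⟨h1, h2⟩, h3⟩
      exact ⟨h1, h2, fun A hA hv => h3 ⟨A, hA, hv⟩⟩
    · rintro ⟨h1, h2, h3⟩
      exact ⟨⟨h1, h2⟩, fun ⟨A, hA, hv⟩ => h3 A hA hv⟩
  have hRcut : G.cut R = ∅ := by
    rw [Finset.eq_empty_iff_forall_notMem]
    intro g hg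
    have hg' := G.mem_cut.mp hg
    have hgF := hg'.1
    have hge : g ≠ e := by
      rintro rfl
      obtain ⟨⟨A, hA, hsA⟩, B, hB', htB⟩ := heA
      apply hg'.2
      constructor
      · intro h1; exact absurd hsA (((hmemR _).mp h1).2.2 A hA)
      · intro h1; exact absurd htB (((hmemR _).mp h1).2.2 B hB')
    have hgf : g ≠ f := by
      rintro rfl
      apply hg'.2
      constructor
      · intro h1; exact absurd ((hmemS _).mpr (Or.inl rfl)) ((hmemR _).mp h1).2.1
      · intro h1; exact absurd ((hmemS _).mpr (Or.inr (Or.inl rfl))) ((hmemR _).mp h1).2.1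
    have hmain : ∀ a b : V, ((G.s g = a ∧ G.t g = b) ∨ (G.t g = a ∧ G.s g = b)) → a ∈ R →
        b ∉ R → False := by
      intro a b hab ha hb
      have ha' := (hmemR a).mp ha
      have hbU : b ∈ G.U := by
        rcases hab with ⟨-, h2⟩ | ⟨-, h2⟩
        · rw [← h2]; exact G.ht g hgF
        · rw [← h2]; exact G.hs g hgF
      have hbS : b ∈ S := by
        by_contra hbS
        have h1 : ∃ A ∈ Q, b ∈ A := by
          by_contra h2
          push Not at h2
          exact hb ((hmemR b).mpr ⟨hbU, hbS, h2⟩)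
        obtain ⟨A, hA, hbA⟩ := h1
        have haA := ha'.2.2 A hA
        have hcut : g ∈ G.cut A := by
          rw [G.mem_cut]
          refine ⟨hgF, ?_⟩
          rcases hab with ⟨h2, h3⟩ | ⟨h2, h3⟩
          · rw [h2, h3]; tauto
          · rw [h2, h3]; tauto
        have h4 := hP1 A hA g hcut hge
        rcases hab with ⟨h2, h3⟩ | ⟨h2, h3⟩
        · rw [h2, h3] at h4
          exact h4.elim ha'.2.1 hbS
        · rw [h2, h3] at h4
          exact h4.elim hbS ha'.2.1
      obtain ⟨N, hN, hgN⟩ := hMc.2 g hgF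
      obtain ⟨A, hA, hgA⟩ := hK N hN g hgN hgf b hbS (by
        rcases hab with ⟨h2, h3⟩ | ⟨h2, h3⟩
        · exact Or.inr h3
        · exact Or.inl h3)
      have haA := ha'.2.2 A hA
      have hbA : b ∉ A := fun h5 => Finset.disjoint_left.mp (hQS A hA) h5 hbS
      have hgA' := (G.mem_cut.mp hgA).2
      apply hgA'
      rcases hab with ⟨h2, h3⟩ | ⟨h2, h3⟩
      · rw [h2, h3]; tauto
      · rw [h2, h3]; tauto
    by_cases hs : G.s g ∈ R
    · have ht : G.t g ∉ R := fun h1 => hg'.2 ⟨fun _ => h1, fun _ => hs⟩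
      exact hmain _ _ (Or.inl ⟨rfl, rfl⟩) hs ht
    · have ht : G.t g ∈ R := by
        by_contra h1
        exact hg'.2 ⟨fun h2 => absurd h2 hs, fun h2 => absurd h2 h1⟩
      exact hmain _ _ (Or.inr ⟨rfl, rfl⟩) ht hs
  have hRe : R = ∅ := by
    by_contra hRne
    have h1 := hB.2.1 R (fun v hv => ((hmemR v).mp hv).1) (Finset.nonempty_iff_ne_empty.mpr hRne)
      (fun h2 => by
        have h3 : G.s f ∈ R := by rw [h2]; exact hxU
        exact ((hmemR _).mp h3).2.1 ((hmemS _).mpr (Or.inl rfl)))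
    rw [hRcut] at h1
    exact Finset.not_nonempty_empty h1
  have hcover : ∀ v ∈ G.U, v ∉ S → ∃ A ∈ Q, v ∈ A := by
    intro v hv hvS
    by_contra h1
    push Not at h1
    have h2 : v ∈ R := (hmemR v).mpr ⟨hv, hvS, h1⟩
    rw [hRe] at h2
    exact Finset.notMem_empty v h2
  refine ⟨S, hSU, fun g hgF hge hgf => ?_⟩
  rw [G.mem_cut]
  refine ⟨hgF, fun hiff => ?_⟩
  by_cases hs : G.s g ∈ S
  · have ht := hiff.mp hs
    obtain ⟨N, hN, hgN⟩ := hMc.2 g hgF
    obtain ⟨A, hA, hgA⟩ := hK N hN g hgN hgf _ hs (Or.inl rfl)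
    have hd := Finset.disjoint_left.mp (hQS A hA)
    apply (G.mem_cut.mp hgA).2
    constructor
    · intro h1; exact absurd hs (hd h1)
    · intro h1; exact absurd ht (hd h1)
  · have ht : G.t g ∉ S := fun h1 => hs (hiff.mpr h1)
    obtain ⟨A, hA, hsA⟩ := hcover _ (G.hs g hgF) hs
    have htA : G.t g ∉ A := by
      intro h1
      obtain ⟨a, ha⟩ := Finset.card_eq_one.mp (hsing A hA)
      rw [ha, Finset.mem_singleton] at hsA h1
      exact hMc.ne hgF (hsA.trans h1.symm)
    have hcut : g ∈ G.cut A := by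
      rw [G.mem_cut]
      exact ⟨hgF, fun h1 => htA (h1.mp hsA)⟩
    exact (hP1 A hA g hcut hge).elim hs ht

end MG
end ML
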