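import Pool.Agent.ML.E1
import Pool.Agent.ML.D6

/-!
# ML-E2: the case of a nontrivial dependence class (step 3.4); deletion of e (step 3.5)
-/

set_option autoImplicit false
set_option linter.unusedSectionVars false
set_option linter.unusedFintypeInType false
set_option linter.unusedVariables false

namespace ML
namespace MG

variable {V E : Type} [Fintype V] [Fintype E] [DecidableEq V] [DecidableEq E] (G : MG V E)

theorem e2_lat {e g : E} (h : ∀ N, G.IsPM N → (g ∈ N ↔ e ∈ N)) {w : E → ℤ} (hw : w ∈ G.lat) :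
    w g = w e := by
  unfold lat at hw
  induction hw using AddSubgroup.closure_induction with
  | mem x hx =>
    obtain ⟨N, hN, rfl⟩ := hx
    unfold ind
    by_cases h1 : e ∈ N
    · rw [if_pos ((h N hN).2 h1), if_pos h1]
    · rw [if_neg (fun h2 => h1 ((h N hN).1 h2)), if_neg h1]
  | zero => rfl
  | add x y _ _ hx hy => rw [Pi.add_apply, Pi.add_apply, hx, hy]
  | neg x _ hx => rw [Pi.neg_apply, Pi.neg_apply, hx]

theorem e2_reg (hNB : G.NB) {e g : E} (h : ∀ N, G.IsPM N → (g ∈ N ↔ e ∈ N)) {r : ℤ} {w : E → ℤ}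
    (hw : G.Reg r w) : w g = w e := by
  obtain ⟨m, hm, hl⟩ := hNB.2.2 r w hw
  have h1 := e2_lat G h hl
  rw [Pi.smul_apply, Pi.smul_apply, nsmul_eq_mul, nsmul_eq_mul] at h1
  have h2 : (m : ℤ) ≠ 0 := by exact_mod_cast hm.ne'
  exact mul_left_cancel₀ h2 h1

variable {G} in
/-- Step 3.4, conclusion.
Proof.  Let `R` be the set of `g ∈ F` which lie in the same perfect matchings as `e` (`e, f ∈ R`).
For every weight in `lat` the values on `R` are equal (true for `ind N`), so also for every `Reg` weight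
(`Brick.nb`: a positive multiple is in `lat`).  Let `w` be `Reg r`, `N` a perfect matching containing `e`
(so `R ⊆ N`); `w' := w - w e • ind N` vanishes on `R` and is `Reg (r - w e)`.
If `F = R`: `w' = 0` and `pair χ w = w e • pair χ (ind N) = 0`.
Otherwise let `G' := G.res (F \ R)`.  Every `g ∈ F \ R` is in a perfect matching `N'` with `e ∉ N'`, so
`N' ∩ R = ∅`, `N'` is a perfect matching of `G'` (`res_isPM`): `G'.Mc`.  By `Brick.dep_bip`, `G'` is
bipartite.  `w'` is `Reg` on `G'` (degrees: `deg` over `F` and over `F \ R` agree as `w' = 0` on `R`),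
`χ` kills the perfect matchings of `G'`: `bip_kills` gives `pair χ w' = 0`. -/
theorem Brick.dep_kills (hB : G.Brick) {e f : E} (he : e ∈ G.F)
    (hd : ∀ g ∈ G.F, (∀ N, G.IsPM N → (g ∈ N ↔ e ∈ N)) ∨ ∃ N, G.IsPM N ∧ g ∈ N ∧ e ∉ N)
    (hf : f ∈ G.F) (hne : f ≠ e) (hfe : ∀ N, G.IsPM N → (f ∈ N ↔ e ∈ N)) {χ : E → QZ}
    (hk : G.Kills χ) : G.KillsReg χ := by
  classical
  intro r w hw
  have hNB := hB.nb
  set R : Finset E := G.F.filter (fun g => ∀ N, G.IsPM N → (g ∈ N ↔ e ∈ N)) with hR
  have hRmem : ∀ g, g ∈ R ↔ g ∈ G.F ∧ ∀ N, G.IsPM N → (g ∈ N ↔ e ∈ N) := fun g =>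
    Finset.mem_filter
  have heR : e ∈ R := (hRmem e).2 ⟨he, fun N _ => Iff.rfl⟩
  have hfR : f ∈ R := (hRmem f).2 ⟨hf, hfe⟩
  obtain ⟨N, hN, heN⟩ := hB.1.2 e he
  have hw' : G.Reg (r - w e * 1) (w - w e • ind N) := hw.sub (hN.reg.smul (w e))
  have hv : ∀ g ∈ R, (w - w e • ind N) g = 0 := by
    intro g hg
    have h1 := ((hRmem g).1 hg).2
    have h2 : g ∈ N := (h1 N hN).2 heN
    have h3 := e2_reg G hNB h1 hw
    rw [Pi.sub_apply, Pi.smul_apply, h3]
    unfold ind
    rw [if_pos h2, smul_eq_mul, mul_one, sub_self]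
  have hpair : pair χ w = pair χ (w - w e • ind N) := by
    rw [pair_sub, pair_zsmul, pair_ind, hk N hN, smul_zero, sub_zero]
  rw [hpair]
  by_cases hall : ∀ g ∈ G.F, g ∈ R
  · have h0 : w - w e • ind N = 0 := by
      funext g
      by_cases hg : g ∈ G.F
      · exact hv g (hall g hg)
      · exact hw'.1 g hg
    rw [h0]
    unfold pair
    simp
  · push Not at hall
    obtain ⟨g0, hg0, hg0R⟩ := hall
    have hmc : ∀ g ∈ G.F, g ∉ R → ∃ N', (G.res (G.F \ R)).IsPM N' ∧ g ∈ N' := by
      intro g hg hgR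
      rcases hd g hg with h1 | ⟨N', hN', hgN', heN'⟩
      · exact absurd ((hRmem g).2 ⟨hg, h1⟩) hgR
      · refine ⟨N', ?_, hgN'⟩
        rw [res_isPM]
        refine ⟨hN', ?_⟩
        intro a ha
        rw [Finset.mem_sdiff]
        refine ⟨hN'.1 ha, ?_⟩
        intro haR
        exact heN' ((((hRmem a).1 haR).2 N' hN').1 ha)
    have hMc : (G.res (G.F \ R)).Mc := by
      constructor
      · obtain ⟨N', hN', -⟩ := hmc g0 hg0 hg0R
        exact ⟨N', hN'⟩
      · intro g hg
        have h1 : g ∈ G.F ∩ (G.F \ R) := hg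
        rw [Finset.mem_inter, Finset.mem_sdiff] at h1
        exact hmc g h1.1 h1.2.2
    have hBip : (G.res (G.F \ R)).Bip := by
      obtain ⟨S, hS, hSc⟩ := hB.dep_bip he hf hne hfe
      refine ⟨S, hS, ?_⟩
      intro g hg
      have h1 : g ∈ G.F ∩ (G.F \ R) := hg
      rw [Finset.mem_inter, Finset.mem_sdiff] at h1
      rw [res_cut, Finset.mem_inter, Finset.mem_sdiff]
      refine ⟨hSc g h1.1 ?_ ?_, h1.2⟩
      · rintro rfl
        exact h1.2.2 heR
      · rintro rfl
        exact h1.2.2 hfR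
    have hzero : ∀ g, g ∉ (G.res (G.F \ R)).F → (w - w e • ind N) g = 0 := by
      intro g hg
      have h1 : ¬ g ∈ G.F ∩ (G.F \ R) := hg
      rw [Finset.mem_inter, Finset.mem_sdiff] at h1
      by_cases h2 : g ∈ G.F
      · by_cases h3 : g ∈ R
        · exact hv g h3
        · exact absurd ⟨h2, h2, h3⟩ h1
      · exact hw'.1 g h2
    have hReg : (G.res (G.F \ R)).Reg (r - w e * 1) (w - w e • ind N) := by
      refine ⟨hzero, ?_⟩
      intro v hv'
      rw [← hw'.2 v hv']
      unfold deg
      apply Finset.sum_subset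
      · intro g hg
        have h1 : g ∈ G.F ∩ (G.F \ R) := hg
        exact (Finset.mem_inter.1 h1).1
      · intro g _ hg
        rw [hzero g hg, smul_zero]
    have hkills : (G.res (G.F \ R)).Kills χ := by
      intro N' hN'
      rw [res_isPM] at hN'
      exact hk N' hN'.1
    exact bip_kills _ hBip hMc hkills _ _ hReg

variable {G} in
/-- Step 3.5.  If every edge other than `e` is in a perfect matching avoiding `e`, then `G.del e` is
matching covered and connected.
Proof.  There is an edge `g ≠ e` (otherwise a perfect matching has at most one edge and covers at most two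
vertices; `Brick.four_le`), so there is a perfect matching avoiding `e`: `Mc` (`del_isPM`).
`Conn`: suppose `K ⊆ U` is nonempty, `≠ U` and `(G.del e).cut K = (cut K).erase e = ∅`.  `cut K` is nonempty,
so `cut K = {e}`.  If `|K|` is even: a perfect matching `N ∋ e` has `|N ∩ cut K| = 1`, not even.  If
`|K|` is odd: a perfect matching avoiding `e` has `|N ∩ cut K| = 0`, not odd. -/
theorem Brick.del_mc (hB : G.Brick) {e : E} (he : e ∈ G.F)
    (hd : ∀ g ∈ G.F, g ≠ e → ∃ N, G.IsPM N ∧ g ∈ N ∧ e ∉ N) : (G.del e).Mc ∧ (G.del e).Conn := by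
  have hex : ∃ g ∈ G.F, g ≠ e := by
    by_contra hcon
    push Not at hcon
    obtain ⟨N, hN⟩ := hB.1.1
    have h1 := hN.card (Finset.Subset.refl G.U)
    rw [cut_U, Finset.inter_empty, Finset.card_empty, zero_add] at h1
    have h2 : (N ∩ G.inn G.U).card ≤ 1 := by
      rw [Finset.card_le_one]
      intro a ha b hb
      rw [hcon a (hN.1 (Finset.mem_inter.1 ha).1), hcon b (hN.1 (Finset.mem_inter.1 hb).1)]
    have h3 := hB.four_le
    omega
  constructor
  · constructor
    · obtain ⟨g, hg, hge⟩ := hex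
      obtain ⟨N, hN, -, heN⟩ := hd g hg hge
      exact ⟨N, (del_isPM G).2 ⟨hN, heN⟩⟩
    · intro g hg
      have h1 : g ∈ G.F.erase e := hg
      rw [Finset.mem_erase] at h1
      obtain ⟨N, hN, hgN, heN⟩ := hd g h1.2 h1.1
      exact ⟨N, (del_isPM G).2 ⟨hN, heN⟩, hgN⟩
  · intro K hK hKne hKU
    by_contra hcon
    rw [Finset.not_nonempty_iff_eq_empty, del_cut] at hcon
    have h1 := hB.2.1 K hK hKne hKU
    have h2 : G.cut K = {e} := by
      apply Finset.Subset.antisymm
      · intro a ha
        rw [Finset.mem_singleton]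
        by_contra hae
        have h3 : a ∈ (G.cut K).erase e := Finset.mem_erase.2 ⟨hae, ha⟩
        rw [hcon] at h3
        exact absurd h3 (Finset.notMem_empty a)
      · obtain ⟨a, ha⟩ := h1
        intro b hb
        rw [Finset.mem_singleton] at hb
        rw [hb]
        by_cases hae : a = e
        · rw [← hae]
          exact ha
        · have h3 : a ∈ (G.cut K).erase e := Finset.mem_erase.2 ⟨hae, ha⟩
          rw [hcon] at h3
          exact absurd h3 (Finset.notMem_empty a)
    rcases Nat.even_or_odd K.card with hev | hod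
    · obtain ⟨N, hN, heN⟩ := hB.1.2 e he
      have h3 := hN.even_cut hK hev
      rw [h2, Finset.inter_singleton_of_mem heN, Finset.card_singleton] at h3
      exact absurd h3 (by decide)
    · obtain ⟨g, hg, hge⟩ := hex
      obtain ⟨N, hN, -, heN⟩ := hd g hg hge
      have h3 := hN.odd_cut hK hod
      rw [h2, Finset.inter_singleton_of_notMem heN, Finset.card_empty] at h3
      exact absurd h3 (by decide)

end MG
end ML
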