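import Pool.Agent.ML.Defs

/-!
# ML-E3: facets of a cone given by integral functionals (step 3.6, abstract part)
-/

set_option autoImplicit false
set_option linter.unusedSectionVars false
set_option linter.unusedVariables false

namespace ML

/-- The facet property of the functional `q i`: every `u` in its kernel is a difference of two vectors
of the cone in this kernel. -/
def FProp {W ι : Type} [AddCommGroup W] (q : ι → W →+ ℤ) (i : ι) : Prop :=
  ∀ u, q i u = 0 → ∃ z, q i z = 0 ∧ (∀ j, 0 ≤ q j z) ∧ ∀ j, 0 ≤ q j (z + u)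

/-- Property (*). -/
private def e3_Star {W ι : Type} [AddCommGroup W] (q : ι → W →+ ℤ) (I : Finset ι) : Prop :=
  ∀ z, (∀ i ∈ I, 0 ≤ q i z) → ∀ j, 0 ≤ q j z

private theorem e3_min {W ι : Type} [AddCommGroup W] [Fintype ι] (q : ι → W →+ ℤ) :
    ∃ I : Finset ι, e3_Star q I ∧ ∀ J : Finset ι, e3_Star q J → I.card ≤ J.card := by
  classical
  obtain ⟨I, hI, hmin⟩ := Finset.exists_min_image
    ((Finset.univ : Finset (Finset ι)).filter (fun J => e3_Star q J)) Finset.card
    ⟨Finset.univ, by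
      simp only [Finset.mem_filter, Finset.mem_univ, true_and]
      intro z hz j
      exact hz j (Finset.mem_univ j)⟩
  refine ⟨I, (Finset.mem_filter.1 hI).2, fun J hJ => hmin J ?_⟩
  simp [hJ]

private theorem e3_prop {W ι : Type} [AddCommGroup W] (q : ι → W →+ ℤ) (z₁ : W)
    (i i₀ : ι) (h : ∀ x, q i x = 0 → q i₀ x = 0) (u : W) :
    q i z₁ * q i₀ u = q i u * q i₀ z₁ := by
  have h2 := h ((q i z₁) • u - (q i u) • z₁) (by
    simp only [map_sub, map_zsmul, smul_eq_mul]
    ring)
  simp only [map_sub, map_zsmul, smul_eq_mul] at h2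
  linarith

private theorem e3_b {W ι : Type} [AddCommGroup W] (q : ι → W →+ ℤ) (z₁ : W)
    (h1 : ∀ i, 0 < q i z₁) (i i₀ : ι) (h : ∀ x, q i x = 0 → q i₀ x = 0) (hF : FProp q i) :
    FProp q i₀ := by
  intro u hu
  have h2 := e3_prop q z₁ i i₀ h u
  rw [hu, mul_zero] at h2
  have h3 : q i u = 0 := by
    rcases mul_eq_zero.1 h2.symm with h4 | h4
    · exact h4
    · exact absurd h4 (h1 i₀).ne'
  obtain ⟨z, hz0, hz1, hz2⟩ := hF u h3
  exact ⟨z, h z hz0, hz1, hz2⟩

private theorem e3_a {W ι : Type} [AddCommGroup W] [Fintype ι] [DecidableEq ι] (q : ι → W →+ ℤ)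
    (z₁ : W) (h1 : ∀ i, 0 < q i z₁) (I : Finset ι) (hI : e3_Star q I)
    (hmin : ∀ J : Finset ι, e3_Star q J → I.card ≤ J.card) (i : ι) (hi : i ∈ I) :
    FProp q i := by
  have hnot : ¬ e3_Star q (I.erase i) := by
    intro hS
    have h2 := hmin _ hS
    have h3 := Finset.card_erase_lt_of_mem hi
    omega
  unfold e3_Star at hnot
  push Not at hnot
  obtain ⟨x, hx, j₀, hj₀⟩ := hnot
  have hix : q i x < 0 := by
    by_contra hcon
    push Not at hcon
    have h2 := hI x (fun j hj => by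
      by_cases hji : j = i
      · rw [hji]; exact hcon
      · exact hx j (Finset.mem_erase.2 ⟨hji, hj⟩)) j₀
    omega
  intro u hu
  set z₀ : W := (q i z₁) • x + (- q i x) • z₁ with hz₀
  have hiz : q i z₀ = 0 := by
    rw [hz₀]
    simp only [map_add, map_zsmul, smul_eq_mul]
    ring
  have hjz : ∀ j ∈ I, j ≠ i → 1 ≤ q j z₀ := by
    intro j hj hji
    have h2 : q j z₀ = q i z₁ * q j x + (- q i x) * q j z₁ := by
      rw [hz₀]
      simp only [map_add, map_zsmul, smul_eq_mul]
    have h3 := hx j (Finset.mem_erase.2 ⟨hji, hj⟩)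
    have h4 : 0 ≤ q i z₁ * q j x := mul_nonneg (h1 i).le h3
    have h5 : 0 < (- q i x) * q j z₁ := mul_pos (by linarith) (h1 j)
    omega
  have hjz0 : ∀ j ∈ I, 0 ≤ q j z₀ := by
    intro j hj
    by_cases hji : j = i
    · rw [hji, hiz]
    · have := hjz j hj hji
      omega
  set m : ℤ := ∑ j : ι, |q j u| with hm
  have hm0 : 0 ≤ m := Finset.sum_nonneg (fun j _ => abs_nonneg _)
  have hmj : ∀ j, - m ≤ q j u := by
    intro j
    have h2 : |q j u| ≤ m :=
      Finset.single_le_sum (f := fun j => |q j u|) (fun j _ => abs_nonneg _) (Finset.mem_univ j)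
    have h3 := neg_abs_le (q j u)
    linarith
  refine ⟨m • z₀, ?_, ?_, ?_⟩
  · rw [map_zsmul, hiz, smul_zero]
  · refine hI _ (fun j hj => ?_)
    rw [map_zsmul, smul_eq_mul]
    exact mul_nonneg hm0 (hjz0 j hj)
  · refine hI _ (fun j hj => ?_)
    rw [map_add, map_zsmul, smul_eq_mul]
    by_cases hji : j = i
    · rw [hji, hiz, hu]
      simp
    · have h2 := hjz j hj hji
      have h3 := hmj j
      have h4 : m * 1 ≤ m * q j z₀ := mul_le_mul_of_nonneg_left h2 hm0
      linarith

/-- Step 3.6, abstract lemma.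
Proof.  Let `I` be a minimal set of indices such that (*) `(∀ i ∈ I, 0 ≤ q i z) → ∀ j, 0 ≤ q j z` for all `z`
(`Finset.univ` has this property; take one of minimal cardinality).
(a) For `i ∈ I`: `FProp q i`.  By minimality `I.erase i` does not have property (*), and (*) holds for `I`:
so there is `x` with `0 ≤ q j x` for `j ∈ I`, `j ≠ i` and `q i x < 0`.  Let
`z₀ := (q i z₁) • x + (- q i x) • z₁`; `q i z₀ = 0` and `q j z₀ ≥ (- q i x) * q j z₁ > 0` for `j ∈ I`,
`j ≠ i`.  For `u` with `q i u = 0` choose `m : ℕ` with `m * q j z₀ + q j u ≥ 0` for all `j ∈ I`, `j ≠ i`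
and take `z = m • z₀`: all `q j z ≥ 0` and `q j (z + u) ≥ 0` for `j ∈ I`, hence for all `j` by (*).
(b) If `i ∈ I` and `q i₀` vanishes on the kernel of `q i`, then `FProp q i₀`: for every `u`,
`(q i z₁) • u - (q i u) • z₁` is in the kernel of `q i`, so `q i z₁ * q i₀ u = q i u * q i₀ z₁`; as
`q i z₁, q i₀ z₁ > 0` the two functionals have the same kernel and `FProp` is the same condition.
(c) If `i₀ ∈ I` we are done by (a).  If some `i ∈ I` has `q i₀` vanishing on its kernel: (b).
`I = ∅`: then all `q j` are `≥ 0` everywhere, contradiction with `q i₀ (- z₁) < 0`.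
`I = {i}`: if `q i u = 0` then `q i₀ u ≥ 0` and `q i₀ (-u) ≥ 0` by (*), so `q i₀ u = 0`: (b).
Otherwise choose `i ≠ j` in `I`.  `q j` does not vanish on the kernel of `q i`: otherwise as in (b)
`q i z₁ * q j u = q i u * q j z₁`, so `q i u ≥ 0` implies `q j u ≥ 0`, and `I.erase j` would satisfy (*).
The remaining two statements hold since (b) does not apply. -/
theorem facet {W ι : Type} [AddCommGroup W] [Fintype ι] [DecidableEq ι] (q : ι → W →+ ℤ) (z₁ : W)
    (h1 : ∀ i, 0 < q i z₁) (i₀ : ι) :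
    FProp q i₀ ∨ ∃ i j, FProp q i ∧ FProp q j ∧ (∃ x, q i x = 0 ∧ q j x ≠ 0) ∧
      (∃ x, q i x = 0 ∧ q i₀ x ≠ 0) ∧ (∃ x, q j x = 0 ∧ q i₀ x ≠ 0) := by
  classical
  obtain ⟨I, hI, hmin⟩ := e3_min q
  have ha := e3_a q z₁ h1 I hI hmin
  by_cases hex : ∃ i ∈ I, ∀ x, q i x = 0 → q i₀ x = 0
  · obtain ⟨i, hi, hix⟩ := hex
    exact Or.inl (e3_b q z₁ h1 i i₀ hix (ha i hi))
  · right
    push Not at hex
    -- I is nonempty
    have hne : I.Nonempty := by
      rw [Finset.nonempty_iff_ne_empty]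
      intro hem
      have h2 := hI (- z₁) (fun i hi => by rw [hem] at hi; exact absurd hi (Finset.notMem_empty i)) i₀
      rw [map_neg] at h2
      have h3 := h1 i₀
      omega
    obtain ⟨i, hi⟩ := hne
    have hj : ∃ j ∈ I, j ≠ i := by
      by_contra hcon
      push Not at hcon
      obtain ⟨x, hx, hx0⟩ := hex i hi
      have h2 := hI x (fun j hj => by rw [hcon j hj, hx]) i₀
      have h3 := hI (- x) (fun j hj => by rw [hcon j hj, map_neg, hx, neg_zero]) i₀
      rw [map_neg] at h3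
      exact hx0 (by omega)
    obtain ⟨j, hj, hji⟩ := hj
    refine ⟨i, j, ha i hi, ha j hj, ?_, hex i hi, hex j hj⟩
    by_contra hcon
    push Not at hcon
    have hS : e3_Star q (I.erase j) := by
      intro z hz
      refine hI z (fun k hk => ?_)
      by_cases hkj : k = j
      · rw [hkj]
        have h2 := e3_prop q z₁ i j hcon z
        have h3 : 0 ≤ q i z := hz i (Finset.mem_erase.2 ⟨hji.symm, hi⟩)
        have h4 : 0 ≤ q i z₁ * q j z := by
          rw [h2]
          exact mul_nonneg h3 (h1 j).le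
        exact nonneg_of_mul_nonneg_right h4 (h1 i)
      · exact hz k (Finset.mem_erase.2 ⟨hkj, hk⟩)
    have h2 := hmin _ hS
    have h3 := Finset.card_erase_lt_of_mem hj
    omega

end ML
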