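import Pool.Agent.ML.E3
import Pool.Agent.ML.E2
import Pool.Agent.ML.D6
import Pool.Agent.ML.D4

/-!
# ML-E4: facets of the cone of a brick (step 3.6)
-/

set_option autoImplicit false
set_option linter.unusedSectionVars false
set_option linter.unusedFintypeInType false
set_option linter.unusedVariables false

namespace ML
namespace MG

variable {V E : Type} [Fintype V] [Fintype E] [DecidableEq V] [DecidableEq E] (G : MG V E)

/-- The group of the integral weights of constant degree. -/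
def regGroup (G : MG V E) : AddSubgroup (E → ℤ) where
  carrier := {w | ∃ r, G.Reg r w}
  zero_mem' := ⟨0, by intro e _; rfl, by intro v _; simp [deg]⟩
  add_mem' := by
    rintro a b ⟨r, ha⟩ ⟨r', hb⟩
    exact ⟨r + r', ha.add hb⟩
  neg_mem' := by
    rintro a ⟨r, ha⟩
    refine ⟨-r, ?_⟩
    have := Reg.smul (-1) ha
    simpa using this

/-- Facet data of a shore `X` (for the fixed edge `e`). -/
structure Fac (G : MG V E) (e : E) (X : Finset V) : Prop where
  nt : G.Nontriv X
  tight : (G.del e).Tight X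
  sat : ∀ r w, G.Reg r w → ∑ g ∈ G.cut X, w g = r → ∃ m : ℕ, 0 < m ∧ m • w ∈ G.latX X
  cov : ∀ g ∈ G.F, ∃ N, G.IsPM N ∧ (N ∩ G.cut X).card = 1 ∧ g ∈ N

variable {G} in
/-- A weight of constant degree on which all functionals are nonnegative, and a functional `q` given by
`q(w) = ∑ w g * q g` which is nonnegative on perfect matchings and zero on the perfect matchings of
`G.del e` and on `w`: a positive multiple of `w` is in the span of the perfect matchings with
`q(N) = 0`.
Proof.  `P` := the perfect matchings of `G.del e`; `coneHyp_large` (every edge `≠ e` is in a member of `P`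
by `hMc`, `w e ≥ 0`; a nontrivial shore which is met once by all members of `P` is tight in `G.del e`, so
`w(cut X) ≥ r` by `h2`).  `z := ∑_{N ∈ P} ind N`.  `w + M z` satisfies `ConeHyp`, `q(w + M z) = 0`;
`cone_face` for `w + M z`: `m • (w + M • z)` is in the closure, and `z` is in the closure too. -/
theorem face_sat (hB : G.Brick) {e : E} (he : e ∈ G.F) (hMc : (G.del e).Mc) {r : ℤ} {w : E → ℤ}
    (hw : G.Reg r w) (h1 : 0 ≤ w e)
    (h2 : ∀ X, G.Nontriv X → (G.del e).Tight X → r ≤ ∑ g ∈ G.cut X, w g) (q : E → ℤ)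
    (hq : ∀ N, G.IsPM N → 0 ≤ ∑ g ∈ N, q g) (hq0 : ∀ N, G.IsPM N → e ∉ N → ∑ g ∈ N, q g = 0)
    (h0 : ∑ g, w g * q g = 0) :
    ∃ m : ℕ, 0 < m ∧ m • w ∈
      AddSubgroup.closure {z | ∃ N, G.IsPM N ∧ ∑ g ∈ N, q g = 0 ∧ z = ind N} := by
  classical
  let P : Finset (Finset E) := Finset.univ.filter (fun N => G.IsPM N ∧ e ∉ N)
  have hPm : ∀ N, N ∈ P ↔ (G.IsPM N ∧ e ∉ N) := by
    intro N
    simp [P]
  have hc1 : ∀ g ∈ G.F, (∃ N ∈ P, g ∈ N) ∨ 0 ≤ w g := by
    intro g hg
    by_cases hge : g = e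
    · right
      rw [hge]
      exact h1
    · left
      obtain ⟨N, hN, hgN⟩ := hMc.2 g (by rw [del_F]; exact Finset.mem_erase.2 ⟨hge, hg⟩)
      rw [del_isPM] at hN
      exact ⟨N, (hPm N).2 hN, hgN⟩
  have hc2 : ∀ X, G.Nontriv X → (∃ N ∈ P, (N ∩ G.cut X).card ≠ 1) ∨
      r ≤ ∑ g ∈ G.cut X, w g := by
    intro X hX
    by_cases hex : ∃ N ∈ P, (N ∩ G.cut X).card ≠ 1
    · left
      exact hex
    · right
      push Not at hex
      apply h2 X hX
      intro N hN
      rw [del_isPM] at hN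
      have h3 := hex N ((hPm N).2 hN)
      have he' : N ∩ (G.cut X).erase e = N ∩ G.cut X := by
        ext a
        simp only [Finset.mem_inter, Finset.mem_erase]
        constructor
        · rintro ⟨h4, _, h5⟩
          exact ⟨h4, h5⟩
        · rintro ⟨h4, h5⟩
          exact ⟨h4, fun h => hN.2 (h ▸ h4), h5⟩
      rw [del_cut, he']
      exact h3
  obtain ⟨M, hM⟩ := coneHyp_large G hB.1.even (fun g hg => hB.1.ne hg) P
    (fun N hN => ((hPm N).1 hN).1) hw hc1 hc2
  let w' : E → ℤ := fun g => w g + M * ∑ N ∈ P, ind N g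
  have hcone : G.ConeHyp ((r : ℚ) + M * P.card) (fun g => (w' g : ℚ)) := hM M le_rfl
  have hind : ∀ N : Finset E, ∑ g, ind N g * q g = ∑ g ∈ N, q g := by
    intro N
    unfold ind
    simp only [ite_mul, one_mul, zero_mul]
    rw [Finset.sum_ite_mem, Finset.univ_inter]
  have h0' : ∑ g, w' g * q g = 0 := by
    have h3 : ∑ g, w' g * q g = ∑ g, w g * q g + M * ∑ N ∈ P, ∑ g, ind N g * q g := by
      rw [Finset.sum_comm, Finset.mul_sum, ← Finset.sum_add_distrib]
      refine Finset.sum_congr rfl fun g _ => ?_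
      show (w g + M * ∑ N ∈ P, ind N g) * q g = _
      rw [add_mul, mul_assoc, Finset.sum_mul]
    rw [h3, h0, zero_add]
    have h4 : ∑ N ∈ P, ∑ g, ind N g * q g = 0 := by
      refine Finset.sum_eq_zero fun N hN => ?_
      rw [hind]
      exact hq0 N ((hPm N).1 hN).1 ((hPm N).1 hN).2
    rw [h4, mul_zero]
  obtain ⟨m, hm, hmem⟩ := cone_face G hcone q hq h0'
  refine ⟨m, hm, ?_⟩
  have hz : ∑ N ∈ P, ind N ∈
      AddSubgroup.closure {z | ∃ N, G.IsPM N ∧ ∑ g ∈ N, q g = 0 ∧ z = ind N} := by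
    refine AddSubgroup.sum_mem _ fun N hN => AddSubgroup.subset_closure ?_
    exact ⟨N, ((hPm N).1 hN).1, hq0 N ((hPm N).1 hN).1 ((hPm N).1 hN).2, rfl⟩
  have heq : m • w = m • w' - (m * M) • ∑ N ∈ P, ind N := by
    funext g
    show m • w g = m • (w g + M * ∑ N ∈ P, ind N g) - (m * M) • (∑ N ∈ P, ind N) g
    rw [Finset.sum_apply]
    simp only [nsmul_eq_mul]
    push_cast
    ring
  rw [heq]
  exact AddSubgroup.sub_mem _ hmem (AddSubgroup.nsmul_mem _ hz _)

end MG
end ML
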