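import Pool.Agent.ML.E4

/-!
# ML-E5: the two cases (step 3.6, conclusion)
-/

set_option autoImplicit false
set_option linter.unusedSectionVars false
set_option linter.unusedFintypeInType false
set_option linter.unusedVariables false

namespace ML
namespace MG

variable {V E : Type} [Fintype V] [Fintype E] [DecidableEq V] [DecidableEq E] (G : MG V E)

/-- the integral functions on the edges -/
def e5_c (G : MG V E) (e : E) (v₀ : V) : Option (Finset V) → E → ℤ
  | none => fun g => if g = e then 1 else 0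
  | some X => fun g => (if g ∈ G.cut X then 1 else 0) - (G.inc g v₀ : ℤ)

/-- the functional given by an integral function on the edges -/
def e5_L (G : MG V E) (c : E → ℤ) : regGroup G →+ ℤ where
  toFun w := ∑ g, w.1 g * c g
  map_zero' := by
    refine Finset.sum_eq_zero fun g _ => ?_
    show (0 : ℤ) * c g = 0
    rw [zero_mul]
  map_add' := by
    intro a b
    rw [← Finset.sum_add_distrib]
    refine Finset.sum_congr rfl fun g _ => ?_
    show (a.1 g + b.1 g) * c g = _
    rw [add_mul]

lemma e5_L_apply (G : MG V E) (c : E → ℤ) (w : regGroup G) :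
    e5_L G c w = ∑ g, w.1 g * c g := rfl

lemma e5_ind (c : E → ℤ) (N : Finset E) : ∑ g, ind N g * c g = ∑ g ∈ N, c g := by
  have h : ∀ g, ind N g * c g = if g ∈ N then c g else 0 := by
    intro g
    unfold ind
    split_ifs
    · rw [one_mul]
    · rw [zero_mul]
  simp only [h]
  rw [← Finset.sum_filter]
  congr 1
  ext g
  simp

lemma e5_pm {v₀ : V} (hv : v₀ ∈ G.U) {N : Finset E} (hN : G.IsPM N) (e : E) (X : Finset V) :
    ∑ g ∈ N, e5_c G e v₀ (some X) g = ((N ∩ G.cut X).card : ℤ) - 1 := by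
  show ∑ g ∈ N, ((if g ∈ G.cut X then (1:ℤ) else 0) - (G.inc g v₀ : ℤ)) = _
  rw [Finset.sum_sub_distrib]
  congr 1
  · rw [← Finset.sum_filter, Finset.sum_const, nsmul_eq_mul, mul_one, Finset.filter_mem_eq_inter]
  · have := hN.2 v₀ hv
    exact_mod_cast this

lemma e5_pm_none {N : Finset E} (e : E) (v₀ : V) :
    ∑ g ∈ N, e5_c G e v₀ none g = if e ∈ N then 1 else 0 := by
  show ∑ g ∈ N, (if g = e then (1:ℤ) else 0) = _
  rw [Finset.sum_ite_eq']

lemma e5_sum_F {w c : E → ℤ} (h : ∀ g, g ∉ G.F → w g = 0) :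
    ∑ g, w g * c g = ∑ g ∈ G.F, w g * c g := by
  symm
  refine Finset.sum_subset (Finset.subset_univ _) fun g _ hg => ?_
  rw [h g hg, zero_mul]

lemma e5_reg {r : ℤ} {w : E → ℤ} (hw : G.Reg r w) {v₀ : V} (hv : v₀ ∈ G.U) (e : E)
    (X : Finset V) : ∑ g, w g * e5_c G e v₀ (some X) g = ∑ g ∈ G.cut X, w g - r := by
  rw [G.e5_sum_F hw.1]
  show ∑ g ∈ G.F, w g * ((if g ∈ G.cut X then (1:ℤ) else 0) - (G.inc g v₀ : ℤ)) = _
  have h1 : ∀ g, w g * ((if g ∈ G.cut X then (1:ℤ) else 0) - (G.inc g v₀ : ℤ)) =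
      (if g ∈ G.cut X then w g else 0) - G.inc g v₀ • w g := by
    intro g
    rw [nsmul_eq_mul]
    split_ifs <;> ring
  simp only [h1]
  rw [Finset.sum_sub_distrib]
  congr 1
  · rw [← Finset.sum_filter, Finset.filter_mem_eq_inter]
    rw [Finset.inter_eq_right.2 (G.cut_sub X)]
  · exact hw.2 v₀ hv

lemma e5_reg_none {w : E → ℤ} (e : E) (v₀ : V) :
    ∑ g, w g * e5_c G e v₀ none g = w e := by
  show ∑ g, w g * (if g = e then (1:ℤ) else 0) = _
  simp

/-- combination of two multiples in a subgroup -/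
lemma e5_comb {H : AddSubgroup (E → ℤ)} {z u : E → ℤ} {m₁ m₂ : ℕ} (h1 : m₁ • z ∈ H)
    (h2 : m₂ • (z + u) ∈ H) : (m₁ * m₂) • u ∈ H := by
  have h3 : (m₁ * m₂) • u = m₁ • (m₂ • (z + u)) - m₂ • (m₁ • z) := by
    rw [smul_smul, smul_smul, smul_add, mul_comm m₂ m₁]
    abel
  rw [h3]
  exact H.sub_mem (H.nsmul_mem h2 _) (H.nsmul_mem h1 _)

variable {G} in
/-- Step 3.6, conclusion.
Proof.  Fix `v₀ ∈ U`.  Index type `ι := Option {X // G.Nontriv X ∧ (G.del e).Tight X}`, group
`W := regGroup G`; `q none w := w e`, `q (some X) w := ∑_{cut X} w - deg w v₀` (for `w` `Reg r` this is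
`w(cut X) - r`).  `z₁ := ∑ ind N` over all perfect matchings of `G`: `q none z₁ > 0` as `e` is in some
perfect matching; `q (some X) z₁ = ∑_N (|N ∩ cut X| - 1) > 0`, as all terms are `≥ 0` (odd numbers) and
`X` is not tight in `G`.  Apply `facet` with `i₀ = none`.
Each `q i` is given by an integral function on the edges: `none`: `g ↦ [g = e]`; `some X`:
`g ↦ [g ∈ cut X] - inc g v₀`; it is nonnegative on perfect matchings (`|N ∩ cut X| - 1`), and zero on those
avoiding `e` (for `X` tight in `G.del e`; `del_isPM`, `del_cut`: for `e ∉ N`, `N ∩ (cut X).erase e = N ∩ cut X`).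
So by `face_sat`: (+) if all `q j w ≥ 0` and `q i w = 0` then a positive multiple of `w` is in the span of
the perfect matchings `N` with `q i (ind N) = 0`.
If `FProp q i` holds and `q i u = 0` then `u = (z + u) - z` with both satisfying (+): a positive multiple of
`u` is in this span.
(1) `FProp q none`: `G.del e` is `NB`: a `Reg` weight of `G.del e` is a `Reg` weight of `G` vanishing at `e`,
so a multiple is in the span of the perfect matchings of `G` avoiding `e`, which are those of `G.del e`.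
(2) Otherwise there are `i`, `j` as in `facet`; `i ≠ none`, `j ≠ none` because of the last two conditions
(`q none x = 0` and `q none x ≠ 0` are contradictory), `i = some X`, `j = some Y`.
`Fac G e X`: `nt`, `tight` clear; `sat` from (+); `cov`: for `g ≠ e`: `g` is in a perfect matching of
`G.del e`, which meets `cut X` once; for `g = e`: there is `w` with `q i w = 0`, `w e ≠ 0`; a positive
multiple is in `latX X`; if no perfect matching meeting the cut once contained `e`, all elements of
`latX X` would vanish at `e`.  Same for `Y`.  The third statement is the first condition of `facet`. -/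
theorem Brick.cases (hB : G.Brick) {e : E} (he : e ∈ G.F) (hMc : (G.del e).Mc)
    (hC : (G.del e).Conn) :
    (G.del e).NB ∨ ∃ X Y, Fac G e X ∧ Fac G e Y ∧ ∃ r w, G.Reg r w ∧ ∑ g ∈ G.cut X, w g = r ∧
      ∑ g ∈ G.cut Y, w g ≠ r := by
  classical
  obtain ⟨hMcG, hCG, hnb, hnt⟩ := hB
  have hB : G.Brick := ⟨hMcG, hCG, hnb, hnt⟩
  set v₀ : V := G.s e with hv₀
  have hv : v₀ ∈ G.U := G.hs e he
  let ι := Option {X : Finset V // G.Nontriv X ∧ (G.del e).Tight X}
  have : Fintype {X : Finset V // G.Nontriv X ∧ (G.del e).Tight X} := Fintype.ofFinite _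
  let c : ι → E → ℤ := fun i => e5_c G e v₀ (i.map Subtype.val)
  let q : ι → regGroup G →+ ℤ := fun i => e5_L G (c i)
  have hqa : ∀ i (w : regGroup G), q i w = ∑ g, w.1 g * c i g := fun _ _ => rfl
  have hcn : c none = e5_c G e v₀ none := rfl
  have hcs : ∀ X, c (some X) = e5_c G e v₀ (some X.1) := fun _ => rfl
  -- shores, matchings avoiding e
  have htight : ∀ X : Finset V, (G.del e).Tight X → ∀ N, G.IsPM N → e ∉ N →
      (N ∩ G.cut X).card = 1 := by
    intro X hX N hN heN
    have h1 := hX N (G.del_isPM.2 ⟨hN, heN⟩)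
    rw [G.del_cut] at h1
    have h2 : N ∩ (G.cut X).erase e = N ∩ G.cut X := by
      ext g
      simp only [Finset.mem_inter, Finset.mem_erase]
      constructor
      · rintro ⟨a, _, b⟩; exact ⟨a, b⟩
      · rintro ⟨a, b⟩; exact ⟨a, fun h => heN (h ▸ a), b⟩
    rwa [h2] at h1
  have hnn : ∀ i, ∀ N, G.IsPM N → 0 ≤ ∑ g ∈ N, c i g := by
    intro i N hN
    cases i with
    | none =>
      rw [hcn, e5_pm_none]
      split_ifs <;> norm_num
    | some X =>
      rw [hcs, G.e5_pm hv hN]
      have h1 := (hN.odd_cut X.2.1.1 X.2.1.2.1).pos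
      have h2 : (1 : ℤ) ≤ ((N ∩ G.cut X.1).card : ℤ) := by exact_mod_cast h1
      linarith only [h2]
  have hz : ∀ i, ∀ N, G.IsPM N → e ∉ N → ∑ g ∈ N, c i g = 0 := by
    intro i N hN heN
    cases i with
    | none => rw [hcn, e5_pm_none, if_neg heN]
    | some X =>
      rw [hcs, G.e5_pm hv hN, htight X.1 X.2.2 N hN heN]
      norm_num
  -- the sum of all perfect matchings
  have hindreg : ∀ N, G.IsPM N → ind N ∈ regGroup G := fun N hN => ⟨1, hN.reg⟩
  let PMs : Finset (Finset E) := Finset.univ.filter (fun N => G.IsPM N)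
  have hPM : ∀ N, N ∈ PMs ↔ G.IsPM N := by
    intro N
    simp [PMs]
  have hz₁mem : (∑ N ∈ PMs, ind N) ∈ regGroup G :=
    AddSubgroup.sum_mem _ fun N hN => hindreg N ((hPM N).1 hN)
  let z₁ : regGroup G := ⟨∑ N ∈ PMs, ind N, hz₁mem⟩
  have hqz : ∀ i, q i z₁ = ∑ N ∈ PMs, ∑ g ∈ N, c i g := by
    intro i
    rw [hqa]
    show ∑ g, (∑ N ∈ PMs, ind N) g * c i g = _
    have h1 : ∀ g, (∑ N ∈ PMs, ind N) g * c i g = ∑ N ∈ PMs, ind N g * c i g := by
      intro g
      rw [Finset.sum_apply, Finset.sum_mul]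
    simp only [h1]
    rw [Finset.sum_comm]
    exact Finset.sum_congr rfl fun N _ => e5_ind _ _
  have hpos : ∀ i, 0 < q i z₁ := by
    intro i
    rw [hqz]
    apply Finset.sum_pos'
    · intro N hN
      exact hnn i N ((hPM N).1 hN)
    · cases i with
      | none =>
        obtain ⟨N, hN, heN⟩ := hMcG.2 e he
        refine ⟨N, (hPM N).2 hN, ?_⟩
        rw [hcn, e5_pm_none, if_pos heN]
        norm_num
      | some X =>
        have h1 : ¬ G.Tight X.1 := hnt X.1 X.2.1
        unfold Tight at h1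
        push Not at h1
        obtain ⟨N, hN, hne⟩ := h1
        refine ⟨N, (hPM N).2 hN, ?_⟩
        rw [hcs, G.e5_pm hv hN]
        have h2 := (hN.odd_cut X.2.1.1 X.2.1.2.1).pos
        have h3 : 1 < (N ∩ G.cut X.1).card := by omega
        have h4 : (1 : ℤ) < ((N ∩ G.cut X.1).card : ℤ) := by exact_mod_cast h3
        linarith only [h4]
  -- the property (+)
  have hplus : ∀ i, ∀ w : regGroup G, (∀ j, 0 ≤ q j w) → q i w = 0 → ∃ m : ℕ, 0 < m ∧
      m • w.1 ∈ AddSubgroup.closure {z | ∃ N, G.IsPM N ∧ ∑ g ∈ N, c i g = 0 ∧ z = ind N} := by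
    rintro i ⟨w, r, hw⟩ h1 h2
    refine face_sat hB he hMc hw ?_ ?_ (c i) (hnn i) (hz i) h2
    · have h3 := h1 none
      rw [hqa, hcn, e5_reg_none] at h3
      exact h3
    · intro X hX hT
      have h3 := h1 (some ⟨X, hX, hT⟩)
      rw [hqa, hcs, G.e5_reg hw hv] at h3
      linarith only [h3]
  have hplus' : ∀ i, FProp q i → ∀ u : regGroup G, q i u = 0 → ∃ m : ℕ, 0 < m ∧
      m • u.1 ∈ AddSubgroup.closure {z | ∃ N, G.IsPM N ∧ ∑ g ∈ N, c i g = 0 ∧ z = ind N} := by
    intro i hi u hu
    obtain ⟨z, hz0, hz1, hz2⟩ := hi u hu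
    obtain ⟨m₁, hm₁, h1⟩ := hplus i z hz1 hz0
    obtain ⟨m₂, hm₂, h2⟩ := hplus i (z + u) hz2 (by rw [map_add, hz0, hu, add_zero])
    exact ⟨m₁ * m₂, Nat.mul_pos hm₁ hm₂, e5_comb h1 h2⟩
  rcases facet q z₁ hpos none with h | ⟨i, j, hi, hj, ⟨x, hx1, hx2⟩, ⟨x', hx1', hx2'⟩,
    ⟨x'', hx1'', hx2''⟩⟩
  · -- G.del e is a near-brick
    left
    refine ⟨hMc, hC, ?_⟩
    intro r w hw
    have hwe : w e = 0 := hw.1 e (by rw [del_F]; exact Finset.notMem_erase e _)
    have hwG : G.Reg r w := by
      refine ⟨fun g hg => hw.1 g (fun h' => hg ?_), fun v hvU => ?_⟩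
      · rw [del_F] at h'
        exact Finset.mem_of_mem_erase h'
      · rw [← hw.2 v hvU]
        unfold deg
        rw [del_F, del_inc]
        symm
        refine Finset.sum_subset (Finset.erase_subset _ _) fun g hg hg' => ?_
        have hge : g = e := by
          by_contra hne
          exact hg' (Finset.mem_erase.2 ⟨hne, hg⟩)
        rw [hge, hwe, smul_zero]
    obtain ⟨m, hm, hmem⟩ := hplus' none h ⟨w, r, hwG⟩ (by
      rw [hqa, hcn, e5_reg_none]
      exact hwe)
    refine ⟨m, hm, ?_⟩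
    refine AddSubgroup.closure_mono ?_ hmem
    rintro z ⟨N, hN, hN0, rfl⟩
    refine ⟨N, G.del_isPM.2 ⟨hN, ?_⟩, rfl⟩
    intro heN
    rw [hcn, e5_pm_none, if_pos heN] at hN0
    exact one_ne_zero hN0
  · right
    -- facets
    have hFac : ∀ X (hi : FProp q (some X)), (∃ x, q (some X) x = 0 ∧ q none x ≠ 0) →
        Fac G e X.1 := by
      intro X hi hx
      have hsub : AddSubgroup.closure {z | ∃ N, G.IsPM N ∧ ∑ g ∈ N, c (some X) g = 0 ∧
          z = ind N} ≤ G.latX X.1 := by
        apply AddSubgroup.closure_mono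
        rintro z ⟨N, hN, hN0, rfl⟩
        refine ⟨N, hN, ?_, rfl⟩
        rw [hcs, G.e5_pm hv hN] at hN0
        have h3 : ((N ∩ G.cut X.1).card : ℤ) = 1 := by linarith only [hN0]
        exact_mod_cast h3
      refine ⟨X.2.1, X.2.2, ?_, ?_⟩
      · intro r w hw hc
        obtain ⟨m, hm, hmem⟩ := hplus' (some X) hi ⟨w, r, hw⟩ (by
          rw [hqa, hcs, G.e5_reg hw hv, hc, sub_self])
        exact ⟨m, hm, hsub hmem⟩
      · intro g hg
        by_cases hge : g = e
        · subst hge
          by_contra hcon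
          push Not at hcon
          obtain ⟨w, hw0, hwe⟩ := hx
          obtain ⟨m, hm, hmem⟩ := hplus' (some X) hi w hw0
          have hmem' := hsub hmem
          have hvan : ∀ z ∈ G.latX X.1, z g = 0 := by
            intro z hz
            refine AddSubgroup.closure_induction (p := fun z _ => z g = 0) ?_ ?_ ?_ ?_ hz
            · rintro z ⟨N, hN, hN1, rfl⟩
              exact if_neg (hcon N hN hN1)
            · rfl
            · intro a b _ _ ha hb
              show a g + b g = 0
              rw [ha, hb, add_zero]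
            · intro a _ ha
              show - a g = 0
              rw [ha, neg_zero]
          have h5 := hvan _ hmem'
          rw [Pi.smul_apply, nsmul_eq_mul] at h5
          rcases mul_eq_zero.1 h5 with h6 | h6
          · have : m = 0 := by exact_mod_cast h6
            omega
          · apply hwe
            rw [hqa, hcn, e5_reg_none]
            exact h6
        · obtain ⟨N, hN, hgN⟩ := hMc.2 g (by rw [del_F]; exact Finset.mem_erase.2 ⟨hge, hg⟩)
          rw [G.del_isPM] at hN
          exact ⟨N, hN.1, htight X.1 X.2.2 N hN.1 hN.2, hgN⟩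
    cases i with
    | none => exact absurd hx1' hx2'
    | some X =>
      cases j with
      | none => exact absurd hx1'' hx2''
      | some Y =>
        refine ⟨X.1, Y.1, hFac X hi ⟨x', hx1', hx2'⟩, hFac Y hj ⟨x'', hx1'', hx2''⟩, ?_⟩
        obtain ⟨w, r, hw⟩ := x
        refine ⟨r, w, hw, ?_, ?_⟩
        · rw [hqa, hcs, G.e5_reg hw hv] at hx1
          linarith only [hx1]
        · intro h3
          apply hx2
          rw [hqa, hcs, G.e5_reg hw hv, h3, sub_self]

end MG
end ML
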