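import Pool.Agent.ML.Defs

/-!
# ML-F0: edges of the Petersen graph, patterns (definitions)
-/

set_option autoImplicit false
set_option linter.unusedSectionVars false
set_option linter.unusedVariables false

namespace ML

/-- Edges of the Petersen graph: `(0, i)` outer, `(1, i)` spoke, `(2, i)` inner. -/
abbrev PE := Fin 3 × Fin 5

/-- First end of an edge of the Petersen graph. -/
def src : PE → PV
  | (0, i) => (false, i)
  | (1, i) => (false, i)
  | (2, i) => (true, i)

/-- Second end of an edge of the Petersen graph. -/
def tgt : PE → PV
  | (0, i) => (false, i + 1)
  | (1, i) => (true, i)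
  | (2, i) => (true, i + 2)

/-- Degree of `r` in the pattern `D`. -/
def pdeg (D : Finset PE) (r : PV) : ℕ := (D.filter (fun i => src i = r ∨ tgt i = r)).card

/-- Number of outer edges of the pattern `D`. -/
def pout (D : Finset PE) : ℕ := (D.filter (fun i => i.1 = 0)).card

end ML
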