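import Pool.Agent.ML.F6
import Pool.Agent.ML.A3b

/-!
# ML-F1: exits of fibres (step 4.1)
-/

set_option autoImplicit false
set_option linter.unusedSectionVars false
set_option linter.unusedFintypeInType false
set_option linter.unusedVariables false

namespace ML
namespace MG

variable {V E : Type} [Fintype V] [Fintype E] [DecidableEq V] [DecidableEq E] (G : MG V E)

/-- The edge condition of a Petersen structure for the edge `e`. -/
def EC (G : MG V E) (π : V → PV) (A : Finset V) (e : E) : Prop :=
  (π (G.s e) = π (G.t e) ∧ ¬ (G.s e ∈ A ↔ G.t e ∈ A)) ∨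
    (padj (π (G.s e)) (π (G.t e)) = true ∧ G.s e ∈ A ∧ G.t e ∈ A)

/-- Step 4.1.  For a set `M` of edges satisfying the edge condition: the degree sum over the `A`-part of
a fibre is the degree sum over the other part plus the number of edges of `M` leaving the fibre.
Proof: both sums are sums over `e ∈ M` (exchange of summation) of the number of ends in the part; an
edge inside the fibre has one end in each part; an edge leaving the fibre (then its ends have different
images, so the second alternative holds) has its end in the fibre in `A`; other edges contribute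
nothing. -/
theorem exits {π : V → PV} {A : Finset V} {M : Finset E} (hM : M ⊆ G.F)
    (hP : ∀ e ∈ M, EC G π A e) (p : PV) :
    ∑ v ∈ G.fib π p ∩ A, ∑ e ∈ M, G.inc e v =
      ∑ v ∈ G.fib π p \ A, ∑ e ∈ M, G.inc e v + (M ∩ G.cut (G.fib π p)).card := by
  classical
  rw [Finset.sum_comm, Finset.sum_comm (s := G.fib π p \ A)]
  have hc : (M ∩ G.cut (G.fib π p)).card =
      ∑ e ∈ M, if e ∈ G.cut (G.fib π p) then 1 else 0 := by
    rw [Finset.sum_ite, Finset.sum_const_zero, add_zero, Finset.sum_const, smul_eq_mul, mul_one]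
    congr 1
  rw [hc, ← Finset.sum_add_distrib]
  refine Finset.sum_congr rfl fun e he => ?_
  have heF := hM he
  have hs := G.hs e heF
  have ht := G.ht e heF
  rw [G.sum_inc, G.sum_inc]
  have h1 : G.s e ∈ G.fib π p ↔ π (G.s e) = p := by
    unfold fib
    rw [Finset.mem_filter]
    exact ⟨fun h => h.2, fun h => ⟨hs, h⟩⟩
  have h2 : G.t e ∈ G.fib π p ↔ π (G.t e) = p := by
    unfold fib
    rw [Finset.mem_filter]
    exact ⟨fun h => h.2, fun h => ⟨ht, h⟩⟩
  simp only [Finset.mem_inter, Finset.mem_sdiff, G.mem_cut, h1, h2]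
  rcases hP e he with ⟨h3, h4⟩ | ⟨h3, h4, h5⟩
  · by_cases h6 : π (G.s e) = p
    · have h7 : π (G.t e) = p := by rw [← h3, h6]
      by_cases h8 : G.s e ∈ A
      · have h9 : G.t e ∉ A := fun h => h4 ⟨fun _ => h, fun _ => h8⟩
        simp [h6, h7, h8, h9]
      · have h9 : G.t e ∈ A := by
          by_contra h
          exact h4 ⟨fun h' => absurd h' h8, fun h' => absurd h' h⟩
        simp [h6, h7, h8, h9]
    · have h7 : π (G.t e) ≠ p := by rw [← h3]; exact h6
      simp [h6, h7]
  · have h6 : π (G.s e) ≠ π (G.t e) := by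
      intro h
      rw [h, padj_self] at h3
      exact absurd h3 (by decide)
    by_cases h7 : π (G.s e) = p
    · have h8 : π (G.t e) ≠ p := fun h => h6 (by rw [h7, h])
      simp [h4, h5, h7, h8, heF]
    · by_cases h8 : π (G.t e) = p
      · simp [h4, h5, h7, h8, heF]
      · simp [h7, h8]

/-- In a graph with Petersen structure every perfect matching leaves every fibre exactly once. -/
theorem PS.exit_one {G : MG V E} {π : V → PV} {A : Finset V} (hP : G.PS π A) {N : Finset E}
    (hN : G.IsPM N) (p : PV) : (N ∩ G.cut (G.fib π p)).card = 1 := by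
  have h := G.exits hN.1 (fun e he => hP.edge e (hN.1 he)) p
  have h1 : ∀ W : Finset V, W ⊆ G.fib π p → ∑ v ∈ W, ∑ e ∈ N, G.inc e v = W.card := by
    intro W hW
    rw [Finset.card_eq_sum_ones]
    exact Finset.sum_congr rfl fun v hv => hN.2 v (Finset.mem_filter.1 (hW hv)).1
  rw [h1 _ Finset.inter_subset_left, h1 _ Finset.sdiff_subset, hP.size p] at h
  omega

/-- Sizes. -/
lemma PS.card_fib {G : MG V E} {π : V → PV} {A : Finset V} (hP : G.PS π A) (p : PV) :
    (G.fib π p).card = 2 * (G.fib π p \ A).card + 1 ∧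
      (G.fib π p).card + 1 = 2 * (G.fib π p ∩ A).card := by
  have h1 := hP.size p
  have h2 := Finset.card_inter_add_card_sdiff (G.fib π p) A
  omega

/-- Fibres are pairwise disjoint and their union is `U`. -/
lemma fib_disj {π : V → PV} {p q : PV} (h : p ≠ q) : Disjoint (G.fib π p) (G.fib π q) := by
  rw [Finset.disjoint_left]
  intro v hv hv'
  exact h ((Finset.mem_filter.1 hv).2.symm.trans (Finset.mem_filter.1 hv').2)

lemma fib_union {π : V → PV} : Finset.univ.biUnion (G.fib π) = G.U := by
  ext v
  simp only [Finset.mem_biUnion, Finset.mem_univ, true_and]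
  constructor
  · rintro ⟨p, hp⟩
    exact (Finset.mem_filter.1 hp).1
  · intro hv
    exact ⟨π v, Finset.mem_filter.2 ⟨hv, rfl⟩⟩

/-- Crossing edges used by perfect matchings: if `G` is matching covered and has a Petersen structure,
`f` an edge leaving the fibre of `q` with its end `a` in this fibre, then the fibre minus `a` has a
perfect matching.  Proof: `f` is in a perfect matching `N`; `N ∩ cut (fib q) = {f}`; `N.erase f` restricted
to the fibre minus `a` (no edge of `N` leaves `(fib q).erase a` : such an edge would be `f` or share the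
end `a` with `f`): `isPM_restrict'`. -/
theorem PS.fib_erase {G : MG V E} (hMc : G.Mc) {π : V → PV} {A : Finset V} (hP : G.PS π A)
    {q : PV} {f : E} (hf : f ∈ G.F) {a : V} (ha : a ∈ G.fib π q) (hfa : G.s f = a ∨ G.t f = a)
    (hc : π (G.s f) ≠ π (G.t f)) : ∃ M, (G.sub ((G.fib π q).erase a)).IsPM M := by
  obtain ⟨N, hN, hfN⟩ := hMc.2 f hf
  have haU : a ∈ G.U := (Finset.mem_filter.1 ha).1
  have haq : π a = q := (Finset.mem_filter.1 ha).2
  have hs := G.hs f hf
  have ht := G.ht f hf
  have hmem : ∀ v, v ∈ G.fib π q ↔ v ∈ G.U ∧ π v = q := fun v => Finset.mem_filter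
  have hone := hP.exit_one hN q
  have hfc : f ∈ G.cut (G.fib π q) := by
    rw [G.mem_cut]
    refine ⟨hf, ?_⟩
    rw [hmem, hmem]
    rcases hfa with h | h
    · intro h'
      exact hc (by rw [h, haq, (h'.1 ⟨hs, by rw [h, haq]⟩).2])
    · intro h'
      exact hc (by rw [h, haq, (h'.2 ⟨ht, by rw [h, haq]⟩).2])
  have hW : (G.fib π q).erase a ⊆ G.U := fun v hv =>
    ((hmem v).1 (Finset.mem_of_mem_erase hv)).1
  refine ⟨N ∩ G.inn ((G.fib π q).erase a), G.isPM_restrict hN hW ?_⟩
  rw [Finset.eq_empty_iff_forall_notMem]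
  intro e he
  obtain ⟨heN, hec⟩ := Finset.mem_inter.1 he
  rw [G.mem_cut] at hec
  have hes := G.hs e hec.1
  have het := G.ht e hec.1
  have hfe : e = f := by
    by_cases hcut : e ∈ G.cut (G.fib π q)
    · obtain ⟨g, hg⟩ := Finset.card_eq_one.1 hone
      have h1 : e ∈ ({g} : Finset E) := by
        rw [← hg]
        exact Finset.mem_inter.2 ⟨heN, hcut⟩
      have h2 : f ∈ ({g} : Finset E) := by
        rw [← hg]
        exact Finset.mem_inter.2 ⟨hfN, hfc⟩
      rw [Finset.mem_singleton] at h1 h2
      rw [h1, h2]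
    · have h3 : G.s e = a ∨ G.t e = a := by
        by_contra h4
        push Not at h4
        apply hec.2
        rw [G.mem_cut] at hcut
        have h5 : G.s e ∈ G.fib π q ↔ G.t e ∈ G.fib π q := by
          by_contra h6
          exact hcut ⟨hec.1, h6⟩
        rw [Finset.mem_erase, Finset.mem_erase]
        exact ⟨fun h => ⟨h4.2, h5.1 h.2⟩, fun h => ⟨h4.1, h5.2 h.2⟩⟩
      exact hN.unique haU heN hfN h3 hfa
  subst hfe
  apply hec.2
  rw [Finset.mem_erase, Finset.mem_erase, hmem, hmem]
  rcases hfa with h | h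
  · refine ⟨fun h' => absurd h h'.1, fun h' => ?_⟩
    exact absurd (by rw [h, haq, h'.2.2] : π (G.s e) = π (G.t e)) hc
  · refine ⟨fun h' => ?_, fun h' => absurd h h'.1⟩
    exact absurd (by rw [h, haq, h'.2.2] : π (G.s e) = π (G.t e)) hc

end MG
end ML
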