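import Pool.Agent.ML.F3

/-!
# ML-F4: step 4.3 (Full)
-/

set_option autoImplicit false
set_option linter.unusedSectionVars false
set_option linter.unusedFintypeInType false
set_option linter.unusedVariables false

namespace ML
namespace MG

variable {V E : Type} [Fintype V] [Fintype E] [DecidableEq V] [DecidableEq E] (G : MG V E)

variable {G} in
private lemma f4_sum {N : Finset E} (hN : G.IsPM N) {e : E} (heN : e ∈ N) {u v : V}
    (huv : (G.s e = u ∧ G.t e = v) ∨ (G.t e = u ∧ G.s e = v)) {W : Finset V} (hW : W ⊆ G.U) :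
    ∑ w ∈ W, ∑ f ∈ N.erase e, G.inc f w +
      ((if u ∈ W then 1 else 0) + (if v ∈ W then 1 else 0)) = W.card := by
  have h1 : ∀ w ∈ W, ∑ f ∈ N.erase e, G.inc f w + G.inc e w = 1 := by
    intro w hw
    have h := hN.2 w (hW hw)
    rw [← Finset.sum_erase_add N _ heN] at h
    exact h
  have h2 : ∑ w ∈ W, (∑ f ∈ N.erase e, G.inc f w + G.inc e w) = W.card := by
    rw [Finset.sum_congr rfl h1]; simp
  rw [Finset.sum_add_distrib, G.sum_inc] at h2
  rcases huv with ⟨rfl, rfl⟩ | ⟨rfl, rfl⟩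
  · exact h2
  · rw [Nat.add_comm (if G.t e ∈ W then 1 else 0)]; exact h2

variable {G} in
private lemma f4_tight {e : E} (he : e ∈ G.F) {π : V → PV} {A : Finset V}
    (hP : (G.del e).PS π A) {p m n n' : PV} (hmp : m ≠ p) (hmn : m ≠ n) (hmn' : m ≠ n')
    (hnn : n ≠ n') (hadj : ∀ q, padj p q = true ↔ (q = m ∨ q = n ∨ q = n')) {u v : V}
    (huv : (G.s e = u ∧ G.t e = v) ∨ (G.t e = u ∧ G.s e = v))
    (hu : u ∈ G.fib π p \ A) (hv : π v ≠ p) {a : V} (ha : a ∈ G.fib π p ∩ A)
    (hst : ∀ f ∈ (G.del e).F, ∀ x y, ((G.s f = x ∧ G.t f = y) ∨ (G.t f = x ∧ G.s f = y)) →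
      π x = p → (π y = n ∨ π y = n') → x = a) :
    G.Tight (G.fib π m ∪ (G.fib π p).erase a) := by
  intro N hN
  have hadd : ∀ X : Finset V, (G.del e).cut X = (G.cut X).erase e := fun X => G.del_cut e X
  have hEC : ∀ f ∈ (G.del e).F, EC G π A f := fun f hf => hP.edge f hf
  have hfibU : ∀ q, G.fib π q ⊆ G.U := fun q => Finset.filter_subset _ _
  by_cases heN : e ∈ N
  · -- the matching contains `e`
    have hMF : N.erase e ⊆ G.F := (Finset.erase_subset _ _).trans hN.1
    have hMH : ∀ f ∈ N.erase e, f ∈ (G.del e).F := by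
      intro f hf
      rw [Finset.mem_erase] at hf
      exact Finset.mem_erase.2 ⟨hf.1, hN.1 hf.2⟩
    have hM : ∀ f ∈ N.erase e, EC G π A f := fun f hf => hEC f (hMH f hf)
    rw [Finset.mem_sdiff] at hu
    rw [Finset.mem_inter] at ha
    have hup : π u = p := (Finset.mem_filter.1 hu.1).2
    have hap : π a = p := (Finset.mem_filter.1 ha.1).2
    have hau : a ≠ u := fun h => hu.2 (h ▸ ha.2)
    have hav : a ≠ v := fun h => hv (h ▸ hap)
    have hvp : v ∉ G.fib π p := fun h => hv (Finset.mem_filter.1 h).2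
    have hum : u ∉ G.fib π m := fun h => hmp ((Finset.mem_filter.1 h).2.symm.trans hup)
    have hvU : v ∈ G.U := by
      rcases huv with ⟨_, h⟩ | ⟨_, h⟩
      · rw [← h]; exact G.ht e he
      · rw [← h]; exact G.hs e he
    have hdeg : ∑ f ∈ N.erase e, G.inc f a = 1 := by
      have h := f4_sum hN heN huv (W := {a})
        (by intro w hw; rw [Finset.mem_singleton] at hw; rw [hw]; exact hfibU p ha.1)
      rw [Finset.sum_singleton, if_neg (by rw [Finset.mem_singleton]; exact hau.symm),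
        if_neg (by rw [Finset.mem_singleton]; exact hav.symm), Finset.card_singleton] at h
      omega
    have hcc := G.cut_count hMF hM hmn hmn' hnn hadj (Finset.mem_inter.2 ha) hdeg
      (fun f hf => hst f (hMH f hf))
    have hxp := G.exits hMF hM p
    have hxm := G.exits hMF hM m
    have hp1 := f4_sum hN heN huv (W := G.fib π p ∩ A) (Finset.inter_subset_left.trans (hfibU p))
    have hp2 := f4_sum hN heN huv (W := G.fib π p \ A) (Finset.sdiff_subset.trans (hfibU p))
    have hm1 := f4_sum hN heN huv (W := G.fib π m ∩ A) (Finset.inter_subset_left.trans (hfibU m))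
    have hm2 := f4_sum hN heN huv (W := G.fib π m \ A) (Finset.sdiff_subset.trans (hfibU m))
    have hsp : (G.fib π p ∩ A).card = (G.fib π p \ A).card + 1 := hP.size p
    have hsm : (G.fib π m ∩ A).card = (G.fib π m \ A).card + 1 := hP.size m
    rw [if_neg (fun h => hu.2 (Finset.mem_inter.1 h).2),
      if_neg (fun h => hvp (Finset.mem_inter.1 h).1)] at hp1
    rw [if_pos (Finset.mem_sdiff.2 hu), if_neg (fun h => hvp (Finset.mem_sdiff.1 h).1)] at hp2
    rw [if_neg (fun h => hum (Finset.mem_inter.1 h).1)] at hm1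
    rw [if_neg (fun h => hum (Finset.mem_sdiff.1 h).1)] at hm2
    have huY : u ∈ G.fib π m ∪ (G.fib π p).erase a :=
      Finset.mem_union_right _ (Finset.mem_erase.2 ⟨hau.symm, hu.1⟩)
    have hins : N = insert e (N.erase e) := (Finset.insert_erase heN).symm
    by_cases hvm : v ∈ G.fib π m
    · have hvY : v ∈ G.fib π m ∪ (G.fib π p).erase a := Finset.mem_union_left _ hvm
      have hec : e ∉ G.cut (G.fib π m ∪ (G.fib π p).erase a) := by
        intro h
        have h2 := ((G.mem_cut).1 h).2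
        rcases huv with ⟨h3, h4⟩ | ⟨h3, h4⟩
        · rw [h3, h4] at h2; exact h2 ⟨fun _ => hvY, fun _ => huY⟩
        · rw [h3, h4] at h2; exact h2 ⟨fun _ => huY, fun _ => hvY⟩
      have hNe : (N ∩ G.cut (G.fib π m ∪ (G.fib π p).erase a)).card =
          (N.erase e ∩ G.cut (G.fib π m ∪ (G.fib π p).erase a)).card := by
        have h5 : e ∉ N ∩ G.cut (G.fib π m ∪ (G.fib π p).erase a) :=
          fun h => hec (Finset.mem_inter.1 h).2
        rw [Finset.erase_inter, Finset.erase_eq_of_notMem h5]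
      by_cases hvA : v ∈ A
      · rw [if_pos (Finset.mem_inter.2 ⟨hvm, hvA⟩)] at hm1
        rw [if_neg (fun h => (Finset.mem_sdiff.1 h).2 hvA)] at hm2
        omega
      · rw [if_neg (fun h => hvA (Finset.mem_inter.1 h).2)] at hm1
        rw [if_pos (Finset.mem_sdiff.2 ⟨hvm, hvA⟩)] at hm2
        omega
    · have hvY : v ∉ G.fib π m ∪ (G.fib π p).erase a := by
        intro h
        rcases Finset.mem_union.1 h with h | h
        · exact hvm h
        · exact hvp (Finset.mem_of_mem_erase h)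
      have hec : e ∈ G.cut (G.fib π m ∪ (G.fib π p).erase a) := by
        refine (G.mem_cut).2 ⟨he, ?_⟩
        rcases huv with ⟨h3, h4⟩ | ⟨h3, h4⟩
        · rw [h3, h4]; exact fun h => hvY (h.1 huY)
        · rw [h3, h4]; exact fun h => hvY (h.2 huY)
      have hNe : (N ∩ G.cut (G.fib π m ∪ (G.fib π p).erase a)).card =
          (N.erase e ∩ G.cut (G.fib π m ∪ (G.fib π p).erase a)).card + 1 := by
        rw [Finset.erase_inter, Finset.card_erase_add_one (Finset.mem_inter.2 ⟨heN, hec⟩)]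
      rw [if_neg (fun h => hvm (Finset.mem_inter.1 h).1)] at hm1
      rw [if_neg (fun h => hvm (Finset.mem_sdiff.1 h).1)] at hm2
      omega
  · -- the matching does not contain `e`
    have hN' : (G.del e).IsPM N := (G.del_isPM).2 ⟨hN, heN⟩
    have hMH : ∀ f ∈ N, f ∈ (G.del e).F := fun f hf => hN'.1 hf
    have hM : ∀ f ∈ N, EC G π A f := fun f hf => hEC f (hMH f hf)
    have hdeg : ∑ f ∈ N, G.inc f a = 1 := hN.2 a (hfibU p (Finset.mem_inter.1 ha).1)
    have hcc := G.cut_count hN.1 hM hmn hmn' hnn hadj ha hdeg (fun f hf => hst f (hMH f hf))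
    have hcut : ∀ q, (N ∩ G.cut (G.fib π q)).card = 1 := by
      intro q
      have h := hP.exit_one hN' q
      have h2 : N ∩ (G.del e).cut ((G.del e).fib π q) = N ∩ G.cut (G.fib π q) := by
        have h3 : (G.del e).fib π q = G.fib π q := rfl
        rw [h3, hadd]
        ext f
        simp only [Finset.mem_inter, Finset.mem_erase]
        constructor
        · rintro ⟨h4, _, h5⟩; exact ⟨h4, h5⟩
        · rintro ⟨h4, h5⟩; exact ⟨h4, fun h6 => heN (h6 ▸ h4), h5⟩
      rw [h2] at h
      exact h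
    have h1 := hcut p
    have h2 := hcut m
    omega

variable {G} in
/-- Step 4.3 (Full).
Proof.  Suppose not.  By `PS.real` there are edges of `H = G.del e` from `fib p` to `fib n` and to `fib n'`;
let `a` be the end in `fib p` of the first (in `A` by the edge condition).  Then all edges of `H` between
`fib p` and `fib n ∪ fib n'` have the end `a` in `fib p` (otherwise we get two edges as claimed: compare
with the first edge, then with an edge to `fib n'`).
Let `m` be the third neighbour (`three_nbrs`), `Y = fib m ∪ (fib p).erase a`.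
`Y` is nontrivial: `|fib m|` is odd, `|fib p| - 1` is even and `≥ 2` (`u ∈ fib p \ A`, `PS.card_fib`), the
complement contains `a` and the nonempty fibres of `n`, `n'`.
`Y` is tight in `G`: let `N` be a perfect matching of `G`.  If `e ∉ N`, take `M = N` in `cut_count`: both
fibre cuts are met once (`PS.exit_one` for `G.del e`; cuts of `G.del e` and `G` differ only in `e`), so
`|N ∩ cut Y| = 1`.  If `e ∈ N`, take `M = N.erase e` (edge condition holds; the `M`-degree is `1` at all
vertices except `u`, `v` where it is `0`; at `a` it is `1`: `a ∈ A`, so `a ≠ u`, and `v ∉ fib p`, so `a ≠ v`).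
By `exits`: `|M ∩ cut (fib p)| = |fib p ∩ A| - (|fib p \ A| - 1) = 2`.  Hence
`|M ∩ cut Y| + 2 = 1 + |M ∩ cut (fib m)|`.  If `v ∉ fib m`: `|M ∩ cut (fib m)| = 1`, so `|M ∩ cut Y| = 0`, and
`e ∈ cut Y` (`u ∈ Y`, `v ∉ Y`): `|N ∩ cut Y| = 1`.  If `v ∈ fib m \ A`: `|M ∩ cut (fib m)| = 2`,
`|M ∩ cut Y| = 1` and `e ∉ cut Y`.  If `v ∈ fib m ∩ A`: `|M ∩ cut (fib m)| = 0`, impossible.
This contradicts that `G` is a brick. -/
theorem full (hB : G.Brick) {e : E} (he : e ∈ G.F) {π : V → PV} {A : Finset V}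
    (hP : (G.del e).PS π A) {p n n' : PV} (hn : padj p n = true) (hn' : padj p n' = true)
    (hnn : n ≠ n') {u v : V} (huv : (G.s e = u ∧ G.t e = v) ∨ (G.t e = u ∧ G.s e = v))
    (hu : u ∈ G.fib π p \ A) (hv : π v ≠ p) :
    ∃ f ∈ (G.del e).F, ∃ f' ∈ (G.del e).F, ∃ a a' b b',
      ((G.s f = a ∧ G.t f = b) ∨ (G.t f = a ∧ G.s f = b)) ∧
      ((G.s f' = a' ∧ G.t f' = b') ∨ (G.t f' = a' ∧ G.s f' = b')) ∧
      π a = p ∧ π b = n ∧ π a' = p ∧ π b' = n' ∧ a ≠ a' := by
  by_contra hcon
  have hC : ∀ f ∈ (G.del e).F, ∀ f' ∈ (G.del e).F, ∀ a a' b b',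
      ((G.s f = a ∧ G.t f = b) ∨ (G.t f = a ∧ G.s f = b)) →
      ((G.s f' = a' ∧ G.t f' = b') ∨ (G.t f' = a' ∧ G.s f' = b')) →
      π a = p → π b = n → π a' = p → π b' = n' → a = a' := by
    intro f hf f' hf' a a' b b' h1 h2 h3 h4 h5 h6
    by_contra h7
    exact hcon ⟨f, hf, f', hf', a, a', b, b', h1, h2, h3, h4, h5, h6, h7⟩
  have hreal : ∀ q, padj p q = true → ∃ f ∈ (G.del e).F, ∃ a b,
      ((G.s f = a ∧ G.t f = b) ∨ (G.t f = a ∧ G.s f = b)) ∧ π a = p ∧ π b = q := by
    intro q hq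
    obtain ⟨f, hf, h | h⟩ := hP.real p q hq
    · exact ⟨f, hf, G.s f, G.t f, Or.inl ⟨rfl, rfl⟩, h.1, h.2⟩
    · exact ⟨f, hf, G.t f, G.s f, Or.inr ⟨rfl, rfl⟩, h.2, h.1⟩
  obtain ⟨f, hf, a, b, hab, hap, hbn⟩ := hreal n hn
  obtain ⟨f', hf', a', b', hab', hap', hbn'⟩ := hreal n' hn'
  have haa : a = a' := hC f hf f' hf' a a' b b' hab hab' hap hbn hap' hbn'
  have hst : ∀ g ∈ (G.del e).F, ∀ x y, ((G.s g = x ∧ G.t g = y) ∨ (G.t g = x ∧ G.s g = y)) →
      π x = p → (π y = n ∨ π y = n') → x = a := by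
    intro g hg x y hxy hx hy
    rcases hy with hy | hy
    · rw [haa]
      exact hC g hg f' hf' x a' y b' hxy hab' hx hy hap' hbn'
    · exact (hC f hf g hg a x b y hab hxy hap hbn hx hy).symm
  -- the third neighbour
  obtain ⟨m, hmn, hmn', hadj⟩ : ∃ m, m ≠ n ∧ m ≠ n' ∧
      ∀ q, padj p q = true ↔ (q = m ∨ q = n ∨ q = n') := by
    obtain ⟨x, y, z, hxy, hxz, hyz, hh⟩ := three_nbrs p
    have h1 := (hh n).1 hn
    have h2 := (hh n').1 hn'
    rcases h1 with rfl | rfl | rfl
    · rcases h2 with rfl | rfl | rfl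
      · exact absurd rfl hnn
      · exact ⟨z, hxz.symm, hyz.symm, fun q => (hh q).trans (by tauto)⟩
      · exact ⟨y, hxy.symm, hyz, fun q => (hh q).trans (by tauto)⟩
    · rcases h2 with rfl | rfl | rfl
      · exact ⟨z, hyz.symm, hxz.symm, fun q => (hh q).trans (by tauto)⟩
      · exact absurd rfl hnn
      · exact ⟨x, hxy, hxz, fun q => (hh q).trans (by tauto)⟩
    · rcases h2 with rfl | rfl | rfl
      · exact ⟨y, hyz, hxy.symm, fun q => (hh q).trans (by tauto)⟩
      · exact ⟨x, hxz, hxy, fun q => (hh q).trans (by tauto)⟩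
      · exact absurd rfl hnn
  have hself : ∀ q, padj p q = true → q ≠ p := by
    intro q hq h
    rw [h, padj_self] at hq
    exact absurd hq (by decide)
  have hmp : m ≠ p := hself m ((hadj m).2 (Or.inl rfl))
  have hnp : n ≠ p := hself n hn
  have hnp' : n' ≠ p := hself n' hn'
  have hfibU : ∀ q, G.fib π q ⊆ G.U := fun q => Finset.filter_subset _ _
  -- `a` lies in `A`
  have hfG : f ∈ G.F := Finset.mem_of_mem_erase hf
  have haU : a ∈ G.U := by
    rcases hab with ⟨h, _⟩ | ⟨h, _⟩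
    · rw [← h]; exact G.hs f hfG
    · rw [← h]; exact G.ht f hfG
  have haA : a ∈ A := by
    rcases hP.edge f hf with h | h
    · exfalso
      have h1 : π (G.s f) = π (G.t f) := h.1
      rcases hab with ⟨h3, h4⟩ | ⟨h3, h4⟩
      · rw [h3, h4, hap, hbn] at h1; exact hnp h1.symm
      · rw [h3, h4, hap, hbn] at h1; exact hnp h1
    · have h1 : G.s f ∈ A := h.2.1
      have h2 : G.t f ∈ A := h.2.2
      rcases hab with ⟨h3, _⟩ | ⟨h3, _⟩
      · rw [← h3]; exact h1
      · rw [← h3]; exact h2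
  have hafib : a ∈ G.fib π p := Finset.mem_filter.2 ⟨haU, hap⟩
  have hT := f4_tight he hP hmp hmn hmn' hnn hadj huv hu hv (Finset.mem_inter.2 ⟨hafib, haA⟩) hst
  refine hB.2.2.2 _ ?_ hT
  have hcm := (hP.card_fib m).1
  have hcp := (hP.card_fib p).1
  have hcn := (hP.card_fib n).1
  have hcn' := (hP.card_fib n').1
  have e1 : (G.del e).fib π m = G.fib π m := rfl
  have e2 : (G.del e).fib π p = G.fib π p := rfl
  have e3 : (G.del e).fib π n = G.fib π n := rfl
  have e4 : (G.del e).fib π n' = G.fib π n' := rfl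
  rw [e1] at hcm
  rw [e2] at hcp
  rw [e3] at hcn
  rw [e4] at hcn'
  have hupos : 1 ≤ (G.fib π p \ A).card := Finset.card_pos.2 ⟨u, hu⟩
  have hdmp : Disjoint (G.fib π m) (G.fib π p) := G.fib_disj hmp
  have hd1 : Disjoint (G.fib π m) ((G.fib π p).erase a) :=
    Finset.disjoint_of_subset_right (Finset.erase_subset _ _) hdmp
  have hcY : (G.fib π m ∪ (G.fib π p).erase a).card + 1 = (G.fib π m).card + (G.fib π p).card := by
    rw [Finset.card_union_of_disjoint hd1, add_assoc, Finset.card_erase_add_one hafib]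
  have hbig : (G.fib π m ∪ G.fib π p ∪ (G.fib π n ∪ G.fib π n')).card =
      (G.fib π m).card + (G.fib π p).card + ((G.fib π n).card + (G.fib π n').card) := by
    rw [Finset.card_union_of_disjoint, Finset.card_union_of_disjoint hdmp,
      Finset.card_union_of_disjoint (G.fib_disj hnn)]
    rw [Finset.disjoint_union_left, Finset.disjoint_union_right, Finset.disjoint_union_right]
    exact ⟨⟨G.fib_disj hmn, G.fib_disj hmn'⟩, ⟨G.fib_disj hnp.symm, G.fib_disj hnp'.symm⟩⟩
  have hle : (G.fib π m ∪ G.fib π p ∪ (G.fib π n ∪ G.fib π n')).card ≤ G.U.card :=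
    Finset.card_le_card (Finset.union_subset (Finset.union_subset (hfibU m) (hfibU p))
      (Finset.union_subset (hfibU n) (hfibU n')))
  refine ⟨?_, ?_, ?_, ?_⟩
  · exact Finset.union_subset (hfibU m) ((Finset.erase_subset _ _).trans (hfibU p))
  · rw [Nat.odd_iff]; omega
  · omega
  · omega

end MG
end ML
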