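import Pool.Agent.ML.F5b
import Pool.Agent.ML.F4

/-!
# ML-F7b: no edge from A to the complement of A between different fibres (step 4.5)
-/

set_option autoImplicit false
set_option linter.unusedSectionVars false
set_option linter.unusedFintypeInType false
set_option linter.unusedVariables false

namespace ML
namespace MG

variable {V E : Type} [Fintype V] [Fintype E] [DecidableEq V] [DecidableEq E] (G : MG V E)

variable {G} in
/-- Realization of the patterns with degree two at the fibre of the end `u` not in `A`. -/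
private theorem f7b_real (hB : G.Brick) {e : E} (he : e ∈ G.F) {π : V → PV} {A : Finset V}
    (hP : (G.del e).PS π A) {u v : V} (huv : (G.s e = u ∧ G.t e = v) ∨ (G.t e = u ∧ G.s e = v))
    (hu : u ∉ A) (hv : v ∈ A) (hne : π u ≠ π v) {D : Finset PE}
    (hD : ∀ r, pdeg D r = if r = π u then 2 else if r = π v then 0 else 1) :
    ∃ N, G.IsPM N ∧ e ∈ N ∧ ∑ g ∈ N.erase e, och (π (G.s g)) (π (G.t g)) = pout D • half := by
  have huU : u ∈ G.U := by
    rcases huv with ⟨h1, -⟩ | ⟨h1, -⟩
    · rw [← h1]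
      exact G.hs e he
    · rw [← h1]
      exact G.ht e he
  have hufib : u ∈ G.fib π (π u) \ A :=
    Finset.mem_sdiff.2 ⟨Finset.mem_filter.2 ⟨huU, rfl⟩, hu⟩
  have hcard : (D.filter (fun i => src i = π u ∨ tgt i = π u)).card = 2 := by
    have h1 := hD (π u)
    rw [if_pos rfl] at h1
    exact h1
  obtain ⟨i, j, hij, hset⟩ := Finset.card_eq_two.1 hcard
  have hi : i ∈ D.filter (fun i => src i = π u ∨ tgt i = π u) := by
    rw [hset]
    exact Finset.mem_insert_self _ _
  have hj : j ∈ D.filter (fun i => src i = π u ∨ tgt i = π u) := by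
    rw [hset]
    exact Finset.mem_insert_of_mem (Finset.mem_singleton_self _)
  rw [Finset.mem_filter] at hi hj
  have hnb : ∀ i : PE, (src i = π u ∨ tgt i = π u) →
      ∃ n, padj (π u) n = true ∧ ((src i = π u ∧ tgt i = n) ∨ (src i = n ∧ tgt i = π u)) := by
    intro i h
    rcases h with h | h
    · refine ⟨tgt i, ?_, Or.inl ⟨h, rfl⟩⟩
      rw [← h]
      exact padj_src_tgt i
    · refine ⟨src i, ?_, Or.inr ⟨rfl, h⟩⟩
      rw [← h, padj_comm]
      exact padj_src_tgt i
  obtain ⟨n, hn, hin⟩ := hnb i hi.2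
  obtain ⟨n', hn', hjn⟩ := hnb j hj.2
  have hnn : n ≠ n' := by
    rintro rfl
    refine hij (pe_unique ?_)
    rcases hin with ⟨a1, a2⟩ | ⟨a1, a2⟩ <;> rcases hjn with ⟨b1, b2⟩ | ⟨b1, b2⟩
    · exact Or.inl ⟨by rw [a1, b1], by rw [a2, b2]⟩
    · exact Or.inr ⟨by rw [a1, b2], by rw [a2, b1]⟩
    · exact Or.inr ⟨by rw [a1, b2], by rw [a2, b1]⟩
    · exact Or.inl ⟨by rw [a1, b1], by rw [a2, b2]⟩
  have hnp : n ≠ π u := by
    rintro rfl
    rw [padj_self] at hn
    exact absurd hn (by decide)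
  have hnp' : n' ≠ π u := by
    rintro rfl
    rw [padj_self] at hn'
    exact absurd hn' (by decide)
  obtain ⟨f1, hf1, f2, hf2, a, a', b, b', e1, e2, pa, pb, pa', pb', haa⟩ :=
    full hB he hP hn hn' hnn huv hufib (Ne.symm hne)
  obtain ⟨ε, hε⟩ := exists_over hP
  have hO1 : Over (G.del e) π f1 i := by
    refine ⟨hf1, ?_⟩
    show (π (G.s f1) = src i ∧ π (G.t f1) = tgt i) ∨ (π (G.s f1) = tgt i ∧ π (G.t f1) = src i)
    rcases e1 with ⟨c1, c2⟩ | ⟨c1, c2⟩ <;> rcases hin with ⟨a1, a2⟩ | ⟨a1, a2⟩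
    · exact Or.inl ⟨by rw [c1, pa, a1], by rw [c2, pb, a2]⟩
    · exact Or.inr ⟨by rw [c1, pa, a2], by rw [c2, pb, a1]⟩
    · exact Or.inr ⟨by rw [c2, pb, a2], by rw [c1, pa, a1]⟩
    · exact Or.inl ⟨by rw [c2, pb, a1], by rw [c1, pa, a2]⟩
  have hO2 : Over (G.del e) π f2 j := by
    refine ⟨hf2, ?_⟩
    show (π (G.s f2) = src j ∧ π (G.t f2) = tgt j) ∨ (π (G.s f2) = tgt j ∧ π (G.t f2) = src j)
    rcases e2 with ⟨c1, c2⟩ | ⟨c1, c2⟩ <;> rcases hjn with ⟨a1, a2⟩ | ⟨a1, a2⟩
    · exact Or.inl ⟨by rw [c1, pa', a1], by rw [c2, pb', a2]⟩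
    · exact Or.inr ⟨by rw [c1, pa', a2], by rw [c2, pb', a1]⟩
    · exact Or.inr ⟨by rw [c2, pb', a2], by rw [c1, pa', a1]⟩
    · exact Or.inl ⟨by rw [c2, pb', a1], by rw [c1, pa', a2]⟩
  have hx1 : ∀ x, (G.s f1 = x ∨ G.t f1 = x) → π x = π u → x = a := by
    intro x hx hpx
    rcases e1 with ⟨c1, c2⟩ | ⟨c1, c2⟩
    · rcases hx with h | h
      · rw [← h, c1]
      · rw [← h, c2, pb] at hpx
        exact absurd hpx hnp
    · rcases hx with h | h
      · rw [← h, c2, pb] at hpx
        exact absurd hpx hnp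
      · rw [← h, c1]
  have hx2 : ∀ x, (G.s f2 = x ∨ G.t f2 = x) → π x = π u → x = a' := by
    intro x hx hpx
    rcases e2 with ⟨c1, c2⟩ | ⟨c1, c2⟩
    · rcases hx with h | h
      · rw [← h, c1]
      · rw [← h, c2, pb'] at hpx
        exact absurd hpx hnp'
    · rcases hx with h | h
      · rw [← h, c2, pb'] at hpx
        exact absurd hpx hnp'
      · rw [← h, c1]
  have hfi : (Function.update (Function.update ε i f1) j f2) i = f1 := by
    rw [Function.update_of_ne hij, Function.update_self]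
  have hfj : (Function.update (Function.update ε i f1) j f2) j = f2 := Function.update_self ..
  have hfO : ∀ k, Over (G.del e) π ((Function.update (Function.update ε i f1) j f2) k) k := by
    intro k
    by_cases hkj : k = j
    · subst hkj
      rw [hfj]
      exact hO2
    · by_cases hki : k = i
      · subst hki
        rw [hfi]
        exact hO1
      · rw [Function.update_of_ne hkj, Function.update_of_ne hki]
        exact hε k
  refine realize hB he hP ?_ (D := D) (f := Function.update (Function.update ε i f1) j f2)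
    (fun k _ => hfO k) ?_ ?_
  · rcases huv with ⟨h1, h2⟩ | ⟨h1, h2⟩
    · rw [h1, h2]
      exact hne
    · rw [h1, h2]
      exact hne.symm
  · intro k hk l hl hkl x hx hx'
    obtain ⟨h1, h2⟩ := share_end (G.del e) (hfO k) (hfO l) (x := x) hx hx'
    have hpx : π x = π u := by
      by_contra hpx
      have h3 := hD (π x)
      rw [if_neg hpx] at h3
      have h4 : ({k, l} : Finset PE) ⊆ D.filter (fun i => src i = π x ∨ tgt i = π x) := by
        intro t ht
        rw [Finset.mem_insert, Finset.mem_singleton] at ht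
        rcases ht with rfl | rfl
        · exact Finset.mem_filter.2 ⟨hk, h1⟩
        · exact Finset.mem_filter.2 ⟨hl, h2⟩
      have h5 := Finset.card_le_card h4
      rw [Finset.card_pair hkl] at h5
      have h6 : pdeg D (π x) = (D.filter (fun i => src i = π x ∨ tgt i = π x)).card := rfl
      rw [← h6, h3] at h5
      split_ifs at h5 <;> omega
    rw [hpx] at h1 h2
    have hk' : k ∈ D.filter (fun i => src i = π u ∨ tgt i = π u) := Finset.mem_filter.2 ⟨hk, h1⟩
    have hl' : l ∈ D.filter (fun i => src i = π u ∨ tgt i = π u) := Finset.mem_filter.2 ⟨hl, h2⟩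
    rw [hset, Finset.mem_insert, Finset.mem_singleton] at hk' hl'
    rcases hk' with rfl | rfl <;> rcases hl' with rfl | rfl
    · exact hkl rfl
    · rw [hfi] at hx
      rw [hfj] at hx'
      exact haa ((hx1 x hx hpx).symm.trans (hx2 x hx' hpx))
    · rw [hfi] at hx'
      rw [hfj] at hx
      exact haa ((hx1 x hx' hpx).symm.trans (hx2 x hx hpx))
    · exact hkl rfl
  · intro r
    rw [hD r]
    rcases huv with ⟨h1, h2⟩ | ⟨h1, h2⟩
    · rw [h1, h2, if_neg hu, if_pos hv]
    · rw [h1, h2, if_neg hu, if_pos hv]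
      by_cases c1 : r = π u
      · rw [if_pos c1, if_neg (fun h => hne (c1.symm.trans h)), if_pos c1]
      · rw [if_neg c1, if_neg c1]

variable {G} in
/-- Exactly one end of `e` is in `A`, different fibres: impossible.
Proof: let `u` be the end not in `A`, `p = π u`, `q = π v`.  `pat_BA` gives `D`, `D'` (degree 2 at `p`, 0 at
`q`).  For such a pattern `D` let `i ≠ j` be its two edges at `p`, over `n`, `n'`; `full` gives edges `f_i`,
`f_j` over them with different ends in `fib p`; take these for `i`, `j` and the default edges otherwise: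
pairwise disjoint ends by `share_end`.  `realize`, `chi_value` as in `no_AA`. -/
theorem no_BA (hB : G.Brick) {e : E} (he : e ∈ G.F) {π : V → PV} {A : Finset V} {y : V → QZ}
    {χ : E → QZ} (hP : (G.del e).PS π A) (hC : (G.del e).PC π y χ) (hk : G.Kills χ)
    (hne : π (G.s e) ≠ π (G.t e)) (h : ¬ (G.s e ∈ A ↔ G.t e ∈ A)) : False := by
  obtain ⟨u, v, huv, hu, hv⟩ : ∃ u v, ((G.s e = u ∧ G.t e = v) ∨ (G.t e = u ∧ G.s e = v)) ∧
      u ∉ A ∧ v ∈ A := by
    by_cases hs : G.s e ∈ A
    · refine ⟨G.t e, G.s e, Or.inr ⟨rfl, rfl⟩, fun ht => h ⟨fun _ => ht, fun _ => hs⟩, hs⟩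
    · refine ⟨G.s e, G.t e, Or.inl ⟨rfl, rfl⟩, hs, ?_⟩
      by_contra ht
      exact h ⟨fun x => absurd x hs, fun x => absurd x ht⟩
  have hne' : π u ≠ π v := by
    rcases huv with ⟨h1, h2⟩ | ⟨h1, h2⟩
    · rw [← h1, ← h2]
      exact hne
    · rw [← h1, ← h2]
      exact hne.symm
  obtain ⟨D, D', hD, hD', hodd⟩ := pat_BA (π u) (π v) hne'
  obtain ⟨N, hN, heN, hsum⟩ := f7b_real hB he hP huv hu hv hne' hD
  obtain ⟨N', hN', heN', hsum'⟩ := f7b_real hB he hP huv hu hv hne' hD'
  have h1 := chi_value G hC hN heN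
  have h2 := chi_value G hC hN' heN'
  rw [hk N hN, hsum] at h1
  rw [hk N' hN', hsum'] at h2
  exact smul_half_ne hodd (add_left_cancel (h1.symm.trans h2))

end MG
end ML
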