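import Pool.Agent.ML.F5b
import Pool.Agent.ML.F4

/-!
# ML-F8: both ends of e outside A, nonadjacent fibres (step 4.5)
-/

set_option autoImplicit false
set_option linter.unusedSectionVars false
set_option linter.unusedFintypeInType false
set_option linter.unusedVariables false

namespace ML
namespace MG

variable {V E : Type} [Fintype V] [Fintype E] [DecidableEq V] [DecidableEq E] (G : MG V E)

theorem f8_other {i : PE} {p : PV} (h : src i = p ∨ tgt i = p) :
    ∃ n, padj p n = true ∧ ((src i = p ∧ tgt i = n) ∨ (src i = n ∧ tgt i = p)) := by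
  rcases h with h | h
  · exact ⟨tgt i, by rw [← h]; exact padj_src_tgt i, Or.inl ⟨h, rfl⟩⟩
  · exact ⟨src i, by rw [← h, padj_comm]; exact padj_src_tgt i, Or.inr ⟨rfl, h⟩⟩

variable {G} in
theorem f8_over {e f : E} {π : V → PV} {a b : V} {p n : PV} {i : PE}
    (hf : f ∈ (G.del e).F) (hab : (G.s f = a ∧ G.t f = b) ∨ (G.t f = a ∧ G.s f = b))
    (ha : π a = p) (hb : π b = n) (hi : (src i = p ∧ tgt i = n) ∨ (src i = n ∧ tgt i = p)) :
    Over (G.del e) π f i := by
  refine ⟨hf, ?_⟩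
  show (π (G.s f) = src i ∧ π (G.t f) = tgt i) ∨ (π (G.s f) = tgt i ∧ π (G.t f) = src i)
  rcases hab with ⟨h1, h2⟩ | ⟨h1, h2⟩ <;> rcases hi with ⟨h3, h4⟩ | ⟨h3, h4⟩
  · left; rw [h1, h2, h3, h4]; exact ⟨ha, hb⟩
  · right; rw [h1, h2, h3, h4]; exact ⟨ha, hb⟩
  · right; rw [h1, h2, h3, h4]; exact ⟨hb, ha⟩
  · left; rw [h1, h2, h3, h4]; exact ⟨hb, ha⟩

variable {G} in
/-- two edges at one fibre with different ends -/
theorem f8_at (hB : G.Brick) {e : E} (he : e ∈ G.F) {π : V → PV} {A : Finset V}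
    (hP : (G.del e).PS π A) {p : PV} {u v : V}
    (huv : (G.s e = u ∧ G.t e = v) ∨ (G.t e = u ∧ G.s e = v)) (hu : u ∈ G.fib π p \ A)
    (hv : π v ≠ p) {i1 i2 : PE} (h12 : i1 ≠ i2) (h1 : src i1 = p ∨ tgt i1 = p)
    (h2 : src i2 = p ∨ tgt i2 = p) :
    ∃ f1 f2 a1 a2, Over (G.del e) π f1 i1 ∧ Over (G.del e) π f2 i2 ∧ a1 ≠ a2 ∧
      (∀ x, π x = p → (G.s f1 = x ∨ G.t f1 = x) → x = a1) ∧
      (∀ x, π x = p → (G.s f2 = x ∨ G.t f2 = x) → x = a2) := by
  obtain ⟨n, hn, hi1⟩ := f8_other h1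
  obtain ⟨n', hn', hi2⟩ := f8_other h2
  have hnn : n ≠ n' := by
    rintro rfl
    apply h12
    apply pe_unique
    rcases hi1 with ⟨k1, k2⟩ | ⟨k1, k2⟩ <;> rcases hi2 with ⟨k3, k4⟩ | ⟨k3, k4⟩
    · left; rw [k1, k2, k3, k4]; exact ⟨rfl, rfl⟩
    · right; rw [k1, k2, k3, k4]; exact ⟨rfl, rfl⟩
    · right; rw [k1, k2, k3, k4]; exact ⟨rfl, rfl⟩
    · left; rw [k1, k2, k3, k4]; exact ⟨rfl, rfl⟩
  have hpn : ∀ n, padj p n = true → n ≠ p := by
    rintro n hn rfl
    rw [padj_self] at hn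
    exact Bool.noConfusion hn
  obtain ⟨f, hf, f', hf', a, a', b, b', hab, hab', ha, hb, ha', hb', haa⟩ :=
    full hB he hP hn hn' hnn huv hu hv
  refine ⟨f, f', a, a', f8_over hf hab ha hb hi1, f8_over hf' hab' ha' hb' hi2, haa, ?_, ?_⟩
  · intro x hx hfx
    by_contra hne
    have hxb : x = b := by
      rcases hab with ⟨k1, k2⟩ | ⟨k1, k2⟩ <;> rcases hfx with k3 | k3
      · exact absurd (k3.symm.trans k1) hne
      · exact k3.symm.trans k2
      · exact k3.symm.trans k2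
      · exact absurd (k3.symm.trans k1) hne
    exact hpn n hn (by rw [← hb, ← hxb, hx])
  · intro x hx hfx
    by_contra hne
    have hxb : x = b' := by
      rcases hab' with ⟨k1, k2⟩ | ⟨k1, k2⟩ <;> rcases hfx with k3 | k3
      · exact absurd (k3.symm.trans k1) hne
      · exact k3.symm.trans k2
      · exact k3.symm.trans k2
      · exact absurd (k3.symm.trans k1) hne
    exact hpn n' hn' (by rw [← hb', ← hxb, hx])

theorem f8_two {D : Finset PE} {p : PV} (h : pdeg D p = 2) :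
    ∃ i1 i2, i1 ≠ i2 ∧ i1 ∈ D ∧ i2 ∈ D ∧ (src i1 = p ∨ tgt i1 = p) ∧ (src i2 = p ∨ tgt i2 = p) ∧
      ∀ i ∈ D, (src i = p ∨ tgt i = p) → i = i1 ∨ i = i2 := by
  obtain ⟨i1, i2, h12, hs⟩ := Finset.card_eq_two.1 h
  have m1 : i1 ∈ D.filter (fun i => src i = p ∨ tgt i = p) := by rw [hs]; simp
  have m2 : i2 ∈ D.filter (fun i => src i = p ∨ tgt i = p) := by rw [hs]; simp
  rw [Finset.mem_filter] at m1 m2
  refine ⟨i1, i2, h12, m1.1, m2.1, m1.2, m2.2, fun i hi hp => ?_⟩
  have m : i ∈ D.filter (fun i => src i = p ∨ tgt i = p) := Finset.mem_filter.2 ⟨hi, hp⟩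
  rw [hs] at m
  simpa using m

theorem f8_one {D : Finset PE} {r : PV} (h : pdeg D r = 1) {i j : PE} (hi : i ∈ D) (hj : j ∈ D)
    (h1 : src i = r ∨ tgt i = r) (h2 : src j = r ∨ tgt j = r) : i = j := by
  have h3 : (D.filter (fun i => src i = r ∨ tgt i = r)).card ≤ 1 := h.le
  exact Finset.card_le_one.1 h3 i (Finset.mem_filter.2 ⟨hi, h1⟩) j (Finset.mem_filter.2 ⟨hj, h2⟩)

variable {G} in
theorem f8_real (hB : G.Brick) {e : E} (he : e ∈ G.F) {π : V → PV} {A : Finset V}
    (hP : (G.del e).PS π A) (hne : π (G.s e) ≠ π (G.t e)) (hs : G.s e ∉ A) (ht : G.t e ∉ A)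
    (hadj : padj (π (G.s e)) (π (G.t e)) = false) {D : Finset PE}
    (hdeg : ∀ r, pdeg D r = if r = π (G.s e) ∨ r = π (G.t e) then 2 else 1) :
    ∃ N, G.IsPM N ∧ e ∈ N ∧
      ∑ g ∈ N.erase e, och (π (G.s g)) (π (G.t g)) = pout D • half := by
  obtain ⟨i1, i2, h12, m1, m2, e1, e2, hp⟩ := f8_two (D := D) (p := π (G.s e))
    (by rw [hdeg, if_pos (Or.inl rfl)])
  obtain ⟨j1, j2, hj12, n1, n2, e3, e4, hq⟩ := f8_two (D := D) (p := π (G.t e))
    (by rw [hdeg, if_pos (Or.inr rfl)])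
  -- edges at `p` are not edges at `q`
  have hno : ∀ i : PE, (src i = π (G.s e) ∨ tgt i = π (G.s e)) →
      (src i = π (G.t e) ∨ tgt i = π (G.t e)) → False := by
    intro i k1 k2
    have k3 : padj (π (G.s e)) (π (G.t e)) = true := by
      rcases k1 with k1 | k1 <;> rcases k2 with k2 | k2
      · exact absurd (k1.symm.trans k2) hne
      · rw [← k1, ← k2]; exact padj_src_tgt i
      · rw [← k1, ← k2, padj_comm]; exact padj_src_tgt i
      · exact absurd (k1.symm.trans k2) hne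
    rw [hadj] at k3
    exact Bool.noConfusion k3
  obtain ⟨f1, f2, a1, a2, o1, o2, ha, hx1, hx2⟩ := f8_at hB he hP (u := G.s e) (v := G.t e)
    (Or.inl ⟨rfl, rfl⟩) (p := π (G.s e))
    (Finset.mem_sdiff.2 ⟨Finset.mem_filter.2 ⟨G.hs e he, rfl⟩, hs⟩) hne.symm h12 e1 e2
  obtain ⟨g1, g2, b1, b2, o3, o4, hb, hx3, hx4⟩ := f8_at hB he hP (u := G.t e) (v := G.s e)
    (Or.inr ⟨rfl, rfl⟩) (p := π (G.t e))
    (Finset.mem_sdiff.2 ⟨Finset.mem_filter.2 ⟨G.ht e he, rfl⟩, ht⟩) hne hj12 e3 e4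
  obtain ⟨ε, hε⟩ := exists_over hP
  have q11 : j1 ≠ i1 := by rintro rfl; exact hno _ e1 e3
  have q12 : j1 ≠ i2 := by rintro rfl; exact hno _ e2 e3
  have q21 : j2 ≠ i1 := by rintro rfl; exact hno _ e1 e4
  have q22 : j2 ≠ i2 := by rintro rfl; exact hno _ e2 e4
  let f : PE → E := fun i => if i = i1 then f1 else if i = i2 then f2 else if i = j1 then g1 else
    if i = j2 then g2 else ε i
  have v1 : f i1 = f1 := if_pos rfl
  have v2 : f i2 = f2 := by
    show (if i2 = i1 then f1 else if i2 = i2 then f2 else _) = f2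
    rw [if_neg h12.symm, if_pos rfl]
  have v3 : f j1 = g1 := by
    show (if j1 = i1 then f1 else if j1 = i2 then f2 else if j1 = j1 then g1 else _) = g1
    rw [if_neg q11, if_neg q12, if_pos rfl]
  have v4 : f j2 = g2 := by
    show (if j2 = i1 then f1 else if j2 = i2 then f2 else if j2 = j1 then g1 else
      if j2 = j2 then g2 else _) = g2
    rw [if_neg q21, if_neg q22, if_neg hj12.symm, if_pos rfl]
  have hf : ∀ i ∈ D, Over (G.del e) π (f i) i := by
    intro i _
    by_cases c1 : i = i1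
    · rw [c1, v1]; exact o1
    by_cases c2 : i = i2
    · rw [c2, v2]; exact o2
    by_cases c3 : i = j1
    · rw [c3, v3]; exact o3
    by_cases c4 : i = j2
    · rw [c4, v4]; exact o4
    have v5 : f i = ε i := by
      show (if i = i1 then f1 else if i = i2 then f2 else if i = j1 then g1 else
        if i = j2 then g2 else ε i) = ε i
      rw [if_neg c1, if_neg c2, if_neg c3, if_neg c4]
    rw [v5]
    exact hε i
  refine realize hB he hP hne hf ?_ ?_
  · intro i hi j hj hij x hxi hxj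
    obtain ⟨s1, s2⟩ := share_end (G := G.del e) (hf i hi) (hf j hj) (x := x) hxi hxj
    by_cases c1 : π x = π (G.s e)
    · rw [c1] at s1 s2
      rcases hp i hi s1 with rfl | rfl <;> rcases hp j hj s2 with rfl | rfl
      · exact hij rfl
      · rw [v1] at hxi; rw [v2] at hxj
        exact ha ((hx1 x c1 hxi).symm.trans (hx2 x c1 hxj))
      · rw [v2] at hxi; rw [v1] at hxj
        exact ha ((hx1 x c1 hxj).symm.trans (hx2 x c1 hxi))
      · exact hij rfl
    by_cases c2 : π x = π (G.t e)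
    · rw [c2] at s1 s2
      rcases hq i hi s1 with rfl | rfl <;> rcases hq j hj s2 with rfl | rfl
      · exact hij rfl
      · rw [v3] at hxi; rw [v4] at hxj
        exact hb ((hx3 x c2 hxi).symm.trans (hx4 x c2 hxj))
      · rw [v4] at hxi; rw [v3] at hxj
        exact hb ((hx3 x c2 hxj).symm.trans (hx4 x c2 hxi))
      · exact hij rfl
    · have h1 : pdeg D (π x) = 1 := by
        rw [hdeg, if_neg]
        rintro (h | h)
        · exact c1 h
        · exact c2 h
      exact hij (f8_one h1 hi hj s1 s2)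
  · intro r
    rw [hdeg, if_neg hs, if_neg ht]
    by_cases c1 : r = π (G.s e)
    · rw [if_pos (Or.inl c1), if_pos c1]
    · by_cases c2 : r = π (G.t e)
      · rw [if_pos (Or.inr c2), if_neg c1, if_pos c2]
      · rw [if_neg c1, if_neg c2, if_neg]
        rintro (h | h)
        · exact c1 h
        · exact c2 h

variable {G} in
theorem f8_false {e : E} {π : V → PV} {y : V → QZ} {χ : E → QZ} (hC : (G.del e).PC π y χ)
    (hk : G.Kills χ) {D D' : Finset PE} (hodd : Odd (pout D + pout D'))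
    (h : ∃ N, G.IsPM N ∧ e ∈ N ∧ ∑ g ∈ N.erase e, och (π (G.s g)) (π (G.t g)) = pout D • half)
    (h' : ∃ N, G.IsPM N ∧ e ∈ N ∧
      ∑ g ∈ N.erase e, och (π (G.s g)) (π (G.t g)) = pout D' • half) : False := by
  obtain ⟨N, hN, heN, hs⟩ := h
  obtain ⟨N', hN', heN', hs'⟩ := h'
  have k1 := chi_value G hC hN heN
  have k2 := chi_value G hC hN' heN'
  rw [hk N hN, hs] at k1
  rw [hk N' hN', hs'] at k2
  exact smul_half_ne hodd (add_left_cancel (k1.symm.trans k2))

variable {G} in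
/-- Both ends outside `A`, nonadjacent different fibres: impossible.
Proof: as `no_BA`, with `pat_BB` and `full` at both fibres (the edges of `D` at `p` and at `q` are
different edges of the Petersen graph, since `p`, `q` are not adjacent). -/
theorem no_BB (hB : G.Brick) {e : E} (he : e ∈ G.F) {π : V → PV} {A : Finset V} {y : V → QZ}
    {χ : E → QZ} (hP : (G.del e).PS π A) (hC : (G.del e).PC π y χ) (hk : G.Kills χ)
    (hne : π (G.s e) ≠ π (G.t e)) (hs : G.s e ∉ A) (ht : G.t e ∉ A)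
    (hadj : padj (π (G.s e)) (π (G.t e)) = false) : False := by
  obtain ⟨D, D', hD, hD', hodd⟩ := pat_BB _ _ hne hadj
  exact f8_false hC hk hodd (f8_real hB he hP hne hs ht hadj hD)
    (f8_real hB he hP hne hs ht hadj hD')


end MG
end ML
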