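import Pool.Agent.ML.F5b
import Pool.Agent.ML.F4

/-!
# ML-F8b: both ends of e outside A, adjacent fibres (step 4.5)
-/

set_option autoImplicit false
set_option linter.unusedSectionVars false
set_option linter.unusedFintypeInType false
set_option linter.unusedVariables false

namespace ML
namespace MG

variable {V E : Type} [Fintype V] [Fintype E] [DecidableEq V] [DecidableEq E] (G : MG V E)

theorem f8b_other {i : PE} {p : PV} (h : src i = p ∨ tgt i = p) :
    ∃ n, padj p n = true ∧ ((src i = p ∧ tgt i = n) ∨ (src i = n ∧ tgt i = p)) := by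
  rcases h with h | h
  · exact ⟨tgt i, by rw [← h]; exact padj_src_tgt i, Or.inl ⟨h, rfl⟩⟩
  · exact ⟨src i, by rw [← h, padj_comm]; exact padj_src_tgt i, Or.inr ⟨rfl, h⟩⟩

variable {G} in
theorem f8b_over {e f : E} {π : V → PV} {a b : V} {p n : PV} {i : PE}
    (hf : f ∈ (G.del e).F) (hab : (G.s f = a ∧ G.t f = b) ∨ (G.t f = a ∧ G.s f = b))
    (ha : π a = p) (hb : π b = n) (hi : (src i = p ∧ tgt i = n) ∨ (src i = n ∧ tgt i = p)) :
    Over (G.del e) π f i := by
  refine ⟨hf, ?_⟩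
  show (π (G.s f) = src i ∧ π (G.t f) = tgt i) ∨ (π (G.s f) = tgt i ∧ π (G.t f) = src i)
  rcases hab with ⟨h1, h2⟩ | ⟨h1, h2⟩ <;> rcases hi with ⟨h3, h4⟩ | ⟨h3, h4⟩
  · left; rw [h1, h2, h3, h4]; exact ⟨ha, hb⟩
  · right; rw [h1, h2, h3, h4]; exact ⟨ha, hb⟩
  · right; rw [h1, h2, h3, h4]; exact ⟨hb, ha⟩
  · left; rw [h1, h2, h3, h4]; exact ⟨hb, ha⟩

variable {G} in
/-- two edges at one fibre with different ends -/
theorem f8b_at (hB : G.Brick) {e : E} (he : e ∈ G.F) {π : V → PV} {A : Finset V}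
    (hP : (G.del e).PS π A) {p : PV} {u v : V}
    (huv : (G.s e = u ∧ G.t e = v) ∨ (G.t e = u ∧ G.s e = v)) (hu : u ∈ G.fib π p \ A)
    (hv : π v ≠ p) {i1 i2 : PE} (h12 : i1 ≠ i2) (h1 : src i1 = p ∨ tgt i1 = p)
    (h2 : src i2 = p ∨ tgt i2 = p) :
    ∃ f1 f2 a1 a2, Over (G.del e) π f1 i1 ∧ Over (G.del e) π f2 i2 ∧ a1 ≠ a2 ∧
      (∀ x, π x = p → (G.s f1 = x ∨ G.t f1 = x) → x = a1) ∧
      (∀ x, π x = p → (G.s f2 = x ∨ G.t f2 = x) → x = a2) := by
  obtain ⟨n, hn, hi1⟩ := f8b_other h1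
  obtain ⟨n', hn', hi2⟩ := f8b_other h2
  have hnn : n ≠ n' := by
    rintro rfl
    apply h12
    apply pe_unique
    rcases hi1 with ⟨k1, k2⟩ | ⟨k1, k2⟩ <;> rcases hi2 with ⟨k3, k4⟩ | ⟨k3, k4⟩
    · left; rw [k1, k2, k3, k4]; exact ⟨rfl, rfl⟩
    · right; rw [k1, k2, k3, k4]; exact ⟨rfl, rfl⟩
    · right; rw [k1, k2, k3, k4]; exact ⟨rfl, rfl⟩
    · left; rw [k1, k2, k3, k4]; exact ⟨rfl, rfl⟩
  have hpn : ∀ n, padj p n = true → n ≠ p := by
    rintro n hn rfl
    rw [padj_self] at hn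
    exact Bool.noConfusion hn
  obtain ⟨f, hf, f', hf', a, a', b, b', hab, hab', ha, hb, ha', hb', haa⟩ :=
    full hB he hP hn hn' hnn huv hu hv
  refine ⟨f, f', a, a', f8b_over hf hab ha hb hi1, f8b_over hf' hab' ha' hb' hi2, haa, ?_, ?_⟩
  · intro x hx hfx
    by_contra hne
    have hxb : x = b := by
      rcases hab with ⟨k1, k2⟩ | ⟨k1, k2⟩ <;> rcases hfx with k3 | k3
      · exact absurd (k3.symm.trans k1) hne
      · exact k3.symm.trans k2
      · exact k3.symm.trans k2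
      · exact absurd (k3.symm.trans k1) hne
    exact hpn n hn (by rw [← hb, ← hxb, hx])
  · intro x hx hfx
    by_contra hne
    have hxb : x = b' := by
      rcases hab' with ⟨k1, k2⟩ | ⟨k1, k2⟩ <;> rcases hfx with k3 | k3
      · exact absurd (k3.symm.trans k1) hne
      · exact k3.symm.trans k2
      · exact k3.symm.trans k2
      · exact absurd (k3.symm.trans k1) hne
    exact hpn n' hn' (by rw [← hb', ← hxb, hx])

theorem f8b_two {D : Finset PE} {p : PV} (h : pdeg D p = 2) :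
    ∃ i1 i2, i1 ≠ i2 ∧ i1 ∈ D ∧ i2 ∈ D ∧ (src i1 = p ∨ tgt i1 = p) ∧ (src i2 = p ∨ tgt i2 = p) ∧
      ∀ i ∈ D, (src i = p ∨ tgt i = p) → i = i1 ∨ i = i2 := by
  obtain ⟨i1, i2, h12, hs⟩ := Finset.card_eq_two.1 h
  have m1 : i1 ∈ D.filter (fun i => src i = p ∨ tgt i = p) := by rw [hs]; simp
  have m2 : i2 ∈ D.filter (fun i => src i = p ∨ tgt i = p) := by rw [hs]; simp
  rw [Finset.mem_filter] at m1 m2
  refine ⟨i1, i2, h12, m1.1, m2.1, m1.2, m2.2, fun i hi hp => ?_⟩
  have m : i ∈ D.filter (fun i => src i = p ∨ tgt i = p) := Finset.mem_filter.2 ⟨hi, hp⟩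
  rw [hs] at m
  simpa using m

theorem f8b_one {D : Finset PE} {r : PV} (h : pdeg D r = 1) {i j : PE} (hi : i ∈ D) (hj : j ∈ D)
    (h1 : src i = r ∨ tgt i = r) (h2 : src j = r ∨ tgt j = r) : i = j := by
  have h3 : (D.filter (fun i => src i = r ∨ tgt i = r)).card ≤ 1 := h.le
  exact Finset.card_le_one.1 h3 i (Finset.mem_filter.2 ⟨hi, h1⟩) j (Finset.mem_filter.2 ⟨hj, h2⟩)

variable {G} in
theorem f8b_false {e : E} {π : V → PV} {y : V → QZ} {χ : E → QZ} (hC : (G.del e).PC π y χ)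
    (hk : G.Kills χ) {D D' : Finset PE} (hodd : Odd (pout D + pout D'))
    (h : ∃ N, G.IsPM N ∧ e ∈ N ∧ ∑ g ∈ N.erase e, och (π (G.s g)) (π (G.t g)) = pout D • half)
    (h' : ∃ N, G.IsPM N ∧ e ∈ N ∧
      ∑ g ∈ N.erase e, och (π (G.s g)) (π (G.t g)) = pout D' • half) : False := by
  obtain ⟨N, hN, heN, hs⟩ := h
  obtain ⟨N', hN', heN', hs'⟩ := h'
  have k1 := chi_value G hC hN heN
  have k2 := chi_value G hC hN' heN'
  rw [hk N hN, hs] at k1
  rw [hk N' hN', hs'] at k2
  exact smul_half_ne hodd (add_left_cancel (k1.symm.trans k2))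

variable {G} in
/-- realization from disjointness over the two special fibres -/
theorem f8b_fin (hB : G.Brick) {e : E} (he : e ∈ G.F) {π : V → PV} {A : Finset V}
    (hP : (G.del e).PS π A) (hne : π (G.s e) ≠ π (G.t e)) (hs : G.s e ∉ A) (ht : G.t e ∉ A)
    {D : Finset PE} (hdeg : ∀ r, pdeg D r = if r = π (G.s e) ∨ r = π (G.t e) then 2 else 1)
    {f : PE → E} (hf : ∀ i ∈ D, Over (G.del e) π (f i) i)
    (hd : ∀ i ∈ D, ∀ j ∈ D, i ≠ j → ∀ x, (π x = π (G.s e) ∨ π x = π (G.t e)) →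
      (G.s (f i) = x ∨ G.t (f i) = x) → ¬ (G.s (f j) = x ∨ G.t (f j) = x)) :
    ∃ N, G.IsPM N ∧ e ∈ N ∧
      ∑ g ∈ N.erase e, och (π (G.s g)) (π (G.t g)) = pout D • half := by
  refine realize hB he hP hne hf ?_ ?_
  · intro i hi j hj hij x hxi hxj
    by_cases c : π x = π (G.s e) ∨ π x = π (G.t e)
    · exact hd i hi j hj hij x c hxi hxj
    · obtain ⟨s1, s2⟩ := share_end (G := G.del e) (hf i hi) (hf j hj) (x := x) hxi hxj
      have h1 : pdeg D (π x) = 1 := by rw [hdeg, if_neg c]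
      exact hij (f8b_one h1 hi hj s1 s2)
  · intro r
    rw [hdeg, if_neg hs, if_neg ht]
    by_cases c1 : r = π (G.s e)
    · rw [if_pos (Or.inl c1), if_pos c1]
    · by_cases c2 : r = π (G.t e)
      · rw [if_pos (Or.inr c2), if_neg c1, if_pos c2]
      · rw [if_neg c1, if_neg c2, if_neg]
        rintro (h | h)
        · exact c1 h
        · exact c2 h

/-- an edge over both ends of `k` is `k` -/
theorem f8b_uniq {k i : PE} (h1 : src i = src k ∨ tgt i = src k) (h2 : src i = tgt k ∨ tgt i = tgt k) :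
    i = k := by
  have hk : src k ≠ tgt k := by
    intro h
    have h3 := padj_src_tgt k
    rw [h, padj_self] at h3
    exact Bool.noConfusion h3
  apply pe_unique
  rcases h1 with h1 | h1 <;> rcases h2 with h2 | h2
  · exact absurd (h1.symm.trans h2) hk
  · exact Or.inl ⟨h1, h2⟩
  · exact Or.inr ⟨h2, h1⟩
  · exact absurd (h1.symm.trans h2) hk

/-- an edge over `k` has at most one end over each end of `k` -/
theorem f8b_ends {π : V → PV} {f : E} {k : PE} (h : Over G π f k) :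
    ∃ a b, (∀ x, π x = src k → (G.s f = x ∨ G.t f = x) → x = a) ∧
      ∀ x, π x = tgt k → (G.s f = x ∨ G.t f = x) → x = b := by
  have hk : src k ≠ tgt k := by
    intro h
    have h3 := padj_src_tgt k
    rw [h, padj_self] at h3
    exact Bool.noConfusion h3
  rcases h.2 with ⟨h1, h2⟩ | ⟨h1, h2⟩
  · refine ⟨G.s f, G.t f, fun x hx hf => ?_, fun x hx hf => ?_⟩
    · rcases hf with hf | hf
      · exact hf.symm
      · rw [← hf, h2] at hx
        exact absurd hx.symm hk
    · rcases hf with hf | hf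
      · rw [← hf, h1] at hx
        exact absurd hx hk
      · exact hf.symm
  · refine ⟨G.t f, G.s f, fun x hx hf => ?_, fun x hx hf => ?_⟩
    · rcases hf with hf | hf
      · rw [← hf, h1] at hx
        exact absurd hx.symm hk
      · exact hf.symm
    · rcases hf with hf | hf
      · exact hf.symm
      · rw [← hf, h2] at hx
        exact absurd hx hk

variable {G} in
theorem f8b_main (hB : G.Brick) {e : E} (he : e ∈ G.F) {π : V → PV} {A : Finset V} {y : V → QZ}
    {χ : E → QZ} (hP : (G.del e).PS π A) (hC : (G.del e).PC π y χ) (hk : G.Kills χ)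
    (hs : G.s e ∉ A) (ht : G.t e ∉ A) {k : PE} {u v : V}
    (huv : (G.s e = u ∧ G.t e = v) ∨ (G.t e = u ∧ G.s e = v)) (hu : π u = src k)
    (hv : π v = tgt k) : False := by
  have hkn : src k ≠ tgt k := by
    intro h
    have h3 := padj_src_tgt k
    rw [h, padj_self] at h3
    exact Bool.noConfusion h3
  have huA : u ∉ A ∧ u ∈ G.U := by
    rcases huv with ⟨h1, h2⟩ | ⟨h1, h2⟩
    · rw [← h1]; exact ⟨hs, G.hs e he⟩
    · rw [← h1]; exact ⟨ht, G.ht e he⟩
  have hvA : v ∉ A ∧ v ∈ G.U := by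
    rcases huv with ⟨h1, h2⟩ | ⟨h1, h2⟩
    · rw [← h2]; exact ⟨ht, G.ht e he⟩
    · rw [← h2]; exact ⟨hs, G.hs e he⟩
  have hiff : ∀ r, (r = src k ∨ r = tgt k) ↔ (r = π (G.s e) ∨ r = π (G.t e)) := by
    intro r
    rcases huv with ⟨h1, h2⟩ | ⟨h1, h2⟩
    · rw [h1, h2, hu, hv]
    · rw [h1, h2, hu, hv, or_comm]
  have hne : π (G.s e) ≠ π (G.t e) := by
    rcases huv with ⟨h1, h2⟩ | ⟨h1, h2⟩
    · rw [h1, h2, hu, hv]; exact hkn
    · rw [h1, h2, hu, hv]; exact hkn.symm
  have hvu : (G.s e = v ∧ G.t e = u) ∨ (G.t e = v ∧ G.s e = u) := by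
    rcases huv with ⟨h1, h2⟩ | ⟨h1, h2⟩
    · exact Or.inr ⟨h2, h1⟩
    · exact Or.inl ⟨h2, h1⟩
  obtain ⟨D, hD, hkD, hpat⟩ := pat_BBadj k
  obtain ⟨i1, i2, h12, m1, m2, e1, e2, hp⟩ := f8b_two (D := D) (p := src k)
    (by rw [hD, if_pos (Or.inl rfl)])
  obtain ⟨j1, j2, hj12, n1, n2, e3, e4, hq⟩ := f8b_two (D := D) (p := tgt k)
    (by rw [hD, if_pos (Or.inr rfl)])
  have hD' : ∀ r, pdeg D r = if r = π (G.s e) ∨ r = π (G.t e) then 2 else 1 := by
    intro r
    rw [hD, if_congr (hiff r) rfl rfl]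
  have ki : ∀ i ∈ D, i ≠ k := by
    rintro i hi rfl
    exact hkD hi
  have hno : ∀ i : PE, i ≠ k → (src i = src k ∨ tgt i = src k) →
      (src i = tgt k ∨ tgt i = tgt k) → False := fun i hi k1 k2 => hi (f8b_uniq k1 k2)
  obtain ⟨f1, f2, a1, a2, o1, o2, ha, hx1, hx2⟩ := f8b_at hB he hP (u := u) (v := v) huv
    (p := src k) (Finset.mem_sdiff.2 ⟨Finset.mem_filter.2 ⟨huA.2, hu⟩, huA.1⟩)
    (by rw [hv]; exact hkn.symm) h12 e1 e2
  obtain ⟨g1, g2, b1, b2, o3, o4, hb, hx3, hx4⟩ := f8b_at hB he hP (u := v) (v := u) hvu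
    (p := tgt k) (Finset.mem_sdiff.2 ⟨Finset.mem_filter.2 ⟨hvA.2, hv⟩, hvA.1⟩)
    (by rw [hu]; exact hkn) hj12 e3 e4
  obtain ⟨ε, hε⟩ := exists_over hP
  have q11 : j1 ≠ i1 := by rintro rfl; exact hno _ (ki _ n1) e1 e3
  have q12 : j1 ≠ i2 := by rintro rfl; exact hno _ (ki _ n1) e2 e3
  have q21 : j2 ≠ i1 := by rintro rfl; exact hno _ (ki _ n2) e1 e4
  have q22 : j2 ≠ i2 := by rintro rfl; exact hno _ (ki _ n2) e2 e4
  -- the first pattern
  have R1 : ∃ N, G.IsPM N ∧ e ∈ N ∧
      ∑ g ∈ N.erase e, och (π (G.s g)) (π (G.t g)) = pout D • half := by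
    let f : PE → E := fun i => if i = i1 then f1 else if i = i2 then f2 else if i = j1 then g1 else
      if i = j2 then g2 else ε i
    have v1 : f i1 = f1 := if_pos rfl
    have v2 : f i2 = f2 := by
      show (if i2 = i1 then f1 else if i2 = i2 then f2 else _) = f2
      rw [if_neg h12.symm, if_pos rfl]
    have v3 : f j1 = g1 := by
      show (if j1 = i1 then f1 else if j1 = i2 then f2 else if j1 = j1 then g1 else _) = g1
      rw [if_neg q11, if_neg q12, if_pos rfl]
    have v4 : f j2 = g2 := by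
      show (if j2 = i1 then f1 else if j2 = i2 then f2 else if j2 = j1 then g1 else
        if j2 = j2 then g2 else _) = g2
      rw [if_neg q21, if_neg q22, if_neg hj12.symm, if_pos rfl]
    have hf : ∀ i ∈ D, Over (G.del e) π (f i) i := by
      intro i _
      by_cases c1 : i = i1
      · rw [c1, v1]; exact o1
      by_cases c2 : i = i2
      · rw [c2, v2]; exact o2
      by_cases c3 : i = j1
      · rw [c3, v3]; exact o3
      by_cases c4 : i = j2
      · rw [c4, v4]; exact o4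
      have v5 : f i = ε i := by
        show (if i = i1 then f1 else if i = i2 then f2 else if i = j1 then g1 else
          if i = j2 then g2 else ε i) = ε i
        rw [if_neg c1, if_neg c2, if_neg c3, if_neg c4]
      rw [v5]
      exact hε i
    refine f8b_fin hB he hP hne hs ht hD' hf ?_
    intro i hi j hj hij x hx hxi hxj
    obtain ⟨s1, s2⟩ := share_end (G := G.del e) (hf i hi) (hf j hj) (x := x) hxi hxj
    rcases (hiff _).2 hx with c1 | c2
    · rw [c1] at s1 s2
      rcases hp i hi s1 with rfl | rfl <;> rcases hp j hj s2 with rfl | rfl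
      · exact hij rfl
      · rw [v1] at hxi; rw [v2] at hxj
        exact ha ((hx1 x c1 hxi).symm.trans (hx2 x c1 hxj))
      · rw [v2] at hxi; rw [v1] at hxj
        exact ha ((hx1 x c1 hxj).symm.trans (hx2 x c1 hxi))
      · exact hij rfl
    · rw [c2] at s1 s2
      rcases hq i hi s1 with rfl | rfl <;> rcases hq j hj s2 with rfl | rfl
      · exact hij rfl
      · rw [v3] at hxi; rw [v4] at hxj
        exact hb ((hx3 x c2 hxi).symm.trans (hx4 x c2 hxj))
      · rw [v4] at hxi; rw [v3] at hxj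
        exact hb ((hx3 x c2 hxj).symm.trans (hx4 x c2 hxi))
      · exact hij rfl
  -- the edge over `k`
  obtain ⟨g, hg, hgk⟩ := hP.real _ _ (padj_src_tgt k)
  have og : Over (G.del e) π g k := ⟨hg, hgk⟩
  obtain ⟨a, b, hga, hgb⟩ := f8b_ends (G.del e) og
  obtain ⟨i, f0, a', hiD, hi1, of0, hfa, haa⟩ : ∃ i f0 a', i ∈ D ∧ (src i = src k ∨ tgt i = src k) ∧
      Over (G.del e) π f0 i ∧ (∀ x, π x = src k → (G.s f0 = x ∨ G.t f0 = x) → x = a') ∧ a ≠ a' := by
    by_cases c : a = a1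
    · exact ⟨i2, f2, a2, m2, e2, o2, hx2, by rw [c]; exact ha⟩
    · exact ⟨i1, f1, a1, m1, e1, o1, hx1, c⟩
  obtain ⟨j, g0, b', hjD, hj1, og0, hgb', hbb⟩ : ∃ j g0 b', j ∈ D ∧
      (src j = tgt k ∨ tgt j = tgt k) ∧ Over (G.del e) π g0 j ∧
      (∀ x, π x = tgt k → (G.s g0 = x ∨ G.t g0 = x) → x = b') ∧ b ≠ b' := by
    by_cases c : b = b1
    · exact ⟨j2, g2, b2, n2, e4, o4, hx4, by rw [c]; exact hb⟩
    · exact ⟨j1, g1, b1, n1, e3, o3, hx3, c⟩
  have hik := ki i hiD
  have hjk := ki j hjD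
  have hji : j ≠ i := by rintro rfl; exact hno _ hjk hi1 hj1
  obtain ⟨D2, hD2, hkD2, hiD2, hjD2, hodd⟩ := hpat i j hik hjk hi1 hj1
  have hD2' : ∀ r, pdeg D2 r = if r = π (G.s e) ∨ r = π (G.t e) then 2 else 1 := by
    intro r
    rw [hD2, if_congr (hiff r) rfl rfl]
  -- edges of `D2` at the two fibres
  have hp2 : ∀ l ∈ D2, (src l = src k ∨ tgt l = src k) → l = k ∨ l = i := by
    obtain ⟨l1, l2, hl, -, -, -, -, hl2⟩ := f8b_two (D := D2) (p := src k)
      (by rw [hD2, if_pos (Or.inl rfl)])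
    have c1 := hl2 k hkD2 (Or.inl rfl)
    have c2 := hl2 i hiD2 hi1
    intro l hlD hls
    have c3 := hl2 l hlD hls
    rcases c1 with c1 | c1 <;> rcases c2 with c2 | c2
    · exact absurd (c2.trans c1.symm) hik
    · rw [c1, c2]; exact c3
    · rw [c1, c2]; exact c3.symm
    · exact absurd (c2.trans c1.symm) hik
  have hq2 : ∀ l ∈ D2, (src l = tgt k ∨ tgt l = tgt k) → l = k ∨ l = j := by
    obtain ⟨l1, l2, hl, -, -, -, -, hl2⟩ := f8b_two (D := D2) (p := tgt k)
      (by rw [hD2, if_pos (Or.inr rfl)])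
    have c1 := hl2 k hkD2 (Or.inr rfl)
    have c2 := hl2 j hjD2 hj1
    intro l hlD hls
    have c3 := hl2 l hlD hls
    rcases c1 with c1 | c1 <;> rcases c2 with c2 | c2
    · exact absurd (c2.trans c1.symm) hjk
    · rw [c1, c2]; exact c3
    · rw [c1, c2]; exact c3.symm
    · exact absurd (c2.trans c1.symm) hjk
  -- the second pattern
  have R2 : ∃ N, G.IsPM N ∧ e ∈ N ∧
      ∑ g ∈ N.erase e, och (π (G.s g)) (π (G.t g)) = pout D2 • half := by
    let f : PE → E := fun l => if l = k then g else if l = i then f0 else if l = j then g0 else ε l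
    have v1 : f k = g := if_pos rfl
    have v2 : f i = f0 := by
      show (if i = k then g else if i = i then f0 else _) = f0
      rw [if_neg hik, if_pos rfl]
    have v3 : f j = g0 := by
      show (if j = k then g else if j = i then f0 else if j = j then g0 else _) = g0
      rw [if_neg hjk, if_neg hji, if_pos rfl]
    have hf : ∀ l ∈ D2, Over (G.del e) π (f l) l := by
      intro l _
      by_cases c1 : l = k
      · rw [c1, v1]; exact og
      by_cases c2 : l = i
      · rw [c2, v2]; exact of0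
      by_cases c3 : l = j
      · rw [c3, v3]; exact og0
      have v5 : f l = ε l := by
        show (if l = k then g else if l = i then f0 else if l = j then g0 else ε l) = ε l
        rw [if_neg c1, if_neg c2, if_neg c3]
      rw [v5]
      exact hε l
    refine f8b_fin hB he hP hne hs ht hD2' hf ?_
    intro l hl l' hl' hll x hx hxi hxj
    obtain ⟨s1, s2⟩ := share_end (G := G.del e) (hf l hl) (hf l' hl') (x := x) hxi hxj
    rcases (hiff _).2 hx with c1 | c2
    · rw [c1] at s1 s2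
      rcases hp2 l hl s1 with r1 | r1 <;> rcases hp2 l' hl' s2 with r2 | r2
      · exact hll (r1.trans r2.symm)
      · rw [r1, v1] at hxi; rw [r2, v2] at hxj
        exact haa ((hga x c1 hxi).symm.trans (hfa x c1 hxj))
      · rw [r1, v2] at hxi; rw [r2, v1] at hxj
        exact haa ((hga x c1 hxj).symm.trans (hfa x c1 hxi))
      · exact hll (r1.trans r2.symm)
    · rw [c2] at s1 s2
      rcases hq2 l hl s1 with r1 | r1 <;> rcases hq2 l' hl' s2 with r2 | r2
      · exact hll (r1.trans r2.symm)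
      · rw [r1, v1] at hxi; rw [r2, v3] at hxj
        exact hbb ((hgb x c2 hxi).symm.trans (hgb' x c2 hxj))
      · rw [r1, v3] at hxi; rw [r2, v1] at hxj
        exact hbb ((hgb x c2 hxj).symm.trans (hgb' x c2 hxi))
      · exact hll (r1.trans r2.symm)
  exact f8b_false hC hk hodd R1 R2

variable {G} in
/-- Both ends outside `A`, adjacent fibres: impossible.
Proof: let `k` be the edge of the Petersen graph over which `e` lies, `p = src k`, `q = tgt k` (one end of
`e` over each).  `pat_BBadj k` gives `D` without `k`, of degree 2 at `p`, `q`; let `i₁, i₂` be its edges at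
`p`, `j₁, j₂` its edges at `q` (all different from `k`).  `full` at `p` for the two other neighbours of `p`
gives edges over `i₁`, `i₂` with different ends `a₁ ≠ a₂` in `fib p`; `full` at `q` gives edges over `j₁`,
`j₂` with different ends `b₁ ≠ b₂` in `fib q`.  Together with the default edges they realize `D`.
Let `g` be an edge of `G.del e` over `k` (`PS.real`) with ends `a` over `p`, `b` over `q`.  Some
`a_r ≠ a` and some `b_t ≠ b`.  `pat_BBadj` gives `D'` containing `k`, `i_r`, `j_t`, with degree 2 at `p` and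
`q`: its edges at `p` are `k`, `i_r`, at `q` are `k`, `j_t`.  Take `g` over `k`, the edge with end `a_r` over
`i_r`, the edge with end `b_t` over `j_t`, default edges otherwise: `D'` is realized.  The parities differ:
contradiction as in `no_AA`. -/
theorem no_BBadj (hB : G.Brick) {e : E} (he : e ∈ G.F) {π : V → PV} {A : Finset V} {y : V → QZ}
    {χ : E → QZ} (hP : (G.del e).PS π A) (hC : (G.del e).PC π y χ) (hk : G.Kills χ)
    (hs : G.s e ∉ A) (ht : G.t e ∉ A)
    (hadj : padj (π (G.s e)) (π (G.t e)) = true) : False := by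
  obtain ⟨k, ⟨h1, h2⟩ | ⟨h1, h2⟩⟩ := exists_pe hadj
  · exact f8b_main hB he hP hC hk hs ht (k := k) (u := G.s e) (v := G.t e) (Or.inl ⟨rfl, rfl⟩)
      h1.symm h2.symm
  · exact f8b_main hB he hP hC hk hs ht (k := k) (u := G.t e) (v := G.s e) (Or.inr ⟨rfl, rfl⟩)
      h1.symm h2.symm

end MG
end ML
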