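import Pool.Agent.ML.F9b
import Pool.Agent.ML.A7c

/-!
# ML-F9c: e inside a fibre (step 4.5)
-/

set_option autoImplicit false
set_option linter.unusedSectionVars false
set_option linter.unusedFintypeInType false
set_option linter.unusedVariables false

namespace ML
namespace MG

variable {V E : Type} [Fintype V] [Fintype E] [DecidableEq V] [DecidableEq E] (G : MG V E)

variable {G} in
/-- `e` inside a fibre, both ends in `A` or both ends outside `A`: impossible.
Proof: let `N` be a perfect matching of `G` containing `e` (`Mc`), `M = N.erase e`; the `M`-degrees are 1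
except at the ends of `e`, where they are 0.  `exits` for `M` and `G`: both ends in `A`:
`|fib p ∩ A| - 2 = |fib p \ A| + exits` is impossible as `|fib p ∩ A| = |fib p \ A| + 1`.  Both ends outside
`A`: `exits = 3`, and all other fibres are left once: `claw`: no edge of `M`, hence of `N`, leaves `W6`.  So
`N ∩ inn W6` is a perfect matching of `G.sub W6` and the rest `N \ inn W6` is one of `G.sub (U \ W6)`
(`isPM_restrict_sdiff`).  `c6` for `K = G.del e` (`hMc`) gives `M₁`, `M₂`; then `(N \ inn W6) ∪ M_i` are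
perfect matchings of `G` (`isPM_union`, `del_sub_isPM`), killed by `χ`: `∑_{M₁} χ = ∑_{M₂} χ`,
contradiction. -/
theorem inner_ordinary (hB : G.Brick) {e : E} (he : e ∈ G.F) (hMc : (G.del e).Mc) {π : V → PV}
    {A : Finset V} {y : V → QZ} {χ : E → QZ} (hP : (G.del e).PS π A) (hC : (G.del e).PC π y χ)
    (hk : G.Kills χ) (heq : π (G.s e) = π (G.t e)) : ¬ (G.s e ∈ A ↔ G.t e ∈ A) := by
  intro hst
  obtain ⟨N, hN, heN⟩ := hB.1.2 e he
  have hne : G.s e ≠ G.t e := hN.ne heN
  have hsU := G.hs e he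
  have htU := G.ht e he
  have hMF : N.erase e ⊆ G.F := (Finset.erase_subset _ _).trans hN.1
  have hEC : ∀ g ∈ N.erase e, EC G π A g := by
    intro g hg
    exact hP.edge g (Finset.mem_erase.2 ⟨Finset.ne_of_mem_erase hg, hN.1 (Finset.mem_of_mem_erase hg)⟩)
  have hdeg : ∀ v ∈ G.U, G.inc e v + ∑ g ∈ N.erase e, G.inc g v = 1 := by
    intro v hv
    rw [Finset.add_sum_erase N (fun g => G.inc g v) heN]
    exact hN.2 v hv
  have hsum : ∀ X : Finset V, X ⊆ G.U →
      ((if G.s e ∈ X then 1 else 0) + (if G.t e ∈ X then 1 else 0)) +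
        ∑ v ∈ X, ∑ g ∈ N.erase e, G.inc g v = X.card := by
    intro X hX
    rw [← G.sum_inc X e, ← Finset.sum_add_distrib, Finset.card_eq_sum_ones]
    exact Finset.sum_congr rfl (fun v hv => hdeg v (hX hv))
  have hfU : ∀ q, G.fib π q ⊆ G.U := fun q => Finset.filter_subset _ _
  have hiU : ∀ q, G.fib π q ∩ A ⊆ G.U := fun q => Finset.inter_subset_left.trans (hfU q)
  have hdU : ∀ q, G.fib π q \ A ⊆ G.U := fun q => Finset.sdiff_subset.trans (hfU q)
  have hsize : ∀ q, (G.fib π q ∩ A).card = (G.fib π q \ A).card + 1 := hP.size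
  have hmf : ∀ (q : PV) (x : V), x ∈ G.fib π q ↔ x ∈ G.U ∧ π x = q := fun q x => Finset.mem_filter
  have hother : ∀ q, q ≠ π (G.s e) → (N.erase e ∩ G.cut (G.fib π q)).card = 1 := by
    intro q hq
    have h1 := hsum _ (hiU q)
    have h2 := hsum _ (hdU q)
    have hsq : G.s e ∉ G.fib π q := fun h => hq ((hmf _ _).1 h).2.symm
    have htq : G.t e ∉ G.fib π q := fun h => hq (by rw [heq]; exact ((hmf _ _).1 h).2.symm)
    rw [if_neg (fun h => hsq (Finset.mem_inter.1 h).1),
      if_neg (fun h => htq (Finset.mem_inter.1 h).1)] at h1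
    rw [if_neg (fun h => hsq (Finset.mem_sdiff.1 h).1),
      if_neg (fun h => htq (Finset.mem_sdiff.1 h).1)] at h2
    have h3 := G.exits hMF hEC q
    have h4 := hsize q
    omega
  have hsp : G.s e ∈ G.fib π (π (G.s e)) := (hmf _ _).2 ⟨hsU, rfl⟩
  have htp : G.t e ∈ G.fib π (π (G.s e)) := (hmf _ _).2 ⟨htU, heq.symm⟩
  have h1 := hsum _ (hiU (π (G.s e)))
  have h2 := hsum _ (hdU (π (G.s e)))
  have h3 := G.exits hMF hEC (π (G.s e))
  have h4 := hsize (π (G.s e))
  by_cases hs : G.s e ∈ A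
  · have ht : G.t e ∈ A := hst.1 hs
    rw [if_pos (Finset.mem_inter.2 ⟨hsp, hs⟩), if_pos (Finset.mem_inter.2 ⟨htp, ht⟩)] at h1
    rw [if_neg (fun h => (Finset.mem_sdiff.1 h).2 hs),
      if_neg (fun h => (Finset.mem_sdiff.1 h).2 ht)] at h2
    omega
  · have ht : G.t e ∉ A := fun h => hs (hst.2 h)
    rw [if_neg (fun h => hs (Finset.mem_inter.1 h).2),
      if_neg (fun h => ht (Finset.mem_inter.1 h).2)] at h1
    rw [if_pos (Finset.mem_sdiff.2 ⟨hsp, hs⟩), if_pos (Finset.mem_sdiff.2 ⟨htp, ht⟩)] at h2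
    have hcl := G.claw hMF hEC (p := π (G.s e)) (by omega) (fun q hq => (hother q hq).le)
    have hW : W6 G π (π (G.s e)) ⊆ G.U := by
      intro x hx
      obtain ⟨q, -, hxq⟩ := Finset.mem_biUnion.1 hx
      exact hfU q hxq
    have hWs : ∀ x, π x = π (G.s e) → x ∉ W6 G π (π (G.s e)) := by
      intro x hx h
      obtain ⟨q, hq, hxq⟩ := Finset.mem_biUnion.1 h
      exact (Finset.mem_filter.1 hq).2.1 (by rw [← ((hmf _ _).1 hxq).2, hx])
    have hNc : N ∩ G.cut (W6 G π (π (G.s e))) = ∅ := by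
      rw [← Finset.insert_erase heN, Finset.insert_inter_of_notMem, hcl]
      intro h
      exact (G.mem_cut.1 h).2 ⟨fun h' => absurd h' (hWs _ rfl), fun h' => absurd h' (hWs _ heq.symm)⟩
    obtain ⟨M₁, M₂, hM₁, hM₂, hne12⟩ := c6 hMc hP hC (π (G.s e))
    have hN' := G.isPM_restrict_sdiff (G.sub_self_isPM.2 hN) hW hNc
    have key : ∀ M', ((G.del e).sub (W6 (G.del e) π (π (G.s e)))).IsPM M' →
        ∑ g ∈ N \ G.inn (W6 G π (π (G.s e))), χ g + ∑ g ∈ M', χ g = 0 := by
      intro M' hM'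
      have hM'' : (G.sub (W6 G π (π (G.s e)))).IsPM M' := (G.del_sub_isPM.1 hM').1
      have hu := G.isPM_union Finset.sdiff_disjoint hN' hM''
      rw [Finset.sdiff_union_of_subset hW, G.sub_self_isPM] at hu
      rw [← Finset.sum_union (G.disj_of_isPM Finset.sdiff_disjoint hN' hM'')]
      exact hk _ hu
    exact hne12 (add_left_cancel ((key M₁ hM₁).trans (key M₂ hM₂).symm))

end MG
end ML
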