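import Pool.Agent.ML.F7
import Pool.Agent.ML.F7b
import Pool.Agent.ML.F8
import Pool.Agent.ML.F8b
import Pool.Agent.ML.F9c

/-!
# ML-F10: e satisfies the edge condition (step 4.5, summary)
-/

set_option autoImplicit false
set_option linter.unusedSectionVars false
set_option linter.unusedFintypeInType false
set_option linter.unusedVariables false

namespace ML
namespace MG

variable {V E : Type} [Fintype V] [Fintype E] [DecidableEq V] [DecidableEq E] (G : MG V E)

variable {G} in
/-- Step 4.5, summary: `e` satisfies the edge condition.  (`no_AA`, `no_BA`, `no_BB`, `no_BBadj`,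
`inner_ordinary`; case distinction on the fibres and classes of the two ends.) -/
theorem e_ordinary (hB : G.Brick) {e : E} (he : e ∈ G.F) (hMc : (G.del e).Mc) {π : V → PV}
    {A : Finset V} {y : V → QZ} {χ : E → QZ} (hP : (G.del e).PS π A) (hC : (G.del e).PC π y χ)
    (hk : G.Kills χ) : EC G π A e := by
  by_cases heq : π (G.s e) = π (G.t e)
  · exact Or.inl ⟨heq, inner_ordinary hB he hMc hP hC hk heq⟩
  · by_cases hs : G.s e ∈ A
    · by_cases ht : G.t e ∈ A
      · exact Or.inr ⟨no_AA hB he hP hC hk heq hs ht, hs, ht⟩
      · exact (no_BA hB he hP hC hk heq (fun h => ht (h.1 hs))).elim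
    · by_cases ht : G.t e ∈ A
      · exact (no_BA hB he hP hC hk heq (fun h => hs (h.2 ht))).elim
      · cases hadj : padj (π (G.s e)) (π (G.t e)) with
        | false => exact (no_BB hB he hP hC hk heq hs ht hadj).elim
        | true => exact (no_BBadj hB he hP hC hk hs ht hadj).elim


end MG
end ML
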