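import Pool.Agent.ML.F5b

/-!
# ML-F10b: the potential condition for e (step 4.6)
-/

set_option autoImplicit false
set_option linter.unusedSectionVars false
set_option linter.unusedFintypeInType false
set_option linter.unusedVariables false

namespace ML
namespace MG

variable {V E : Type} [Fintype V] [Fintype E] [DecidableEq V] [DecidableEq E] (G : MG V E)

lemma f10b_och_comm (p q : PV) : och p q = och q p := by
  unfold och oc
  by_cases h : p = q
  · subst h; rfl
  · have h' : q ≠ p := fun hh => h hh.symm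
    cases hp : p.1 <;> cases hq : q.1 <;> simp [h, h']

lemma f10b_och_self (p : PV) : och p p = 0 := by
  unfold och oc
  simp

/-- common part of both cases -/
lemma f10b_key {G : MG V E} (hMc : G.Mc) {e : E} (he : e ∈ G.F) {π : V → PV}
    {y : V → QZ} {χ : E → QZ} (hC : (G.del e).PC π y χ)
    (hk : G.Kills χ) {N : Finset E} (hN : G.IsPM N) (heN : e ∈ N) {W : Finset V} (hW : W ⊆ G.U)
    (hcut : N ∩ G.cut W = ∅) (heW : e ∈ G.inn W) {M : Finset E}
    (hM : ((G.del e).sub W).IsPM M)
    (h1 : ∑ g ∈ M, och (π (G.s g)) (π (G.t g)) = och (π (G.s e)) (π (G.t e)))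
    (h2 : ∑ g ∈ (N ∩ G.inn W).erase e, och (π (G.s g)) (π (G.t g)) = 0) :
    χ e = y (G.s e) + y (G.t e) + och (π (G.s e)) (π (G.t e)) := by
  obtain ⟨hM', heM⟩ := (G.del_sub_isPM).1 hM
  have hNU : (G.sub G.U).IsPM N := (G.sub_self_isPM).2 hN
  have hR : (G.sub (G.U \ W)).IsPM (N \ G.inn W) := G.isPM_restrict_sdiff hNU hW hcut
  have hd : Disjoint (G.U \ W) W := Finset.sdiff_disjoint
  have hN' : (G.sub ((G.U \ W) ∪ W)).IsPM ((N \ G.inn W) ∪ M) := G.isPM_union hd hR hM'
  rw [Finset.sdiff_union_of_subset hW] at hN'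
  have hN'' : G.IsPM ((N \ G.inn W) ∪ M) := (G.sub_self_isPM).1 hN'
  have heN' : e ∉ (N \ G.inn W) ∪ M := by
    rw [Finset.mem_union, Finset.mem_sdiff]
    rintro (h | h)
    · exact h.2 heW
    · exact heM h
  have hdNM : Disjoint (N \ G.inn W) M := G.disj_of_isPM hd hR hM'
  have hH : (G.del e).IsPM ((N \ G.inn W) ∪ M) := (G.del_isPM).2 ⟨hN'', heN'⟩
  -- value on the new matching
  have hv1 : ∑ g ∈ (N \ G.inn W) ∪ M, χ g = 0 := hk _ hN''
  have hv2 : ∑ g ∈ (N \ G.inn W) ∪ M, χ g =
      ∑ v ∈ G.U, y v + ∑ g ∈ (N \ G.inn W) ∪ M, och (π (G.s g)) (π (G.t g)) := by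
    rw [← IsPM.pot hN'' y, ← Finset.sum_add_distrib]
    refine Finset.sum_congr rfl (fun g hg => ?_)
    exact hC g (hH.1 hg)
  have hv3 : ∑ g ∈ (N \ G.inn W) ∪ M, och (π (G.s g)) (π (G.t g)) =
      ∑ g ∈ N \ G.inn W, och (π (G.s g)) (π (G.t g)) + och (π (G.s e)) (π (G.t e)) := by
    rw [Finset.sum_union hdNM, h1]
  -- value on the old matching
  have hv4 : ∑ g ∈ N, χ g = 0 := hk _ hN
  have hv5 := G.chi_value hC hN heN
  have hv6 : ∑ g ∈ N.erase e, och (π (G.s g)) (π (G.t g)) =
      ∑ g ∈ N \ G.inn W, och (π (G.s g)) (π (G.t g)) := by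
    have hsplit : N.erase e = (N \ G.inn W) ∪ (N ∩ G.inn W).erase e := by
      ext g
      simp only [Finset.mem_erase, Finset.mem_union, Finset.mem_sdiff, Finset.mem_inter]
      constructor
      · rintro ⟨hge, hgN⟩
        by_cases hgW : g ∈ G.inn W
        · exact Or.inr ⟨hge, hgN, hgW⟩
        · exact Or.inl ⟨hgN, hgW⟩
      · rintro (⟨hgN, hgW⟩ | ⟨hge, hgN, _⟩)
        · exact ⟨fun h => hgW (h ▸ heW), hgN⟩
        · exact ⟨hge, hgN⟩
    have hdis : Disjoint (N \ G.inn W) ((N ∩ G.inn W).erase e) := by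
      rw [Finset.disjoint_left]
      intro g hg hg'
      exact (Finset.mem_sdiff.1 hg).2 (Finset.mem_inter.1 (Finset.mem_of_mem_erase hg')).2
    rw [hsplit, Finset.sum_union hdis, h2, add_zero]
  rw [hv4, hv6] at hv5
  rw [hv1, hv3] at hv2
  have hkey : χ e = (y (G.s e) + y (G.t e) + och (π (G.s e)) (π (G.t e))) +
      ((χ e - y (G.s e) - y (G.t e) + ∑ v ∈ G.U, y v +
        ∑ g ∈ N \ G.inn W, och (π (G.s g)) (π (G.t g))) -
      (∑ v ∈ G.U, y v + (∑ g ∈ N \ G.inn W, och (π (G.s g)) (π (G.t g)) +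
        och (π (G.s e)) (π (G.t e))))) := by
    abel
  rw [← hv5, ← hv2, sub_zero, add_zero] at hkey
  exact hkey

variable {G} in
/-- Step 4.6.  The potential condition for `e`.
Proof.  Let `N` be a perfect matching of `G` containing `e`.  Inner case (`π (s e) = π (t e) = p`, one end
in `A`): the structure holds for `G`, so `N` leaves `fib p` exactly once, by an edge `g ≠ e` with end
`a ∈ fib p ∩ A`.  Let `M'` be a perfect matching of `(G.del e).sub ((fib p).erase a)` (`fib_r1`).  Replace the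
edges of `N` inside `(fib p).erase a` by `M'`: a perfect matching `N'` of `G` without `e` and with the same
crossing edges.  `0 = ∑_{N'} χ = ∑_U y + ∑_{N'} och` and
`0 = ∑_N χ = χ e - y (s e) - y (t e) + ∑_U y + ∑_{N.erase e} och` (`chi_value`); the `och` sums are equal
(`och` is 0 on inner edges), so `χ e = y (s e) + y (t e)` and `och (π (s e)) (π (t e)) = 0`.
Crossing case (`u`, `v` in `A`, over adjacent `p`, `q`): `e` is the only edge of `N` leaving `fib p`, and the
only one leaving `fib q`.  Let `e' ∈ (G.del e).F` be over `pq` (`PS.real`) with ends `u' ∈ fib p`,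
`v' ∈ fib q` (in `A`).  Remove from `N` the edge `e` and all edges inside `fib p` and `fib q`; add `e'` and
perfect matchings of `(fib p).erase u'`, `(fib q).erase v'` (`fib_r1`).  The result `N'` is a perfect
matching of `G` without `e`; `0 = ∑_{N'} χ = ∑_U y + och (p, q) + (och of the other crossing edges)`, and
`0 = ∑_N χ = χ e - y u - y v + ∑_U y + (och of the other crossing edges)`.  So
`χ e = y u + y v - och (p, q) + ... = y u + y v + och (p, q)` (`och + och = 0`). -/
theorem e_potential (hB : G.Brick) {e : E} (he : e ∈ G.F) {π : V → PV}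
    {A : Finset V} {y : V → QZ} {χ : E → QZ} (hP : (G.del e).PS π A) (hC : (G.del e).PC π y χ)
    (hk : G.Kills χ) (hec : EC G π A e) :
    χ e = y (G.s e) + y (G.t e) + och (π (G.s e)) (π (G.t e)) := by
  classical
  have hMc : G.Mc := hB.1
  have hfibeq : ∀ p, (G.del e).fib π p = G.fib π p := fun p => rfl
  have hPG : G.PS π A := by
    refine ⟨?_, ?_, ?_⟩
    · intro g hg
      by_cases hge : g = e
      · rw [hge]; exact hec
      · exact hP.edge g (Finset.mem_erase.2 ⟨hge, hg⟩)
    · intro p; exact hP.size p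
    · intro p q hpq
      obtain ⟨g, hg, h⟩ := hP.real p q hpq
      exact ⟨g, Finset.mem_of_mem_erase hg, h⟩
  obtain ⟨N, hN, heN⟩ := hMc.2 e he
  have hmf : ∀ {p : PV} {v : V}, v ∈ G.fib π p ↔ v ∈ G.U ∧ π v = p := by
    intro p v; exact Finset.mem_filter
  -- the exit edge of a fibre
  have hexit : ∀ p, ∀ g ∈ N, ∀ g' ∈ N, g ∈ G.cut (G.fib π p) → g' ∈ G.cut (G.fib π p) → g = g' := by
    intro p g hg g' hg' h h'
    exact Finset.card_le_one.1 (le_of_eq (hPG.exit_one hN p)) g (Finset.mem_inter.2 ⟨hg, h⟩)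
      g' (Finset.mem_inter.2 ⟨hg', h'⟩)
  have hcutmem : ∀ p, ∀ g ∈ G.F, (g ∈ G.cut (G.fib π p) ↔ ¬ (π (G.s g) = p ↔ π (G.t g) = p)) := by
    intro p g hg
    rw [G.mem_cut, hmf, hmf]
    simp [hg, G.hs g hg, G.ht g hg]
  have hne : ∀ p, ¬ (G.s e ∈ G.fib π p \ A ∧ G.t e ∈ G.fib π p \ A) := by
    rintro p ⟨h1, h2⟩
    have h1' := (Finset.mem_sdiff.1 h1).2
    have h2' := (Finset.mem_sdiff.1 h2).2
    rcases hec with h | h
    · exact h.2 ⟨fun h => absurd h h1', fun h => absurd h h2'⟩
    · exact h1' h.2.1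
  rcases hec with ⟨hpe, hAe⟩ | ⟨hadj, hsA, htA⟩
  · -- inner case
    have hpos : 0 < (N ∩ G.cut (G.fib π (π (G.s e)))).card := by rw [hPG.exit_one hN]; exact one_pos
    obtain ⟨g, hg⟩ := Finset.card_pos.1 hpos
    obtain ⟨hgN, hgc⟩ := Finset.mem_inter.1 hg
    have hgF : g ∈ G.F := hN.1 hgN
    have hgc' := (hcutmem _ g hgF).1 hgc
    -- the end of g in the fibre
    obtain ⟨a, haf, haA, hga⟩ : ∃ a, a ∈ G.fib π (π (G.s e)) ∧ a ∈ A ∧ (G.s g = a ∨ G.t g = a) := by
      have hgA : G.s g ∈ A ∧ G.t g ∈ A := by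
        rcases hPG.edge g hgF with h | h
        · exfalso; apply hgc'; rw [h.1]
        · exact h.2
      by_cases hs : π (G.s g) = π (G.s e)
      · exact ⟨G.s g, hmf.2 ⟨G.hs g hgF, hs⟩, hgA.1, Or.inl rfl⟩
      · have ht : π (G.t g) = π (G.s e) := by
          by_contra ht
          exact hgc' ⟨fun h => absurd h hs, fun h => absurd h ht⟩
        exact ⟨G.t g, hmf.2 ⟨G.ht g hgF, ht⟩, hgA.2, Or.inr rfl⟩
    have haU : a ∈ G.U := (hmf.1 haf).1
    obtain ⟨M, hM⟩ := fib_r1 hB he hP (hne (π (G.s e))) (Finset.mem_inter.2 ⟨haf, haA⟩)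
    have hWU : (G.fib π (π (G.s e))).erase a ⊆ G.U :=
      (Finset.erase_subset _ _).trans (Finset.filter_subset _ _)
    have hcut0 : N ∩ G.cut ((G.fib π (π (G.s e))).erase a) = ∅ := by
      rw [Finset.eq_empty_iff_forall_notMem]
      intro f hf
      obtain ⟨hfN, hfc⟩ := Finset.mem_inter.1 hf
      have hfF : f ∈ G.F := hN.1 hfN
      rw [G.mem_cut] at hfc
      by_cases hfa : G.s f = a ∨ G.t f = a
      · have hfg : f = g := hN.unique haU hfN hgN hfa hga
        -- g leaves the fibre, its end in the fibre is a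
        rw [hfg] at hfc
        apply hfc.2
        simp only [Finset.mem_erase, hmf]
        rcases hga with h | h
        · constructor
          · intro h'; exact absurd h h'.1
          · intro h'
            exfalso
            apply hgc'
            rw [h]
            exact ⟨fun _ => h'.2.2, fun _ => (hmf.1 haf).2⟩
        · constructor
          · intro h'
            exfalso
            apply hgc'
            rw [h]
            exact ⟨fun _ => (hmf.1 haf).2, fun _ => h'.2.2⟩
          · intro h'; exact absurd h h'.1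
      · push Not at hfa
        have hfc2 : f ∈ G.cut (G.fib π (π (G.s e))) := by
          rw [G.mem_cut]
          refine ⟨hfF, fun h => hfc.2 ?_⟩
          simp only [Finset.mem_erase, ne_eq, hfa.1, hfa.2, not_false_eq_true, true_and]
          exact h
        have hfg : f = g := hexit _ f hfN g hgN hfc2 hgc
        rcases hga with h | h
        · exact hfa.1 (by rw [hfg]; exact h)
        · exact hfa.2 (by rw [hfg]; exact h)
    have hea : G.s e ≠ a ∧ G.t e ≠ a := by
      have hkey : ¬ (G.s e = a ∨ G.t e = a) := by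
        intro h
        have heg : e = g := hN.unique haU heN hgN h hga
        apply hgc'
        rw [← heg]
        exact ⟨fun _ => hpe.symm, fun _ => rfl⟩
      exact ⟨fun h => hkey (Or.inl h), fun h => hkey (Or.inr h)⟩
    have heW : e ∈ G.inn ((G.fib π (π (G.s e))).erase a) := by
      rw [G.mem_inn]
      exact ⟨he, Finset.mem_erase.2 ⟨hea.1, hmf.2 ⟨G.hs e he, rfl⟩⟩,
        Finset.mem_erase.2 ⟨hea.2, hmf.2 ⟨G.ht e he, hpe.symm⟩⟩⟩
    have hin0 : ∀ f ∈ G.inn ((G.fib π (π (G.s e))).erase a), och (π (G.s f)) (π (G.t f)) = 0 := by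
      intro f hf
      rw [G.mem_inn] at hf
      rw [(hmf.1 (Finset.mem_of_mem_erase hf.2.1)).2, (hmf.1 (Finset.mem_of_mem_erase hf.2.2)).2]
      exact f10b_och_self _
    refine f10b_key hMc he hC hk hN heN hWU hcut0 heW hM ?_ ?_
    · rw [hin0 e heW]
      refine Finset.sum_eq_zero (fun f hf => hin0 f ?_)
      exact ((G.del_sub_isPM).1 hM).1.1 hf
    · refine Finset.sum_eq_zero (fun f hf => hin0 f ?_)
      exact (Finset.mem_inter.1 (Finset.mem_of_mem_erase hf)).2
  · -- crossing case
    have hpq : π (G.s e) ≠ π (G.t e) := by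
      intro h
      rw [h, padj_self] at hadj
      exact absurd hadj (by simp)
    obtain ⟨e', he', hover⟩ := hP.real _ _ hadj
    have he'F : e' ∈ G.F := Finset.mem_of_mem_erase he'
    have he'e : e' ≠ e := (Finset.mem_erase.1 he').1
    simp only [del_s, del_t] at hover
    have he'A : G.s e' ∈ A ∧ G.t e' ∈ A := by
      rcases hPG.edge e' he'F with h | h
      · exfalso
        rcases hover with h' | h'
        · exact hpq (by rw [← h'.1, ← h'.2]; exact h.1)
        · exact hpq (by rw [← h'.1, ← h'.2]; exact h.1.symm)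
      · exact h.2
    -- ends of e' over p and q
    obtain ⟨a, b, haf, hbf, haA, hbA, hab, hoch⟩ : ∃ a b, a ∈ G.fib π (π (G.s e)) ∧
        b ∈ G.fib π (π (G.t e)) ∧ a ∈ A ∧ b ∈ A ∧
        ((G.s e' = a ∧ G.t e' = b) ∨ (G.s e' = b ∧ G.t e' = a)) ∧
        och (π (G.s e')) (π (G.t e')) = och (π (G.s e)) (π (G.t e)) := by
      rcases hover with h | h
      · exact ⟨G.s e', G.t e', hmf.2 ⟨G.hs e' he'F, h.1⟩, hmf.2 ⟨G.ht e' he'F, h.2⟩, he'A.1, he'A.2,
          Or.inl ⟨rfl, rfl⟩, by rw [h.1, h.2]⟩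
      · exact ⟨G.t e', G.s e', hmf.2 ⟨G.ht e' he'F, h.2⟩, hmf.2 ⟨G.hs e' he'F, h.1⟩, he'A.2, he'A.1,
          Or.inr ⟨rfl, rfl⟩, by rw [h.1, h.2, f10b_och_comm]⟩
    obtain ⟨M₁, hM₁⟩ := fib_r1 hB he hP (hne (π (G.s e))) (Finset.mem_inter.2 ⟨haf, haA⟩)
    obtain ⟨M₂, hM₂⟩ := fib_r1 hB he hP (hne (π (G.t e))) (Finset.mem_inter.2 ⟨hbf, hbA⟩)
    have hdpq : Disjoint (G.fib π (π (G.s e))) (G.fib π (π (G.t e))) := G.fib_disj hpq
    have hd12 : Disjoint ((G.fib π (π (G.s e))).erase a) ((G.fib π (π (G.t e))).erase b) :=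
      Finset.disjoint_of_subset_left (Finset.erase_subset _ _)
        (Finset.disjoint_of_subset_right (Finset.erase_subset _ _) hdpq)
    have hU12 := (G.del e).isPM_union hd12 hM₁ hM₂
    have hanb : a ∉ G.fib π (π (G.t e)) := Finset.disjoint_left.1 hdpq haf
    have hbna : b ∉ G.fib π (π (G.s e)) := Finset.disjoint_right.1 hdpq hbf
    have hab' : a ≠ b := fun h => hanb (h ▸ hbf)
    have haW : a ∉ (G.fib π (π (G.s e))).erase a ∪ (G.fib π (π (G.t e))).erase b := by
      rw [Finset.mem_union]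
      rintro (h | h)
      · exact (Finset.mem_erase.1 h).1 rfl
      · exact hanb (Finset.mem_of_mem_erase h)
    have hbW : b ∉ (G.fib π (π (G.s e))).erase a ∪ (G.fib π (π (G.t e))).erase b := by
      rw [Finset.mem_union]
      rintro (h | h)
      · exact hbna (Finset.mem_of_mem_erase h)
      · exact (Finset.mem_erase.1 h).1 rfl
    have hsW : G.s e' ∉ (G.fib π (π (G.s e))).erase a ∪ (G.fib π (π (G.t e))).erase b := by
      rcases hab with h | h
      · rw [h.1]; exact haW
      · rw [h.1]; exact hbW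
    have htW : G.t e' ∉ (G.fib π (π (G.s e))).erase a ∪ (G.fib π (π (G.t e))).erase b := by
      rcases hab with h | h
      · rw [h.2]; exact hbW
      · rw [h.2]; exact haW
    have hne' : G.s e' ≠ G.t e' := hMc.ne he'F
    obtain ⟨hM, he'M⟩ := (G.del e).isPM_insert hU12 he' hne' hsW htW
    have hWeq : insert (G.s e') (insert (G.t e') ((G.fib π (π (G.s e))).erase a ∪
        (G.fib π (π (G.t e))).erase b)) = G.fib π (π (G.s e)) ∪ G.fib π (π (G.t e)) := by
      ext x
      simp only [Finset.mem_insert, Finset.mem_union, Finset.mem_erase]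
      constructor
      · rintro (h | h | h | h)
        · rw [h]
          rcases hab with h' | h'
          · rw [h'.1]; exact Or.inl haf
          · rw [h'.1]; exact Or.inr hbf
        · rw [h]
          rcases hab with h' | h'
          · rw [h'.2]; exact Or.inr hbf
          · rw [h'.2]; exact Or.inl haf
        · exact Or.inl h.2
        · exact Or.inr h.2
      · rintro (h | h)
        · by_cases hxa : x = a
          · rcases hab with h' | h'
            · left; rw [h'.1]; exact hxa
            · right; left; rw [h'.2]; exact hxa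
          · exact Or.inr (Or.inr (Or.inl ⟨hxa, h⟩))
        · by_cases hxb : x = b
          · rcases hab with h' | h'
            · right; left; rw [h'.2]; exact hxb
            · left; rw [h'.1]; exact hxb
          · exact Or.inr (Or.inr (Or.inr ⟨hxb, h⟩))
    simp only [del_s, del_t] at hM he'M
    rw [hWeq] at hM
    have hWU : G.fib π (π (G.s e)) ∪ G.fib π (π (G.t e)) ⊆ G.U :=
      Finset.union_subset (Finset.filter_subset _ _) (Finset.filter_subset _ _)
    have hepc : e ∈ G.cut (G.fib π (π (G.s e))) :=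
      (hcutmem _ e he).2 (fun h => hpq (h.1 rfl).symm)
    have heqc : e ∈ G.cut (G.fib π (π (G.t e))) :=
      (hcutmem _ e he).2 (fun h => hpq (h.2 rfl))
    have hcut0 : N ∩ G.cut (G.fib π (π (G.s e)) ∪ G.fib π (π (G.t e))) = ∅ := by
      rw [Finset.eq_empty_iff_forall_notMem]
      intro f hf
      obtain ⟨hfN, hfc⟩ := Finset.mem_inter.1 hf
      have hfF : f ∈ G.F := hN.1 hfN
      have hfe : f ≠ e := by
        intro h
        rw [h, G.mem_cut] at hfc
        apply hfc.2
        exact ⟨fun _ => Finset.mem_union_right _ (hmf.2 ⟨G.ht e he, rfl⟩),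
          fun _ => Finset.mem_union_left _ (hmf.2 ⟨G.hs e he, rfl⟩)⟩
      have h1 : ¬ f ∈ G.cut (G.fib π (π (G.s e))) := fun h => hfe (hexit _ f hfN e heN h hepc)
      have h2 : ¬ f ∈ G.cut (G.fib π (π (G.t e))) := fun h => hfe (hexit _ f hfN e heN h heqc)
      rw [hcutmem _ f hfF, not_not] at h1 h2
      rw [G.mem_cut] at hfc
      apply hfc.2
      rw [Finset.mem_union, Finset.mem_union, hmf, hmf, hmf, hmf]
      simp only [G.hs f hfF, G.ht f hfF, true_and]
      rw [h1, h2]
    have heW : e ∈ G.inn (G.fib π (π (G.s e)) ∪ G.fib π (π (G.t e))) := by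
      rw [G.mem_inn]
      exact ⟨he, Finset.mem_union_left _ (hmf.2 ⟨G.hs e he, rfl⟩),
        Finset.mem_union_right _ (hmf.2 ⟨G.ht e he, rfl⟩)⟩
    refine f10b_key hMc he hC hk hN heN hWU hcut0 heW hM ?_ ?_
    · rw [Finset.sum_insert he'M, hoch]
      rw [Finset.sum_eq_zero, add_zero]
      intro f hf
      rcases Finset.mem_union.1 hf with h | h
      · have h' := ((G.del_sub_isPM).1 hM₁).1.1 h
        have h'' := (G.mem_inn).1 h'
        rw [(hmf.1 (Finset.mem_of_mem_erase h''.2.1)).2,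
          (hmf.1 (Finset.mem_of_mem_erase h''.2.2)).2]
        exact f10b_och_self _
      · have h' := ((G.del_sub_isPM).1 hM₂).1.1 h
        have h'' := (G.mem_inn).1 h'
        rw [(hmf.1 (Finset.mem_of_mem_erase h''.2.1)).2,
          (hmf.1 (Finset.mem_of_mem_erase h''.2.2)).2]
        exact f10b_och_self _
    · refine Finset.sum_eq_zero (fun f hf => ?_)
      obtain ⟨hfe, hf'⟩ := Finset.mem_erase.1 hf
      obtain ⟨hfN, hfi⟩ := Finset.mem_inter.1 hf'
      have hfF : f ∈ G.F := hN.1 hfN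
      have h1 : ¬ f ∈ G.cut (G.fib π (π (G.s e))) := fun h => hfe (hexit _ f hfN e heN h hepc)
      have h2 : ¬ f ∈ G.cut (G.fib π (π (G.t e))) := fun h => hfe (hexit _ f hfN e heN h heqc)
      rw [hcutmem _ f hfF, not_not] at h1 h2
      rw [G.mem_inn] at hfi
      rcases Finset.mem_union.1 hfi.2.1 with h | h
      · have hs := (hmf.1 h).2
        have ht := h1.1 hs
        rw [hs, ht]
        exact f10b_och_self _
      · have hs := (hmf.1 h).2
        have ht := h2.1 hs
        rw [hs, ht]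
        exact f10b_och_self _


end MG
end ML
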