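import Pool.Agent.ML.F10
import Pool.Agent.ML.F10b
import Pool.Agent.ML.D2

/-!
# ML-F10c: Case 1
-/

set_option autoImplicit false
set_option linter.unusedSectionVars false
set_option linter.unusedFintypeInType false
set_option linter.unusedVariables false

namespace ML
namespace MG

variable {V E : Type} [Fintype V] [Fintype E] [DecidableEq V] [DecidableEq E] (G : MG V E)

variable {G} in
/-- Case 1.
Proof: let `w` be `Reg r` on `G`, `N` a perfect matching containing `e`: `w - w e • ind N` vanishes at `e`, so
it is `Reg` on `G.del e`, and `pair χ w = pair χ (w - w e • ind N)`.  So `KillsReg` on `G.del e` gives `KillsReg`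
on `G`.  Otherwise `PStr` for `G.del e`: `e_ordinary` gives `PS` for `G` (`fib`, sizes and `real` do not
change: `(G.del e).U = G.U`, `(G.del e).F ⊆ G.F`), `e_potential` gives `PC`. -/
theorem case1 (hB : G.Brick) {e : E} (he : e ∈ G.F) (hMc : (G.del e).Mc) {χ : E → QZ}
    (hk : G.Kills χ) (h : (G.del e).KillsReg χ ∨ (G.del e).PStr χ) :
    G.KillsReg χ ∨ G.PStr χ := by
  rcases h with h | h
  · left
    intro r w hw
    obtain ⟨N, hN, heN⟩ := hB.1.2 e he
    have hw' : G.Reg (r - w e * 1) (w - w e • ind N) := hw.sub (hN.reg.smul (w e))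
    have hwe : (w - w e • ind N) e = 0 := by
      simp [ind, heN]
    have hdel : (G.del e).Reg (r - w e * 1) (w - w e • ind N) := by
      refine ⟨fun f hf => ?_, fun v hv => ?_⟩
      · by_cases hfe : f = e
        · rw [hfe]; exact hwe
        · exact hw'.1 f (fun hfF => hf (Finset.mem_erase.2 ⟨hfe, hfF⟩))
      · have h1 := hw'.2 v hv
        rw [← h1]
        change ∑ f ∈ G.F.erase e, G.inc f v • (w - w e • ind N) f =
          ∑ f ∈ G.F, G.inc f v • (w - w e • ind N) f
        rw [← Finset.add_sum_erase _ _ he, hwe]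
        simp
    have h0 := h _ _ hdel
    have hN0 : pair χ (ind N) = 0 :=
      hk.pair_lat (AddSubgroup.subset_closure ⟨N, hN, rfl⟩)
    have h2 : pair χ (w - w e • ind N) = pair χ w - w e • pair χ (ind N) := by
      unfold pair
      rw [Finset.smul_sum, ← Finset.sum_sub_distrib]
      refine Finset.sum_congr rfl fun f _ => ?_
      rw [Pi.sub_apply, Pi.smul_apply, sub_smul, smul_assoc]
    rw [h2, hN0, smul_zero, sub_zero] at h0
    exact h0
  · right
    obtain ⟨π, A, y, hP, hC⟩ := h
    have hec := e_ordinary hB he hMc hP hC hk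
    have hep := e_potential hB he hP hC hk hec
    refine ⟨π, A, y, ⟨fun f hf => ?_, hP.size, fun p q hpq => ?_⟩, fun f hf => ?_⟩
    · by_cases hfe : f = e
      · rw [hfe]; exact hec
      · exact hP.edge f (Finset.mem_erase.2 ⟨hfe, hf⟩)
    · obtain ⟨f, hf, hfp⟩ := hP.real p q hpq
      exact ⟨f, Finset.mem_of_mem_erase hf, hfp⟩
    · by_cases hfe : f = e
      · rw [hfe]; exact hep
      · exact hC f (Finset.mem_erase.2 ⟨hfe, hf⟩)

end MG
end ML
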