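import Pool.Agent.ML.F1
import Pool.Agent.ML.A4
import Pool.Agent.ML.A7c

/-!
# ML-F2: matchings inside fibres (step 4.2: R1, R2)
-/

set_option autoImplicit false
set_option linter.unusedSectionVars false
set_option linter.unusedFintypeInType false
set_option linter.unusedVariables false

namespace ML
namespace MG

variable {V E : Type} [Fintype V] [Fintype E] [DecidableEq V] [DecidableEq E] (G : MG V E)

variable {G} in
private lemma f2_sub {e : E} {π : V → PV} {A : Finset V}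
    (hP : (G.del e).PS π A) {p : PV} {Z : Finset V} (hZ : Z ⊆ G.fib π p \ A) :
    (G.del e).nb Z ⊆ G.fib π p ∩ A := by
  intro v hv
  obtain ⟨hvU, f, hf, h⟩ := ((G.del e).mem_nb).mp hv
  have hE := hP.edge f hf
  have hmem : ∀ w ∈ Z, π w = p ∧ w ∉ A := by
    intro w hw
    have h1 := Finset.mem_sdiff.mp (hZ hw)
    exact ⟨(Finset.mem_filter.mp h1.1).2, h1.2⟩
  rw [Finset.mem_inter]
  rcases h with ⟨h1, h2⟩ | ⟨h1, h2⟩
  · obtain ⟨h3, h4⟩ := hmem _ h2
    rcases hE with ⟨h5, h6⟩ | ⟨h5, h6, h7⟩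
    · have h8 : G.s f ∈ A := by
        by_contra h9
        exact h6 ⟨fun h => absurd h h9, fun h => absurd h h4⟩
      subst h1
      exact ⟨Finset.mem_filter.mpr ⟨hvU, h5.trans h3⟩, h8⟩
    · exact absurd h7 h4
  · obtain ⟨h3, h4⟩ := hmem _ h2
    rcases hE with ⟨h5, h6⟩ | ⟨h5, h6, h7⟩
    · have h8 : G.t f ∈ A := by
        by_contra h9
        exact h6 ⟨fun h => absurd h h4, fun h => absurd h h9⟩
      subst h1
      exact ⟨Finset.mem_filter.mpr ⟨hvU, h5.symm.trans h3⟩, h8⟩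
    · exact absurd h6 h4

variable {G} in
private lemma f2_two (hB : G.Brick) {e : E} {π : V → PV} {A : Finset V}
    (hP : (G.del e).PS π A) {p : PV} {Z : Finset V} (hZ : Z ⊆ G.fib π p \ A) (hZn : Z.Nonempty)
    (hs : G.s e ∉ Z) (ht : G.t e ∉ Z) : Z.card + 2 ≤ ((G.del e).nb Z).card := by
  have hmem : ∀ w ∈ Z, π w = p ∧ w ∉ A := by
    intro w hw
    have h1 := Finset.mem_sdiff.mp (hZ hw)
    exact ⟨(Finset.mem_filter.mp h1.1).2, h1.2⟩
  have hZU : Z ⊆ G.U := fun w hw => (Finset.mem_filter.mp (Finset.mem_sdiff.mp (hZ hw)).1).1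
  have hinn : G.inn Z = ∅ := by
    rw [Finset.eq_empty_iff_forall_notMem]
    intro f hf
    obtain ⟨hfF, h1, h2⟩ := G.mem_inn.mp hf
    have hfe : f ≠ e := fun h => hs (h ▸ h1)
    rcases hP.edge f (Finset.mem_erase.mpr ⟨hfe, hfF⟩) with ⟨h5, h6⟩ | ⟨h5, h6, h7⟩
    · exact h6 ⟨fun h => absurd h (hmem _ h1).2, fun h => absurd h (hmem _ h2).2⟩
    · exact (hmem _ h1).2 h6
  refine (hB.ind_nb hZU hZn hinn).trans (Finset.card_le_card ?_)
  intro v hv
  obtain ⟨hvU, f, hf, h⟩ := (G.mem_nb).mp hv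
  refine ((G.del e).mem_nb).mpr ⟨hvU, f, Finset.mem_erase.mpr ⟨fun h1 => ?_, hf⟩, h⟩
  subst h1
  rcases h with ⟨-, h2⟩ | ⟨-, h2⟩
  · exact ht h2
  · exact hs h2

variable {G} in
private lemma f2_mono {e : E} {Z Z' : Finset V} (h : Z' ⊆ Z) : (G.del e).nb Z' ⊆ (G.del e).nb Z := by
  intro v hv
  obtain ⟨hvU, f, hf, h1⟩ := ((G.del e).mem_nb).mp hv
  refine ((G.del e).mem_nb).mpr ⟨hvU, f, hf, ?_⟩
  rcases h1 with ⟨h1, h2⟩ | ⟨h1, h2⟩
  · exact Or.inl ⟨h1, h h2⟩
  · exact Or.inr ⟨h1, h h2⟩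

variable {G} in
private lemma f2_one (hB : G.Brick) {e : E} (he : e ∈ G.F) {π : V → PV} {A : Finset V}
    (hP : (G.del e).PS π A) {p : PV} {Z : Finset V} (hZ : Z ⊆ G.fib π p \ A) {u w : V}
    (huw : (G.s e = u ∧ G.t e = w) ∨ (G.t e = u ∧ G.s e = w)) (hu : u ∈ Z) (hw : w ∉ Z) :
    Z.card + 1 ≤ ((G.del e).nb Z).card := by
  have hcard := Finset.card_erase_add_one hu
  rcases (Z.erase u).eq_empty_or_nonempty with h0 | h0
  · have hZu : Z = {u} := by
      ext v
      rw [Finset.mem_singleton]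
      constructor
      · intro hv
        by_contra hvu
        have h1 : v ∈ Z.erase u := Finset.mem_erase.mpr ⟨hvu, hv⟩
        rw [h0] at h1
        exact Finset.notMem_empty v h1
      · rintro rfl; exact hu
    have hZU : Z ⊆ G.U := fun w hw => (Finset.mem_filter.mp (Finset.mem_sdiff.mp (hZ hw)).1).1
    have hinn : G.inn Z = ∅ := by
      rw [Finset.eq_empty_iff_forall_notMem]
      intro f hf
      obtain ⟨hfF, h1, h2⟩ := G.mem_inn.mp hf
      rw [hZu, Finset.mem_singleton] at h1 h2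
      exact hB.1.ne hfF (h1.trans h2.symm)
    have h1 := hB.ind_nb hZU ⟨u, hu⟩ hinn
    have h2 : G.nb Z ⊆ insert w ((G.del e).nb Z) := by
      intro v hv
      obtain ⟨hvU, f, hf, h⟩ := (G.mem_nb).mp hv
      rw [Finset.mem_insert]
      by_cases hfe : f = e
      · left
        subst hfe
        rcases h with ⟨h3, h4⟩ | ⟨h3, h4⟩
        · rw [hZu, Finset.mem_singleton] at h4
          rcases huw with ⟨h5, h6⟩ | ⟨h5, h6⟩
          · exact absurd (h5.trans h4.symm) (hB.1.ne hf)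
          · exact h3.symm.trans h6
        · rw [hZu, Finset.mem_singleton] at h4
          rcases huw with ⟨h5, h6⟩ | ⟨h5, h6⟩
          · exact h3.symm.trans h6
          · exact absurd (h4.trans h5.symm) (hB.1.ne hf)
      · right
        exact ((G.del e).mem_nb).mpr ⟨hvU, f, Finset.mem_erase.mpr ⟨hfe, hf⟩, h⟩
    have h3 := Finset.card_le_card h2
    have h4 := Finset.card_insert_le w ((G.del e).nb Z)
    omega
  · have hs : G.s e ∉ Z.erase u := by
      intro h1
      have h2 := Finset.mem_erase.mp h1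
      rcases huw with ⟨h5, h6⟩ | ⟨h5, h6⟩
      · exact h2.1 h5
      · exact hw (h6 ▸ h2.2)
    have ht : G.t e ∉ Z.erase u := by
      intro h1
      have h2 := Finset.mem_erase.mp h1
      rcases huw with ⟨h5, h6⟩ | ⟨h5, h6⟩
      · exact hw (h6 ▸ h2.2)
      · exact h2.1 h5
    have h1 := f2_two hB hP ((Finset.erase_subset _ _).trans hZ) h0 hs ht
    have h2 := Finset.card_le_card (f2_mono (G := G) (e := e) (Finset.erase_subset u Z))
    omega

variable {G} in
/-- Neighbours of sets of vertices not in `A` in one fibre.  `H = G.del e` has the structure.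
Proof.  All edges of `H` at a vertex of `fib p \ A` are inside the fibre and end in `A` (edge condition),
so `H.nb Z ⊆ fib p ∩ A`, and `H` has no edge inside `Z`.
If no end of `e` is in `Z` then `G.inn Z = ∅`, `G.nb Z = H.nb Z`, and `Brick.ind_nb` gives `|Z| + 2`.
If one end `u` of `e` is in `Z` then the other end is not in `fib p \ A` by `hne`, so not in `Z`.  Let
`Z' = Z.erase u`.  If `Z'` is nonempty: `|H.nb Z| ≥ |H.nb Z'| = |G.nb Z'| ≥ |Z| - 1 + 2`.  If `Z = {u}`:
`G.inn {u} = ∅` (no loops), `|G.nb {u}| ≥ 3`, and `G.nb {u} ⊆ H.nb {u} ∪ {other end}`, so `|H.nb {u}| ≥ 2`. -/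
theorem nb_fibre (hB : G.Brick) {e : E} (he : e ∈ G.F) {π : V → PV} {A : Finset V}
    (hP : (G.del e).PS π A) {p : PV} (hne : ¬ (G.s e ∈ G.fib π p \ A ∧ G.t e ∈ G.fib π p \ A))
    {Z : Finset V} (hZ : Z ⊆ G.fib π p \ A) (hZn : Z.Nonempty) :
    (G.del e).nb Z ⊆ G.fib π p ∩ A ∧ Z.card + 1 ≤ ((G.del e).nb Z).card ∧
      (G.s e ∉ Z → G.t e ∉ Z → Z.card + 2 ≤ ((G.del e).nb Z).card) := by
  refine ⟨f2_sub hP hZ, ?_, f2_two hB hP hZ hZn⟩
  by_cases hs : G.s e ∈ Z
  · have ht : G.t e ∉ Z := fun ht => hne ⟨hZ hs, hZ ht⟩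
    exact f2_one hB he hP hZ (Or.inl ⟨rfl, rfl⟩) hs ht
  · by_cases ht : G.t e ∈ Z
    · exact f2_one hB he hP hZ (Or.inr ⟨rfl, rfl⟩) ht hs
    · have := f2_two hB hP hZ hZn hs ht
      omega

variable {G} in
/-- Step 4.2 (R1).  `hall` for `G.del e` with the classes `(fib p ∩ A).erase a` and `fib p \ A` (equal
sizes by `PS.size`); the neighbours of `Z` in the first class are at least `|Z| + 1 - 1`. -/
theorem fib_r1 (hB : G.Brick) {e : E} (he : e ∈ G.F) {π : V → PV} {A : Finset V}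
    (hP : (G.del e).PS π A) {p : PV} (hne : ¬ (G.s e ∈ G.fib π p \ A ∧ G.t e ∈ G.fib π p \ A))
    {a : V} (ha : a ∈ G.fib π p ∩ A) :
    ∃ M, ((G.del e).sub ((G.fib π p).erase a)).IsPM M := by
  have haA := (Finset.mem_inter.mp ha)
  have hfU : G.fib π p ⊆ G.U := Finset.filter_subset _ _
  have hsize : (G.fib π p ∩ A).card = (G.fib π p \ A).card + 1 := hP.size p
  have hdisj : Disjoint ((G.fib π p ∩ A).erase a) (G.fib π p \ A) := by
    rw [Finset.disjoint_left]
    intro v hv hv'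
    exact (Finset.mem_sdiff.mp hv').2 (Finset.mem_inter.mp (Finset.mem_of_mem_erase hv)).2
  obtain ⟨N, hN, -⟩ := (G.del e).hall (A := (G.fib π p ∩ A).erase a) (B := G.fib π p \ A)
    (fun v hv => hfU (Finset.mem_inter.mp (Finset.mem_of_mem_erase hv)).1)
    (fun v hv => hfU (Finset.mem_sdiff.mp hv).1) hdisj
    (by rw [Finset.card_erase_of_mem ha, hsize]; rfl) (by
      intro Z hZ
      rcases Z.eq_empty_or_nonempty with rfl | hZn
      · rw [Finset.card_empty]; exact Nat.zero_le _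
      obtain ⟨h1, h2, -⟩ := nb_fibre hB he hP hne hZ hZn
      have h3 : ((G.del e).nb Z).erase a ⊆ (G.del e).nb Z ∩ (G.fib π p ∩ A).erase a := by
        intro v hv
        have hv' := Finset.mem_erase.mp hv
        exact Finset.mem_inter.mpr ⟨hv'.2, Finset.mem_erase.mpr ⟨hv'.1, h1 hv'.2⟩⟩
      have h4 := Finset.card_le_card h3
      have h5 := Finset.pred_card_le_card_erase (s := (G.del e).nb Z) (a := a)
      omega)
  refine ⟨N, ?_⟩
  have h6 : (G.fib π p ∩ A).erase a ∪ G.fib π p \ A = (G.fib π p).erase a := by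
    ext v
    rw [Finset.mem_union, Finset.mem_erase, Finset.mem_inter, Finset.mem_sdiff, Finset.mem_erase]
    constructor
    · rintro (⟨h1, h2, h3⟩ | ⟨h1, h2⟩)
      · exact ⟨h1, h2⟩
      · exact ⟨fun h => h2 (h ▸ haA.2), h1⟩
    · rintro ⟨h1, h2⟩
      by_cases h3 : v ∈ A
      · exact Or.inl ⟨h1, h2, h3⟩
      · exact Or.inr ⟨h2, h3⟩
  rw [h6] at hN
  exact hN

variable {G} in
/-- Step 4.2 (R2).  `u` an end of `e` in `fib p \ A`, the other end not in `fib p \ A`.  `hall` with the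
classes `(fib p ∩ A) \ {a, a'}` and `(fib p \ A).erase u`; sets `Z` in the second class do not contain an
end of `e`, so have at least `|Z| + 2 - 2` neighbours left. -/
theorem fib_r2 (hB : G.Brick) {e : E} (he : e ∈ G.F) {π : V → PV} {A : Finset V}
    (hP : (G.del e).PS π A) {p : PV} {u v : V} (huv : (G.s e = u ∧ G.t e = v) ∨ (G.t e = u ∧ G.s e = v))
    (hu : u ∈ G.fib π p \ A) (hv : v ∉ G.fib π p \ A) {a a' : V} (ha : a ∈ G.fib π p ∩ A)
    (ha' : a' ∈ G.fib π p ∩ A) (hne : a ≠ a') :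
    ∃ M, ((G.del e).sub (G.fib π p \ {u, a, a'})).IsPM M := by
  have hne2 : ¬ (G.s e ∈ G.fib π p \ A ∧ G.t e ∈ G.fib π p \ A) := by
    rintro ⟨h1, h2⟩
    rcases huv with ⟨h3, h4⟩ | ⟨h3, h4⟩
    · exact hv (h4 ▸ h2)
    · exact hv (h4 ▸ h1)
  have haA := (Finset.mem_inter.mp ha)
  have haA' := (Finset.mem_inter.mp ha')
  have huA := (Finset.mem_sdiff.mp hu)
  have hfU : G.fib π p ⊆ G.U := Finset.filter_subset _ _
  have hsize : (G.fib π p ∩ A).card = (G.fib π p \ A).card + 1 := hP.size p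
  have hdisj : Disjoint ((G.fib π p ∩ A) \ {a, a'}) ((G.fib π p \ A).erase u) := by
    rw [Finset.disjoint_left]
    intro v hv hv'
    exact (Finset.mem_sdiff.mp (Finset.mem_of_mem_erase hv')).2
      (Finset.mem_inter.mp (Finset.mem_sdiff.mp hv).1).2
  have hpair : ({a, a'} : Finset V) ⊆ G.fib π p ∩ A := by
    intro v hv
    rcases Finset.mem_insert.mp hv with rfl | hv
    · exact ha
    · rw [Finset.mem_singleton.mp hv]; exact ha'
  obtain ⟨N, hN, -⟩ := (G.del e).hall (A := (G.fib π p ∩ A) \ {a, a'})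
    (B := (G.fib π p \ A).erase u)
    (fun v hv => hfU (Finset.mem_inter.mp (Finset.mem_sdiff.mp hv).1).1)
    (fun v hv => hfU (Finset.mem_sdiff.mp (Finset.mem_of_mem_erase hv)).1) hdisj
    (by
      rw [Finset.card_sdiff_of_subset hpair, Finset.card_pair hne, Finset.card_erase_of_mem hu,
        hsize]
      omega) (by
      intro Z hZ
      rcases Z.eq_empty_or_nonempty with rfl | hZn
      · rw [Finset.card_empty]; exact Nat.zero_le _
      have hZ' : Z ⊆ G.fib π p \ A := hZ.trans (Finset.erase_subset _ _)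
      have huZ : u ∉ Z := fun h => (Finset.mem_erase.mp (hZ h)).1 rfl
      have hvZ : v ∉ Z := fun h => hv (hZ' h)
      have h1 := f2_sub hP hZ'
      have h2 : Z.card + 2 ≤ ((G.del e).nb Z).card := by
        refine f2_two hB hP hZ' hZn ?_ ?_
        · rcases huv with ⟨h3, h4⟩ | ⟨h3, h4⟩
          · rw [h3]; exact huZ
          · rw [h4]; exact hvZ
        · rcases huv with ⟨h3, h4⟩ | ⟨h3, h4⟩
          · rw [h4]; exact hvZ
          · rw [h3]; exact huZ
      have h3 : ((G.del e).nb Z) \ {a, a'} ⊆ (G.del e).nb Z ∩ ((G.fib π p ∩ A) \ {a, a'}) := by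
        intro v hv
        have hv' := Finset.mem_sdiff.mp hv
        exact Finset.mem_inter.mpr ⟨hv'.1, Finset.mem_sdiff.mpr ⟨h1 hv'.1, hv'.2⟩⟩
      have h4 := Finset.card_le_card h3
      have h5 := Finset.le_card_sdiff ({a, a'} : Finset V) ((G.del e).nb Z)
      rw [Finset.card_pair hne] at h5
      omega)
  refine ⟨N, ?_⟩
  have h6 : (G.fib π p ∩ A) \ {a, a'} ∪ (G.fib π p \ A).erase u = G.fib π p \ {u, a, a'} := by
    ext v
    simp only [Finset.mem_union, Finset.mem_erase, Finset.mem_inter, Finset.mem_sdiff,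
      Finset.mem_insert, Finset.mem_singleton, not_or]
    constructor
    · rintro (⟨⟨h1, h2⟩, h3, h4⟩ | ⟨h1, h2, h3⟩)
      · exact ⟨h1, fun h => huA.2 (h ▸ h2), h3, h4⟩
      · exact ⟨h2, h1, fun h => h3 (h ▸ haA.2), fun h => h3 (h ▸ haA'.2)⟩
    · rintro ⟨h1, h2, h3, h4⟩
      by_cases h5 : v ∈ A
      · exact Or.inl ⟨⟨h1, h5⟩, h3, h4⟩
      · exact Or.inr ⟨h2, h1, h5⟩
  rw [h6] at hN
  exact hN

end MG
end ML
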