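import Pool.Agent.ML.F2

/-!
# ML-F3: the count behind step 4.3
-/

set_option autoImplicit false
set_option linter.unusedSectionVars false
set_option linter.unusedFintypeInType false
set_option linter.unusedVariables false

namespace ML
namespace MG

variable {V E : Type} [Fintype V] [Fintype E] [DecidableEq V] [DecidableEq E] (G : MG V E)

lemma f3_padj_irr (p : PV) : padj p p = false := by
  revert p
  decide

lemma f3_padj_comm (p q : PV) : padj p q = padj q p := by
  revert p q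
  decide

lemma f3_mem_fib {π : V → PV} {q : PV} {v : V} (hv : v ∈ G.U) : v ∈ G.fib π q ↔ π v = q := by
  unfold fib
  rw [Finset.mem_filter]
  exact ⟨fun h => h.2, fun h => ⟨hv, h⟩⟩

/-- propositional core of the count, edge inside a fibre -/
lemma f3_c1 (Ps Pt Ms Mt As At : Prop) [Decidable As] [Decidable At]
    [Decidable (¬ ((Ms ∨ (¬ As ∧ Ps)) ↔ (Mt ∨ (¬ At ∧ Pt))))] [Decidable (¬ (Ps ↔ Pt))]
    [Decidable (¬ (Ms ↔ Mt))] (hP : Ps ↔ Pt) (hM : Ms ↔ Mt) (hs : As → Ps) (ht : At → Pt)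
    (hPM : Ps → ¬ Ms) (hA : ¬ (As ∧ At)) :
    (if ¬ ((Ms ∨ (¬ As ∧ Ps)) ↔ (Mt ∨ (¬ At ∧ Pt))) then 1 else 0) +
      (if ¬ (Ps ↔ Pt) then 1 else 0) =
      ((if As then 1 else 0) + (if At then 1 else 0)) + (if ¬ (Ms ↔ Mt) then 1 else 0 : ℕ) := by
  by_cases h1 : Ps <;> by_cases h2 : Ms <;> by_cases h3 : As <;> by_cases h4 : At <;>
    simp_all

/-- propositional core of the count, edge between two fibres -/
lemma f3_c2 (Ps Pt Ms Mt As At : Prop) [Decidable As] [Decidable At]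
    [Decidable (¬ ((Ms ∨ (¬ As ∧ Ps)) ↔ (Mt ∨ (¬ At ∧ Pt))))] [Decidable (¬ (Ps ↔ Pt))]
    [Decidable (¬ (Ms ↔ Mt))] (hP : ¬ (Ps ∧ Pt)) (hs : As → Ps) (ht : At → Pt)
    (hPM : Ps → ¬ Ms) (hPM' : Pt → ¬ Mt) (h1 : Ps → ¬ Mt → As) (h2 : Pt → ¬ Ms → At) :
    (if ¬ ((Ms ∨ (¬ As ∧ Ps)) ↔ (Mt ∨ (¬ At ∧ Pt))) then 1 else 0) +
      (if ¬ (Ps ↔ Pt) then 1 else 0) =
      ((if As then 1 else 0) + (if At then 1 else 0)) + (if ¬ (Ms ↔ Mt) then 1 else 0 : ℕ) := by
  by_cases h3 : Ps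
  · have h4 : ¬ Pt := fun h => hP ⟨h3, h⟩
    have h5 : ¬ Ms := hPM h3
    have h6 : ¬ At := fun h => h4 (ht h)
    by_cases h7 : Mt <;> by_cases h8 : As <;> simp_all
  · have h8 : ¬ As := fun h => h3 (hs h)
    by_cases h4 : Pt
    · have h5 : ¬ Mt := hPM' h4
      by_cases h7 : Ms <;> by_cases h9 : At <;> simp_all
    · have h9 : ¬ At := fun h => h4 (ht h)
      by_cases h7 : Ms <;> by_cases h10 : Mt <;> simp_all

/-- The count of step 4.3.  `M` a set of edges with the edge condition, `p` a vertex of the Petersen graph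
with the neighbours `m`, `n`, `n'`, `a` a vertex of `fib p ∩ A` covered by exactly one end of an edge of `M`;
all edges of `M` between the fibres of `p` and `n` or `n'` have the end `a`.  Let
`Y = fib m ∪ (fib p).erase a`.  Then `|M ∩ cut Y| + |M ∩ cut (fib p)| = 1 + |M ∩ cut (fib m)|`.
Proof.  Let `g` be the edge of `M` at `a`.  Crossing edges at `fib p` go to the fibres of `m`, `n`, `n'`
(edge condition).  Let `k` be the number of edges of `M` between `fib p` and `fib m`, `l` the number of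
edges of `M` between `fib p` and `fib n ∪ fib n'`; the latter are all at `a`, so `l ≤ 1`, and `l = 1` iff `g`
goes to `fib n ∪ fib n'`.  `|M ∩ cut (fib p)| = k + l`.  The edges of `M ∩ cut Y` are: `g` if it does not go
to `fib n ∪ fib n'` (then it goes to `(fib p).erase a` or to `fib m`; it is not a loop), and the edges of `M`
between `fib m` and the outside of `fib m ∪ fib p`, whose number is `|M ∩ cut (fib m)| - k`.  (Edges from
`(fib p).erase a` to `fib m` are inside `Y`; there are no edges from `(fib p).erase a` to other fibres.)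
So `|M ∩ cut Y| = (1 - l) + (|M ∩ cut (fib m)| - k)`. -/
theorem cut_count {π : V → PV} {A : Finset V} {M : Finset E} (hM : M ⊆ G.F)
    (hP : ∀ e ∈ M, EC G π A e) {p m n n' : PV} (hmn : m ≠ n) (hmn' : m ≠ n') (hnn : n ≠ n')
    (hadj : ∀ q, padj p q = true ↔ (q = m ∨ q = n ∨ q = n')) {a : V} (ha : a ∈ G.fib π p ∩ A)
    (hdeg : ∑ e ∈ M, G.inc e a = 1)
    (hst : ∀ e ∈ M, ∀ x y, ((G.s e = x ∧ G.t e = y) ∨ (G.t e = x ∧ G.s e = y)) → π x = p →
      (π y = n ∨ π y = n') → x = a) :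
    (M ∩ G.cut (G.fib π m ∪ (G.fib π p).erase a)).card + (M ∩ G.cut (G.fib π p)).card =
      1 + (M ∩ G.cut (G.fib π m)).card := by
  classical
  obtain ⟨haP, haA⟩ := Finset.mem_inter.1 ha
  have haU : a ∈ G.U := (Finset.mem_filter.1 haP).1
  have hπa : π a = p := (Finset.mem_filter.1 haP).2
  have hmp : m ≠ p := by
    intro h
    have h1 : padj p m = true := (hadj m).2 (Or.inl rfl)
    rw [h, f3_padj_irr] at h1
    exact Bool.false_ne_true h1
  have hcard : ∀ X : Finset V, (M ∩ G.cut X).card = ∑ e ∈ M, if e ∈ G.cut X then 1 else 0 := by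
    intro X
    rw [Finset.sum_boole, Finset.filter_mem_eq_inter]
    rfl
  rw [hcard, hcard, hcard]
  refine Eq.trans ?_ (congrArg (fun k => k + ∑ e ∈ M, if e ∈ G.cut (G.fib π m) then 1 else 0) hdeg)
  show _ = ∑ e ∈ M, G.inc e a + ∑ e ∈ M, (if e ∈ G.cut (G.fib π m) then 1 else 0)
  rw [← Finset.sum_add_distrib, ← Finset.sum_add_distrib]
  refine Finset.sum_congr rfl fun e he => ?_
  have heF := hM he
  have hsU := G.hs e heF
  have htU := G.ht e heF
  have hcut : ∀ X : Finset V, e ∈ G.cut X ↔ ¬ (G.s e ∈ X ↔ G.t e ∈ X) := by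
    intro X
    rw [G.mem_cut]
    exact ⟨fun h => h.2, fun h => ⟨heF, h⟩⟩
  have hmem : ∀ v, v ∈ G.U → (v ∈ G.fib π m ∪ (G.fib π p).erase a ↔
      (π v = m ∨ (¬ v = a ∧ π v = p))) := by
    intro v hv
    rw [Finset.mem_union, Finset.mem_erase, G.f3_mem_fib hv, G.f3_mem_fib hv]
  simp only [hcut, hmem _ hsU, hmem _ htU, G.f3_mem_fib hsU, G.f3_mem_fib htU]
  unfold inc
  have hs1 : G.s e = a → π (G.s e) = p := fun h => by rw [h, hπa]
  have ht1 : G.t e = a → π (G.t e) = p := fun h => by rw [h, hπa]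
  rcases hP e he with ⟨h1, h2⟩ | ⟨h1, h2, h3⟩
  · apply f3_c1
    · rw [h1]
    · rw [h1]
    · exact hs1
    · exact ht1
    · intro h3 h4
      exact hmp (h4.symm.trans h3)
    · rintro ⟨h3, h4⟩
      apply h2
      rw [h3, h4]
  · apply f3_c2
    · rintro ⟨h4, h5⟩
      rw [h4, h5, f3_padj_irr] at h1
      exact Bool.false_ne_true h1
    · exact hs1
    · exact ht1
    · intro h3 h4
      exact hmp (h4.symm.trans h3)
    · intro h3 h4
      exact hmp (h4.symm.trans h3)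
    · intro h4 h5
      rw [h4] at h1
      rcases (hadj _).1 h1 with h6 | h6 | h6
      · exact absurd h6 h5
      · exact hst e he (G.s e) (G.t e) (Or.inl ⟨rfl, rfl⟩) h4 (Or.inl h6)
      · exact hst e he (G.s e) (G.t e) (Or.inl ⟨rfl, rfl⟩) h4 (Or.inr h6)
    · intro h4 h5
      rw [h4, f3_padj_comm] at h1
      rcases (hadj _).1 h1 with h6 | h6 | h6
      · exact absurd h6 h5
      · exact hst e he (G.t e) (G.s e) (Or.inr ⟨rfl, rfl⟩) h4 (Or.inl h6)
      · exact hst e he (G.t e) (G.s e) (Or.inr ⟨rfl, rfl⟩) h4 (Or.inr h6)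

end MG
end ML
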