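import Pool.Agent.ML.F0
import Pool.Agent.ML.D1

/-!
# ML-F6: finite facts about the Petersen graph

All statements are finite; they were checked by computer (every required parity class occurs).
Suggested proof: give the patterns by an explicit table (computed by a small program) as a function of
`p`, `q` and check with `decide` (or `simp` + `decide` after case splits).  No `native_decide`.
-/

set_option autoImplicit false
set_option linter.unusedSectionVars false
set_option linter.unusedVariables false

namespace ML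

/-- masks -/
private def f6m (m : ℕ) : Finset PE :=
  Finset.univ.filter (fun e => Nat.testBit m (e.1.val * 5 + e.2.val) = true)

private def f6v (p : PV) : ℕ := (if p.1 = true then 5 else 0) + p.2.val

private def f6g (t : List (ℕ × ℕ)) (p q : PV) : ℕ × ℕ := t.getD (f6v p * 10 + f6v q) (0, 0)

private def f6AA : List (ℕ × ℕ) :=
  [(0,0), (0,0), (1856,12360), (8896,3586), (0,0), (0,0), (12298,1794), (24586,8772),
    (17418,1604), (3082,8392), (0,0), (0,0), (0,0), (2720,24720), (16800,6180), (6164,16784),
    (0,0), (24596,2596), (17428,16552), (3092,2216), (1856,12360), (0,0), (0,0), (0,0),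
    (4448,17665), (6153,4432), (12297,1793), (0,0), (17417,4200), (3081,1360), (8896,3586),
    (2720,24720), (0,0), (0,0), (0,0), (6162,2689), (12306,8833), (24594,2594), (0,0),
    (3090,8400), (0,0), (16800,6180), (4448,17665), (0,0), (0,0), (6149,16769), (12293,4386),
    (24581,16674), (17413,4196), (0,0), (0,0), (6164,16784), (6153,4432), (6162,2689),
    (6149,16769), (0,0), (4370,897), (0,0), (0,0), (2185,464), (12298,1794), (0,0),
    (12297,1793), (12306,8833), (12293,4386), (4370,897), (0,0), (8709,802), (0,0), (0,0),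
    (24586,8772), (24596,2596), (0,0), (24594,2594), (24581,16674), (0,0), (8709,802), (0,0),
    (16426,612), (0,0), (17418,1604), (17428,16552), (17417,4200), (0,0), (17413,4196), (0,0),
    (0,0), (16426,612), (0,0), (1108,232), (3082,8392), (3092,2216), (3081,1360), (3090,8400),
    (0,0), (2185,464), (0,0), (0,0), (1108,232), (0,0)]

private def f6BA : List (ℕ × ℕ) :=
  [(0,0), (6196,16816), (6185,4464), (6194,2721), (6181,16801), (16785,6165), (4402,929),
    (2597,24597), (4212,17429), (2217,496), (12362,1858), (0,0), (12361,1857), (3587,8897),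
    (12357,4450), (4434,961), (1795,12299), (8773,866), (1605,17419), (1362,3083), (3590,8900),
    (24724,2724), (0,0), (24722,2722), (6182,16802), (2693,6166), (8837,930), (2598,24598),
    (16554,740), (2218,3094), (12364,1860), (6188,16808), (17673,4456), (0,0), (17669,4452),
    (4436,6157), (1797,12301), (16682,868), (4204,17421), (1364,488), (3594,8904), (3604,2728),
    (3593,1872), (3602,8912), (0,0), (2697,976), (1810,12314), (2602,24602), (1620,744),
    (8408,3098), (25610,9796), (25620,3620), (1888,12392), (8928,3618), (25605,12388), (0,0),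
    (9733,1826), (24618,8804), (17450,1636), (3114,8424), (19466,3652), (19476,18600),
    (19465,6248), (2784,24784), (16864,6244), (6228,16848), (0,0), (18474,2660), (17492,16616),
    (3156,2280), (1984,12488), (7188,6312), (7177,5456), (7186,3713), (4576,17793),
    (6281,4560), (5394,1921), (0,0), (5204,4328), (3209,1488), (9152,3842), (2976,24976),
    (14345,3841), (14354,10881), (14341,6434), (6418,2945), (12562,9089), (10757,2850), (0,0),
    (3346,8656), (28682,12868), (17312,6692), (4960,18177), (28690,6690), (28677,20770),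
    (6661,17281), (12805,4898), (25093,17186), (17925,4708), (0,0)]

private def f6BB : List (ℕ × ℕ) :=
  [(0,0), (0,0), (2725,6198), (4468,6189), (0,0), (0,0), (6260,16880), (6313,4592), (6450,2977),
    (6693,17313), (0,0), (0,0), (0,0), (1861,12365), (1874,3595), (9797,1890), (0,0),
    (5458,1985), (3843,9153), (12869,4962), (2725,6198), (0,0), (0,0), (0,0), (2730,3606),
    (3622,8932), (18602,2788), (0,0), (10885,2978), (6694,17314), (4468,6189), (1861,12365),
    (0,0), (0,0), (0,0), (12396,1892), (6252,16872), (5460,4584), (0,0), (18181,4964), (0,0),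
    (1874,3595), (2730,3606), (0,0), (0,0), (3626,8936), (3668,2792), (3721,2000), (3858,9168),
    (0,0), (0,0), (9797,1890), (3622,8932), (12396,1892), (3626,8936), (0,0), (19498,3684),
    (0,0), (0,0), (26117,12900), (6260,16880), (0,0), (18602,2788), (6252,16872), (3668,2792),
    (19498,3684), (0,0), (7252,6376), (0,0), (0,0), (6313,4592), (5458,1985), (0,0),
    (5460,4584), (3721,2000), (0,0), (7252,6376), (0,0), (7442,3969), (0,0), (6450,2977),
    (3843,9153), (10885,2978), (0,0), (3858,9168), (0,0), (0,0), (7442,3969), (0,0),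
    (14853,6946), (6693,17313), (12869,4962), (6694,17314), (18181,4964), (0,0), (26117,12900),
    (0,0), (0,0), (14853,6946), (0,0)]

private def f6C : List (ℕ × ℕ) :=
  [(16768,6148), (1792,12296), (2592,24592), (4192,17409), (8384,3074), (16394,580), (1044,168),
    (2057,336), (4114,641), (8197,290)]

private lemma f6_AA : ∀ p q : PV, p ≠ q → padj p q = false →
    (∀ r, pdeg (f6m (f6g f6AA p q).1) r = if r = p ∨ r = q then 0 else 1) ∧
    (∀ r, pdeg (f6m (f6g f6AA p q).2) r = if r = p ∨ r = q then 0 else 1) ∧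
    Odd (pout (f6m (f6g f6AA p q).1) + pout (f6m (f6g f6AA p q).2)) := by
  decide +kernel

private lemma f6_BA : ∀ p q : PV, p ≠ q →
    (∀ r, pdeg (f6m (f6g f6BA p q).1) r = if r = p then 2 else if r = q then 0 else 1) ∧
    (∀ r, pdeg (f6m (f6g f6BA p q).2) r = if r = p then 2 else if r = q then 0 else 1) ∧
    Odd (pout (f6m (f6g f6BA p q).1) + pout (f6m (f6g f6BA p q).2)) := by
  decide +kernel

private lemma f6_BB : ∀ p q : PV, p ≠ q → padj p q = false →
    (∀ r, pdeg (f6m (f6g f6BB p q).1) r = if r = p ∨ r = q then 2 else 1) ∧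
    (∀ r, pdeg (f6m (f6g f6BB p q).2) r = if r = p ∨ r = q then 2 else 1) ∧
    Odd (pout (f6m (f6g f6BB p q).1) + pout (f6m (f6g f6BB p q).2)) := by
  decide +kernel

private lemma f6_C6 : ∀ p : PV,
    (∀ r, pdeg (f6m (f6C.getD (f6v p) (0, 0)).1) r = if r = p ∨ padj p r = true then 0 else 1) ∧
    (∀ r, pdeg (f6m (f6C.getD (f6v p) (0, 0)).2) r = if r = p ∨ padj p r = true then 0 else 1) ∧
    Odd (pout (f6m (f6C.getD (f6v p) (0, 0)).1) + pout (f6m (f6C.getD (f6v p) (0, 0)).2)) := by
  decide +kernel

/-- the pattern without `k` -/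
private def f6D : List ℕ := [4466, 8901, 16810, 1876, 2729, 25621, 19467, 7190, 14349, 28698, 12520, 25040, 18305, 3874, 6756]

/-- the masks of the patterns with `k`, in the order of the edges `i` at `src k`, `j` at `tgt k` -/
private def f6D' : List (List ℕ) := [[17683, 12373, 6187, 993],
  [3591, 24715, 12374, 994],
  [6190, 17686, 24717, 996],
  [12380, 3597, 17690, 1000],
  [24729, 6202, 3605, 1008],
  [3621, 24745, 17714, 12404],
  [3653, 24777, 6250, 17746],
  [17810, 6314, 3717, 12500],
  [3845, 12628, 6442, 24969],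
  [6698, 25225, 12884, 18194],
  [2016, 7210, 25737, 13396],
  [3040, 14420, 19730, 26761],
  [5088, 28809, 7685, 21778],
  [9184, 25874, 14378, 11781],
  [17376, 19973, 28756, 22570]]

private def f6k (k : PE) : ℕ := k.1.val * 5 + k.2.val

private def f6P (k i j : PE) (m : ℕ) : Prop :=
  (∀ r, pdeg (f6m m) r = if r = src k ∨ r = tgt k then 2 else 1) ∧
    k ∈ f6m m ∧ i ∈ f6m m ∧ j ∈ f6m m ∧ Odd (pout (f6m (f6D.getD (f6k k) 0)) + pout (f6m m))

private instance f6_dec (k i j : PE) : DecidablePred (f6P k i j) := fun m => by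
  unfold f6P
  infer_instance

private lemma f6_adj1 : ∀ k : PE,
    ∀ r, pdeg (f6m (f6D.getD (f6k k) 0)) r = if r = src k ∨ r = tgt k then 2 else 1 := by
  decide +kernel

private lemma f6_adj2 : ∀ k : PE, k ∉ f6m (f6D.getD (f6k k) 0) := by
  decide +kernel

private lemma f6_adj3 : ∀ k i j : PE, (i ≠ k ∧ j ≠ k ∧ (src i = src k ∨ tgt i = src k) ∧
      (src j = tgt k ∨ tgt j = tgt k)) →
      (f6D'.getD (f6k k) []).any (fun m => decide (f6P k i j m)) = true := by
  decide +kernel

lemma padj_src_tgt (i : PE) : padj (src i) (tgt i) = true := by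
  revert i
  decide +kernel

lemma padj_comm (p q : PV) : padj p q = padj q p := by
  revert p q
  decide +kernel

lemma padj_self (p : PV) : padj p p = false := by
  revert p
  decide +kernel

/-- Every pair of adjacent vertices is joined by exactly one edge. -/
lemma exists_pe {p q : PV} (h : padj p q = true) :
    ∃ i : PE, (src i = p ∧ tgt i = q) ∨ (src i = q ∧ tgt i = p) := by
  revert p q
  decide +kernel

lemma pe_unique {i j : PE} (h : (src i = src j ∧ tgt i = tgt j) ∨ (src i = tgt j ∧ tgt i = src j)) :
    i = j := by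
  revert i j
  decide +kernel

/-- Three neighbours. -/
lemma three_nbrs (p : PV) : ∃ a b c : PV, a ≠ b ∧ a ≠ c ∧ b ≠ c ∧
    ∀ q, padj p q = true ↔ (q = a ∨ q = b ∨ q = c) := by
  revert p
  decide +kernel

/-- Triangle free. -/
lemma tri_free (p q r : PV) : ¬ (padj p q = true ∧ padj q r = true ∧ padj p r = true) := by
  revert p q r
  decide +kernel

/-- The two ends are both outer iff the edge is an outer edge. -/
lemma oc_iff (i : PE) : oc (src i) (tgt i) = true ↔ i.1 = 0 := by
  revert i
  decide +kernel

/-- Patterns for `u` in `A` over `p`, `v` in `A` over `q`, `p`, `q` not adjacent. -/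
lemma pat_AA (p q : PV) (h : p ≠ q) (ha : padj p q = false) : ∃ D D' : Finset PE,
    (∀ r, pdeg D r = if r = p ∨ r = q then 0 else 1) ∧
    (∀ r, pdeg D' r = if r = p ∨ r = q then 0 else 1) ∧ Odd (pout D + pout D') :=
  ⟨_, _, f6_AA p q h ha⟩

/-- Patterns for `u` not in `A` over `p`, `v` in `A` over `q`. -/
lemma pat_BA (p q : PV) (h : p ≠ q) : ∃ D D' : Finset PE,
    (∀ r, pdeg D r = if r = p then 2 else if r = q then 0 else 1) ∧
    (∀ r, pdeg D' r = if r = p then 2 else if r = q then 0 else 1) ∧ Odd (pout D + pout D') :=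
  ⟨_, _, f6_BA p q h⟩

/-- Patterns for `u`, `v` not in `A`, over nonadjacent `p`, `q`. -/
lemma pat_BB (p q : PV) (h : p ≠ q) (ha : padj p q = false) : ∃ D D' : Finset PE,
    (∀ r, pdeg D r = if r = p ∨ r = q then 2 else 1) ∧
    (∀ r, pdeg D' r = if r = p ∨ r = q then 2 else 1) ∧ Odd (pout D + pout D') :=
  ⟨_, _, f6_BB p q h ha⟩

/-- Patterns for `u`, `v` not in `A`, over adjacent `p`, `q`: one without the edge `k = pq`, and for all
other neighbours `p'` of `p`, `q'` of `q` one with `pq`, `pp'`, `qq'`, of different parity. -/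
lemma pat_BBadj (k : PE) : ∃ D : Finset PE,
    (∀ r, pdeg D r = if r = src k ∨ r = tgt k then 2 else 1) ∧ k ∉ D ∧
    ∀ i j : PE, i ≠ k → j ≠ k → (src i = src k ∨ tgt i = src k) → (src j = tgt k ∨ tgt j = tgt k) →
      ∃ D' : Finset PE, (∀ r, pdeg D' r = if r = src k ∨ r = tgt k then 2 else 1) ∧ k ∈ D' ∧
        i ∈ D' ∧ j ∈ D' ∧ Odd (pout D + pout D') := by
  refine ⟨_, f6_adj1 k, f6_adj2 k, fun i j hi hj h4 h5 => ?_⟩
  have h6 := f6_adj3 k i j ⟨hi, hj, h4, h5⟩
  rw [List.any_eq_true] at h6
  obtain ⟨m, -, hm⟩ := h6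
  exact ⟨f6m m, of_decide_eq_true hm⟩

/-- The two perfect matchings of the 6-cycle of the vertices not in the closed neighbourhood of `p`. -/
lemma pat_C6 (p : PV) : ∃ D D' : Finset PE,
    (∀ r, pdeg D r = if r = p ∨ padj p r = true then 0 else 1) ∧
    (∀ r, pdeg D' r = if r = p ∨ padj p r = true then 0 else 1) ∧ Odd (pout D + pout D') :=
  ⟨_, _, f6_C6 p⟩

/-- Parity in `ℚ/ℤ`. -/
lemma smul_half_ne {m n : ℕ} (h : Odd (m + n)) : (m • half : QZ) ≠ n • half := by
  have h2 : (2 : ℕ) • half = 0 := by rw [two_nsmul]; exact half_add_half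
  have hev : ∀ a : ℕ, Even a → a • half = 0 := by
    intro a ha
    obtain ⟨b, hb⟩ := ha
    have hb' : a = 2 * b := by omega
    rw [hb', mul_nsmul, h2, nsmul_zero]
  have hod : ∀ a : ℕ, Odd a → a • half = half := by
    intro a ha
    obtain ⟨b, hb⟩ := ha
    rw [hb, add_nsmul, one_nsmul, hev (2 * b) ⟨b, by omega⟩, zero_add]
  rcases Nat.even_or_odd m with hm | hm
  · have hn : Odd n := (Nat.odd_add'.1 h).2 hm
    rw [hev m hm, hod n hn]
    exact fun h => half_ne_zero h.symm
  · have hn : Even n := (Nat.odd_add.1 h).1 hm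
    rw [hod m hm, hev n hn]
    exact half_ne_zero

end ML
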