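import Pool.Agent.ML.F1
import Pool.Agent.ML.F6

/-!
# ML-F5: edges over the Petersen graph, assembling matchings
-/

set_option autoImplicit false
set_option linter.unusedSectionVars false
set_option linter.unusedFintypeInType false
set_option linter.unusedVariables false

namespace ML
namespace MG

variable {V E : Type} [Fintype V] [Fintype E] [DecidableEq V] [DecidableEq E] (G : MG V E)

/-- `f` lies over the edge `i` of the Petersen graph. -/
def Over (G : MG V E) (π : V → PV) (f : E) (i : PE) : Prop :=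
  f ∈ G.F ∧ ((π (G.s f) = src i ∧ π (G.t f) = tgt i) ∨ (π (G.s f) = tgt i ∧ π (G.t f) = src i))

private lemma f5_och_self (p : PV) : och p p = 0 := by
  unfold och
  rw [if_neg]
  simp [oc]

private lemma f5_oc_comm (p q : PV) : oc p q = oc q p := by
  unfold oc
  have h : decide (p ≠ q) = decide (q ≠ p) := by
    rw [decide_eq_decide]
    exact ne_comm
  rw [h, Bool.and_comm (!p.1) (!q.1)]

private lemma f5_och_over {π : V → PV} {f : E} {i : PE} (hf : Over G π f i) :
    och (π (G.s f)) (π (G.t f)) = if i.1 = 0 then half else 0 := by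
  unfold och
  rcases hf.2 with ⟨h1, h2⟩ | ⟨h1, h2⟩
  · rw [h1, h2]
    by_cases h : i.1 = 0
    · rw [if_pos h, if_pos ((oc_iff i).mpr h)]
    · rw [if_neg h, if_neg (fun h3 => h ((oc_iff i).mp h3))]
  · rw [h1, h2, f5_oc_comm]
    by_cases h : i.1 = 0
    · rw [if_pos h, if_pos ((oc_iff i).mpr h)]
    · rw [if_neg h, if_neg (fun h3 => h ((oc_iff i).mp h3))]

private lemma f5_ne {π : V → PV} {f : E} {i : PE} (hf : Over G π f i) :
    π (G.s f) ≠ π (G.t f) := by
  have h0 : src i ≠ tgt i := by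
    intro h
    have h1 := padj_src_tgt i
    rw [h, padj_self] at h1
    exact absurd h1 (by decide)
  rcases hf.2 with ⟨h1, h2⟩ | ⟨h1, h2⟩
  · rw [h1, h2]; exact h0
  · rw [h1, h2]; exact h0.symm

/-- Generic assembly: `f i` (`i ∈ D`) edges over the edges `i` of the pattern `D` with pairwise disjoint
ends; `R` the set of vertices covered by them; `W ⊆ PV`; every fibre `q ∈ W` minus `R` has a perfect matching;
the ends of the `f i` lie in fibres of `W`.  Then the union of the fibres of `W` has a perfect matching `N`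
with `f i ∈ N` for `i ∈ D` and all other edges inside fibres; so `∑_{g ∈ N} och = pout D • half`.
Proof: `{f i}` is a perfect matching of its set of ends (`isPM_of` / `isPM_insert`); matchings of the
`fib q \ R` (`isPM_biUnion`); `isPM_union`.  `och` vanishes on edges inside a fibre (`och_self`), and is
`half` on `f i` iff `i` is outer (`oc_iff`, `och_comm`). -/
theorem assemble {π : V → PV} {D : Finset PE} {f : PE → E} (hf : ∀ i ∈ D, Over G π (f i) i)
    (hd : ∀ i ∈ D, ∀ j ∈ D, i ≠ j → ∀ x, (G.s (f i) = x ∨ G.t (f i) = x) →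
      ¬ (G.s (f j) = x ∨ G.t (f j) = x)) (W : Finset PV)
    (hW : ∀ i ∈ D, src i ∈ W ∧ tgt i ∈ W)
    (hm : ∀ q ∈ W, ∃ M, (G.sub (G.fib π q \
      (G.U.filter (fun x => ∃ i ∈ D, G.s (f i) = x ∨ G.t (f i) = x)))).IsPM M) :
    ∃ N, (G.sub (W.biUnion (G.fib π))).IsPM N ∧
      ∑ g ∈ N, och (π (G.s g)) (π (G.t g)) = pout D • half := by
  classical
  obtain ⟨R, hR⟩ : ∃ R, R = G.U.filter (fun x => ∃ i ∈ D, G.s (f i) = x ∨ G.t (f i) = x) :=
    ⟨_, rfl⟩
  rw [← hR] at hm
  have hmemR : ∀ x, x ∈ R ↔ x ∈ G.U ∧ ∃ i ∈ D, G.s (f i) = x ∨ G.t (f i) = x := by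
    intro x
    rw [hR, Finset.mem_filter]
  have hinj : ∀ i ∈ D, ∀ j ∈ D, f i = f j → i = j := by
    intro i hi j hj h
    by_contra hne
    exact hd i hi j hj hne (G.s (f i)) (Or.inl rfl) (Or.inl (by rw [h]))
  have hM1 : (G.sub R).IsPM (D.image f) := by
    refine (G.sub R).isPM_of ?_ ?_ ?_ ?_
    · intro g hg
      obtain ⟨i, hi, rfl⟩ := Finset.mem_image.mp hg
      have hF := (hf i hi).1
      exact G.mem_inn.mpr ⟨hF, (hmemR _).mpr ⟨G.hs _ hF, i, hi, Or.inl rfl⟩,
        (hmemR _).mpr ⟨G.ht _ hF, i, hi, Or.inr rfl⟩⟩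
    · intro g hg
      obtain ⟨i, hi, rfl⟩ := Finset.mem_image.mp hg
      intro h
      exact f5_ne G (hf i hi) (congrArg π h)
    · intro v hv
      obtain ⟨-, i, hi, h⟩ := (hmemR v).mp hv
      exact ⟨f i, Finset.mem_image_of_mem f hi, h⟩
    · intro v hv g hg g' hg' h1 h2
      obtain ⟨i, hi, rfl⟩ := Finset.mem_image.mp hg
      obtain ⟨j, hj, rfl⟩ := Finset.mem_image.mp hg'
      by_contra hne
      have hij : i ≠ j := fun h => hne (by rw [h])
      exact hd i hi j hj hij v h1 h2
  choose! M hM using hm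
  have hM2 := G.isPM_biUnion (ι := {q // q ∈ W}) (fun q => G.fib π q.1 \ R) (fun q => M q.1)
    (fun i j hij => by
      have h1 : i.1 ≠ j.1 := fun h => hij (Subtype.ext h)
      exact Finset.disjoint_of_subset_left Finset.sdiff_subset
        (Finset.disjoint_of_subset_right Finset.sdiff_subset (fib_disj G h1)))
    (fun q => hM q.1 q.2)
  have hdis : Disjoint R (Finset.univ.biUnion (fun q : {q // q ∈ W} => G.fib π q.1 \ R)) := by
    rw [Finset.disjoint_left]
    intro v hv hv'
    obtain ⟨q, -, hq⟩ := Finset.mem_biUnion.mp hv'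
    exact (Finset.mem_sdiff.mp hq).2 hv
  have hU := G.isPM_union hdis hM1 hM2
  have hset : R ∪ Finset.univ.biUnion (fun q : {q // q ∈ W} => G.fib π q.1 \ R) =
      W.biUnion (G.fib π) := by
    ext v
    rw [Finset.mem_union, Finset.mem_biUnion, Finset.mem_biUnion]
    constructor
    · rintro (h | ⟨q, -, hq⟩)
      · obtain ⟨hvU, i, hi, h1⟩ := (hmemR v).mp h
        obtain ⟨hF, h2⟩ := hf i hi
        have h3 : π v ∈ W := by
          rcases h1 with rfl | rfl
          · rcases h2 with ⟨h4, -⟩ | ⟨h4, -⟩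
            · rw [h4]; exact (hW i hi).1
            · rw [h4]; exact (hW i hi).2
          · rcases h2 with ⟨-, h4⟩ | ⟨-, h4⟩
            · rw [h4]; exact (hW i hi).2
            · rw [h4]; exact (hW i hi).1
        exact ⟨π v, h3, Finset.mem_filter.mpr ⟨hvU, rfl⟩⟩
      · exact ⟨q.1, q.2, (Finset.mem_sdiff.mp hq).1⟩
    · rintro ⟨q, hq, hv⟩
      by_cases h : v ∈ R
      · exact Or.inl h
      · exact Or.inr ⟨⟨q, hq⟩, Finset.mem_univ _, Finset.mem_sdiff.mpr ⟨hv, h⟩⟩
  rw [hset] at hU
  refine ⟨_, hU, ?_⟩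
  rw [Finset.sum_union (G.disj_of_isPM hdis hM1 hM2)]
  have hz : ∑ g ∈ Finset.univ.biUnion (fun q : {q // q ∈ W} => M q.1),
      och (π (G.s g)) (π (G.t g)) = 0 := by
    refine Finset.sum_eq_zero fun g hg => ?_
    obtain ⟨q, -, hq⟩ := Finset.mem_biUnion.mp hg
    have h1 := (hM q.1 q.2).1 hq
    obtain ⟨-, h2, h3⟩ := G.mem_inn.mp h1
    have h4 := (Finset.mem_filter.mp (Finset.mem_sdiff.mp h2).1).2
    have h5 := (Finset.mem_filter.mp (Finset.mem_sdiff.mp h3).1).2
    rw [h4, h5, f5_och_self]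
  rw [hz, add_zero, Finset.sum_image hinj,
    Finset.sum_congr rfl (fun i hi => f5_och_over G (hf i hi)), ← Finset.sum_filter,
    Finset.sum_const]
  rfl

variable {G} in
/-- Default choice of edges over all edges of the Petersen graph. -/
theorem exists_over {π : V → PV} {A : Finset V} (hP : G.PS π A) : ∃ ε : PE → E, ∀ i, Over G π (ε i) i := by
  have h : ∀ i : PE, ∃ e, Over G π e i := by
    intro i
    obtain ⟨e, he, h1⟩ := hP.real (src i) (tgt i) (padj_src_tgt i)
    exact ⟨e, he, h1⟩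
  choose ε hε using h
  exact ⟨ε, hε⟩

/-- Disjointness of ends reduces to common fibres: edges over different edges `i`, `j` of the Petersen
graph can only share an end in a fibre of a common vertex of `i` and `j`. -/
theorem share_end {π : V → PV} {f g : E} {i j : PE} (hf : Over G π f i) (hg : Over G π g j) {x : V}
    (h1 : G.s f = x ∨ G.t f = x) (h2 : G.s g = x ∨ G.t g = x) :
    (src i = π x ∨ tgt i = π x) ∧ (src j = π x ∨ tgt j = π x) := by
  have key : ∀ (f : E) (i : PE), Over G π f i → (G.s f = x ∨ G.t f = x) →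
      (src i = π x ∨ tgt i = π x) := by
    intro f i hf h
    rcases h with rfl | rfl
    · rcases hf.2 with ⟨h4, -⟩ | ⟨h4, -⟩
      · exact Or.inl h4.symm
      · exact Or.inr h4.symm
    · rcases hf.2 with ⟨-, h4⟩ | ⟨-, h4⟩
      · exact Or.inr h4.symm
      · exact Or.inl h4.symm
  exact ⟨key f i hf h1, key g j hg h2⟩

/-- The value of `χ` on a perfect matching containing `e` when `PC` holds for all other edges. -/
theorem chi_value {e : E} {π : V → PV} {y : V → QZ} {χ : E → QZ} (hC : (G.del e).PC π y χ)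
    {N : Finset E} (hN : G.IsPM N) (heN : e ∈ N) :
    ∑ g ∈ N, χ g = χ e - y (G.s e) - y (G.t e) + ∑ v ∈ G.U, y v +
      ∑ g ∈ N.erase e, och (π (G.s g)) (π (G.t g)) := by
  have h1 : ∑ g ∈ N.erase e, χ g = ∑ g ∈ N.erase e, (y (G.s g) + y (G.t g)) +
      ∑ g ∈ N.erase e, och (π (G.s g)) (π (G.t g)) := by
    rw [← Finset.sum_add_distrib]
    refine Finset.sum_congr rfl fun g hg => ?_
    have hg' := Finset.mem_erase.mp hg
    exact hC g (Finset.mem_erase.mpr ⟨hg'.1, hN.1 hg'.2⟩)
  have h2 := hN.pot y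
  rw [← Finset.add_sum_erase N _ heN] at h2
  rw [← Finset.add_sum_erase N _ heN, h1, ← h2]
  abel

end MG
end ML
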