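import Pool.Agent.ML.F5
import Pool.Agent.ML.F2

/-!
# ML-F5b: realization of patterns (step 4.4)
-/

set_option autoImplicit false
set_option linter.unusedSectionVars false
set_option linter.unusedFintypeInType false
set_option linter.unusedVariables false

namespace ML
namespace MG

variable {V E : Type} [Fintype V] [Fintype E] [DecidableEq V] [DecidableEq E] (G : MG V E)

lemma f5b_ne (i : PE) : src i ≠ tgt i := by
  intro h
  have h1 := padj_src_tgt i
  rw [h, padj_self] at h1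
  exact Bool.false_ne_true h1

variable {G} in
/-- The end of an edge over `i` in a fibre of an end of `i`. -/
lemma f5b_end {π : V → PV} {A : Finset V} (hP : G.PS π A) {g : E} {i : PE} (hg : Over G π g i)
    {q : PV} (hq : src i = q ∨ tgt i = q) : ∃ a, a ∈ G.fib π q ∩ A ∧ (G.s g = a ∨ G.t g = a) ∧
      ∀ x, π x = q → (G.s g = x ∨ G.t g = x) → x = a := by
  obtain ⟨hgF, hg2⟩ := hg
  have hne := f5b_ne i
  have hA : G.s g ∈ A ∧ G.t g ∈ A := by
    rcases hP.edge g hgF with h | h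
    · exfalso
      rcases hg2 with h2 | h2
      · exact hne (by rw [← h2.1, ← h2.2, h.1])
      · exact hne (by rw [← h2.1, ← h2.2, h.1])
    · exact h.2
  have hs : ∀ {x : V}, x ∈ G.U → π x = q → x ∈ A → x ∈ G.fib π q ∩ A := fun h1 h2 h3 =>
    Finset.mem_inter.2 ⟨Finset.mem_filter.2 ⟨h1, h2⟩, h3⟩
  have key : ∀ {p r : PV}, p ≠ r → (π (G.s g) = p ∧ π (G.t g) = r) → (p = q ∨ r = q) →
      ∃ a, a ∈ G.fib π q ∩ A ∧ (G.s g = a ∨ G.t g = a) ∧
      ∀ x, π x = q → (G.s g = x ∨ G.t g = x) → x = a := by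
    intro p r hpr h1 h2
    rcases h2 with h2 | h2
    · refine ⟨G.s g, hs (G.hs g hgF) (h1.1.trans h2) hA.1, Or.inl rfl, ?_⟩
      rintro x hx (h3 | h3)
      · exact h3.symm
      · exfalso
        apply hpr
        rw [h2, ← hx, ← h3, h1.2]
    · refine ⟨G.t g, hs (G.ht g hgF) (h1.2.trans h2) hA.2, Or.inr rfl, ?_⟩
      rintro x hx (h3 | h3)
      · exfalso
        apply hpr
        rw [h2, ← hx, ← h3, h1.1]
      · exact h3.symm
  rcases hg2 with h2 | h2
  · exact key hne h2 hq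
  · exact key hne.symm h2 hq.symm

variable {G} in
lemma f5b_mem {π : V → PV} {g : E} {i : PE} (hg : Over G π g i) {x : V}
    (hx : G.s g = x ∨ G.t g = x) : src i = π x ∨ tgt i = π x := by
  rcases hg.2 with h2 | h2 <;> rcases hx with rfl | rfl
  · exact Or.inl h2.1.symm
  · exact Or.inr h2.2.symm
  · exact Or.inr h2.1.symm
  · exact Or.inl h2.2.symm

variable {G} in
/-- Step 4.4.  `e = uv` in different fibres, `D` a pattern with the right degrees, `f` edges of `G.del e`
over `D` with pairwise disjoint ends: there is a perfect matching `N` of `G` containing `e` with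
`∑_{g ∈ N.erase e} och = pout D • half`.
Proof.  Let `R` be the set of ends of the `f i`, `i ∈ D`.  All these ends are in `A` (the `f i` cross
between fibres, edge condition).  For a fibre `r ≠ π u, π v`: `pdeg D r = 1`, so `R ∩ fib r = {a}` with
`a ∈ A`, and `fib r \ R` has a perfect matching in `G.del e` (`fib_r1`).  For `r = π u`: if `u ∈ A`,
`pdeg = 0`, `R ∩ fib r = ∅` and `(fib r).erase u` has a perfect matching (`fib_r1`); if `u ∉ A`,
`pdeg = 2`, `R ∩ fib r = {a, a'}` with `a ≠ a'` (disjoint ends) and `fib r \ {u, a, a'}` has one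
(`fib_r2`; `v` is in another fibre).  Same for `v`.  The union of these matchings, the `f i` and `e` is a
perfect matching of `G` (as in `assemble`; treat `u`, `v` as removed from their fibres, add `e` with
`isPM_insert`). -/
theorem realize (hB : G.Brick) {e : E} (he : e ∈ G.F) {π : V → PV} {A : Finset V}
    (hP : (G.del e).PS π A) (hpq : π (G.s e) ≠ π (G.t e)) {D : Finset PE} {f : PE → E}
    (hf : ∀ i ∈ D, Over (G.del e) π (f i) i)
    (hd : ∀ i ∈ D, ∀ j ∈ D, i ≠ j → ∀ x, (G.s (f i) = x ∨ G.t (f i) = x) →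
      ¬ (G.s (f j) = x ∨ G.t (f j) = x))
    (hdeg : ∀ r, pdeg D r = if r = π (G.s e) then (if G.s e ∈ A then 0 else 2) else
      if r = π (G.t e) then (if G.t e ∈ A then 0 else 2) else 1) :
    ∃ N, G.IsPM N ∧ e ∈ N ∧
      ∑ g ∈ N.erase e, och (π (G.s g)) (π (G.t g)) = pout D • half := by
  classical
  obtain ⟨hMc, -, -, -⟩ := id hB
  have hsU := G.hs e he
  have htU := G.ht e he
  have hst : G.s e ≠ G.t e := hMc.ne he
  have hne0 : ∀ p : PV, ¬ (G.s e ∈ G.fib π p \ A ∧ G.t e ∈ G.fib π p \ A) := by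
    rintro p ⟨h1, h2⟩
    have h3 := (Finset.mem_filter.1 (Finset.mem_sdiff.1 h1).1).2
    have h4 := (Finset.mem_filter.1 (Finset.mem_sdiff.1 h2).1).2
    exact hpq (h3.trans h4.symm)
  -- the ends of the edges of the pattern
  have hend : ∀ i ∈ D, ∀ q, (src i = q ∨ tgt i = q) → ∃ a, a ∈ G.fib π q ∩ A ∧
      (G.s (f i) = a ∨ G.t (f i) = a) ∧
      ∀ x, π x = q → (G.s (f i) = x ∨ G.t (f i) = x) → x = a := fun i hi q hq =>
    f5b_end hP (hf i hi) hq
  have hmem : ∀ i ∈ D, ∀ x, (G.s (f i) = x ∨ G.t (f i) = x) → (src i = π x ∨ tgt i = π x) :=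
    fun i hi x hx => f5b_mem (hf i hi) hx
  have hA : ∀ i ∈ D, ∀ x, (G.s (f i) = x ∨ G.t (f i) = x) → x ∈ A := by
    intro i hi x hx
    obtain ⟨a, ha, -, ha2⟩ := hend i hi _ (hmem i hi x hx)
    rw [ha2 x rfl hx]
    exact (Finset.mem_inter.1 ha).2
  -- the ends of `e` are not covered
  have hzero : ∀ q, pdeg D q = 0 → ∀ i ∈ D, ∀ x, (G.s (f i) = x ∨ G.t (f i) = x) → π x ≠ q := by
    intro q hq i hi x hx hxq
    have h1 := hmem i hi x hx
    rw [hxq] at h1
    have h2 : i ∈ D.filter (fun i => src i = q ∨ tgt i = q) := Finset.mem_filter.2 ⟨hi, h1⟩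
    rw [Finset.card_eq_zero.1 hq] at h2
    exact absurd h2 (Finset.notMem_empty _)
  have hus : ∀ i ∈ D, ¬ (G.s (f i) = G.s e ∨ G.t (f i) = G.s e) := by
    intro i hi hx
    by_cases hu : G.s e ∈ A
    · have h1 := hdeg (π (G.s e))
      rw [if_pos rfl, if_pos hu] at h1
      exact hzero _ h1 i hi _ hx rfl
    · exact hu (hA i hi _ hx)
  have hut : ∀ i ∈ D, ¬ (G.s (f i) = G.t e ∨ G.t (f i) = G.t e) := by
    intro i hi hx
    by_cases hu : G.t e ∈ A
    · have h1 := hdeg (π (G.t e))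
      rw [if_neg (Ne.symm hpq), if_pos rfl, if_pos hu] at h1
      exact hzero _ h1 i hi _ hx rfl
    · exact hu (hA i hi _ hx)
  -- the graph without the ends of `e`
  set W₀ : Finset V := G.U \ {G.s e, G.t e} with hW₀
  set G' : MG V E := (G.del e).sub W₀ with hG'
  have hW₀sub : W₀ ⊆ (G.del e).U := Finset.sdiff_subset
  have hmemW : ∀ x, x ∈ W₀ ↔ x ∈ G.U ∧ x ≠ G.s e ∧ x ≠ G.t e := by
    intro x
    rw [hW₀, Finset.mem_sdiff, Finset.mem_insert, Finset.mem_singleton, not_or]
  have hf' : ∀ i ∈ D, Over G' π (f i) i := by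
    intro i hi
    obtain ⟨h1, h2⟩ := hf i hi
    refine ⟨?_, h2⟩
    have h3 : f i ∈ G.F := Finset.mem_of_mem_erase h1
    refine Finset.mem_filter.2 ⟨h1, (hmemW _).2 ⟨G.hs _ h3, ?_, ?_⟩, (hmemW _).2 ⟨G.ht _ h3, ?_, ?_⟩⟩
    · exact fun h => hus i hi (Or.inl h)
    · exact fun h => hut i hi (Or.inl h)
    · exact fun h => hus i hi (Or.inr h)
    · exact fun h => hut i hi (Or.inr h)
  have hT : ∀ q x, x ∈ G'.fib π q \
      (G'.U.filter (fun x => ∃ i ∈ D, G'.s (f i) = x ∨ G'.t (f i) = x)) ↔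
      x ∈ G.U ∧ x ≠ G.s e ∧ x ≠ G.t e ∧ π x = q ∧ ¬ ∃ i ∈ D, G.s (f i) = x ∨ G.t (f i) = x := by
    intro q x
    rw [Finset.mem_sdiff, fib, Finset.mem_filter, Finset.mem_filter]
    have e1 : G'.U = W₀ := rfl
    rw [e1, hmemW]
    constructor
    · rintro ⟨⟨⟨h1, h2, h3⟩, h4⟩, h5⟩
      exact ⟨h1, h2, h3, h4, fun h6 => h5 ⟨⟨h1, h2, h3⟩, h6⟩⟩
    · rintro ⟨h1, h2, h3, h4, h5⟩
      exact ⟨⟨⟨h1, h2, h3⟩, h4⟩, fun h6 => h5 h6.2⟩
  have hm : ∀ q ∈ (Finset.univ : Finset PV), ∃ M, (G'.sub (G'.fib π q \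
      (G'.U.filter (fun x => ∃ i ∈ D, G'.s (f i) = x ∨ G'.t (f i) = x)))).IsPM M := by
    intro q _
    have hsub : G'.fib π q \ (G'.U.filter (fun x => ∃ i ∈ D, G'.s (f i) = x ∨ G'.t (f i) = x))
        ⊆ W₀ := by
      intro x hx
      have h := (hT q x).1 hx
      exact (hmemW x).2 ⟨h.1, h.2.1, h.2.2.1⟩
    have hss : G'.sub (G'.fib π q \
        (G'.U.filter (fun x => ∃ i ∈ D, G'.s (f i) = x ∨ G'.t (f i) = x))) =
        (G.del e).sub (G'.fib π q \
        (G'.U.filter (fun x => ∃ i ∈ D, G'.s (f i) = x ∨ G'.t (f i) = x))) :=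
      (G.del e).sub_sub hsub
    rw [hss]
    -- the three possible degrees
    have hd0 : pdeg D q = 0 → ∀ x, x ∈ G'.fib π q \
        (G'.U.filter (fun x => ∃ i ∈ D, G'.s (f i) = x ∨ G'.t (f i) = x)) ↔
        x ∈ G.U ∧ x ≠ G.s e ∧ x ≠ G.t e ∧ π x = q := by
      intro h0 x
      rw [hT]
      constructor
      · rintro ⟨h1, h2, h3, h4, h5⟩
        exact ⟨h1, h2, h3, h4⟩
      · rintro ⟨h1, h2, h3, h4⟩
        refine ⟨h1, h2, h3, h4, ?_⟩
        rintro ⟨i, hi, hx⟩
        exact hzero q h0 i hi x hx h4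
    have hd2 : pdeg D q = 2 → ∃ a a' : V, a ∈ G.fib π q ∩ A ∧ a' ∈ G.fib π q ∩ A ∧ a ≠ a' ∧
        ∀ x, x ∈ G'.fib π q \
        (G'.U.filter (fun x => ∃ i ∈ D, G'.s (f i) = x ∨ G'.t (f i) = x)) ↔
        x ∈ G.U ∧ x ≠ G.s e ∧ x ≠ G.t e ∧ π x = q ∧ x ≠ a ∧ x ≠ a' := by
      intro h2
      obtain ⟨i, j, hij, hI⟩ := Finset.card_eq_two.1 h2
      have hi := Finset.mem_filter.1 (hI ▸ Finset.mem_insert_self i {j})
      have hj := Finset.mem_filter.1 (hI ▸ Finset.mem_insert_of_mem (Finset.mem_singleton_self j))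
      obtain ⟨a, ha, ha1, ha2⟩ := hend i hi.1 q hi.2
      obtain ⟨a', ha', ha1', ha2'⟩ := hend j hj.1 q hj.2
      refine ⟨a, a', ha, ha', ?_, ?_⟩
      · rintro rfl
        exact hd i hi.1 j hj.1 hij a ha1 ha1'
      · intro x
        rw [hT]
        constructor
        · rintro ⟨h1, h2, h3, h4, h5⟩
          refine ⟨h1, h2, h3, h4, ?_, ?_⟩
          · rintro rfl
            exact h5 ⟨i, hi.1, ha1⟩
          · rintro rfl
            exact h5 ⟨j, hj.1, ha1'⟩
        · rintro ⟨h1, h2, h3, h4, h5, h6⟩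
          refine ⟨h1, h2, h3, h4, ?_⟩
          rintro ⟨l, hl, hx⟩
          have h7 := hmem l hl x hx
          rw [h4] at h7
          have h8 : l ∈ D.filter (fun i => src i = q ∨ tgt i = q) := Finset.mem_filter.2 ⟨hl, h7⟩
          rw [hI, Finset.mem_insert, Finset.mem_singleton] at h8
          rcases h8 with rfl | rfl
          · exact h5 (ha2 x h4 hx)
          · exact h6 (ha2' x h4 hx)
    have hd1 : pdeg D q = 1 → ∃ a : V, a ∈ G.fib π q ∩ A ∧
        ∀ x, x ∈ G'.fib π q \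
        (G'.U.filter (fun x => ∃ i ∈ D, G'.s (f i) = x ∨ G'.t (f i) = x)) ↔
        x ∈ G.U ∧ x ≠ G.s e ∧ x ≠ G.t e ∧ π x = q ∧ x ≠ a := by
      intro h2
      obtain ⟨i, hI⟩ := Finset.card_eq_one.1 h2
      have hi := Finset.mem_filter.1 (hI ▸ Finset.mem_singleton_self i)
      obtain ⟨a, ha, ha1, ha2⟩ := hend i hi.1 q hi.2
      refine ⟨a, ha, ?_⟩
      intro x
      rw [hT]
      constructor
      · rintro ⟨h1, h2, h3, h4, h5⟩
        refine ⟨h1, h2, h3, h4, ?_⟩
        rintro rfl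
        exact h5 ⟨i, hi.1, ha1⟩
      · rintro ⟨h1, h2, h3, h4, h5⟩
        refine ⟨h1, h2, h3, h4, ?_⟩
        rintro ⟨l, hl, hx⟩
        have h7 := hmem l hl x hx
        rw [h4] at h7
        have h8 : l ∈ D.filter (fun i => src i = q ∨ tgt i = q) := Finset.mem_filter.2 ⟨hl, h7⟩
        rw [hI, Finset.mem_singleton] at h8
        subst h8
        exact h5 (ha2 x h4 hx)
    have hdq := hdeg q
    by_cases hq1 : q = π (G.s e)
    · rw [if_pos hq1] at hdq
      have htne : ∀ x, π x = q → x ≠ G.t e := by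
        rintro x hx rfl
        exact hpq (hq1.symm.trans hx.symm)
      by_cases hu : G.s e ∈ A
      · rw [if_pos hu] at hdq
        have h1 := hd0 hdq
        have h2 : G'.fib π q \
            (G'.U.filter (fun x => ∃ i ∈ D, G'.s (f i) = x ∨ G'.t (f i) = x)) =
            (G.fib π q).erase (G.s e) := by
          ext x
          rw [h1, Finset.mem_erase, fib, Finset.mem_filter]
          constructor
          · rintro ⟨h3, h4, h5, h6⟩
            exact ⟨h4, h3, h6⟩
          · rintro ⟨h4, h3, h6⟩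
            exact ⟨h3, h4, htne x h6, h6⟩
        rw [h2]
        exact fib_r1 hB he hP (hne0 q)
          (Finset.mem_inter.2 ⟨Finset.mem_filter.2 ⟨hsU, hq1.symm⟩, hu⟩)
      · rw [if_neg hu] at hdq
        obtain ⟨a, a', ha, ha', haa, h1⟩ := hd2 hdq
        have h2 : G'.fib π q \
            (G'.U.filter (fun x => ∃ i ∈ D, G'.s (f i) = x ∨ G'.t (f i) = x)) =
            G.fib π q \ {G.s e, a, a'} := by
          ext x
          rw [h1, Finset.mem_sdiff, fib, Finset.mem_filter, Finset.mem_insert, Finset.mem_insert,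
            Finset.mem_singleton, not_or, not_or]
          constructor
          · rintro ⟨h3, h4, h5, h6, h7, h8⟩
            exact ⟨⟨h3, h6⟩, h4, h7, h8⟩
          · rintro ⟨⟨h3, h6⟩, h4, h7, h8⟩
            exact ⟨h3, h4, htne x h6, h6, h7, h8⟩
        rw [h2]
        exact fib_r2 hB he hP (Or.inl ⟨rfl, rfl⟩)
          (Finset.mem_sdiff.2 ⟨Finset.mem_filter.2 ⟨hsU, hq1.symm⟩, hu⟩)
          (fun h => hpq (by
            rw [← hq1]
            exact (Finset.mem_filter.1 (Finset.mem_sdiff.1 h).1).2.symm)) ha ha' haa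
    · rw [if_neg hq1] at hdq
      have hsne : ∀ x, π x = q → x ≠ G.s e := by
        rintro x hx rfl
        exact hq1 hx.symm
      by_cases hq2 : q = π (G.t e)
      · rw [if_pos hq2] at hdq
        by_cases hu : G.t e ∈ A
        · rw [if_pos hu] at hdq
          have h1 := hd0 hdq
          have h2 : G'.fib π q \
              (G'.U.filter (fun x => ∃ i ∈ D, G'.s (f i) = x ∨ G'.t (f i) = x)) =
              (G.fib π q).erase (G.t e) := by
            ext x
            rw [h1, Finset.mem_erase, fib, Finset.mem_filter]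
            constructor
            · rintro ⟨h3, h4, h5, h6⟩
              exact ⟨h5, h3, h6⟩
            · rintro ⟨h5, h3, h6⟩
              exact ⟨h3, hsne x h6, h5, h6⟩
          rw [h2]
          exact fib_r1 hB he hP (hne0 q)
            (Finset.mem_inter.2 ⟨Finset.mem_filter.2 ⟨htU, hq2.symm⟩, hu⟩)
        · rw [if_neg hu] at hdq
          obtain ⟨a, a', ha, ha', haa, h1⟩ := hd2 hdq
          have h2 : G'.fib π q \
              (G'.U.filter (fun x => ∃ i ∈ D, G'.s (f i) = x ∨ G'.t (f i) = x)) =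
              G.fib π q \ {G.t e, a, a'} := by
            ext x
            rw [h1, Finset.mem_sdiff, fib, Finset.mem_filter, Finset.mem_insert, Finset.mem_insert,
              Finset.mem_singleton, not_or, not_or]
            constructor
            · rintro ⟨h3, h4, h5, h6, h7, h8⟩
              exact ⟨⟨h3, h6⟩, h5, h7, h8⟩
            · rintro ⟨⟨h3, h6⟩, h5, h7, h8⟩
              exact ⟨h3, hsne x h6, h5, h6, h7, h8⟩
          rw [h2]
          exact fib_r2 hB he hP (Or.inr ⟨rfl, rfl⟩)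
            (Finset.mem_sdiff.2 ⟨Finset.mem_filter.2 ⟨htU, hq2.symm⟩, hu⟩)
            (fun h => hpq (by
              rw [← hq2]
              exact (Finset.mem_filter.1 (Finset.mem_sdiff.1 h).1).2)) ha ha' haa
      · rw [if_neg hq2] at hdq
        have htne : ∀ x, π x = q → x ≠ G.t e := by
          rintro x hx rfl
          exact hq2 hx.symm
        obtain ⟨a, ha, h1⟩ := hd1 hdq
        have h2 : G'.fib π q \
            (G'.U.filter (fun x => ∃ i ∈ D, G'.s (f i) = x ∨ G'.t (f i) = x)) =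
            (G.fib π q).erase a := by
          ext x
          rw [h1, Finset.mem_erase, fib, Finset.mem_filter]
          constructor
          · rintro ⟨h3, h4, h5, h6, h7⟩
            exact ⟨h7, h3, h6⟩
          · rintro ⟨h7, h3, h6⟩
            exact ⟨h3, hsne x h6, htne x h6, h6, h7⟩
        rw [h2]
        exact fib_r1 hB he hP (hne0 q) ha
  obtain ⟨N, hN, hsum⟩ := assemble (G := G') hf' hd Finset.univ
    (fun i _ => ⟨Finset.mem_univ _, Finset.mem_univ _⟩) hm
  rw [fib_union] at hN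
  have hN1 : G'.IsPM N := (G'.sub_self_isPM).1 hN
  have hN2 := (G.del_sub_isPM).1 hN1
  have hs0 : G.s e ∉ W₀ := fun h => ((hmemW _).1 h).2.1 rfl
  have ht0 : G.t e ∉ W₀ := fun h => ((hmemW _).1 h).2.2 rfl
  obtain ⟨hN3, heN⟩ := G.isPM_insert hN2.1 he hst hs0 ht0
  have hU : insert (G.s e) (insert (G.t e) W₀) = G.U := by
    ext x
    rw [Finset.mem_insert, Finset.mem_insert, hmemW]
    constructor
    · rintro (rfl | rfl | h)
      · exact hsU
      · exact htU
      · exact h.1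
    · intro h
      by_cases h1 : x = G.s e
      · exact Or.inl h1
      · by_cases h2 : x = G.t e
        · exact Or.inr (Or.inl h2)
        · exact Or.inr (Or.inr ⟨h, h1, h2⟩)
  rw [hU] at hN3
  refine ⟨insert e N, (G.sub_self_isPM).1 hN3, Finset.mem_insert_self _ _, ?_⟩
  rw [Finset.erase_insert heN]
  exact hsum


end MG
end ML
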