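import Pool.Agent.ML.F5b

/-!
# ML-F7: no A-A edge over nonadjacent vertices (step 4.5)
-/

set_option autoImplicit false
set_option linter.unusedSectionVars false
set_option linter.unusedFintypeInType false
set_option linter.unusedVariables false

namespace ML
namespace MG

variable {V E : Type} [Fintype V] [Fintype E] [DecidableEq V] [DecidableEq E] (G : MG V E)

variable {G} in
/-- `e` joins `A` to `A` over nonadjacent vertices: impossible.
Proof: `pat_AA` gives `D`, `D'`; all degrees are at most 1, so by `share_end` the default edges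
(`exists_over`) have pairwise disjoint ends; `realize` gives perfect matchings `N`, `N'` containing `e`;
`chi_value` for both, and `χ` kills both: `pout D • half = pout D' • half`, contradiction
(`smul_half_ne`). -/
theorem no_AA (hB : G.Brick) {e : E} (he : e ∈ G.F) {π : V → PV} {A : Finset V} {y : V → QZ}
    {χ : E → QZ} (hP : (G.del e).PS π A) (hC : (G.del e).PC π y χ) (hk : G.Kills χ)
    (hne : π (G.s e) ≠ π (G.t e)) (hs : G.s e ∈ A) (ht : G.t e ∈ A) :
    padj (π (G.s e)) (π (G.t e)) = true := by
  by_contra hcon
  have hpad : padj (π (G.s e)) (π (G.t e)) = false := by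
    rcases h : padj (π (G.s e)) (π (G.t e)) with _ | _
    · rfl
    · exact absurd h hcon
  obtain ⟨D, D', hD, hD', hodd⟩ := pat_AA (π (G.s e)) (π (G.t e)) hne hpad
  obtain ⟨ε, hε⟩ := exists_over hP
  have key : ∀ D : Finset PE,
      (∀ r, pdeg D r = if r = π (G.s e) ∨ r = π (G.t e) then 0 else 1) →
      (pout D • half : QZ) = -(χ e - y (G.s e) - y (G.t e) + ∑ v ∈ G.U, y v) := by
    intro D hD
    have hle : ∀ r, pdeg D r ≤ 1 := by
      intro r
      rw [hD r]
      split
      · exact Nat.zero_le _
      · exact le_refl _
    obtain ⟨N, hN, heN, hsum⟩ := realize hB he hP hne (D := D) (f := ε) (fun i _ => hε i) (by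
      intro i hi j hj hij x hx hx'
      obtain ⟨h1, h2⟩ := share_end (G := G.del e) (hε i) (hε j) (x := x) hx hx'
      have h3 : ({i, j} : Finset PE) ⊆ D.filter (fun i => src i = π x ∨ tgt i = π x) := by
        intro k hk'
        rcases Finset.mem_insert.1 hk' with rfl | hk'
        · exact Finset.mem_filter.2 ⟨hi, h1⟩
        · rw [Finset.mem_singleton.1 hk']
          exact Finset.mem_filter.2 ⟨hj, h2⟩
      have h4 := Finset.card_le_card h3
      rw [Finset.card_pair hij] at h4
      have h5 := hle (π x)
      unfold pdeg at h5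
      omega) (by
      intro r
      rw [hD r, if_pos hs, if_pos ht]
      by_cases h1 : r = π (G.s e)
      · rw [if_pos h1, if_pos (Or.inl h1)]
      · rw [if_neg h1]
        by_cases h2 : r = π (G.t e)
        · rw [if_pos h2, if_pos (Or.inr h2)]
        · rw [if_neg h2, if_neg (not_or.2 ⟨h1, h2⟩)])
    have h6 := chi_value G hC hN heN
    rw [hk N hN, hsum] at h6
    exact eq_neg_of_add_eq_zero_right h6.symm
  exact smul_half_ne hodd ((key D hD).trans (key D' hD').symm)


end MG
end ML
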