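import Pool.Agent.ML.F5

/-!
# ML-F9: the six fibres of the 6-cycle (C6 lemma)
-/

set_option autoImplicit false
set_option linter.unusedSectionVars false
set_option linter.unusedFintypeInType false
set_option linter.unusedVariables false

namespace ML
namespace MG

variable {V E : Type} [Fintype V] [Fintype E] [DecidableEq V] [DecidableEq E] (G : MG V E)

/-- The union of the fibres of the 6-cycle of vertices not in the closed neighbourhood of `p`. -/
def W6 (G : MG V E) (π : V → PV) (p : PV) : Finset V :=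
  (Finset.univ.filter (fun q : PV => q ≠ p ∧ padj p q = false)).biUnion (G.fib π)

theorem f9_one {D : Finset PE} {r : PV} (h : pdeg D r ≤ 1) {i j : PE} (hi : i ∈ D) (hj : j ∈ D)
    (h1 : src i = r ∨ tgt i = r) (h2 : src j = r ∨ tgt j = r) : i = j :=
  Finset.card_le_one.1 h i (Finset.mem_filter.2 ⟨hi, h1⟩) j (Finset.mem_filter.2 ⟨hj, h2⟩)

theorem f9_ne (i : PE) : src i ≠ tgt i := by
  intro h
  have h1 := padj_src_tgt i
  rw [h, padj_self] at h1
  exact Bool.noConfusion h1

theorem f9_real {K : MG V E} (hMc : K.Mc) {π : V → PV} {A : Finset V} (hP : K.PS π A) (p : PV)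
    {D : Finset PE} (hD : ∀ r, pdeg D r = if r = p ∨ padj p r = true then 0 else 1) :
    ∃ N, (K.sub (W6 K π p)).IsPM N ∧
      ∑ g ∈ N, och (π (K.s g)) (π (K.t g)) = pout D • half := by
  obtain ⟨ε, hε⟩ := exists_over hP
  have hle : ∀ r, pdeg D r ≤ 1 := by
    intro r
    rw [hD]
    split_ifs <;> omega
  have hpos : ∀ i ∈ D, ∀ r, (src i = r ∨ tgt i = r) →
      r ∈ Finset.univ.filter (fun q : PV => q ≠ p ∧ padj p q = false) := by
    intro i hi r hr
    have h1 : pdeg D r ≠ 0 := by
      intro h0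
      have h2 : i ∈ D.filter (fun i => src i = r ∨ tgt i = r) := Finset.mem_filter.2 ⟨hi, hr⟩
      rw [Finset.card_eq_zero.1 h0] at h2
      exact absurd h2 (Finset.notMem_empty _)
    rw [hD] at h1
    have h2 : ¬ (r = p ∨ padj p r = true) := by
      intro h3
      exact h1 (if_pos h3)
    refine Finset.mem_filter.2 ⟨Finset.mem_univ _, fun h => h2 (Or.inl h), ?_⟩
    rcases Bool.eq_false_or_eq_true (padj p r) with h | h
    · exact absurd (Or.inr h) h2
    · exact h
  refine assemble K (fun i _ => hε i) ?_ (Finset.univ.filter (fun q : PV => q ≠ p ∧ padj p q = false))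
    (fun i hi => ⟨hpos i hi _ (Or.inl rfl), hpos i hi _ (Or.inr rfl)⟩) ?_
  · intro i hi j hj hij x hxi hxj
    obtain ⟨s1, s2⟩ := share_end (G := K) (hε i) (hε j) (x := x) hxi hxj
    exact hij (f9_one (hle _) hi hj s1 s2)
  · intro q hq
    rw [Finset.mem_filter] at hq
    obtain ⟨-, hqp, hqa⟩ := hq
    have h1 : pdeg D q = 1 := by
      rw [hD, if_neg]
      rintro (h | h)
      · exact hqp h
      · rw [hqa] at h
        exact Bool.noConfusion h
    obtain ⟨i, hi⟩ := Finset.card_eq_one.1 h1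
    have hi' : i ∈ D.filter (fun i => src i = q ∨ tgt i = q) := by rw [hi]; simp
    obtain ⟨hiD, hiq⟩ := Finset.mem_filter.1 hi'
    -- the end of `ε i` in the fibre
    have key : ∃ a, a ∈ K.fib π q ∧ (K.s (ε i) = a ∨ K.t (ε i) = a) ∧
        (∀ x, π x = q → (K.s (ε i) = x ∨ K.t (ε i) = x) → x = a) ∧ π (K.s (ε i)) ≠ π (K.t (ε i)) := by
      obtain ⟨hF, hor⟩ := hε i
      have hne : π (K.s (ε i)) ≠ π (K.t (ε i)) := by
        rcases hor with ⟨k1, k2⟩ | ⟨k1, k2⟩
        · rw [k1, k2]; exact f9_ne i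
        · rw [k1, k2]; exact (f9_ne i).symm
      have hsq : π (K.s (ε i)) = q ∨ π (K.t (ε i)) = q := by
        rcases hor with ⟨k1, k2⟩ | ⟨k1, k2⟩ <;> rcases hiq with k3 | k3
        · exact Or.inl (k1.trans k3)
        · exact Or.inr (k2.trans k3)
        · exact Or.inr (k2.trans k3)
        · exact Or.inl (k1.trans k3)
      rcases hsq with h | h
      · refine ⟨K.s (ε i), Finset.mem_filter.2 ⟨K.hs _ hF, h⟩, Or.inl rfl, ?_, hne⟩
        rintro x hx (rfl | rfl)
        · rfl
        · exact absurd (h.trans hx.symm) hne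
      · refine ⟨K.t (ε i), Finset.mem_filter.2 ⟨K.ht _ hF, h⟩, Or.inr rfl, ?_, hne⟩
        rintro x hx (rfl | rfl)
        · exact absurd (hx.trans h.symm) hne
        · rfl
    obtain ⟨a, ha, hea, hun, hne⟩ := key
    have hset : K.fib π q \ (K.U.filter (fun x => ∃ i ∈ D, K.s (ε i) = x ∨ K.t (ε i) = x)) =
        (K.fib π q).erase a := by
      ext x
      rw [Finset.mem_sdiff, Finset.mem_filter, Finset.mem_erase]
      constructor
      · rintro ⟨h2, h3⟩
        refine ⟨?_, h2⟩
        rintro rfl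
        exact h3 ⟨(Finset.mem_filter.1 h2).1, i, hiD, hea⟩
      · rintro ⟨h2, h3⟩
        refine ⟨h3, ?_⟩
        rintro ⟨-, j, hj, hxj⟩
        apply h2
        have hxq : π x = q := (Finset.mem_filter.1 h3).2
        obtain ⟨s1, -⟩ := share_end (G := K) (hε j) (hε j) (x := x) hxj hxj
        rw [hxq] at s1
        have hji : j = i := f9_one (hle q) hj hiD s1 hiq
        rw [hji] at hxj
        exact hun x hxq hxj
    rw [hset]
    exact PS.fib_erase hMc hP (hε i).1 ha hea hne

theorem f9_value {K : MG V E} {π : V → PV} {y : V → QZ} {χ : E → QZ} (hC : K.PC π y χ)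
    {W : Finset V} {N : Finset E} (hN : (K.sub W).IsPM N) :
    ∑ g ∈ N, χ g = ∑ v ∈ W, y v + ∑ g ∈ N, och (π (K.s g)) (π (K.t g)) := by
  have h1 := IsPM.pot hN y
  have h2 : ∑ e ∈ N, (y (K.s e) + y (K.t e)) = ∑ v ∈ W, y v := h1
  rw [← h2, ← Finset.sum_add_distrib]
  refine Finset.sum_congr rfl fun g hg => ?_
  have h3 : g ∈ K.inn W := hN.1 hg
  exact hC g (inn_sub K W h3)

/-- The C6 lemma.  `K` matching covered with Petersen structure and potential: the union of the six
fibres has two perfect matchings with different values of `χ`.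
Proof: `pat_C6 p` gives patterns `D`, `D'` (degree 1 at the six vertices, 0 elsewhere); default edges
`ε` (`exists_over`) have pairwise disjoint ends (`share_end`).  For `q` in the 6-cycle the end `a` of the
unique `ε i`, `i ∈ D`, at `fib q` satisfies: `(fib q).erase a` has a perfect matching (`PS.fib_erase`), and
`fib q` minus the ends of all the `ε i`, `i ∈ D`, is `(fib q).erase a`.  `assemble` with `W` the six vertices:
`N` with `∑_N och = pout D • half`.  `∑_N χ = ∑_{v ∈ W6} y v + pout D • half` (`PC`, `IsPM.pot` for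
`K.sub W6`).  The same for `D'`; `smul_half_ne`. -/
theorem c6 {K : MG V E} (hMc : K.Mc) {π : V → PV} {A : Finset V} {y : V → QZ} {χ : E → QZ}
    (hP : K.PS π A) (hC : K.PC π y χ) (p : PV) :
    ∃ M₁ M₂, (K.sub (W6 K π p)).IsPM M₁ ∧ (K.sub (W6 K π p)).IsPM M₂ ∧
      ∑ g ∈ M₁, χ g ≠ ∑ g ∈ M₂, χ g := by
  obtain ⟨D, D', hD, hD', hodd⟩ := pat_C6 p
  obtain ⟨N, hN, hs⟩ := f9_real hMc hP p hD
  obtain ⟨N', hN', hs'⟩ := f9_real hMc hP p hD'
  refine ⟨N, N', hN, hN', fun h => ?_⟩
  rw [f9_value hC hN, f9_value hC hN', hs, hs'] at h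
  exact smul_half_ne hodd (add_left_cancel h)


end MG
end ML
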