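import Pool.Agent.ML.F9

/-!
# ML-F9b: claws
-/

set_option autoImplicit false
set_option linter.unusedSectionVars false
set_option linter.unusedFintypeInType false
set_option linter.unusedVariables false

namespace ML
namespace MG

variable {V E : Type} [Fintype V] [Fintype E] [DecidableEq V] [DecidableEq E] (G : MG V E)

/-- Claws.  `M` a set of edges with the edge condition which leaves the fibre of `p` at least three times
and every other fibre at most once: no edge of `M` leaves the union of the fibres of the 6-cycle.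
Proof: the edges of `M` leaving `fib p` go to the fibres of the three neighbours, each of which is left at
most once: so there are exactly three of them, one to each neighbour, and the unique edge of `M` leaving the
fibre of a neighbour goes to `fib p`.  An edge of `M` leaving `W6` has its other end in `fib p` or in the
fibre of a neighbour; the first is impossible (it would be an edge leaving `fib p` to a nonneighbour), the
second too. -/
theorem claw {π : V → PV} {A : Finset V} {M : Finset E} (hM : M ⊆ G.F)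
    (hP : ∀ e ∈ M, EC G π A e) {p : PV} (h3 : 3 ≤ (M ∩ G.cut (G.fib π p)).card)
    (h1 : ∀ q, q ≠ p → (M ∩ G.cut (G.fib π q)).card ≤ 1) : M ∩ G.cut (W6 G π p) = ∅ := by
  classical
  have hmf : ∀ v q, v ∈ G.fib π q ↔ v ∈ G.U ∧ π v = q := fun v q => Finset.mem_filter
  have hcut : ∀ e ∈ M, ∀ q, e ∈ G.cut (G.fib π q) ↔ ¬ (π (G.s e) = q ↔ π (G.t e) = q) := by
    intro e he q
    have hF := hM he
    have hs := G.hs e hF
    have ht := G.ht e hF
    rw [mem_cut, hmf, hmf]
    tauto
  have hne : ∀ e ∈ M, π (G.s e) ≠ π (G.t e) → padj (π (G.s e)) (π (G.t e)) = true := by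
    intro e he h
    rcases hP e he with h2 | h2
    · exact absurd h2.1 h
    · exact h2.1
  have hW : ∀ v, v ∈ W6 G π p ↔ v ∈ G.U ∧ π v ≠ p ∧ padj p (π v) = false := by
    intro v
    unfold W6
    rw [Finset.mem_biUnion]
    constructor
    · rintro ⟨q, hq, hv⟩
      rw [Finset.mem_filter] at hq
      rw [hmf] at hv
      obtain ⟨hv1, hv2⟩ := hv
      subst hv2
      exact ⟨hv1, hq.2.1, hq.2.2⟩
    · rintro ⟨h2, h3, h4⟩
      exact ⟨π v, Finset.mem_filter.2 ⟨Finset.mem_univ _, h3, h4⟩, (hmf v _).2 ⟨h2, rfl⟩⟩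
  set g : E → PV := fun f => if π (G.s f) = p then π (G.t f) else π (G.s f) with hgdef
  have hg : ∀ f ∈ M ∩ G.cut (G.fib π p), padj p (g f) = true ∧ g f ≠ p ∧
      f ∈ M ∩ G.cut (G.fib π (g f)) ∧ (π (G.s f) = p ∨ π (G.t f) = p) := by
    intro f hf
    obtain ⟨hfM, hfc⟩ := Finset.mem_inter.1 hf
    have hc := (hcut f hfM p).1 hfc
    by_cases hs : π (G.s f) = p
    · have ht : π (G.t f) ≠ p := fun h => hc ⟨fun _ => h, fun _ => hs⟩
      have hgf : g f = π (G.t f) := by simp only [hgdef, hs, if_true]
      have hst : π (G.s f) ≠ π (G.t f) := fun h => ht (h ▸ hs)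
      have hadj := hne f hfM hst
      rw [hgf]
      refine ⟨by rw [← hs]; exact hadj, ht, Finset.mem_inter.2 ⟨hfM, ?_⟩, Or.inl hs⟩
      rw [hcut f hfM]
      exact fun h => hst (h.2 rfl)
    · have ht : π (G.t f) = p := by
        by_contra ht
        exact hc ⟨fun h => absurd h hs, fun h => absurd h ht⟩
      have hgf : g f = π (G.s f) := by simp only [hgdef, hs, if_false]
      have hst : π (G.s f) ≠ π (G.t f) := fun h => hs (h.trans ht)
      have hadj := hne f hfM hst
      rw [hgf]
      refine ⟨by rw [padj_comm, ← ht]; exact hadj, hs, Finset.mem_inter.2 ⟨hfM, ?_⟩, Or.inr ht⟩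
      rw [hcut f hfM]
      exact fun h => hst (h.1 rfl).symm
  have hinj : ∀ f ∈ M ∩ G.cut (G.fib π p), ∀ f' ∈ M ∩ G.cut (G.fib π p), g f = g f' →
      f = f' := by
    intro f hf f' hf' hgg
    obtain ⟨_, h2, h3, _⟩ := hg f hf
    obtain ⟨_, _, h3', _⟩ := hg f' hf'
    rw [← hgg] at h3'
    exact Finset.card_le_one.1 (h1 _ h2) f h3 f' h3'
  obtain ⟨a, b, c, hab, hac, hbc, hnb⟩ := three_nbrs p
  have himg : (M ∩ G.cut (G.fib π p)).image g = {a, b, c} := by
    apply Finset.eq_of_subset_of_card_le
    · intro q hq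
      obtain ⟨f, hf, hfq⟩ := Finset.mem_image.1 hq
      have h2 := (hg f hf).1
      rw [hfq, hnb] at h2
      simp only [Finset.mem_insert, Finset.mem_singleton]
      exact h2
    · have h2 : ((M ∩ G.cut (G.fib π p)).image g).card = (M ∩ G.cut (G.fib π p)).card :=
        Finset.card_image_of_injOn fun f hf f' hf' h => hinj f hf f' hf' h
      rw [h2]
      exact Finset.card_le_three.trans h3
  rw [Finset.eq_empty_iff_forall_notMem]
  intro e he
  obtain ⟨heM, hec⟩ := Finset.mem_inter.1 he
  have hF := hM heM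
  have hs := G.hs e hF
  have ht := G.ht e hF
  -- the general contradiction
  have key : ∀ u v : PV, u ≠ p → padj p u = false → ¬ (v ≠ p ∧ padj p v = false) →
      ((π (G.s e) = u ∧ π (G.t e) = v) ∨ (π (G.s e) = v ∧ π (G.t e) = u)) → False := by
    intro u v hu hu2 hv huv
    have huv' : u ≠ v := by
      intro h
      rw [← h] at hv
      exact hv ⟨hu, hu2⟩
    have hadj : padj u v = true := by
      rcases huv with ⟨h2, h3'⟩ | ⟨h2, h3'⟩
      · have h4 := hne e heM (by rw [h2, h3']; exact huv')
        rw [h2, h3'] at h4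
        exact h4
      · have h4 := hne e heM (by rw [h2, h3']; exact huv'.symm)
        rw [h2, h3', padj_comm] at h4
        exact h4
    have hvp : v ≠ p := by
      intro h
      rw [h, padj_comm, hu2] at hadj
      exact Bool.false_ne_true hadj
    have hv3 : padj p v = true := by
      by_contra h
      exact hv ⟨hvp, by simpa using h⟩
    have hvmem : v ∈ (M ∩ G.cut (G.fib π p)).image g := by
      rw [himg]
      have h2 := (hnb v).1 hv3
      simp only [Finset.mem_insert, Finset.mem_singleton]
      exact h2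
    obtain ⟨f, hf, hfv⟩ := Finset.mem_image.1 hvmem
    obtain ⟨_, _, hf3, hf4⟩ := hg f hf
    rw [hfv] at hf3
    have hev : e ∈ M ∩ G.cut (G.fib π v) := by
      refine Finset.mem_inter.2 ⟨heM, ?_⟩
      rw [hcut e heM]
      rcases huv with ⟨h2, h3'⟩ | ⟨h2, h3'⟩
      · rw [h2, h3']
        exact fun h => huv' (h.2 rfl)
      · rw [h2, h3']
        exact fun h => huv' (h.1 rfl)
    have hfe : f = e := Finset.card_le_one.1 (h1 v hvp) f hf3 e hev
    rw [hfe] at hf4
    rcases huv with ⟨h2, h3'⟩ | ⟨h2, h3'⟩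
    · rw [h2, h3'] at hf4
      rcases hf4 with h | h
      · exact hu h
      · exact hvp h
    · rw [h2, h3'] at hf4
      rcases hf4 with h | h
      · exact hvp h
      · exact hu h
  have hec2 := ((G.mem_cut).1 hec).2
  rw [hW, hW] at hec2
  by_cases hs1 : π (G.s e) ≠ p ∧ padj p (π (G.s e)) = false
  · have ht1 : ¬ (π (G.t e) ≠ p ∧ padj p (π (G.t e)) = false) := by
      intro h
      exact hec2 ⟨fun _ => ⟨ht, h⟩, fun _ => ⟨hs, hs1⟩⟩
    exact key _ _ hs1.1 hs1.2 ht1 (Or.inl ⟨rfl, rfl⟩)
  · have ht1 : π (G.t e) ≠ p ∧ padj p (π (G.t e)) = false := by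
      by_contra h
      exact hec2 ⟨fun h' => absurd h'.2 hs1, fun h' => absurd h'.2 h⟩
    exact key _ _ ht1.1 ht1.2 hs1 (Or.inr ⟨rfl, rfl⟩)


end MG
end ML
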