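import Pool.Agent.ML.Defs

/-!
# ML-G0 : toolkit for section 5
-/

set_option autoImplicit false
set_option linter.unusedSectionVars false
set_option linter.unusedFintypeInType false
set_option linter.unusedVariables false

namespace ML

namespace MG

variable {V E : Type} [Fintype V] [Fintype E] [DecidableEq V] [DecidableEq E]

variable (G : MG V E)

/-- The edge `f` joins `a` and `b`. -/
def Jn (f : E) (a b : V) : Prop := (G.s f = a ∧ G.t f = b) ∨ (G.s f = b ∧ G.t f = a)

/-- Edges of `F` between `P` and `Q`. -/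
def btw (P Q : Finset V) : Finset E :=
  G.F.filter (fun f => (G.s f ∈ P ∧ G.t f ∈ Q) ∨ (G.s f ∈ Q ∧ G.t f ∈ P))

/-- `S` is an exit set of `D`: the induced graph on `D ∪ S` has a perfect matching all of whose
edges touch `D`. -/
def Ex (D S : Finset V) : Prop := ∃ P, (G.sub (D ∪ S)).IsPM P ∧ P ⊆ G.tou D

variable {G}

theorem Jn.symm {f : E} {a b : V} (h : G.Jn f a b) : G.Jn f b a := by
  rcases h with h | h
  · exact Or.inr h
  · exact Or.inl h

theorem jn_self (f : E) : G.Jn f (G.s f) (G.t f) := Or.inl ⟨rfl, rfl⟩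

theorem Jn.mem {f : E} (hf : f ∈ G.F) {a b : V} (h : G.Jn f a b) : a ∈ G.U ∧ b ∈ G.U := by
  rcases h with ⟨h1, h2⟩ | ⟨h1, h2⟩
  · exact ⟨h1 ▸ G.hs f hf, h2 ▸ G.ht f hf⟩
  · exact ⟨h2 ▸ G.ht f hf, h1 ▸ G.hs f hf⟩

theorem Jn.mem_cut {f : E} (hf : f ∈ G.F) {a b : V} (h : G.Jn f a b) (X : Finset V) :
    f ∈ G.cut X ↔ ¬ (a ∈ X ↔ b ∈ X) := by
  unfold cut
  rw [Finset.mem_filter]
  rcases h with ⟨h1, h2⟩ | ⟨h1, h2⟩
  · rw [h1, h2]; simp [hf]
  · rw [h1, h2]
    constructor
    · rintro ⟨_, h⟩ h'; exact h h'.symm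
    · intro h; exact ⟨hf, fun h' => h h'.symm⟩

theorem Jn.mem_inn {f : E} (hf : f ∈ G.F) {a b : V} (h : G.Jn f a b) (X : Finset V) :
    f ∈ G.inn X ↔ a ∈ X ∧ b ∈ X := by
  unfold inn
  rw [Finset.mem_filter]
  rcases h with ⟨h1, h2⟩ | ⟨h1, h2⟩
  · rw [h1, h2]; simp [hf]
  · rw [h1, h2]; simp [hf, and_comm]

theorem Jn.mem_tou {f : E} (hf : f ∈ G.F) {a b : V} (h : G.Jn f a b) (X : Finset V) :
    f ∈ G.tou X ↔ a ∈ X ∨ b ∈ X := by
  unfold tou
  rw [Finset.mem_filter]
  rcases h with ⟨h1, h2⟩ | ⟨h1, h2⟩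
  · rw [h1, h2]; simp [hf]
  · rw [h1, h2]; simp [hf, or_comm]

theorem Jn.mem_btw {f : E} (hf : f ∈ G.F) {a b : V} (h : G.Jn f a b) (P Q : Finset V) :
    f ∈ G.btw P Q ↔ (a ∈ P ∧ b ∈ Q) ∨ (a ∈ Q ∧ b ∈ P) := by
  unfold btw
  rw [Finset.mem_filter]
  rcases h with ⟨h1, h2⟩ | ⟨h1, h2⟩
  · rw [h1, h2]; simp [hf]
  · rw [h1, h2]
    constructor
    · rintro ⟨_, h⟩
      rcases h with ⟨h, h'⟩ | ⟨h, h'⟩
      · exact Or.inr ⟨h', h⟩
      · exact Or.inl ⟨h', h⟩
    · rintro (⟨h, h'⟩ | ⟨h, h'⟩)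
      · exact ⟨hf, Or.inr ⟨h', h⟩⟩
      · exact ⟨hf, Or.inl ⟨h', h⟩⟩

/-- Joining pairs and additive functions of the ends. -/
theorem Jn.add {M : Type} [AddCommMonoid M] {f : E} {a b : V} (h : G.Jn f a b) (y : V → M) :
    y (G.s f) + y (G.t f) = y a + y b := by
  rcases h with ⟨h1, h2⟩ | ⟨h1, h2⟩
  · rw [h1, h2]
  · rw [h1, h2, add_comm]

/-- Sum over the ends of the edges of a perfect matching. -/
theorem IsPM.jsum {M : Type} [AddCommMonoid M] {N : Finset E} (hN : G.IsPM N) (y : V → M) :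
    ∑ f ∈ N, (y (G.s f) + y (G.t f)) = ∑ v ∈ G.U, y v := by
  have h1 : ∀ f ∈ N, y (G.s f) + y (G.t f) = ∑ v ∈ G.U, G.inc f v • y v := by
    intro f hf
    have hs := G.hs f (hN.1 hf)
    have ht := G.ht f (hN.1 hf)
    have : ∀ v ∈ G.U, G.inc f v • y v
        = (if G.s f = v then y v else 0) + (if G.t f = v then y v else 0) := by
      intro v _
      unfold inc
      rw [add_smul]
      congr 1 <;> split_ifs <;> simp
    rw [Finset.sum_congr rfl this, Finset.sum_add_distrib, Finset.sum_ite_eq, Finset.sum_ite_eq,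
      if_pos hs, if_pos ht]
  rw [Finset.sum_congr rfl h1, Finset.sum_comm]
  apply Finset.sum_congr rfl
  intro v hv
  rw [← Finset.sum_smul, hN.2 v hv, one_smul]

theorem IsPM.jne {N : Finset E} (hN : G.IsPM N) {f : E} (hf : f ∈ N) {a b : V}
    (h : G.Jn f a b) : a ≠ b := by
  rintro rfl
  have hs : G.s f = a ∧ G.t f = a := by
    rcases h with h | h
    · exact h
    · exact h
  have ha : a ∈ G.U := hs.1 ▸ G.hs f (hN.1 hf)
  have h1 := hN.2 a ha
  have h2 : G.inc f a ≤ ∑ g ∈ N, G.inc g a :=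
    Finset.single_le_sum (f := fun g => G.inc g a) (fun g _ => Nat.zero_le _) hf
  unfold inc at h2 h1
  simp only [hs.1, hs.2, if_true] at h2
  omega

theorem IsPM.jcover {N : Finset E} (hN : G.IsPM N) {a : V} (ha : a ∈ G.U) :
    ∃ f ∈ N, ∃ b, G.Jn f a b := by
  by_contra hcon
  push Not at hcon
  have h1 := hN.2 a ha
  have h2 : ∑ g ∈ N, G.inc g a = 0 := by
    apply Finset.sum_eq_zero
    intro g hg
    unfold inc
    have h3 := hcon g hg (G.t g)
    have h4 := hcon g hg (G.s g)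
    unfold Jn at h3 h4
    have h5 : G.s g ≠ a := fun h => h3 (Or.inl ⟨h, rfl⟩)
    have h6 : G.t g ≠ a := fun h => h4 (Or.inr ⟨rfl, h⟩)
    simp [h5, h6]
  omega

theorem IsPM.juniq {N : Finset E} (hN : G.IsPM N) {f g : E} (hf : f ∈ N) (hg : g ∈ N)
    {a b c : V} (h : G.Jn f a b) (h' : G.Jn g a c) : f = g := by
  by_contra hne
  have ha : a ∈ G.U := (h.mem (hN.1 hf)).1
  have h1 := hN.2 a ha
  have hle : ∑ k ∈ ({f, g} : Finset E), G.inc k a ≤ ∑ k ∈ N, G.inc k a := by
    apply Finset.sum_le_sum_of_subset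
    intro k hk
    rw [Finset.mem_insert, Finset.mem_singleton] at hk
    rcases hk with rfl | rfl
    · exact hf
    · exact hg
  rw [Finset.sum_pair hne] at hle
  have i1 : 1 ≤ G.inc f a := by
    unfold inc
    rcases h with ⟨h1, h2⟩ | ⟨h1, h2⟩
    · simp [h1]
    · simp [h2]
  have i2 : 1 ≤ G.inc g a := by
    unfold inc
    rcases h' with ⟨h1, h2⟩ | ⟨h1, h2⟩
    · simp [h1]
    · simp [h2]
  omega

/-- Cardinality as a sum of indicators. -/
theorem gcard_inter {N S : Finset E} :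
    (N ∩ S).card = ∑ f ∈ N, (if f ∈ S then 1 else 0) := by
  rw [Finset.card_eq_sum_ones, ← Finset.sum_filter, Finset.filter_mem_eq_inter]

theorem gsub_U (W : Finset V) : (G.sub W).U = W := rfl

theorem gsub_F (W : Finset V) : (G.sub W).F = G.inn W := rfl

theorem sub_jn {W : Finset V} {f : E} {a b : V} : (G.sub W).Jn f a b ↔ G.Jn f a b := Iff.rfl

theorem del_jn {e f : E} {a b : V} : (G.del e).Jn f a b ↔ G.Jn f a b := Iff.rfl

theorem ginn_subset (W : Finset V) : G.inn W ⊆ G.F := Finset.filter_subset _ _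

theorem gcut_subset (W : Finset V) : G.cut W ⊆ G.F := Finset.filter_subset _ _

theorem ginn_U : G.inn G.U = G.F := by
  ext f
  unfold inn
  rw [Finset.mem_filter]
  exact ⟨fun h => h.1, fun h => ⟨h, G.hs f h, G.ht f h⟩⟩

/-- A perfect matching of `sub U` is a perfect matching. -/
theorem gisPM_of_sub_U {N : Finset E} (h : (G.sub G.U).IsPM N) : G.IsPM N := by
  refine ⟨?_, h.2⟩
  have := h.1
  rw [gsub_F, ginn_U] at this
  exact this

theorem gdel_cut (e : E) (X : Finset V) : (G.del e).cut X = (G.cut X).erase e := by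
  ext f
  unfold cut del
  simp only [Finset.mem_filter, Finset.mem_erase]
  tauto

/-- Perfect matchings of `G - e` are the perfect matchings of `G` not containing `e`. -/
theorem gisPM_del {e : E} {N : Finset E} : (G.del e).IsPM N ↔ G.IsPM N ∧ e ∉ N := by
  constructor
  · rintro ⟨h1, h2⟩
    refine ⟨⟨fun f hf => Finset.mem_of_mem_erase (h1 hf), h2⟩, fun he => ?_⟩
    exact (Finset.mem_erase.1 (h1 he)).1 rfl
  · rintro ⟨⟨h1, h2⟩, h3⟩
    refine ⟨fun f hf => Finset.mem_erase.2 ⟨?_, h1 hf⟩, h2⟩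
    rintro rfl
    exact h3 hf

/-- For a matching avoiding `e`, the cut in `G - e` and in `G` have the same intersection. -/
theorem ginter_del_cut {e : E} {N : Finset E} (he : e ∉ N) (X : Finset V) :
    N ∩ (G.del e).cut X = N ∩ G.cut X := by
  rw [gdel_cut]
  ext f
  simp only [Finset.mem_inter, Finset.mem_erase]
  constructor
  · rintro ⟨h1, _, h2⟩; exact ⟨h1, h2⟩
  · rintro ⟨h1, h2⟩; exact ⟨h1, fun h => he (h ▸ h1), h2⟩

/-- Handshake for a perfect matching. -/
theorem IsPM.jcard {N : Finset E} (hN : G.IsPM N) {X : Finset V} (hX : X ⊆ G.U) :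
    X.card = (N ∩ G.cut X).card + 2 * (N ∩ G.inn X).card := by
  have h := hN.jsum (fun v => if v ∈ X then (1 : ℕ) else 0)
  have h1 : ∑ v ∈ G.U, (if v ∈ X then (1 : ℕ) else 0) = X.card := by
    rw [← Finset.sum_filter, Finset.filter_mem_eq_inter, Finset.inter_eq_right.2 hX,
      Finset.card_eq_sum_ones]
  rw [h1] at h
  rw [← h, gcard_inter, gcard_inter, Finset.mul_sum, ← Finset.sum_add_distrib]
  apply Finset.sum_congr rfl
  intro f hf
  have hfF := hN.1 hf
  have hc := (jn_self (G := G) f).mem_cut hfF X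
  have hi := (jn_self (G := G) f).mem_inn hfF X
  by_cases h1 : G.s f ∈ X <;> by_cases h2 : G.t f ∈ X <;> simp [hc, hi, h1, h2]

theorem IsPM.jodd {N : Finset E} (hN : G.IsPM N) {X : Finset V} (hX : X ⊆ G.U)
    (ho : Odd X.card) : Odd (N ∩ G.cut X).card := by
  have := hN.jcard hX
  rw [this] at ho
  rw [Nat.odd_add] at ho
  exact ho.2 (even_two_mul _)

/-- Disjoint unions of perfect matchings. -/
theorem IsPM.junion {W1 W2 : Finset V} (hd : Disjoint W1 W2) {N1 N2 : Finset E}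
    (h1 : (G.sub W1).IsPM N1) (h2 : (G.sub W2).IsPM N2) :
    (G.sub (W1 ∪ W2)).IsPM (N1 ∪ N2) ∧ Disjoint N1 N2 := by
  have hF1 : ∀ f ∈ N1, f ∈ G.F ∧ G.s f ∈ W1 ∧ G.t f ∈ W1 := fun f hf => by
    have := h1.1 hf
    rw [gsub_F] at this
    exact Finset.mem_filter.1 this
  have hF2 : ∀ f ∈ N2, f ∈ G.F ∧ G.s f ∈ W2 ∧ G.t f ∈ W2 := fun f hf => by
    have := h2.1 hf
    rw [gsub_F] at this
    exact Finset.mem_filter.1 this
  have hdis : Disjoint N1 N2 := by
    rw [Finset.disjoint_left]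
    intro f hf1 hf2
    exact (Finset.disjoint_left.1 hd) (hF1 f hf1).2.1 (hF2 f hf2).2.1
  refine ⟨⟨?_, ?_⟩, hdis⟩
  · intro f hf
    rw [gsub_F]
    unfold inn
    rw [Finset.mem_filter]
    rcases Finset.mem_union.1 hf with hf | hf
    · exact ⟨(hF1 f hf).1, Finset.mem_union_left _ (hF1 f hf).2.1,
        Finset.mem_union_left _ (hF1 f hf).2.2⟩
    · exact ⟨(hF2 f hf).1, Finset.mem_union_right _ (hF2 f hf).2.1,
        Finset.mem_union_right _ (hF2 f hf).2.2⟩
  · intro v hv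
    rw [gsub_U] at hv
    rw [Finset.sum_union hdis]
    have z1 : v ∉ W1 → ∑ f ∈ N1, (G.sub (W1 ∪ W2)).inc f v = 0 := fun hv1 => by
      apply Finset.sum_eq_zero
      intro f hf
      have a1 : G.s f ≠ v := fun h => hv1 (h ▸ (hF1 f hf).2.1)
      have a2 : G.t f ≠ v := fun h => hv1 (h ▸ (hF1 f hf).2.2)
      unfold inc sub
      simp [a1, a2]
    have z2 : v ∉ W2 → ∑ f ∈ N2, (G.sub (W1 ∪ W2)).inc f v = 0 := fun hv1 => by
      apply Finset.sum_eq_zero
      intro f hf
      have a1 : G.s f ≠ v := fun h => hv1 (h ▸ (hF2 f hf).2.1)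
      have a2 : G.t f ≠ v := fun h => hv1 (h ▸ (hF2 f hf).2.2)
      unfold inc sub
      simp [a1, a2]
    rcases Finset.mem_union.1 hv with hv1 | hv1
    · have hv2 : v ∉ W2 := Finset.disjoint_left.1 hd hv1
      rw [z2 hv2, add_zero]
      exact h1.2 v hv1
    · have hv2 : v ∉ W1 := Finset.disjoint_right.1 hd hv1
      rw [z1 hv2, zero_add]
      exact h2.2 v hv1

/-- Restriction of a perfect matching to a set closed under it. -/
theorem IsPM.jrestrict {W W' : Finset V} (hW : W' ⊆ W) {N : Finset E} (hN : (G.sub W).IsPM N)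
    (hc : N ∩ G.cut W' = ∅) : (G.sub W').IsPM (N ∩ G.inn W') := by
  refine ⟨?_, ?_⟩
  · rw [gsub_F]
    exact Finset.inter_subset_right
  · intro v hv
    rw [gsub_U] at hv
    have h1 := hN.2 v (hW hv)
    have h2 : ∑ f ∈ N ∩ G.inn W', (G.sub W').inc f v = ∑ f ∈ N, (G.sub W).inc f v := by
      apply Finset.sum_subset Finset.inter_subset_left
      intro f hf hf'
      have hfF : f ∈ G.F := by
        have := hN.1 hf
        rw [gsub_F] at this
        exact ginn_subset _ this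
      have hni : f ∉ G.inn W' := fun h => hf' (Finset.mem_inter.2 ⟨hf, h⟩)
      have hnc : f ∉ G.cut W' := fun h => by
        have : f ∈ N ∩ G.cut W' := Finset.mem_inter.2 ⟨hf, h⟩
        rw [hc] at this
        exact absurd this (Finset.notMem_empty f)
      have hi := (jn_self (G := G) f).mem_inn hfF W'
      have hcu := (jn_self (G := G) f).mem_cut hfF W'
      rw [hi] at hni
      rw [hcu] at hnc
      have a1 : G.s f ∉ W' ∧ G.t f ∉ W' := by tauto
      have b1 : G.s f ≠ v := fun h => a1.1 (h ▸ hv)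
      have b2 : G.t f ≠ v := fun h => a1.2 (h ▸ hv)
      unfold inc sub
      simp [b1, b2]
    rw [h2]
    exact h1

/-- The perfect matching of an edge. -/
theorem isPM_jsingle {f : E} (hf : f ∈ G.F) {a b : V} (h : G.Jn f a b) (hab : a ≠ b) :
    (G.sub {a, b}).IsPM {f} := by
  refine ⟨?_, ?_⟩
  · rw [gsub_F, Finset.singleton_subset_iff, h.mem_inn hf]
    simp
  · intro v hv
    rw [gsub_U, Finset.mem_insert, Finset.mem_singleton] at hv
    rw [Finset.sum_singleton]
    unfold inc sub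
    rcases h with ⟨h1, h2⟩ | ⟨h1, h2⟩ <;> rcases hv with rfl | rfl <;>
      simp [h1, h2, hab, hab.symm]

/-- Removing an edge of a perfect matching together with its ends. -/
theorem IsPM.jerase {W : Finset V} {N : Finset E} (hN : (G.sub W).IsPM N) {f : E} (hf : f ∈ N)
    {a b : V} (h : G.Jn f a b) : (G.sub (W \ {a, b})).IsPM (N.erase f) := by
  have hfF : f ∈ G.inn W := by
    have := hN.1 hf
    rwa [gsub_F] at this
  have hne : a ≠ b := hN.jne hf h
  have hle : ∀ v, (G.sub W).inc f v = if v ∈ ({a, b} : Finset V) then 1 else 0 := by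
    intro v
    unfold inc sub
    rcases h with ⟨h1, h2⟩ | ⟨h1, h2⟩
    · rw [h1, h2]
      by_cases e1 : a = v
      · subst e1
        simp [hne.symm]
      · by_cases e2 : b = v
        · subst e2; simp [hne]
        · simp [e1, e2, Ne.symm e1, Ne.symm e2]
    · rw [h1, h2]
      by_cases e1 : a = v
      · subst e1
        simp [hne.symm]
      · by_cases e2 : b = v
        · subst e2; simp [hne]
        · simp [e1, e2, Ne.symm e1, Ne.symm e2]
  refine ⟨?_, ?_⟩
  · intro g hg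
    rw [Finset.mem_erase] at hg
    have hgW := hN.1 hg.2
    rw [gsub_F] at hgW ⊢
    have hgF := ginn_subset _ hgW
    rw [(jn_self (G := G) g).mem_inn hgF] at hgW ⊢
    have k1 : ∀ x y, G.Jn g x y → x ∉ ({a, b} : Finset V) := by
      intro x y hx hxab
      rw [Finset.mem_insert, Finset.mem_singleton] at hxab
      rcases hxab with rfl | rfl
      · exact hg.1 (hN.juniq hg.2 hf hx h)
      · exact hg.1 (hN.juniq hg.2 hf hx h.symm)
    exact ⟨Finset.mem_sdiff.2 ⟨hgW.1, k1 _ _ (jn_self g)⟩,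
      Finset.mem_sdiff.2 ⟨hgW.2, k1 _ _ (jn_self g).symm⟩⟩
  · intro v hv
    rw [gsub_U, Finset.mem_sdiff] at hv
    have h1 := hN.2 v hv.1
    rw [← Finset.add_sum_erase _ _ hf, hle v, if_neg hv.2, zero_add] at h1
    exact h1

/-- Adding an edge to a perfect matching. -/
theorem IsPM.jinsert {W : Finset V} {N : Finset E} (hN : (G.sub W).IsPM N) {f : E} (hf : f ∈ G.F)
    {a b : V} (h : G.Jn f a b) (hab : a ≠ b) (ha : a ∉ W) (hb : b ∉ W) :
    (G.sub (W ∪ {a, b})).IsPM (Insert.insert f N) := by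
  have hd : Disjoint ({a, b} : Finset V) W := by
    rw [Finset.disjoint_left]
    intro x hx
    rw [Finset.mem_insert, Finset.mem_singleton] at hx
    rcases hx with rfl | rfl
    · exact ha
    · exact hb
  have := (IsPM.junion hd (isPM_jsingle hf h hab) hN).1
  rw [Finset.union_comm W]
  rwa [← Finset.insert_eq] at this

end MG

end ML
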