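import Pool.Agent.ML.G0

/-!
# ML-G1 : the structure `C2` (two cuts), its symmetries
-/

set_option autoImplicit false
set_option linter.unusedSectionVars false
set_option linter.unusedFintypeInType false
set_option linter.unusedVariables false

namespace ML

namespace MG

variable {V E : Type} [Fintype V] [Fintype E] [DecidableEq V] [DecidableEq E]

/-- The situation of section 5: a brick `G` with an edge `e` such that `G - e` is matching covered
and connected, two nontrivial odd shores `X`, `Y` tight in `G - e`, a potential `u` for the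
difference of the two cut characters. -/
structure C2 (G : MG V E) (e : E) (X Y : Finset V) (u : V → QZ) (η η' : QZ) : Prop where
  brick : G.Brick
  he : e ∈ G.F
  mc : (G.del e).Mc
  conn : (G.del e).Conn
  ntX : G.Nontriv X
  ntY : G.Nontriv Y
  tX : (G.del e).Tight X
  tY : (G.del e).Tight Y
  odd : Odd (X ∩ Y).card
  star : ∀ f ∈ G.F, u (G.s f) + u (G.t f)
    = (if f ∈ G.cut X then η else 0) - (if f ∈ G.cut Y then η' else 0)
  p1X : ∀ N, G.IsPM N → (((N ∩ G.cut X).card : ℤ) - 1) • η = 0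
  p1Y : ∀ N, G.IsPM N → (((N ∩ G.cut Y).card : ℤ) - 1) • η' = 0
  hη : (2 : ℤ) • η ≠ 0
  hη' : (2 : ℤ) • η' ≠ 0
  np : ∃ N, G.IsPM N ∧ (N ∩ G.cut X).card ≠ (N ∩ G.cut Y).card

/-- The part outside `X ∪ Y`. -/
def pB (G : MG V E) (X Y : Finset V) : Finset V := G.U \ (X ∪ Y)

variable {G : MG V E} {e : E} {X Y : Finset V} {u : V → QZ} {η η' : QZ}

theorem C2.XU (h : G.C2 e X Y u η η') : X ⊆ G.U := h.ntX.1

theorem C2.YU (h : G.C2 e X Y u η η') : Y ⊆ G.U := h.ntY.1

/-- Exchange of the two shores. -/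
theorem C2.swap (h : G.C2 e X Y u η η') : G.C2 e Y X (fun v => - u v) η' η where
  brick := h.brick
  he := h.he
  mc := h.mc
  conn := h.conn
  ntX := h.ntY
  ntY := h.ntX
  tX := h.tY
  tY := h.tX
  odd := by rw [Finset.inter_comm]; exact h.odd
  star := fun f hf => by
    have h1 := h.star f hf
    have : -u (G.s f) + -u (G.t f) = -(u (G.s f) + u (G.t f)) := by abel
    rw [this, h1]
    abel
  p1X := h.p1Y
  p1Y := h.p1X
  hη := h.hη'
  hη' := h.hη
  np := by
    obtain ⟨N, h1, h2⟩ := h.np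
    exact ⟨N, h1, h2.symm⟩

theorem gcut_compl {X : Finset V} (hX : X ⊆ G.U) : G.cut (G.U \ X) = G.cut X := by
  unfold cut
  apply Finset.filter_congr
  intro f hf
  have h1 := G.hs f hf
  have h2 := G.ht f hf
  simp only [Finset.mem_sdiff, h1, h2, true_and]
  tauto

theorem geven_U (hMc : G.Mc) : Even G.U.card := by
  obtain ⟨N, hN⟩ := hMc.1
  have h1 := hN.jcard (Finset.Subset.refl G.U)
  have h2 : G.cut G.U = ∅ := by
    rw [Finset.eq_empty_iff_forall_notMem]
    intro f hf
    have hfF := gcut_subset _ hf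
    rw [(jn_self (G := G) f).mem_cut hfF] at hf
    exact hf (by simp [G.hs f hfF, G.ht f hfF])
  rw [h2, Finset.inter_empty, Finset.card_empty, zero_add] at h1
  rw [h1]
  exact even_two_mul _

theorem Nontriv.gcompl {X : Finset V} (he : Even G.U.card) (h : G.Nontriv X) :
    G.Nontriv (G.U \ X) := by
  obtain ⟨h1, h2, h3, h4⟩ := h
  have hc := Finset.card_sdiff_of_subset h1
  have hle := Finset.card_le_card h1
  refine ⟨Finset.sdiff_subset, ?_, by omega, by omega⟩
  rw [hc, Nat.odd_sub hle]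
  constructor
  · intro ho; exact absurd he (Nat.not_even_iff_odd.2 ho)
  · intro hev; exact absurd h2 (Nat.not_odd_iff_even.2 hev)

/-- Complementation of both shores. -/
theorem C2.compl (h : G.C2 e X Y u η η') : G.C2 e (G.U \ X) (G.U \ Y) u η η' where
  brick := h.brick
  he := h.he
  mc := h.mc
  conn := h.conn
  ntX := h.ntX.gcompl (geven_U h.brick.1)
  ntY := h.ntY.gcompl (geven_U h.brick.1)
  tX := fun N hN => by
    have h1 : (G.del e).cut (G.U \ X) = (G.del e).cut X := gcut_compl (G := G.del e) h.XU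
    rw [h1]; exact h.tX N hN
  tY := fun N hN => by
    have h1 : (G.del e).cut (G.U \ Y) = (G.del e).cut Y := gcut_compl (G := G.del e) h.YU
    rw [h1]; exact h.tY N hN
  odd := by
    have hU := geven_U h.brick.1
    have e1 : (G.U \ X) ∩ (G.U \ Y) = G.U \ (X ∪ Y) := by
      ext v; simp only [Finset.mem_inter, Finset.mem_sdiff, Finset.mem_union]; tauto
    have hsub : X ∪ Y ⊆ G.U := Finset.union_subset h.XU h.YU
    rw [e1, Finset.card_sdiff_of_subset hsub, Nat.odd_sub (Finset.card_le_card hsub)]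
    have h1 := Finset.card_union_add_card_inter X Y
    have o1 := h.ntX.2.1
    have o2 := h.ntY.2.1
    have o3 := h.odd
    have o4 : Odd (X ∪ Y).card := by
      rw [Nat.odd_iff] at *
      omega
    constructor
    · intro ho; exact absurd hU (Nat.not_even_iff_odd.2 ho)
    · intro hev; exact absurd o4 (Nat.not_odd_iff_even.2 hev)
  star := fun f hf => by
    rw [gcut_compl h.XU, gcut_compl h.YU]; exact h.star f hf
  p1X := by rw [gcut_compl h.XU]; exact h.p1X
  p1Y := by rw [gcut_compl h.YU]; exact h.p1Y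
  hη := h.hη
  hη' := h.hη'
  np := by rw [gcut_compl h.XU, gcut_compl h.YU]; exact h.np

/-- `(*)` in terms of joined vertices. -/
theorem C2.st (h : G.C2 e X Y u η η') {f : E} (hf : f ∈ G.F) {a b : V} (hj : G.Jn f a b) :
    u a + u b = (if (a ∈ X ↔ b ∈ X) then 0 else η) - (if (a ∈ Y ↔ b ∈ Y) then 0 else η') := by
  rw [← hj.add u, h.star f hf]
  have h1 := hj.mem_cut hf X
  have h2 := hj.mem_cut hf Y
  congr 1
  · by_cases c : (a ∈ X ↔ b ∈ X)
    · rw [if_pos c, if_neg]; rw [h1]; exact fun hn => hn c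
    · rw [if_neg c, if_pos]; rw [h1]; exact c
  · by_cases c : (a ∈ Y ↔ b ∈ Y)
    · rw [if_pos c, if_neg]; rw [h2]; exact fun hn => hn c
    · rw [if_neg c, if_pos]; rw [h2]; exact c

/-- The parts seen from the complementary shores. -/
theorem C2.compl_inter (h : G.C2 e X Y u η η') : (G.U \ X) ∩ (G.U \ Y) = G.pB X Y := by
  ext v; simp only [pB, Finset.mem_inter, Finset.mem_sdiff, Finset.mem_union]; tauto

theorem C2.compl_pB (h : G.C2 e X Y u η η') : G.pB (G.U \ X) (G.U \ Y) = X ∩ Y := by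
  ext v
  have k1 : v ∈ X → v ∈ G.U := fun hv => h.XU hv
  have k2 : v ∈ Y → v ∈ G.U := fun hv => h.YU hv
  simp only [pB, Finset.mem_inter, Finset.mem_sdiff, Finset.mem_union]; tauto

theorem C2.compl_sdiff (h : G.C2 e X Y u η η') : (G.U \ X) \ (G.U \ Y) = Y \ X := by
  ext v
  have k2 : v ∈ Y → v ∈ G.U := fun hv => h.YU hv
  simp only [Finset.mem_sdiff]; tauto

theorem C2.compl_sdiff' (h : G.C2 e X Y u η η') : (G.U \ Y) \ (G.U \ X) = X \ Y := by
  ext v
  have k1 : v ∈ X → v ∈ G.U := fun hv => h.XU hv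
  simp only [Finset.mem_sdiff]; tauto

theorem pB_swap (X Y : Finset V) : G.pB Y X = G.pB X Y := by
  unfold pB; rw [Finset.union_comm]

/-- The part `B` is odd. -/
theorem C2.oddB (h : G.C2 e X Y u η η') : Odd (G.pB X Y).card := by
  rw [← h.compl_inter]; exact h.compl.odd

/-- The part `X \ Y` is even. -/
theorem C2.evenC (h : G.C2 e X Y u η η') : Even (X \ Y).card := by
  have h1 := Finset.card_sdiff_add_card_inter X Y
  have o1 := h.ntX.2.1
  have o2 := h.odd
  rw [Nat.odd_iff] at o1 o2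
  rw [Nat.even_iff]
  omega

/-- The part `Y \ X` is even. -/
theorem C2.evenD (h : G.C2 e X Y u η η') : Even (Y \ X).card := h.swap.evenC

/-- A perfect matching without `e` meets both cuts once. -/
theorem C2.one (h : G.C2 e X Y u η η') {N : Finset E} (hN : G.IsPM N) (he : e ∉ N) :
    (N ∩ G.cut X).card = 1 ∧ (N ∩ G.cut Y).card = 1 := by
  have h1 := h.tX N (gisPM_del.2 ⟨hN, he⟩)
  have h2 := h.tY N (gisPM_del.2 ⟨hN, he⟩)
  rw [ginter_del_cut he] at h1 h2
  exact ⟨h1, h2⟩

/-- Every edge other than `e` is in a perfect matching without `e`. -/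
theorem C2.ext (h : G.C2 e X Y u η η') {f : E} (hf : f ∈ G.F) (hfe : f ≠ e) :
    ∃ N, G.IsPM N ∧ e ∉ N ∧ f ∈ N := by
  obtain ⟨N, h1, h2⟩ := h.mc.2 f (Finset.mem_erase.2 ⟨hfe, hf⟩)
  exact ⟨N, (gisPM_del.1 h1).1, (gisPM_del.1 h1).2, h2⟩

/-- `e` is in a perfect matching. -/
theorem C2.exe (h : G.C2 e X Y u η η') : ∃ N, G.IsPM N ∧ e ∈ N := h.brick.1.2 e h.he

/-- There is a perfect matching without `e`. -/
theorem C2.exn (h : G.C2 e X Y u η η') : ∃ N, G.IsPM N ∧ e ∉ N := by
  obtain ⟨N, hN⟩ := h.mc.1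
  exact ⟨N, gisPM_del.1 hN⟩

/-- Connectivity of `G - e`: a nonempty set of vertices which is not everything has an exit
different from `e`. -/
theorem C2.exit (h : G.C2 e X Y u η η') {W : Finset V} (hW : W ⊆ G.U) (hne : W.Nonempty)
    (hn : W ≠ G.U) : ∃ f ∈ G.F, f ≠ e ∧ ∃ a b, G.Jn f a b ∧ a ∈ W ∧ b ∉ W ∧ b ∈ G.U := by
  obtain ⟨f, hf⟩ := h.conn W hW hne hn
  rw [gdel_cut, Finset.mem_erase] at hf
  have hfF := gcut_subset _ hf.2
  have hc := hf.2
  rw [(jn_self (G := G) f).mem_cut hfF] at hc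
  refine ⟨f, hfF, hf.1, ?_⟩
  by_cases c : G.s f ∈ W
  · exact ⟨G.s f, G.t f, jn_self f, c, by tauto, G.ht f hfF⟩
  · exact ⟨G.t f, G.s f, (jn_self f).symm, by tauto, c, G.hs f hfF⟩

/-- A cut which is nontrivial is met at least three times by some perfect matching. -/
theorem C2.three (h : G.C2 e X Y u η η') {W : Finset V} (hW : G.Nontriv W) :
    ∃ N, G.IsPM N ∧ (N ∩ G.cut W).card ≠ 1 := by
  have := h.brick.2.2.2 W hW
  unfold Tight at this
  push Not at this
  exact this

/-- Three cut edges are impossible. -/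
theorem C2.no3X (h : G.C2 e X Y u η η') {N : Finset E} (hN : G.IsPM N) :
    (N ∩ G.cut X).card ≠ 3 := by
  intro h3
  have := h.p1X N hN
  rw [h3] at this
  exact h.hη (by simpa using this)

theorem C2.no3Y (h : G.C2 e X Y u η η') {N : Finset E} (hN : G.IsPM N) :
    (N ∩ G.cut Y).card ≠ 3 := h.swap.no3X hN

end MG

end ML
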