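import Pool.Agent.ML.G8b
import Pool.Agent.ML.A5
import Pool.Agent.ML.A6
import Pool.Agent.ML.A7c

/-!
# ML-G10a : the structure `Side` and Tutte for it
-/

set_option autoImplicit false
set_option linter.unusedSectionVars false
set_option linter.unusedFintypeInType false
set_option linter.unusedVariables false

namespace ML

namespace MG

variable {V E : Type} [Fintype V] [Fintype E] [DecidableEq V] [DecidableEq E]

variable {G : MG V E} {D : Finset V} {p q p' q' : V}

/-- One side of the Petersen argument: the part `D` has exits only to the four vertices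
`p, q, p', q'`; `{p, q}` is not an exit pair. -/
structure Side (G : MG V E) (D : Finset V) (p q p' q' : V) : Prop where
  brick : G.Brick
  sub : D ⊆ G.U
  nd : [p, q, p', q'].Nodup
  mem : p ∈ G.U ∧ q ∈ G.U ∧ p' ∈ G.U ∧ q' ∈ G.U
  out : p ∉ D ∧ q ∉ D ∧ p' ∉ D ∧ q' ∉ D
  exit : ∀ f ∈ G.F, ∀ d w, G.Jn f d w → d ∈ D → w ∉ D → w = p ∨ w = q ∨ w = p' ∨ w = q'
  ind : ∀ f ∈ G.F, ∀ x y, G.Jn f x y → x ∈ ({p, q, p', q'} : Finset V) →
    y ∉ ({p, q, p', q'} : Finset V)
  ex0 : G.Ex D ∅
  nex : ¬ G.Ex D {p, q}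
  nex4 : ¬ G.Ex D {p, q, p', q'}
  k1 : ∀ N, G.IsPM N → (N ∩ G.btw {p} D).card + (N ∩ G.btw {q} D).card
    = (N ∩ G.btw {p'} D).card + (N ∩ G.btw {q'} D).card
  np : ∃ f ∈ G.F, ∃ d ∈ D, G.Jn f p d
  nq : ∃ f ∈ G.F, ∃ d ∈ D, G.Jn f q d
  np' : ∃ f ∈ G.F, ∃ d ∈ D, G.Jn f p' d
  nq' : ∃ f ∈ G.F, ∃ d ∈ D, G.Jn f q' d

/-- A Tutte set for `D ∪ {p, q}`.

Proof. `G.sub (D ∪ {p, q})` has no perfect matching: its edges touch `D` (`ind`), so a perfect matching
would show `Ex D {p, q}`, against `nex`. `tutte` (file `A5`): `S`, `Q` with `Fam`, `|S| + 2 ≤ |Q|`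
(`|D|` is even by `ex0`, `IsPM.jcard` resp. `IsPM.even`, so `|D ∪ {p, q}|` is even). Let `M` be a perfect
matching of `G.sub D` (`ex0`). Members `A ∈ Q` with `A ⊆ D` (i.e. `p, q ∉ A`): `A` is odd, so `M` has an edge
leaving `A`; its other end is in `D`, so by `Fam` in `S ∩ D`. Different members give different ends in
`S ∩ D` (as in `fam_card_le`, file `A6`: apply it to `G.sub D` with `S ∩ D` and the family of these members).
So at most `|S ∩ D|` members are in `D`. The members are disjoint, so at most `2 - |S ∩ {p, q}|` members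
contain `p` or `q`. With `|S| = |S ∩ D| + |S ∩ {p, q}|` and `|Q| ≥ |S| + 2`: `S ∩ {p, q} = ∅`, `|Q| = |S| + 2`,
and there are exactly two members containing `p` or `q`: `Qp ∋ p`, `Rq ∋ q`, `Qp ≠ Rq`. -/
theorem Side.tutte (h : G.Side D p q p' q') :
    ∃ (S : Finset V) (Q : Finset (Finset V)) (Qp Rq : Finset V), S ⊆ D ∧ Qp ∈ Q ∧ Rq ∈ Q ∧
      Qp ≠ Rq ∧ p ∈ Qp ∧ q ∈ Rq ∧ Q.card = S.card + 2 ∧
      (∀ A ∈ Q, A ⊆ D ∪ {p, q} ∧ Disjoint A S ∧ Odd A.card) ∧
      (∀ A ∈ Q, ∀ B ∈ Q, A ≠ B → Disjoint A B) ∧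
      (∀ A ∈ Q, ∀ f ∈ G.F, ∀ x y, G.Jn f x y → x ∈ A → y ∉ A → y ∈ D ∪ {p, q} → y ∈ S) := by
  classical
  obtain ⟨hpD, hqD, hp'D, hq'D⟩ := h.out
  have hpqne : p ≠ q := by
    have := h.nd
    simp only [List.nodup_cons, List.mem_cons, not_or] at this
    exact this.1.1
  obtain ⟨W, hW⟩ : ∃ W, W = D ∪ {p, q} := ⟨_, rfl⟩
  have hpW : p ∈ W := by
    rw [hW]; exact Finset.mem_union_right _ (Finset.mem_insert_self _ _)
  have hqW : q ∈ W := by
    rw [hW]
    exact Finset.mem_union_right _ (Finset.mem_insert_of_mem (Finset.mem_singleton_self _))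
  have hDW : D ⊆ W := by rw [hW]; exact Finset.subset_union_left
  have hmW : ∀ x, x ∈ W → x ∈ D ∨ x = p ∨ x = q := by
    intro x hx
    rw [hW, Finset.mem_union, Finset.mem_insert, Finset.mem_singleton] at hx
    exact hx
  have hno : ¬ ∃ N, (G.sub W).IsPM N := by
    rintro ⟨N, hN⟩
    apply h.nex
    refine ⟨N, ?_, ?_⟩
    · rw [← hW]; exact hN
    · intro f hf
      have hfW := hN.1 hf
      rw [gsub_F] at hfW
      have hfF := ginn_subset _ hfW
      rw [(jn_self (G := G) f).mem_inn hfF] at hfW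
      rw [(jn_self (G := G) f).mem_tou hfF]
      by_contra hcon
      rw [not_or] at hcon
      have h1 := hmW _ hfW.1
      have h2 := hmW _ hfW.2
      have h3 : G.s f = p ∨ G.s f = q := h1.resolve_left hcon.1
      have h4 : G.t f = p ∨ G.t f = q := h2.resolve_left hcon.2
      apply h.ind f hfF (G.s f) (G.t f) (jn_self f)
      · simp only [Finset.mem_insert, Finset.mem_singleton]
        rcases h3 with h3 | h3
        · exact Or.inl h3
        · exact Or.inr (Or.inl h3)
      · simp only [Finset.mem_insert, Finset.mem_singleton]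
        rcases h4 with h4 | h4
        · exact Or.inl h4
        · exact Or.inr (Or.inl h4)
  obtain ⟨M, hM, hMt⟩ := h.ex0
  rw [Finset.union_empty] at hM
  have hDev : Even D.card := by
    have h1 := hM.jcard (X := D) (by rw [gsub_U])
    have h2 : (G.sub D).cut D = ∅ := by
      rw [Finset.eq_empty_iff_forall_notMem]
      intro f hf
      obtain ⟨h3, h4⟩ := (G.sub D).mem_cut.1 hf
      rw [gsub_F] at h3
      obtain ⟨-, h5, h6⟩ := G.mem_inn.1 h3
      exact h4 ⟨fun _ => h6, fun _ => h5⟩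
    rw [h2, Finset.inter_empty, Finset.card_empty, zero_add] at h1
    rw [h1]
    exact even_two_mul _
  have hWev : Even (G.sub W).U.card := by
    rw [gsub_U, hW, Finset.card_union_of_disjoint, Finset.card_pair hpqne]
    · exact hDev.add even_two
    · rw [Finset.disjoint_right]
      intro x hx
      rw [Finset.mem_insert, Finset.mem_singleton] at hx
      rcases hx with rfl | rfl
      · exact hpD
      · exact hqD
  obtain ⟨S, Q, hF, -, h2⟩ := (G.sub W).tutte hno
  have hc := h2 hWev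
  obtain ⟨hSW, hA, hdd⟩ := hF
  rw [gsub_U] at hSW
  have hAW : ∀ A ∈ Q, A ⊆ W := fun A hAQ => (hA A hAQ).1
  -- the members inside D
  have hFD : (G.sub D).Fam (S ∩ D) (Q.filter (fun A => ¬ (p ∈ A ∨ q ∈ A))) := by
    refine ⟨?_, ?_, ?_⟩
    · rw [gsub_U]; exact Finset.inter_subset_right
    · intro A hAQ
      rw [Finset.mem_filter, not_or] at hAQ
      obtain ⟨h3, h4, h5, h6⟩ := hA A hAQ.1
      have hAD : A ⊆ D := by
        intro x hx
        rcases hmW x (hAW A hAQ.1 hx) with h7 | h7 | h7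
        · exact h7
        · rw [h7] at hx; exact absurd hx hAQ.2.1
        · rw [h7] at hx; exact absurd hx hAQ.2.2
      refine ⟨by rw [gsub_U]; exact hAD, ?_, h5, ?_⟩
      · exact Finset.disjoint_of_subset_right Finset.inter_subset_left h4
      · intro e he
        obtain ⟨h7, h8⟩ := (G.sub D).mem_cut.1 he
        rw [gsub_F] at h7
        obtain ⟨h9, h10, h11⟩ := G.mem_inn.1 h7
        have h12 : e ∈ (G.sub W).cut A := by
          rw [(G.sub W).mem_cut]
          refine ⟨?_, h8⟩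
          rw [gsub_F]
          exact G.mem_inn.2 ⟨h9, hDW h10, hDW h11⟩
        rcases h6 e h12 with h13 | h13
        · exact Or.inl (Finset.mem_inter.2 ⟨h13, h10⟩)
        · exact Or.inr (Finset.mem_inter.2 ⟨h13, h11⟩)
    · intro A hAQ B hBQ hAB
      exact hdd A (Finset.mem_filter.1 hAQ).1 B (Finset.mem_filter.1 hBQ).1 hAB
  have hle := (G.sub D).fam_card_le hM hFD
  have hsplit : (Q.filter (fun A => p ∈ A ∨ q ∈ A)).card +
      (Q.filter (fun A => ¬ (p ∈ A ∨ q ∈ A))).card = Q.card :=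
    Finset.card_filter_add_card_filter_not _
  have hone : ∀ x, (Q.filter (fun A => x ∈ A)).card ≤ 1 := by
    intro x
    rw [Finset.card_le_one]
    intro A hA1 B hB1
    rw [Finset.mem_filter] at hA1 hB1
    by_contra hne
    exact Finset.disjoint_left.1 (hdd A hA1.1 B hB1.1 hne) hA1.2 hB1.2
  have hzero : ∀ x, x ∈ S → (Q.filter (fun A => x ∈ A)).card = 0 := by
    intro x hx
    rw [Finset.card_eq_zero, Finset.filter_eq_empty_iff]
    intro A hA1 hxA
    exact Finset.disjoint_left.1 (hA A hA1).2.1 hxA hx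
  have hor : (Q.filter (fun A => p ∈ A ∨ q ∈ A)).card ≤
      (Q.filter (fun A => p ∈ A)).card + (Q.filter (fun A => q ∈ A)).card := by
    rw [Finset.filter_or]
    exact Finset.card_union_le _ _
  have hSc : (S ∩ D).card ≤ S.card := Finset.card_le_card Finset.inter_subset_left
  have hpS : p ∉ S := by
    intro h3
    have h4 := hzero p h3
    have h5 := hone q
    omega
  have hqS : q ∉ S := by
    intro h3
    have h4 := hzero q h3
    have h5 := hone p
    omega
  have hSD : S ⊆ D := by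
    intro x hx
    rcases hmW x (hSW hx) with h7 | h7 | h7
    · exact h7
    · rw [h7] at hx; exact absurd hx hpS
    · rw [h7] at hx; exact absurd hx hqS
  have hSD2 : S ∩ D = S := Finset.inter_eq_left.2 hSD
  rw [hSD2] at hle
  have h1p := hone p
  have h1q := hone q
  have hP : (Q.filter (fun A => p ∈ A)).card = 1 := by omega
  have hQ1 : (Q.filter (fun A => q ∈ A)).card = 1 := by omega
  have hPQ : (Q.filter (fun A => p ∈ A ∨ q ∈ A)).card = 2 := by omega
  obtain ⟨Qp, hQp⟩ := Finset.card_eq_one.1 hP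
  obtain ⟨Rq, hQq⟩ := Finset.card_eq_one.1 hQ1
  have hQp1 : Qp ∈ Q.filter (fun A => p ∈ A) := by rw [hQp]; exact Finset.mem_singleton_self _
  have hQq1 : Rq ∈ Q.filter (fun A => q ∈ A) := by rw [hQq]; exact Finset.mem_singleton_self _
  rw [Finset.mem_filter] at hQp1 hQq1
  refine ⟨S, Q, Qp, Rq, hSD, hQp1.1, hQq1.1, ?_, hQp1.2, hQq1.2, by omega, ?_, hdd, ?_⟩
  · intro heq
    rw [Finset.filter_or, hQp, hQq, heq, Finset.union_self, Finset.card_singleton] at hPQ
    omega
  · intro A hAQ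
    obtain ⟨h3, h4, h5, -⟩ := hA A hAQ
    refine ⟨?_, h4, h5⟩
    rw [← hW]
    exact h3
  · intro A hAQ f hf x y hj hxA hyA hyW
    rw [← hW] at hyW
    obtain ⟨h3, h4, h5, h6⟩ := hA A hAQ
    have hxW : x ∈ W := h3 hxA
    have hfW : f ∈ G.inn W := (hj.mem_inn hf W).2 ⟨hxW, hyW⟩
    have hfc : f ∈ (G.sub W).cut A := by
      have hj' : (G.sub W).Jn f x y := hj
      rw [hj'.mem_cut (by rw [gsub_F]; exact hfW)]
      intro h7
      exact hyA (h7.1 hxA)
    have hxS : x ∉ S := fun h7 => Finset.disjoint_left.1 h4 hxA h7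
    have h8 : G.s f ∈ S ∨ G.t f ∈ S := h6 f hfc
    rcases hj with ⟨h9, h10⟩ | ⟨h9, h10⟩
    · rw [h9, h10] at h8
      exact h8.resolve_left hxS
    · rw [h9, h10] at h8
      exact h8.resolve_right hxS

end MG

end ML
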