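import Pool.Agent.ML.G10a

/-!
# ML-G10b : `Side`: counting the exits of the members
-/

set_option autoImplicit false
set_option linter.unusedSectionVars false
set_option linter.unusedFintypeInType false
set_option linter.unusedVariables false

namespace ML

namespace MG

variable {V E : Type} [Fintype V] [Fintype E] [DecidableEq V] [DecidableEq E]

variable {G : MG V E} {D : Finset V} {p q p' q' : V}

/-- Counting: for every perfect matching `N` of `G` all members are met once, every vertex of `S` is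
matched to a member, and `p'`, `q'` are not matched into `D` outside the members.

Proof. For `x ∈ {p, q, p', q'}` let `n x = (N ∩ btw {x} D).card ∈ {0, 1}`. Let `K` be the set of `N`-edges leaving a
member. An edge `f = xy`, `x ∈ A ∈ Q`, `y ∉ A` leaves no other member (`y ∈ B ∈ Q`, `B ≠ A`, would give
`y ∈ D ∪ {p, q}`, `y ∈ S` by `hQe`, but `B` is disjoint from `S`), so `|K| = ∑_{A ∈ Q} |N ∩ cut A| ≥ |Q| = |S| + 2`
(each term is odd, `IsPM.jodd`). The outer end `y` of `f ∈ K`: either (1) `y ∈ S` (at most `|S|` such edges,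
`IsPM.juniq`), or `y ∉ D ∪ {p, q}` (`hQe`), and then (2) `x ∈ D` and `y ∈ {p', q'}` (`h.exit`): at most
`n p' + n q'` edges, or (3) `x = p` or `x = q`, and `p` (resp. `q`) is not matched into `D`: at most
`(1 - n p) + (1 - n q)` edges. By `h.k1` the sum of the bounds is `|S| + 2`. So equality holds in all
bounds: `|N ∩ cut A| = 1` for all `A`; every vertex of `S` is the outer end of an edge of type (1); every
`N`-edge from `p'` or `q'` to `D` is of type (2). -/
theorem Side.count (h : G.Side D p q p' q') {S : Finset V} {Q : Finset (Finset V)}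
    {Qp Rq : Finset V} (hS : S ⊆ D) (hQp : Qp ∈ Q) (hQq : Rq ∈ Q) (hpq : Qp ≠ Rq) (hp : p ∈ Qp)
    (hq : q ∈ Rq) (hc : Q.card = S.card + 2)
    (hQ : ∀ A ∈ Q, A ⊆ D ∪ {p, q} ∧ Disjoint A S ∧ Odd A.card)
    (hQd : ∀ A ∈ Q, ∀ B ∈ Q, A ≠ B → Disjoint A B)
    (hQe : ∀ A ∈ Q, ∀ f ∈ G.F, ∀ x y, G.Jn f x y → x ∈ A → y ∉ A → y ∈ D ∪ {p, q} → y ∈ S)
    {N : Finset E} (hN : G.IsPM N) :
    (∀ A ∈ Q, (N ∩ G.cut A).card = 1) ∧
    (∀ s ∈ S, ∃ f ∈ N, ∃ A ∈ Q, ∃ x ∈ A, G.Jn f s x) ∧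
    (∀ f ∈ N, ∀ x y, G.Jn f x y → (x = p' ∨ x = q') → y ∈ D → ∃ A ∈ Q, y ∈ A) := by
  classical
  obtain ⟨hpU, hqU, hp'U, hq'U⟩ := h.mem
  obtain ⟨hpD, hqD, hp'D, hq'D⟩ := h.out
  have hnd := h.nd
  simp only [List.nodup_cons, List.mem_cons, List.not_mem_nil, or_false, not_or, not_false_eq_true,
    List.nodup_nil, and_true] at hnd
  obtain ⟨⟨hpq0, hpp', hpq'⟩, ⟨hqp', hqq'⟩, hp'q'⟩ := hnd
  have hmD : ∀ x, x ∈ D ∪ {p, q} ↔ x ∈ D ∨ x = p ∨ x = q := by
    intro x
    rw [Finset.mem_union, Finset.mem_insert, Finset.mem_singleton]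
  have hAU : ∀ A ∈ Q, A ⊆ G.U := by
    intro A hA x hx
    rcases (hmD x).1 ((hQ A hA).1 hx) with h1 | h1 | h1
    · exact h.sub h1
    · rw [h1]; exact hpU
    · rw [h1]; exact hqU
  -- ends of an edge of the cut of a member
  have hends : ∀ A ∈ Q, ∀ f ∈ N, f ∈ G.cut A → ∃ x y, G.Jn f x y ∧ x ∈ A ∧ y ∉ A := by
    intro A hA f hf hfc
    obtain ⟨-, h1⟩ := G.mem_cut.1 hfc
    by_cases h2 : G.s f ∈ A
    · refine ⟨G.s f, G.t f, jn_self f, h2, ?_⟩
      intro h3
      exact h1 ⟨fun _ => h3, fun _ => h2⟩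
    · refine ⟨G.t f, G.s f, (jn_self f).symm, ?_, h2⟩
      by_contra h3
      exact h1 ⟨fun h4 => absurd h4 h2, fun h4 => absurd h4 h3⟩
  have hcong : ∀ f a b c, G.Jn f a b → G.Jn f a c → b = c := by
    intro f a b c h1 h2
    rcases h1 with ⟨h3, h4⟩ | ⟨h3, h4⟩ <;> rcases h2 with ⟨h5, h6⟩ | ⟨h5, h6⟩
    · exact h4.symm.trans h6
    · rw [← h4, h6, ← h3, h5]
    · rw [← h3, h5, ← h4, h6]
    · exact h3.symm.trans h5
  obtain ⟨K, hK⟩ : ∃ K, K = Q.biUnion (fun A => N ∩ G.cut A) := ⟨_, rfl⟩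
  have hmK : ∀ f, f ∈ K ↔ ∃ A ∈ Q, f ∈ N ∧ f ∈ G.cut A := by
    intro f
    rw [hK, Finset.mem_biUnion]
    simp only [Finset.mem_inter]
  have hKc : K.card = ∑ A ∈ Q, (N ∩ G.cut A).card := by
    rw [hK, Finset.card_biUnion]
    intro A hA B hB hAB
    show Disjoint (N ∩ G.cut A) (N ∩ G.cut B)
    rw [Finset.disjoint_left]
    intro f hf hf'
    rw [Finset.mem_inter] at hf hf'
    obtain ⟨x, y, hj, hx, hy⟩ := hends A hA f hf.1 hf.2
    have hfF : f ∈ G.F := hN.1 hf.1
    have hd := hQd A hA B hB hAB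
    have hxB : x ∉ B := Finset.disjoint_left.1 hd hx
    have h1 := (hj.mem_cut hfF B).1 hf'.2
    have hyB : y ∈ B := by
      by_contra h2
      exact h1 ⟨fun h3 => absurd h3 hxB, fun h3 => absurd h3 h2⟩
    have hyS : y ∈ S := hQe A hA f hfF x y hj hx hy ((hQ B hB).1 hyB)
    exact Finset.disjoint_left.1 (hQ B hB).2.1 hyB hyS
  have hpos : ∀ A ∈ Q, 1 ≤ (N ∩ G.cut A).card := by
    intro A hA
    exact (hN.jodd (hAU A hA) (hQ A hA).2.2).pos
  have hge : Q.card ≤ K.card := by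
    rw [hKc, Finset.card_eq_sum_ones]
    exact Finset.sum_le_sum hpos
  -- the slots
  obtain ⟨P, hP⟩ : ∃ P : V → Prop, ∀ x, P x ↔ ∃ f ∈ N, ∃ d ∈ D, G.Jn f x d :=
    ⟨fun x => ∃ f ∈ N, ∃ d ∈ D, G.Jn f x d, fun x => Iff.rfl⟩
  have hn : ∀ x, (N ∩ G.btw {x} D).card = if P x then 1 else 0 := by
    intro x
    have hb : ∀ f, f ∈ N ∩ G.btw {x} D ↔ f ∈ N ∧ ∃ d ∈ D, G.Jn f x d := by
      intro f
      rw [Finset.mem_inter]
      constructor
      · rintro ⟨h1, h2⟩
        refine ⟨h1, ?_⟩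
        rw [(jn_self (G := G) f).mem_btw (hN.1 h1), Finset.mem_singleton, Finset.mem_singleton] at h2
        rcases h2 with ⟨h2, h3⟩ | ⟨h2, h3⟩
        · exact ⟨G.t f, h3, Or.inl ⟨h2, rfl⟩⟩
        · exact ⟨G.s f, h2, Or.inr ⟨rfl, h3⟩⟩
      · rintro ⟨h1, d, hd, hj⟩
        refine ⟨h1, ?_⟩
        rw [hj.mem_btw (hN.1 h1)]
        exact Or.inl ⟨Finset.mem_singleton_self _, hd⟩
    split_ifs with hx
    · obtain ⟨f, hf, d, hd, hj⟩ := (hP x).1 hx
      rw [Finset.card_eq_one]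
      refine ⟨f, ?_⟩
      ext g
      rw [hb, Finset.mem_singleton]
      constructor
      · rintro ⟨h1, d', hd', hj'⟩
        exact hN.juniq h1 hf hj' hj
      · rintro rfl
        exact ⟨hf, d, hd, hj⟩
    · rw [Finset.card_eq_zero, Finset.eq_empty_iff_forall_notMem]
      intro f hf
      obtain ⟨h1, d, hd, hj⟩ := (hb f).1 hf
      exact hx ((hP x).2 ⟨f, h1, d, hd, hj⟩)
  have hk1 := h.k1 N hN
  rw [hn, hn, hn, hn] at hk1
  obtain ⟨T, hT⟩ : ∃ T : Finset V, T = S ∪ (({p', q'} : Finset V).filter P ∪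
      ({p, q} : Finset V).filter (fun x => ¬ P x)) := ⟨_, rfl⟩
  have hTc : T.card ≤ S.card + 2 := by
    have h1 : (({p', q'} : Finset V).filter P).card
        = (if P p' then 1 else 0) + (if P q' then 1 else 0) := by
      rw [Finset.card_filter, Finset.sum_pair hp'q']
    have h2 : (({p, q} : Finset V).filter (fun x => ¬ P x)).card
        = (if ¬ P p then 1 else 0) + (if ¬ P q then 1 else 0) := by
      rw [Finset.card_filter, Finset.sum_pair hpq0]
    have h3 := Finset.card_union_le S (({p', q'} : Finset V).filter P ∪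
      ({p, q} : Finset V).filter (fun x => ¬ P x))
    have h4 := Finset.card_union_le (({p', q'} : Finset V).filter P)
      (({p, q} : Finset V).filter (fun x => ¬ P x))
    rw [← hT] at h3
    rw [h1, h2] at h4
    have h5 : (if P p then 1 else 0) + (if ¬ P p then 1 else 0) = 1 := by
      by_cases h6 : P p <;> simp [h6]
    have h7 : (if P q then 1 else 0) + (if ¬ P q then 1 else 0) = 1 := by
      by_cases h6 : P q <;> simp [h6]
    omega
  have hφ : ∀ f, ∃ v, f ∈ K → v ∈ T ∧ ∃ w, G.Jn f v w := by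
    intro f
    by_cases hfK : f ∈ K
    swap
    · exact ⟨p, fun h1 => absurd h1 hfK⟩
    obtain ⟨A, hA, hfN, hfc⟩ := (hmK f).1 hfK
    obtain ⟨x, y, hj, hx, hy⟩ := hends A hA f hfN hfc
    have hfF : f ∈ G.F := hN.1 hfN
    by_cases hyD : y ∈ D ∪ {p, q}
    · have hyS := hQe A hA f hfF x y hj hx hy hyD
      refine ⟨y, fun _ => ⟨?_, x, hj.symm⟩⟩
      rw [hT]
      exact Finset.mem_union_left _ hyS
    · have hyD' := hyD
      rw [hmD, not_or, not_or] at hyD'
      rcases (hmD x).1 ((hQ A hA).1 hx) with h1 | h1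
      · -- type (2)
        have h2 := h.exit f hfF x y hj h1 hyD'.1
        have h3 : y = p' ∨ y = q' := by
          rcases h2 with h2 | h2 | h2 | h2
          · exact absurd h2 hyD'.2.1
          · exact absurd h2 hyD'.2.2
          · exact Or.inl h2
          · exact Or.inr h2
        refine ⟨y, fun _ => ⟨?_, x, hj.symm⟩⟩
        rw [hT]
        refine Finset.mem_union_right _ (Finset.mem_union_left _ (Finset.mem_filter.2 ⟨?_, ?_⟩))
        · rw [Finset.mem_insert, Finset.mem_singleton]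
          exact h3
        · rw [hP]
          exact ⟨f, hfN, x, h1, hj.symm⟩
      · -- type (3)
        refine ⟨x, fun _ => ⟨?_, y, hj⟩⟩
        rw [hT]
        refine Finset.mem_union_right _ (Finset.mem_union_right _ (Finset.mem_filter.2 ⟨?_, ?_⟩))
        · rw [Finset.mem_insert, Finset.mem_singleton]
          exact h1
        · rw [hP]
          rintro ⟨g, hg, d, hd, hj'⟩
          have h2 : f = g := hN.juniq hfN hg hj hj'
          subst h2
          have h3 : y = d := hcong f x y d hj hj'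
          rw [h3] at hyD'
          exact hyD'.1 hd
  choose φ hφ using hφ
  have hinj : Set.InjOn φ (K : Set E) := by
    intro f hf g hg hfg
    have hf' : f ∈ K := Finset.mem_coe.1 hf
    have hg' : g ∈ K := Finset.mem_coe.1 hg
    obtain ⟨-, w, hw⟩ := hφ f hf'
    obtain ⟨-, w', hw'⟩ := hφ g hg'
    rw [← hfg] at hw'
    obtain ⟨-, -, hfN, -⟩ := (hmK f).1 hf'
    obtain ⟨-, -, hgN, -⟩ := (hmK g).1 hg'
    exact hN.juniq hfN hgN hw hw'
  have himg : K.image φ ⊆ T := by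
    intro v hv
    obtain ⟨f, hf, rfl⟩ := Finset.mem_image.1 hv
    exact (hφ f hf).1
  have hic : (K.image φ).card = K.card := Finset.card_image_of_injOn hinj
  have hle2 : T.card ≤ (K.image φ).card := by
    rw [hic]
    omega
  have hEq : K.image φ = T := Finset.eq_of_subset_of_card_le himg hle2
  have hKQ : K.card = Q.card := by
    have h1 := Finset.card_le_card himg
    omega
  have hcov : ∀ v ∈ T, ∃ f ∈ N, ∃ A ∈ Q, f ∈ G.cut A ∧ ∃ w, G.Jn f v w := by
    intro v hv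
    rw [← hEq] at hv
    obtain ⟨f, hf, rfl⟩ := Finset.mem_image.1 hv
    obtain ⟨A, hA, hfN, hfc⟩ := (hmK f).1 hf
    exact ⟨f, hfN, A, hA, hfc, (hφ f hf).2⟩
  refine ⟨?_, ?_, ?_⟩
  · intro A hA
    have h1 : ∑ A ∈ Q, 1 = ∑ A ∈ Q, (N ∩ G.cut A).card := by
      rw [← Finset.card_eq_sum_ones, ← hKc, hKQ]
    exact ((Finset.sum_eq_sum_iff_of_le hpos).1 h1 A hA).symm
  · intro s hs
    obtain ⟨f, hfN, A, hA, hfc, w, hw⟩ := hcov s (by rw [hT]; exact Finset.mem_union_left _ hs)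
    refine ⟨f, hfN, A, hA, w, ?_, hw⟩
    have hsA : s ∉ A := fun h1 => Finset.disjoint_left.1 (hQ A hA).2.1 h1 hs
    have h1 := (hw.mem_cut (hN.1 hfN) A).1 hfc
    by_contra h2
    exact h1 ⟨fun h3 => absurd h3 hsA, fun h3 => absurd h3 h2⟩
  · intro f hf x y hj hx hy
    have hxT : x ∈ T := by
      rw [hT]
      refine Finset.mem_union_right _ (Finset.mem_union_left _ (Finset.mem_filter.2 ⟨?_, ?_⟩))
      · rw [Finset.mem_insert, Finset.mem_singleton]
        exact hx
      · rw [hP]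
        exact ⟨f, hf, y, hy, hj⟩
    obtain ⟨g, hgN, A, hA, hgc, w, hw⟩ := hcov x hxT
    have hfg : g = f := hN.juniq hgN hf hw hj
    subst hfg
    refine ⟨A, hA, ?_⟩
    have hxA : x ∉ A := by
      intro h1
      rcases (hmD x).1 ((hQ A hA).1 h1) with h2 | h2 | h2
      · rcases hx with h3 | h3
        · rw [h3] at h2; exact hp'D h2
        · rw [h3] at h2; exact hq'D h2
      · rcases hx with h3 | h3
        · exact hpp' (h2.symm.trans h3)
        · exact hpq' (h2.symm.trans h3)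
      · rcases hx with h3 | h3
        · exact hqp' (h2.symm.trans h3)
        · exact hqq' (h2.symm.trans h3)
    have h1 := (hj.mem_cut (hN.1 hf) A).1 hgc
    by_contra h2
    exact h1 ⟨fun h3 => absurd h3 hxA, fun h3 => absurd h3 h2⟩

end MG

end ML
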