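import Pool.Agent.ML.G10b

/-!
# ML-G10c : `Side`: bipartite structure of `D`
-/

set_option autoImplicit false
set_option linter.unusedSectionVars false
set_option linter.unusedFintypeInType false
set_option linter.unusedVariables false

namespace ML

namespace MG

variable {V E : Type} [Fintype V] [Fintype E] [DecidableEq V] [DecidableEq E]

variable {G : MG V E} {D : Finset V} {p q p' q' : V}

private theorem g10c_other {f : E} {a b b' : V} (h : G.Jn f a b) (h' : G.Jn f a b') :
    b = b' := by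
  rcases h with ⟨h1, h2⟩ | ⟨h1, h2⟩ <;> rcases h' with ⟨h3, h4⟩ | ⟨h3, h4⟩
  · exact h2.symm.trans h4
  · rw [← h2, ← h3, h1, h4]
  · rw [← h1, ← h4, h2, h3]
  · exact h1.symm.trans h3

private theorem g10c_even (hMc : G.Mc) : Even G.U.card := by
  obtain ⟨N, hN⟩ := hMc.1
  have h1 := hN.jcard (Finset.Subset.refl G.U)
  have h2 : G.cut G.U = ∅ := by
    rw [Finset.eq_empty_iff_forall_notMem]
    intro f hf
    have hfF := gcut_subset _ hf
    rw [(jn_self (G := G) f).mem_cut hfF] at hf
    exact hf (by simp [G.hs f hfF, G.ht f hfF])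
  rw [h2, Finset.inter_empty, Finset.card_empty, zero_add] at h1
  rw [h1]
  exact even_two_mul _

/-- `D` is bipartite with classes `S`, `Z`; `p`, `q` are joined to `S` only, `p'`, `q'` to `Z` only.

Proof. `S, Q, Qp, Rq` from `h.tutte`; `h.count` for all perfect matchings. A member `A` is tight. `A` is
odd, the complement contains `p'`, `q'` and is odd (`|U|` even: `geven_U`), so at least 3; if `|A| ≥ 3` then
`Nontriv A`, against `h.brick`. So every member is a singleton, `Qp = {p}`, `Rq = {q}`.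
`Z` = union of the members other than `Qp`, `Rq`: `|Z| = |Q| - 2 = |S|`, `Z ⊆ D` (they do not contain `p`,
`q`), disjoint from `S`. `R = D \ (S ∪ Z)`: no edge `f` of `G` leaves `R`. Otherwise let `N ∋ f` be a perfect
matching (`h.brick.1.2`), `f = xy`, `x ∈ R`, `y ∉ R`: `y ∈ S` is impossible (`y` is matched to a member by
`count`, `x` is in no member), `y` in a member is impossible (`hQe`: `x ∈ D`, so `x ∈ S`), in particular
`y ≠ p, q`; `y ∈ {p', q'}` is impossible by `count` (`x` would be in a member). So `R = ∅` by `Conn`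
(`R ≠ U` since `p ∉ R`), and `D = S ∪ Z`.
No edge inside `S`: it would be in a perfect matching, but vertices of `S` are matched to members.
No edge inside `Z`, and `D`-neighbours of `p`, `q` in `S`: `hQe` (members are singletons; loops are
excluded by `Mc`, `IsPM.jne`). `D`-neighbours of `p'`, `q'` are in `Z`: an edge from `p'` to `s ∈ S` would be in
a perfect matching, where `s` is matched to a member, but `p'` is in no member. -/
theorem Side.bip (h : G.Side D p q p' q') : ∃ S Z : Finset V, D = S ∪ Z ∧ Disjoint S Z ∧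
    S.card = Z.card ∧ (∀ f ∈ G.F, ∀ x y, G.Jn f x y → x ∈ S → y ∉ S) ∧
    (∀ f ∈ G.F, ∀ x y, G.Jn f x y → x ∈ Z → y ∉ Z) ∧
    (∀ f ∈ G.F, ∀ x y, G.Jn f x y → (x = p ∨ x = q) → y ∈ D → y ∈ S) ∧
    (∀ f ∈ G.F, ∀ x y, G.Jn f x y → (x = p' ∨ x = q') → y ∈ D → y ∈ Z) := by
  obtain ⟨S, Q, Qp, Rq, hS, hQp, hQq, hpq, hp, hq, hc, hQ, hQd, hQe⟩ := h.tutte
  have hcount := fun N (hN : G.IsPM N) => h.count hS hQp hQq hpq hp hq hc hQ hQd hQe hN
  have hnd := h.nd
  simp only [List.nodup_cons, List.mem_cons, List.not_mem_nil, or_false, not_or,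
    not_false_iff, List.nodup_nil, and_true] at hnd
  obtain ⟨⟨npq, npp, npq'⟩, ⟨nqp', nqq'⟩, np'q'⟩ := hnd
  have hU : Even G.U.card := g10c_even h.brick.1
  -- members are singletons
  have hsing : ∀ A ∈ Q, ∃ v, A = {v} := by
    intro A hA
    rw [← Finset.card_eq_one]
    by_contra h1
    obtain ⟨hA1, hA2, hA3⟩ := hQ A hA
    have hAU : A ⊆ G.U := by
      intro v hv
      have := hA1 hv
      rw [Finset.mem_union, Finset.mem_insert, Finset.mem_singleton] at this
      rcases this with h2 | rfl | rfl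
      · exact h.sub h2
      · exact h.mem.1
      · exact h.mem.2.1
    have hp'A : p' ∉ A := by
      intro hcon
      have := hA1 hcon
      rw [Finset.mem_union, Finset.mem_insert, Finset.mem_singleton] at this
      rcases this with h2 | h2 | h2
      · exact h.out.2.2.1 h2
      · exact npp h2.symm
      · exact nqp' h2.symm
    have hq'A : q' ∉ A := by
      intro hcon
      have := hA1 hcon
      rw [Finset.mem_union, Finset.mem_insert, Finset.mem_singleton] at this
      rcases this with h2 | h2 | h2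
      · exact h.out.2.2.2 h2
      · exact npq' h2.symm
      · exact nqq' h2.symm
    have h2 : 2 ≤ (G.U \ A).card := by
      have : ({p', q'} : Finset V) ⊆ G.U \ A := by
        intro v hv
        rw [Finset.mem_insert, Finset.mem_singleton] at hv
        rcases hv with rfl | rfl
        · exact Finset.mem_sdiff.2 ⟨h.mem.2.2.1, hp'A⟩
        · exact Finset.mem_sdiff.2 ⟨h.mem.2.2.2, hq'A⟩
      have h3 := Finset.card_le_card this
      rwa [Finset.card_pair np'q'] at h3
    have h4 := Finset.card_sdiff_add_card_eq_card hAU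
    have hnt : G.Nontriv A := by
      refine ⟨hAU, hA3, ?_, ?_⟩
      · rw [Nat.odd_iff] at hA3
        omega
      · rw [Nat.odd_iff] at hA3
        rw [Nat.even_iff] at hU
        omega
    exact h.brick.2.2.2 A hnt (fun N hN => (hcount N hN).1 A hA)
  have hin : ∀ A ∈ Q, ∀ v ∈ A, {v} ∈ Q := by
    intro A hA v hv
    obtain ⟨w, rfl⟩ := hsing A hA
    rw [Finset.mem_singleton] at hv
    rw [hv]
    exact hA
  have hpQ : ({p} : Finset V) ∈ Q := hin _ hQp _ hp
  have hqQ : ({q} : Finset V) ∈ Q := hin _ hQq _ hq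
  have hQp1 : Qp = {p} := by
    obtain ⟨w, rfl⟩ := hsing _ hQp
    rw [Finset.mem_singleton.1 hp]
  have hQq1 : Rq = {q} := by
    obtain ⟨w, rfl⟩ := hsing _ hQq
    rw [Finset.mem_singleton.1 hq]
  have hnotS : ∀ v, {v} ∈ Q → v ∉ S := by
    intro v hv
    exact Finset.disjoint_left.1 (hQ _ hv).2.1 (Finset.mem_singleton_self v)
  set Z : Finset V := D.filter (fun v => ({v} : Finset V) ∈ Q) with hZ
  have hZD : Z ⊆ D := Finset.filter_subset _ _
  have hZQ : ∀ v ∈ Z, ({v} : Finset V) ∈ Q := fun v hv => (Finset.mem_filter.1 hv).2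
  have hmemZ : ∀ v ∈ D, ∀ A ∈ Q, v ∈ A → v ∈ Z := fun v hv A hA hvA =>
    Finset.mem_filter.2 ⟨hv, hin A hA v hvA⟩
  have himg : Z.image (fun v => ({v} : Finset V)) = (Q.erase Qp).erase Rq := by
    ext A
    rw [Finset.mem_image, Finset.mem_erase, Finset.mem_erase]
    constructor
    · rintro ⟨v, hv, rfl⟩
      have hvD := hZD hv
      refine ⟨?_, ?_, hZQ v hv⟩
      · rw [hQq1]
        intro he
        rw [Finset.singleton_inj] at he
        exact h.out.2.1 (he ▸ hvD)
      · rw [hQp1]
        intro he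
        rw [Finset.singleton_inj] at he
        exact h.out.1 (he ▸ hvD)
    · rintro ⟨h1, h2, h3⟩
      obtain ⟨v, rfl⟩ := hsing A h3
      refine ⟨v, Finset.mem_filter.2 ⟨?_, h3⟩, rfl⟩
      have h4 := (hQ _ h3).1 (Finset.mem_singleton_self v)
      rw [Finset.mem_union, Finset.mem_insert, Finset.mem_singleton] at h4
      rcases h4 with h4 | rfl | rfl
      · exact h4
      · exact absurd hQp1.symm h2
      · exact absurd hQq1.symm h1
  have hcard : S.card = Z.card := by
    have h1 : (Z.image (fun v => ({v} : Finset V))).card = Z.card :=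
      Finset.card_image_of_injective _ Finset.singleton_injective
    rw [himg, Finset.card_erase_of_mem (Finset.mem_erase.2 ⟨fun he => hpq he.symm, hQq⟩),
      Finset.card_erase_of_mem hQp] at h1
    omega
  -- neighbours in perfect matchings
  have hSm : ∀ f ∈ G.F, ∀ x y, G.Jn f x y → x ∈ S → {y} ∈ Q := by
    intro f hf x y hj hx
    obtain ⟨N, hN, hfN⟩ := h.brick.1.2 f hf
    obtain ⟨f', hf', A, hA, x', hx', hj'⟩ := (hcount N hN).2.1 x hx
    have hff := hN.juniq hfN hf' hj hj'
    rw [← hff] at hj'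
    rw [g10c_other hj hj']
    exact hin A hA _ hx'
  have hQm : ∀ f ∈ G.F, ∀ x y, G.Jn f x y → {x} ∈ Q → y ∈ D ∪ {p, q} → y ∈ S := by
    intro f hf x y hj hx hy
    obtain ⟨N, hN, hfN⟩ := h.brick.1.2 f hf
    have hne := hN.jne hfN hj
    exact hQe _ hx f hf x y hj (Finset.mem_singleton_self x)
      (fun he => hne (Finset.mem_singleton.1 he).symm) hy
  have hpm : ∀ f ∈ G.F, ∀ x y, G.Jn f x y → (x = p' ∨ x = q') → y ∈ D → y ∈ Z := by
    intro f hf x y hj hx hy
    obtain ⟨N, hN, hfN⟩ := h.brick.1.2 f hf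
    obtain ⟨A, hA, hyA⟩ := (hcount N hN).2.2 f hfN x y hj hx hy
    exact hmemZ y hy A hA hyA
  have hdis : Disjoint S Z := by
    rw [Finset.disjoint_right]
    intro v hv
    exact hnotS v (hZQ v hv)
  have hD : D = S ∪ Z := by
    apply Finset.Subset.antisymm _ (Finset.union_subset hS hZD)
    by_contra hcon
    set R := D \ (S ∪ Z) with hR
    have hRne : R.Nonempty := by
      rw [Finset.not_subset] at hcon
      obtain ⟨x, hx1, hx2⟩ := hcon
      exact ⟨x, Finset.mem_sdiff.2 ⟨hx1, hx2⟩⟩
    have hRD : R ⊆ D := Finset.sdiff_subset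
    have hRU : R ≠ G.U := by
      intro he
      exact h.out.1 (hRD (he ▸ h.mem.1))
    obtain ⟨f, hf⟩ := h.brick.2.1 R (hRD.trans h.sub) hRne hRU
    have hfF := gcut_subset _ hf
    have hxy : ∃ x y, G.Jn f x y ∧ x ∈ R ∧ y ∉ R := by
      rw [(jn_self (G := G) f).mem_cut hfF] at hf
      by_cases c : G.s f ∈ R
      · exact ⟨G.s f, G.t f, jn_self f, c, by tauto⟩
      · exact ⟨G.t f, G.s f, (jn_self f).symm, by tauto, c⟩
    obtain ⟨x, y, hj, hx, hy⟩ := hxy
    have hxD : x ∈ D := hRD hx
    have hxSZ : x ∉ S ∧ x ∉ Z := by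
      have := (Finset.mem_sdiff.1 hx).2
      rw [Finset.mem_union, not_or] at this
      exact this
    have hyS : y ∉ S := by
      intro hyS
      have h1 := hSm f hfF y x hj.symm hyS
      exact hxSZ.2 (hmemZ x hxD _ h1 (Finset.mem_singleton_self x))
    have hyQ : {y} ∉ Q := by
      intro hyQ
      exact hxSZ.1 (hQm f hfF y x hj.symm hyQ (Finset.mem_union_left _ hxD))
    by_cases hyD : y ∈ D
    · apply hy
      refine Finset.mem_sdiff.2 ⟨hyD, ?_⟩
      rw [Finset.mem_union, not_or]
      exact ⟨hyS, fun hyZ => hyQ (hZQ y hyZ)⟩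
    · rcases h.exit f hfF x y hj hxD hyD with rfl | rfl | h1 | h1
      · exact hyQ hpQ
      · exact hyQ hqQ
      · exact hxSZ.2 (hpm f hfF y x hj.symm (Or.inl h1) hxD)
      · exact hxSZ.2 (hpm f hfF y x hj.symm (Or.inr h1) hxD)
  refine ⟨S, Z, hD, hdis, hcard, ?_, ?_, ?_, hpm⟩
  · intro f hf x y hj hx hy
    exact hnotS y (hSm f hf x y hj hx) hy
  · intro f hf x y hj hx hy
    exact hnotS y (hZQ y hy) (hQm f hf x y hj (hZQ x hx) (Finset.mem_union_left _ (hZD hy)))
  · intro f hf x y hj hx hy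
    refine hQm f hf x y hj ?_ (Finset.mem_union_left _ hy)
    rcases hx with rfl | rfl
    · exact hpQ
    · exact hqQ

end MG

end ML
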