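import Pool.Agent.ML.G10a
import Pool.Agent.ML.A4

/-!
# ML-G10d : Hall argument for the bipartite side
-/

set_option autoImplicit false
set_option linter.unusedSectionVars false
set_option linter.unusedFintypeInType false
set_option linter.unusedVariables false

namespace ML

namespace MG

variable {V E : Type} [Fintype V] [Fintype E] [DecidableEq V] [DecidableEq E]

variable {G : MG V E} {D : Finset V} {p q p' q' : V}

/-- In the bipartite structure `p` and `q` have a single common neighbour in `D`.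

Proof. `A' = S ∪ {p', q'}`, `B' = Z ∪ {p, q}`, disjoint, of the same size, `A' ∪ B' = D ∪ {p, q, p', q'}`. If
every `Z' ⊆ B'` has `|Z'| ≤ |nb Z' ∩ A'|` then `hall` (file `A4`) gives a perfect matching `N ⊆ cut A'` of
`G.sub (A' ∪ B')`; its edges touch `D` (`ind`): `Ex D {p, q, p', q'}`, against `nex4`. So there is
`Z' ⊆ B'` with `|nb Z' ∩ A'| < |Z'|`. `Z1 = Z' ∩ Z`. If `Z1` is nonempty: `inn Z1 = ∅` (`hZi`), so
`|Z1| + 2 ≤ |nb Z1|` (`Brick.ind_nb`), and `nb Z1 ⊆ A'` (neighbours in `D` are in `S` by `hZi`; neighbours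
outside `D` are in `{p, q, p', q'}` by `exit`, and not `p`, `q`, by `hpS`: `Z1 ∩ S = ∅`), so
`|nb Z' ∩ A'| ≥ |nb Z1| ≥ |Z1| + 2 ≥ |Z'|`: contradiction. So `Z' ⊆ {p, q}`. `p` and `q` have neighbours in `D`,
which are in `S ⊆ A'` (`hnp`, `hnq`, `hpS`), so `|nb Z' ∩ A'| ≥ 1` if `Z'` is nonempty; so `Z' = {p, q}` and
`|nb {p, q} ∩ A'| = 1`, say `{d}`. All `D`-neighbours of `p` and `q` are in `nb {p, q} ∩ A'`. -/
theorem side_hall (hb : G.Brick) {S Z : Finset V} (hDU : D ⊆ G.U)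
    (hnd : [p, q, p', q'].Nodup) (hmem : p ∈ G.U ∧ q ∈ G.U ∧ p' ∈ G.U ∧ q' ∈ G.U)
    (hout : p ∉ D ∧ q ∉ D ∧ p' ∉ D ∧ q' ∉ D)
    (hexit : ∀ f ∈ G.F, ∀ d w, G.Jn f d w → d ∈ D → w ∉ D → w = p ∨ w = q ∨ w = p' ∨ w = q')
    (hind : ∀ f ∈ G.F, ∀ x y, G.Jn f x y → x ∈ ({p, q, p', q'} : Finset V) →
      y ∉ ({p, q, p', q'} : Finset V))
    (hnex4 : ¬ G.Ex D {p, q, p', q'})
    (hnp : ∃ f ∈ G.F, ∃ d ∈ D, G.Jn f p d) (hnq : ∃ f ∈ G.F, ∃ d ∈ D, G.Jn f q d)
    (hD : D = S ∪ Z) (hd : Disjoint S Z) (hc : S.card = Z.card)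
    (hSi : ∀ f ∈ G.F, ∀ x y, G.Jn f x y → x ∈ S → y ∉ S)
    (hZi : ∀ f ∈ G.F, ∀ x y, G.Jn f x y → x ∈ Z → y ∉ Z)
    (hpS : ∀ f ∈ G.F, ∀ x y, G.Jn f x y → (x = p ∨ x = q) → y ∈ D → y ∈ S)
    (hpZ : ∀ f ∈ G.F, ∀ x y, G.Jn f x y → (x = p' ∨ x = q') → y ∈ D → y ∈ Z) :
    ∃ d ∈ S, ∀ f ∈ G.F, ∀ x y, G.Jn f x y → (x = p ∨ x = q) → y ∈ D → y = d := by
  classical
  obtain ⟨hpU, hqU, hp'U, hq'U⟩ := hmem
  obtain ⟨hpD, hqD, hp'D, hq'D⟩ := hout
  simp only [List.nodup_cons, List.mem_cons, List.not_mem_nil, or_false, not_or, not_false_eq_true,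
    List.nodup_nil, and_true] at hnd
  obtain ⟨⟨hpq0, hpp', hpq'⟩, ⟨hqp', hqq'⟩, hp'q'⟩ := hnd
  have hSD : S ⊆ D := by rw [hD]; exact Finset.subset_union_left
  have hZD : Z ⊆ D := by rw [hD]; exact Finset.subset_union_right
  have hnS : ∀ x, x ∉ D → x ∉ S := fun x hx h1 => hx (hSD h1)
  have hnZ : ∀ x, x ∉ D → x ∉ Z := fun x hx h1 => hx (hZD h1)
  have hmS : ∀ x, x ∈ D → x ∉ S → x ∈ Z := by
    intro x hx h1
    rw [hD, Finset.mem_union] at hx
    exact hx.resolve_left h1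
  have hmZ : ∀ x, x ∈ D → x ∉ Z → x ∈ S := by
    intro x hx h1
    rw [hD, Finset.mem_union] at hx
    exact hx.resolve_right h1
  obtain ⟨A, hA⟩ : ∃ A, A = S ∪ {p', q'} := ⟨_, rfl⟩
  obtain ⟨B, hB⟩ : ∃ B, B = Z ∪ {p, q} := ⟨_, rfl⟩
  have hmA : ∀ x, x ∈ A ↔ x ∈ S ∨ x = p' ∨ x = q' := by
    intro x
    rw [hA, Finset.mem_union, Finset.mem_insert, Finset.mem_singleton]
  have hmB : ∀ x, x ∈ B ↔ x ∈ Z ∨ x = p ∨ x = q := by
    intro x
    rw [hB, Finset.mem_union, Finset.mem_insert, Finset.mem_singleton]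
  have hAB : A ∪ B = D ∪ {p, q, p', q'} := by
    ext x
    rw [Finset.mem_union, hmA, hmB, Finset.mem_union, hD, Finset.mem_union, Finset.mem_insert,
      Finset.mem_insert, Finset.mem_insert, Finset.mem_singleton]
    tauto
  have hAU : A ⊆ G.U := by
    intro x hx
    rcases (hmA x).1 hx with h1 | h1 | h1
    · exact hDU (hSD h1)
    · rw [h1]; exact hp'U
    · rw [h1]; exact hq'U
  have hBU : B ⊆ G.U := by
    intro x hx
    rcases (hmB x).1 hx with h1 | h1 | h1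
    · exact hDU (hZD h1)
    · rw [h1]; exact hpU
    · rw [h1]; exact hqU
  have hdAB : Disjoint A B := by
    rw [Finset.disjoint_left]
    intro x hx hx'
    rcases (hmA x).1 hx with h1 | h1 | h1 <;> rcases (hmB x).1 hx' with h2 | h2 | h2
    · exact Finset.disjoint_left.1 hd h1 h2
    · rw [h2] at h1; exact hnS p hpD h1
    · rw [h2] at h1; exact hnS q hqD h1
    · rw [h1] at h2; exact hnZ p' hp'D h2
    · exact hpp' (h2.symm.trans h1)
    · exact hqp' (h2.symm.trans h1)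
    · rw [h1] at h2; exact hnZ q' hq'D h2
    · exact hpq' (h2.symm.trans h1)
    · exact hqq' (h2.symm.trans h1)
  have hcA : A.card = S.card + 2 := by
    rw [hA, Finset.card_union_of_disjoint, Finset.card_pair hp'q']
    rw [Finset.disjoint_right]
    intro x hx
    rw [Finset.mem_insert, Finset.mem_singleton] at hx
    rcases hx with rfl | rfl
    · exact hnS _ hp'D
    · exact hnS _ hq'D
  have hcB : B.card = Z.card + 2 := by
    rw [hB, Finset.card_union_of_disjoint, Finset.card_pair hpq0]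
    rw [Finset.disjoint_right]
    intro x hx
    rw [Finset.mem_insert, Finset.mem_singleton] at hx
    rcases hx with rfl | rfl
    · exact hnZ _ hpD
    · exact hnZ _ hqD
  -- the set violating the condition of Hall
  have hviol : ∃ Z', Z' ⊆ B ∧ (G.nb Z' ∩ A).card < Z'.card := by
    by_contra hcon
    push Not at hcon
    obtain ⟨N, hN, hNc⟩ := G.hall hAU hBU hdAB (by rw [hcA, hcB, hc]) hcon
    apply hnex4
    refine ⟨N, by rw [← hAB]; exact hN, ?_⟩
    intro f hf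
    have hfF : f ∈ G.F := G.cut_sub A (hNc hf)
    have hfi := hN.1 hf
    rw [gsub_F, hAB, (jn_self (G := G) f).mem_inn hfF] at hfi
    rw [(jn_self (G := G) f).mem_tou hfF]
    by_contra h1
    rw [not_or] at h1
    have h2 := Finset.mem_union.1 hfi.1
    have h3 := Finset.mem_union.1 hfi.2
    exact hind f hfF _ _ (jn_self f) (h2.resolve_left h1.1) (h3.resolve_left h1.2)
  obtain ⟨Z', hZ'B, hlt⟩ := hviol
  have hZ1e : Z' ∩ Z = ∅ := by
    by_contra hne
    have hne' : (Z' ∩ Z).Nonempty := Finset.nonempty_iff_ne_empty.2 hne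
    have hinn : G.inn (Z' ∩ Z) = ∅ := by
      rw [Finset.eq_empty_iff_forall_notMem]
      intro f hf
      obtain ⟨hfF, h1, h2⟩ := G.mem_inn.1 hf
      exact hZi f hfF _ _ (jn_self f) (Finset.mem_inter.1 h1).2 (Finset.mem_inter.1 h2).2
    have h1 := hb.ind_nb (fun x hx => hDU (hZD (Finset.mem_inter.1 hx).2)) hne' hinn
    have h2 : G.nb (Z' ∩ Z) ⊆ G.nb Z' ∩ A := by
      intro y hy
      obtain ⟨hyU, f, hfF, h3⟩ := G.mem_nb.1 hy
      have h4 : ∃ z ∈ Z' ∩ Z, G.Jn f z y := by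
        rcases h3 with ⟨h3, h5⟩ | ⟨h3, h5⟩
        · exact ⟨G.t f, h5, Or.inr ⟨h3, rfl⟩⟩
        · exact ⟨G.s f, h5, Or.inl ⟨rfl, h3⟩⟩
      obtain ⟨z, hz, hj⟩ := h4
      rw [Finset.mem_inter] at hz
      rw [Finset.mem_inter]
      constructor
      · rw [G.mem_nb]
        refine ⟨hyU, f, hfF, ?_⟩
        rcases h3 with ⟨h3, h5⟩ | ⟨h3, h5⟩
        · exact Or.inl ⟨h3, (Finset.mem_inter.1 h5).1⟩
        · exact Or.inr ⟨h3, (Finset.mem_inter.1 h5).1⟩
      · rw [hmA]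
        by_cases hyD : y ∈ D
        · left
          exact hmZ y hyD (hZi f hfF z y hj hz.2)
        · right
          have hzS : z ∉ S := fun h6 => Finset.disjoint_left.1 hd h6 hz.2
          rcases hexit f hfF z y hj (hZD hz.2) hyD with h6 | h6 | h6 | h6
          · exact absurd (hpS f hfF y z hj.symm (Or.inl h6) (hZD hz.2)) hzS
          · exact absurd (hpS f hfF y z hj.symm (Or.inr h6) (hZD hz.2)) hzS
          · exact Or.inl h6
          · exact Or.inr h6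
    have h3 := Finset.card_le_card h2
    have h4 : Z'.card ≤ (Z' ∩ Z).card + 2 := by
      have h5 : Z' ⊆ (Z' ∩ Z) ∪ {p, q} := by
        intro x hx
        rw [Finset.mem_union, Finset.mem_inter, Finset.mem_insert, Finset.mem_singleton]
        rcases (hmB x).1 (hZ'B hx) with h6 | h6
        · exact Or.inl ⟨hx, h6⟩
        · exact Or.inr h6
      have h6 := Finset.card_le_card h5
      have h7 := Finset.card_union_le (Z' ∩ Z) ({p, q} : Finset V)
      rw [Finset.card_pair hpq0] at h7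
      omega
    omega
  have hZ'pq : ∀ x ∈ Z', x = p ∨ x = q := by
    intro x hx
    rcases (hmB x).1 (hZ'B hx) with h6 | h6
    · exfalso
      have h7 : x ∈ Z' ∩ Z := Finset.mem_inter.2 ⟨hx, h6⟩
      rw [hZ1e] at h7
      exact absurd h7 (Finset.notMem_empty x)
    · exact h6
  have hnbd : ∀ f ∈ G.F, ∀ x y, G.Jn f x y → (x = p ∨ x = q) → y ∈ D → x ∈ Z' →
      y ∈ G.nb Z' ∩ A := by
    intro f hf x y hj hx hy hxZ
    rw [Finset.mem_inter]
    constructor
    · rw [G.mem_nb]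
      refine ⟨hDU hy, f, hf, ?_⟩
      rcases hj with ⟨h1, h2⟩ | ⟨h1, h2⟩
      · exact Or.inr ⟨h2, by rw [h1]; exact hxZ⟩
      · exact Or.inl ⟨h1, by rw [h2]; exact hxZ⟩
    · rw [hmA]
      exact Or.inl (hpS f hf x y hj hx hy)
  have hpos : 0 < Z'.card := by omega
  obtain ⟨x, hx⟩ := Finset.card_pos.1 hpos
  have hxn : 0 < (G.nb Z' ∩ A).card := by
    rw [Finset.card_pos]
    rcases hZ'pq x hx with h1 | h1
    · obtain ⟨f, hf, d, hd, hj⟩ := hnp
      exact ⟨d, hnbd f hf p d hj (Or.inl rfl) hd (by rw [← h1]; exact hx)⟩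
    · obtain ⟨f, hf, d, hd, hj⟩ := hnq
      exact ⟨d, hnbd f hf q d hj (Or.inr rfl) hd (by rw [← h1]; exact hx)⟩
  have hZ'sub : Z' ⊆ {p, q} := by
    intro x hx
    rw [Finset.mem_insert, Finset.mem_singleton]
    exact hZ'pq x hx
  have hZ'eq : Z' = {p, q} := by
    apply Finset.eq_of_subset_of_card_le hZ'sub
    rw [Finset.card_pair hpq0]
    omega
  have h2 : Z'.card = 2 := by rw [hZ'eq, Finset.card_pair hpq0]
  have h1 : (G.nb Z' ∩ A).card = 1 := by omega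
  obtain ⟨d, hd1⟩ := Finset.card_eq_one.1 h1
  have huniq : ∀ f ∈ G.F, ∀ x y, G.Jn f x y → (x = p ∨ x = q) → y ∈ D → y = d := by
    intro f hf x y hj hx hy
    have h3 := hnbd f hf x y hj hx hy (by
      rw [hZ'eq, Finset.mem_insert, Finset.mem_singleton]; exact hx)
    rw [hd1, Finset.mem_singleton] at h3
    exact h3
  refine ⟨d, ?_, huniq⟩
  obtain ⟨f, hf, d', hd', hj⟩ := hnp
  have h3 := huniq f hf p d' hj (Or.inl rfl) hd'
  rw [← h3]
  exact hpS f hf p d' hj (Or.inl rfl) hd'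

end MG

end ML
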