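import Pool.Agent.ML.G10c
import Pool.Agent.ML.G10d
import Pool.Agent.ML.A7b

/-!
# ML-G10e : `Side`: `D` has two vertices
-/

set_option autoImplicit false
set_option linter.unusedSectionVars false
set_option linter.unusedFintypeInType false
set_option linter.unusedVariables false

namespace ML

namespace MG

variable {V E : Type} [Fintype V] [Fintype E] [DecidableEq V] [DecidableEq E]

variable {G : MG V E} {D : Finset V} {p q p' q' : V}

/-- The conclusion for one side.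

Proof. `S, Z` from `h.bip`; `d1 ∈ S` from `side_hall`; `d2 ∈ Z` from `side_hall` with the roles
`(S, Z, p, q, p', q') → (Z, S, p', q', p, q)` (the sets `{p', q', p, q}` and `{p, q, p', q'}` are equal).
`d1 ≠ d2`. If `D \ {d1, d2}` is nonempty: `Brick.b2` (file `A7b`) with `S = {d1, d2}`, `K₁ = D \ {d1, d2}`,
`K₂ = U \ D` (contains `p`): an edge joining `x ∈ K₁` and `y ∈ K₂` has `y ∈ {p, q, p', q'}` (`exit`), so
`x = d1` or `x = d2`: contradiction. So `D = {d1, d2}`. The edges from `p, q, p', q'` exist by `np, nq, np', nq'`.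
The perfect matching of `G.sub D` (`ex0`) covers `d1` by an edge inside `D = {d1, d2}`, not a loop
(`IsPM.jne`): it joins `d1` and `d2`. -/
theorem Side.main (h : G.Side D p q p' q') : ∃ d1 d2 : V, d1 ≠ d2 ∧ D = {d1, d2} ∧
    (∀ f ∈ G.F, ∀ x y, G.Jn f x y → (x = p ∨ x = q) → y ∈ D → y = d1) ∧
    (∀ f ∈ G.F, ∀ x y, G.Jn f x y → (x = p' ∨ x = q') → y ∈ D → y = d2) ∧
    (∃ f ∈ G.F, G.Jn f d1 d2) ∧ (∃ f ∈ G.F, G.Jn f p d1) ∧ (∃ f ∈ G.F, G.Jn f q d1) ∧
    (∃ f ∈ G.F, G.Jn f p' d2) ∧ (∃ f ∈ G.F, G.Jn f q' d2) := by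
  obtain ⟨S, Z, hD, hd, hc, hSi, hZi, hpS, hpZ⟩ := h.bip
  obtain ⟨d1, hd1, hk1⟩ := side_hall h.brick h.sub h.nd h.mem h.out h.exit h.ind h.nex4 h.np h.nq
    hD hd hc hSi hZi hpS hpZ
  have hset : ({p', q', p, q} : Finset V) = {p, q, p', q'} := by
    ext v; simp only [Finset.mem_insert, Finset.mem_singleton]; tauto
  obtain ⟨d2, hd2, hk2⟩ := side_hall (p := p') (q := q') (p' := p) (q' := q) h.brick h.sub
    (by
      have := h.nd
      simp only [List.nodup_cons, List.mem_cons, List.not_mem_nil, or_false, not_or,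
        List.nodup_nil, and_true, not_false_eq_true] at this ⊢
      obtain ⟨⟨n1, n2, n3⟩, ⟨n4, n5⟩, n6⟩ := this
      exact ⟨⟨n6, Ne.symm n2, Ne.symm n4⟩, ⟨Ne.symm n3, Ne.symm n5⟩, n1⟩)
    ⟨h.mem.2.2.1, h.mem.2.2.2, h.mem.1, h.mem.2.1⟩ ⟨h.out.2.2.1, h.out.2.2.2, h.out.1, h.out.2.1⟩
    (fun f hf d w hj hd' hw => by
      rcases h.exit f hf d w hj hd' hw with k | k | k | k
      · exact Or.inr (Or.inr (Or.inl k))
      · exact Or.inr (Or.inr (Or.inr k))
      · exact Or.inl k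
      · exact Or.inr (Or.inl k))
    (fun f hf x y hj hx => by rw [hset] at hx ⊢; exact h.ind f hf x y hj hx)
    (by rw [hset]; exact h.nex4) h.np' h.nq'
    (S := Z) (Z := S) (by rw [Finset.union_comm]; exact hD) hd.symm hc.symm hZi hSi hpZ hpS
  have hd1D : d1 ∈ D := by rw [hD]; exact Finset.mem_union_left _ hd1
  have hd2D : d2 ∈ D := by rw [hD]; exact Finset.mem_union_right _ hd2
  have hne : d1 ≠ d2 := fun hh => (Finset.disjoint_left.1 hd) hd1 (hh ▸ hd2)
  have hDeq : D = {d1, d2} := by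
    by_contra hcon
    have hsub : ({d1, d2} : Finset V) ⊆ D := by
      intro v hv
      rw [Finset.mem_insert, Finset.mem_singleton] at hv
      rcases hv with rfl | rfl
      · exact hd1D
      · exact hd2D
    have hK1 : (D \ {d1, d2}).Nonempty := by
      rw [Finset.sdiff_nonempty]
      intro hh
      exact hcon (Finset.Subset.antisymm hh hsub)
    have hK2 : (G.U \ D).Nonempty := ⟨p, Finset.mem_sdiff.2 ⟨h.mem.1, h.out.1⟩⟩
    have key : ∀ f ∈ G.F, ∀ x y, G.Jn f x y → x ∈ D \ {d1, d2} → y ∈ G.U \ D → False := by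
      intro f hf x y hj hx hy
      rw [Finset.mem_sdiff, Finset.mem_insert, Finset.mem_singleton, not_or] at hx
      rw [Finset.mem_sdiff] at hy
      rcases h.exit f hf x y hj hx.1 hy.2 with rfl | rfl | rfl | rfl
      · exact hx.2.1 (hk1 f hf _ _ hj.symm (Or.inl rfl) hx.1)
      · exact hx.2.1 (hk1 f hf _ _ hj.symm (Or.inr rfl) hx.1)
      · exact hx.2.2 (hk2 f hf _ _ hj.symm (Or.inl rfl) hx.1)
      · exact hx.2.2 (hk2 f hf _ _ hj.symm (Or.inr rfl) hx.1)
    refine h.brick.b2 (S := {d1, d2}) (K₁ := D \ {d1, d2}) (K₂ := G.U \ D) ?_ ?_ ?_ ?_ ?_ hK1 hK2 ?_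
    · ext v
      have k1 : v ∈ D → v ∈ G.U := fun hv => h.sub hv
      have k2 : v ∈ ({d1, d2} : Finset V) → v ∈ D := fun hv => hsub hv
      simp only [Finset.mem_union, Finset.mem_sdiff]
      by_cases c1 : v ∈ ({d1, d2} : Finset V)
      · simp [c1, k1 (k2 c1)]
      · by_cases c2 : v ∈ D
        · simp [c1, c2, k1 c2]
        · simp [c1, c2]
    · exact Finset.disjoint_sdiff
    · rw [Finset.disjoint_left]
      intro v hv hv'
      exact (Finset.mem_sdiff.1 hv').2 (hsub hv)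
    · rw [Finset.disjoint_left]
      intro v hv hv'
      exact (Finset.mem_sdiff.1 hv').2 (Finset.mem_sdiff.1 hv).1
    · exact Finset.card_le_two
    · rintro f hf (⟨k1, k2⟩ | ⟨k1, k2⟩)
      · exact key f hf _ _ (jn_self f) k1 k2
      · exact key f hf _ _ (jn_self f).symm k2 k1
  refine ⟨d1, d2, hne, hDeq, hk1, hk2, ?_, ?_, ?_, ?_, ?_⟩
  · obtain ⟨K, hK, hKt⟩ := h.ex0
    rw [Finset.union_empty] at hK
    obtain ⟨f, hf, b, hj⟩ := hK.jcover (a := d1) hd1D
    have hfD := hK.1 hf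
    rw [gsub_F] at hfD
    have hfF := ginn_subset _ hfD
    have hj' : G.Jn f d1 b := hj
    rw [hj'.mem_inn hfF] at hfD
    have hbne : d1 ≠ b := hK.jne hf hj
    have hb := hfD.2
    rw [hDeq, Finset.mem_insert, Finset.mem_singleton] at hb
    rcases hb with hb | hb
    · exact absurd hb.symm hbne
    · exact ⟨f, hfF, hb ▸ hj'⟩
  · obtain ⟨f, hf, d, hd', hj⟩ := h.np
    have := hk1 f hf _ _ hj (Or.inl rfl) hd'
    exact ⟨f, hf, this ▸ hj⟩
  · obtain ⟨f, hf, d, hd', hj⟩ := h.nq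
    have := hk1 f hf _ _ hj (Or.inr rfl) hd'
    exact ⟨f, hf, this ▸ hj⟩
  · obtain ⟨f, hf, d, hd', hj⟩ := h.np'
    have := hk2 f hf _ _ hj (Or.inl rfl) hd'
    exact ⟨f, hf, this ▸ hj⟩
  · obtain ⟨f, hf, d, hd', hj⟩ := h.nq'
    have := hk2 f hf _ _ hj (Or.inr rfl) hd'
    exact ⟨f, hf, this ▸ hj⟩

end MG

end ML
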