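import Pool.Agent.ML.G9f

/-!
# ML-G11a : `PPS`: the balance of the exits of `C`
-/

set_option autoImplicit false
set_option linter.unusedSectionVars false
set_option linter.unusedFintypeInType false
set_option linter.unusedVariables false

namespace ML

namespace MG

variable {V E : Type} [Fintype V] [Fintype E] [DecidableEq V] [DecidableEq E]

variable {G : MG V E} {e : E} {u0 v0 : V} {P Q R S C D : Finset V}

theorem g11a_pair {N : Finset E} (hN : N ⊆ G.F) {a a' : V} (hne : a ≠ a') {W : Finset V}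
    (ha : a ∉ W) (ha' : a' ∉ W) :
    (N ∩ G.btw {a, a'} W).card = (N ∩ G.btw {a} W).card + (N ∩ G.btw {a'} W).card := by
  rw [← Finset.card_union_of_disjoint]
  · congr 1
    ext f
    simp only [Finset.mem_inter, Finset.mem_union]
    by_cases hf : f ∈ N
    · rw [(jn_self (G := G) f).mem_btw (hN hf), (jn_self (G := G) f).mem_btw (hN hf),
        (jn_self (G := G) f).mem_btw (hN hf)]
      simp only [Finset.mem_insert, Finset.mem_singleton, hf, true_and]
      constructor
      · rintro (⟨h1 | h1, h2⟩ | ⟨h1, h2 | h2⟩)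
        · exact Or.inl (Or.inl ⟨h1, h2⟩)
        · exact Or.inr (Or.inl ⟨h1, h2⟩)
        · exact Or.inl (Or.inr ⟨h1, h2⟩)
        · exact Or.inr (Or.inr ⟨h1, h2⟩)
      · rintro ((⟨h1, h2⟩ | ⟨h1, h2⟩) | (⟨h1, h2⟩ | ⟨h1, h2⟩))
        · exact Or.inl ⟨Or.inl h1, h2⟩
        · exact Or.inr ⟨h1, Or.inl h2⟩
        · exact Or.inl ⟨Or.inr h1, h2⟩
        · exact Or.inr ⟨h1, Or.inr h2⟩
    · simp [hf]
  · rw [Finset.disjoint_left]
    intro f h1 h2
    rw [Finset.mem_inter] at h1 h2
    have hf := hN h1.1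
    have k1 := h1.2
    have k2 := h2.2
    rw [(jn_self (G := G) f).mem_btw hf] at k1 k2
    simp only [Finset.mem_singleton] at k1 k2
    rcases k1 with ⟨k1, k1'⟩ | ⟨k1, k1'⟩ <;> rcases k2 with ⟨k2, k2'⟩ | ⟨k2, k2'⟩
    · exact hne (k1.symm.trans k2)
    · exact ha (k1 ▸ k2)
    · exact ha (k1' ▸ k2')
    · exact hne (k1'.symm.trans k2')

theorem g11a_le {N : Finset E} (hN : G.IsPM N) (a : V) (W : Finset V) :
    (N ∩ G.btw {a} W).card ≤ 1 := by
  rw [Finset.card_le_one]
  intro f hf g hg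
  rw [Finset.mem_inter] at hf hg
  have key : ∀ f ∈ N, f ∈ G.btw {a} W → ∃ b, G.Jn f a b := by
    intro f hfN hfb
    rw [(jn_self (G := G) f).mem_btw (hN.1 hfN)] at hfb
    simp only [Finset.mem_singleton] at hfb
    rcases hfb with ⟨h1, _⟩ | ⟨_, h1⟩
    · exact ⟨G.t f, Or.inl ⟨h1, rfl⟩⟩
    · exact ⟨G.s f, Or.inr ⟨rfl, h1⟩⟩
  obtain ⟨b, hb⟩ := key f hf.1 hf.2
  obtain ⟨c, hc⟩ := key g hg.1 hg.2
  exact hN.juniq hf.1 hg.1 hb hc

theorem g11a_pos {N : Finset E} (hN : G.IsPM N) {a d : V} {W : Finset V} {f : E} (hf : f ∈ N)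
    (hj : G.Jn f a d) (hd : d ∈ W) : 1 ≤ (N ∩ G.btw {a} W).card := by
  apply Finset.card_pos.2
  refine ⟨f, Finset.mem_inter.2 ⟨hf, ?_⟩⟩
  rw [hj.mem_btw (hN.1 hf)]
  exact Or.inl ⟨Finset.mem_singleton_self a, hd⟩

/-- Balance of the exits of `C` (K1). `n x = (N ∩ btw {x} C).card`.

Proof. `P = {a1, a2}`, `R = {b1, b2}` (`small` for `h` and for `h.flip`; for `h.flip` the exit sets of `C` are
`{b1, a1}`, `{b2, a2}` and of `D` `{b1, a2}`, `{b2, a1}`: `Finset.pair_comm`). So
`n a1 + n a2 = #(P-C)`, `n b1 + n b2 = #(R-C)`. `N ∋ e`: by `ty1` either `#(P-C) = 2`, `#(R-C) = 0`: `n a1 = n a2 = 1`,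
`n b1 = n b2 = 0`, or `#(P-C) = 0`, `#(R-C) = 2`: in both cases `n a1 + n b2 = n a2 + n b1` (each `n x ≤ 1`:
`IsPM.juniq`). `N ∌ e`: `#(P-C) = #(R-C) ≤ 1` (`ty0`); if 0 all are 0; if 1 then the cut of `C` is met exactly
twice (`atC`), at `a ∈ P` and `b ∈ R` with `Ex C {a, b}` (`toEx2`), so by `uniq` `(a, b) = (a1, b1)` or `(a2, b2)`:
`n a1 = n b1 = 1`, `n a2 = n b2 = 0`, or conversely. -/
theorem PPS.bal (h : G.PPS e u0 v0 P Q R S C D) {a1 a2 b1 b2 : V} (ha1 : a1 ∈ P) (ha2 : a2 ∈ P)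
    (hb1 : b1 ∈ R) (hb2 : b2 ∈ R) (hne : a1 ≠ a2) (hne' : b1 ≠ b2)
    (h1 : G.Ex C {a1, b1}) (h2 : G.Ex C {a2, b2}) (h3 : G.Ex D {a1, b2}) (h4 : G.Ex D {a2, b1})
    {N : Finset E} (hN : G.IsPM N) :
    (N ∩ G.btw {a1} C).card + (N ∩ G.btw {b2} C).card
      = (N ∩ G.btw {a2} C).card + (N ∩ G.btw {b1} C).card := by
  obtain ⟨hP, -, -, -⟩ := h.small ha1 ha2 hb1 hb2 hne hne' h1 h2 h3 h4
  have h1' : G.Ex C {b1, a1} := by rw [Finset.pair_comm]; exact h1
  have h2' : G.Ex C {b2, a2} := by rw [Finset.pair_comm]; exact h2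
  have h3' : G.Ex D {b1, a2} := by rw [Finset.pair_comm]; exact h4
  have h4' : G.Ex D {b2, a1} := by rw [Finset.pair_comm]; exact h3
  obtain ⟨hR, -, -, -⟩ := h.flip.small hb1 hb2 ha1 ha2 hne' hne h1' h2' h3' h4'
  obtain ⟨c, cP, cQ, cR, cS, cC, cD, cU⟩ := h.lab
  have na1 : a1 ∉ C := by rw [cP] at ha1; rw [cC]; omega
  have na2 : a2 ∉ C := by rw [cP] at ha2; rw [cC]; omega
  have nb1 : b1 ∉ C := by rw [cR] at hb1; rw [cC]; omega
  have nb2 : b2 ∉ C := by rw [cR] at hb2; rw [cC]; omega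
  have eP : (N ∩ G.btw P C).card = (N ∩ G.btw {a1} C).card + (N ∩ G.btw {a2} C).card := by
    rw [hP]; exact g11a_pair hN.1 hne na1 na2
  have eR : (N ∩ G.btw R C).card = (N ∩ G.btw {b1} C).card + (N ∩ G.btw {b2} C).card := by
    rw [hR]; exact g11a_pair hN.1 hne' nb1 nb2
  have l1 := g11a_le hN a1 C
  have l2 := g11a_le hN a2 C
  have l3 := g11a_le hN b1 C
  have l4 := g11a_le hN b2 C
  by_cases he : e ∈ N
  · have ht := h.ty1 N hN he
    omega
  · have ht := h.ty0 N hN he
    by_cases h0 : (N ∩ G.btw P C).card = 0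
    · omega
    have hPC : (N ∩ G.btw P C).card = 1 := by omega
    have hRC : (N ∩ G.btw R C).card = 1 := by omega
    have hcut : N ∩ G.cut C = (N ∩ G.btw P C) ∪ (N ∩ G.btw R C) := by
      ext f
      simp only [Finset.mem_inter, Finset.mem_union]
      by_cases hf : f ∈ N
      · have hfF := hN.1 hf
        simp only [hf, true_and]
        constructor
        · intro hc
          rw [(jn_self (G := G) f).mem_cut hfF] at hc
          by_cases hs : G.s f ∈ C
          · have ht' : G.t f ∉ C := fun h => hc ⟨fun _ => h, fun _ => hs⟩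
            rcases (h.atC hfF (jn_self f) hs).2 with k | k | k
            · exact absurd k ht'
            · left; rw [(jn_self (G := G) f).mem_btw hfF]; exact Or.inr ⟨hs, k⟩
            · right; rw [(jn_self (G := G) f).mem_btw hfF]; exact Or.inr ⟨hs, k⟩
          · have ht' : G.t f ∈ C := by
              by_contra h'
              exact hc ⟨fun h => absurd h hs, fun h => absurd h h'⟩
            rcases (h.atC hfF (jn_self f).symm ht').2 with k | k | k
            · exact absurd k hs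
            · left; rw [(jn_self (G := G) f).mem_btw hfF]; exact Or.inl ⟨k, ht'⟩
            · right; rw [(jn_self (G := G) f).mem_btw hfF]; exact Or.inl ⟨k, ht'⟩
        · intro hc
          have key : ∀ W : Finset V, (∀ v, v ∈ W → v ∉ C) → f ∈ G.btw W C → f ∈ G.cut C := by
            intro W hW hb
            rw [(jn_self (G := G) f).mem_btw hfF] at hb
            rw [(jn_self (G := G) f).mem_cut hfF]
            rcases hb with ⟨k1, k2⟩ | ⟨k1, k2⟩
            · intro hh; exact hW _ k1 (hh.2 k2)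
            · intro hh; exact hW _ k2 (hh.1 k1)
          rcases hc with hc | hc
          · exact key P (fun v hv => by rw [cP] at hv; rw [cC]; omega) hc
          · exact key R (fun v hv => by rw [cR] at hv; rw [cC]; omega) hc
      · simp [hf]
    have hcard : (N ∩ G.cut C).card = 2 := by
      rw [hcut, Finset.card_union_of_disjoint, hPC, hRC]
      rw [Finset.disjoint_left]
      intro f k1 k2
      rw [Finset.mem_inter] at k1 k2
      have hfF := hN.1 k1.1
      have m1 := k1.2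
      have m2 := k2.2
      rw [(jn_self (G := G) f).mem_btw hfF] at m1 m2
      simp only [cP, cR, cC] at m1 m2
      omega
    obtain ⟨f, g, b, d, hf, hg, hfc, hgc, hbd, hbC, hdC, hbU, hdU, ⟨a, haC, hja⟩, ⟨x, hxC, hjx⟩,
      hex⟩ := hN.toEx2 h.subU.2.2.2.2.1 hcard
    have hbPR : b ∈ P ∨ b ∈ R := by
      rcases (h.atC (hN.1 hf) hja.symm haC).2 with k | k | k
      · exact absurd k hbC
      · exact Or.inl k
      · exact Or.inr k
    have hdPR : d ∈ P ∨ d ∈ R := by
      rcases (h.atC (hN.1 hg) hjx.symm hxC).2 with k | k | k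
      · exact absurd k hdC
      · exact Or.inl k
      · exact Or.inr k
    have pb := g11a_pos hN hf hja haC
    have pd := g11a_pos hN hg hjx hxC
    have fin : ∀ (b d : V), b ∈ P → d ∈ R → G.Ex C {b, d} →
        1 ≤ (N ∩ G.btw {b} C).card → 1 ≤ (N ∩ G.btw {d} C).card →
        (N ∩ G.btw {a1} C).card + (N ∩ G.btw {b2} C).card
          = (N ∩ G.btw {a2} C).card + (N ∩ G.btw {b1} C).card := by
      intro b d hb hd hx pb pd
      rcases h.uniq ha1 ha2 hb1 hb2 hne hne' h3 h4 hb hd hx with ⟨rfl, rfl⟩ | ⟨rfl, rfl⟩ <;> omega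
    rcases hbPR with hb | hb <;> rcases hdPR with hd | hd
    · exfalso
      rw [hP, Finset.mem_insert, Finset.mem_singleton] at hb hd
      rcases hb with rfl | rfl <;> rcases hd with rfl | rfl
      · exact hbd rfl
      · omega
      · omega
      · exact hbd rfl
    · exact fin b d hb hd hex pb pd
    · exact fin d b hd hb (by rw [Finset.pair_comm]; exact hex) pd pb
    · exfalso
      rw [hR, Finset.mem_insert, Finset.mem_singleton] at hb hd
      rcases hb with rfl | rfl <;> rcases hd with rfl | rfl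
      · exact hbd rfl
      · omega
      · omega
      · exact hbd rfl

end MG

end ML
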