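import Pool.Agent.ML.G10e
import Pool.Agent.ML.G11a

/-!
# ML-G11b : `PPS` gives `Side`
-/

set_option autoImplicit false
set_option linter.unusedSectionVars false
set_option linter.unusedFintypeInType false
set_option linter.unusedVariables false

namespace ML

namespace MG

variable {V E : Type} [Fintype V] [Fintype E] [DecidableEq V] [DecidableEq E]

variable {G : MG V E} {e : E} {u0 v0 : V} {P Q R S C D : Finset V}

/-- an exit vertex is joined to the side -/
theorem g11b_cov {T : Finset V} (h : G.Ex C T) {x : V} (hx : x ∈ T) (hxC : x ∉ C) :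
    ∃ f ∈ G.F, ∃ d ∈ C, G.Jn f x d := by
  obtain ⟨N, hN, hT⟩ := h
  obtain ⟨f, hf, b, hj⟩ := hN.jcover (a := x) (by rw [gsub_U]; exact Finset.mem_union_right _ hx)
  have hfF : f ∈ G.F := by
    have h1 := hN.1 hf
    rw [gsub_F] at h1
    exact ginn_subset _ h1
  have h2 := hT hf
  rw [sub_jn] at hj
  rw [hj.mem_tou hfF] at h2
  rcases h2 with h2 | h2
  · exact absurd h2 hxC
  · exact ⟨f, hfF, b, h2, hj⟩

/-- `C` is a side with `(p, q, p', q') = (a1, b2, a2, b1)`. (For `D` apply this to `h.swap` with `b1`, `b2`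
exchanged: `(a1, b1, a2, b2)`.)

Proof. `brick`, `sub` clear. `nd`: `a1 ≠ a2`, `b1 ≠ b2`, `P`, `R` disjoint. `exit`: `atC`, `P = {a1, a2}`,
`R = {b1, b2}` (`small` for `h` and `h.flip`, `Finset.pair_comm`). `ind`: no edges inside `P`, inside `R`
(`atP`, `atR`, labels `h.lab`) and none between `P` and `R` (`noPR`). `ex0`: `h.ex0`. `nex`: `Ex C {a1, b2}` would
give `(a1, b2) = (a1, b1)` or `(a2, b2)` by `uniq`. `nex4`: `no4` (`{a1, b2, a2, b1} = {a1, a2, b1, b2}`).
`k1`: `bal`. `np` etc.: the matching of `Ex C {a1, b1}` covers `a1` by an edge touching `C`, with ends in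
`C ∪ {a1, b1}`; `a1 ∉ C` so the other end is in `C`. The same for `b1`, `a2`, `b2`. -/
theorem PPS.side (h : G.PPS e u0 v0 P Q R S C D) {a1 a2 b1 b2 : V} (ha1 : a1 ∈ P) (ha2 : a2 ∈ P)
    (hb1 : b1 ∈ R) (hb2 : b2 ∈ R) (hne : a1 ≠ a2) (hne' : b1 ≠ b2)
    (h1 : G.Ex C {a1, b1}) (h2 : G.Ex C {a2, b2}) (h3 : G.Ex D {a1, b2}) (h4 : G.Ex D {a2, b1}) :
    G.Side C a1 b2 a2 b1 := by
  obtain ⟨hP, -⟩ := h.small ha1 ha2 hb1 hb2 hne hne' h1 h2 h3 h4
  have h1' : G.Ex C {b1, a1} := by rw [Finset.pair_comm]; exact h1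
  have h2' : G.Ex C {b2, a2} := by rw [Finset.pair_comm]; exact h2
  have h3' : G.Ex D {b2, a1} := by rw [Finset.pair_comm]; exact h3
  have h4' : G.Ex D {b1, a2} := by rw [Finset.pair_comm]; exact h4
  obtain ⟨hR, -⟩ := h.flip.small hb1 hb2 ha1 ha2 hne' hne h1' h2' h4' h3'
  obtain ⟨c, cP, cQ, cR, cS, cC, cD, cU⟩ := h.lab
  have l1 := (cP a1).1 ha1
  have l2 := (cP a2).1 ha2
  have l3 := (cR b1).1 hb1
  have l4 := (cR b2).1 hb2
  have n1 : a1 ∉ C := fun hc => by have := (cC a1).1 hc; omega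
  have n2 : a2 ∉ C := fun hc => by have := (cC a2).1 hc; omega
  have n3 : b1 ∉ C := fun hc => by have := (cC b1).1 hc; omega
  have n4 : b2 ∉ C := fun hc => by have := (cC b2).1 hc; omega
  have e1 : a1 ≠ b1 := fun e => by rw [e] at l1; omega
  have e2 : a1 ≠ b2 := fun e => by rw [e] at l1; omega
  have e3 : a2 ≠ b1 := fun e => by rw [e] at l2; omega
  have e4 : a2 ≠ b2 := fun e => by rw [e] at l2; omega
  have hset : ∀ x, x ∈ ({a1, b2, a2, b1} : Finset V) ↔ x ∈ P ∨ x ∈ R := by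
    intro x
    rw [hP, hR]
    simp only [Finset.mem_insert, Finset.mem_singleton]
    tauto
  refine ⟨h.brick, ?_, ?_, ⟨(cU a1).2 (by omega), (cU b2).2 (by omega), (cU a2).2 (by omega), (cU b1).2 (by omega)⟩,
    ⟨n1, n4, n2, n3⟩, ?_, ?_, h.ex0.1, ?_, ?_, ?_, ?_, ?_, ?_, ?_⟩
  · intro v hv
    have := (cC v).1 hv
    exact (cU v).2 (by omega)
  · simp only [List.nodup_cons, List.mem_cons, List.not_mem_nil, or_false, not_or, not_false_eq_true,
      List.nodup_nil, and_true]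
    exact ⟨⟨e2, hne, e1⟩, ⟨e4.symm, hne'.symm⟩, e3⟩
  · intro f hf d w hj hd hw
    rcases (h.atC hf hj hd).2 with hw' | hw' | hw'
    · exact absurd hw' hw
    · rw [hP, Finset.mem_insert, Finset.mem_singleton] at hw'
      tauto
    · rw [hR, Finset.mem_insert, Finset.mem_singleton] at hw'
      tauto
  · intro f hf x y hj hx hy
    rw [hset] at hx hy
    rcases hx with hx | hx
    · rcases hy with hy | hy
      · have h5 := (h.atP hf hj hx).2
        simp only [cP, cQ, cR, cS, cC, cD] at h5 hy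
        omega
      · exact h.noPR ha1 ha2 hb1 hb2 hne hne' h1 h2 h3 h4 hf hj hx hy
    · rcases hy with hy | hy
      · exact h.noPR ha1 ha2 hb1 hb2 hne hne' h1 h2 h3 h4 hf hj.symm hy hx
      · have h5 := (h.atR hf hj hx).2
        simp only [cP, cQ, cR, cS, cC, cD] at h5 hy
        omega
  · intro hx
    rcases h.uniq ha1 ha2 hb1 hb2 hne hne' h3 h4 ha1 hb2 hx with h5 | h5
    · exact hne' h5.2.symm
    · exact hne h5.1
  · intro hx
    apply h.no4 ha1 hb1 ha2 hb2 hne hne'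
    have h5 : ({a1, a2, b1, b2} : Finset V) = {a1, b2, a2, b1} := by
      ext x
      simp only [Finset.mem_insert, Finset.mem_singleton]
      tauto
    rw [h5]
    exact hx
  · intro N hN
    exact h.bal ha1 ha2 hb1 hb2 hne hne' h1 h2 h3 h4 hN
  · exact g11b_cov h1 (Finset.mem_insert_self _ _) n1
  · exact g11b_cov h2 (Finset.mem_insert_of_mem (Finset.mem_singleton_self _)) n4
  · exact g11b_cov h2 (Finset.mem_insert_self _ _) n2
  · exact g11b_cov h1 (Finset.mem_insert_of_mem (Finset.mem_singleton_self _)) n3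

end MG

end ML
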