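import Pool.Agent.ML.Defs
import Pool.Agent.ML.G0

/-!
# ML-G11c : a graph isomorphic to the Petersen graph (up to parallel edges) has a Petersen structure
-/

set_option autoImplicit false
set_option linter.unusedSectionVars false
set_option linter.unusedFintypeInType false
set_option linter.unusedVariables false

namespace ML

theorem g11c_padj_symm (p q : PV) (h : padj p q = true) : padj q p = true := by
  revert h; revert p q; decide

theorem g11c_padj_ne (p q : PV) (h : padj p q = true) : p ≠ q := by
  revert h; revert p q; decide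

theorem g11c_och_symm (p q : PV) : och p q = och q p := by
  unfold och
  have : ∀ p q : PV, oc p q = oc q p := by decide
  rw [this p q]

theorem g11c_half2 : half + half = 0 := by
  unfold half
  rw [← AddCircle.coe_add, AddCircle.coe_eq_zero_iff]
  exact ⟨1, by norm_num⟩

namespace MG

variable {V E : Type} [Fintype V] [Fintype E] [DecidableEq V] [DecidableEq E]

variable {G : MG V E}

/-- Petersen structure from an isomorphism. -/
theorem pstr_of_iso (w : PV → V) (hw : Function.Injective w) (hU : G.U = Finset.univ.image w)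
    (he : ∀ f ∈ G.F, ∃ p q, padj p q = true ∧ G.Jn f (w p) (w q))
    (hr : ∀ p q, padj p q = true → ∃ f ∈ G.F, G.Jn f (w p) (w q))
    (χ : E → QZ) (y : V → QZ) (η : QZ) (h2 : (2 : ℤ) • η = half)
    (hχ : ∀ f ∈ G.F, ∀ p q, G.Jn f (w p) (w q) →
      χ f = y (w p) + y (w q) + (if p.1 = q.1 then 0 else η)) : G.PStr χ := by
  have hπ : ∀ p, Function.invFun w (w p) = p := Function.leftInverse_invFun hw
  have hmem : ∀ p, w p ∈ G.U := fun p => by
    rw [hU]; exact Finset.mem_image_of_mem _ (Finset.mem_univ p)
  refine ⟨Function.invFun w, G.U,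
    fun v => y v + (if (Function.invFun w v).1 = true then 0 else η), ⟨?_, ?_, ?_⟩, ?_⟩
  · intro e heF
    obtain ⟨p, q, hpq, hj⟩ := he e heF
    right
    rcases hj with ⟨h1, h3⟩ | ⟨h1, h3⟩
    · rw [h1, h3, hπ, hπ]
      exact ⟨hpq, hmem p, hmem q⟩
    · rw [h1, h3, hπ, hπ]
      exact ⟨g11c_padj_symm p q hpq, hmem q, hmem p⟩
  · intro p
    have h1 : G.fib (Function.invFun w) p = {w p} := by
      ext v
      unfold fib
      rw [Finset.mem_filter, Finset.mem_singleton]
      constructor
      · rintro ⟨hv, hp⟩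
        rw [hU, Finset.mem_image] at hv
        obtain ⟨q, _, rfl⟩ := hv
        rw [hπ] at hp
        rw [hp]
      · rintro rfl
        exact ⟨hmem p, hπ p⟩
    have h3 : ({w p} : Finset V) ⊆ G.U := Finset.singleton_subset_iff.2 (hmem p)
    rw [h1, Finset.inter_eq_left.2 h3, Finset.sdiff_eq_empty_iff_subset.2 h3,
      Finset.card_singleton, Finset.card_empty]
  · intro p q hpq
    obtain ⟨f, hf, hj⟩ := hr p q hpq
    refine ⟨f, hf, ?_⟩
    rcases hj with ⟨h1, h3⟩ | ⟨h1, h3⟩
    · left; rw [h1, h3, hπ, hπ]; exact ⟨rfl, rfl⟩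
    · right; rw [h1, h3, hπ, hπ]; exact ⟨rfl, rfl⟩
  · intro f hf
    obtain ⟨p, q, hpq, hj⟩ := he f hf
    have hne := g11c_padj_ne p q hpq
    have ho : och (Function.invFun w (G.s f)) (Function.invFun w (G.t f)) = och p q := by
      rcases hj with ⟨h1, h3⟩ | ⟨h1, h3⟩
      · rw [h1, h3, hπ, hπ]
      · rw [h1, h3, hπ, hπ]; exact g11c_och_symm q p
    rw [hχ f hf p q hj, ho]
    have ha := hj.add (fun v => y v + (if (Function.invFun w v).1 = true then 0 else η))
    rw [ha, hπ, hπ]
    have h22 : η + η = half := by rw [← h2, two_smul]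
    obtain ⟨b, i⟩ := p
    obtain ⟨c, j⟩ := q
    cases b <;> cases c
    · have hoc : och (false, i) (false, j) = half := by
        unfold och oc
        rw [if_pos]
        simp only [Bool.not_false, Bool.and_self, Bool.true_and, decide_eq_true_eq]
        exact hne
      rw [hoc]
      simp only [if_true, Bool.false_eq_true, if_false]
      have : y (w (false, i)) + η + (y (w (false, j)) + η) + half
          = y (w (false, i)) + y (w (false, j)) + ((η + η) + half) := by abel
      rw [this, h22, g11c_half2]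
    · have hoc : och (false, i) (true, j) = 0 := by
        unfold och oc
        simp
      rw [hoc]
      simp
      abel
    · have hoc : och (true, i) (false, j) = 0 := by
        unfold och oc
        simp
      rw [hoc]
      simp
      abel
    · have hoc : och (true, i) (true, j) = 0 := by
        unfold och oc
        simp
      rw [hoc]
      simp

/-- Elements of order dividing 4 but not 2 in `QZ`: `2 η = half`. -/
theorem two_smul_eq_half {η : QZ} (h4 : (4 : ℤ) • η = 0) (h2 : (2 : ℤ) • η ≠ 0) :
    (2 : ℤ) • η = half := by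
  obtain ⟨r, rfl⟩ := QuotientAddGroup.mk_surjective η
  change (4 : ℤ) • ((r : ℚ) : QZ) = 0 at h4
  change (2 : ℤ) • ((r : ℚ) : QZ) ≠ 0 at h2
  change (2 : ℤ) • ((r : ℚ) : QZ) = half
  rw [← AddCircle.coe_zsmul] at h4 h2 ⊢
  rw [AddCircle.coe_eq_zero_iff] at h4
  obtain ⟨n, hn⟩ := h4
  simp only [zsmul_eq_mul] at hn h2 ⊢
  push_cast at hn h2 ⊢
  rw [mul_one] at hn
  rcases Int.even_or_odd' n with ⟨k, hk | hk⟩
  · exfalso
    apply h2
    rw [AddCircle.coe_eq_zero_iff]
    refine ⟨k, ?_⟩
    rw [zsmul_eq_mul, mul_one]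
    rw [hk] at hn
    push_cast at hn
    linarith
  · unfold half
    rw [← sub_eq_zero, ← AddCircle.coe_sub, AddCircle.coe_eq_zero_iff]
    refine ⟨k, ?_⟩
    rw [zsmul_eq_mul, mul_one]
    rw [hk] at hn
    push_cast at hn
    linarith

end MG

end ML
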