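import Pool.Agent.ML.G11b
import Pool.Agent.ML.G11c

/-!
# ML-G11d : `PPS` gives the Petersen graph
-/

set_option autoImplicit false
set_option linter.unusedSectionVars false
set_option linter.unusedFintypeInType false
set_option linter.unusedVariables false

namespace ML

namespace MG

variable {V E : Type} [Fintype V] [Fintype E] [DecidableEq V] [DecidableEq E]

variable {G : MG V E} {e : E} {u0 v0 : V} {P Q R S C D : Finset V}

/-- Fifteen edges of the Petersen graph. -/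
theorem g11d_pet15 (r : PV → PV → Prop) (hs : ∀ p q, r p q → r q p)
    (o0 : r (false, 0) (false, 1)) (o1 : r (false, 1) (false, 2)) (o2 : r (false, 2) (false, 3))
    (o3 : r (false, 3) (false, 4)) (o4 : r (false, 4) (false, 0))
    (s0 : r (false, 0) (true, 0)) (s1 : r (false, 1) (true, 1)) (s2 : r (false, 2) (true, 2))
    (s3 : r (false, 3) (true, 3)) (s4 : r (false, 4) (true, 4))
    (i0 : r (true, 0) (true, 2)) (i1 : r (true, 1) (true, 3)) (i2 : r (true, 2) (true, 4))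
    (i3 : r (true, 3) (true, 0)) (i4 : r (true, 4) (true, 1)) :
    ∀ p q, padj p q = true → r p q := by
  rintro ⟨b, i⟩ ⟨b', i'⟩ h
  cases b <;> cases b' <;> fin_cases i <;> fin_cases i' <;>
    first
    | exact absurd h (by decide)
    | exact o0
    | exact o1
    | exact o2
    | exact o3
    | exact o4
    | exact s0
    | exact s1
    | exact s2
    | exact s3
    | exact s4
    | exact i0
    | exact i1
    | exact i2
    | exact i3
    | exact i4
    | exact hs _ _ o0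
    | exact hs _ _ o1
    | exact hs _ _ o2
    | exact hs _ _ o3
    | exact hs _ _ o4
    | exact hs _ _ s0
    | exact hs _ _ s1
    | exact hs _ _ s2
    | exact hs _ _ s3
    | exact hs _ _ s4
    | exact hs _ _ i0
    | exact hs _ _ i1
    | exact hs _ _ i2
    | exact hs _ _ i3
    | exact hs _ _ i4

/-- The map to the ten vertices. -/
def g11d_w {V : Type} (a1 u0 a2 d2 d1 d3 v0 d4 b1 b2 : V) : PV → V
  | (false, i) => ![a1, u0, a2, d2, d1] i
  | (true, i) => ![d3, v0, d4, b1, b2] i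

/-- Labels of the ten vertices. -/
def g11d_l : PV → ℕ
  | (false, i) => ![1, 2, 1, 5, 5] i
  | (true, i) => ![6, 4, 6, 3, 3] i

theorem g11d_lab : ∀ p q : PV, g11d_l p = g11d_l q → p = q ∨
    (p = (false, 0) ∧ q = (false, 2)) ∨ (p = (false, 2) ∧ q = (false, 0)) ∨
    (p = (false, 3) ∧ q = (false, 4)) ∨ (p = (false, 4) ∧ q = (false, 3)) ∨
    (p = (true, 0) ∧ q = (true, 2)) ∨ (p = (true, 2) ∧ q = (true, 0)) ∨
    (p = (true, 3) ∧ q = (true, 4)) ∨ (p = (true, 4) ∧ q = (true, 3)) := by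
  decide

theorem g11d_out : ∀ p : PV, (g11d_l p = 1 ∨ g11d_l p = 2 ∨ g11d_l p = 5) ↔ p.1 = false := by
  decide

theorem g11d_btw {f : E} {A B : Finset V} (h : f ∈ G.btw A B) :
    f ∈ G.F ∧ ∃ a ∈ A, ∃ b ∈ B, G.Jn f a b := by
  unfold btw at h
  rw [Finset.mem_filter] at h
  refine ⟨h.1, ?_⟩
  rcases h.2 with h1 | h1
  · exact ⟨G.s f, h1.1, G.t f, h1.2, Or.inl ⟨rfl, rfl⟩⟩
  · exact ⟨G.t f, h1.2, G.s f, h1.1, Or.inr ⟨rfl, rfl⟩⟩

theorem g11d_inn {f : E} {A : Finset V} (h : f ∈ G.inn A) :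
    f ∈ G.F ∧ ∃ a ∈ A, ∃ b ∈ A, G.Jn f a b := by
  unfold inn at h
  rw [Finset.mem_filter] at h
  exact ⟨h.1, G.s f, h.2.1, G.t f, h.2.2, Or.inl ⟨rfl, rfl⟩⟩

/-- The isomorphism with the Petersen graph.

Proof. `h.pairs` gives `a1, a2, b1, b2`. `h.small`: `P = {a1, a2}`, `Q = {u0}`, edges `u0 a1`, `u0 a2`. `h.flip.small`
(with `a` and `b` exchanged, `Finset.pair_comm`): `R = {b1, b2}`, `S = {v0}`, edges `v0 b1`, `v0 b2`. `h.side`, `Side.main`:
`C = {d1, d2}`, edges `d1 d2`, `a1 d1`, `b2 d1`, `a2 d2`, `b1 d2` and no other edges from `a1, b2` (`a2, b1`) to `C`. The same for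
`h.swap` with `b1`, `b2` exchanged: `D = {d3, d4}`, edges `d3 d4`, `a1 d3`, `b1 d3`, `a2 d4`, `b2 d4`. `w`: outer
`0..4 = a1, u0, a2, d2, d1`, inner `0..4 = d3, v0, d4, b1, b2`. Injective (labels `h.lab` and `a1 ≠ a2` etc.),
image `U`. All edges: `h.ends` for `f ≠ e` (`P-Q`: `a_i u0`; `R-S`; inside `C`: `d1 d2`, no loops by `Mc`; inside `D`;
`P-C` etc. by `Side.main`; `P-R` excluded by `noPR`), `e = u0 v0`. Then `padj` by `decide`. The 15 Petersen
edges exist by the list above. Last claim: `P ∪ Q ∪ C` is the set of the outer vertices. -/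
theorem PPS.iso (h : G.PPS e u0 v0 P Q R S C D) : ∃ w : PV → V, Function.Injective w ∧
    G.U = Finset.univ.image w ∧
    (∀ f ∈ G.F, ∃ p q, padj p q = true ∧ G.Jn f (w p) (w q)) ∧
    (∀ p q, padj p q = true → ∃ f ∈ G.F, G.Jn f (w p) (w q)) ∧
    (∀ p, w p ∈ P ∪ Q ∪ C ↔ p.1 = false) := by
  obtain ⟨a1, ha1, a2, ha2, b1, hb1, b2, hb2, hne, hne', h1, h2, h3, h4⟩ := h.pairs
  obtain ⟨hP, hQ, ⟨f1, hf1, j1⟩, ⟨f2, hf2, j2⟩⟩ := h.small ha1 ha2 hb1 hb2 hne hne' h1 h2 h3 h4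
  have h1' : G.Ex C {b1, a1} := by rw [Finset.pair_comm]; exact h1
  have h2' : G.Ex C {b2, a2} := by rw [Finset.pair_comm]; exact h2
  have h3' : G.Ex D {b1, a2} := by rw [Finset.pair_comm]; exact h4
  have h4' : G.Ex D {b2, a1} := by rw [Finset.pair_comm]; exact h3
  obtain ⟨hR, hS, ⟨f3, hf3, j3⟩, ⟨f4, hf4, j4⟩⟩ :=
    h.flip.small hb1 hb2 ha1 ha2 hne' hne h1' h2' h3' h4'
  obtain ⟨d1, d2, hd12, hC, hp1, hp2, ⟨f5, hf5, j5⟩, ⟨f6, hf6, j6⟩, ⟨f7, hf7, j7⟩, ⟨f8, hf8, j8⟩,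
    ⟨f9, hf9, j9⟩⟩ := (h.side ha1 ha2 hb1 hb2 hne hne' h1 h2 h3 h4).main
  obtain ⟨d3, d4, hd34, hD, hp3, hp4, ⟨g5, hg5, k5⟩, ⟨g6, hg6, k6⟩, ⟨g7, hg7, k7⟩, ⟨g8, hg8, k8⟩,
    ⟨g9, hg9, k9⟩⟩ := (h.swap.side ha1 ha2 hb2 hb1 hne hne'.symm h3 h4 h1 h2).main
  have hnPR := fun (f : E) (hf : f ∈ G.F) (a b : V) (hj : G.Jn f a b) (ha : a ∈ P) (hb : b ∈ R) =>
    h.noPR ha1 ha2 hb1 hb2 hne hne' h1 h2 h3 h4 hf hj ha hb
  have hd1 : d1 ∈ C := by rw [hC]; simp
  have hd2 : d2 ∈ C := by rw [hC]; simp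
  have hd3 : d3 ∈ D := by rw [hD]; simp
  have hd4 : d4 ∈ D := by rw [hD]; simp
  have hu := h.hu
  have hv := h.hv
  obtain ⟨c, cP, cQ, cR, cS, cC, cD, cU⟩ := h.lab
  have hl : ∀ p, c (g11d_w a1 u0 a2 d2 d1 d3 v0 d4 b1 b2 p) = g11d_l p := by
    rintro ⟨b, i⟩
    cases b <;> fin_cases i
    · exact (cP _).1 ha1
    · exact (cQ _).1 hu
    · exact (cP _).1 ha2
    · exact (cC _).1 hd2
    · exact (cC _).1 hd1
    · exact (cD _).1 hd3
    · exact (cS _).1 hv
    · exact (cD _).1 hd4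
    · exact (cR _).1 hb1
    · exact (cR _).1 hb2
  refine ⟨g11d_w a1 u0 a2 d2 d1 d3 v0 d4 b1 b2, ?_, ?_, ?_, ?_, ?_⟩
  · intro p q hpq
    have hll : g11d_l p = g11d_l q := by rw [← hl p, ← hl q, hpq]
    rcases g11d_lab p q hll with h0 | ⟨rfl, rfl⟩ | ⟨rfl, rfl⟩ | ⟨rfl, rfl⟩ | ⟨rfl, rfl⟩ |
      ⟨rfl, rfl⟩ | ⟨rfl, rfl⟩ | ⟨rfl, rfl⟩ | ⟨rfl, rfl⟩
    · exact h0
    · exact absurd hpq hne
    · exact absurd hpq hne.symm
    · exact absurd hpq hd12.symm
    · exact absurd hpq hd12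
    · exact absurd hpq hd34
    · exact absurd hpq hd34.symm
    · exact absurd hpq hne'
    · exact absurd hpq hne'.symm
  · ext v
    rw [h.cov, hP, hQ, hR, hS, hC, hD, Finset.mem_image]
    simp only [Finset.mem_union, Finset.mem_insert, Finset.mem_singleton, Finset.mem_univ,
      true_and]
    constructor
    · rintro ((((((h0 | h0) | h0) | (h0 | h0)) | h0) | (h0 | h0)) | (h0 | h0))
      · exact ⟨(false, 0), h0.symm⟩
      · exact ⟨(false, 2), h0.symm⟩
      · exact ⟨(false, 1), h0.symm⟩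
      · exact ⟨(true, 3), h0.symm⟩
      · exact ⟨(true, 4), h0.symm⟩
      · exact ⟨(true, 1), h0.symm⟩
      · exact ⟨(false, 4), h0.symm⟩
      · exact ⟨(false, 3), h0.symm⟩
      · exact ⟨(true, 0), h0.symm⟩
      · exact ⟨(true, 2), h0.symm⟩
    · rintro ⟨⟨b, i⟩, rfl⟩
      cases b <;> fin_cases i <;> simp [g11d_w]
  · intro f hf
    by_cases hfe : f = e
    · subst hfe
      exact ⟨(false, 1), (true, 1), by decide, h.jn⟩
    have hloop : ∀ a, ¬ G.Jn f a a := by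
      intro a hj
      obtain ⟨N, hN, _, hfN⟩ := h.ext hf hfe
      exact hN.jne hfN hj rfl
    rcases h.edge f hf hfe with hh | hh | hh | hh | hh | hh | hh | hh | hh
    · obtain ⟨_, a, ha, b, hb, hj⟩ := g11d_btw hh
      rw [hP, Finset.mem_insert, Finset.mem_singleton] at ha
      rw [hQ, Finset.mem_singleton] at hb
      subst hb
      rcases ha with rfl | rfl
      · exact ⟨(false, 0), (false, 1), by decide, hj⟩
      · exact ⟨(false, 2), (false, 1), by decide, hj⟩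
    · obtain ⟨_, a, ha, b, hb, hj⟩ := g11d_btw hh
      rw [hR, Finset.mem_insert, Finset.mem_singleton] at ha
      rw [hS, Finset.mem_singleton] at hb
      subst hb
      rcases ha with rfl | rfl
      · exact ⟨(true, 3), (true, 1), by decide, hj⟩
      · exact ⟨(true, 4), (true, 1), by decide, hj⟩
    · obtain ⟨_, a, ha, b, hb, hj⟩ := g11d_inn hh
      rw [hC, Finset.mem_insert, Finset.mem_singleton] at ha hb
      rcases ha with rfl | rfl <;> rcases hb with rfl | rfl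
      · exact absurd hj (hloop _)
      · exact ⟨(false, 4), (false, 3), by decide, hj⟩
      · exact ⟨(false, 3), (false, 4), by decide, hj⟩
      · exact absurd hj (hloop _)
    · obtain ⟨_, a, ha, b, hb, hj⟩ := g11d_inn hh
      rw [hD, Finset.mem_insert, Finset.mem_singleton] at ha hb
      rcases ha with rfl | rfl <;> rcases hb with rfl | rfl
      · exact absurd hj (hloop _)
      · exact ⟨(true, 0), (true, 2), by decide, hj⟩
      · exact ⟨(true, 2), (true, 0), by decide, hj⟩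
      · exact absurd hj (hloop _)
    · obtain ⟨_, a, ha, b, hb, hj⟩ := g11d_btw hh
      rw [hP, Finset.mem_insert, Finset.mem_singleton] at ha
      rcases ha with rfl | rfl
      · have := hp1 f hf _ _ hj (Or.inl rfl) hb
        subst this
        exact ⟨(false, 0), (false, 4), by decide, hj⟩
      · have := hp2 f hf _ _ hj (Or.inl rfl) hb
        subst this
        exact ⟨(false, 2), (false, 3), by decide, hj⟩
    · obtain ⟨_, a, ha, b, hb, hj⟩ := g11d_btw hh
      rw [hP, Finset.mem_insert, Finset.mem_singleton] at ha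
      rcases ha with rfl | rfl
      · have := hp3 f hf _ _ hj (Or.inl rfl) hb
        subst this
        exact ⟨(false, 0), (true, 0), by decide, hj⟩
      · have := hp4 f hf _ _ hj (Or.inl rfl) hb
        subst this
        exact ⟨(false, 2), (true, 2), by decide, hj⟩
    · obtain ⟨_, a, ha, b, hb, hj⟩ := g11d_btw hh
      rw [hR, Finset.mem_insert, Finset.mem_singleton] at ha
      rcases ha with rfl | rfl
      · have := hp2 f hf _ _ hj (Or.inr rfl) hb
        subst this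
        exact ⟨(true, 3), (false, 3), by decide, hj⟩
      · have := hp1 f hf _ _ hj (Or.inr rfl) hb
        subst this
        exact ⟨(true, 4), (false, 4), by decide, hj⟩
    · obtain ⟨_, a, ha, b, hb, hj⟩ := g11d_btw hh
      rw [hR, Finset.mem_insert, Finset.mem_singleton] at ha
      rcases ha with rfl | rfl
      · have := hp3 f hf _ _ hj (Or.inr rfl) hb
        subst this
        exact ⟨(true, 3), (true, 0), by decide, hj⟩
      · have := hp4 f hf _ _ hj (Or.inr rfl) hb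
        subst this
        exact ⟨(true, 4), (true, 2), by decide, hj⟩
    · obtain ⟨_, a, ha, b, hb, hj⟩ := g11d_btw hh
      exact (hnPR f hf a b hj ha hb).elim
  · apply g11d_pet15 (fun p q => ∃ f ∈ G.F, G.Jn f (g11d_w a1 u0 a2 d2 d1 d3 v0 d4 b1 b2 p)
      (g11d_w a1 u0 a2 d2 d1 d3 v0 d4 b1 b2 q))
    · rintro p q ⟨f, hf, hj⟩
      exact ⟨f, hf, hj.symm⟩
    · exact ⟨f1, hf1, j1.symm⟩
    · exact ⟨f2, hf2, j2⟩
    · exact ⟨f8, hf8, j8⟩
    · exact ⟨f5, hf5, j5.symm⟩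
    · exact ⟨f6, hf6, j6.symm⟩
    · exact ⟨g6, hg6, k6⟩
    · exact ⟨e, h.he, h.jn⟩
    · exact ⟨g8, hg8, k8⟩
    · exact ⟨f9, hf9, j9.symm⟩
    · exact ⟨f7, hf7, j7.symm⟩
    · exact ⟨g5, hg5, k5⟩
    · exact ⟨f3, hf3, j3⟩
    · exact ⟨g9, hg9, k9.symm⟩
    · exact ⟨g7, hg7, k7⟩
    · exact ⟨f4, hf4, j4.symm⟩
  · intro p
    rw [← g11d_out p, ← hl p]
    simp only [Finset.mem_union, cP, cQ, cC]
    omega

end MG

end ML
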