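import Pool.Agent.ML.G7c
import Pool.Agent.ML.G11d
import Pool.Agent.ML.A1

/-!
# ML-G12 : the conclusion of section 5
-/

set_option autoImplicit false
set_option linter.unusedSectionVars false
set_option linter.unusedFintypeInType false
set_option linter.unusedVariables false

namespace ML

namespace MG

variable {V E : Type} [Fintype V] [Fintype E] [DecidableEq V] [DecidableEq E]

variable {G : MG V E}

/-- Value of a character of the form potential plus `η` on a cut, on a perfect matching. -/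
theorem g12_kills {χ : E → QZ} (hk : G.Kills χ) {X : Finset V} {y : V → QZ} {η : QZ}
    (hy : ∀ f ∈ G.F, χ f = y (G.s f) + y (G.t f) + (if f ∈ G.cut X then η else 0))
    (hys : ∑ v ∈ G.U, y v + η = 0) (N : Finset E) (hN : G.IsPM N) :
    (((N ∩ G.cut X).card : ℤ) - 1) • η = 0 := by
  have h1 := hk N hN
  rw [Finset.sum_congr rfl (fun f hf => hy f (hN.1 hf)), Finset.sum_add_distrib,
    hN.jsum, ← Finset.sum_filter, Finset.filter_mem_eq_inter, Finset.sum_const] at h1
  have h2 : ∑ v ∈ G.U, y v = -η := eq_neg_of_add_eq_zero_left hys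
  rw [h2] at h1
  rw [sub_smul, one_smul, natCast_zsmul, sub_eq_add_neg, add_comm]
  exact h1

/-- Value on weights of constant degree. -/
theorem g12_reg {χ : E → QZ} {X : Finset V} (hX : X ⊆ G.U) (ho : Odd X.card) {y : V → QZ} {η : QZ}
    (hy : ∀ f ∈ G.F, χ f = y (G.s f) + y (G.t f) + (if f ∈ G.cut X then η else 0))
    (hys : ∑ v ∈ G.U, y v + η = 0) (h2 : (2 : ℤ) • η = 0) : G.KillsReg χ := by
  intro r w hw
  have h0 : pair χ w = ∑ f ∈ G.F, w f • χ f := by
    unfold pair
    symm
    apply Finset.sum_subset (Finset.subset_univ _)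
    intro f _ hf
    rw [hw.1 f hf, zero_smul]
  rw [h0, Finset.sum_congr rfl (fun f hf => by rw [hy f hf])]
  simp only [smul_add]
  rw [Finset.sum_add_distrib, Finset.sum_add_distrib]
  -- potential part
  have h3 : ∑ f ∈ G.F, w f • y (G.s f) + ∑ f ∈ G.F, w f • y (G.t f) = r • ∑ v ∈ G.U, y v := by
    rw [← Finset.sum_add_distrib, Finset.smul_sum]
    have h4 : ∀ v ∈ G.U, r • y v = ∑ f ∈ G.F, (G.inc f v • w f) • y v := by
      intro v hv
      rw [← Finset.sum_smul]
      have := hw.2 v hv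
      unfold deg at this
      rw [this]
    rw [Finset.sum_congr rfl h4, Finset.sum_comm]
    apply Finset.sum_congr rfl
    intro f hf
    have hs := G.hs f hf
    have ht := G.ht f hf
    have h5 : ∀ v ∈ G.U, (G.inc f v • w f) • y v
        = (if G.s f = v then w f • y v else 0) + (if G.t f = v then w f • y v else 0) := by
      intro v _
      unfold inc
      rw [add_smul, add_smul]
      congr 1 <;> split_ifs <;> simp
    rw [Finset.sum_congr rfl h5, Finset.sum_add_distrib, Finset.sum_ite_eq, Finset.sum_ite_eq,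
      if_pos hs, if_pos ht]
  rw [h3]
  have h6 : ∑ v ∈ G.U, y v = -η := eq_neg_of_add_eq_zero_left hys
  rw [h6]
  have h7 : ∑ f ∈ G.F, w f • (if f ∈ G.cut X then η else 0) = (∑ f ∈ G.cut X, w f) • η := by
    rw [Finset.sum_smul]
    have : G.cut X = G.F.filter (fun f => f ∈ G.cut X) := by
      rw [Finset.filter_mem_eq_inter, Finset.inter_eq_right.2 (gcut_subset X)]
    rw [this, Finset.sum_filter]
    apply Finset.sum_congr rfl
    intro f _
    rw [← this]
    split_ifs <;> simp
  rw [h7]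
  -- parity
  have h8 : ∑ v ∈ X, G.deg w v = ∑ f ∈ G.cut X, w f + 2 • ∑ f ∈ G.inn X, w f := G.hand w X
  have h9 : ∑ v ∈ X, G.deg w v = X.card • r := by
    rw [Finset.sum_congr rfl (fun v hv => hw.2 v (hX hv)), Finset.sum_const]
  obtain ⟨k, hk⟩ := ho
  have h10 : ∑ f ∈ G.cut X, w f = r + 2 * (k * r - ∑ f ∈ G.inn X, w f) := by
    rw [h9, hk] at h8
    simp only [nsmul_eq_mul] at h8
    push_cast at h8
    linarith
  rw [h10, add_smul, mul_comm, mul_smul, h2, smul_zero, add_zero, smul_neg]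
  abel

theorem g12_aux (hB : G.Brick) {e : E} (he : e ∈ G.F)
    (hMc : (G.del e).Mc) (hConn : (G.del e).Conn) {X Y : Finset V} (hX : G.Nontriv X)
    (hY : G.Nontriv Y) (hXT : (G.del e).Tight X) (hYT : (G.del e).Tight Y)
    (ho : Odd (X ∩ Y).card) {χ : E → QZ}
    (hk : G.Kills χ) (hkr : ¬ G.KillsReg χ) {y y' : V → QZ} {η η' : QZ}
    (hy : ∀ f ∈ G.F, χ f = y (G.s f) + y (G.t f) + (if f ∈ G.cut X then η else 0))
    (hys : ∑ v ∈ G.U, y v + η = 0)
    (hy' : ∀ f ∈ G.F, χ f = y' (G.s f) + y' (G.t f) + (if f ∈ G.cut Y then η' else 0))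
    (hys' : ∑ v ∈ G.U, y' v + η' = 0)
    (hnp : ∃ N, G.IsPM N ∧ (N ∩ G.cut X).card ≠ (N ∩ G.cut Y).card) : G.PStr χ := by
  have hη : (2 : ℤ) • η ≠ 0 := fun h => hkr (g12_reg hX.1 hX.2.1 hy hys h)
  have hη' : (2 : ℤ) • η' ≠ 0 := fun h => hkr (g12_reg hY.1 hY.2.1 hy' hys' h)
  have hC : G.C2 e X Y (fun v => y' v - y v) η η' :=
    { brick := hB
      he := he
      mc := hMc
      conn := hConn
      ntX := hX
      ntY := hY
      tX := hXT
      tY := hYT
      odd := ho
      star := fun f hf => by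
        have h1 := hy f hf
        have h2 := hy' f hf
        have h3 : y (G.s f) + y (G.t f) + (if f ∈ G.cut X then η else 0)
            = y' (G.s f) + y' (G.t f) + (if f ∈ G.cut Y then η' else 0) := by rw [← h1, ← h2]
        have h4 : y' (G.s f) + y' (G.t f)
            = y (G.s f) + y (G.t f) + (if f ∈ G.cut X then η else 0)
              - (if f ∈ G.cut Y then η' else 0) := by rw [h3]; abel
        have h5 : y' (G.s f) - y (G.s f) + (y' (G.t f) - y (G.t f))
            = (y' (G.s f) + y' (G.t f)) - (y (G.s f) + y (G.t f)) := by abel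
        rw [h5, h4]
        abel
      p1X := g12_kills hk hy hys
      p1Y := g12_kills hk hy' hys'
      hη := hη
      hη' := hη'
      np := hnp }
  obtain ⟨u0, v0, P, Q, R, S, hPQ, hRS, hP, h4⟩ := hC.toPPS
  obtain ⟨w, hw, hU, h5, h6, h7⟩ := hP.iso
  refine pstr_of_iso w hw hU h5 h6 χ y η (two_smul_eq_half h4 hη) ?_
  intro f hf p q hj
  have hX' : ∀ p, w p ∈ X ↔ p.1 = false := by
    intro p
    rw [← h7 p, hPQ]
    simp only [Finset.mem_union, Finset.mem_inter, Finset.mem_sdiff]
    tauto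
  rw [hy f hf, hj.add y]
  congr 1
  have hc := hj.mem_cut hf X
  rw [hX', hX'] at hc
  by_cases hpq : p.1 = q.1
  · rw [if_pos hpq, if_neg]
    rw [hc, hpq]
    simp
  · rw [if_neg hpq, if_pos]
    rw [hc]
    intro hcon
    apply hpq
    cases hp : p.1 <;> cases hq : q.1 <;> simp_all

/-- Section 5: two facet cuts give the Petersen structure. -/
theorem G_main (hB : G.Brick) (hNB : G.NB) {e : E} (he : e ∈ G.F)
    (hMc : (G.del e).Mc) (hConn : (G.del e).Conn) {X Y : Finset V} (hX : G.Nontriv X)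
    (hY : G.Nontriv Y) (hXT : (G.del e).Tight X) (hYT : (G.del e).Tight Y) {χ : E → QZ}
    (hk : G.Kills χ) (hkr : ¬ G.KillsReg χ) {y y' : V → QZ} {η η' : QZ}
    (hy : ∀ f ∈ G.F, χ f = y (G.s f) + y (G.t f) + (if f ∈ G.cut X then η else 0))
    (hys : ∑ v ∈ G.U, y v + η = 0)
    (hy' : ∀ f ∈ G.F, χ f = y' (G.s f) + y' (G.t f) + (if f ∈ G.cut Y then η' else 0))
    (hys' : ∑ v ∈ G.U, y' v + η' = 0)
    (hnp : ∃ N, G.IsPM N ∧ (N ∩ G.cut X).card ≠ (N ∩ G.cut Y).card) : G.PStr χ := by
  by_cases ho : Odd (X ∩ Y).card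
  · exact g12_aux hB he hMc hConn hX hY hXT hYT ho hk hkr hy hys hy' hys' hnp
  · have hYU := hY.1
    have ho' : Odd (X ∩ (G.U \ Y)).card := by
      have h1 : X ∩ (G.U \ Y) = X \ Y := by
        ext v
        have k := fun hv : v ∈ X => hX.1 hv
        simp only [Finset.mem_inter, Finset.mem_sdiff]
        tauto
      rw [h1]
      have h2 := Finset.card_sdiff_add_card_inter X Y
      have h3 := hX.2.1
      rw [Nat.not_odd_iff_even] at ho
      rw [Nat.odd_iff] at h3 ⊢
      rw [Nat.even_iff] at ho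
      omega
    have hc := gcut_compl (G := G) hYU
    refine g12_aux hB he hMc hConn hX (hY.gcompl (geven_U hB.1)) hXT ?_ ho' hk hkr hy hys
      (y' := y') (η' := η') ?_ hys' ?_
    · intro N hN
      have h1 : (G.del e).cut (G.U \ Y) = (G.del e).cut Y := gcut_compl (G := G.del e) hYU
      rw [h1]; exact hYT N hN
    · rw [hc]; exact hy'
    · rw [hc]; exact hnp

end MG

end ML
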