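import Pool.Agent.ML.G1

/-!
# ML-G2a : counting cut edges by parts
-/

set_option autoImplicit false
set_option linter.unusedSectionVars false
set_option linter.unusedFintypeInType false
set_option linter.unusedVariables false

namespace ML

namespace MG

variable {V E : Type} [Fintype V] [Fintype E] [DecidableEq V] [DecidableEq E]

variable {G : MG V E} {e : E} {X Y : Finset V} {u : V → QZ} {η η' : QZ}

/-- Number of edges of the cut of `X` in terms of the four parts `A = X ∩ Y`, `B = pB`,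
`C = X \ Y`, `D = Y \ X`.

Proof. `gcard_inter` everywhere, `Finset.sum_add_distrib` (backwards), `Finset.sum_congr rfl`;
for `f ∈ N` use `Jn.mem_cut`, `Jn.mem_btw` for `jn_self f` and `G.hs`, `G.ht` (ends in `U`), then
case distinction on the membership of both ends in `X` and in `Y` (16 cases, `simp`). -/
theorem C2.cntX (h : G.C2 e X Y u η η') {N : Finset E} (hN : N ⊆ G.F) :
    (N ∩ G.cut X).card = (N ∩ G.btw (X ∩ Y) (G.pB X Y)).card + (N ∩ G.btw (X ∩ Y) (Y \ X)).card
      + (N ∩ G.btw (X \ Y) (G.pB X Y)).card + (N ∩ G.btw (X \ Y) (Y \ X)).card := by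
  simp only [gcard_inter]
  rw [← Finset.sum_add_distrib, ← Finset.sum_add_distrib, ← Finset.sum_add_distrib]
  refine Finset.sum_congr rfl fun f hf => ?_
  have hfF := hN hf
  have hs := G.hs f hfF
  have ht := G.ht f hfF
  have hj := jn_self (G := G) f
  simp only [hj.mem_cut hfF, hj.mem_btw hfF, pB, Finset.mem_inter, Finset.mem_sdiff,
    Finset.mem_union, hs, ht, true_and]
  by_cases a1 : G.s f ∈ X <;> by_cases a2 : G.s f ∈ Y <;> by_cases a3 : G.t f ∈ X <;>
    by_cases a4 : G.t f ∈ Y <;> simp [a1, a2, a3, a4]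

/-- The same for the cut of `Y`. Proof: as `cntX`, or `h.swap.cntX` and commutativity of `btw`. -/
theorem C2.cntY (h : G.C2 e X Y u η η') {N : Finset E} (hN : N ⊆ G.F) :
    (N ∩ G.cut Y).card = (N ∩ G.btw (X ∩ Y) (G.pB X Y)).card + (N ∩ G.btw (X ∩ Y) (X \ Y)).card
      + (N ∩ G.btw (Y \ X) (G.pB X Y)).card + (N ∩ G.btw (X \ Y) (Y \ X)).card := by
  simp only [gcard_inter]
  rw [← Finset.sum_add_distrib, ← Finset.sum_add_distrib, ← Finset.sum_add_distrib]
  refine Finset.sum_congr rfl fun f hf => ?_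
  have hfF := hN hf
  have hs := G.hs f hfF
  have ht := G.ht f hfF
  have hj := jn_self (G := G) f
  simp only [hj.mem_cut hfF, hj.mem_btw hfF, pB, Finset.mem_inter, Finset.mem_sdiff,
    Finset.mem_union, hs, ht, true_and]
  by_cases a1 : G.s f ∈ X <;> by_cases a2 : G.s f ∈ Y <;> by_cases a3 : G.t f ∈ X <;>
    by_cases a4 : G.t f ∈ Y <;> simp [a1, a2, a3, a4]

/-- The same for the cut of `A = X ∩ Y`. -/
theorem C2.cntA (h : G.C2 e X Y u η η') {N : Finset E} (hN : N ⊆ G.F) :
    (N ∩ G.cut (X ∩ Y)).card = (N ∩ G.btw (X ∩ Y) (G.pB X Y)).card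
      + (N ∩ G.btw (X ∩ Y) (X \ Y)).card + (N ∩ G.btw (X ∩ Y) (Y \ X)).card := by
  simp only [gcard_inter]
  rw [← Finset.sum_add_distrib, ← Finset.sum_add_distrib]
  refine Finset.sum_congr rfl fun f hf => ?_
  have hfF := hN hf
  have hs := G.hs f hfF
  have ht := G.ht f hfF
  have hj := jn_self (G := G) f
  simp only [hj.mem_cut hfF, hj.mem_btw hfF, pB, Finset.mem_inter, Finset.mem_sdiff,
    Finset.mem_union, hs, ht, true_and]
  by_cases a1 : G.s f ∈ X <;> by_cases a2 : G.s f ∈ Y <;> by_cases a3 : G.t f ∈ X <;>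
    by_cases a4 : G.t f ∈ Y <;> simp [a1, a2, a3, a4]

/-- The same for the cut of `B = pB`. -/
theorem C2.cntB (h : G.C2 e X Y u η η') {N : Finset E} (hN : N ⊆ G.F) :
    (N ∩ G.cut (G.pB X Y)).card = (N ∩ G.btw (X ∩ Y) (G.pB X Y)).card
      + (N ∩ G.btw (X \ Y) (G.pB X Y)).card + (N ∩ G.btw (Y \ X) (G.pB X Y)).card := by
  simp only [gcard_inter]
  rw [← Finset.sum_add_distrib, ← Finset.sum_add_distrib]
  refine Finset.sum_congr rfl fun f hf => ?_
  have hfF := hN hf
  have hs := G.hs f hfF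
  have ht := G.ht f hfF
  have hj := jn_self (G := G) f
  simp only [hj.mem_cut hfF, hj.mem_btw hfF, pB, Finset.mem_inter, Finset.mem_sdiff,
    Finset.mem_union, hs, ht, true_and]
  by_cases a1 : G.s f ∈ X <;> by_cases a2 : G.s f ∈ Y <;> by_cases a3 : G.t f ∈ X <;>
    by_cases a4 : G.t f ∈ Y <;> simp [a1, a2, a3, a4]

/-- The same for the cut of `C = X \ Y`. -/
theorem C2.cntC (h : G.C2 e X Y u η η') {N : Finset E} (hN : N ⊆ G.F) :
    (N ∩ G.cut (X \ Y)).card = (N ∩ G.btw (X ∩ Y) (X \ Y)).card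
      + (N ∩ G.btw (X \ Y) (G.pB X Y)).card + (N ∩ G.btw (X \ Y) (Y \ X)).card := by
  simp only [gcard_inter]
  rw [← Finset.sum_add_distrib, ← Finset.sum_add_distrib]
  refine Finset.sum_congr rfl fun f hf => ?_
  have hfF := hN hf
  have hs := G.hs f hfF
  have ht := G.ht f hfF
  have hj := jn_self (G := G) f
  simp only [hj.mem_cut hfF, hj.mem_btw hfF, pB, Finset.mem_inter, Finset.mem_sdiff,
    Finset.mem_union, hs, ht, true_and]
  by_cases a1 : G.s f ∈ X <;> by_cases a2 : G.s f ∈ Y <;> by_cases a3 : G.t f ∈ X <;>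
    by_cases a4 : G.t f ∈ Y <;> simp [a1, a2, a3, a4]

end MG

end ML
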