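import Pool.Agent.ML.G0

/-!
# ML-G2b : signed counts and sums for perfect matchings
-/

set_option autoImplicit false
set_option linter.unusedSectionVars false
set_option linter.unusedFintypeInType false
set_option linter.unusedVariables false

namespace ML

namespace MG

variable {V E : Type} [Fintype V] [Fintype E] [DecidableEq V] [DecidableEq E]

variable {G : MG V E} {e : E} {X Y : Finset V} {u : V → QZ} {η η' : QZ}

/-- The sum over a part only sees the cut edges. -/
theorem g2b_sum {M : Type} [AddCommMonoid M] {N : Finset E} (hN : G.IsPM N)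
    {W : Finset V} (hW : W ⊆ G.U) (y : V → M)
    (hy : ∀ f ∈ N, f ∈ G.inn W → y (G.s f) + y (G.t f) = 0) :
    ∑ v ∈ W, y v = ∑ f ∈ N ∩ G.cut W,
      ((if G.s f ∈ W then y (G.s f) else 0) + (if G.t f ∈ W then y (G.t f) else 0)) := by
  have h := hN.jsum (fun v => if v ∈ W then y v else 0)
  have h1 : ∑ v ∈ G.U, (if v ∈ W then y v else 0) = ∑ v ∈ W, y v := by
    rw [← Finset.sum_filter, Finset.filter_mem_eq_inter, Finset.inter_eq_right.2 hW]
  rw [h1] at h
  rw [← h]
  symm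
  apply Finset.sum_subset Finset.inter_subset_left
  intro f hf hf'
  have hfF := hN.1 hf
  have hc : f ∉ G.cut W := fun hc => hf' (Finset.mem_inter.2 ⟨hf, hc⟩)
  rw [(jn_self (G := G) f).mem_cut hfF W, not_not] at hc
  by_cases hs : G.s f ∈ W
  · have ht := hc.1 hs
    rw [if_pos hs, if_pos ht]
    exact hy f hf (((jn_self (G := G) f).mem_inn hfF W).2 ⟨hs, ht⟩)
  · have ht : G.t f ∉ W := fun ht => hs (hc.2 ht)
    rw [if_neg hs, if_neg ht, add_zero]

/-- The contribution of a cut edge. -/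
theorem g2b_end {M : Type} [AddCommMonoid M] {W : Finset V} (y : V → M) {f : E} {a b : V}
    (hj : G.Jn f a b) (ha : a ∈ W) (hb : b ∉ W) :
    (if G.s f ∈ W then y (G.s f) else 0) + (if G.t f ∈ W then y (G.t f) else 0) = y a := by
  have h := hj.add (fun v => if v ∈ W then y v else 0)
  simp only [if_pos ha, if_neg hb, add_zero] at h
  exact h

/-- An oriented cut edge. -/
theorem g2b_cut {N : Finset E} (hN : G.IsPM N) {W : Finset V} {f : E} (hf : f ∈ N ∩ G.cut W) :
    f ∈ N ∧ ∃ a b, G.Jn f a b ∧ a ∈ W ∧ b ∉ W ∧ b ∈ G.U := by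
  rw [Finset.mem_inter] at hf
  obtain ⟨hfN, hc⟩ := hf
  have hfF := hN.1 hfN
  rw [(jn_self (G := G) f).mem_cut hfF W] at hc
  refine ⟨hfN, ?_⟩
  by_cases hs : G.s f ∈ W
  · have ht : G.t f ∉ W := fun ht => hc ⟨fun _ => ht, fun _ => hs⟩
    exact ⟨_, _, jn_self f, hs, ht, G.ht f hfF⟩
  · have ht : G.t f ∈ W := by
      by_contra ht
      exact hc ⟨fun h => absurd h hs, fun h => absurd h ht⟩
    exact ⟨_, _, (jn_self f).symm, ht, hs, G.hs f hfF⟩

/-- Signed count: if all `N`-edges inside `P ∪ Q` join `P` and `Q`, then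
`|P| - |Q|` is the number of `N`-edges leaving `P ∪ Q` from `P` minus the number of those leaving
from `Q`.

Proof. `hN.jsum y` with `y v = (if v ∈ P then 1 else 0) - (if v ∈ Q then 1 else 0)` in `ℤ`.
The right side is `|P| - |Q|`. For an edge `f = ab` of `N` the summand is `0` if both ends are in
`P ∪ Q` or both are outside, `1` if `f ∈ btw P (U \ (P ∪ Q))`, `-1` if `f ∈ btw Q (U \ (P ∪ Q))`,
i.e. it is the difference of the two indicators (`gcard_inter`). -/
theorem IsPM.signed {N : Finset E} (hN : G.IsPM N) {P Q : Finset V} (hPQ : Disjoint P Q)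
    (hP : P ⊆ G.U) (hQ : Q ⊆ G.U)
    (hb : ∀ f ∈ N, ∀ a b, G.Jn f a b → a ∈ P ∪ Q → b ∈ P ∪ Q →
      (a ∈ P ∧ b ∈ Q) ∨ (a ∈ Q ∧ b ∈ P)) :
    P.card + (N ∩ G.btw Q (G.U \ (P ∪ Q))).card
      = Q.card + (N ∩ G.btw P (G.U \ (P ∪ Q))).card := by
  have h := hN.jsum (fun v => (if v ∈ P then (1 : ℤ) else 0) - (if v ∈ Q then 1 else 0))
  have hind : ∀ A : Finset V, A ⊆ G.U → ∑ v ∈ G.U, (if v ∈ A then (1 : ℤ) else 0) = A.card := by
    intro A hA
    rw [← Finset.sum_filter, Finset.filter_mem_eq_inter, Finset.inter_eq_right.2 hA,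
      Finset.card_eq_sum_ones]
    push_cast
    rfl
  rw [Finset.sum_sub_distrib, hind P hP, hind Q hQ] at h
  have hcard : ∀ S : Finset E, ((N ∩ S).card : ℤ) = ∑ f ∈ N, (if f ∈ S then (1 : ℤ) else 0) := by
    intro S
    rw [gcard_inter]
    push_cast
    rfl
  have h2 : ∑ f ∈ N, (((if G.s f ∈ P then (1 : ℤ) else 0) - (if G.s f ∈ Q then 1 else 0)) +
      ((if G.t f ∈ P then (1 : ℤ) else 0) - (if G.t f ∈ Q then 1 else 0)))
      = ∑ f ∈ N, ((if f ∈ G.btw P (G.U \ (P ∪ Q)) then (1 : ℤ) else 0)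
        - (if f ∈ G.btw Q (G.U \ (P ∪ Q)) then (1 : ℤ) else 0)) := by
    apply Finset.sum_congr rfl
    intro f hf
    have hfF := hN.1 hf
    have hs := G.hs f hfF
    have ht := G.ht f hfF
    have hbf := hb f hf (G.s f) (G.t f) (jn_self f)
    have hbP := (jn_self (G := G) f).mem_btw hfF P (G.U \ (P ∪ Q))
    have hbQ := (jn_self (G := G) f).mem_btw hfF Q (G.U \ (P ∪ Q))
    have hsd : G.s f ∈ P → G.s f ∉ Q := fun h => Finset.disjoint_left.1 hPQ h
    have htd : G.t f ∈ P → G.t f ∉ Q := fun h => Finset.disjoint_left.1 hPQ h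
    simp only [Finset.mem_sdiff, Finset.mem_union, hs, ht, true_and] at hbP hbQ hbf
    by_cases s1 : G.s f ∈ P
    · have s2 := hsd s1
      by_cases t1 : G.t f ∈ P
      · exfalso
        rcases hbf (Or.inl s1) (Or.inl t1) with k | k
        · exact htd t1 k.2
        · exact s2 k.1
      · by_cases t2 : G.t f ∈ Q
        · simp only [hbP, hbQ, s1, s2, t1, t2]
          norm_num
        · simp only [hbP, hbQ, s1, s2, t1, t2]
          norm_num
    · by_cases s2 : G.s f ∈ Q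
      · by_cases t1 : G.t f ∈ P
        · have t2 := htd t1
          simp only [hbP, hbQ, s1, s2, t1, t2]
          norm_num
        · by_cases t2 : G.t f ∈ Q
          · exfalso
            rcases hbf (Or.inr s2) (Or.inr t2) with k | k
            · exact s1 k.1
            · exact t1 k.2
          · simp only [hbP, hbQ, s1, s2, t1, t2]
            norm_num
      · by_cases t1 : G.t f ∈ P
        · have t2 := htd t1
          simp only [hbP, hbQ, s1, s2, t1, t2]
          norm_num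
        · by_cases t2 : G.t f ∈ Q
          · simp only [hbP, hbQ, s1, s2, t1, t2]
            norm_num
          · simp only [hbP, hbQ, s1, s2, t1, t2]
            norm_num
  rw [h2, Finset.sum_sub_distrib, ← hcard, ← hcard] at h
  have h3 : ((P.card + (N ∩ G.btw Q (G.U \ (P ∪ Q))).card : ℕ) : ℤ)
      = ((Q.card + (N ∩ G.btw P (G.U \ (P ∪ Q))).card : ℕ) : ℤ) := by
    push_cast
    linarith
  exact_mod_cast h3

/-- If `N` meets the cut of `W` exactly in the edge `f = ab`, `a ∈ W`, and `y` is additive inverse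
on the ends of the other `N`-edges inside `W`, then `∑_W y = y a`.

Proof. `hN.jsum (fun v => if v ∈ W then y v else 0)`: the summand of an edge inside `W` is
`y s + y t = 0` by `hy`, the summand of an edge with no end in `W` is `0`, the summand of a cut edge
is `y` of its end in `W`; the only cut edge is `f`. -/
theorem IsPM.sum_part {M : Type} [AddCommMonoid M] {N : Finset E} (hN : G.IsPM N)
    {W : Finset V} (hW : W ⊆ G.U) (y : V → M)
    (hy : ∀ f ∈ N, f ∈ G.inn W → y (G.s f) + y (G.t f) = 0) {f : E} (hf : f ∈ N) {a b : V}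
    (hj : G.Jn f a b) (ha : a ∈ W) (hb : b ∉ W) (h1 : (N ∩ G.cut W).card = 1) :
    ∑ v ∈ W, y v = y a := by
  rw [g2b_sum hN hW y hy]
  obtain ⟨g, hg⟩ := Finset.card_eq_one.1 h1
  have hfc : f ∈ N ∩ G.cut W := by
    rw [Finset.mem_inter]
    refine ⟨hf, (hj.mem_cut (hN.1 hf) W).2 ?_⟩
    intro h
    exact hb (h.1 ha)
  have hfg : f = g := by
    rw [hg, Finset.mem_singleton] at hfc
    exact hfc
  rw [hg, ← hfg, Finset.sum_singleton]
  exact g2b_end y hj ha hb

/-- The same with no cut edge: `∑_W y = 0`. -/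
theorem IsPM.sum_part0 {M : Type} [AddCommMonoid M] {N : Finset E} (hN : G.IsPM N)
    {W : Finset V} (hW : W ⊆ G.U) (y : V → M)
    (hy : ∀ f ∈ N, f ∈ G.inn W → y (G.s f) + y (G.t f) = 0) (h1 : (N ∩ G.cut W).card = 0) :
    ∑ v ∈ W, y v = 0 := by
  rw [g2b_sum hN hW y hy, Finset.card_eq_zero.1 h1, Finset.sum_empty]

/-- The same with two cut edges. -/
theorem IsPM.sum_part2 {M : Type} [AddCommMonoid M] {N : Finset E} (hN : G.IsPM N)
    {W : Finset V} (hW : W ⊆ G.U) (y : V → M)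
    (hy : ∀ f ∈ N, f ∈ G.inn W → y (G.s f) + y (G.t f) = 0) {f g : E} (hfg : f ≠ g) (hf : f ∈ N)
    (hg : g ∈ N) {a b c d : V}
    (hj : G.Jn f a b) (ha : a ∈ W) (hb : b ∉ W) (hj' : G.Jn g c d) (hc : c ∈ W) (hd : d ∉ W)
    (h1 : (N ∩ G.cut W).card = 2) :
    ∑ v ∈ W, y v = y a + y c := by
  rw [g2b_sum hN hW y hy]
  have hfc : f ∈ N ∩ G.cut W := by
    rw [Finset.mem_inter]
    refine ⟨hf, (hj.mem_cut (hN.1 hf) W).2 ?_⟩
    intro h
    exact hb (h.1 ha)
  have hgc : g ∈ N ∩ G.cut W := by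
    rw [Finset.mem_inter]
    refine ⟨hg, (hj'.mem_cut (hN.1 hg) W).2 ?_⟩
    intro h
    exact hd (h.1 hc)
  have hsub : ({f, g} : Finset E) ⊆ N ∩ G.cut W := by
    intro k hk
    rw [Finset.mem_insert, Finset.mem_singleton] at hk
    rcases hk with rfl | rfl
    · exact hfc
    · exact hgc
  have heq : ({f, g} : Finset E) = N ∩ G.cut W := by
    apply Finset.eq_of_subset_of_card_le hsub
    rw [h1, Finset.card_pair hfg]
  rw [← heq, Finset.sum_pair hfg, g2b_end y hj ha hb, g2b_end y hj' hc hd]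

/-- If `N` meets the cut of `W` exactly twice, the two cut edges. -/
theorem IsPM.two_cut {N : Finset E} (hN : G.IsPM N) {W : Finset V} (hW : W ⊆ G.U)
    (h1 : (N ∩ G.cut W).card = 2) :
    ∃ f g, f ≠ g ∧ f ∈ N ∧ g ∈ N ∧ ∃ a b c d, G.Jn f a b ∧ a ∈ W ∧ b ∉ W ∧ b ∈ G.U ∧
      G.Jn g c d ∧ c ∈ W ∧ d ∉ W ∧ d ∈ G.U ∧ a ≠ c ∧ b ≠ d := by
  obtain ⟨f, g, hfg, hS⟩ := Finset.card_eq_two.1 h1
  have hfc : f ∈ N ∩ G.cut W := by rw [hS]; simp
  have hgc : g ∈ N ∩ G.cut W := by rw [hS]; simp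
  obtain ⟨hfN, a, b, hj, ha, hb, hbU⟩ := g2b_cut hN hfc
  obtain ⟨hgN, c, d, hj', hc, hd, hdU⟩ := g2b_cut hN hgc
  refine ⟨f, g, hfg, hfN, hgN, a, b, c, d, hj, ha, hb, hbU, hj', hc, hd, hdU, ?_, ?_⟩
  · rintro rfl
    exact hfg (hN.juniq hfN hgN hj hj')
  · rintro rfl
    exact hfg (hN.juniq hfN hgN hj.symm hj'.symm)

end MG

end ML
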