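import Pool.Agent.ML.G2a
import Pool.Agent.ML.G2b

/-!
# ML-G3a : types of the perfect matchings without `e`; the part `A`
-/

set_option autoImplicit false
set_option linter.unusedSectionVars false
set_option linter.unusedFintypeInType false
set_option linter.unusedVariables false

namespace ML

namespace MG

variable {V E : Type} [Fintype V] [Fintype E] [DecidableEq V] [DecidableEq E]

/-- The vertices of `W` where `u` takes the value `t`. -/
noncomputable def lev (u : V → QZ) (W : Finset V) (t : QZ) : Finset V := by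
  classical exact W.filter (fun v => u v = t)

theorem mem_lev {u : V → QZ} {W : Finset V} {t : QZ} {v : V} :
    v ∈ lev u W t ↔ v ∈ W ∧ u v = t := by
  classical
  unfold lev
  rw [Finset.mem_filter]

/-- The sum of `u` over `W`. -/
noncomputable def tot (u : V → QZ) (W : Finset V) : QZ := ∑ v ∈ W, u v

variable {G : MG V E} {e : E} {X Y : Finset V} {u : V → QZ} {η η' : QZ}

/-- Types of the perfect matchings without `e` (5.3).

Proof. `h.one hN he` : both cuts are met once. `cut (X ∩ Y)` and `cut (pB)` are met an odd number of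
times (`IsPM.jodd`, `h.odd`, `h.oddB`). Insert `cntX, cntY, cntA, cntB` : with
`ab, a1, a2, b1, b2, c` the numbers: `ab+a2+b1+c = 1`, `ab+a1+b2+c = 1`, `ab+a1+a2 = 2i+1`,
`ab+b1+b2 = 2j+1`; `omega`. -/
theorem C2.types (h : G.C2 e X Y u η η') {N : Finset E} (hN : G.IsPM N) (he : e ∉ N) :
    (N ∩ G.btw (X \ Y) (Y \ X)).card = 0 ∧
    (N ∩ G.btw (X ∩ Y) (G.pB X Y)).card + (N ∩ G.btw (X ∩ Y) (X \ Y)).card
      + (N ∩ G.btw (X ∩ Y) (Y \ X)).card = 1 ∧
    (N ∩ G.btw (X ∩ Y) (X \ Y)).card = (N ∩ G.btw (X \ Y) (G.pB X Y)).card ∧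
    (N ∩ G.btw (X ∩ Y) (Y \ X)).card = (N ∩ G.btw (Y \ X) (G.pB X Y)).card := by
  have hone := h.one hN he
  have hAU : X ∩ Y ⊆ G.U := Finset.inter_subset_left.trans h.XU
  have hBU : G.pB X Y ⊆ G.U := Finset.sdiff_subset
  have hA := hN.jodd hAU h.odd
  have hB := hN.jodd hBU h.oddB
  have cX := h.cntX hN.1
  have cY := h.cntY hN.1
  have cA := h.cntA hN.1
  have cB := h.cntB hN.1
  rw [Nat.odd_iff] at hA hB
  omega

/-- No edge other than `e` joins `X \ Y` and `Y \ X`. Proof: `h.ext`, `types`. -/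
theorem C2.noCD (h : G.C2 e X Y u η η') {f : E} (hf : f ∈ G.F) (hfe : f ≠ e) {a b : V}
    (hj : G.Jn f a b) (ha : a ∈ X \ Y) (hb : b ∈ Y \ X) : False := by
  obtain ⟨N, hN, heN, hfN⟩ := h.ext hf hfe
  have h1 := (h.types hN heN).1
  rw [Finset.card_eq_zero] at h1
  have h2 : f ∈ N ∩ G.btw (X \ Y) (Y \ X) :=
    Finset.mem_inter.2 ⟨hfN, (hj.mem_btw hf _ _).2 (Or.inl ⟨ha, hb⟩)⟩
  rw [h1] at h2
  exact absurd h2 (Finset.notMem_empty f)

/-- Edges inside `A` have opposite potentials at their ends. -/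
private theorem g3a_inn (h : G.C2 e X Y u η η') {f : E} (hf : f ∈ G.F) {a b : V}
    (hj : G.Jn f a b) (ha : a ∈ X ∩ Y) (hb : b ∈ X ∩ Y) : u a + u b = 0 := by
  rw [Finset.mem_inter] at ha hb
  have h1 := h.st hf hj
  rw [if_pos ⟨fun _ => hb.1, fun _ => ha.1⟩, if_pos ⟨fun _ => hb.2, fun _ => ha.2⟩, sub_zero] at h1
  exact h1

/-- The exits of `A = X ∩ Y` other than `e` are at vertices where `u` is `tot u A` (5.4).

Proof. `h.ext` : `N` with `f ∈ N`, `e ∉ N`. By `types` and `cntA` the cut of `A` is met once.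
`IsPM.sum_part` with `W = A`, `y = u`: an edge inside `A` has `u s + u t = 0` by `h.st`. -/
theorem C2.exitA (h : G.C2 e X Y u η η') {f : E} (hf : f ∈ G.F) (hfe : f ≠ e) {a b : V}
    (hj : G.Jn f a b) (ha : a ∈ X ∩ Y) (hb : b ∉ X ∩ Y) : u a = tot u (X ∩ Y) := by
  obtain ⟨N, hN, heN, hfN⟩ := h.ext hf hfe
  have hAU : X ∩ Y ⊆ G.U := Finset.inter_subset_left.trans h.XU
  have ht := h.types hN heN
  have cA := h.cntA hN.1
  have h1 : (N ∩ G.cut (X ∩ Y)).card = 1 := by omega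
  refine (hN.sum_part hAU u ?_ hfN hj ha hb h1).symm
  intro g hgN hg
  have hgF := hN.1 hgN
  rw [(jn_self (G := G) g).mem_inn hgF] at hg
  exact g3a_inn h hgF (jn_self g) hg.1 hg.2

/-- On `A` the potential is `± tot u A`.

Proof. `W` = vertices of `A` where `u` is neither. If nonempty, `h.exit` (`W ≠ U` since `X ≠ U`,
`h.ntX`) gives an edge `f ≠ e`, `f = ab`, `a ∈ W`, `b ∉ W`. If `b ∉ A` then `u a = tot u A` by `exitA`;
if `b ∈ A` then `u b = ± tot u A` and `u a + u b = 0` by `h.st`: contradiction in both cases. -/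
theorem C2.pmA (h : G.C2 e X Y u η η') {a : V} (ha : a ∈ X ∩ Y) :
    u a = tot u (X ∩ Y) ∨ u a = - tot u (X ∩ Y) := by
  classical
  have hAU : X ∩ Y ⊆ G.U := Finset.inter_subset_left.trans h.XU
  by_contra hcon
  have hWA : (X ∩ Y).filter (fun v => ¬ (u v = tot u (X ∩ Y) ∨ u v = - tot u (X ∩ Y))) ⊆ X ∩ Y :=
    Finset.filter_subset _ _
  have hne : ((X ∩ Y).filter
      (fun v => ¬ (u v = tot u (X ∩ Y) ∨ u v = - tot u (X ∩ Y)))).Nonempty :=
    ⟨a, Finset.mem_filter.2 ⟨ha, hcon⟩⟩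
  have hnU : (X ∩ Y).filter (fun v => ¬ (u v = tot u (X ∩ Y) ∨ u v = - tot u (X ∩ Y))) ≠ G.U := by
    intro hU
    have h1 : G.U ⊆ X := by
      rw [← hU]
      exact hWA.trans Finset.inter_subset_left
    have h2 := Finset.card_le_card h1
    have h3 := h.ntX.2.2.2
    omega
  obtain ⟨f, hf, hfe, x, y, hj, hx, hy, hyU⟩ := h.exit (hWA.trans hAU) hne hnU
  rw [Finset.mem_filter] at hx
  obtain ⟨hxA, hxn⟩ := hx
  by_cases hyA : y ∈ X ∩ Y
  · have hy2 : u y = tot u (X ∩ Y) ∨ u y = - tot u (X ∩ Y) := by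
      by_contra hc
      exact hy (Finset.mem_filter.2 ⟨hyA, hc⟩)
    have h0 := g3a_inn h hf hj hxA hyA
    apply hxn
    rcases hy2 with hy2 | hy2
    · right
      rw [hy2] at h0
      exact eq_neg_of_add_eq_zero_left h0
    · left
      rw [hy2] at h0
      rw [← sub_eq_add_neg, sub_eq_zero] at h0
      exact h0
  · exact hxn (Or.inl (h.exitA hf hfe hj hxA hyA))

end MG

end ML
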