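import Pool.Agent.ML.G3a

/-!
# ML-G3b : proper `A`: (P2)
-/

set_option autoImplicit false
set_option linter.unusedSectionVars false
set_option linter.unusedFintypeInType false
set_option linter.unusedVariables false

namespace ML

namespace MG

variable {V E : Type} [Fintype V] [Fintype E] [DecidableEq V] [DecidableEq E]

variable {G : MG V E} {e : E} {X Y : Finset V} {u : V → QZ} {η η' : QZ}

private lemma g3b_split {N : Finset E} (hN : N ⊆ G.F) {P Q : Finset V} (hd : Disjoint P Q)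
    (hPU : P ⊆ G.U) (hQU : Q ⊆ G.U) :
    (N ∩ G.cut (P ∪ Q)).card = (N ∩ G.btw P (G.U \ (P ∪ Q))).card
      + (N ∩ G.btw Q (G.U \ (P ∪ Q))).card := by
  rw [← Finset.card_union_of_disjoint]
  · congr 1
    ext f
    simp only [Finset.mem_inter, Finset.mem_union]
    constructor
    · rintro ⟨hf, hc⟩
      have hfF := hN hf
      have hs := G.hs f hfF
      have ht := G.ht f hfF
      rw [(jn_self (G := G) f).mem_cut hfF] at hc
      rw [(jn_self (G := G) f).mem_btw hfF, (jn_self (G := G) f).mem_btw hfF]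
      simp only [Finset.mem_union, Finset.mem_sdiff] at hc ⊢
      tauto
    · intro h
      have hf : f ∈ N := by tauto
      have hfF := hN hf
      rw [(jn_self (G := G) f).mem_btw hfF, (jn_self (G := G) f).mem_btw hfF] at h
      rw [(jn_self (G := G) f).mem_cut hfF]
      simp only [Finset.mem_union, Finset.mem_sdiff] at h ⊢
      tauto
  · rw [Finset.disjoint_left]
    intro f hf hf'
    rw [Finset.mem_inter] at hf hf'
    have hfF := hN hf.1
    rw [(jn_self (G := G) f).mem_btw hfF] at hf hf'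
    simp only [Finset.mem_union, Finset.mem_sdiff] at hf hf'
    have h1 : ∀ x, x ∈ P → x ∈ Q → False := fun x hx hx' => Finset.disjoint_left.1 hd hx hx'
    have h2 := h1 (G.s f)
    have h3 := h1 (G.t f)
    tauto

private lemma g3b_neg {t : QZ} (ht : (2 : ℤ) • t ≠ 0) : t ≠ -t := by
  intro h
  apply ht
  rw [two_zsmul]
  nth_rewrite 2 [h]
  exact add_neg_cancel t

private lemma g3b_union (h : G.C2 e X Y u η η') :
    lev u (X ∩ Y) (tot u (X ∩ Y)) ∪ lev u (X ∩ Y) (- tot u (X ∩ Y)) = X ∩ Y := by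
  ext v
  rw [Finset.mem_union, mem_lev, mem_lev]
  constructor
  · rintro (h | h)
    · exact h.1
    · exact h.1
  · intro hv
    rcases h.pmA hv with h1 | h1
    · exact Or.inl ⟨hv, h1⟩
    · exact Or.inr ⟨hv, h1⟩

private lemma g3b_disj (ht : (2 : ℤ) • tot u (X ∩ Y) ≠ 0) :
    Disjoint (lev u (X ∩ Y) (tot u (X ∩ Y))) (lev u (X ∩ Y) (- tot u (X ∩ Y))) := by
  rw [Finset.disjoint_left]
  intro v h1 h2
  rw [mem_lev] at h1 h2
  exact g3b_neg ht (h1.2.symm.trans h2.2)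

private lemma g3b_sub (h : G.C2 e X Y u η η') (t : QZ) : lev u (X ∩ Y) t ⊆ G.U := by
  intro v hv
  rw [mem_lev] at hv
  exact h.XU (Finset.mem_inter.1 hv.1).1

private lemma g3b_join (h : G.C2 e X Y u η η') (ht : (2 : ℤ) • tot u (X ∩ Y) ≠ 0) {f : E}
    (hf : f ∈ G.F) {a b : V} (hj : G.Jn f a b)
    (ha : a ∈ lev u (X ∩ Y) (tot u (X ∩ Y)) ∪ lev u (X ∩ Y) (- tot u (X ∩ Y)))
    (hb : b ∈ lev u (X ∩ Y) (tot u (X ∩ Y)) ∪ lev u (X ∩ Y) (- tot u (X ∩ Y))) :
    (a ∈ lev u (X ∩ Y) (tot u (X ∩ Y)) ∧ b ∈ lev u (X ∩ Y) (- tot u (X ∩ Y))) ∨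
      (a ∈ lev u (X ∩ Y) (- tot u (X ∩ Y)) ∧ b ∈ lev u (X ∩ Y) (tot u (X ∩ Y))) := by
  have ha' := ha
  have hb' := hb
  rw [g3b_union h] at ha' hb'
  have h1 := h.st hf hj
  have e1 : (a ∈ X ↔ b ∈ X) := by
    simp only [Finset.mem_inter] at ha' hb'
    tauto
  have e2 : (a ∈ Y ↔ b ∈ Y) := by
    simp only [Finset.mem_inter] at ha' hb'
    tauto
  rw [if_pos e1, if_pos e2, sub_zero] at h1
  rw [Finset.mem_union, mem_lev, mem_lev] at ha hb
  rw [mem_lev, mem_lev, mem_lev, mem_lev]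
  rcases ha with ha | ha <;> rcases hb with hb | hb
  · exfalso
    apply ht
    rw [two_zsmul, ← h1, ha.2, hb.2]
  · exact Or.inl ⟨ha, hb⟩
  · exact Or.inr ⟨ha, hb⟩
  · exfalso
    apply ht
    rw [two_zsmul]
    have h2 : -(tot u (X ∩ Y) + tot u (X ∩ Y)) = 0 := by
      rw [neg_add, ← h1, ha.2, hb.2]
    exact neg_eq_zero.1 h2

private lemma g3b_count (h : G.C2 e X Y u η η') (ht : (2 : ℤ) • tot u (X ∩ Y) ≠ 0) {N : Finset E}
    (hN : G.IsPM N) :
    ∃ px qx : ℕ, (lev u (X ∩ Y) (tot u (X ∩ Y))).card + qx =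
      (lev u (X ∩ Y) (- tot u (X ∩ Y))).card + px ∧ (N ∩ G.cut (X ∩ Y)).card = px + qx ∧
      qx = (N ∩ G.btw (lev u (X ∩ Y) (- tot u (X ∩ Y))) (G.U \ (X ∩ Y))).card := by
  have h1 := hN.signed (g3b_disj ht) (g3b_sub h _) (g3b_sub h _)
    (fun f hf a b hj ha hb => g3b_join h ht (hN.1 hf) hj ha hb)
  have h2 := g3b_split hN.1 (g3b_disj ht) (g3b_sub h (tot u (X ∩ Y))) (g3b_sub h (-tot u (X ∩ Y)))
  rw [g3b_union h] at h1 h2
  exact ⟨_, _, h1, h2, rfl⟩

private lemma g3b_noQ (h : G.C2 e X Y u η η') (ht : (2 : ℤ) • tot u (X ∩ Y) ≠ 0) {f : E}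
    (hf : f ∈ G.F) (hfe : f ≠ e) {a b : V} (hj : G.Jn f a b)
    (ha : a ∈ lev u (X ∩ Y) (- tot u (X ∩ Y))) (hb : b ∉ X ∩ Y) : False := by
  rw [mem_lev] at ha
  have h1 := h.exitA hf hfe hj ha.1 hb
  exact g3b_neg ht (h1.symm.trans ha.2)

/-- If `2 tot u A ≠ 0` then the class `+` of `A` has one more vertex than the class `-`.

Proof. `h.exn` : `N` without `e`; `IsPM.signed` with `P = lev u A t`, `Q = lev u A (-t)`,
`t = tot u A`, `P ∪ Q = A` by `pmA`; edges inside `A` join `P` and `Q` by `h.st` (both ends in `P`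
would give `2 t = 0`). Exits of `N` from `Q`: none (`exitA`, `e ∉ N`, `t ≠ -t`); the exits from `P`
are all exits of `A`: `(N ∩ cut A).card = 1` by `types`, `cntA`. -/
theorem C2.cardA (h : G.C2 e X Y u η η') (ht : (2 : ℤ) • tot u (X ∩ Y) ≠ 0) :
    (lev u (X ∩ Y) (tot u (X ∩ Y))).card = (lev u (X ∩ Y) (- tot u (X ∩ Y))).card + 1 := by
  obtain ⟨N, hN, heN⟩ := h.exn
  obtain ⟨px, qx, h1, h2, h3⟩ := g3b_count h ht hN
  have h4 := (h.types hN heN).2.1
  have h5 := h.cntA hN.1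
  have h6 : qx = 0 := by
    rw [h3, Finset.card_eq_zero, Finset.eq_empty_iff_forall_notMem]
    intro f hf
    rw [Finset.mem_inter] at hf
    have hfF := hN.1 hf.1
    have hfe : f ≠ e := fun h => heN (h ▸ hf.1)
    rw [(jn_self (G := G) f).mem_btw hfF] at hf
    rcases hf.2 with ⟨k1, k2⟩ | ⟨k1, k2⟩
    · exact g3b_noQ h ht hfF hfe (jn_self f) k1 (Finset.mem_sdiff.1 k2).2
    · exact g3b_noQ h ht hfF hfe (jn_self f).symm k2 (Finset.mem_sdiff.1 k1).2
  omega

/-- (P2), 5.5. If `A = X ∩ Y` is proper (`2 tot u A ≠ 0`) with at least 3 vertices then `e` joins a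
vertex `u0` of the class `-` of `A` with a vertex outside `A`, and every perfect matching with `e`
meets the cut of `A` exactly three times.

Proof. `A` is `Nontriv` (`A ⊆ X`, `h.odd`, `h.ntX`), so `h.three` gives `N` with
`(N ∩ cut A).card ≠ 1`; `e ∈ N` by `types`, `cntA`. If `e` is not an edge between the class `-`
(`Q = lev u A (-t)`) and the outside of `A`, then there is no exit of `N` from `Q` (`exitA`), edges
of `N` inside `A` (also `e`) join `P` and `Q` (`h.st`), so `IsPM.signed` and `cardA` give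
`(N ∩ cut A).card = 1`, contradiction. So `e = u0 v0`. For any perfect matching `N` with `e`:
the exits from `Q` are exactly `e` (`exitA`), so by `IsPM.signed` the number of exits from `P` is
`|P| - |Q| + 1 = 2`, together `3`. -/
theorem C2.P2 (h : G.C2 e X Y u η η') (ht : (2 : ℤ) • tot u (X ∩ Y) ≠ 0)
    (h3 : 3 ≤ (X ∩ Y).card) :
    (∃ a b, G.Jn e a b ∧ a ∈ X ∩ Y ∧ b ∉ X ∩ Y ∧ b ∈ G.U ∧ u a = - tot u (X ∩ Y)) ∧
    ∀ N, G.IsPM N → e ∈ N → (N ∩ G.cut (X ∩ Y)).card = 3 := by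
  have hAX : X ∩ Y ⊆ X := Finset.inter_subset_left
  have hcard := h.cardA ht
  have hnt : G.Nontriv (X ∩ Y) := by
    refine ⟨hAX.trans h.XU, h.odd, h3, ?_⟩
    have h1 := Finset.card_le_card hAX
    have h2 := h.ntX.2.2.2
    omega
  have hE : ∃ a b, G.Jn e a b ∧ a ∈ X ∩ Y ∧ b ∉ X ∩ Y ∧ b ∈ G.U ∧ u a = - tot u (X ∩ Y) := by
    by_contra hcon
    obtain ⟨N, hN, hN1⟩ := h.three hnt
    obtain ⟨px, qx, h1, h2, h3⟩ := g3b_count h ht hN
    have h6 : qx = 0 := by
      rw [h3, Finset.card_eq_zero, Finset.eq_empty_iff_forall_notMem]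
      intro f hf
      rw [Finset.mem_inter] at hf
      have hfF := hN.1 hf.1
      rw [(jn_self (G := G) f).mem_btw hfF] at hf
      have key : ∀ a b, G.Jn f a b → a ∈ lev u (X ∩ Y) (- tot u (X ∩ Y)) →
          b ∈ G.U \ (X ∩ Y) → False := by
        intro a b hj ha hb
        have hb' := Finset.mem_sdiff.1 hb
        by_cases hfe : f = e
        · subst hfe
          have ha' := mem_lev.1 ha
          exact hcon ⟨a, b, hj, ha'.1, hb'.2, hb'.1, ha'.2⟩
        · exact g3b_noQ h ht hfF hfe hj ha hb'.2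
      rcases hf.2 with ⟨k1, k2⟩ | ⟨k1, k2⟩
      · exact key _ _ (jn_self f) k1 k2
      · exact key _ _ (jn_self f).symm k2 k1
    omega
  refine ⟨hE, ?_⟩
  obtain ⟨a, b, hj, ha, hb, hbU, hua⟩ := hE
  intro N hN heN
  obtain ⟨px, qx, h1, h2, h3⟩ := g3b_count h ht hN
  have haQ : a ∈ lev u (X ∩ Y) (- tot u (X ∩ Y)) := mem_lev.2 ⟨ha, hua⟩
  have h6 : qx = 1 := by
    rw [h3, Finset.card_eq_one]
    refine ⟨e, ?_⟩
    ext f
    rw [Finset.mem_inter, Finset.mem_singleton]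
    constructor
    · intro hf
      have hfF := hN.1 hf.1
      rw [(jn_self (G := G) f).mem_btw hfF] at hf
      by_contra hfe
      rcases hf.2 with ⟨k1, k2⟩ | ⟨k1, k2⟩
      · exact g3b_noQ h ht hfF hfe (jn_self f) k1 (Finset.mem_sdiff.1 k2).2
      · exact g3b_noQ h ht hfF hfe (jn_self f).symm k2 (Finset.mem_sdiff.1 k1).2
    · rintro rfl
      refine ⟨heN, ?_⟩
      rw [hj.mem_btw (hN.1 heN)]
      exact Or.inl ⟨haQ, Finset.mem_sdiff.2 ⟨hbU, hb⟩⟩
  omega

end MG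

end ML
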