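import Pool.Agent.ML.G3a

/-!
# ML-G3c : crossing case: ends in `C`
-/

set_option autoImplicit false
set_option linter.unusedSectionVars false
set_option linter.unusedFintypeInType false
set_option linter.unusedVariables false

namespace ML

namespace MG

variable {V E : Type} [Fintype V] [Fintype E] [DecidableEq V] [DecidableEq E]

variable {G : MG V E} {e : E} {X Y : Finset V} {u : V → QZ} {η η' : QZ}

/-- Ends in `C` of the edges (other than `e`) from `A` to `C`. Proof: `h.st`, `exitA`. -/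
theorem C2.endCA (h : G.C2 e X Y u η η') {f : E} (hf : f ∈ G.F) (hfe : f ≠ e) {d a : V}
    (hj : G.Jn f d a) (hd : d ∈ X \ Y) (ha : a ∈ X ∩ Y) : u d = - η' - tot u (X ∩ Y) := by
  rw [Finset.mem_sdiff] at hd
  have hda : d ∉ X ∩ Y := fun hh => hd.2 (Finset.mem_inter.1 hh).2
  have h1 := h.exitA hf hfe hj.symm ha hda
  rw [Finset.mem_inter] at ha
  have h2 := h.st hf hj
  rw [if_pos (by simp [hd.1, ha.1]), if_neg (by simp [hd.2, ha.2]), h1] at h2
  rw [eq_sub_iff_add_eq, h2, zero_sub]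

/-- Ends in `C` of the edges (other than `e`) from `B` to `C`. Proof: `h.st` and `exitA` for the
complementary shores (`h.compl.exitA`, `h.compl_inter`) : `u b = tot u B`. -/
theorem C2.endCB (h : G.C2 e X Y u η η') {f : E} (hf : f ∈ G.F) (hfe : f ≠ e) {d b : V}
    (hj : G.Jn f d b) (hd : d ∈ X \ Y) (hb : b ∈ G.pB X Y) : u d = η - tot u (G.pB X Y) := by
  rw [Finset.mem_sdiff] at hd
  have hdb : d ∉ G.pB X Y := by
    unfold pB
    rw [Finset.mem_sdiff, Finset.mem_union]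
    exact fun hh => hh.2 (Or.inl hd.1)
  have h1 : u b = tot u (G.pB X Y) := by
    have := h.compl.exitA hf hfe hj.symm (by rw [h.compl_inter]; exact hb)
      (by rw [h.compl_inter]; exact hdb)
    rwa [h.compl_inter] at this
  unfold pB at hb
  rw [Finset.mem_sdiff, Finset.mem_union, not_or] at hb
  have h2 := h.st hf hj
  rw [if_neg (by simp [hd.1, hb.2.1]), if_pos (by simp [hd.2, hb.2.2]), h1] at h2
  rw [eq_sub_iff_add_eq, h2, sub_zero]

/-- The exit edge of a nonempty `X \ Y` different from `e`, with a perfect matching. -/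
private theorem C2.g3c_exitC (h : G.C2 e X Y u η η') {W : Finset V} (hW : W ⊆ X \ Y)
    (hne : W.Nonempty) : ∃ f ∈ G.F, f ≠ e ∧ ∃ a b, G.Jn f a b ∧ a ∈ W ∧ b ∉ W ∧
      (b ∈ X \ Y ∨ b ∈ X ∩ Y ∨ b ∈ G.pB X Y) := by
  have hWU : W ⊆ G.U := fun v hv => h.XU (Finset.mem_sdiff.1 (hW hv)).1
  have hn : W ≠ G.U := by
    intro hh
    have h1 : (X ∩ Y).Nonempty := Finset.card_pos.1 h.odd.pos
    obtain ⟨v, hv⟩ := h1
    rw [Finset.mem_inter] at hv
    have h2 : v ∈ W := hh ▸ h.XU hv.1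
    exact (Finset.mem_sdiff.1 (hW h2)).2 hv.2
  obtain ⟨f, hf, hfe, a, b, hj, ha, hb, hbU⟩ := h.exit hWU hne hn
  refine ⟨f, hf, hfe, a, b, hj, ha, hb, ?_⟩
  have haC := hW ha
  have hnD : b ∉ Y \ X := fun hh => h.noCD hf hfe hj haC hh
  unfold pB
  rw [Finset.mem_sdiff] at hnD
  rw [Finset.mem_sdiff, Finset.mem_inter, Finset.mem_sdiff, Finset.mem_union]
  tauto

/-- 5.6: `tot u A + tot u B = η - η'` if `C` and `D` are nonempty.

Proof. `h.exit` for `W = C = X \ Y` gives an edge `f ≠ e` from `C` to the outside, by `noCD` to `A`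
or `B`. `N` with `f ∈ N`, `e ∉ N` (`h.ext`). By `types` (`a1 = b1`, `ab + a1 + a2 = 1`) `N` has exactly
one edge `A-C` and exactly one edge `C-B`, so `(N ∩ cut C).card = 2` (`cntC`) and by `sum_part2`,
`endCA`, `endCB`: `tot u C = (- η' - tot u A) + (η - tot u B)`. In the same way there is a perfect
matching `N'` without `e` with an edge from `D = Y \ X` to the outside; for it `a2 = 1`, so
`a1 = b1 = 0`, `(N' ∩ cut C).card = 0` and `tot u C = 0` by `sum_part0`. -/
theorem C2.sumAB (h : G.C2 e X Y u η η') (hC : (X \ Y).Nonempty) (hD : (Y \ X).Nonempty) :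
    tot u (X ∩ Y) + tot u (G.pB X Y) = η - η' := by
  have hCU : X \ Y ⊆ G.U := fun v hv => h.XU (Finset.mem_sdiff.1 hv).1
  -- edges inside `C`
  have hin : ∀ N, G.IsPM N → ∀ f ∈ N, f ∈ G.inn (X \ Y) → u (G.s f) + u (G.t f) = 0 := by
    intro N hN f hf hfi
    have hfF := hN.1 hf
    rw [(jn_self (G := G) f).mem_inn hfF, Finset.mem_sdiff, Finset.mem_sdiff] at hfi
    rw [h.st hfF (jn_self f), if_pos (by simp [hfi.1.1, hfi.2.1]),
      if_pos (by simp [hfi.1.2, hfi.2.2]), sub_zero]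
  -- first matching
  have key1 : tot u (X \ Y) = (- η' - tot u (X ∩ Y)) + (η - tot u (G.pB X Y)) := by
    obtain ⟨f, hf, hfe, a, b, hj, ha, hb, hbc⟩ := h.g3c_exitC (Finset.Subset.refl _) hC
    obtain ⟨N, hN, heN, hfN⟩ := h.ext hf hfe
    obtain ⟨t1, t2, t3, t4⟩ := h.types hN heN
    have hc := h.cntC hN.1
    -- both numbers are one
    have pos : 0 < (N ∩ G.btw (X ∩ Y) (X \ Y)).card := by
      rcases hbc with hbc | hbc | hbc
      · exact absurd hbc hb
      · apply Finset.card_pos.2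
        exact ⟨f, Finset.mem_inter.2 ⟨hfN, (hj.mem_btw hf _ _).2 (Or.inr ⟨ha, hbc⟩)⟩⟩
      · rw [t3]
        apply Finset.card_pos.2
        exact ⟨f, Finset.mem_inter.2 ⟨hfN, (hj.mem_btw hf _ _).2 (Or.inl ⟨ha, hbc⟩)⟩⟩
    have p1 : (N ∩ G.btw (X ∩ Y) (X \ Y)).card = 1 := by omega
    have p2 : (N ∩ G.btw (X \ Y) (G.pB X Y)).card = 1 := by omega
    have p3 : (N ∩ G.cut (X \ Y)).card = 2 := by omega
    obtain ⟨g, hg⟩ := Finset.card_pos.1 (by rw [p1]; exact Nat.one_pos)
    obtain ⟨g', hg'⟩ := Finset.card_pos.1 (by rw [p2]; exact Nat.one_pos)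
    rw [Finset.mem_inter] at hg hg'
    have getj : ∀ (k : E) (P Q : Finset V), k ∈ G.btw P Q → ∃ x y, G.Jn k x y ∧ x ∈ P ∧ y ∈ Q := by
      intro k P Q hk
      unfold btw at hk
      rw [Finset.mem_filter] at hk
      rcases hk.2 with hk2 | hk2
      · exact ⟨_, _, jn_self k, hk2.1, hk2.2⟩
      · exact ⟨_, _, (jn_self k).symm, hk2.2, hk2.1⟩
    obtain ⟨y, c, hgj, hyA, hcC⟩ := getj g _ _ hg.2
    obtain ⟨c', z, hgj', hcC', hzB⟩ := getj g' _ _ hg'.2
    have hyn : y ∉ X \ Y := fun hh => (Finset.mem_sdiff.1 hh).2 (Finset.mem_inter.1 hyA).2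
    have hzn : z ∉ X \ Y := by
      unfold pB at hzB
      rw [Finset.mem_sdiff, Finset.mem_union, not_or] at hzB
      exact fun hh => hzB.2.1 (Finset.mem_sdiff.1 hh).1
    have hgF := hN.1 hg.1
    have hgF' := hN.1 hg'.1
    have hge : g ≠ e := fun hh => heN (hh ▸ hg.1)
    have hge' : g' ≠ e := fun hh => heN (hh ▸ hg'.1)
    have hgg : g ≠ g' := by
      intro hh
      subst hh
      -- the edge would join A-C and C-B
      rcases hgj.symm with ⟨q1, q2⟩ | ⟨q1, q2⟩ <;> rcases hgj' with ⟨q3, q4⟩ | ⟨q3, q4⟩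
      · have : y = z := by rw [← q2, ← q4]
        subst this
        unfold pB at hzB
        rw [Finset.mem_sdiff, Finset.mem_union, not_or] at hzB
        exact hzB.2.1 (Finset.mem_inter.1 hyA).1
      · have : c = z := by rw [← q1, ← q3]
        subst this
        exact hzn hcC
      · have : y = c' := by rw [← q1, ← q3]
        subst this
        exact hyn hcC'
      · have : y = z := by rw [← q1, ← q3]
        subst this
        unfold pB at hzB
        rw [Finset.mem_sdiff, Finset.mem_union, not_or] at hzB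
        exact hzB.2.1 (Finset.mem_inter.1 hyA).1
    have hs := IsPM.sum_part2 hN hCU u (hin N hN) hgg hg.1 hg'.1 hgj.symm hcC hyn hgj' hcC' hzn p3
    unfold tot at *
    rw [hs, h.endCA hgF hge hgj.symm hcC hyA, h.endCB hgF' hge' hgj' hcC' hzB]
    rfl
  have key2 : tot u (X \ Y) = 0 := by
    obtain ⟨f, hf, hfe, a, b, hj, ha, hb, hbc⟩ := h.swap.g3c_exitC (Finset.Subset.refl _) hD
    obtain ⟨N, hN, heN, hfN⟩ := h.ext hf hfe
    obtain ⟨t1, t2, t3, t4⟩ := h.types hN heN
    have hc := h.cntC hN.1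
    have pos : 0 < (N ∩ G.btw (X ∩ Y) (Y \ X)).card := by
      rcases hbc with hbc | hbc | hbc
      · exact absurd hbc hb
      · apply Finset.card_pos.2
        rw [Finset.inter_comm] at hbc
        exact ⟨f, Finset.mem_inter.2 ⟨hfN, (hj.mem_btw hf _ _).2 (Or.inr ⟨ha, hbc⟩)⟩⟩
      · rw [t4]
        apply Finset.card_pos.2
        rw [pB_swap] at hbc
        exact ⟨f, Finset.mem_inter.2 ⟨hfN, (hj.mem_btw hf _ _).2 (Or.inl ⟨ha, hbc⟩)⟩⟩
    have p3 : (N ∩ G.cut (X \ Y)).card = 0 := by omega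
    exact IsPM.sum_part0 hN hCU u (hin N hN) p3
  rw [key2] at key1
  have h3 : (tot u (X ∩ Y) + tot u (G.pB X Y)) = (η - η') - ((- η' - tot u (X ∩ Y)) + (η - tot u (G.pB X Y))) := by
    abel
  rw [h3, ← key1, sub_zero]

/-- On `C` the potential is `± τ`, `τ = - η' - tot u A`. Proof as `pmA`: `W` = the vertices of `C` with
other values; `h.exit`; the exit edge goes to `A` (`endCA`), to `B` (`endCB`, `sumAB`), to `D`
(`noCD`) or to `C` (`h.st`). -/
theorem C2.pmC (h : G.C2 e X Y u η η') (hC : (X \ Y).Nonempty) (hD : (Y \ X).Nonempty) {d : V}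
    (hd : d ∈ X \ Y) : u d = - η' - tot u (X ∩ Y) ∨ u d = - (- η' - tot u (X ∩ Y)) := by
  classical
  by_contra hcon
  set τ := - η' - tot u (X ∩ Y) with hτ
  set W := (X \ Y).filter (fun v => ¬ (u v = τ ∨ u v = -τ)) with hWdef
  have hdW : d ∈ W := Finset.mem_filter.2 ⟨hd, hcon⟩
  have hWs : W ⊆ X \ Y := Finset.filter_subset _ _
  obtain ⟨f, hf, hfe, a, b, hj, ha, hb, hbc⟩ := h.g3c_exitC hWs ⟨d, hdW⟩
  have ha' := Finset.mem_filter.1 ha
  have hsum := h.sumAB hC hD
  rcases hbc with hbc | hbc | hbc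
  · have hbv : u b = τ ∨ u b = -τ := by
      by_contra hbn
      exact hb (Finset.mem_filter.2 ⟨hbc, hbn⟩)
    have haX := Finset.mem_sdiff.1 ha'.1
    have hbX := Finset.mem_sdiff.1 hbc
    have h2 := h.st hf hj
    rw [if_pos (by simp [haX.1, hbX.1]), if_pos (by simp [haX.2, hbX.2]), sub_zero] at h2
    have h3 : u a = - u b := eq_neg_of_add_eq_zero_left h2
    apply ha'.2
    rcases hbv with hbv | hbv
    · right; rw [h3, hbv]
    · left; rw [h3, hbv, neg_neg]
  · exact ha'.2 (Or.inl (h.endCA hf hfe hj ha'.1 hbc))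
  · apply ha'.2
    right
    rw [h.endCB hf hfe hj ha'.1 hbc, hτ]
    have : tot u (G.pB X Y) = (η - η') - tot u (X ∩ Y) := by rw [← hsum]; abel
    rw [this]
    abel

end MG

end ML
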