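import Pool.Agent.ML.G3b
import Pool.Agent.ML.G3c

/-!
# ML-G4 : symmetric forms of the lemmas of G3 (derived by `swap` and `compl`)
-/

set_option autoImplicit false
set_option linter.unusedSectionVars false
set_option linter.unusedFintypeInType false
set_option linter.unusedVariables false

namespace ML

namespace MG

variable {V E : Type} [Fintype V] [Fintype E] [DecidableEq V] [DecidableEq E]

variable {G : MG V E} {e : E} {X Y : Finset V} {u : V → QZ} {η η' : QZ}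

theorem tot_neg (u : V → QZ) (W : Finset V) : tot (fun v => - u v) W = - tot u W := by
  unfold tot
  rw [Finset.sum_neg_distrib]

theorem two_smul_neg_ne {t : QZ} (h : (2 : ℤ) • t ≠ 0) : (2 : ℤ) • (-t) ≠ 0 := by
  rw [smul_neg]
  exact neg_ne_zero.2 h

theorem ne_neg_of_two {t : QZ} (h : (2 : ℤ) • t ≠ 0) : t ≠ -t := by
  intro h1
  apply h
  rw [two_zsmul]
  nth_rw 2 [h1]
  exact add_neg_cancel t

theorem eq_neg_of_two {t : QZ} (h : (2 : ℤ) • t = 0) : t = -t := by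
  rw [two_zsmul] at h
  exact eq_neg_of_add_eq_zero_left h

/-- Exits of `B`. -/
theorem C2.exitB (h : G.C2 e X Y u η η') {f : E} (hf : f ∈ G.F) (hfe : f ≠ e) {a b : V}
    (hj : G.Jn f a b) (ha : a ∈ G.pB X Y) (hb : b ∉ G.pB X Y) : u a = tot u (G.pB X Y) := by
  have := h.compl.exitA hf hfe hj
  rw [h.compl_inter] at this
  exact this ha hb

theorem C2.pmB (h : G.C2 e X Y u η η') {a : V} (ha : a ∈ G.pB X Y) :
    u a = tot u (G.pB X Y) ∨ u a = - tot u (G.pB X Y) := by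
  have := h.compl.pmA (a := a)
  rw [h.compl_inter] at this
  exact this ha

theorem C2.cardB (h : G.C2 e X Y u η η') (ht : (2 : ℤ) • tot u (G.pB X Y) ≠ 0) :
    (lev u (G.pB X Y) (tot u (G.pB X Y))).card
      = (lev u (G.pB X Y) (- tot u (G.pB X Y))).card + 1 := by
  have := h.compl.cardA
  rw [h.compl_inter] at this
  exact this ht

theorem C2.P2B (h : G.C2 e X Y u η η') (ht : (2 : ℤ) • tot u (G.pB X Y) ≠ 0)
    (h3 : 3 ≤ (G.pB X Y).card) :
    (∃ a b, G.Jn e a b ∧ a ∈ G.pB X Y ∧ b ∉ G.pB X Y ∧ b ∈ G.U ∧ u a = - tot u (G.pB X Y)) ∧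
    ∀ N, G.IsPM N → e ∈ N → (N ∩ G.cut (G.pB X Y)).card = 3 := by
  have := h.compl.P2
  rw [h.compl_inter] at this
  exact this ht h3

theorem C2.endDA (h : G.C2 e X Y u η η') {f : E} (hf : f ∈ G.F) (hfe : f ≠ e) {d a : V}
    (hj : G.Jn f d a) (hd : d ∈ Y \ X) (ha : a ∈ X ∩ Y) : u d = η - tot u (X ∩ Y) := by
  have h1 := h.swap.endCA hf hfe hj hd (by rwa [Finset.inter_comm])
  rw [tot_neg, Finset.inter_comm] at h1
  have h2 : u d = - (- η - - tot u (X ∩ Y)) := by rw [← h1, neg_neg]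
  rw [h2]; abel

theorem C2.endDB (h : G.C2 e X Y u η η') {f : E} (hf : f ∈ G.F) (hfe : f ≠ e) {d b : V}
    (hj : G.Jn f d b) (hd : d ∈ Y \ X) (hb : b ∈ G.pB X Y) :
    u d = - η' - tot u (G.pB X Y) := by
  have h1 := h.swap.endCB hf hfe hj hd (by rwa [pB_swap])
  rw [tot_neg, pB_swap] at h1
  have h2 : u d = - (η' - - tot u (G.pB X Y)) := by rw [← h1, neg_neg]
  rw [h2]; abel

theorem C2.pmD (h : G.C2 e X Y u η η') (hC : (X \ Y).Nonempty) (hD : (Y \ X).Nonempty) {d : V}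
    (hd : d ∈ Y \ X) : u d = η - tot u (X ∩ Y) ∨ u d = - (η - tot u (X ∩ Y)) := by
  have h1 := h.swap.pmC hD hC hd
  rw [tot_neg, Finset.inter_comm] at h1
  rcases h1 with h1 | h1
  · left
    have h2 : u d = - (- η - - tot u (X ∩ Y)) := by rw [← h1, neg_neg]
    rw [h2]; abel
  · right
    have h2 : u d = - (- (- η - - tot u (X ∩ Y))) := by rw [← h1, neg_neg]
    rw [h2]; abel

end MG

end ML
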