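import Pool.Agent.ML.G4

/-!
# ML-G5a : crossing, `A` proper
-/

set_option autoImplicit false
set_option linter.unusedSectionVars false
set_option linter.unusedFintypeInType false
set_option linter.unusedVariables false

namespace ML

namespace MG

variable {V E : Type} [Fintype V] [Fintype E] [DecidableEq V] [DecidableEq E]

variable {G : MG V E} {e : E} {X Y : Finset V} {u : V → QZ} {η η' : QZ}

/-- Crossing, `A` proper with at least three vertices: then `B` is proper too and `e` joins the
classes `-` of `A` and `B`.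

Proof. Write `tA, tB`. `h.P2` gives `e = a b`, `a ∈ A`, `b ∉ A`, `u a = -tA`. `b` is in `C = X \ Y`, `D = Y \ X`
or `B`. By `h.st h.he`:
* `b ∈ C`: `u a + u b = -η'`, so `u b = tA - η'`; `pmC`: `u b = -η' - tA` gives `2 tA = 0`;
  `u b = η' + tA` gives `2 η' = 0`: contradiction.
* `b ∈ D`: `u b = η + tA`; `pmD`: `u b = η - tA` gives `2 tA = 0`, `u b = -(η - tA)` gives `2 η = 0`.
* `b ∈ B`: `u b - tA = η - η' = tA + tB` (`sumAB`). `pmB`: `u b = tB` gives `2 tA = 0`; so `u b = -tB`, and
  `2 tB ≠ 0` (otherwise `-tB = tB`). `|B|` is odd; if `|B| = 1` then `B = {b}` and `tB = u b`,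
  contradiction; so `|B| ≥ 3`. -/
theorem C2.cross_proper (h : G.C2 e X Y u η η') (hC : (X \ Y).Nonempty) (hD : (Y \ X).Nonempty)
    (ht : (2 : ℤ) • tot u (X ∩ Y) ≠ 0) (h3 : 3 ≤ (X ∩ Y).card) :
    (∃ a b, G.Jn e a b ∧ a ∈ X ∩ Y ∧ b ∈ G.pB X Y ∧ u a = - tot u (X ∩ Y) ∧
      u b = - tot u (G.pB X Y)) ∧ (2 : ℤ) • tot u (G.pB X Y) ≠ 0 ∧ 3 ≤ (G.pB X Y).card := by
  obtain ⟨⟨a, b, hj, ha, hb, hbU, hua⟩, -⟩ := h.P2 ht h3
  have haX := (Finset.mem_inter.1 ha).1
  have haY := (Finset.mem_inter.1 ha).2
  have hst := h.st h.he hj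
  rw [hua] at hst
  have hsum := h.sumAB hC hD
  set tA := tot u (X ∩ Y) with htA
  set tB := tot u (G.pB X Y) with htB
  by_cases hbX : b ∈ X
  · exfalso
    have hbY : b ∉ Y := fun hy => hb (Finset.mem_inter.2 ⟨hbX, hy⟩)
    rw [if_pos (iff_of_true haX hbX), if_neg (fun hh => hbY (hh.1 haY))] at hst
    rcases h.pmC hC hD (Finset.mem_sdiff.2 ⟨hbX, hbY⟩) with h1 | h1
    · rw [← htA] at h1
      rw [h1] at hst
      apply ht
      rw [two_zsmul]
      have e1 : tA + tA = -((-tA + (-η' - tA)) - (0 - η')) := by abel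
      rw [e1, hst]
      abel
    · rw [← htA] at h1
      rw [h1] at hst
      apply h.hη'
      rw [two_zsmul]
      have e1 : η' + η' = (-tA + -(-η' - tA)) - (0 - η') := by abel
      rw [e1, hst]
      abel
  · by_cases hbY : b ∈ Y
    · exfalso
      rw [if_neg (fun hh => hbX (hh.1 haX)), if_pos (iff_of_true haY hbY)] at hst
      rcases h.pmD hC hD (Finset.mem_sdiff.2 ⟨hbY, hbX⟩) with h1 | h1
      · rw [← htA] at h1
        rw [h1] at hst
        apply ht
        rw [two_zsmul]
        have e1 : tA + tA = -((-tA + (η - tA)) - (η - 0)) := by abel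
        rw [e1, hst]
        abel
      · rw [← htA] at h1
        rw [h1] at hst
        apply h.hη
        rw [two_zsmul]
        have e1 : η + η = -((-tA + -(η - tA)) - (η - 0)) := by abel
        rw [e1, hst]
        abel
    · have hbB : b ∈ G.pB X Y := by
        unfold pB
        rw [Finset.mem_sdiff, Finset.mem_union]
        exact ⟨hbU, fun hh => hh.elim hbX hbY⟩
      rw [if_neg (fun hh => hbX (hh.1 haX)), if_neg (fun hh => hbY (hh.1 haY)), ← hsum] at hst
      have hno : u b ≠ tB := by
        intro h1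
        rw [h1] at hst
        apply ht
        rw [two_zsmul]
        have e1 : tA + tA = -((-tA + tB) - (tA + tB)) := by abel
        rw [e1, hst]
        abel
      have hub : u b = -tB := (h.pmB hbB).resolve_left hno
      have h2 : (2 : ℤ) • tB ≠ 0 := by
        intro h1
        exact hno (hub.trans (eq_neg_of_two h1).symm)
      refine ⟨⟨a, b, hj, ha, hbB, hua, hub⟩, h2, ?_⟩
      have ho := h.oddB
      by_contra hlt
      have h1 : (G.pB X Y).card = 1 := by
        obtain ⟨k, hk⟩ := ho
        omega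
      obtain ⟨c, hc⟩ := Finset.card_eq_one.1 h1
      rw [hc, Finset.mem_singleton] at hbB
      apply hno
      rw [htB]
      unfold tot
      rw [hc, Finset.sum_singleton, hbB]

end MG

end ML
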