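import Pool.Agent.ML.G4

/-!
# ML-G5b : crossing, two singletons
-/

set_option autoImplicit false
set_option linter.unusedSectionVars false
set_option linter.unusedFintypeInType false
set_option linter.unusedVariables false

namespace ML

namespace MG

variable {V E : Type} [Fintype V] [Fintype E] [DecidableEq V] [DecidableEq E]

variable {G : MG V E} {e : E} {X Y : Finset V} {u : V → QZ} {η η' : QZ}

/-- `A` and `B` singletons: impossible.

Proof. Claim: every perfect matching `N` has `(N ∩ cut X).card = 1`; this contradicts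
`h.three h.ntX`. If `e ∉ N` : `h.one`. If `e ∈ N`: `(N ∩ cut A).card = 1`, `(N ∩ cut B).card = 1`
(`IsPM.jcard`, card 1, parity), and by `cntX, cntY, cntA, cntB`:
`|N ∩ cut X| + |N ∩ cut Y| = |N ∩ cut A| + |N ∩ cut B| + 2 c`, `c = (N ∩ btw C D).card ≤ 1` (by `noCD`
`N ∩ btw C D ⊆ {e}`). Both `|N ∩ cut X|`, `|N ∩ cut Y|` are odd (`IsPM.jodd`). `c = 0`: both are 1.
`c = 1`: one of them is 3: `no3X`, `no3Y`. -/
theorem C2.cross_SS (h : G.C2 e X Y u η η') (hA : (X ∩ Y).card = 1) (hB : (G.pB X Y).card = 1) :
    False := by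
  obtain ⟨N, hN, hne⟩ := h.three h.ntX
  apply hne
  by_cases he : e ∈ N
  · have hNF : N ⊆ G.F := hN.1
    have hX := h.cntX hNF
    have hY := h.cntY hNF
    have hA' := h.cntA hNF
    have hB' := h.cntB hNF
    have hAU : X ∩ Y ⊆ G.U := Finset.inter_subset_left.trans h.XU
    have hBU : G.pB X Y ⊆ G.U := Finset.sdiff_subset
    have jA := hN.jcard hAU
    have jB := hN.jcard hBU
    have oX := hN.jodd h.XU h.ntX.2.1
    have oY := hN.jodd h.YU h.ntY.2.1
    have n3X := h.no3X hN
    have n3Y := h.no3Y hN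
    have hc : (N ∩ G.btw (X \ Y) (Y \ X)).card ≤ 1 := by
      have hsub : N ∩ G.btw (X \ Y) (Y \ X) ⊆ {e} := by
        intro f hf
        rw [Finset.mem_inter] at hf
        rw [Finset.mem_singleton]
        by_contra hfe
        have hfF := hNF hf.1
        have hb := hf.2
        rw [(jn_self (G := G) f).mem_btw hfF] at hb
        rcases hb with ⟨h1, h2⟩ | ⟨h1, h2⟩
        · exact h.noCD hfF hfe (jn_self f) h1 h2
        · exact h.noCD hfF hfe (jn_self f).symm h2 h1
      calc _ ≤ ({e} : Finset E).card := Finset.card_le_card hsub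
        _ = 1 := Finset.card_singleton e
    rw [Nat.odd_iff] at oX oY
    rw [hA] at jA
    rw [hB] at jB
    omega
  · exact (h.one hN he).1

end MG

end ML
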