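import Pool.Agent.ML.G4

/-!
# ML-G5c : crossing, singleton and improper
-/

set_option autoImplicit false
set_option linter.unusedSectionVars false
set_option linter.unusedFintypeInType false
set_option linter.unusedVariables false

namespace ML

namespace MG

variable {V E : Type} [Fintype V] [Fintype E] [DecidableEq V] [DecidableEq E]

variable {G : MG V E} {e : E} {X Y : Finset V} {u : V → QZ} {η η' : QZ}

/-- `A` a singleton, `B` improper: impossible.

Proof. `A = {a}`, `tA = u a`. `τ := -η' - tA`. By `sumAB` `τ = tB - η`, so `2 τ = -2 η ≠ 0`.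
`P = A ∪ lev u C (-τ)`, `Q = lev u C τ`; `P`, `Q` disjoint, `P ∪ Q = X` (`pmC`). All edges of `G` inside
`X` which are not loops join `P` and `Q`: `a - d`, `d ∈ C`: `u a + u d = -η'` (`h.st`), so `u d = τ`; inside
`C`: `u d + u d' = 0` and `2 τ ≠ 0`. The edges other than `e` leaving `X` from `Q`: they go from `C` to `B`
(`noCD`), so `u d = η - tB = -τ` (`endCB`) `≠ τ`: there are none.
Let `N` be a perfect matching. `IsPM.signed` with `P`, `Q`: `|P| + q = |Q| + p`, `p + q = |N ∩ cut X|`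
(disjoint union), `q ≤ 1`, and `q = 0` if `e ∉ N`. An `N` without `e` (`h.exn`, `h.one`) shows
`|P| = |Q| + 1`. So `p = q + 1` for every `N`, `|N ∩ cut X| = 1 + 2 q`, and `q = 1` gives 3: `no3X`.
So `|N ∩ cut X| = 1` for all `N`: contradiction to `h.three h.ntX`. -/
theorem C2.cross_SI (h : G.C2 e X Y u η η') (hC : (X \ Y).Nonempty) (hD : (Y \ X).Nonempty)
    (hA : (X ∩ Y).card = 1) (hB : (2 : ℤ) • tot u (G.pB X Y) = 0) : False := by
  obtain ⟨a, haA⟩ := Finset.card_eq_one.1 hA
  have htA : tot u (X ∩ Y) = u a := by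
    unfold tot
    rw [haA, Finset.sum_singleton]
  have hsum := h.sumAB hC hD
  have haXY : a ∈ X ∩ Y := by rw [haA]; exact Finset.mem_singleton_self a
  have haX : a ∈ X := (Finset.mem_inter.1 haXY).1
  have haY : a ∈ Y := (Finset.mem_inter.1 haXY).2
  obtain ⟨τ, hτ⟩ : ∃ τ : QZ, τ = - η' - tot u (X ∩ Y) := ⟨_, rfl⟩
  have hτB : η - tot u (G.pB X Y) = - τ := by
    rw [hτ]
    have h1 : tot u (G.pB X Y) = η - η' - tot u (X ∩ Y) := by
      rw [← hsum]; abel
    rw [h1]; abel
  have h2τ : (2 : ℤ) • τ ≠ 0 := by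
    intro h0
    apply h.hη
    have h1 : η = tot u (G.pB X Y) - τ := by
      have : η = (η - tot u (G.pB X Y)) + tot u (G.pB X Y) := by abel
      rw [this, hτB]; abel
    rw [h1, smul_sub, hB, h0, sub_zero]
  have hne : τ ≠ - τ := ne_neg_of_two h2τ
  have hpm : ∀ d ∈ X \ Y, u d = τ ∨ u d = - τ := fun d hd => by
    rw [hτ]; exact h.pmC hC hD hd
  obtain ⟨P, hPdef⟩ : ∃ P : Finset V, P = X ∩ Y ∪ lev u (X \ Y) (- τ) := ⟨_, rfl⟩
  obtain ⟨Q, hQdef⟩ : ∃ Q : Finset V, Q = lev u (X \ Y) τ := ⟨_, rfl⟩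
  have memP : ∀ v, v ∈ P ↔ v = a ∨ (v ∈ X \ Y ∧ u v = - τ) := fun v => by
    rw [hPdef, Finset.mem_union, mem_lev, haA, Finset.mem_singleton]
  have memQ : ∀ v, v ∈ Q ↔ v ∈ X \ Y ∧ u v = τ := fun v => by
    rw [hQdef, mem_lev]
  have hPQ : P ∪ Q = X := by
    ext v
    rw [Finset.mem_union, memP, memQ]
    constructor
    · rintro ((rfl | h1) | h1)
      · exact haX
      · exact (Finset.mem_sdiff.1 h1.1).1
      · exact (Finset.mem_sdiff.1 h1.1).1
    · intro hv
      by_cases hvY : v ∈ Y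
      · left; left
        have : v ∈ X ∩ Y := Finset.mem_inter.2 ⟨hv, hvY⟩
        rw [haA, Finset.mem_singleton] at this
        exact this
      · have hvC : v ∈ X \ Y := Finset.mem_sdiff.2 ⟨hv, hvY⟩
        rcases hpm v hvC with h1 | h1
        · exact Or.inr ⟨hvC, h1⟩
        · exact Or.inl (Or.inr ⟨hvC, h1⟩)
  have hdisj : Disjoint P Q := by
    rw [Finset.disjoint_left]
    intro v hvP hvQ
    rw [memP] at hvP
    rw [memQ] at hvQ
    rcases hvP with rfl | h1
    · exact (Finset.mem_sdiff.1 hvQ.1).2 haY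
    · exact hne (hvQ.2.symm.trans h1.2)
  have hPU : P ⊆ G.U := fun v hv => h.XU (hPQ ▸ Finset.mem_union_left _ hv)
  have hQU : Q ⊆ G.U := fun v hv => h.XU (hPQ ▸ Finset.mem_union_right _ hv)
  have key : ∀ N, G.IsPM N → ∀ f ∈ N, ∀ x y, G.Jn f x y → x ∈ P ∪ Q → y ∈ P ∪ Q →
      (x ∈ P ∧ y ∈ Q) ∨ (x ∈ Q ∧ y ∈ P) := by
    intro N hN f hf x y hj hx hy
    have hfF := hN.1 hf
    have hxX : x ∈ X := hPQ ▸ hx
    have hyX : y ∈ X := hPQ ▸ hy
    have hst := h.st hfF hj
    have hxy := hN.jne hf hj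
    by_cases hxY : x ∈ Y
    · have hxa : x = a := by
        have : x ∈ X ∩ Y := Finset.mem_inter.2 ⟨hxX, hxY⟩
        rw [haA, Finset.mem_singleton] at this
        exact this
      by_cases hyY : y ∈ Y
      · exfalso
        have hya : y = a := by
          have : y ∈ X ∩ Y := Finset.mem_inter.2 ⟨hyX, hyY⟩
          rw [haA, Finset.mem_singleton] at this
          exact this
        exact hxy (hxa.trans hya.symm)
      · left
        refine ⟨(memP x).2 (Or.inl hxa), (memQ y).2 ⟨Finset.mem_sdiff.2 ⟨hyX, hyY⟩, ?_⟩⟩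
        rw [if_pos (by simp [hxX, hyX]), if_neg (by simp [hxY, hyY])] at hst
        rw [hτ, htA, ← hxa]
        have : u y = (u x + u y) - u x := by abel
        rw [this, hst]; abel
    · by_cases hyY : y ∈ Y
      · have hya : y = a := by
          have : y ∈ X ∩ Y := Finset.mem_inter.2 ⟨hyX, hyY⟩
          rw [haA, Finset.mem_singleton] at this
          exact this
        right
        refine ⟨(memQ x).2 ⟨Finset.mem_sdiff.2 ⟨hxX, hxY⟩, ?_⟩, (memP y).2 (Or.inl hya)⟩
        rw [if_pos (by simp [hxX, hyX]), if_neg (by simp [hxY, hyY])] at hst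
        rw [hτ, htA, ← hya]
        have : u x = (u x + u y) - u y := by abel
        rw [this, hst]; abel
      · rw [if_pos (by simp [hxX, hyX]), if_pos (by simp [hxY, hyY])] at hst
        have hxC : x ∈ X \ Y := Finset.mem_sdiff.2 ⟨hxX, hxY⟩
        have hyC : y ∈ X \ Y := Finset.mem_sdiff.2 ⟨hyX, hyY⟩
        have hyu : u y = - u x := by
          have : u y = (u x + u y) - u x := by abel
          rw [this, hst]; abel
        rcases hpm x hxC with h1 | h1
        · right
          exact ⟨(memQ x).2 ⟨hxC, h1⟩, (memP y).2 (Or.inr ⟨hyC, by rw [hyu, h1]⟩)⟩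
        · left
          exact ⟨(memP x).2 (Or.inr ⟨hxC, h1⟩), (memQ y).2 ⟨hyC, by rw [hyu, h1, neg_neg]⟩⟩
  have hQe : ∀ N, G.IsPM N → N ∩ G.btw Q (G.U \ (P ∪ Q)) ⊆ {e} := by
    intro N hN f hf
    rw [Finset.mem_inter] at hf
    rw [Finset.mem_singleton]
    by_contra hfe
    have hfF := hN.1 hf.1
    have hb := hf.2
    rw [(jn_self (G := G) f).mem_btw hfF] at hb
    have main : ∀ d b, G.Jn f d b → d ∈ Q → b ∈ G.U \ (P ∪ Q) → False := by
      intro d b hj hd hb'
      rw [memQ] at hd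
      rw [Finset.mem_sdiff, hPQ] at hb'
      by_cases hbY : b ∈ Y
      · exact h.noCD hfF hfe hj hd.1 (Finset.mem_sdiff.2 ⟨hbY, hb'.2⟩)
      · have hbB : b ∈ G.pB X Y := by
          unfold pB
          rw [Finset.mem_sdiff, Finset.mem_union]
          exact ⟨hb'.1, by tauto⟩
        have h1 := h.endCB hfF hfe hj hd.1 hbB
        rw [hτB, hd.2] at h1
        exact hne h1
    rcases hb with hb | hb
    · exact main _ _ (jn_self f) hb.1 hb.2
    · exact main _ _ (jn_self f).symm hb.2 hb.1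
  have hcut : ∀ N, G.IsPM N → (N ∩ G.cut X).card =
      (N ∩ G.btw P (G.U \ (P ∪ Q))).card + (N ∩ G.btw Q (G.U \ (P ∪ Q))).card := by
    intro N hN
    have hd : Disjoint (N ∩ G.btw P (G.U \ (P ∪ Q))) (N ∩ G.btw Q (G.U \ (P ∪ Q))) := by
      rw [Finset.disjoint_left]
      intro f hf1 hf2
      rw [Finset.mem_inter] at hf1 hf2
      have hfF := hN.1 hf1.1
      have h1 := hf1.2
      have h2 := hf2.2
      rw [(jn_self (G := G) f).mem_btw hfF] at h1 h2
      simp only [Finset.mem_sdiff, Finset.mem_union] at h1 h2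
      have hdj := Finset.disjoint_left.1 hdisj
      rcases h1 with h1 | h1 <;> rcases h2 with h2 | h2
      · exact hdj h1.1 h2.1
      · exact h2.1.2 (Or.inl h1.1)
      · exact h1.1.2 (Or.inr h2.1)
      · exact hdj h1.2 h2.2
    rw [← Finset.card_union_of_disjoint hd]
    congr 1
    ext f
    simp only [Finset.mem_union, Finset.mem_inter]
    constructor
    · rintro ⟨hfN, hfc⟩
      have hfF := hN.1 hfN
      rw [(jn_self (G := G) f).mem_cut hfF, ← hPQ] at hfc
      have hs := G.hs f hfF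
      have ht := G.ht f hfF
      rw [(jn_self (G := G) f).mem_btw hfF, (jn_self (G := G) f).mem_btw hfF]
      simp only [Finset.mem_sdiff, Finset.mem_union] at hfc ⊢
      tauto
    · intro h1
      have hfN : f ∈ N := by
        rcases h1 with h1 | h1 <;> exact h1.1
      have hfF := hN.1 hfN
      refine ⟨hfN, ?_⟩
      rw [(jn_self (G := G) f).mem_cut hfF, ← hPQ]
      rw [(jn_self (G := G) f).mem_btw hfF, (jn_self (G := G) f).mem_btw hfF] at h1
      simp only [Finset.mem_sdiff, Finset.mem_union] at h1 ⊢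
      tauto
  obtain ⟨N0, hN0, heN0⟩ := h.exn
  have hone := (h.one hN0 heN0).1
  have hc0 := hcut N0 hN0
  have hs0 := hN0.signed hdisj hPU hQU (key N0 hN0)
  have hq0 : (N0 ∩ G.btw Q (G.U \ (P ∪ Q))).card = 0 := by
    rw [Finset.card_eq_zero, Finset.eq_empty_iff_forall_notMem]
    intro f hf
    have h1 := Finset.mem_singleton.1 (hQe N0 hN0 hf)
    exact heN0 (h1 ▸ (Finset.mem_inter.1 hf).1)
  obtain ⟨N, hN, hN1⟩ := h.three h.ntX
  have hcN := hcut N hN
  have hsN := hN.signed hdisj hPU hQU (key N hN)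
  have hqN : (N ∩ G.btw Q (G.U \ (P ∪ Q))).card ≤ 1 := by
    have := Finset.card_le_card (hQe N hN)
    rwa [Finset.card_singleton] at this
  have h3 := h.no3X hN
  omega

end MG

end ML
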