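import Pool.Agent.ML.G4

/-!
# ML-G5d : crossing, improper-improper: count in `C`
-/

set_option autoImplicit false
set_option linter.unusedSectionVars false
set_option linter.unusedFintypeInType false
set_option linter.unusedVariables false

namespace ML

namespace MG

variable {V E : Type} [Fintype V] [Fintype E] [DecidableEq V] [DecidableEq E]

variable {G : MG V E} {e : E} {X Y : Finset V} {u : V → QZ} {η η' : QZ}

private theorem g5d_ind {p q r : Prop} [Decidable p] [Decidable q] [Decidable r]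
    (h1 : p ↔ q ∨ r) (h2 : ¬ (q ∧ r)) :
    (if p then (1 : ℕ) else 0) = (if q then 1 else 0) + (if r then 1 else 0) := by
  by_cases hq : q
  · have hr : ¬ r := fun hr => h2 ⟨hq, hr⟩
    have hp : p := h1.2 (Or.inl hq)
    rw [if_pos hp, if_pos hq, if_neg hr]
  · by_cases hr : r
    · have hp : p := h1.2 (Or.inr hr)
      rw [if_pos hp, if_neg hq, if_pos hr]
    · have hp : ¬ p := fun hp => (h1.1 hp).elim hq hr
      rw [if_neg hp, if_neg hq, if_neg hr]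

/-- counting through a pointwise disjoint decomposition -/
private theorem g5d_card {N S1 S2 S3 : Finset E} (h1 : ∀ f ∈ N, (f ∈ S1 ↔ f ∈ S2 ∨ f ∈ S3))
    (h2 : ∀ f ∈ N, ¬ (f ∈ S2 ∧ f ∈ S3)) :
    (N ∩ S1).card = (N ∩ S2).card + (N ∩ S3).card := by
  rw [gcard_inter, gcard_inter, gcard_inter, ← Finset.sum_add_distrib]
  exact Finset.sum_congr rfl fun f hf => g5d_ind (h1 f hf) (h2 f hf)

private theorem g5d_tau (h : G.C2 e X Y u η η') (hA : (2 : ℤ) • tot u (X ∩ Y) = 0) :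
    (2 : ℤ) • (- η' - tot u (X ∩ Y)) ≠ 0 := by
  intro h0
  rw [smul_sub, hA, sub_zero, smul_neg, neg_eq_zero] at h0
  exact h.hη' h0

/-- the `C`-end of an edge `C-A` -/
private theorem g5d_CA (h : G.C2 e X Y u η η') (hA : (2 : ℤ) • tot u (X ∩ Y) = 0) {f : E}
    (hf : f ∈ G.F) {d a : V} (hj : G.Jn f d a) (hd : d ∈ X \ Y) (ha : a ∈ X ∩ Y) :
    u d = - η' - tot u (X ∩ Y) := by
  have h1 := h.st hf hj
  rw [Finset.mem_sdiff] at hd
  rw [Finset.mem_inter] at ha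
  rw [if_pos (by tauto), if_neg (by tauto), zero_sub] at h1
  have h2 : u a = tot u (X ∩ Y) := by
    rcases h.pmA (Finset.mem_inter.2 ha) with h2 | h2
    · exact h2
    · rw [h2]; exact (eq_neg_of_two hA).symm
  rw [← h2, ← h1]
  abel

/-- the `C`-end of an edge `C-B` -/
private theorem g5d_CB (h : G.C2 e X Y u η η') (hC : (X \ Y).Nonempty) (hD : (Y \ X).Nonempty)
    (hA : (2 : ℤ) • tot u (X ∩ Y) = 0) (hB : (2 : ℤ) • tot u (G.pB X Y) = 0) {f : E}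
    (hf : f ∈ G.F) {d b : V} (hj : G.Jn f d b) (hd : d ∈ X \ Y) (hb : b ∈ G.pB X Y) :
    u d = - (- η' - tot u (X ∩ Y)) := by
  have h1 := h.st hf hj
  have hb' := hb
  rw [Finset.mem_sdiff] at hd
  unfold pB at hb'
  rw [Finset.mem_sdiff, Finset.mem_union] at hb'
  rw [if_neg (by tauto), if_pos (by tauto), sub_zero] at h1
  have h2 : u b = tot u (G.pB X Y) := by
    rcases h.pmB hb with h2 | h2
    · exact h2
    · rw [h2]; exact (eq_neg_of_two hB).symm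
  have h3 := h.sumAB hC hD
  have h4 : u d = η - tot u (G.pB X Y) := by rw [← h2, ← h1]; abel
  have h5 : tot u (G.pB X Y) = η - η' - tot u (X ∩ Y) := by rw [← h3]; abel
  rw [h4, h5]
  abel

private theorem g5d_logic {sC sA sB sD sP tC tA tB tD tP : Prop}
    (k1 : sC → ¬tC → (tA ∧ sP ∧ ¬tB ∧ ¬tD) ∨ (tB ∧ ¬sP ∧ ¬tA ∧ ¬tD) ∨ (tD ∧ ¬tA ∧ ¬tB))
    (k2 : tC → ¬sC → (sA ∧ tP ∧ ¬sB ∧ ¬sD) ∨ (sB ∧ ¬tP ∧ ¬sA ∧ ¬sD) ∨ (sD ∧ ¬sA ∧ ¬sB))
    (c1 : sC → ¬sA ∧ ¬sB ∧ ¬sD) (c2 : tC → ¬tA ∧ ¬tB ∧ ¬tD) (p1 : sP → sC) (p2 : tP → tC) :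
    ((sP ∧ ¬tC) ∨ (¬sC ∧ tP)) ↔ ((sA ∧ tC) ∨ (sC ∧ tA)) ∨ ((sP ∧ tD) ∨ (sD ∧ tP)) := by
  grind

private theorem g5d_logic' {sC sA sD sP tC tA tD tP : Prop}
    (c1 : sC → ¬sA ∧ ¬sD) (c2 : tC → ¬tA ∧ ¬tD) (p1 : sP → sC) (p2 : tP → tC)
    (e1 : sD → ¬sA) (e2 : tD → ¬tA) :
    ¬ (((sA ∧ tC) ∨ (sC ∧ tA)) ∧ ((sP ∧ tD) ∨ (sD ∧ tP))) := by
  grind

private theorem g5d_count (h : G.C2 e X Y u η η') (hC : (X \ Y).Nonempty)
    (hD : (Y \ X).Nonempty)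
    (hA : (2 : ℤ) • tot u (X ∩ Y) = 0) (hB : (2 : ℤ) • tot u (G.pB X Y) = 0) {N : Finset E}
    (hN : G.IsPM N) :
    (lev u (X \ Y) (- η' - tot u (X ∩ Y))).card + ((N ∩ G.btw (X \ Y) (G.pB X Y)).card
        + (N ∩ G.btw (lev u (X \ Y) (- (- η' - tot u (X ∩ Y)))) (Y \ X)).card)
      = (lev u (X \ Y) (- (- η' - tot u (X ∩ Y)))).card + ((N ∩ G.btw (X ∩ Y) (X \ Y)).card
        + (N ∩ G.btw (lev u (X \ Y) (- η' - tot u (X ∩ Y))) (Y \ X)).card) := by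
  have ht := g5d_tau h hA
  have hpm := fun d (hd : d ∈ X \ Y) => h.pmC hC hD hd
  have hCA := fun (f : E) (hf : f ∈ G.F) (d a : V) (hj : G.Jn f d a) (hd : d ∈ X \ Y)
    (ha : a ∈ X ∩ Y) => g5d_CA h hA hf hj hd ha
  have hCB := fun (f : E) (hf : f ∈ G.F) (d a : V) (hj : G.Jn f d a) (hd : d ∈ X \ Y)
    (ha : a ∈ G.pB X Y) => g5d_CB h hC hD hA hB hf hj hd ha
  generalize (- η' - tot u (X ∩ Y)) = τ at ht hpm hCA hCB ⊢
  have htt : τ ≠ -τ := ne_neg_of_two ht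
  have hmP : ∀ v, v ∈ lev u (X \ Y) τ ↔ v ∈ X \ Y ∧ u v = τ := fun v => mem_lev
  have hmQ : ∀ v, v ∈ lev u (X \ Y) (-τ) ↔ v ∈ X \ Y ∧ u v = -τ := fun v => mem_lev
  have hPC : lev u (X \ Y) τ ⊆ X \ Y := fun v hv => ((hmP v).1 hv).1
  have hQC : lev u (X \ Y) (-τ) ⊆ X \ Y := fun v hv => ((hmQ v).1 hv).1
  have hCU : X \ Y ⊆ G.U := fun v hv => h.XU (Finset.mem_sdiff.1 hv).1
  have hdis : Disjoint (lev u (X \ Y) τ) (lev u (X \ Y) (-τ)) := by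
    rw [Finset.disjoint_left]
    intro v h1 h2
    exact htt (((hmP v).1 h1).2.symm.trans ((hmQ v).1 h2).2)
  have hun : lev u (X \ Y) τ ∪ lev u (X \ Y) (-τ) = X \ Y := by
    ext v
    rw [Finset.mem_union, hmP, hmQ]
    constructor
    · rintro (h1 | h1)
      · exact h1.1
      · exact h1.1
    · intro hv
      rcases hpm v hv with h1 | h1
      · exact Or.inl ⟨hv, h1⟩
      · exact Or.inr ⟨hv, h1⟩
  have hsg := hN.signed hdis (hPC.trans hCU) (hQC.trans hCU) (by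
    rw [hun]
    intro f hf a b hj ha hb
    have h1 := h.st (hN.1 hf) hj
    have ha' := Finset.mem_sdiff.1 ha
    have hb' := Finset.mem_sdiff.1 hb
    rw [if_pos (by tauto), if_pos (by tauto), sub_zero] at h1
    rcases hpm a ha with h2 | h2
    · left
      refine ⟨(hmP a).2 ⟨ha, h2⟩, (hmQ b).2 ⟨hb, ?_⟩⟩
      rw [h2] at h1
      exact (neg_eq_of_add_eq_zero_right h1).symm
    · right
      refine ⟨(hmQ a).2 ⟨ha, h2⟩, (hmP b).2 ⟨hb, ?_⟩⟩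
      rw [h2] at h1
      have h3 := neg_eq_of_add_eq_zero_right h1
      rw [neg_neg] at h3
      exact h3.symm)
  rw [hun] at hsg
  -- facts for a cut edge of `C`
  have hpB : ∀ v, v ∈ G.pB X Y ↔ v ∈ G.U ∧ ¬ (v ∈ X ∨ v ∈ Y) := by
    intro v
    unfold pB
    rw [Finset.mem_sdiff, Finset.mem_union]
  have hkey : ∀ f ∈ N, ∀ d x, G.Jn f d x → d ∈ X \ Y → x ∈ G.U \ (X \ Y) →
      (x ∈ X ∩ Y ∧ d ∈ lev u (X \ Y) τ ∧ d ∉ lev u (X \ Y) (-τ) ∧ x ∉ G.pB X Y ∧ x ∉ Y \ X) ∨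
      (x ∈ G.pB X Y ∧ d ∈ lev u (X \ Y) (-τ) ∧ d ∉ lev u (X \ Y) τ ∧ x ∉ X ∩ Y ∧ x ∉ Y \ X) ∨
      (x ∈ Y \ X ∧ x ∉ X ∩ Y ∧ x ∉ G.pB X Y) := by
    intro f hf d x hj hd hx
    have hfF := hN.1 hf
    rw [Finset.mem_sdiff, Finset.mem_sdiff] at hx
    by_cases hxX : x ∈ X
    · have hxY : x ∈ Y := by tauto
      left
      have h1 := hCA f hfF d x hj hd (Finset.mem_inter.2 ⟨hxX, hxY⟩)
      have h3 : d ∈ lev u (X \ Y) τ := (hmP d).2 ⟨hd, h1⟩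
      refine ⟨Finset.mem_inter.2 ⟨hxX, hxY⟩, h3, Finset.disjoint_left.1 hdis h3, ?_, ?_⟩
      · rw [hpB]; tauto
      · rw [Finset.mem_sdiff]; tauto
    · by_cases hxY : x ∈ Y
      · right; right
        refine ⟨Finset.mem_sdiff.2 ⟨hxY, hxX⟩, ?_, ?_⟩
        · rw [Finset.mem_inter]; tauto
        · rw [hpB]; tauto
      · right; left
        have hxB : x ∈ G.pB X Y := (hpB x).2 ⟨hx.1, by tauto⟩
        have h1 := hCB f hfF d x hj hd hxB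
        have h3 : d ∈ lev u (X \ Y) (-τ) := (hmQ d).2 ⟨hd, h1⟩
        refine ⟨hxB, h3, Finset.disjoint_right.1 hdis h3, ?_, ?_⟩
        · rw [Finset.mem_inter]; tauto
        · rw [Finset.mem_sdiff]; tauto
  have hCd : ∀ v, v ∈ X \ Y → v ∉ X ∩ Y ∧ v ∉ G.pB X Y ∧ v ∉ Y \ X := by
    intro v hv
    rw [Finset.mem_sdiff] at hv
    rw [Finset.mem_inter, hpB, Finset.mem_sdiff]
    tauto
  have hUC : ∀ v, v ∈ G.U → (v ∈ G.U \ (X \ Y) ↔ v ∉ X \ Y) := by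
    intro v hv
    rw [Finset.mem_sdiff (s := G.U)]
    tauto
  have hPin : ∀ v, v ∈ lev u (X \ Y) τ → v ∈ X \ Y := fun v hv => hPC hv
  have hQin : ∀ v, v ∈ lev u (X \ Y) (-τ) → v ∈ X \ Y := fun v hv => hQC hv
  have hPQ : ∀ v, v ∈ X \ Y → (v ∈ lev u (X \ Y) τ ∨ v ∈ lev u (X \ Y) (-τ)) := by
    intro v hv
    rw [← hun] at hv
    exact Finset.mem_union.1 hv
  have hDA : ∀ v, v ∈ Y \ X → v ∉ X ∩ Y := by
    intro v hv
    rw [Finset.mem_sdiff] at hv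
    rw [Finset.mem_inter]
    exact fun h1 => hv.2 h1.1
  have hDB : ∀ v, v ∈ Y \ X → v ∉ G.pB X Y := by
    intro v hv
    rw [Finset.mem_sdiff] at hv
    rw [hpB]
    exact fun h1 => h1.2 (Or.inr hv.1)
  have hcP : (N ∩ G.btw (lev u (X \ Y) τ) (G.U \ (X \ Y))).card =
      (N ∩ G.btw (X ∩ Y) (X \ Y)).card + (N ∩ G.btw (lev u (X \ Y) τ) (Y \ X)).card := by
    apply g5d_card
    · intro f hf
      have hfF := hN.1 hf
      have hj := jn_self (G := G) f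
      rw [hj.mem_btw hfF, hj.mem_btw hfF, hj.mem_btw hfF, hUC _ (G.hs f hfF),
        hUC _ (G.ht f hfF)]
      refine g5d_logic (sB := G.s f ∈ G.pB X Y) (tB := G.t f ∈ G.pB X Y) ?_ ?_
        (fun h1 => ⟨(hCd _ h1).1, (hCd _ h1).2.1, (hCd _ h1).2.2⟩)
        (fun h1 => ⟨(hCd _ h1).1, (hCd _ h1).2.1, (hCd _ h1).2.2⟩) (hPin _) (hPin _)
      · intro h1 h2
        rcases hkey f hf _ _ hj h1 ((hUC _ (G.ht f hfF)).2 h2) with a | a | a
        · exact Or.inl ⟨a.1, a.2.1, a.2.2.2.1, a.2.2.2.2⟩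
        · exact Or.inr (Or.inl ⟨a.1, a.2.2.1, a.2.2.2.1, a.2.2.2.2⟩)
        · exact Or.inr (Or.inr a)
      · intro h1 h2
        rcases hkey f hf _ _ hj.symm h1 ((hUC _ (G.hs f hfF)).2 h2) with a | a | a
        · exact Or.inl ⟨a.1, a.2.1, a.2.2.2.1, a.2.2.2.2⟩
        · exact Or.inr (Or.inl ⟨a.1, a.2.2.1, a.2.2.2.1, a.2.2.2.2⟩)
        · exact Or.inr (Or.inr a)
    · intro f hf
      have hfF := hN.1 hf
      have hj := jn_self (G := G) f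
      rw [hj.mem_btw hfF, hj.mem_btw hfF]
      exact g5d_logic' (fun h1 => ⟨(hCd _ h1).1, (hCd _ h1).2.2⟩)
        (fun h1 => ⟨(hCd _ h1).1, (hCd _ h1).2.2⟩) (hPin _) (hPin _) (hDA _) (hDA _)
  have hcQ : (N ∩ G.btw (lev u (X \ Y) (-τ)) (G.U \ (X \ Y))).card =
      (N ∩ G.btw (G.pB X Y) (X \ Y)).card + (N ∩ G.btw (lev u (X \ Y) (-τ)) (Y \ X)).card := by
    apply g5d_card
    · intro f hf
      have hfF := hN.1 hf
      have hj := jn_self (G := G) f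
      rw [hj.mem_btw hfF, hj.mem_btw hfF, hj.mem_btw hfF, hUC _ (G.hs f hfF),
        hUC _ (G.ht f hfF)]
      refine g5d_logic (sB := G.s f ∈ X ∩ Y) (tB := G.t f ∈ X ∩ Y) ?_ ?_
        (fun h1 => ⟨(hCd _ h1).2.1, (hCd _ h1).1, (hCd _ h1).2.2⟩)
        (fun h1 => ⟨(hCd _ h1).2.1, (hCd _ h1).1, (hCd _ h1).2.2⟩) (hQin _) (hQin _)
      · intro h1 h2
        rcases hkey f hf _ _ hj h1 ((hUC _ (G.ht f hfF)).2 h2) with a | a | a
        · exact Or.inr (Or.inl ⟨a.1, a.2.2.1, a.2.2.2.1, a.2.2.2.2⟩)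
        · exact Or.inl ⟨a.1, a.2.1, a.2.2.2.1, a.2.2.2.2⟩
        · exact Or.inr (Or.inr ⟨a.1, a.2.2, a.2.1⟩)
      · intro h1 h2
        rcases hkey f hf _ _ hj.symm h1 ((hUC _ (G.hs f hfF)).2 h2) with a | a | a
        · exact Or.inr (Or.inl ⟨a.1, a.2.2.1, a.2.2.2.1, a.2.2.2.2⟩)
        · exact Or.inl ⟨a.1, a.2.1, a.2.2.2.1, a.2.2.2.2⟩
        · exact Or.inr (Or.inr ⟨a.1, a.2.2, a.2.1⟩)
    · intro f hf
      have hfF := hN.1 hf
      have hj := jn_self (G := G) f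
      rw [hj.mem_btw hfF, hj.mem_btw hfF]
      exact g5d_logic' (fun h1 => ⟨(hCd _ h1).2.1, (hCd _ h1).2.2⟩)
        (fun h1 => ⟨(hCd _ h1).2.1, (hCd _ h1).2.2⟩) (hQin _) (hQin _) (hDB _) (hDB _)
  have hcomm : G.btw (G.pB X Y) (X \ Y) = G.btw (X \ Y) (G.pB X Y) := by
    unfold btw
    apply Finset.filter_congr
    intro f _
    exact or_comm
  rw [hcomm] at hcQ
  rw [hcP, hcQ] at hsg
  exact hsg

/-- In the improper-improper case: signed count for `C = X \ Y`. Here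
`τ = -η' - tA`, `2 τ = -2 η' ≠ 0` (as `2 tA = 0`), and for every perfect matching `N`:
`(number of N-edges A-C) + [number of N-edges C-D with u = τ at the C-end]
  = (number of N-edges C-B) + [number of N-edges C-D with u = -τ at the C-end]`.

Proof. `P = lev u C τ`, `Q = lev u C (-τ)`, `P ∪ Q = C` (`pmC`). `IsPM.signed` for `P`, `Q` and any `N`
(also with `e`: edges inside `C` have `u s + u t = 0`): `|P| + exits(Q) = |Q| + exits(P)`. Edges `A-C` end in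
`P` (`h.st`: `u a + u d = -η'`, `u a = tA` since `u a = ± tA` by `pmA` and `tA = -tA`), edges `C-B` end in `Q`:
`u d = η - u b`, `u b = tB` (`pmB`, `tB = -tB`), `η - tB = -τ` by `sumAB` and `2 tA = 0`. So
`exits(P) = #(A-C) + #(P-D)`, `exits(Q) = #(C-B) + #(Q-D)`. Finally `|P| = |Q|`: by `h.exit` for `D` there is
an edge from `D` to the outside, `≠ e`, so (`noCD`) from `D` to `A` or `B`, and a perfect matching `N'`
without `e` containing it; by `types` it has no `A-C`, `C-B`, `C-D` edges, so `exits = 0`. -/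
theorem C2.II_C (h : G.C2 e X Y u η η') (hC : (X \ Y).Nonempty) (hD : (Y \ X).Nonempty)
    (hA : (2 : ℤ) • tot u (X ∩ Y) = 0) (hB : (2 : ℤ) • tot u (G.pB X Y) = 0) {N : Finset E}
    (hN : G.IsPM N) :
    (N ∩ G.btw (X ∩ Y) (X \ Y)).card
        + (N ∩ G.btw (lev u (X \ Y) (- η' - tot u (X ∩ Y))) (Y \ X)).card
      = (N ∩ G.btw (X \ Y) (G.pB X Y)).card
        + (N ∩ G.btw (lev u (X \ Y) (- (- η' - tot u (X ∩ Y)))) (Y \ X)).card := by
  obtain ⟨N', hN', he'⟩ := h.exn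
  obtain ⟨t1, -, t3, -⟩ := h.types hN' he'
  have hmono : ∀ τ : QZ, (N' ∩ G.btw (lev u (X \ Y) τ) (Y \ X)).card = 0 := by
    intro τ
    refine Nat.le_zero.1 (le_trans (Finset.card_le_card ?_) t1.le)
    apply Finset.inter_subset_inter (Finset.Subset.refl N')
    intro f hf
    unfold btw at hf ⊢
    rw [Finset.mem_filter] at hf ⊢
    refine ⟨hf.1, ?_⟩
    rcases hf.2 with ⟨h1, h2⟩ | ⟨h1, h2⟩
    · exact Or.inl ⟨(mem_lev.1 h1).1, h2⟩
    · exact Or.inr ⟨h1, (mem_lev.1 h2).1⟩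
  have c1 := g5d_count h hC hD hA hB hN
  have c2 := g5d_count h hC hD hA hB hN'
  rw [hmono, hmono, t3] at c2
  omega

end MG

end ML
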