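import Pool.Agent.ML.G5d

/-!
# ML-G5e : crossing, improper-improper
-/

set_option autoImplicit false
set_option linter.unusedSectionVars false
set_option linter.unusedFintypeInType false
set_option linter.unusedVariables false

namespace ML

namespace MG

variable {V E : Type} [Fintype V] [Fintype E] [DecidableEq V] [DecidableEq E]

variable {G : MG V E} {e : E} {X Y : Finset V} {u : V → QZ} {η η' : QZ}

/-- For an edge `C-D` the values of `u` at the two ends determine each other. -/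
private theorem g5e_pt (h : G.C2 e X Y u η η') {σ σ2 : QZ} (hs : σ + σ2 = η - η') {f : E}
    (hf : f ∈ G.F) {a b : V} (hj : G.Jn f a b) :
    (a ∈ lev u (X \ Y) σ ∧ b ∈ Y \ X) ↔ (a ∈ X \ Y ∧ b ∈ lev u (Y \ X) σ2) := by
  rw [mem_lev, mem_lev]
  by_cases ha : a ∈ X \ Y
  · by_cases hb : b ∈ Y \ X
    · have h1 := h.st hf hj
      have ha' := Finset.mem_sdiff.1 ha
      have hb' := Finset.mem_sdiff.1 hb
      rw [if_neg (by tauto), if_neg (by tauto), ← hs] at h1
      constructor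
      · rintro ⟨⟨_, h2⟩, _⟩
        rw [h2] at h1
        exact ⟨ha, hb, add_left_cancel h1⟩
      · rintro ⟨_, _, h2⟩
        rw [h2] at h1
        exact ⟨⟨ha, add_right_cancel h1⟩, hb⟩
    · constructor
      · rintro ⟨_, h2⟩
        exact absurd h2 hb
      · rintro ⟨_, h2, _⟩
        exact absurd h2 hb
  · constructor
    · rintro ⟨⟨h2, _⟩, _⟩
      exact absurd h2 ha
    · rintro ⟨h2, _⟩
      exact absurd h2 ha

private theorem g5e_btw (h : G.C2 e X Y u η η') {σ σ2 : QZ} (hs : σ + σ2 = η - η') :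
    G.btw (lev u (X \ Y) σ) (Y \ X) = G.btw (lev u (Y \ X) σ2) (X \ Y) := by
  unfold btw
  apply Finset.filter_congr
  intro f hf
  have h1 := g5e_pt h hs hf (jn_self (G := G) f)
  have h2 := g5e_pt h hs hf (jn_self (G := G) f).symm
  rw [h1]
  constructor
  · rintro (k | k)
    · exact Or.inr k
    · exact Or.inl (and_comm.1 (h2.1 (and_comm.1 k)))
  · rintro (k | k)
    · exact Or.inr (and_comm.1 (h2.2 (and_comm.1 k)))
    · exact Or.inl k

private theorem g5e_lev (u : V → QZ) (W : Finset V) (t : QZ) :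
    lev (fun v => - u v) W t = lev u W (-t) := by
  ext v
  rw [mem_lev, mem_lev]
  constructor
  · rintro ⟨h1, h2⟩
    exact ⟨h1, by rw [← h2, neg_neg]⟩
  · rintro ⟨h1, h2⟩
    exact ⟨h1, by rw [h2, neg_neg]⟩

/-- `A` and `B` improper: impossible.

Proof. Claim: every perfect matching `N` has `|N ∩ cut X| = |N ∩ cut Y|`; contradiction to `h.np`. By
`cntX`, `cntY` this means `a2 + b1 = a1 + b2` where `a1 = #(A-C)`, `a2 = #(A-D)`, `b1 = #(C-B)`,
`b2 = #(D-B)`. `II_C` for `h` gives `a1 + x₊ = b1 + x₋`, for `h.swap` (use `tot_neg`, `Finset.inter_comm`,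
`pB_swap`; `lev (fun v => - u v) W t = lev u W (-t)`) it gives `a2 + y₊ = b2 + y₋` with
`y₊` = number of `N`-edges `D-C` whose `D`-end has `u = τ2 := η - tA`, `y₋` those with `u = -τ2`.
It is enough that `x₊ = y₊` and `x₋ = y₋`: the only possible `N`-edge `C-D` is `e` (`noCD`); if
`e = d d'`, `d ∈ C`, `d' ∈ D` then `u d + u d' = η - η'` (`h.st`), `u d = ± τ`, `u d' = ± τ2` (`pmC`, `pmD`) with
`τ + τ2 = η - η' - 2 tA = η - η'`; `2 (η - η') = 0` (`sumAB`); mixed signs: `τ - τ2 = -η' - η` resp.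
`τ2 - τ = η + η'` would give `2 η = 0` resp. `2 η' = 0`. So the signs agree. -/
theorem C2.cross_II (h : G.C2 e X Y u η η') (hC : (X \ Y).Nonempty) (hD : (Y \ X).Nonempty)
    (hA : (2 : ℤ) • tot u (X ∩ Y) = 0) (hB : (2 : ℤ) • tot u (G.pB X Y) = 0) : False := by
  obtain ⟨N, hN, hne⟩ := h.np
  apply hne
  have i1 := h.II_C hC hD hA hB hN
  have hA' : (2 : ℤ) • tot (fun v => - u v) (Y ∩ X) = 0 := by
    rw [tot_neg, smul_neg, Finset.inter_comm, hA, neg_zero]
  have hB' : (2 : ℤ) • tot (fun v => - u v) (G.pB Y X) = 0 := by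
    rw [tot_neg, smul_neg, pB_swap, hB, neg_zero]
  have i2 := h.swap.II_C hD hC hA' hB' hN
  rw [g5e_lev, g5e_lev, tot_neg, Finset.inter_comm Y X, pB_swap] at i2
  have hsum := h.sumAB hC hD
  have hAA := eq_neg_of_two hA
  have hs1 : (- η' - tot u (X ∩ Y)) + (- (- η - - tot u (X ∩ Y))) = η - η' := by
    have : (- η' - tot u (X ∩ Y)) + (- (- η - - tot u (X ∩ Y))) =
        η - η' - (2 : ℤ) • tot u (X ∩ Y) := by
      rw [two_zsmul]; abel
    rw [this, hA, sub_zero]
  have h2 : (2 : ℤ) • (η - η') = 0 := by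
    rw [← hsum, smul_add, hA, hB, add_zero]
  have hs2 : (- (- η' - tot u (X ∩ Y))) + (- (- (- η - - tot u (X ∩ Y)))) = η - η' := by
    have h3 : (- (- η' - tot u (X ∩ Y))) + (- (- (- η - - tot u (X ∩ Y)))) =
        - ((- η' - tot u (X ∩ Y)) + (- (- η - - tot u (X ∩ Y)))) := by abel
    rw [h3, hs1]
    exact (eq_neg_of_two h2).symm
  rw [g5e_btw h hs1, g5e_btw h hs2] at i1
  have c1 := h.cntX hN.1
  have c2 := h.cntY hN.1
  rw [c1, c2]
  omega

end MG

end ML
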