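import Pool.Agent.ML.G4

/-!
# ML-G5f : laminar case, first part
-/

set_option autoImplicit false
set_option linter.unusedSectionVars false
set_option linter.unusedFintypeInType false
set_option linter.unusedVariables false

namespace ML

namespace MG

variable {V E : Type} [Fintype V] [Fintype E] [DecidableEq V] [DecidableEq E]

variable {G : MG V E} {e : E} {X Y : Finset V} {u : V → QZ} {η η' : QZ}

/-- Laminar case: `D` nonempty, `A`, `B` improper.

Proof. `X ⊆ Y`, so `X ∩ Y = X` and `cut (X ∩ Y) = cut X`, `pB = U \ Y`, `cut pB = cut Y` (`gcut_compl`).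
`Y \ X = ∅` would give `X = Y`, contradiction to `h.np`. If `2 tA ≠ 0`: `h.P2` (`3 ≤ |X|`) with
`N ∋ e` (`h.exe`): `|N ∩ cut X| = 3`, `no3X`. If `2 tB ≠ 0`: `h.P2B` (`|U \ Y| ≥ 3`): `|N ∩ cut Y| = 3`. -/
theorem C2.lam_zero (h : G.C2 e X Y u η η') (hC : X \ Y = ∅) :
    (Y \ X).Nonempty ∧ (2 : ℤ) • tot u (X ∩ Y) = 0 ∧ (2 : ℤ) • tot u (G.pB X Y) = 0 := by
  have hXY : X ⊆ Y := Finset.sdiff_eq_empty_iff_subset.1 hC
  have hA : X ∩ Y = X := Finset.inter_eq_left.2 hXY
  have hB : G.pB X Y = G.U \ Y := by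
    unfold pB
    rw [Finset.union_eq_right.2 hXY]
  obtain ⟨N, hN, heN⟩ := h.exe
  refine ⟨?_, ?_, ?_⟩
  · by_contra hne
    rw [Finset.not_nonempty_iff_eq_empty] at hne
    have hYX : Y ⊆ X := Finset.sdiff_eq_empty_iff_subset.1 hne
    have hEq : X = Y := Finset.Subset.antisymm hXY hYX
    obtain ⟨N', _, h2⟩ := h.np
    apply h2
    rw [hEq]
  · by_contra ht
    have h3 : 3 ≤ (X ∩ Y).card := by
      rw [hA]; exact h.ntX.2.2.1
    have h4 := (h.P2 ht h3).2 N hN heN
    rw [hA] at h4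
    exact h.no3X hN h4
  · by_contra ht
    have h3 : 3 ≤ (G.pB X Y).card := by
      rw [hB, Finset.card_sdiff_of_subset h.YU]
      have := h.ntY.2.2.2
      omega
    have h4 := (h.P2B ht h3).2 N hN heN
    rw [hB, gcut_compl h.YU] at h4
    exact h.no3Y hN h4

/-- Laminar case: the two exit values of `D` agree up to sign, and `u = ± p` on `D`,
`p = η - tA`, `q = - η' - tB`.

Proof. Edges other than `e` (H-edges): `D-A` have `u = p` at the `D`-end (`endDA`), `D-B` have `u = q`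
(`endDB`), inside `D` opposite values (`h.st`). `K` := vertices of `D` with `u = ± p`.
(1) Suppose `q ≠ p`, `q ≠ -p`. Then no H-edge joins `K` with `B`, none joins `D \ K` with `A`, none joins `K`
with `D \ K`. `W := A ∪ K`. For `N` without `e`: `N ∩ cut W = N ∩ btw A B`. `|N ∩ cut W| = |W| mod 2`
(`IsPM.jcard`). If `|K|` is even then `|W|` is odd, so `#(A-B)` is odd, and `= 1` by `types`, so
`#(A-D) = #(D-B) = 0` for every such `N`; by `h.ext` there is no H-edge leaving `D`: contradiction to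
`h.exit` for `D` (nonempty by `lam_zero`, `D ≠ U`). If `|K|` is odd then `#(A-B)` is even, so `0` for every
such `N`, and there is no H-edge leaving `W`: contradiction to `h.exit` for `W` (`A ⊆ W` nonempty, `B`
nonempty). Here `C = ∅`.
(2) So `q = ± p`. Then all H-edges leaving `D` start in `K` and no H-edge joins `K` with `D \ K`:
`D \ K = ∅` by `h.exit`. -/
theorem C2.lam_pq (h : G.C2 e X Y u η η') (hC : X \ Y = ∅) :
    (- η' - tot u (G.pB X Y) = η - tot u (X ∩ Y) ∨
      - η' - tot u (G.pB X Y) = - (η - tot u (X ∩ Y))) ∧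
    ∀ d ∈ Y \ X, u d = η - tot u (X ∩ Y) ∨ u d = - (η - tot u (X ∩ Y)) := by
  classical
  have hXY : X ⊆ Y := Finset.sdiff_eq_empty_iff_subset.1 hC
  set p : QZ := η - tot u (X ∩ Y) with hp
  set q : QZ := - η' - tot u (G.pB X Y) with hq
  have hDU : Y \ X ⊆ G.U := Finset.sdiff_subset.trans h.YU
  have hAU : X ∩ Y ⊆ G.U := Finset.inter_subset_left.trans h.XU
  have hBU : G.pB X Y ⊆ G.U := Finset.sdiff_subset
  have hDne : (Y \ X).Nonempty := (h.lam_zero hC).1
  have hBne : (G.pB X Y).Nonempty := by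
    rw [← Finset.card_pos]
    exact h.oddB.pos
  have hAne : (X ∩ Y).Nonempty := by
    rw [← Finset.card_pos]
    exact h.odd.pos
  -- the three parts
  have hpart : ∀ v ∈ G.U, v ∈ X ∩ Y ∨ v ∈ G.pB X Y ∨ v ∈ Y \ X := by
    intro v hv
    unfold pB
    simp only [Finset.mem_inter, Finset.mem_sdiff, Finset.mem_union]
    by_cases h1 : v ∈ X
    · exact Or.inl ⟨h1, hXY h1⟩
    · by_cases h2 : v ∈ Y
      · exact Or.inr (Or.inr ⟨h2, h1⟩)
      · exact Or.inr (Or.inl ⟨hv, by tauto⟩)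
  have hAD : ∀ v, v ∈ X ∩ Y → v ∉ Y \ X := by
    intro v h1 h2
    exact (Finset.mem_sdiff.1 h2).2 (Finset.mem_inter.1 h1).1
  have hAB : ∀ v, v ∈ X ∩ Y → v ∉ G.pB X Y := by
    intro v h1 h2
    unfold pB at h2
    exact (Finset.mem_sdiff.1 h2).2 (Finset.mem_union_left _ (Finset.mem_inter.1 h1).1)
  have hBD : ∀ v, v ∈ G.pB X Y → v ∉ Y \ X := by
    intro v h1 h2
    unfold pB at h1
    exact (Finset.mem_sdiff.1 h1).2 (Finset.mem_union_right _ (Finset.mem_sdiff.1 h2).1)
  -- edges inside `D`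
  have hDD : ∀ f ∈ G.F, ∀ a b, G.Jn f a b → a ∈ Y \ X → b ∈ Y \ X → u a + u b = 0 := by
    intro f hf a b hj ha hb
    rw [Finset.mem_sdiff] at ha hb
    have := h.st hf hj
    rw [if_pos (iff_of_false ha.2 hb.2), if_pos (iff_of_true ha.1 hb.1), sub_zero] at this
    exact this
  -- `K`
  set K : Finset V := (Y \ X).filter (fun v => u v = p ∨ u v = -p) with hK
  have hmK : ∀ v, v ∈ K ↔ v ∈ Y \ X ∧ (u v = p ∨ u v = -p) := by
    intro v
    rw [hK, Finset.mem_filter]
  -- no edge between `K` and `D \ K`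
  have hKD : ∀ f ∈ G.F, ∀ a b, G.Jn f a b → a ∈ K → b ∈ Y \ X → b ∈ K := by
    intro f hf a b hj ha hb
    rw [hmK] at ha ⊢
    have h1 := hDD f hf a b hj ha.1 hb
    have h2 : u b = - u a := eq_neg_of_add_eq_zero_right h1
    refine ⟨hb, ?_⟩
    rcases ha.2 with h3 | h3
    · right; rw [h2, h3]
    · left; rw [h2, h3, neg_neg]
  -- edges from `D` to `A` start in `K`
  have hKA : ∀ f ∈ G.F, f ≠ e → ∀ a b, G.Jn f a b → a ∈ Y \ X → b ∈ X ∩ Y → a ∈ K := by
    intro f hf hfe a b hj ha hb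
    rw [hmK]
    exact ⟨ha, Or.inl (h.endDA hf hfe hj ha hb)⟩
  have hqB : ∀ f ∈ G.F, f ≠ e → ∀ a b, G.Jn f a b → a ∈ Y \ X → b ∈ G.pB X Y → u a = q := by
    intro f hf hfe a b hj ha hb
    exact h.endDB hf hfe hj ha hb
  have key : q = p ∨ q = -p := by
    by_contra hcon
    push Not at hcon
    obtain ⟨hq1, hq2⟩ := hcon
    -- no H-edge from `K` to `B`
    have hKB : ∀ f ∈ G.F, f ≠ e → ∀ a b, G.Jn f a b → a ∈ K → b ∉ G.pB X Y := by
      intro f hf hfe a b hj ha hb
      rw [hmK] at ha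
      have h1 := hqB f hf hfe a b hj ha.1 hb
      rcases ha.2 with h2 | h2
      · exact hq1 (h1.symm.trans h2)
      · exact hq2 (h1.symm.trans h2)
    set W : Finset V := (X ∩ Y) ∪ K with hW
    have hKsub : K ⊆ Y \ X := Finset.filter_subset _ _
    have hWU : W ⊆ G.U := Finset.union_subset hAU (hKsub.trans hDU)
    -- exits of `W`
    have hWex : ∀ f ∈ G.F, f ≠ e → ∀ a b, G.Jn f a b → a ∈ W → b ∉ W → b ∈ G.U →
        a ∈ X ∩ Y ∧ b ∈ G.pB X Y := by
      intro f hf hfe a b hj ha hb hbU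
      rw [hW, Finset.mem_union] at ha hb
      push Not at hb
      rcases hpart b hbU with h1 | h1 | h1
      · exact absurd h1 hb.1
      · rcases ha with ha | ha
        · exact ⟨ha, h1⟩
        · exact absurd h1 (hKB f hf hfe a b hj ha)
      · exfalso
        rcases ha with ha | ha
        · exact hb.2 (hKA f hf hfe b a hj.symm h1 ha)
        · exact hb.2 (hKD f hf a b hj ha h1)
    have hBW : ∀ v, v ∈ G.pB X Y → v ∉ W := by
      intro v hv hvW
      rw [hW, Finset.mem_union] at hvW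
      rcases hvW with h1 | h1
      · exact hAB v h1 hv
      · exact hBD v hv (hKsub h1)
    have hcutW : ∀ N, G.IsPM N → e ∉ N → N ∩ G.cut W = N ∩ G.btw (X ∩ Y) (G.pB X Y) := by
      intro N hN heN
      ext f
      rw [Finset.mem_inter, Finset.mem_inter]
      constructor
      · rintro ⟨hfN, hfc⟩
        refine ⟨hfN, ?_⟩
        have hfF := hN.1 hfN
        have hfe : f ≠ e := fun h => heN (h ▸ hfN)
        have hj := jn_self (G := G) f
        rw [hj.mem_cut hfF] at hfc
        rw [hj.mem_btw hfF]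
        by_cases c : G.s f ∈ W
        · have c' : G.t f ∉ W := fun h => hfc (iff_of_true c h)
          exact Or.inl (hWex f hfF hfe _ _ hj c c' (G.ht f hfF))
        · have c' : G.t f ∈ W := by
            by_contra h
            exact hfc (iff_of_false c h)
          have := hWex f hfF hfe _ _ hj.symm c' c (G.hs f hfF)
          exact Or.inr ⟨this.2, this.1⟩
      · rintro ⟨hfN, hfc⟩
        refine ⟨hfN, ?_⟩
        have hfF := hN.1 hfN
        have hj := jn_self (G := G) f
        rw [hj.mem_btw hfF] at hfc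
        rw [hj.mem_cut hfF]
        intro hiff
        rcases hfc with ⟨h1, h2⟩ | ⟨h1, h2⟩
        · exact hBW _ h2 (hiff.1 (Finset.mem_union_left _ h1))
        · exact hBW _ h1 (hiff.2 (Finset.mem_union_left _ h2))
    have hWcard : W.card = (X ∩ Y).card + K.card := by
      rw [hW, Finset.card_union_of_disjoint]
      rw [Finset.disjoint_left]
      intro v h1 h2
      exact hAD v h1 (hKsub h2)
    rcases Nat.even_or_odd K.card with hKc | hKc
    · -- `K` even: `W` odd
      have hWo : Odd W.card := by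
        rw [hWcard]
        exact h.odd.add_even hKc
      have hDn : (Y \ X) ≠ G.U := by
        intro h1
        obtain ⟨v, hv⟩ := hBne
        exact hBD v hv (h1 ▸ hBU hv)
      obtain ⟨f, hf, hfe, a, b, hj, ha, hb, hbU⟩ := h.exit hDU hDne hDn
      obtain ⟨N, hN, heN, hfN⟩ := h.ext hf hfe
      have h1 := hN.jodd hWU hWo
      rw [hcutW N hN heN] at h1
      obtain ⟨_, t2, _, t4⟩ := h.types hN heN
      have h2 := h1.pos
      have h3 : (N ∩ G.btw (X ∩ Y) (Y \ X)).card = 0 := by omega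
      have h4 : (N ∩ G.btw (Y \ X) (G.pB X Y)).card = 0 := by omega
      rw [Finset.card_eq_zero] at h3 h4
      rcases hpart b hbU with h5 | h5 | h5
      · have h6 : f ∈ N ∩ G.btw (X ∩ Y) (Y \ X) :=
          Finset.mem_inter.2 ⟨hfN, (hj.mem_btw hf _ _).2 (Or.inr ⟨ha, h5⟩)⟩
        rw [h3] at h6
        exact absurd h6 (Finset.notMem_empty f)
      · have h6 : f ∈ N ∩ G.btw (Y \ X) (G.pB X Y) :=
          Finset.mem_inter.2 ⟨hfN, (hj.mem_btw hf _ _).2 (Or.inl ⟨ha, h5⟩)⟩
        rw [h4] at h6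
        exact absurd h6 (Finset.notMem_empty f)
      · exact hb h5
    · -- `K` odd: `W` even
      have hWe : Even W.card := by
        rw [hWcard]
        exact h.odd.add_odd hKc
      have hWn : W ≠ G.U := by
        intro h1
        obtain ⟨v, hv⟩ := hBne
        exact hBW v hv (h1 ▸ hBU hv)
      have hWne : W.Nonempty := hAne.mono Finset.subset_union_left
      obtain ⟨f, hf, hfe, a, b, hj, ha, hb, hbU⟩ := h.exit hWU hWne hWn
      obtain ⟨N, hN, heN, hfN⟩ := h.ext hf hfe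
      have h1 := hN.jcard hWU
      obtain ⟨_, t2, _, _⟩ := h.types hN heN
      have h2 := hcutW N hN heN
      have h3 : (N ∩ G.cut W).card ≤ 1 := by
        rw [h2]; omega
      have h4 : f ∈ N ∩ G.cut W :=
        Finset.mem_inter.2 ⟨hfN, (hj.mem_cut hf W).2 (fun hi => hb (hi.1 ha))⟩
      have h5 : 0 < (N ∩ G.cut W).card := Finset.card_pos.2 ⟨f, h4⟩
      have h6 : (N ∩ G.cut W).card = 1 := by omega
      rw [h6] at h1
      rw [h1, Nat.even_iff] at hWe
      omega
  refine ⟨key, ?_⟩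
  by_contra hcon
  push Not at hcon
  obtain ⟨d, hd, hd1, hd2⟩ := hcon
  have hWU : (Y \ X) \ K ⊆ G.U := Finset.sdiff_subset.trans hDU
  have hdW : d ∈ (Y \ X) \ K := by
    rw [Finset.mem_sdiff]
    refine ⟨hd, fun h1 => ?_⟩
    rw [hmK] at h1
    rcases h1.2 with h2 | h2
    · exact hd1 h2
    · exact hd2 h2
  have hWn : (Y \ X) \ K ≠ G.U := by
    intro h1
    obtain ⟨v, hv⟩ := hBne
    have h2 : v ∈ (Y \ X) \ K := h1 ▸ hBU hv
    exact hBD v hv (Finset.mem_sdiff.1 h2).1
  obtain ⟨f, hf, hfe, a, b, hj, ha, hb, hbU⟩ := h.exit hWU ⟨d, hdW⟩ hWn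
  rw [Finset.mem_sdiff] at ha hb
  rcases hpart b hbU with h1 | h1 | h1
  · exact ha.2 (hKA f hf hfe a b hj ha.1 h1)
  · apply ha.2
    rw [hmK]
    have h2 := hqB f hf hfe a b hj ha.1 h1
    refine ⟨ha.1, ?_⟩
    rw [h2]
    exact key
  · have h2 : b ∈ K := by
      by_contra h3
      exact hb ⟨h1, h3⟩
    exact ha.2 (hKD f hf b a hj.symm h2 ha.1)

end MG

end ML
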