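import Pool.Agent.ML.G5f

/-!
# ML-G5g : laminar case, `q = -p`
-/

set_option autoImplicit false
set_option linter.unusedSectionVars false
set_option linter.unusedFintypeInType false
set_option linter.unusedVariables false

namespace ML

namespace MG

variable {V E : Type} [Fintype V] [Fintype E] [DecidableEq V] [DecidableEq E]

variable {G : MG V E} {e : E} {X Y : Finset V} {u : V → QZ} {η η' : QZ}

/-- Laminar case with `q = -p`: impossible.

Proof. `2 p = 2 η ≠ 0` (`2 tA = 0` by `lam_zero`). `P = lev u D p`, `Q = lev u D (-p)`, `P ∪ Q = D` (`lam_pq`).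
Values on `A`, `B`: `u = tA` resp. `u = tB` everywhere (`pmA`, `pmB`, `lam_zero`, `eq_neg_of_two`). For EVERY
edge of `G` (also `e`): `A-D` has `u d = η - tA = p` at the `D`-end (`h.st`), `D-B` has
`u d = -η' - tB = q = -p`, inside `D`: opposite values. So for every perfect matching `N`:
`IsPM.signed`: `|P| + #(D-B) = |Q| + #(A-D)`. For `N` without `e`, `types` gives `#(A-D) = #(D-B)`, so
`|P| = |Q|`, so `#(A-D) = #(D-B)` for every `N`, and `cntX`, `cntY` (with `C = ∅`: all `btw` with `X \ Y`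
are empty) give `|N ∩ cut X| = #(A-B) + #(A-D) = #(A-B) + #(D-B) = |N ∩ cut Y|`: contradiction to
`h.np`. -/
theorem C2.lam_neg (h : G.C2 e X Y u η η') (hC : X \ Y = ∅)
    (hq : - η' - tot u (G.pB X Y) = - (η - tot u (X ∩ Y))) : False := by
  obtain ⟨hD, h2A, h2B⟩ := h.lam_zero hC
  have hpq := (h.lam_pq hC).2
  set p : QZ := η - tot u (X ∩ Y) with hp
  have h2p : (2 : ℤ) • p ≠ 0 := by
    rw [hp, smul_sub, h2A, sub_zero]
    exact h.hη
  have hpn : p ≠ -p := ne_neg_of_two h2p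
  have hXY : ∀ v, v ∈ X → v ∈ Y := by
    intro v hv
    by_contra hv'
    have : v ∈ X \ Y := Finset.mem_sdiff.2 ⟨hv, hv'⟩
    rw [hC] at this
    exact absurd this (Finset.notMem_empty v)
  have huA : ∀ a ∈ X ∩ Y, u a = tot u (X ∩ Y) := by
    intro a ha
    rcases h.pmA ha with h1 | h1
    · exact h1
    · rw [h1]; exact (eq_neg_of_two h2A).symm
  have huB : ∀ b ∈ G.pB X Y, u b = tot u (G.pB X Y) := by
    intro b hb
    rcases h.pmB hb with h1 | h1
    · exact h1
    · rw [h1]; exact (eq_neg_of_two h2B).symm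
  -- classification of the ends outside `D`
  have hcl : ∀ b, b ∈ G.U → b ∉ Y \ X → b ∈ X ∩ Y ∨ b ∈ G.pB X Y := by
    intro b hbU hb
    rw [Finset.mem_sdiff] at hb
    unfold pB
    rw [Finset.mem_inter, Finset.mem_sdiff, Finset.mem_union]
    by_cases c : b ∈ X
    · exact Or.inl ⟨c, hXY b c⟩
    · right
      exact ⟨hbU, by tauto⟩
  have hDA : ∀ f ∈ G.F, ∀ a b, G.Jn f a b → a ∈ Y \ X → b ∈ X ∩ Y → u a = p := by
    intro f hf a b hj ha hb
    have h1 := h.st hf hj
    rw [Finset.mem_sdiff] at ha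
    rw [huA b hb] at h1
    rw [Finset.mem_inter] at hb
    rw [if_neg (by tauto), if_pos (by tauto), sub_zero] at h1
    rw [hp, ← h1]
    abel
  have hDB : ∀ f ∈ G.F, ∀ a b, G.Jn f a b → a ∈ Y \ X → b ∈ G.pB X Y → u a = -p := by
    intro f hf a b hj ha hb
    have h1 := h.st hf hj
    rw [Finset.mem_sdiff] at ha
    rw [huB b hb] at h1
    unfold pB at hb
    rw [Finset.mem_sdiff, Finset.mem_union] at hb
    rw [if_pos (by tauto), if_neg (by tauto), zero_sub] at h1
    rw [← hq, ← h1]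
    unfold pB
    abel
  have hDD : ∀ f ∈ G.F, ∀ a b, G.Jn f a b → a ∈ Y \ X → b ∈ Y \ X → u a + u b = 0 := by
    intro f hf a b hj ha hb
    have h1 := h.st hf hj
    rw [Finset.mem_sdiff] at ha hb
    rw [if_pos (by tauto), if_pos (by tauto), sub_zero] at h1
    exact h1
  set P : Finset V := lev u (Y \ X) p with hP
  set Q : Finset V := lev u (Y \ X) (-p) with hQ
  have hPD : ∀ v, v ∈ P → v ∈ Y \ X := fun v hv => (mem_lev.1 hv).1
  have hQD : ∀ v, v ∈ Q → v ∈ Y \ X := fun v hv => (mem_lev.1 hv).1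
  have hU : ∀ v, v ∈ Y \ X → v ∈ G.U := fun v hv => h.YU (Finset.mem_sdiff.1 hv).1
  have hPQ : Disjoint P Q := by
    rw [Finset.disjoint_left]
    intro v hv hv'
    exact hpn ((mem_lev.1 hv).2.symm.trans (mem_lev.1 hv').2)
  have hun : ∀ v, v ∈ P ∪ Q ↔ v ∈ Y \ X := by
    intro v
    rw [Finset.mem_union]
    constructor
    · rintro (hv | hv)
      · exact hPD v hv
      · exact hQD v hv
    · intro hv
      rcases hpq v hv with h1 | h1
      · exact Or.inl (mem_lev.2 ⟨hv, h1⟩)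
      · exact Or.inr (mem_lev.2 ⟨hv, h1⟩)
  have hAnD : ∀ v, v ∈ X ∩ Y → v ∉ Y \ X := by
    intro v hv hv'
    rw [Finset.mem_inter] at hv
    rw [Finset.mem_sdiff] at hv'
    exact hv'.2 hv.1
  have hBnD : ∀ v, v ∈ G.pB X Y → v ∉ Y \ X := by
    intro v hv hv'
    unfold pB at hv
    rw [Finset.mem_sdiff, Finset.mem_union] at hv
    rw [Finset.mem_sdiff] at hv'
    exact hv.2 (Or.inr hv'.1)
  have hAU : ∀ v, v ∈ X ∩ Y → v ∈ G.U := fun v hv => h.XU (Finset.mem_inter.1 hv).1
  have hBU : ∀ v, v ∈ G.pB X Y → v ∈ G.U := fun v hv => (Finset.mem_sdiff.1 hv).1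
  -- the two exit sets
  have e1 : G.btw P (G.U \ (P ∪ Q)) = G.btw (X ∩ Y) (Y \ X) := by
    ext f
    by_cases hf : f ∈ G.F
    · have key : ∀ a b, G.Jn f a b → (a ∈ P ∧ b ∈ G.U \ (P ∪ Q) → b ∈ X ∩ Y ∧ a ∈ Y \ X) ∧
          (b ∈ X ∩ Y ∧ a ∈ Y \ X → a ∈ P ∧ b ∈ G.U \ (P ∪ Q)) := by
        intro a b hj
        constructor
        · rintro ⟨ha, hb⟩
          rw [Finset.mem_sdiff, hun] at hb
          refine ⟨?_, hPD a ha⟩
          rcases hcl b hb.1 hb.2 with h1 | h1
          · exact h1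
          · exfalso
            have h2 := hDB f hf a b hj (hPD a ha) h1
            exact hpn ((mem_lev.1 ha).2.symm.trans h2)
        · rintro ⟨hb, ha⟩
          refine ⟨mem_lev.2 ⟨ha, hDA f hf a b hj ha hb⟩, ?_⟩
          rw [Finset.mem_sdiff, hun]
          exact ⟨hAU b hb, hAnD b hb⟩
      rw [(jn_self (G := G) f).mem_btw hf, (jn_self (G := G) f).mem_btw hf]
      have k1 := key _ _ (jn_self f)
      have k2 := key _ _ (jn_self f).symm
      constructor
      · rintro (h1 | h1)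
        · exact Or.inr ⟨(k1.1 h1).2, (k1.1 h1).1⟩
        · exact Or.inl (k2.1 ⟨h1.2, h1.1⟩)
      · rintro (h1 | h1)
        · exact Or.inr ⟨(k2.2 h1).2, (k2.2 h1).1⟩
        · exact Or.inl (k1.2 ⟨h1.2, h1.1⟩)
    · have n1 : ∀ A B, f ∉ G.btw A B := fun A B h => hf (Finset.mem_filter.1 h).1
      constructor
      · intro h1; exact absurd h1 (n1 _ _)
      · intro h1; exact absurd h1 (n1 _ _)
  have e2 : G.btw Q (G.U \ (P ∪ Q)) = G.btw (Y \ X) (G.pB X Y) := by
    ext f
    by_cases hf : f ∈ G.F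
    · have key : ∀ a b, G.Jn f a b → (a ∈ Q ∧ b ∈ G.U \ (P ∪ Q) → a ∈ Y \ X ∧ b ∈ G.pB X Y) ∧
          (a ∈ Y \ X ∧ b ∈ G.pB X Y → a ∈ Q ∧ b ∈ G.U \ (P ∪ Q)) := by
        intro a b hj
        constructor
        · rintro ⟨ha, hb⟩
          rw [Finset.mem_sdiff, hun] at hb
          refine ⟨hQD a ha, ?_⟩
          rcases hcl b hb.1 hb.2 with h1 | h1
          · exfalso
            have h2 := hDA f hf a b hj (hQD a ha) h1
            exact hpn (h2.symm.trans (mem_lev.1 ha).2)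
          · exact h1
        · rintro ⟨ha, hb⟩
          refine ⟨mem_lev.2 ⟨ha, hDB f hf a b hj ha hb⟩, ?_⟩
          rw [Finset.mem_sdiff, hun]
          exact ⟨hBU b hb, hBnD b hb⟩
      rw [(jn_self (G := G) f).mem_btw hf, (jn_self (G := G) f).mem_btw hf]
      have k1 := key _ _ (jn_self f)
      have k2 := key _ _ (jn_self f).symm
      constructor
      · rintro (h1 | h1)
        · exact Or.inl (k1.1 h1)
        · exact Or.inr ⟨(k2.1 ⟨h1.2, h1.1⟩).2, (k2.1 ⟨h1.2, h1.1⟩).1⟩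
      · rintro (h1 | h1)
        · exact Or.inl (k1.2 h1)
        · exact Or.inr ⟨(k2.2 ⟨h1.2, h1.1⟩).2, (k2.2 ⟨h1.2, h1.1⟩).1⟩
    · have n1 : ∀ A B, f ∉ G.btw A B := fun A B h => hf (Finset.mem_filter.1 h).1
      constructor
      · intro h1; exact absurd h1 (n1 _ _)
      · intro h1; exact absurd h1 (n1 _ _)
  have hsig : ∀ N, G.IsPM N → P.card + (N ∩ G.btw (Y \ X) (G.pB X Y)).card
      = Q.card + (N ∩ G.btw (X ∩ Y) (Y \ X)).card := by
    intro N hN
    have h1 := hN.signed hPQ (fun v hv => hU v (hPD v hv)) (fun v hv => hU v (hQD v hv)) (by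
      intro f hf a b hj ha hb
      rw [hun] at ha hb
      have h2 := hDD f (hN.1 hf) a b hj ha hb
      have h3 : u b = - u a := (neg_eq_of_add_eq_zero_right h2).symm
      rcases hpq a ha with h4 | h4
      · left
        refine ⟨mem_lev.2 ⟨ha, h4⟩, mem_lev.2 ⟨hb, ?_⟩⟩
        rw [h3, h4]
      · right
        refine ⟨mem_lev.2 ⟨ha, h4⟩, mem_lev.2 ⟨hb, ?_⟩⟩
        rw [h3, h4, neg_neg])
    rw [e1, e2] at h1
    exact h1
  have hcard : P.card = Q.card := by
    obtain ⟨N, hN, he⟩ := h.exn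
    have h1 := hsig N hN
    have h2 := (h.types hN he).2.2.2
    omega
  obtain ⟨N, hN, hne⟩ := h.np
  apply hne
  have h1 := hsig N hN
  have hbe : ∀ A : Finset V, G.btw ∅ A = ∅ := by
    intro A
    unfold btw
    rw [Finset.filter_eq_empty_iff]
    intro f _ hcon
    rcases hcon with hcon | hcon
    · exact absurd hcon.1 (Finset.notMem_empty _)
    · exact absurd hcon.2 (Finset.notMem_empty _)
  have hbe' : ∀ A : Finset V, G.btw A ∅ = ∅ := by
    intro A
    unfold btw
    rw [Finset.filter_eq_empty_iff]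
    intro f _ hcon
    rcases hcon with hcon | hcon
    · exact absurd hcon.2 (Finset.notMem_empty _)
    · exact absurd hcon.1 (Finset.notMem_empty _)
  have hX := h.cntX hN.1
  have hY := h.cntY hN.1
  rw [hC, hbe, hbe, Finset.inter_empty, Finset.card_empty] at hX
  rw [hC, hbe, hbe', Finset.inter_empty, Finset.card_empty] at hY
  omega

end MG

end ML
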