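import Pool.Agent.ML.G5f

/-!
# ML-G5h : laminar case, `q = p`
-/

set_option autoImplicit false
set_option linter.unusedSectionVars false
set_option linter.unusedFintypeInType false
set_option linter.unusedVariables false

namespace ML

namespace MG

variable {V E : Type} [Fintype V] [Fintype E] [DecidableEq V] [DecidableEq E]

variable {G : MG V E} {e : E} {X Y : Finset V} {u : V → QZ} {η η' : QZ}

theorem g5h_alg1 {η a : QZ} (ha : (2 : ℤ) • a = 0) (hh : η - a = -(η - a)) :
    (2 : ℤ) • η = 0 := by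
  linear_combination (norm := module) hh + ha

theorem g5h_alg2 {η η' a b : QZ} (hb : (2 : ℤ) • b = 0) (h1 : a + b = η - η')
    (hq : -η' - b = η - a) : (2 : ℤ) • η' = 0 := by
  linear_combination (norm := module) h1 - hq - hb

/-- Laminar case with `q = p`: impossible.

Proof. Notation as in `lam_neg`. Now for every edge of `G`: `A-D` and `D-B` have `u = p` at the `D`-end,
inside `D` opposite values; `e` is not an `A-B` edge (otherwise `tA + tB = η - η'` by `h.st`, but
`q = p` says `tA - tB = η + η'`, and `tB = -tB`: `2 η' = 0`). `IsPM.signed`: `|P| = |Q| + #(A-D) + #(D-B)` for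
every perfect matching `N`, so `m := #(A-D) + #(D-B)` does not depend on `N`. `h.exit` for `D` gives
(via `h.ext`) an `N0` without `e` with an edge leaving `D`, by `types` `#(A-D) = #(D-B) = 1`: `m = 2`. For
every `N` without `e`: `#(A-D) = #(D-B) = 1`, so `#(A-B) = 0` (`types`); so `#(A-B) = 0` for all `N` (an
`A-B` edge `≠ e` would be in such an `N`; `e` is not `A-B`). `|N ∩ cut X| = #(A-D)` and
`|N ∩ cut Y| = #(D-B)` (`cntX`, `cntY`) are odd with sum 2: both 1. So `X` is tight: contradiction to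
`h.three h.ntX`. -/
theorem C2.lam_pos (h : G.C2 e X Y u η η') (hC : X \ Y = ∅)
    (hq : - η' - tot u (G.pB X Y) = η - tot u (X ∩ Y)) : False := by
  obtain ⟨hDne, hA2, hB2⟩ := h.lam_zero hC
  obtain ⟨-, hD⟩ := h.lam_pq hC
  have hXY : X ⊆ Y := Finset.sdiff_eq_empty_iff_subset.1 hC
  have hpn : η - tot u (X ∩ Y) ≠ -(η - tot u (X ∩ Y)) := fun hh => h.hη (g5h_alg1 hA2 hh)
  have vA : ∀ a ∈ X ∩ Y, u a = tot u (X ∩ Y) := by
    intro a ha
    rcases h.pmA ha with h1 | h1
    · exact h1
    · rw [h1]; exact (eq_neg_of_two hA2).symm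
  have vB : ∀ a ∈ G.pB X Y, u a = tot u (G.pB X Y) := by
    intro a ha
    rcases h.pmB ha with h1 | h1
    · exact h1
    · rw [h1]; exact (eq_neg_of_two hB2).symm
  -- no `A-B` edges
  have noAB : ∀ f ∈ G.F, ∀ a b, G.Jn f a b → a ∈ X ∩ Y → b ∈ G.pB X Y → False := by
    intro f hf a b hj ha hb
    have hst := h.st hf hj
    have ha' := Finset.mem_inter.1 ha
    have hb' : b ∈ G.U ∧ b ∉ X ∧ b ∉ Y := by
      simpa [pB, Finset.mem_sdiff, Finset.mem_union] using hb
    rw [if_neg (by tauto), if_neg (by tauto), vA a ha, vB b hb] at hst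
    exact h.hη' (g5h_alg2 hB2 hst hq)
  -- the ends in `D` of the edges leaving `D`
  have outD : ∀ f ∈ G.F, ∀ d c, G.Jn f d c → d ∈ Y \ X → c ∉ Y \ X → c ∈ G.U →
      u d = η - tot u (X ∩ Y) := by
    intro f hf d c hj hd hc hcU
    have hst := h.st hf hj
    have hd' := Finset.mem_sdiff.1 hd
    by_cases cX : c ∈ X
    · have cY : c ∈ Y := hXY cX
      rw [if_neg (by tauto), if_pos (by tauto), vA c (Finset.mem_inter.2 ⟨cX, cY⟩)] at hst
      rw [sub_zero] at hst
      exact eq_sub_of_add_eq hst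
    · have cY : c ∉ Y := fun cY => hc (Finset.mem_sdiff.2 ⟨cY, cX⟩)
      have cB : c ∈ G.pB X Y := by
        simp [pB, Finset.mem_sdiff, Finset.mem_union, cX, cY, hcU]
      rw [if_pos (by tauto), if_neg (by tauto), vB c cB] at hst
      rw [zero_sub] at hst
      rw [← hq]
      exact eq_sub_of_add_eq hst
  have inD : ∀ f ∈ G.F, ∀ d c, G.Jn f d c → d ∈ Y \ X → c ∈ Y \ X → u d + u c = 0 := by
    intro f hf d c hj hd hc
    have hst := h.st hf hj
    have hd' := Finset.mem_sdiff.1 hd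
    have hc' := Finset.mem_sdiff.1 hc
    rw [if_pos (by tauto), if_pos (by tauto), sub_zero] at hst
    exact hst
  -- the two classes
  have hPQ : lev u (Y \ X) (η - tot u (X ∩ Y)) ∪ lev u (Y \ X) (-(η - tot u (X ∩ Y))) = Y \ X := by
    ext v
    rw [Finset.mem_union, mem_lev, mem_lev]
    constructor
    · rintro (h1 | h1) <;> exact h1.1
    · intro hv
      rcases hD v hv with h1 | h1
      · exact Or.inl ⟨hv, h1⟩
      · exact Or.inr ⟨hv, h1⟩
  have hdis : Disjoint (lev u (Y \ X) (η - tot u (X ∩ Y)))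
      (lev u (Y \ X) (-(η - tot u (X ∩ Y)))) := by
    rw [Finset.disjoint_left]
    intro v h1 h2
    rw [mem_lev] at h1 h2
    exact hpn (h1.2.symm.trans h2.2)
  have hDU : Y \ X ⊆ G.U := fun v hv => h.YU (Finset.mem_sdiff.1 hv).1
  have hPU : lev u (Y \ X) (η - tot u (X ∩ Y)) ⊆ G.U := fun v hv => hDU (mem_lev.1 hv).1
  have hQU : lev u (Y \ X) (-(η - tot u (X ∩ Y))) ⊆ G.U := fun v hv => hDU (mem_lev.1 hv).1
  have key : ∀ N, G.IsPM N → (lev u (Y \ X) (η - tot u (X ∩ Y))).card
      = (lev u (Y \ X) (-(η - tot u (X ∩ Y)))).card + (N ∩ G.cut (Y \ X)).card := by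
    intro N hN
    have hs := hN.signed hdis hPU hQU (by
      intro f hf a b hj ha hb
      have hfF := hN.1 hf
      rw [hPQ] at ha hb
      have hsum := inD f hfF a b hj ha hb
      rcases hD a ha with h1 | h1
      · left
        refine ⟨mem_lev.2 ⟨ha, h1⟩, mem_lev.2 ⟨hb, ?_⟩⟩
        rw [h1] at hsum
        exact eq_neg_of_add_eq_zero_right hsum
      · right
        refine ⟨mem_lev.2 ⟨ha, h1⟩, mem_lev.2 ⟨hb, ?_⟩⟩
        rw [h1] at hsum
        rw [neg_add_eq_zero] at hsum
        exact hsum.symm)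
    rw [hPQ] at hs
    have z1 : N ∩ G.btw (lev u (Y \ X) (-(η - tot u (X ∩ Y)))) (G.U \ (Y \ X)) = ∅ := by
      rw [Finset.eq_empty_iff_forall_notMem]
      intro f hf
      rw [Finset.mem_inter] at hf
      have hfF := hN.1 hf.1
      have hb := (jn_self (G := G) f).mem_btw hfF (lev u (Y \ X) (-(η - tot u (X ∩ Y))))
        (G.U \ (Y \ X))
      rcases hb.1 hf.2 with ⟨h1, h2⟩ | ⟨h1, h2⟩
      · rw [mem_lev] at h1
        rw [Finset.mem_sdiff] at h2
        exact hpn ((outD f hfF _ _ (jn_self f) h1.1 h2.2 h2.1).symm.trans h1.2)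
      · rw [mem_lev] at h2
        rw [Finset.mem_sdiff] at h1
        exact hpn ((outD f hfF _ _ (jn_self f).symm h2.1 h1.2 h1.1).symm.trans h2.2)
    have z2 : N ∩ G.btw (lev u (Y \ X) (η - tot u (X ∩ Y))) (G.U \ (Y \ X))
        = N ∩ G.cut (Y \ X) := by
      ext f
      rw [Finset.mem_inter, Finset.mem_inter]
      apply and_congr_right
      intro hf
      have hfF := hN.1 hf
      rw [(jn_self (G := G) f).mem_btw hfF, (jn_self (G := G) f).mem_cut hfF]
      have hs' := G.hs f hfF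
      have ht' := G.ht f hfF
      constructor
      · rintro (⟨h1, h2⟩ | ⟨h1, h2⟩)
        · rw [mem_lev] at h1
          rw [Finset.mem_sdiff] at h2
          have := h1.1
          have := h2.2
          tauto
        · rw [mem_lev] at h2
          rw [Finset.mem_sdiff] at h1
          have := h2.1
          have := h1.2
          tauto
      · intro hc
        by_cases c1 : G.s f ∈ Y \ X
        · have c2 : G.t f ∉ Y \ X := fun c2 => hc ⟨fun _ => c2, fun _ => c1⟩
          left
          exact ⟨mem_lev.2 ⟨c1, outD f hfF _ _ (jn_self f) c1 c2 ht'⟩,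
            Finset.mem_sdiff.2 ⟨ht', c2⟩⟩
        · have c2 : G.t f ∈ Y \ X := by
            by_contra c2
            exact hc ⟨fun h => absurd h c1, fun h => absurd h c2⟩
          right
          exact ⟨Finset.mem_sdiff.2 ⟨hs', c1⟩,
            mem_lev.2 ⟨c2, outD f hfF _ _ (jn_self f).symm c2 c1 hs'⟩⟩
    rw [z1, Finset.card_empty, add_zero, z2] at hs
    exact hs
  -- counts
  have zAB : ∀ N, G.IsPM N → (N ∩ G.btw (X ∩ Y) (G.pB X Y)).card = 0 := by
    intro N hN
    rw [Finset.card_eq_zero, Finset.eq_empty_iff_forall_notMem]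
    intro f hf
    rw [Finset.mem_inter] at hf
    have hfF := hN.1 hf.1
    rcases ((jn_self (G := G) f).mem_btw hfF _ _).1 hf.2 with ⟨h1, h2⟩ | ⟨h1, h2⟩
    · exact noAB f hfF _ _ (jn_self f) h1 h2
    · exact noAB f hfF _ _ (jn_self f).symm h2 h1
  have zC1 : ∀ (N : Finset E) (W : Finset V), (N ∩ G.btw (X \ Y) W).card = 0 := by
    intro N W
    rw [Finset.card_eq_zero, Finset.eq_empty_iff_forall_notMem]
    intro f hf
    rw [Finset.mem_inter, hC] at hf
    have := hf.2
    simp [btw] at this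
  have zC2 : ∀ (N : Finset E) (W : Finset V), (N ∩ G.btw W (X \ Y)).card = 0 := by
    intro N W
    rw [Finset.card_eq_zero, Finset.eq_empty_iff_forall_notMem]
    intro f hf
    rw [Finset.mem_inter, hC] at hf
    have := hf.2
    simp [btw] at this
  have cD : ∀ N, G.IsPM N → (N ∩ G.cut (Y \ X)).card
      = (N ∩ G.btw (X ∩ Y) (Y \ X)).card + (N ∩ G.btw (Y \ X) (G.pB X Y)).card := by
    intro N hN
    have h1 := h.swap.cntC (N := N) hN.1
    rw [Finset.inter_comm Y X, pB_swap, zC2, add_zero] at h1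
    exact h1
  obtain ⟨N0, hN0, he0⟩ := h.exn
  obtain ⟨t1, t2, t3, t4⟩ := h.types hN0 he0
  have t5 := zAB N0 hN0
  have t6 := zC2 N0 (X ∩ Y)
  have t7 := key N0 hN0
  have t8 := cD N0 hN0
  obtain ⟨N, hN, hne⟩ := h.np
  have k1 := key N hN
  have k2 := cD N hN
  have k3 := h.cntX (N := N) hN.1
  have k4 := h.cntY (N := N) hN.1
  have k5 := zAB N hN
  have k6 := zC1 N (G.pB X Y)
  have k7 := zC1 N (Y \ X)
  have k8 := zC2 N (X ∩ Y)
  have o1 := hN.jodd h.XU h.ntX.2.1
  have o2 := hN.jodd h.YU h.ntY.2.1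
  rw [Nat.odd_iff] at o1 o2
  omega

end MG

end ML
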