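import Pool.Agent.ML.G5a
import Pool.Agent.ML.G5b
import Pool.Agent.ML.G5c
import Pool.Agent.ML.G5e
import Pool.Agent.ML.G5g
import Pool.Agent.ML.G5h

/-!
# ML-G6 : only the proper-proper crossing case remains; the structure `PPS`
-/

set_option autoImplicit false
set_option linter.unusedSectionVars false
set_option linter.unusedFintypeInType false
set_option linter.unusedVariables false

namespace ML

namespace MG

variable {V E : Type} [Fintype V] [Fintype E] [DecidableEq V] [DecidableEq E]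

variable {G : MG V E} {e : E} {X Y : Finset V} {u : V → QZ} {η η' : QZ}

theorem C2.lam (h : G.C2 e X Y u η η') (hC : X \ Y = ∅) : False := by
  rcases (h.lam_pq hC).1 with hq | hq
  · exact h.lam_pos hC hq
  · exact h.lam_neg hC hq

theorem godd_three {n : ℕ} (h : Odd n) : n = 1 ∨ 3 ≤ n := by
  rw [Nat.odd_iff] at h
  omega

/-- Only the case proper, proper, crossing is possible. -/
theorem C2.pp (h : G.C2 e X Y u η η') :
    (X \ Y).Nonempty ∧ (Y \ X).Nonempty ∧ (2 : ℤ) • tot u (X ∩ Y) ≠ 0 ∧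
      (2 : ℤ) • tot u (G.pB X Y) ≠ 0 ∧ 3 ≤ (X ∩ Y).card ∧ 3 ≤ (G.pB X Y).card ∧
      ∃ a b, G.Jn e a b ∧ a ∈ X ∩ Y ∧ b ∈ G.pB X Y ∧ u a = - tot u (X ∩ Y) ∧
        u b = - tot u (G.pB X Y) := by
  have hC : (X \ Y).Nonempty := by
    rw [Finset.nonempty_iff_ne_empty]
    intro h0
    exact h.lam h0
  have hD : (Y \ X).Nonempty := by
    rw [Finset.nonempty_iff_ne_empty]
    intro h0
    exact h.swap.lam h0
  refine ⟨hC, hD, ?_⟩
  have hC' : ((G.U \ X) \ (G.U \ Y)).Nonempty := by rw [h.compl_sdiff]; exact hD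
  have hD' : ((G.U \ Y) \ (G.U \ X)).Nonempty := by rw [h.compl_sdiff']; exact hC
  by_cases p1 : (2 : ℤ) • tot u (X ∩ Y) ≠ 0 ∧ 3 ≤ (X ∩ Y).card
  · obtain ⟨h1, h2, h3⟩ := h.cross_proper hC hD p1.1 p1.2
    exact ⟨p1.1, h2, p1.2, h3, h1⟩
  by_cases p2 : (2 : ℤ) • tot u (G.pB X Y) ≠ 0 ∧ 3 ≤ (G.pB X Y).card
  · have hh := h.compl.cross_proper hC' hD'
    rw [h.compl_inter, h.compl_pB] at hh
    obtain ⟨⟨a, b, h1, h1a, h1b, h1c, h1d⟩, h2, h3⟩ := hh p2.1 p2.2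
    exact ⟨h2, p2.1, h3, p2.2, b, a, h1.symm, h1b, h1a, h1d, h1c⟩
  exfalso
  have oA := godd_three h.odd
  have oB := godd_three h.oddB
  by_cases zA : (2 : ℤ) • tot u (X ∩ Y) = 0
  · by_cases zB : (2 : ℤ) • tot u (G.pB X Y) = 0
    · exact h.cross_II hC hD zA zB
    · have hB1 : (G.pB X Y).card = 1 := by
        rcases oB with o | o
        · exact o
        · exact absurd ⟨zB, o⟩ p2
      have hh := h.compl.cross_SI hC' hD'
      rw [h.compl_inter, h.compl_pB] at hh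
      exact hh hB1 zA
  · have hA1 : (X ∩ Y).card = 1 := by
      rcases oA with o | o
      · exact o
      · exact absurd ⟨zA, o⟩ p1
    by_cases zB : (2 : ℤ) • tot u (G.pB X Y) = 0
    · exact h.cross_SI hC hD hA1 zB
    · have hB1 : (G.pB X Y).card = 1 := by
        rcases oB with o | o
        · exact o
        · exact absurd ⟨zB, o⟩ p2
      exact h.cross_SS hA1 hB1

/-- The combinatorial content of the proper-proper crossing case: `P = A₊`, `Q = A₋`, `R = B₊`,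
`S = B₋`, `C = X \ Y`, `D = Y \ X`, `e = u0 v0` with `u0 ∈ A₋`, `v0 ∈ B₋`. -/
structure PPS (G : MG V E) (e : E) (u0 v0 : V) (P Q R S C D : Finset V) : Prop where
  brick : G.Brick
  he : e ∈ G.F
  mc : (G.del e).Mc
  conn : (G.del e).Conn
  jn : G.Jn e u0 v0
  hu : u0 ∈ Q
  hv : v0 ∈ S
  cov : G.U = P ∪ Q ∪ R ∪ S ∪ C ∪ D
  dis : [P, Q, R, S, C, D].Pairwise Disjoint
  cardP : P.card = Q.card + 1
  cardR : R.card = S.card + 1
  edge : ∀ f ∈ G.F, f ≠ e → f ∈ G.btw P Q ∨ f ∈ G.btw R S ∨ f ∈ G.inn C ∨ f ∈ G.inn D ∨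
    f ∈ G.btw P C ∨ f ∈ G.btw P D ∨ f ∈ G.btw R C ∨ f ∈ G.btw R D ∨ f ∈ G.btw P R
  ty0 : ∀ N, G.IsPM N → e ∉ N →
    (N ∩ G.btw P R).card + (N ∩ G.btw P C).card + (N ∩ G.btw P D).card = 1 ∧
    (N ∩ G.btw P C).card = (N ∩ G.btw R C).card ∧ (N ∩ G.btw P D).card = (N ∩ G.btw R D).card
  ty1 : ∀ N, G.IsPM N → e ∈ N → (N ∩ G.btw P R).card = 0 ∧
    (((N ∩ G.btw P C).card = 2 ∧ (N ∩ G.btw R D).card = 2 ∧ (N ∩ G.btw P D).card = 0 ∧
        (N ∩ G.btw R C).card = 0) ∨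
      ((N ∩ G.btw P C).card = 0 ∧ (N ∩ G.btw R D).card = 0 ∧ (N ∩ G.btw P D).card = 2 ∧
        (N ∩ G.btw R C).card = 2))
  ex1 : ∃ N, G.IsPM N ∧ e ∈ N ∧ (N ∩ G.btw P C).card = 2
  ex2 : ∃ N, G.IsPM N ∧ e ∈ N ∧ (N ∩ G.btw P D).card = 2

theorem btw_comm (P Q : Finset V) : G.btw P Q = G.btw Q P := by
  unfold btw
  apply Finset.filter_congr
  intro f hf
  tauto

variable {u0 v0 : V} {P Q R S C D : Finset V}

/-- Exchange of `C` and `D`. -/
theorem PPS.swap (h : G.PPS e u0 v0 P Q R S C D) : G.PPS e u0 v0 P Q R S D C where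
  brick := h.brick
  he := h.he
  mc := h.mc
  conn := h.conn
  jn := h.jn
  hu := h.hu
  hv := h.hv
  cov := by rw [h.cov]; ext v; simp only [Finset.mem_union]; tauto
  dis := by
    have hd := h.dis
    simp only [List.pairwise_cons, List.mem_cons, List.not_mem_nil, or_false, forall_eq_or_imp,
      forall_eq, List.Pairwise.nil, and_true, IsEmpty.forall_iff, implies_true] at hd ⊢
    obtain ⟨⟨h1, h2, h3, h4, h5⟩, ⟨h6, h7, h8, h9⟩, ⟨h10, h11, h12⟩, ⟨h13, h14⟩, h15⟩ := hd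
    exact ⟨⟨h1, h2, h3, h5, h4⟩, ⟨h6, h7, h9, h8⟩, ⟨h10, h12, h11⟩, ⟨h14, h13⟩, h15.symm⟩
  cardP := h.cardP
  cardR := h.cardR
  edge := fun f hf hfe => by
    have := h.edge f hf hfe
    tauto
  ty0 := fun N hN he => by
    have := h.ty0 N hN he
    omega
  ty1 := fun N hN he => by
    have := h.ty1 N hN he
    tauto
  ex1 := h.ex2
  ex2 := h.ex1

/-- Exchange of `A` and `B`. -/
theorem PPS.flip (h : G.PPS e u0 v0 P Q R S C D) : G.PPS e v0 u0 R S P Q C D where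
  brick := h.brick
  he := h.he
  mc := h.mc
  conn := h.conn
  jn := h.jn.symm
  hu := h.hv
  hv := h.hu
  cov := by rw [h.cov]; ext v; simp only [Finset.mem_union]; tauto
  dis := by
    have hd := h.dis
    simp only [List.pairwise_cons, List.mem_cons, List.not_mem_nil, or_false, forall_eq_or_imp,
      forall_eq, List.Pairwise.nil, and_true, IsEmpty.forall_iff, implies_true] at hd ⊢
    obtain ⟨⟨h1, h2, h3, h4, h5⟩, ⟨h6, h7, h8, h9⟩, ⟨h10, h11, h12⟩, ⟨h13, h14⟩, h15⟩ := hd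
    exact ⟨⟨h10, h2.symm, h6.symm, h11, h12⟩, ⟨h3.symm, h7.symm, h13, h14⟩, ⟨h1, h4, h5⟩,
      ⟨h8, h9⟩, h15⟩
  cardP := h.cardR
  cardR := h.cardP
  edge := fun f hf hfe => by
    have := h.edge f hf hfe
    rw [btw_comm R P]
    tauto
  ty0 := fun N hN he => by
    have := h.ty0 N hN he
    rw [btw_comm R P]
    omega
  ty1 := fun N hN he => by
    have := h.ty1 N hN he
    rw [btw_comm R P]
    tauto
  ex1 := by
    obtain ⟨N, h1, h2, h3⟩ := h.ex2
    refine ⟨N, h1, h2, ?_⟩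
    have := h.ty1 N h1 h2
    omega
  ex2 := by
    obtain ⟨N, h1, h2, h3⟩ := h.ex1
    refine ⟨N, h1, h2, ?_⟩
    have := h.ty1 N h1 h2
    omega

end MG

end ML
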