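import Pool.Agent.ML.G6

/-!
# ML-G7a : `C2` in the case PP: classification of the edges, counts for matchings without `e`
-/

set_option autoImplicit false
set_option linter.unusedSectionVars false
set_option linter.unusedFintypeInType false
set_option linter.unusedVariables false

namespace ML

namespace MG

variable {V E : Type} [Fintype V] [Fintype E] [DecidableEq V] [DecidableEq E]

variable {G : MG V E} {e : E} {X Y : Finset V} {u : V → QZ} {η η' : QZ}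

theorem g7a_parts (X Y : Finset V) {v : V} (hv : v ∈ G.U) :
    v ∈ X ∩ Y ∨ v ∈ G.pB X Y ∨ v ∈ X \ Y ∨ v ∈ Y \ X := by
  simp only [pB, Finset.mem_inter, Finset.mem_sdiff, Finset.mem_union]
  tauto

theorem g7a_A {v : V} (h : v ∈ X ∩ Y) : v ∈ X ∧ v ∈ Y := Finset.mem_inter.1 h

theorem g7a_B {v : V} (h : v ∈ G.pB X Y) : v ∉ X ∧ v ∉ Y := by
  simp only [pB, Finset.mem_sdiff, Finset.mem_union] at h
  tauto

theorem g7a_C {v : V} (h : v ∈ X \ Y) : v ∈ X ∧ v ∉ Y := Finset.mem_sdiff.1 h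

theorem g7a_nA {v : V} (h : ¬ (v ∈ X ∧ v ∈ Y)) : v ∉ X ∩ Y := fun h' => h (Finset.mem_inter.1 h')

theorem g7a_nB {v : V} (h : v ∈ X ∨ v ∈ Y) : v ∉ G.pB X Y := fun h' => by
  have := g7a_B h'
  tauto

/-- The classes `A₊ = lev u A tA`, `A₋ = lev u A (-tA)` partition `A`. Proof: `pmA`, `ne_neg_of_two`. -/
theorem C2.classA (h : G.C2 e X Y u η η') (ht : (2 : ℤ) • tot u (X ∩ Y) ≠ 0) :
    lev u (X ∩ Y) (tot u (X ∩ Y)) ∪ lev u (X ∩ Y) (- tot u (X ∩ Y)) = X ∩ Y ∧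
      Disjoint (lev u (X ∩ Y) (tot u (X ∩ Y))) (lev u (X ∩ Y) (- tot u (X ∩ Y))) := by
  constructor
  · ext v
    rw [Finset.mem_union, mem_lev, mem_lev]
    constructor
    · rintro (⟨h1, -⟩ | ⟨h1, -⟩) <;> exact h1
    · intro hv
      rcases h.pmA hv with h1 | h1
      · exact Or.inl ⟨hv, h1⟩
      · exact Or.inr ⟨hv, h1⟩
  · rw [Finset.disjoint_left]
    intro v hv hv'
    rw [mem_lev] at hv hv'
    exact ne_neg_of_two ht (hv.2.symm.trans hv'.2)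

/-- The same for `B`. -/
theorem C2.classB (h : G.C2 e X Y u η η') (ht : (2 : ℤ) • tot u (G.pB X Y) ≠ 0) :
    lev u (G.pB X Y) (tot u (G.pB X Y)) ∪ lev u (G.pB X Y) (- tot u (G.pB X Y)) = G.pB X Y ∧
      Disjoint (lev u (G.pB X Y) (tot u (G.pB X Y))) (lev u (G.pB X Y) (- tot u (G.pB X Y))) := by
  constructor
  · ext v
    rw [Finset.mem_union, mem_lev, mem_lev]
    constructor
    · rintro (⟨h1, -⟩ | ⟨h1, -⟩) <;> exact h1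
    · intro hv
      rcases h.pmB hv with h1 | h1
      · exact Or.inl ⟨hv, h1⟩
      · exact Or.inr ⟨hv, h1⟩
  · rw [Finset.disjoint_left]
    intro v hv hv'
    rw [mem_lev] at hv hv'
    exact ne_neg_of_two ht (hv.2.symm.trans hv'.2)

theorem g7a_AA (h : G.C2 e X Y u η η') (hA : (2 : ℤ) • tot u (X ∩ Y) ≠ 0) {f : E}
    (hf : f ∈ G.F) {a b : V} (hj : G.Jn f a b) (ha : a ∈ X ∩ Y) (hb : b ∈ X ∩ Y) :
    f ∈ G.btw (lev u (X ∩ Y) (tot u (X ∩ Y))) (lev u (X ∩ Y) (- tot u (X ∩ Y))) := by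
  have h0 := h.st hf hj
  have a1 := g7a_A ha
  have b1 := g7a_A hb
  rw [if_pos (by tauto), if_pos (by tauto), sub_zero] at h0
  rw [hj.mem_btw hf, mem_lev, mem_lev, mem_lev, mem_lev]
  have h1 : u b = - u a := (neg_eq_of_add_eq_zero_right h0).symm
  rcases h.pmA ha with h2 | h2
  · exact Or.inl ⟨⟨ha, h2⟩, ⟨hb, by rw [h1, h2]⟩⟩
  · exact Or.inr ⟨⟨ha, h2⟩, ⟨hb, by rw [h1, h2, neg_neg]⟩⟩

theorem g7a_BB (h : G.C2 e X Y u η η') (hB : (2 : ℤ) • tot u (G.pB X Y) ≠ 0) {f : E}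
    (hf : f ∈ G.F) {a b : V} (hj : G.Jn f a b) (ha : a ∈ G.pB X Y) (hb : b ∈ G.pB X Y) :
    f ∈ G.btw (lev u (G.pB X Y) (tot u (G.pB X Y))) (lev u (G.pB X Y) (- tot u (G.pB X Y))) := by
  have h0 := h.st hf hj
  have a1 := g7a_B ha
  have b1 := g7a_B hb
  rw [if_pos (by tauto), if_pos (by tauto), sub_zero] at h0
  rw [hj.mem_btw hf, mem_lev, mem_lev, mem_lev, mem_lev]
  have h1 : u b = - u a := (neg_eq_of_add_eq_zero_right h0).symm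
  rcases h.pmB ha with h2 | h2
  · exact Or.inl ⟨⟨ha, h2⟩, ⟨hb, by rw [h1, h2]⟩⟩
  · exact Or.inr ⟨⟨ha, h2⟩, ⟨hb, by rw [h1, h2, neg_neg]⟩⟩

theorem g7a_AB (h : G.C2 e X Y u η η') {f : E} (hf : f ∈ G.F) (hfe : f ≠ e) {a b : V}
    (hj : G.Jn f a b) (ha : a ∈ X ∩ Y) (hb : b ∈ G.pB X Y) :
    a ∈ lev u (X ∩ Y) (tot u (X ∩ Y)) ∧ b ∈ lev u (G.pB X Y) (tot u (G.pB X Y)) := by
  have a1 := g7a_A ha
  have b1 := g7a_B hb
  exact ⟨mem_lev.2 ⟨ha, h.exitA hf hfe hj ha (g7a_nA (by tauto))⟩,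
    mem_lev.2 ⟨hb, h.exitB hf hfe hj.symm hb (g7a_nB (by tauto))⟩⟩

theorem g7a_AC (h : G.C2 e X Y u η η') {f : E} (hf : f ∈ G.F) (hfe : f ≠ e) {a b : V}
    (hj : G.Jn f a b) (ha : a ∈ X ∩ Y) (hb : b ∈ X \ Y ∨ b ∈ Y \ X) :
    a ∈ lev u (X ∩ Y) (tot u (X ∩ Y)) := by
  refine mem_lev.2 ⟨ha, h.exitA hf hfe hj ha (g7a_nA ?_)⟩
  rcases hb with hb | hb
  · have := g7a_C hb; tauto
  · have := g7a_C hb; tauto

theorem g7a_BC (h : G.C2 e X Y u η η') {f : E} (hf : f ∈ G.F) (hfe : f ≠ e) {a b : V}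
    (hj : G.Jn f a b) (ha : a ∈ G.pB X Y) (hb : b ∈ X \ Y ∨ b ∈ Y \ X) :
    a ∈ lev u (G.pB X Y) (tot u (G.pB X Y)) := by
  refine mem_lev.2 ⟨ha, h.exitB hf hfe hj ha (g7a_nB ?_)⟩
  rcases hb with hb | hb
  · have := g7a_C hb; tauto
  · have := g7a_C hb; tauto

/-- Classification of the edges other than `e`.

Proof. `f = ab` (`jn_self`), ends in `U`, so each end is in one of `A, B, C, D`. Both in `A`:
`u a + u b = 0` (`h.st`), `u a, u b = ± tA` (`pmA`), so one end in each class (`2 tA ≠ 0`). Both in `B`: the same.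
Both in `C` or both in `D`: `inn`. `A-C`, `A-D`, `A-B`: the `A`-end has `u = tA` (`exitA`), for `A-B` the
`B`-end has `u = tB` (`exitB`). `B-C`, `B-D`: `exitB`. `C-D`: `noCD`. -/
theorem C2.pps_edge (h : G.C2 e X Y u η η') (hA : (2 : ℤ) • tot u (X ∩ Y) ≠ 0)
    (hB : (2 : ℤ) • tot u (G.pB X Y) ≠ 0) {f : E} (hf : f ∈ G.F) (hfe : f ≠ e) :
    f ∈ G.btw (lev u (X ∩ Y) (tot u (X ∩ Y))) (lev u (X ∩ Y) (- tot u (X ∩ Y))) ∨
    f ∈ G.btw (lev u (G.pB X Y) (tot u (G.pB X Y))) (lev u (G.pB X Y) (- tot u (G.pB X Y))) ∨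
    f ∈ G.inn (X \ Y) ∨ f ∈ G.inn (Y \ X) ∨
    f ∈ G.btw (lev u (X ∩ Y) (tot u (X ∩ Y))) (X \ Y) ∨
    f ∈ G.btw (lev u (X ∩ Y) (tot u (X ∩ Y))) (Y \ X) ∨
    f ∈ G.btw (lev u (G.pB X Y) (tot u (G.pB X Y))) (X \ Y) ∨
    f ∈ G.btw (lev u (G.pB X Y) (tot u (G.pB X Y))) (Y \ X) ∨
    f ∈ G.btw (lev u (X ∩ Y) (tot u (X ∩ Y))) (lev u (G.pB X Y) (tot u (G.pB X Y))) := by
  obtain ⟨a, b, hj⟩ : ∃ a b, G.Jn f a b := ⟨_, _, jn_self f⟩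
  have hU := hj.mem hf
  rcases g7a_parts X Y hU.1 with ha | ha | ha | ha <;>
    rcases g7a_parts X Y hU.2 with hb | hb | hb | hb
  · exact Or.inl (g7a_AA h hA hf hj ha hb)
  · have := g7a_AB h hf hfe hj ha hb
    exact Or.inr (Or.inr (Or.inr (Or.inr (Or.inr (Or.inr (Or.inr (Or.inr
      ((hj.mem_btw hf _ _).2 (Or.inl this)))))))))
  · exact Or.inr (Or.inr (Or.inr (Or.inr (Or.inl
      ((hj.mem_btw hf _ _).2 (Or.inl ⟨g7a_AC h hf hfe hj ha (Or.inl hb), hb⟩))))))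
  · exact Or.inr (Or.inr (Or.inr (Or.inr (Or.inr (Or.inl
      ((hj.mem_btw hf _ _).2 (Or.inl ⟨g7a_AC h hf hfe hj ha (Or.inr hb), hb⟩)))))))
  · have := g7a_AB h hf hfe hj.symm hb ha
    exact Or.inr (Or.inr (Or.inr (Or.inr (Or.inr (Or.inr (Or.inr (Or.inr
      ((hj.mem_btw hf _ _).2 (Or.inr this.symm)))))))))
  · exact Or.inr (Or.inl (g7a_BB h hB hf hj ha hb))
  · exact Or.inr (Or.inr (Or.inr (Or.inr (Or.inr (Or.inr (Or.inl
      ((hj.mem_btw hf _ _).2 (Or.inl ⟨g7a_BC h hf hfe hj ha (Or.inl hb), hb⟩))))))))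
  · exact Or.inr (Or.inr (Or.inr (Or.inr (Or.inr (Or.inr (Or.inr (Or.inl
      ((hj.mem_btw hf _ _).2 (Or.inl ⟨g7a_BC h hf hfe hj ha (Or.inr hb), hb⟩)))))))))
  · exact Or.inr (Or.inr (Or.inr (Or.inr (Or.inl
      ((hj.mem_btw hf _ _).2 (Or.inr ⟨ha, g7a_AC h hf hfe hj.symm hb (Or.inl ha)⟩))))))
  · exact Or.inr (Or.inr (Or.inr (Or.inr (Or.inr (Or.inr (Or.inl
      ((hj.mem_btw hf _ _).2 (Or.inr ⟨ha, g7a_BC h hf hfe hj.symm hb (Or.inl ha)⟩))))))))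
  · exact Or.inr (Or.inr (Or.inl ((hj.mem_inn hf _).2 ⟨ha, hb⟩)))
  · exact (h.noCD hf hfe hj ha hb).elim
  · exact Or.inr (Or.inr (Or.inr (Or.inr (Or.inr (Or.inl
      ((hj.mem_btw hf _ _).2 (Or.inr ⟨ha, g7a_AC h hf hfe hj.symm hb (Or.inr ha)⟩)))))))
  · exact Or.inr (Or.inr (Or.inr (Or.inr (Or.inr (Or.inr (Or.inr (Or.inl
      ((hj.mem_btw hf _ _).2 (Or.inr ⟨ha, g7a_BC h hf hfe hj.symm hb (Or.inr ha)⟩)))))))))
  · exact (h.noCD hf hfe hj.symm hb ha).elim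
  · exact Or.inr (Or.inr (Or.inr (Or.inl ((hj.mem_inn hf _).2 ⟨ha, hb⟩))))

/-- Counts between parts and between classes, for a set of edges not containing `e` (no properness
needed).

Proof. The sets are equal: `⊇` clear (`lev u W t ⊆ W`, `mem_lev`); `⊆`: for `f ∈ N`, `f ≠ e`, `f = ab`
with `a ∈ A`, `b ∈ C`: `u a = tA` by `exitA`, etc. (`exitA`, `exitB`). -/
theorem C2.cls (h : G.C2 e X Y u η η') {N : Finset E} (hN : N ⊆ G.F) (he : e ∉ N) :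
    N ∩ G.btw (X ∩ Y) (G.pB X Y)
      = N ∩ G.btw (lev u (X ∩ Y) (tot u (X ∩ Y))) (lev u (G.pB X Y) (tot u (G.pB X Y))) ∧
    N ∩ G.btw (X ∩ Y) (X \ Y) = N ∩ G.btw (lev u (X ∩ Y) (tot u (X ∩ Y))) (X \ Y) ∧
    N ∩ G.btw (X ∩ Y) (Y \ X) = N ∩ G.btw (lev u (X ∩ Y) (tot u (X ∩ Y))) (Y \ X) ∧
    N ∩ G.btw (X \ Y) (G.pB X Y) = N ∩ G.btw (lev u (G.pB X Y) (tot u (G.pB X Y))) (X \ Y) ∧
    N ∩ G.btw (Y \ X) (G.pB X Y) = N ∩ G.btw (lev u (G.pB X Y) (tot u (G.pB X Y))) (Y \ X) := by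
  have hl : ∀ {W : Finset V} {t : QZ} {v : V}, v ∈ lev u W t → v ∈ W := fun hv =>
    (mem_lev.1 hv).1
  have key : ∀ {P Q P' Q' : Finset V}, (∀ f ∈ N, ∀ a b, G.Jn f a b → a ∈ P → b ∈ Q →
      a ∈ P' ∧ b ∈ Q') → (∀ v, v ∈ P' → v ∈ P) → (∀ v, v ∈ Q' → v ∈ Q) →
      N ∩ G.btw P Q = N ∩ G.btw P' Q' := by
    intro P Q P' Q' k1 k2 k3
    ext f
    rw [Finset.mem_inter, Finset.mem_inter]
    constructor
    · rintro ⟨hfN, hf⟩
      refine ⟨hfN, ?_⟩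
      have hj := jn_self (G := G) f
      rw [hj.mem_btw (hN hfN)] at hf ⊢
      rcases hf with ⟨h1, h2⟩ | ⟨h1, h2⟩
      · exact Or.inl (k1 f hfN _ _ hj h1 h2)
      · exact Or.inr (k1 f hfN _ _ hj.symm h2 h1).symm
    · rintro ⟨hfN, hf⟩
      refine ⟨hfN, ?_⟩
      have hj := jn_self (G := G) f
      rw [hj.mem_btw (hN hfN)] at hf ⊢
      rcases hf with ⟨h1, h2⟩ | ⟨h1, h2⟩
      · exact Or.inl ⟨k2 _ h1, k3 _ h2⟩
      · exact Or.inr ⟨k3 _ h1, k2 _ h2⟩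
  have hne : ∀ f ∈ N, f ≠ e := fun f hf hfe => he (hfe ▸ hf)
  refine ⟨?_, ?_, ?_, ?_, ?_⟩
  · exact key (fun f hf a b hj ha hb => g7a_AB h (hN hf) (hne f hf) hj ha hb)
      (fun v hv => hl hv) (fun v hv => hl hv)
  · exact key (fun f hf a b hj ha hb => ⟨g7a_AC h (hN hf) (hne f hf) hj ha (Or.inl hb), hb⟩)
      (fun v hv => hl hv) (fun v hv => hv)
  · exact key (fun f hf a b hj ha hb => ⟨g7a_AC h (hN hf) (hne f hf) hj ha (Or.inr hb), hb⟩)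
      (fun v hv => hl hv) (fun v hv => hv)
  · rw [btw_comm (X \ Y)]
    exact key (fun f hf a b hj ha hb => ⟨g7a_BC h (hN hf) (hne f hf) hj ha (Or.inl hb), hb⟩)
      (fun v hv => hl hv) (fun v hv => hv)
  · rw [btw_comm (Y \ X)]
    exact key (fun f hf a b hj ha hb => ⟨g7a_BC h (hN hf) (hne f hf) hj ha (Or.inr hb), hb⟩)
      (fun v hv => hl hv) (fun v hv => hv)

end MG

end ML
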