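import Pool.Agent.ML.G7a

/-!
# ML-G7b : `C2` in the case PP: counts for matchings with `e`
-/

set_option autoImplicit false
set_option linter.unusedSectionVars false
set_option linter.unusedFintypeInType false
set_option linter.unusedVariables false

namespace ML

namespace MG

variable {V E : Type} [Fintype V] [Fintype E] [DecidableEq V] [DecidableEq E]

variable {G : MG V E} {e : E} {X Y : Finset V} {u : V → QZ} {η η' : QZ}

private theorem g7b_er {N S : Finset E} {e : E} (he : e ∉ S) : N.erase e ∩ S = N ∩ S := by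
  ext f
  rw [Finset.mem_inter, Finset.mem_inter, Finset.mem_erase]
  constructor
  · rintro ⟨⟨_, h1⟩, h2⟩
    exact ⟨h1, h2⟩
  · rintro ⟨h1, h2⟩
    refine ⟨⟨?_, h1⟩, h2⟩
    rintro rfl
    exact he h2

private theorem g7b_er1 {N S : Finset E} {e : E} (he : e ∈ S) (heN : e ∈ N) :
    (N ∩ S).card = 1 + (N.erase e ∩ S).card := by
  have h1 : N ∩ S = insert e (N.erase e ∩ S) := by
    ext f
    rw [Finset.mem_insert, Finset.mem_inter, Finset.mem_inter, Finset.mem_erase]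
    constructor
    · rintro ⟨h1, h2⟩
      by_cases hf : f = e
      · exact Or.inl hf
      · exact Or.inr ⟨⟨hf, h1⟩, h2⟩
    · rintro (h1 | ⟨⟨_, h1⟩, h2⟩)
      · rw [h1]
        exact ⟨heN, he⟩
      · exact ⟨h1, h2⟩
  have h2 : e ∉ N.erase e ∩ S := by
    intro h3
    rw [Finset.mem_inter] at h3
    exact Finset.notMem_erase e N h3.1
  rw [h1, Finset.card_insert_of_notMem h2]
  exact Nat.add_comm _ _

/-- Counts for perfect matchings with `e` (5.8).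

Proof. `e = ab` with `a ∈ A`, `b ∈ B`. `N' = N.erase e` and `cls` for `N'`: since `e` is an `A-B` edge and not
an edge of the classes `A₊-B₊` (`u a = -tA ≠ tA`), `#(A-B)(N) = 1 + #(A₊-B₊)(N)` and the other four numbers
`#(A-C), #(A-D), #(C-B), #(D-B)` agree with the numbers between the classes; `#(C-D)(N) = 0` (`noCD`).
`P2`, `P2B`: `|N ∩ cut A| = 3 = |N ∩ cut B|`; by `cntA`, `cntB`: with
`r = #(A₊-B₊), pc, pd, rc, rd`: `1 + r + pc + pd = 3`, `1 + r + rc + rd = 3`. `cntX`, `cntY`: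
`|N ∩ cut X| = 1 + r + pd + rc`, `|N ∩ cut Y| = 1 + r + pc + rd`, both odd (`IsPM.jodd`, `ntX`, `ntY`) and
`≠ 3` (`no3X`, `no3Y`), sum 6: so one is 1, the other 5; `omega`. -/
theorem C2.pps_ty1 (h : G.C2 e X Y u η η') (hA : (2 : ℤ) • tot u (X ∩ Y) ≠ 0)
    (hB : (2 : ℤ) • tot u (G.pB X Y) ≠ 0) (h3A : 3 ≤ (X ∩ Y).card) (h3B : 3 ≤ (G.pB X Y).card)
    {a b : V} (hj : G.Jn e a b) (ha : a ∈ X ∩ Y) (hb : b ∈ G.pB X Y)
    (hua : u a = - tot u (X ∩ Y)) (hub : u b = - tot u (G.pB X Y)) {N : Finset E}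
    (hN : G.IsPM N) (he : e ∈ N) :
    (N ∩ G.btw (lev u (X ∩ Y) (tot u (X ∩ Y))) (lev u (G.pB X Y) (tot u (G.pB X Y)))).card = 0 ∧
    (((N ∩ G.btw (lev u (X ∩ Y) (tot u (X ∩ Y))) (X \ Y)).card = 2 ∧
        (N ∩ G.btw (lev u (G.pB X Y) (tot u (G.pB X Y))) (Y \ X)).card = 2 ∧
        (N ∩ G.btw (lev u (X ∩ Y) (tot u (X ∩ Y))) (Y \ X)).card = 0 ∧
        (N ∩ G.btw (lev u (G.pB X Y) (tot u (G.pB X Y))) (X \ Y)).card = 0 ∧
        (N ∩ G.cut X).card = 1 ∧ (N ∩ G.cut Y).card = 5) ∨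
      ((N ∩ G.btw (lev u (X ∩ Y) (tot u (X ∩ Y))) (X \ Y)).card = 0 ∧
        (N ∩ G.btw (lev u (G.pB X Y) (tot u (G.pB X Y))) (Y \ X)).card = 0 ∧
        (N ∩ G.btw (lev u (X ∩ Y) (tot u (X ∩ Y))) (Y \ X)).card = 2 ∧
        (N ∩ G.btw (lev u (G.pB X Y) (tot u (G.pB X Y))) (X \ Y)).card = 2 ∧
        (N ∩ G.cut X).card = 5 ∧ (N ∩ G.cut Y).card = 1)) := by
  have hNF : N ⊆ G.F := hN.1
  have hN'F : N.erase e ⊆ G.F := (Finset.erase_subset _ _).trans hNF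
  have heF : e ∈ G.F := h.he
  have haX : a ∈ X := (Finset.mem_inter.1 ha).1
  have haY : a ∈ Y := (Finset.mem_inter.1 ha).2
  have hb' : b ∉ X ∧ b ∉ Y := by
    have h1 := hb
    unfold pB at h1
    rw [Finset.mem_sdiff, Finset.mem_union] at h1
    exact ⟨fun h2 => h1.2 (Or.inl h2), fun h2 => h1.2 (Or.inr h2)⟩
  have haB : a ∉ G.pB X Y := by
    intro h1
    unfold pB at h1
    rw [Finset.mem_sdiff, Finset.mem_union] at h1
    exact h1.2 (Or.inl haX)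
  have haC : a ∉ X \ Y := fun h1 => (Finset.mem_sdiff.1 h1).2 haY
  have haD : a ∉ Y \ X := fun h1 => (Finset.mem_sdiff.1 h1).2 haX
  have hbA : b ∉ X ∩ Y := fun h1 => hb'.1 (Finset.mem_inter.1 h1).1
  have hbC : b ∉ X \ Y := fun h1 => hb'.1 (Finset.mem_sdiff.1 h1).1
  have hbD : b ∉ Y \ X := fun h1 => hb'.2 (Finset.mem_sdiff.1 h1).1
  have haAp : a ∉ lev u (X ∩ Y) (tot u (X ∩ Y)) := by
    intro h1
    exact ne_neg_of_two hA ((mem_lev.1 h1).2.symm.trans hua)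
  have hbAp : b ∉ lev u (X ∩ Y) (tot u (X ∩ Y)) := fun h1 => hbA (mem_lev.1 h1).1
  have haBp : a ∉ lev u (G.pB X Y) (tot u (G.pB X Y)) := fun h1 => haB (mem_lev.1 h1).1
  have hbBp : b ∉ lev u (G.pB X Y) (tot u (G.pB X Y)) := by
    intro h1
    exact ne_neg_of_two hB ((mem_lev.1 h1).2.symm.trans hub)
  have hno : ∀ P Q : Finset V, a ∉ P → a ∉ Q → e ∉ G.btw P Q := by
    intro P Q h1 h2 h3
    rcases (hj.mem_btw heF P Q).1 h3 with h4 | h4
    · exact h1 h4.1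
    · exact h2 h4.1
  have hno' : ∀ P Q : Finset V, b ∉ P → b ∉ Q → e ∉ G.btw P Q := by
    intro P Q h1 h2 h3
    rcases (hj.mem_btw heF P Q).1 h3 with h4 | h4
    · exact h2 h4.2
    · exact h1 h4.2
  obtain ⟨c1, c2, c3, c4, c5⟩ := h.cls hN'F (Finset.notMem_erase e N)
  -- numbers
  have n1 : (N ∩ G.btw (X ∩ Y) (G.pB X Y)).card = 1 +
      (N ∩ G.btw (lev u (X ∩ Y) (tot u (X ∩ Y))) (lev u (G.pB X Y) (tot u (G.pB X Y)))).card := by
    rw [g7b_er1 ((hj.mem_btw heF _ _).2 (Or.inl ⟨ha, hb⟩)) he, c1,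
      g7b_er (hno _ _ haAp haBp)]
  have n2 : (N ∩ G.btw (X ∩ Y) (X \ Y)).card =
      (N ∩ G.btw (lev u (X ∩ Y) (tot u (X ∩ Y))) (X \ Y)).card := by
    rw [← g7b_er (N := N) (hno' _ _ hbA hbC), c2, g7b_er (hno' _ _ hbAp hbC)]
  have n3 : (N ∩ G.btw (X ∩ Y) (Y \ X)).card =
      (N ∩ G.btw (lev u (X ∩ Y) (tot u (X ∩ Y))) (Y \ X)).card := by
    rw [← g7b_er (N := N) (hno' _ _ hbA hbD), c3, g7b_er (hno' _ _ hbAp hbD)]
  have n4 : (N ∩ G.btw (X \ Y) (G.pB X Y)).card =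
      (N ∩ G.btw (lev u (G.pB X Y) (tot u (G.pB X Y))) (X \ Y)).card := by
    rw [← g7b_er (N := N) (hno _ _ haC haB), c4, g7b_er (hno _ _ haBp haC)]
  have n5 : (N ∩ G.btw (Y \ X) (G.pB X Y)).card =
      (N ∩ G.btw (lev u (G.pB X Y) (tot u (G.pB X Y))) (Y \ X)).card := by
    rw [← g7b_er (N := N) (hno _ _ haD haB), c5, g7b_er (hno _ _ haBp haD)]
  have n6 : (N ∩ G.btw (X \ Y) (Y \ X)).card = 0 := by
    rw [Finset.card_eq_zero, Finset.eq_empty_iff_forall_notMem]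
    intro f hf
    rw [Finset.mem_inter] at hf
    by_cases hfe : f = e
    · rw [hfe] at hf
      exact hno _ _ haC haD hf.2
    · have hfF := hNF hf.1
      rcases ((jn_self f).mem_btw hfF _ _).1 hf.2 with h1 | h1
      · exact h.noCD hfF hfe (jn_self f) h1.1 h1.2
      · exact h.noCD hfF hfe (jn_self f).symm h1.2 h1.1
  have m1 := (h.P2 hA h3A).2 N hN he
  have m2 := (h.P2B hB h3B).2 N hN he
  have k1 := h.cntA hNF
  have k2 := h.cntB hNF
  have k3 := h.cntX hNF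
  have k4 := h.cntY hNF
  have o1 := hN.jodd h.XU h.ntX.2.1
  have o2 := hN.jodd h.YU h.ntY.2.1
  have t1 := h.no3X hN
  have t2 := h.no3Y hN
  obtain ⟨i1, hi1⟩ := o1
  obtain ⟨i2, hi2⟩ := o2
  omega

end MG

end ML
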