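import Pool.Agent.ML.G7b

/-!
# ML-G7c : `C2` gives `PPS` and `4 η = 0`
-/

set_option autoImplicit false
set_option linter.unusedSectionVars false
set_option linter.unusedFintypeInType false
set_option linter.unusedVariables false

namespace ML

namespace MG

variable {V E : Type} [Fintype V] [Fintype E] [DecidableEq V] [DecidableEq E]

variable {G : MG V E} {e : E} {X Y : Finset V} {u : V → QZ} {η η' : QZ}

theorem C2.toPPS (h : G.C2 e X Y u η η') : ∃ u0 v0 P Q R S, P ∪ Q = X ∩ Y ∧
    R ∪ S = G.pB X Y ∧ G.PPS e u0 v0 P Q R S (X \ Y) (Y \ X) ∧ (4 : ℤ) • η = 0 := by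
  obtain ⟨hC, hD, hA, hB, h3A, h3B, a, b, hj, ha, hb, hua, hub⟩ := h.pp
  have cA := h.classA hA
  have cB := h.classB hB
  have hXU := h.XU
  have hYU := h.YU
  refine ⟨a, b, lev u (X ∩ Y) (tot u (X ∩ Y)), lev u (X ∩ Y) (- tot u (X ∩ Y)),
    lev u (G.pB X Y) (tot u (G.pB X Y)), lev u (G.pB X Y) (- tot u (G.pB X Y)), cA.1, cB.1, ?_, ?_⟩
  · have ty1 := fun N (hN : G.IsPM N) (he : e ∈ N) =>
      h.pps_ty1 hA hB h3A h3B hj ha hb hua hub hN he
    refine ⟨h.brick, h.he, h.mc, h.conn, hj, mem_lev.2 ⟨ha, hua⟩, mem_lev.2 ⟨hb, hub⟩, ?_, ?_,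
      h.cardA hA, h.cardB hB, fun f hf hfe => h.pps_edge hA hB hf hfe, ?_, ?_, ?_, ?_⟩
    · rw [cA.1, Finset.union_assoc (X ∩ Y), cB.1]
      ext v
      have k1 : v ∈ X → v ∈ G.U := fun hv => hXU hv
      have k2 : v ∈ Y → v ∈ G.U := fun hv => hYU hv
      simp only [pB, Finset.mem_union, Finset.mem_inter, Finset.mem_sdiff]
      tauto
    · have sA1 : lev u (X ∩ Y) (tot u (X ∩ Y)) ⊆ X ∩ Y := fun v hv => (mem_lev.1 hv).1
      have sA2 : lev u (X ∩ Y) (- tot u (X ∩ Y)) ⊆ X ∩ Y := fun v hv => (mem_lev.1 hv).1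
      have sB1 : lev u (G.pB X Y) (tot u (G.pB X Y)) ⊆ G.pB X Y := fun v hv => (mem_lev.1 hv).1
      have sB2 : lev u (G.pB X Y) (- tot u (G.pB X Y)) ⊆ G.pB X Y := fun v hv => (mem_lev.1 hv).1
      have dAB : Disjoint (X ∩ Y) (G.pB X Y) := by
        rw [Finset.disjoint_left]; intro v hv hv'
        simp only [pB, Finset.mem_union, Finset.mem_inter, Finset.mem_sdiff] at hv hv'
        tauto
      have dAC : Disjoint (X ∩ Y) (X \ Y) := by
        rw [Finset.disjoint_left]; intro v hv hv'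
        simp only [pB, Finset.mem_union, Finset.mem_inter, Finset.mem_sdiff] at hv hv'
        tauto
      have dAD : Disjoint (X ∩ Y) (Y \ X) := by
        rw [Finset.disjoint_left]; intro v hv hv'
        simp only [pB, Finset.mem_union, Finset.mem_inter, Finset.mem_sdiff] at hv hv'
        tauto
      have dBC : Disjoint (G.pB X Y) (X \ Y) := by
        rw [Finset.disjoint_left]; intro v hv hv'
        simp only [pB, Finset.mem_union, Finset.mem_inter, Finset.mem_sdiff] at hv hv'
        tauto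
      have dBD : Disjoint (G.pB X Y) (Y \ X) := by
        rw [Finset.disjoint_left]; intro v hv hv'
        simp only [pB, Finset.mem_union, Finset.mem_inter, Finset.mem_sdiff] at hv hv'
        tauto
      have dCD : Disjoint (X \ Y) (Y \ X) := by
        rw [Finset.disjoint_left]; intro v hv hv'
        simp only [pB, Finset.mem_union, Finset.mem_inter, Finset.mem_sdiff] at hv hv'
        tauto
      simp only [List.pairwise_cons, List.mem_cons, List.not_mem_nil, or_false, forall_eq_or_imp,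
        forall_eq, List.Pairwise.nil, and_true, IsEmpty.forall_iff, implies_true]
      exact ⟨⟨cA.2, dAB.mono sA1 sB1, dAB.mono sA1 sB2, dAC.mono_left sA1, dAD.mono_left sA1⟩,
        ⟨dAB.mono sA2 sB1, dAB.mono sA2 sB2, dAC.mono_left sA2, dAD.mono_left sA2⟩,
        ⟨cB.2, dBC.mono_left sB1, dBD.mono_left sB1⟩, ⟨dBC.mono_left sB2, dBD.mono_left sB2⟩, dCD⟩
    · intro N hN he
      obtain ⟨h1, h2, h3, h4, h5⟩ := h.cls hN.1 he
      obtain ⟨t1, t2, t3, t4⟩ := h.types hN he
      rw [← h1, ← h2, ← h3, ← h4, ← h5]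
      exact ⟨t2, t3, t4⟩
    · intro N hN he
      have := ty1 N hN he
      omega
    · obtain ⟨N, hN, h1⟩ := h.three h.ntY
      have he : e ∈ N := by
        by_contra he
        exact h1 (h.one hN he).2
      have := ty1 N hN he
      exact ⟨N, hN, he, by omega⟩
    · obtain ⟨N, hN, h1⟩ := h.three h.ntX
      have he : e ∈ N := by
        by_contra he
        exact h1 (h.one hN he).1
      have := ty1 N hN he
      exact ⟨N, hN, he, by omega⟩
  · obtain ⟨N, hN, h1⟩ := h.three h.ntX
    have he : e ∈ N := by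
      by_contra he
      exact h1 (h.one hN he).1
    have := h.pps_ty1 hA hB h3A h3B hj ha hb hua hub hN he
    have h5 : (N ∩ G.cut X).card = 5 := by omega
    have h6 := h.p1X N hN
    rw [h5] at h6
    have e4 : (((5 : ℕ) : ℤ) - 1) = 4 := by norm_num
    rw [e4] at h6
    exact h6

end MG

end ML
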