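import Pool.Agent.ML.G0

/-!
# ML-G8a : exchange lemma for two matchings
-/

set_option autoImplicit false
set_option linter.unusedSectionVars false
set_option linter.unusedFintypeInType false
set_option linter.unusedVariables false

namespace ML

namespace MG

variable {V E : Type} [Fintype V] [Fintype E] [DecidableEq V] [DecidableEq E]

variable {G : MG V E}

/-- Exchange lemma. `M` is a perfect matching of `W ∪ {x1, x2}`, `M'` one of `W ∪ {x3, x4}`.

Proof by strong induction on `W.card` (generalizing everything). Let `f ∈ M` be the edge at `x1`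
(`IsPM.jcover`), `Jn f x1 y`, `y ≠ x1` (`IsPM.jne`), `y ∈ W ∪ {x2}`.
* `y = x2`: `K = insert f M'` is a perfect matching of `W ∪ {x3, x4} ∪ {x1, x2}` (`IsPM.jinsert`): first
  alternative.
* `y ∈ W`: let `g ∈ M'` be the edge at `y`, `Jn g y z`, `z ≠ y`, `z ∈ W ∪ {x3, x4}`.
  - `z = x3`: `K = insert f (M'.erase g)` is a perfect matching of `W ∪ {x1, x4}` and
    `K' = insert g (M.erase f)` one of `W ∪ {x2, x3}` (`IsPM.jerase`, `IsPM.jinsert`; the sets have to be
    rewritten: `(W ∪ {x3, x4}) \ {y, x3} ∪ {x1, y} = W ∪ {x1, x4}` etc.): third alternative.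
  - `z = x4`: in the same way the second alternative.
  - `z ∈ W`: `W2 = W \ {y, z}`. `M.erase f` is a perfect matching of `(W ∪ {x1, x2}) \ {x1, y} = W2 ∪ {z, x2}`
    and `M'.erase g` one of `(W ∪ {x3, x4}) \ {y, z} = W2 ∪ {x3, x4}`. Induction for `W2` and `z, x2, x3, x4`.
    First alternative `K` (of `W2 ∪ {z, x2, x3, x4}`): `insert f K` is one of `W ∪ {x1, x2, x3, x4}`.
    Second `K` (`W2 ∪ {z, x3}`), `K'` (`W2 ∪ {x2, x4}`): `insert f K` is one of `W ∪ {x1, x3}` and
    `insert g K'` is one of `W ∪ {x2, x4}`. Third: the same with `x3`, `x4` exchanged. -/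
theorem exchange (W : Finset V) (x1 x2 x3 x4 : V) (hnd : [x1, x2, x3, x4].Nodup)
    (h1 : x1 ∉ W) (h2 : x2 ∉ W) (h3 : x3 ∉ W) (h4 : x4 ∉ W) (M M' : Finset E)
    (hM : (G.sub (W ∪ {x1, x2})).IsPM M) (hM' : (G.sub (W ∪ {x3, x4})).IsPM M') :
    (∃ K, (G.sub (W ∪ {x1, x2, x3, x4})).IsPM K ∧ K ⊆ M ∪ M') ∨
    (∃ K K', (G.sub (W ∪ {x1, x3})).IsPM K ∧ (G.sub (W ∪ {x2, x4})).IsPM K' ∧ K ⊆ M ∪ M' ∧
      K' ⊆ M ∪ M') ∨
    (∃ K K', (G.sub (W ∪ {x1, x4})).IsPM K ∧ (G.sub (W ∪ {x2, x3})).IsPM K' ∧ K ⊆ M ∪ M' ∧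
      K' ⊆ M ∪ M') := by
  induction hn : W.card using Nat.strong_induction_on generalizing W x1 M M' with
  | _ n ih =>
  simp only [List.nodup_cons, List.mem_cons, List.not_mem_nil, or_false, not_or,
    List.nodup_nil, and_true, not_false_eq_true] at hnd
  obtain ⟨⟨n12, n13, n14⟩, ⟨n23, n24⟩, n34⟩ := hnd
  have hx1 : x1 ∈ (G.sub (W ∪ {x1, x2})).U := by
    rw [gsub_U]; simp
  obtain ⟨f, hf, y, hfy⟩ := hM.jcover hx1
  have hxy : x1 ≠ y := hM.jne hf hfy
  have hfF : f ∈ G.F := by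
    have := hM.1 hf
    rw [gsub_F] at this
    exact ginn_subset _ this
  have hfJ : G.Jn f x1 y := hfy
  have hyU : y ∈ W ∪ {x1, x2} := (hfy.mem (hM.1 hf)).2
  rcases eq_or_ne y x2 with rfl | hyx2
  · -- `y = x2`
    left
    have hx1' : x1 ∉ W ∪ {x3, x4} := by grind
    have hx2' : y ∉ W ∪ {x3, x4} := by grind
    have hK := hM'.jinsert hfF hfJ hxy hx1' hx2'
    have hset : (W ∪ {x3, x4}) ∪ {x1, y} = W ∪ {x1, y, x3, x4} := by
      ext v; grind
    rw [hset] at hK
    exact ⟨_, hK, by grind⟩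
  · have hyW : y ∈ W := by grind
    have hy' : y ∈ (G.sub (W ∪ {x3, x4})).U := by
      rw [gsub_U]; grind
    obtain ⟨g, hg, z, hgz⟩ := hM'.jcover hy'
    have hyz : y ≠ z := hM'.jne hg hgz
    have hgF : g ∈ G.F := by
      have := hM'.1 hg
      rw [gsub_F] at this
      exact ginn_subset _ this
    have hgJ : G.Jn g y z := hgz
    have hzU : z ∈ W ∪ {x3, x4} := (hgz.mem (hM'.1 hg)).2
    have hMe := hM.jerase hf hfy
    have hMe' := hM'.jerase hg hgz
    rcases eq_or_ne z x3 with rfl | hzx3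
    · -- `z = x3`
      right; right
      have s1 : (W ∪ {z, x4}) \ {y, z} = (W \ {y}) ∪ {x4} := by
        ext v; grind
      have s2 : (W ∪ {x1, x2}) \ {x1, y} = (W \ {y}) ∪ {x2} := by
        ext v; grind
      rw [s1] at hMe'
      rw [s2] at hMe
      have hK := hMe'.jinsert hfF hfJ hxy (by grind) (by grind)
      have hK' := hMe.jinsert hgF hgJ hyz (by grind) (by grind)
      have s3 : (W \ {y}) ∪ {x4} ∪ {x1, y} = W ∪ {x1, x4} := by
        ext v; grind
      have s4 : (W \ {y}) ∪ {x2} ∪ {y, z} = W ∪ {x2, z} := by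
        ext v; grind
      rw [s3] at hK
      rw [s4] at hK'
      exact ⟨_, _, hK, hK', by grind, by grind⟩
    · rcases eq_or_ne z x4 with rfl | hzx4
      · -- `z = x4`
        right; left
        have s1 : (W ∪ {x3, z}) \ {y, z} = (W \ {y}) ∪ {x3} := by
          ext v; grind
        have s2 : (W ∪ {x1, x2}) \ {x1, y} = (W \ {y}) ∪ {x2} := by
          ext v; grind
        rw [s1] at hMe'
        rw [s2] at hMe
        have hK := hMe'.jinsert hfF hfJ hxy (by grind) (by grind)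
        have hK' := hMe.jinsert hgF hgJ hyz (by grind) (by grind)
        have s3 : (W \ {y}) ∪ {x3} ∪ {x1, y} = W ∪ {x1, x3} := by
          ext v; grind
        have s4 : (W \ {y}) ∪ {x2} ∪ {y, z} = W ∪ {x2, z} := by
          ext v; grind
        rw [s3] at hK
        rw [s4] at hK'
        exact ⟨_, _, hK, hK', by grind, by grind⟩
      · -- `z ∈ W`
        have hzW : z ∈ W := by grind
        have s1 : (W ∪ {x3, x4}) \ {y, z} = (W \ {y, z}) ∪ {x3, x4} := by
          ext v; grind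
        have s2 : (W ∪ {x1, x2}) \ {x1, y} = (W \ {y, z}) ∪ {z, x2} := by
          ext v; grind
        rw [s1] at hMe'
        rw [s2] at hMe
        have hcard : (W \ {y, z}).card < n := by
          rw [← hn]
          apply Finset.card_lt_card
          rw [Finset.ssubset_iff_subset_ne]
          refine ⟨Finset.sdiff_subset, ?_⟩
          intro h
          have : y ∈ W \ {y, z} := by rw [h]; exact hyW
          grind
        have hnd' : [z, x2, x3, x4].Nodup := by
          simp only [List.nodup_cons, List.mem_cons, List.not_mem_nil, or_false, not_or,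
            List.nodup_nil, and_true, not_false_eq_true]
          grind
        rcases ih _ hcard (W \ {y, z}) z hnd' (by grind) (by grind) (by grind) (by grind) _ _ hMe hMe'
          rfl with ⟨K, hK, hKs⟩ | ⟨K, K', hK, hK', hKs, hKs'⟩ | ⟨K, K', hK, hK', hKs, hKs'⟩
        · left
          have hK2 := hK.jinsert hfF hfJ hxy (by grind) (by grind)
          have s3 : (W \ {y, z}) ∪ {z, x2, x3, x4} ∪ {x1, y} = W ∪ {x1, x2, x3, x4} := by
            ext v; grind
          rw [s3] at hK2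
          exact ⟨_, hK2, by grind⟩
        · right; left
          have hK2 := hK.jinsert hfF hfJ hxy (by grind) (by grind)
          have hK2' := hK'.jinsert hgF hgJ hyz (by grind) (by grind)
          have s3 : (W \ {y, z}) ∪ {z, x3} ∪ {x1, y} = W ∪ {x1, x3} := by
            ext v; grind
          have s4 : (W \ {y, z}) ∪ {x2, x4} ∪ {y, z} = W ∪ {x2, x4} := by
            ext v; grind
          rw [s3] at hK2
          rw [s4] at hK2'
          exact ⟨_, _, hK2, hK2', by grind, by grind⟩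
        · right; right
          have hK2 := hK.jinsert hfF hfJ hxy (by grind) (by grind)
          have hK2' := hK'.jinsert hgF hgJ hyz (by grind) (by grind)
          have s3 : (W \ {y, z}) ∪ {z, x4} ∪ {x1, y} = W ∪ {x1, x4} := by
            ext v; grind
          have s4 : (W \ {y, z}) ∪ {x2, x3} ∪ {y, z} = W ∪ {x2, x3} := by
            ext v; grind
          rw [s3] at hK2
          rw [s4] at hK2'
          exact ⟨_, _, hK2, hK2', by grind, by grind⟩

/-- The exchange lemma for exit sets. Proof: `exchange` with `W = D`; subsets of `M ∪ M'` are in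
`tou D`. -/
theorem Ex.exchange {D : Finset V} {x1 x2 x3 x4 : V} (hnd : [x1, x2, x3, x4].Nodup)
    (h1 : x1 ∉ D) (h2 : x2 ∉ D) (h3 : x3 ∉ D) (h4 : x4 ∉ D) (h : G.Ex D {x1, x2})
    (h' : G.Ex D {x3, x4}) :
    G.Ex D {x1, x2, x3, x4} ∨ (G.Ex D {x1, x3} ∧ G.Ex D {x2, x4}) ∨
      (G.Ex D {x1, x4} ∧ G.Ex D {x2, x3}) := by
  obtain ⟨M, hM, hMt⟩ := h
  obtain ⟨M', hM', hMt'⟩ := h'
  have hu : M ∪ M' ⊆ G.tou D := Finset.union_subset hMt hMt'
  rcases MG.exchange D x1 x2 x3 x4 hnd h1 h2 h3 h4 M M' hM hM' with ⟨K, hK, hKs⟩ |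
    ⟨K, K', hK, hK', hKs, hKs'⟩ | ⟨K, K', hK, hK', hKs, hKs'⟩
  · exact Or.inl ⟨K, hK, hKs.trans hu⟩
  · exact Or.inr (Or.inl ⟨⟨K, hK, hKs.trans hu⟩, ⟨K', hK', hKs'.trans hu⟩⟩)
  · exact Or.inr (Or.inr ⟨⟨K, hK, hKs.trans hu⟩, ⟨K', hK', hKs'.trans hu⟩⟩)

end MG

end ML
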