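import Pool.Agent.ML.G2b

/-!
# ML-G8b : exit sets from perfect matchings
-/

set_option autoImplicit false
set_option linter.unusedSectionVars false
set_option linter.unusedFintypeInType false
set_option linter.unusedVariables false

namespace ML

namespace MG

variable {V E : Type} [Fintype V] [Fintype E] [DecidableEq V] [DecidableEq E]

variable {G : MG V E}

/-- If `S` is the set of outer ends of the `N`-edges leaving `D`, then `S` is an exit set of `D`.

Proof. `K = N ∩ tou D`. `K ⊆ inn (D ∪ S)` by `ho`. For `v ∈ D ∪ S` the sum of `inc f v` over `K` equals the sum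
over `N` (which is 1): an edge `f ∈ N` with `inc f v ≠ 0` touches `D` (clear if `v ∈ D`; if `v ∈ S`, by `hi`
there is `g ∈ N` joining `v` to `D`, and `f = g` by `IsPM.juniq`). `(G.sub _).inc = G.inc` by `rfl`. -/
theorem IsPM.toEx {N : Finset E} (hN : G.IsPM N) {D S : Finset V} (hD : D ⊆ G.U) (hS : S ⊆ G.U)
    (hd : Disjoint D S)
    (ho : ∀ f ∈ N, ∀ d w, G.Jn f d w → d ∈ D → w ∉ D → w ∈ S)
    (hi : ∀ w ∈ S, ∃ f ∈ N, ∃ d ∈ D, G.Jn f w d) : G.Ex D S := by
  refine ⟨N ∩ G.tou D, ⟨?_, ?_⟩, Finset.inter_subset_right⟩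
  · intro f hf
    rw [Finset.mem_inter] at hf
    obtain ⟨hfN, hft⟩ := hf
    have hfF := hN.1 hfN
    rw [(jn_self (G := G) f).mem_tou hfF D] at hft
    rw [gsub_F, (jn_self (G := G) f).mem_inn hfF, Finset.mem_union, Finset.mem_union]
    by_cases h1 : G.s f ∈ D
    · by_cases h2 : G.t f ∈ D
      · exact ⟨Or.inl h1, Or.inl h2⟩
      · exact ⟨Or.inl h1, Or.inr (ho f hfN _ _ (jn_self f) h1 h2)⟩
    · have h2 : G.t f ∈ D := hft.resolve_left h1
      exact ⟨Or.inr (ho f hfN _ _ (jn_self f).symm h2 h1), Or.inl h2⟩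
  · intro v hv
    rw [gsub_U, Finset.mem_union] at hv
    have hvU : v ∈ G.U := by
      rcases hv with h | h
      · exact hD h
      · exact hS h
    have h1 : ∑ f ∈ N ∩ G.tou D, (G.sub (D ∪ S)).inc f v = ∑ f ∈ N, G.inc f v := by
      apply Finset.sum_subset Finset.inter_subset_left
      intro f hf hf'
      have hfF := hN.1 hf
      have hft : f ∉ G.tou D := fun h => hf' (Finset.mem_inter.2 ⟨hf, h⟩)
      have key : ∀ w, ¬ G.Jn f v w := by
        intro w hw
        rcases hv with h | h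
        · exact hft ((hw.mem_tou hfF D).2 (Or.inl h))
        · obtain ⟨g, hg, d, hdD, hj⟩ := hi v h
          have hfg := hN.juniq hf hg hw hj
          apply hft
          rw [hfg]
          exact (hj.mem_tou (hN.1 hg) D).2 (Or.inr hdD)
      have a1 : G.s f ≠ v := fun h => key (G.t f) (Or.inl ⟨h, rfl⟩)
      have a2 : G.t f ≠ v := fun h => key (G.s f) (Or.inr ⟨rfl, h⟩)
      unfold inc sub
      simp [a1, a2]
    rw [h1]
    exact hN.2 v hvU

/-- Two exits: if `N` leaves `D` exactly twice, the two outer ends form an exit set. Proof: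
`IsPM.two_cut` (with `W = D`) and `IsPM.toEx`; an `N`-edge leaving `D` is one of the two by the
cardinality. -/
theorem IsPM.toEx2 {N : Finset E} (hN : G.IsPM N) {D : Finset V} (hD : D ⊆ G.U)
    (h2 : (N ∩ G.cut D).card = 2) :
    ∃ f g b d, f ∈ N ∧ g ∈ N ∧ f ∈ G.cut D ∧ g ∈ G.cut D ∧ b ≠ d ∧ b ∉ D ∧ d ∉ D ∧ b ∈ G.U ∧
      d ∈ G.U ∧ (∃ a ∈ D, G.Jn f b a) ∧ (∃ c ∈ D, G.Jn g d c) ∧ G.Ex D {b, d} := by
  obtain ⟨f, g, hfg, hfN, hgN, a, b, c, d, hj, ha, hb, hbU, hj', hc, hd, hdU, hac, hbd⟩ :=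
    hN.two_cut hD h2
  have hfc : f ∈ G.cut D := (hj.mem_cut (hN.1 hfN) D).2 (fun h => hb (h.1 ha))
  have hgc : g ∈ G.cut D := (hj'.mem_cut (hN.1 hgN) D).2 (fun h => hd (h.1 hc))
  have heq : ({f, g} : Finset E) = N ∩ G.cut D := by
    apply Finset.eq_of_subset_of_card_le
    · intro k hk
      rw [Finset.mem_insert, Finset.mem_singleton] at hk
      rcases hk with rfl | rfl
      · exact Finset.mem_inter.2 ⟨hfN, hfc⟩
      · exact Finset.mem_inter.2 ⟨hgN, hgc⟩
    · rw [h2, Finset.card_pair hfg]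
  have hout : ∀ (k : E) (p q x w : V), G.Jn k p q → p ∈ D → q ∉ D → G.Jn k x w → x ∈ D →
      w ∉ D → w = q := by
    intro k p q x w h1 hp hq h2 hx hw
    rcases h1 with ⟨h1, h1'⟩ | ⟨h1, h1'⟩ <;> rcases h2 with ⟨h2, h2'⟩ | ⟨h2, h2'⟩
    · rw [← h2', h1']
    · exact absurd hp (by rw [← h1, h2]; exact hw)
    · exact absurd hx (by rw [← h2, h1]; exact hq)
    · rw [← h2, h1]
  refine ⟨f, g, b, d, hfN, hgN, hfc, hgc, hbd, hb, hd, hbU, hdU, ⟨a, ha, hj.symm⟩,
    ⟨c, hc, hj'.symm⟩, ?_⟩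
  refine hN.toEx hD ?_ ?_ ?_ ?_
  · intro w hw
    rw [Finset.mem_insert, Finset.mem_singleton] at hw
    rcases hw with rfl | rfl
    · exact hbU
    · exact hdU
  · rw [Finset.disjoint_right]
    intro w hw
    rw [Finset.mem_insert, Finset.mem_singleton] at hw
    rcases hw with rfl | rfl
    · exact hb
    · exact hd
  · intro k hk x w hkj hx hw
    have hkc : k ∈ N ∩ G.cut D :=
      Finset.mem_inter.2 ⟨hk, (hkj.mem_cut (hN.1 hk) D).2 (fun h => hw (h.1 hx))⟩
    rw [← heq, Finset.mem_insert, Finset.mem_singleton] at hkc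
    rw [Finset.mem_insert, Finset.mem_singleton]
    rcases hkc with rfl | rfl
    · exact Or.inl (hout k a b x w hj ha hb hkj hx hw)
    · exact Or.inr (hout k c d x w hj' hc hd hkj hx hw)
  · intro w hw
    rw [Finset.mem_insert, Finset.mem_singleton] at hw
    rcases hw with rfl | rfl
    · exact ⟨f, hfN, a, ha, hj.symm⟩
    · exact ⟨g, hgN, c, hc, hj'.symm⟩

/-- No exits: `∅` is an exit set. -/
theorem IsPM.toEx0 {N : Finset E} (hN : G.IsPM N) {D : Finset V} (hD : D ⊆ G.U)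
    (h0 : (N ∩ G.cut D).card = 0) : G.Ex D ∅ := by
  refine hN.toEx hD (Finset.empty_subset _) (Finset.disjoint_empty_right _) ?_ ?_
  · intro f hf x w hj hx hw
    exfalso
    have hfc : f ∈ N ∩ G.cut D :=
      Finset.mem_inter.2 ⟨hf, (hj.mem_cut (hN.1 hf) D).2 (fun h => hw (h.1 hx))⟩
    rw [Finset.card_eq_zero.1 h0] at hfc
    exact absurd hfc (Finset.notMem_empty f)
  · intro w hw
    exact absurd hw (Finset.notMem_empty w)

/-- Numbers of exits of a matching of `D ∪ S` touching `D`, by classes: for `T` disjoint from `D`,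
the number of `K`-edges between `T` and `D` is `|S ∩ T|`.

Proof. `hK.jsum y` with `y v = if v ∈ T then 1 else 0` (in `ℕ`) over `G.sub (D ∪ S)`: the right side is
`|S ∩ T|` (`T` is disjoint from `D`); an edge of `K` touches `D`, has at most one end in `T`, and it has one iff
it is in `btw T D`. -/
theorem IsPM.cnt_tou {K : Finset E} {D S T : Finset V} (hDS : D ∪ S ⊆ G.U)
    (hK : (G.sub (D ∪ S)).IsPM K) (ht : K ⊆ G.tou D) (hdT : Disjoint D T) :
    (K ∩ G.btw T D).card = (S ∩ T).card := by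
  have h := hK.jsum (fun v => if v ∈ T then (1 : ℕ) else 0)
  have h1 : ∑ v ∈ (G.sub (D ∪ S)).U, (if v ∈ T then (1 : ℕ) else 0) = (S ∩ T).card := by
    rw [gsub_U, ← Finset.sum_filter, Finset.filter_mem_eq_inter, Finset.union_inter_distrib_right,
      Finset.disjoint_iff_inter_eq_empty.1 hdT, Finset.empty_union, Finset.card_eq_sum_ones]
  rw [h1] at h
  rw [← h, gcard_inter]
  apply Finset.sum_congr rfl
  intro f hf
  have hft := ht hf
  have hfF : f ∈ G.F := (Finset.mem_filter.1 hft).1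
  rw [(jn_self (G := G) f).mem_tou hfF D] at hft
  have hb := (jn_self (G := G) f).mem_btw hfF T D
  have hs : G.s f ∈ D → G.s f ∉ T := fun h => Finset.disjoint_left.1 hdT h
  have ht' : G.t f ∈ D → G.t f ∉ T := fun h => Finset.disjoint_left.1 hdT h
  show (if f ∈ G.btw T D then 1 else 0) =
    (if G.s f ∈ T then 1 else 0) + (if G.t f ∈ T then 1 else 0)
  by_cases s1 : G.s f ∈ D
  · have s2 := hs s1
    by_cases t1 : G.t f ∈ D
    · have t2 := ht' t1
      simp [hb, s1, s2, t1, t2]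
    · by_cases t2 : G.t f ∈ T <;> simp [hb, s1, s2, t1, t2]
  · have t1 : G.t f ∈ D := hft.resolve_left s1
    have t2 := ht' t1
    by_cases s2 : G.s f ∈ T <;> simp [hb, s1, s2, t1, t2]

end MG

end ML
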