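import Pool.Agent.ML.G6
import Pool.Agent.ML.G8a
import Pool.Agent.ML.G8b

/-!
# ML-G9a : elementary facts on `PPS`
-/

set_option autoImplicit false
set_option linter.unusedSectionVars false
set_option linter.unusedFintypeInType false
set_option linter.unusedVariables false

namespace ML

namespace MG

variable {V E : Type} [Fintype V] [Fintype E] [DecidableEq V] [DecidableEq E]

variable {G : MG V E} {e : E} {u0 v0 : V} {P Q R S C D : Finset V}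

/-- All disjointness relations. -/
theorem PPS.dj (h : G.PPS e u0 v0 P Q R S C D) :
    (Disjoint P Q ∧ Disjoint P R ∧ Disjoint P S ∧ Disjoint P C ∧ Disjoint P D) ∧
    (Disjoint Q R ∧ Disjoint Q S ∧ Disjoint Q C ∧ Disjoint Q D) ∧
    (Disjoint R S ∧ Disjoint R C ∧ Disjoint R D) ∧ (Disjoint S C ∧ Disjoint S D) ∧
    Disjoint C D := by
  have hd := h.dis
  simp only [List.pairwise_cons, List.mem_cons, List.not_mem_nil, or_false, forall_eq_or_imp,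
    forall_eq, List.Pairwise.nil, and_true, IsEmpty.forall_iff, implies_true] at hd
  exact hd

/-- Labels: membership in the parts as values of a function with values in `ℕ`. With
`obtain ⟨c, cP, cQ, cR, cS, cC, cD, cU⟩ := h.lab` every statement on membership of finitely many
vertices in the parts is proved by `simp only [cP, cQ, cR, cS, cC, cD, cU] at *; omega`. -/
theorem PPS.lab (h : G.PPS e u0 v0 P Q R S C D) : ∃ c : V → ℕ,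
    (∀ v, v ∈ P ↔ c v = 1) ∧ (∀ v, v ∈ Q ↔ c v = 2) ∧ (∀ v, v ∈ R ↔ c v = 3) ∧
    (∀ v, v ∈ S ↔ c v = 4) ∧ (∀ v, v ∈ C ↔ c v = 5) ∧ (∀ v, v ∈ D ↔ c v = 6) ∧
    (∀ v, v ∈ G.U ↔ 1 ≤ c v ∧ c v ≤ 6) := by
  obtain ⟨⟨h1, h2, h3, h4, h5⟩, ⟨h6, h7, h8, h9⟩, ⟨h10, h11, h12⟩, ⟨h13, h14⟩, h15⟩ := h.dj
  rw [Finset.disjoint_left] at h1 h2 h3 h4 h5 h6 h7 h8 h9 h10 h11 h12 h13 h14 h15
  refine ⟨fun v => if v ∈ P then 1 else if v ∈ Q then 2 else if v ∈ R then 3 else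
    if v ∈ S then 4 else if v ∈ C then 5 else if v ∈ D then 6 else 0, ?_⟩
  have hU : ∀ v, v ∈ G.U ↔ v ∈ P ∨ v ∈ Q ∨ v ∈ R ∨ v ∈ S ∨ v ∈ C ∨ v ∈ D := by
    intro v
    rw [h.cov]
    simp only [Finset.mem_union, or_assoc]
  have key : ∀ v, (v ∈ P ∧ v ∉ Q ∧ v ∉ R ∧ v ∉ S ∧ v ∉ C ∧ v ∉ D) ∨
      (v ∉ P ∧ v ∈ Q ∧ v ∉ R ∧ v ∉ S ∧ v ∉ C ∧ v ∉ D) ∨
      (v ∉ P ∧ v ∉ Q ∧ v ∈ R ∧ v ∉ S ∧ v ∉ C ∧ v ∉ D) ∨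
      (v ∉ P ∧ v ∉ Q ∧ v ∉ R ∧ v ∈ S ∧ v ∉ C ∧ v ∉ D) ∨
      (v ∉ P ∧ v ∉ Q ∧ v ∉ R ∧ v ∉ S ∧ v ∈ C ∧ v ∉ D) ∨
      (v ∉ P ∧ v ∉ Q ∧ v ∉ R ∧ v ∉ S ∧ v ∉ C ∧ v ∈ D) ∨
      (v ∉ P ∧ v ∉ Q ∧ v ∉ R ∧ v ∉ S ∧ v ∉ C ∧ v ∉ D) := by
    intro v
    by_cases a1 : v ∈ P
    · exact Or.inl ⟨a1, h1 a1, h2 a1, h3 a1, h4 a1, h5 a1⟩
    by_cases a2 : v ∈ Q
    · exact Or.inr (Or.inl ⟨a1, a2, h6 a2, h7 a2, h8 a2, h9 a2⟩)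
    by_cases a3 : v ∈ R
    · exact Or.inr (Or.inr (Or.inl ⟨a1, a2, a3, h10 a3, h11 a3, h12 a3⟩))
    by_cases a4 : v ∈ S
    · exact Or.inr (Or.inr (Or.inr (Or.inl ⟨a1, a2, a3, a4, h13 a4, h14 a4⟩)))
    by_cases a5 : v ∈ C
    · exact Or.inr (Or.inr (Or.inr (Or.inr (Or.inl ⟨a1, a2, a3, a4, a5, h15 a5⟩))))
    by_cases a6 : v ∈ D
    · exact Or.inr (Or.inr (Or.inr (Or.inr (Or.inr (Or.inl ⟨a1, a2, a3, a4, a5, a6⟩)))))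
    · exact Or.inr (Or.inr (Or.inr (Or.inr (Or.inr (Or.inr ⟨a1, a2, a3, a4, a5, a6⟩)))))
  refine ⟨?_, ?_, ?_, ?_, ?_, ?_, ?_⟩ <;> intro v
  all_goals
    rcases key v with ⟨a1, a2, a3, a4, a5, a6⟩ | ⟨a1, a2, a3, a4, a5, a6⟩ |
      ⟨a1, a2, a3, a4, a5, a6⟩ | ⟨a1, a2, a3, a4, a5, a6⟩ | ⟨a1, a2, a3, a4, a5, a6⟩ |
      ⟨a1, a2, a3, a4, a5, a6⟩ | ⟨a1, a2, a3, a4, a5, a6⟩ <;> simp [hU, a1, a2, a3, a4, a5, a6]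

/-- The ends of an edge other than `e`. -/
theorem PPS.ends (h : G.PPS e u0 v0 P Q R S C D) {f : E} (hf : f ∈ G.F) (hfe : f ≠ e) {a b : V}
    (hj : G.Jn f a b) :
    (a ∈ P ∧ b ∈ Q) ∨ (a ∈ Q ∧ b ∈ P) ∨ (a ∈ R ∧ b ∈ S) ∨ (a ∈ S ∧ b ∈ R) ∨
    (a ∈ C ∧ b ∈ C) ∨ (a ∈ D ∧ b ∈ D) ∨ (a ∈ P ∧ b ∈ C) ∨ (a ∈ C ∧ b ∈ P) ∨
    (a ∈ P ∧ b ∈ D) ∨ (a ∈ D ∧ b ∈ P) ∨ (a ∈ R ∧ b ∈ C) ∨ (a ∈ C ∧ b ∈ R) ∨
    (a ∈ R ∧ b ∈ D) ∨ (a ∈ D ∧ b ∈ R) ∨ (a ∈ P ∧ b ∈ R) ∨ (a ∈ R ∧ b ∈ P) := by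
  have h1 := h.edge f hf hfe
  rw [hj.mem_btw hf, hj.mem_btw hf, hj.mem_inn hf, hj.mem_inn hf, hj.mem_btw hf, hj.mem_btw hf,
    hj.mem_btw hf, hj.mem_btw hf, hj.mem_btw hf] at h1
  rcases h1 with (⟨h1, h2⟩ | ⟨h1, h2⟩) | (⟨h1, h2⟩ | ⟨h1, h2⟩) | ⟨h1, h2⟩ | ⟨h1, h2⟩ |
    (⟨h1, h2⟩ | ⟨h1, h2⟩) | (⟨h1, h2⟩ | ⟨h1, h2⟩) | (⟨h1, h2⟩ | ⟨h1, h2⟩) |
    (⟨h1, h2⟩ | ⟨h1, h2⟩) | (⟨h1, h2⟩ | ⟨h1, h2⟩) <;> simp [h1, h2]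

/-- The ends of `e`. -/
theorem PPS.ends_e (h : G.PPS e u0 v0 P Q R S C D) {a b : V} (hj : G.Jn e a b) :
    (a = u0 ∧ b = v0) ∨ (a = v0 ∧ b = u0) := by
  have h1 := h.jn
  unfold Jn at h1 hj
  rcases h1 with ⟨h1, h2⟩ | ⟨h1, h2⟩ <;> rcases hj with ⟨h3, h4⟩ | ⟨h3, h4⟩
  · left; exact ⟨h3.symm.trans h1, h4.symm.trans h2⟩
  · right; exact ⟨h4.symm.trans h2, h3.symm.trans h1⟩
  · right; exact ⟨h3.symm.trans h1, h4.symm.trans h2⟩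
  · left; exact ⟨h4.symm.trans h2, h3.symm.trans h1⟩

/-- An edge with an end in `C`, `D`, `P` or `R` is not `e`. -/
theorem PPS.not_e (h : G.PPS e u0 v0 P Q R S C D) {f : E} {a b : V}
    (hj : G.Jn f a b) (ha : a ∈ C ∨ a ∈ D ∨ a ∈ P ∨ a ∈ R) : f ≠ e := by
  rintro rfl
  obtain ⟨c, cP, cQ, cR, cS, cC, cD, cU⟩ := h.lab
  have hu := h.hu
  have hv := h.hv
  simp only [cP, cQ, cR, cS, cC, cD] at ha hu hv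
  rcases h.ends_e hj with ⟨rfl, _⟩ | ⟨rfl, _⟩ <;> omega

/-- Neighbours of a vertex of `C`. -/
theorem PPS.atC (h : G.PPS e u0 v0 P Q R S C D) {f : E} (hf : f ∈ G.F) {a b : V}
    (hj : G.Jn f a b) (ha : a ∈ C) : f ≠ e ∧ (b ∈ C ∨ b ∈ P ∨ b ∈ R) := by
  have hfe : f ≠ e := h.not_e hj (Or.inl ha)
  refine ⟨hfe, ?_⟩
  have h1 := h.ends hf hfe hj
  obtain ⟨c, cP, cQ, cR, cS, cC, cD, cU⟩ := h.lab
  simp only [cP, cQ, cR, cS, cC, cD] at h1 ha ⊢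
  omega

/-- Neighbours of a vertex of `D`. -/
theorem PPS.atD (h : G.PPS e u0 v0 P Q R S C D) {f : E} (hf : f ∈ G.F) {a b : V}
    (hj : G.Jn f a b) (ha : a ∈ D) : f ≠ e ∧ (b ∈ D ∨ b ∈ P ∨ b ∈ R) := h.swap.atC hf hj ha

/-- Neighbours of a vertex of `P`. -/
theorem PPS.atP (h : G.PPS e u0 v0 P Q R S C D) {f : E} (hf : f ∈ G.F) {a b : V}
    (hj : G.Jn f a b) (ha : a ∈ P) : f ≠ e ∧ (b ∈ Q ∨ b ∈ C ∨ b ∈ D ∨ b ∈ R) := by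
  have hfe : f ≠ e := h.not_e hj (Or.inr (Or.inr (Or.inl ha)))
  refine ⟨hfe, ?_⟩
  have h1 := h.ends hf hfe hj
  obtain ⟨c, cP, cQ, cR, cS, cC, cD, cU⟩ := h.lab
  simp only [cP, cQ, cR, cS, cC, cD] at h1 ha ⊢
  omega

/-- Neighbours of a vertex of `R`. -/
theorem PPS.atR (h : G.PPS e u0 v0 P Q R S C D) {f : E} (hf : f ∈ G.F) {a b : V}
    (hj : G.Jn f a b) (ha : a ∈ R) : f ≠ e ∧ (b ∈ S ∨ b ∈ C ∨ b ∈ D ∨ b ∈ P) :=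
  h.flip.atP hf hj ha

/-- Neighbours of a vertex of `Q`. -/
theorem PPS.atQ (h : G.PPS e u0 v0 P Q R S C D) {f : E} (hf : f ∈ G.F) {a b : V}
    (hj : G.Jn f a b) (ha : a ∈ Q) : b ∈ P ∨ (a = u0 ∧ b = v0) := by
  obtain ⟨c, cP, cQ, cR, cS, cC, cD, cU⟩ := h.lab
  by_cases hfe : f = e
  · subst hfe
    have hv := h.hv
    rcases h.ends_e hj with ⟨h1, h2⟩ | ⟨h1, h2⟩
    · exact Or.inr ⟨h1, h2⟩
    · exfalso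
      rw [h1] at ha
      simp only [cP, cQ, cR, cS, cC, cD] at ha hv
      omega
  · have h1 := h.ends hf hfe hj
    left
    simp only [cP, cQ, cR, cS, cC, cD] at h1 ha ⊢
    omega

/-- Neighbours of a vertex of `S`. -/
theorem PPS.atS (h : G.PPS e u0 v0 P Q R S C D) {f : E} (hf : f ∈ G.F) {a b : V}
    (hj : G.Jn f a b) (ha : a ∈ S) : b ∈ R ∨ (a = v0 ∧ b = u0) := h.flip.atQ hf hj ha

/-- Subsets of `U`. -/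
theorem PPS.subU (h : G.PPS e u0 v0 P Q R S C D) :
    P ⊆ G.U ∧ Q ⊆ G.U ∧ R ⊆ G.U ∧ S ⊆ G.U ∧ C ⊆ G.U ∧ D ⊆ G.U := by
  obtain ⟨c, cP, cQ, cR, cS, cC, cD, cU⟩ := h.lab
  refine ⟨?_, ?_, ?_, ?_, ?_, ?_⟩ <;>
  · intro v hv
    simp only [cP, cQ, cR, cS, cC, cD, cU] at hv ⊢
    omega

/-- Extension to a perfect matching without `e`. -/
theorem PPS.ext (h : G.PPS e u0 v0 P Q R S C D) {f : E} (hf : f ∈ G.F) (hfe : f ≠ e) :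
    ∃ N, G.IsPM N ∧ e ∉ N ∧ f ∈ N := by
  obtain ⟨N, h1, h2⟩ := h.mc.2 f (Finset.mem_erase.2 ⟨hfe, hf⟩)
  exact ⟨N, (gisPM_del.1 h1).1, (gisPM_del.1 h1).2, h2⟩

/-- Exits of a set of vertices different from `e`. -/
theorem PPS.exit (h : G.PPS e u0 v0 P Q R S C D) {W : Finset V} (hW : W ⊆ G.U)
    (hne : W.Nonempty) (hn : W ≠ G.U) :
    ∃ f ∈ G.F, f ≠ e ∧ ∃ a b, G.Jn f a b ∧ a ∈ W ∧ b ∉ W ∧ b ∈ G.U := by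
  obtain ⟨f, hf⟩ := h.conn W hW hne hn
  rw [gdel_cut, Finset.mem_erase] at hf
  have hfF := gcut_subset _ hf.2
  have hc := hf.2
  rw [(jn_self (G := G) f).mem_cut hfF] at hc
  refine ⟨f, hfF, hf.1, ?_⟩
  by_cases c : G.s f ∈ W
  · exact ⟨G.s f, G.t f, jn_self f, c, by tauto, G.ht f hfF⟩
  · exact ⟨G.t f, G.s f, (jn_self f).symm, by tauto, c, G.hs f hfF⟩

end MG

end ML
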