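import Pool.Agent.ML.G9a

/-!
# ML-G9b : `PPS`: exit sets of `C` and `D`
-/

set_option autoImplicit false
set_option linter.unusedSectionVars false
set_option linter.unusedFintypeInType false
set_option linter.unusedVariables false

namespace ML

namespace MG

variable {V E : Type} [Fintype V] [Fintype E] [DecidableEq V] [DecidableEq E]

variable {G : MG V E} {e : E} {u0 v0 : V} {P Q R S C D : Finset V}

/-- The edges leaving `C`. -/
private theorem g9b_cut (h : G.PPS e u0 v0 P Q R S C D) {N : Finset E} (hN : N ⊆ G.F) :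
    (N ∩ G.cut C).card = (N ∩ G.btw P C).card + (N ∩ G.btw R C).card := by
  obtain ⟨c, cP, cQ, cR, cS, cC, cD, cU⟩ := h.lab
  have hd : Disjoint (N ∩ G.btw P C) (N ∩ G.btw R C) := by
    rw [Finset.disjoint_left]
    intro f hf hf'
    rw [Finset.mem_inter] at hf hf'
    have hj := jn_self (G := G) f
    have h1 := (hj.mem_btw (hN hf.1) P C).1 hf.2
    have h2 := (hj.mem_btw (hN hf.1) R C).1 hf'.2
    simp only [cP, cQ, cR, cS, cC, cD] at h1 h2
    omega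
  rw [← Finset.card_union_of_disjoint hd]
  congr 1
  ext f
  rw [Finset.mem_union, Finset.mem_inter, Finset.mem_inter, Finset.mem_inter]
  by_cases hf : f ∈ N
  · have hj := jn_self (G := G) f
    have hfF := hN hf
    have a1 := fun ha => (h.atC hfF hj ha).2
    have a2 := fun ha => (h.atC hfF hj.symm ha).2
    rw [hj.mem_cut hfF, hj.mem_btw hfF, hj.mem_btw hfF]
    simp only [cP, cQ, cR, cS, cC, cD] at a1 a2 ⊢
    constructor
    · rintro ⟨-, h3⟩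
      by_cases b1 : c (G.s f) = 5
      · have b2 := a1 b1
        by_cases b3 : c (G.t f) = 5
        · exact absurd (by rw [b1, b3]) h3
        · rcases b2 with b2 | b2 | b2
          · exact absurd b2 b3
          · exact Or.inl ⟨hf, Or.inr ⟨b1, b2⟩⟩
          · exact Or.inr ⟨hf, Or.inr ⟨b1, b2⟩⟩
      · by_cases b3 : c (G.t f) = 5
        · rcases a2 b3 with b2 | b2 | b2
          · exact absurd b2 b1
          · exact Or.inl ⟨hf, Or.inl ⟨b2, b3⟩⟩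
          · exact Or.inr ⟨hf, Or.inl ⟨b2, b3⟩⟩
        · exact absurd (iff_of_false b1 b3) h3
    · rintro (⟨-, ⟨b1, b2⟩ | ⟨b1, b2⟩⟩ | ⟨-, ⟨b1, b2⟩ | ⟨b1, b2⟩⟩)
      · exact ⟨hf, fun h3 => by omega⟩
      · exact ⟨hf, fun h3 => by omega⟩
      · exact ⟨hf, fun h3 => by omega⟩
      · exact ⟨hf, fun h3 => by omega⟩
  · simp [hf]

private theorem g9b_exC (h : G.PPS e u0 v0 P Q R S C D) : G.Ex C ∅ := by
  obtain ⟨N, hN, heN, hc⟩ := h.ex2
  have hne : (N ∩ G.btw P D).Nonempty := by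
    rw [← Finset.card_pos, hc]
    norm_num
  obtain ⟨f, hf⟩ := hne
  rw [Finset.mem_inter] at hf
  have hfF := hN.1 hf.1
  have hj := jn_self (G := G) f
  have hfe : f ≠ e := by
    have h1 := (hj.mem_btw hfF P D).1 hf.2
    rcases h1 with ⟨h1, h2⟩ | ⟨h1, h2⟩
    · exact h.not_e hj (Or.inr (Or.inr (Or.inl h1)))
    · exact h.not_e hj (Or.inr (Or.inl h1))
  obtain ⟨N', hN', heN', hfN'⟩ := h.ext hfF hfe
  obtain ⟨t1, t2, t3⟩ := h.ty0 N' hN' heN'
  have hpos : 0 < (N' ∩ G.btw P D).card :=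
    Finset.card_pos.2 ⟨f, Finset.mem_inter.2 ⟨hfN', hf.2⟩⟩
  refine hN'.toEx0 h.subU.2.2.2.2.1 ?_
  rw [g9b_cut h hN'.1]
  omega

/-- The ends in `P` of the edges to `C` of a matching with exactly one such edge. -/
private theorem g9b_one {N : Finset E} (hN : N ⊆ G.F) {P C : Finset V} (hd : Disjoint P C)
    (h1 : (N ∩ G.btw P C).card ≤ 1) {f g : E} (hf : f ∈ N) (hg : g ∈ N) {a b x y : V}
    (hj : G.Jn f a x) (hj' : G.Jn g b y) (ha : a ∈ P) (hb : b ∈ P) (hx : x ∈ C) (hy : y ∈ C) :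
    a = b := by
  have m1 : f ∈ N ∩ G.btw P C :=
    Finset.mem_inter.2 ⟨hf, (hj.mem_btw (hN hf) P C).2 (Or.inl ⟨ha, hx⟩)⟩
  have m2 : g ∈ N ∩ G.btw P C :=
    Finset.mem_inter.2 ⟨hg, (hj'.mem_btw (hN hg) P C).2 (Or.inl ⟨hb, hy⟩)⟩
  have h2 := Finset.card_le_one.1 h1 f m1 g m2
  rw [← h2] at hj'
  rw [Finset.disjoint_left] at hd
  rcases hj with ⟨e1, e2⟩ | ⟨e1, e2⟩ <;> rcases hj' with ⟨e3, e4⟩ | ⟨e3, e4⟩
  · rw [← e1, ← e3]
  · exfalso
    rw [← e1, e3] at ha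
    exact hd ha hy
  · exfalso
    rw [← e2, e4] at ha
    exact hd ha hy
  · rw [← e2, ← e4]

private theorem g9b_zero {N : Finset E} (hN : N ⊆ G.F) {P C : Finset V}
    (h1 : (N ∩ G.btw P C).card = 0) {f : E} (hf : f ∈ N) {a x : V}
    (hj : G.Jn f a x) (ha : a ∈ P) (hx : x ∈ C) : False := by
  have m1 : f ∈ N ∩ G.btw P C :=
    Finset.mem_inter.2 ⟨hf, (hj.mem_btw (hN hf) P C).2 (Or.inl ⟨ha, hx⟩)⟩
  rw [Finset.card_eq_zero] at h1
  rw [h1] at m1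
  exact absurd m1 (Finset.notMem_empty f)

private theorem g9b_two (h : G.PPS e u0 v0 P Q R S C D) {N : Finset E} (hN : G.IsPM N)
    (h2 : (N ∩ G.btw P C).card = 2) (h0 : (N ∩ G.btw R C).card = 0) :
    ∃ a ∈ P, ∃ a' ∈ P, a ≠ a' ∧ G.Ex C {a, a'} := by
  have hc : (N ∩ G.cut C).card = 2 := by
    rw [g9b_cut h hN.1, h2, h0]
  obtain ⟨f, g, b, d, hf, hg, -, -, hbd, hb, hd, -, -, ⟨x, hx, hjx⟩, ⟨y, hy, hjy⟩, hE⟩ :=
    hN.toEx2 h.subU.2.2.2.2.1 hc
  refine ⟨b, ?_, d, ?_, hbd, hE⟩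
  · rcases (h.atC (hN.1 hf) hjx.symm hx).2 with h3 | h3 | h3
    · exact absurd h3 hb
    · exact h3
    · exact (g9b_zero hN.1 h0 hf hjx h3 hx).elim
  · rcases (h.atC (hN.1 hg) hjy.symm hy).2 with h3 | h3 | h3
    · exact absurd h3 hd
    · exact h3
    · exact (g9b_zero hN.1 h0 hg hjy h3 hy).elim

/-- `C` and `D` can be matched inside. `D` follows from `C` by `h.swap`.

Proof for `C`: `D` is nonempty (`h.ex2`: an edge in `btw P D`), so `h.exit` for `D` gives an edge `f ≠ e`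
from `D` to the outside, by `atD` to `P` or `R`; `h.ext`: `N` with `f ∈ N`, `e ∉ N`. By `h.ty0` (the numbers
`P-D` and `R-D` agree and are 1) `N` has no `P-C`, `R-C` edges. By `atC` there is no `N`-edge leaving `C`:
`IsPM.toEx0`. -/
theorem PPS.ex0 (h : G.PPS e u0 v0 P Q R S C D) : G.Ex C ∅ ∧ G.Ex D ∅ := by
  exact ⟨g9b_exC h, g9b_exC h.swap⟩

/-- Type I matching: two exits of `C` in `P`, two exits of `D` in `R`.

Proof. `h.ex1` and `h.ty1`: `N` with `e ∈ N`, `#(P-C) = 2`, `#(R-C) = 0`, `#(R-D) = 2`, `#(P-D) = 0`. Edges of `N`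
leaving `C` are in `btw P C` or `btw R C` (`atC`), so `N ∩ cut C = N ∩ btw P C` has card 2; the same for `D`.
`IsPM.toEx2`. -/
theorem PPS.typeI (h : G.PPS e u0 v0 P Q R S C D) :
    (∃ a ∈ P, ∃ a' ∈ P, a ≠ a' ∧ G.Ex C {a, a'}) ∧ (∃ b ∈ R, ∃ b' ∈ R, b ≠ b' ∧ G.Ex D {b, b'}) := by
  obtain ⟨N, hN, heN, hc⟩ := h.ex1
  obtain ⟨-, t | t⟩ := h.ty1 N hN heN
  · exact ⟨g9b_two h hN t.1 t.2.2.2, g9b_two h.flip.swap hN t.2.1 t.2.2.1⟩
  · omega

/-- Exit pairs: every edge from `P` to `C` gives an exit pair of `C`. Proof: `N` without `e` containing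
`f` (`h.ext`, `atP`); `h.ty0`: `#(P-C) = 1 = #(R-C)`; `N ∩ cut C` has card 2 (`atC`), one exit is `a`, the
other is in `R` (`toEx2`; the exit of the edge `f` is `a`; use `Finset.pair_comm` if necessary). -/
theorem PPS.pairC (h : G.PPS e u0 v0 P Q R S C D) {f : E} (hf : f ∈ G.F) {a c : V}
    (hj : G.Jn f a c) (ha : a ∈ P) (hc : c ∈ C) : ∃ b ∈ R, G.Ex C {a, b} := by
  have hfe := (h.atP hf hj ha).1
  obtain ⟨N, hN, heN, hfN⟩ := h.ext hf hfe
  obtain ⟨t1, t2, t3⟩ := h.ty0 N hN heN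
  have hpos : 0 < (N ∩ G.btw P C).card :=
    Finset.card_pos.2 ⟨f, Finset.mem_inter.2 ⟨hfN, (hj.mem_btw hf P C).2 (Or.inl ⟨ha, hc⟩)⟩⟩
  have hcut : (N ∩ G.cut C).card = 2 := by
    rw [g9b_cut h hN.1]
    omega
  have hP1 : (N ∩ G.btw P C).card ≤ 1 := by omega
  have hR1 : (N ∩ G.btw R C).card ≤ 1 := by omega
  have hPC : Disjoint P C := h.dj.1.2.2.2.1
  have hRC : Disjoint R C := h.dj.2.2.1.2.1
  obtain ⟨f', g, b, d, hf', hg, -, -, hbd, hb, hd, -, -, ⟨x, hx, hjx⟩, ⟨y, hy, hjy⟩, hE⟩ :=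
    hN.toEx2 h.subU.2.2.2.2.1 hcut
  rcases (h.atC (hN.1 hf') hjx.symm hx).2 with h3 | h3 | h3
  · exact absurd h3 hb
  · have hab : a = b := g9b_one hN.1 hPC hP1 hfN hf' hj hjx ha h3 hc hx
    rcases (h.atC (hN.1 hg) hjy.symm hy).2 with h4 | h4 | h4
    · exact absurd h4 hd
    · exact absurd (g9b_one hN.1 hPC hP1 hf' hg hjx hjy h3 h4 hx hy) hbd
    · exact ⟨d, h4, by rw [hab]; exact hE⟩
  · rcases (h.atC (hN.1 hg) hjy.symm hy).2 with h4 | h4 | h4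
    · exact absurd h4 hd
    · have hab : a = d := g9b_one hN.1 hPC hP1 hfN hg hj hjy ha h4 hc hy
      exact ⟨b, h3, by rw [hab, Finset.pair_comm]; exact hE⟩
    · exact absurd (g9b_one hN.1 hRC hR1 hf' hg hjx hjy h3 h4 hx hy) hbd

end MG

end ML
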