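import Pool.Agent.ML.G9a
import Pool.Agent.ML.A4
import Pool.Agent.ML.A7c

/-!
# ML-G9c : `PPS`: matchings of `A` minus three vertices (P3)
-/

set_option autoImplicit false
set_option linter.unusedSectionVars false
set_option linter.unusedFintypeInType false
set_option linter.unusedVariables false

namespace ML

namespace MG

variable {V E : Type} [Fintype V] [Fintype E] [DecidableEq V] [DecidableEq E]

variable {G : MG V E} {e : E} {u0 v0 : V} {P Q R S C D : Finset V}

/-- (P3), 5.9. Proof: `hall` (file `A4`) for the sets `P \ {a, a'}` and `Q \ {u0}` (both of size `|Q| - 1`,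
`h.cardP`, `h.hu`). Let `Z ⊆ Q \ {u0}` be nonempty: `G.inn Z = ∅` (edges at a vertex of `Q` other than `u0`
go to `P`: `atQ`), so `|Z| + 2 ≤ |nb Z|` (`Brick.ind_nb`, file `A7c`), `nb Z ⊆ P` (`atQ`), so
`|nb Z ∩ (P \ {a, a'})| ≥ |Z|`. -/
theorem PPS.P3 (h : G.PPS e u0 v0 P Q R S C D) {a a' : V} (ha : a ∈ P) (ha' : a' ∈ P)
    (hne : a ≠ a') : ∃ M, (G.sub ((P \ {a, a'}) ∪ (Q \ {u0}))).IsPM M := by
  classical
  have hPQ : Disjoint P Q := h.dj.1.1
  have hPU : P ⊆ G.U := by
    rw [h.cov]
    intro x hx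
    simp only [Finset.mem_union]
    exact Or.inl (Or.inl (Or.inl (Or.inl (Or.inl hx))))
  have hQU : Q ⊆ G.U := by
    rw [h.cov]
    intro x hx
    simp only [Finset.mem_union]
    exact Or.inl (Or.inl (Or.inl (Or.inl (Or.inr hx))))
  have hA : P \ {a, a'} ⊆ G.U := Finset.sdiff_subset.trans hPU
  have hB : Q \ {u0} ⊆ G.U := Finset.sdiff_subset.trans hQU
  have hd : Disjoint (P \ {a, a'}) (Q \ {u0}) :=
    Finset.disjoint_of_subset_left Finset.sdiff_subset
      (Finset.disjoint_of_subset_right Finset.sdiff_subset hPQ)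
  have hc : (P \ {a, a'}).card = (Q \ {u0}).card := by
    have h1 : ({a, a'} : Finset V) ⊆ P := by
      intro x hx
      rw [Finset.mem_insert, Finset.mem_singleton] at hx
      rcases hx with rfl | rfl
      · exact ha
      · exact ha'
    have h2 : ({u0} : Finset V) ⊆ Q := Finset.singleton_subset_iff.2 h.hu
    rw [Finset.card_sdiff_of_subset h1, Finset.card_sdiff_of_subset h2, Finset.card_pair hne,
      Finset.card_singleton, h.cardP]
    omega
  obtain ⟨N, hN, -⟩ := hall G hA hB hd hc (by
    intro Z hZ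
    rcases Finset.eq_empty_or_nonempty Z with h0 | h0
    · rw [h0, Finset.card_empty]
      exact Nat.zero_le _
    · have hZQ : ∀ z ∈ Z, z ∈ Q ∧ z ≠ u0 := by
        intro z hz
        have h1 := hZ hz
        rw [Finset.mem_sdiff, Finset.mem_singleton] at h1
        exact h1
      have hat : ∀ f ∈ G.F, ∀ x y, G.Jn f x y → x ∈ Z → y ∈ P := by
        intro f hf x y hj hx
        rcases h.atQ hf hj (hZQ x hx).1 with h1 | h1
        · exact h1
        · exact absurd h1.1 (hZQ x hx).2
      have hinn : G.inn Z = ∅ := by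
        rw [Finset.eq_empty_iff_forall_notMem]
        intro f hf
        obtain ⟨hfF, h1, h2⟩ := (mem_inn G).1 hf
        have h3 := hat f hfF _ _ (jn_self f) h1
        exact Finset.disjoint_left.1 hPQ h3 (hZQ _ h2).1
      have hnb : G.nb Z ⊆ P := by
        intro v hv
        obtain ⟨-, f, hf, h1⟩ := (mem_nb G).1 hv
        rcases h1 with ⟨h1, h2⟩ | ⟨h1, h2⟩
        · rw [← h1]
          exact hat f hf _ _ (jn_self f).symm h2
        · rw [← h1]
          exact hat f hf _ _ (jn_self f) h2
      have h1 := h.brick.ind_nb (hZ.trans hB) h0 hinn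
      have h2 : G.nb Z ∩ (P \ {a, a'}) = G.nb Z \ {a, a'} := by
        ext x
        simp only [Finset.mem_inter, Finset.mem_sdiff]
        constructor
        · rintro ⟨h3, -, h4⟩
          exact ⟨h3, h4⟩
        · rintro ⟨h3, h4⟩
          exact ⟨h3, hnb h3, h4⟩
      rw [h2]
      have h3 := Finset.le_card_sdiff ({a, a'} : Finset V) (G.nb Z)
      have h4 : ({a, a'} : Finset V).card ≤ 2 := Finset.card_le_two
      omega)
  exact ⟨N, hN⟩

end MG

end ML
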