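import Pool.Agent.ML.G9c

/-!
# ML-G9d : `PPS`: construction of perfect matchings
-/

set_option autoImplicit false
set_option linter.unusedSectionVars false
set_option linter.unusedFintypeInType false
set_option linter.unusedVariables false

namespace ML

namespace MG

variable {V E : Type} [Fintype V] [Fintype E] [DecidableEq V] [DecidableEq E]

variable {G : MG V E} {e : E} {u0 v0 : V} {P Q R S C D : Finset V}

private theorem g9d_not {W X Y : Finset V} {M : Finset E} (hM : (G.sub W).IsPM M)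
    (hd : Disjoint W Y) {f : E} (hf : f ∈ M) : f ∉ G.btw X Y := by
  intro hb
  have h1 := hM.1 hf
  rw [gsub_F] at h1
  unfold inn at h1
  unfold btw at hb
  rw [Finset.mem_filter] at h1 hb
  rw [Finset.disjoint_left] at hd
  rcases hb.2 with ⟨_, h2⟩ | ⟨h2, _⟩
  · exact hd h1.2.2 h2
  · exact hd h1.2.1 h2

/-- Construction of a perfect matching with `e` from partial matchings.

Proof. Let `K1, K2` be the matchings of `Ex C S1`, `Ex D S2`. The intersection of `S1 ∪ S2 ∪ T` with `P` is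
`{a, a'}`, `a ≠ a'` (`Finset.card_eq_two`), with `R` it is `{b, b'}`. `M1` := (P3) for `a, a'`, `M2` := (P3) of
`h.flip` for `b, b'`. `N = {e} ∪ K1 ∪ K2 ∪ L ∪ M1 ∪ M2` is a perfect matching: repeated `IsPM.junion` and
`isPM_jsingle` for the pairwise disjoint sets `{u0, v0}`, `C ∪ S1`, `D ∪ S2`, `T`, `(P \ {a, a'}) ∪ (Q \ {u0})`,
`(R \ {b, b'}) ∪ (S \ {v0})`, whose union is `U` (`h.lab`), then `gisPM_of_sub_U`. The edges of `N` in
`btw P C` are those of `K1` (`e`, `K2`, `L`, `M1`, `M2` have no end in `C`), and their number is `|S1 ∩ P|` by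
`IsPM.cnt_tou` with `T = P`; the same for `R`. -/
theorem PPS.build (h : G.PPS e u0 v0 P Q R S C D) {S1 S2 T : Finset V} {L : Finset E}
    (h1 : G.Ex C S1) (h2 : G.Ex D S2) (hL : (G.sub T).IsPM L) (d12 : Disjoint S1 S2)
    (d1T : Disjoint S1 T) (d2T : Disjoint S2 T) (hs : S1 ∪ S2 ∪ T ⊆ P ∪ R)
    (hP : ((S1 ∪ S2 ∪ T) ∩ P).card = 2) (hR : ((S1 ∪ S2 ∪ T) ∩ R).card = 2) :
    ∃ N, G.IsPM N ∧ e ∈ N ∧ L ⊆ N ∧ (N ∩ G.btw P C).card = (S1 ∩ P).card ∧
      (N ∩ G.btw R C).card = (S1 ∩ R).card := by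
  obtain ⟨c, cP, cQ, cR, cS, cC, cD, cU⟩ := h.lab
  obtain ⟨K1, hK1, hK1t⟩ := h1
  obtain ⟨K2, hK2, hK2t⟩ := h2
  obtain ⟨a, a', hne, hset⟩ := Finset.card_eq_two.1 hP
  obtain ⟨b, b', hneb, hsetb⟩ := Finset.card_eq_two.1 hR
  rw [Finset.disjoint_left] at d12 d1T d2T
  have f0 : ∀ v, v ∈ S1 ∨ v ∈ S2 ∨ v ∈ T → c v = 1 ∨ c v = 3 := by
    intro v hv
    have h3 : v ∈ P ∪ R := hs (by
      rw [Finset.mem_union, Finset.mem_union]
      tauto)
    rw [Finset.mem_union, cP, cR] at h3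
    exact h3
  have fa : ∀ v, (v ∈ S1 ∨ v ∈ S2 ∨ v ∈ T) ∧ c v = 1 ↔ v = a ∨ v = a' := by
    intro v
    have h3 := Finset.ext_iff.1 hset v
    rw [Finset.mem_inter, Finset.mem_union, Finset.mem_union, cP, Finset.mem_insert,
      Finset.mem_singleton] at h3
    tauto
  have fb : ∀ v, (v ∈ S1 ∨ v ∈ S2 ∨ v ∈ T) ∧ c v = 3 ↔ v = b ∨ v = b' := by
    intro v
    have h3 := Finset.ext_iff.1 hsetb v
    rw [Finset.mem_inter, Finset.mem_union, Finset.mem_union, cR, Finset.mem_insert,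
      Finset.mem_singleton] at h3
    tauto
  have ca : c a = 1 := ((fa a).2 (Or.inl rfl)).2
  have ca' : c a' = 1 := ((fa a').2 (Or.inr rfl)).2
  have cb : c b = 3 := ((fb b).2 (Or.inl rfl)).2
  have cb' : c b' = 3 := ((fb b').2 (Or.inr rfl)).2
  have cu : c u0 = 2 := (cQ u0).1 h.hu
  have cv : c v0 = 4 := (cS v0).1 h.hv
  obtain ⟨M1, hM1⟩ := h.P3 ((cP a).2 ca) ((cP a').2 ca') hne
  obtain ⟨M2, hM2⟩ := h.flip.P3 ((cR b).2 cb) ((cR b').2 cb') hneb
  have hne0 : u0 ≠ v0 := by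
    intro h0
    rw [h0] at cu
    omega
  have he0 := isPM_jsingle h.he h.jn hne0
  -- labels for the other sets
  obtain ⟨d, dS1, dS2, dT⟩ : ∃ d : V → ℕ, (∀ v, v ∈ S1 ↔ d v = 1) ∧ (∀ v, v ∈ S2 ↔ d v = 2) ∧
      (∀ v, v ∈ T ↔ d v = 3) := by
    refine ⟨fun v => if v ∈ S1 then 1 else if v ∈ S2 then 2 else if v ∈ T then 3 else 0, ?_, ?_, ?_⟩
    · intro v
      by_cases e1 : v ∈ S1
      · simp [e1]
      · by_cases e2 : v ∈ S2 <;> by_cases e3 : v ∈ T <;> simp [e1, e2, e3]
    · intro v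
      by_cases e1 : v ∈ S1
      · simp [e1, d12 e1]
      · by_cases e2 : v ∈ S2 <;> by_cases e3 : v ∈ T <;> simp [e1, e2, e3]
    · intro v
      by_cases e1 : v ∈ S1
      · simp [e1, d1T e1]
      · by_cases e2 : v ∈ S2
        · simp [e1, e2, d2T e2]
        · by_cases e3 : v ∈ T <;> simp [e1, e2, e3]
  obtain ⟨x, xa, xb⟩ : ∃ x : V → ℕ, (∀ v, (v = a ∨ v = a') ↔ x v = 1) ∧
      (∀ v, (v = b ∨ v = b') ↔ x v = 3) := by
    refine ⟨fun v => if v = a ∨ v = a' then 1 else if v = b ∨ v = b' then 3 else 0, ?_, ?_⟩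
    · intro v
      show _ ↔ (if v = a ∨ v = a' then 1 else if v = b ∨ v = b' then 3 else 0) = 1
      by_cases e1 : v = a ∨ v = a'
      · rw [if_pos e1]
        exact iff_of_true e1 rfl
      · rw [if_neg e1]
        refine iff_of_false e1 ?_
        split_ifs <;> simp
    · intro v
      show _ ↔ (if v = a ∨ v = a' then 1 else if v = b ∨ v = b' then 3 else 0) = 3
      by_cases e1 : v = a ∨ v = a'
      · have e2 : ¬ (v = b ∨ v = b') := by
          intro e3
          have k1 := ((fa v).2 e1).2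
          have k2 := ((fb v).2 e3).2
          omega
        rw [if_pos e1]
        exact iff_of_false e2 (by omega)
      · rw [if_neg e1]
        by_cases e2 : v = b ∨ v = b'
        · rw [if_pos e2]
          exact iff_of_true e2 rfl
        · rw [if_neg e2]
          exact iff_of_false e2 (by omega)
  obtain ⟨z, zu, zv⟩ : ∃ z : V → ℕ, (∀ v, v = u0 ↔ z v = 1) ∧ (∀ v, v = v0 ↔ z v = 2) := by
    refine ⟨fun v => if v = u0 then 1 else if v = v0 then 2 else 0, ?_, ?_⟩
    · intro v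
      show _ ↔ (if v = u0 then 1 else if v = v0 then 2 else 0) = 1
      by_cases e1 : v = u0
      · rw [if_pos e1]
        exact iff_of_true e1 rfl
      · rw [if_neg e1]
        refine iff_of_false e1 ?_
        split_ifs <;> simp
    · intro v
      show _ ↔ (if v = u0 then 1 else if v = v0 then 2 else 0) = 2
      by_cases e1 : v = u0
      · rw [if_pos e1]
        exact iff_of_false (fun h0 => hne0 (e1.symm.trans h0)) (by simp)
      · rw [if_neg e1]
        by_cases e2 : v = v0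
        · rw [if_pos e2]
          exact iff_of_true e2 rfl
        · rw [if_neg e2]
          exact iff_of_false e2 (by simp)
  have k0 : ∀ v, d v = 1 ∨ d v = 2 ∨ d v = 3 → c v = 1 ∨ c v = 3 := by
    intro v
    have := f0 v
    rwa [dS1, dS2, dT] at this
  have ka : ∀ v, (d v = 1 ∨ d v = 2 ∨ d v = 3) ∧ c v = 1 ↔ x v = 1 := by
    intro v
    have := fa v
    rwa [dS1, dS2, dT, xa] at this
  have kb : ∀ v, (d v = 1 ∨ d v = 2 ∨ d v = 3) ∧ c v = 3 ↔ x v = 3 := by
    intro v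
    have := fb v
    rwa [dS1, dS2, dT, xb] at this
  have kz : ∀ v, (z v = 1 → c v = 2) ∧ (z v = 2 → c v = 4) := by
    intro v
    refine ⟨fun h1 => ?_, fun h1 => ?_⟩
    · rw [(zu v).2 h1]; exact cu
    · rw [(zv v).2 h1]; exact cv
  clear f0 fa fb hset hsetb hs hP hR d12 d1T d2T ca ca' cb cb' cu cv
  -- disjointness
  have D1 : Disjoint ({u0, v0} : Finset V) (C ∪ S1) := by
    rw [Finset.disjoint_left]
    intro v hv hv'
    simp only [Finset.mem_insert, Finset.mem_singleton, Finset.mem_union, cC, dS1, zu, zv] at hv hv'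
    have g0 := k0 v
    have g1 := kz v
    omega
  have D2 : Disjoint ({u0, v0} ∪ (C ∪ S1)) (D ∪ S2) := by
    rw [Finset.disjoint_left]
    intro v hv hv'
    simp only [Finset.mem_insert, Finset.mem_singleton, Finset.mem_union, cC, cD, dS1, dS2, zu, zv]
      at hv hv'
    have g0 := k0 v
    have g1 := kz v
    omega
  have D3 : Disjoint ({u0, v0} ∪ (C ∪ S1) ∪ (D ∪ S2)) T := by
    rw [Finset.disjoint_left]
    intro v hv hv'
    simp only [Finset.mem_insert, Finset.mem_singleton, Finset.mem_union, cC, cD, dS1, dS2, dT,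
      zu, zv] at hv hv'
    have g0 := k0 v
    have g1 := kz v
    omega
  have D4 : Disjoint ({u0, v0} ∪ (C ∪ S1) ∪ (D ∪ S2) ∪ T) ((P \ {a, a'}) ∪ (Q \ {u0})) := by
    rw [Finset.disjoint_left]
    intro v hv hv'
    simp only [Finset.mem_insert, Finset.mem_singleton, Finset.mem_union, Finset.mem_sdiff, cC, cD,
      cP, cQ, dS1, dS2, dT, xa, zu, zv] at hv hv'
    have g0 := k0 v
    have g1 := kz v
    have g2 := ka v
    omega
  have D5 : Disjoint ({u0, v0} ∪ (C ∪ S1) ∪ (D ∪ S2) ∪ T ∪ ((P \ {a, a'}) ∪ (Q \ {u0})))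
      ((R \ {b, b'}) ∪ (S \ {v0})) := by
    rw [Finset.disjoint_left]
    intro v hv hv'
    simp only [Finset.mem_insert, Finset.mem_singleton, Finset.mem_union, Finset.mem_sdiff, cC, cD,
      cP, cQ, cR, cS, dS1, dS2, dT, xa, xb, zu, zv] at hv hv'
    have g0 := k0 v
    have g1 := kz v
    have g2 := kb v
    omega
  have j1 := (IsPM.junion D1 he0 hK1).1
  have j2 := (IsPM.junion D2 j1 hK2).1
  have j3 := (IsPM.junion D3 j2 hL).1
  have j4 := (IsPM.junion D4 j3 hM1).1
  have j5 := (IsPM.junion D5 j4 hM2).1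
  have hU : ({u0, v0} ∪ (C ∪ S1) ∪ (D ∪ S2) ∪ T ∪ ((P \ {a, a'}) ∪ (Q \ {u0})) ∪
      ((R \ {b, b'}) ∪ (S \ {v0})) : Finset V) = G.U := by
    ext v
    simp only [Finset.mem_insert, Finset.mem_singleton, Finset.mem_union, Finset.mem_sdiff, cC, cD,
      cP, cQ, cR, cS, cU, dS1, dS2, dT, xa, xb, zu, zv]
    have g0 := k0 v
    have g1 := kz v
    have g2 := ka v
    have g3 := kb v
    omega
  rw [hU] at j5
  have hN := gisPM_of_sub_U j5
  -- the parts do not meet `C`
  have C0 : Disjoint ({u0, v0} : Finset V) C := by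
    rw [Finset.disjoint_left]
    intro v hv hv'
    simp only [Finset.mem_insert, Finset.mem_singleton, cC, zu, zv] at hv hv'
    have g1 := kz v
    omega
  have C2' : Disjoint (D ∪ S2) C := by
    rw [Finset.disjoint_left]
    intro v hv hv'
    simp only [Finset.mem_union, cC, cD, dS2] at hv hv'
    have g0 := k0 v
    omega
  have C3 : Disjoint T C := by
    rw [Finset.disjoint_left]
    intro v hv hv'
    rw [cC] at hv'
    rw [dT] at hv
    have g0 := k0 v
    omega
  have C4 : Disjoint ((P \ {a, a'}) ∪ (Q \ {u0})) C := by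
    rw [Finset.disjoint_left]
    intro v hv hv'
    simp only [Finset.mem_union, Finset.mem_sdiff, cP, cQ, cC] at hv hv'
    omega
  have C5 : Disjoint ((R \ {b, b'}) ∪ (S \ {v0})) C := by
    rw [Finset.disjoint_left]
    intro v hv hv'
    simp only [Finset.mem_union, Finset.mem_sdiff, cR, cS, cC] at hv hv'
    omega
  have hinter : ∀ X : Finset V, ({e} ∪ K1 ∪ K2 ∪ L ∪ M1 ∪ M2) ∩ G.btw X C = K1 ∩ G.btw X C := by
    intro X
    ext f
    simp only [Finset.mem_inter, Finset.mem_union]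
    constructor
    · rintro ⟨hf, hb⟩
      refine ⟨?_, hb⟩
      rcases hf with ((((hf | hf) | hf) | hf) | hf) | hf
      · exact absurd hb (g9d_not he0 C0 hf)
      · exact hf
      · exact absurd hb (g9d_not hK2 C2' hf)
      · exact absurd hb (g9d_not hL C3 hf)
      · exact absurd hb (g9d_not hM1 C4 hf)
      · exact absurd hb (g9d_not hM2 C5 hf)
    · rintro ⟨hf, hb⟩
      exact ⟨Or.inl (Or.inl (Or.inl (Or.inl (Or.inr hf)))), hb⟩
  have hCS : C ∪ S1 ⊆ G.U := by
    intro v hv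
    rw [Finset.mem_union, cC, dS1] at hv
    rw [cU]
    have g0 := k0 v
    omega
  have hCP : Disjoint C P := by
    rw [Finset.disjoint_left]
    intro v hv hv'
    rw [cC] at hv
    rw [cP] at hv'
    omega
  have hCR : Disjoint C R := by
    rw [Finset.disjoint_left]
    intro v hv hv'
    rw [cC] at hv
    rw [cR] at hv'
    omega
  refine ⟨{e} ∪ K1 ∪ K2 ∪ L ∪ M1 ∪ M2, hN, ?_, ?_, ?_, ?_⟩
  · simp
  · intro f hf
    simp only [Finset.mem_union]
    tauto
  · rw [hinter P]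
    exact IsPM.cnt_tou hCS hK1 hK1t hCP
  · rw [hinter R]
    exact IsPM.cnt_tou hCS hK1 hK1t hCR

end MG

end ML
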