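import Pool.Agent.ML.G9b
import Pool.Agent.ML.G9d

/-!
# ML-G9e : `PPS`: exit pairs (CI and the exchange argument)
-/

set_option autoImplicit false
set_option linter.unusedSectionVars false
set_option linter.unusedFintypeInType false
set_option linter.unusedVariables false

namespace ML

namespace MG

variable {V E : Type} [Fintype V] [Fintype E] [DecidableEq V] [DecidableEq E]

variable {G : MG V E} {e : E} {u0 v0 : V} {P Q R S C D : Finset V}

theorem PPS.g9e_PR (h : G.PPS e u0 v0 P Q R S C D) {a b : V} (ha : a ∈ P) (hb : b ∈ R) :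
    a ≠ b ∧ a ∉ R ∧ b ∉ P := by
  have hd : Disjoint P R := h.dj.1.2.1
  refine ⟨?_, Finset.disjoint_left.1 hd ha, Finset.disjoint_right.1 hd hb⟩
  rintro rfl
  exact Finset.disjoint_left.1 hd ha hb

theorem g9e_pm : (G.sub ∅).IsPM (∅ : Finset E) :=
  ⟨Finset.empty_subset _, fun v hv => absurd hv (Finset.notMem_empty v)⟩

/-- The exits of an exit set pair of `C`, `D`: (CI).

Proof. If `a ≠ a'` and `b ≠ b'`: `h.build` with `S1 = {a, b}`, `S2 = {a', b'}`, `T = ∅`, `L = ∅` (`sub ∅` has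
the perfect matching `∅`) gives `N` with `#(P-C) = |S1 ∩ P| = 1`: contradiction to `h.ty1`. -/
theorem PPS.CI (h : G.PPS e u0 v0 P Q R S C D) {a b a' b' : V} (ha : a ∈ P) (hb : b ∈ R)
    (ha' : a' ∈ P) (hb' : b' ∈ R) (h1 : G.Ex C {a, b}) (h2 : G.Ex D {a', b'}) :
    a = a' ∨ b = b' := by
  by_contra hcon
  push Not at hcon
  obtain ⟨n1, n2⟩ := hcon
  obtain ⟨k1, k1R, k1P⟩ := h.g9e_PR ha hb
  obtain ⟨k2, k2R, k2P⟩ := h.g9e_PR ha hb'
  obtain ⟨k3, k3R, k3P⟩ := h.g9e_PR ha' hb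
  obtain ⟨k4, k4R, k4P⟩ := h.g9e_PR ha' hb'
  have e1 : (({a, b} ∪ {a', b'} ∪ ∅ : Finset V) ∩ P) = {a, a'} := by
    ext v
    simp only [Finset.mem_inter, Finset.mem_union, Finset.mem_insert, Finset.mem_singleton,
      Finset.notMem_empty, or_false]
    constructor
    · rintro ⟨(rfl | rfl) | (rfl | rfl), hv⟩
      · exact Or.inl rfl
      · exact absurd hv k1P
      · exact Or.inr rfl
      · exact absurd hv k2P
    · rintro (rfl | rfl)
      · exact ⟨Or.inl (Or.inl rfl), ha⟩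
      · exact ⟨Or.inr (Or.inl rfl), ha'⟩
  have e2 : (({a, b} ∪ {a', b'} ∪ ∅ : Finset V) ∩ R) = {b, b'} := by
    ext v
    simp only [Finset.mem_inter, Finset.mem_union, Finset.mem_insert, Finset.mem_singleton,
      Finset.notMem_empty, or_false]
    constructor
    · rintro ⟨(rfl | rfl) | (rfl | rfl), hv⟩
      · exact absurd hv k1R
      · exact Or.inl rfl
      · exact absurd hv k3R
      · exact Or.inr rfl
    · rintro (rfl | rfl)
      · exact ⟨Or.inl (Or.inr rfl), hb⟩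
      · exact ⟨Or.inr (Or.inr rfl), hb'⟩
  have e3 : (({a, b} : Finset V) ∩ P) = {a} := by
    ext v
    simp only [Finset.mem_inter, Finset.mem_insert, Finset.mem_singleton]
    constructor
    · rintro ⟨rfl | rfl, hv⟩
      · rfl
      · exact absurd hv k1P
    · rintro rfl
      exact ⟨Or.inl rfl, ha⟩
  have hd : Disjoint ({a, b} : Finset V) {a', b'} := by
    rw [Finset.disjoint_left]
    intro v hv hv'
    rw [Finset.mem_insert, Finset.mem_singleton] at hv hv'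
    rcases hv with rfl | rfl <;> rcases hv' with rfl | rfl
    · exact n1 rfl
    · exact k2 rfl
    · exact k3 rfl
    · exact n2 rfl
  have hs : ({a, b} ∪ {a', b'} ∪ ∅ : Finset V) ⊆ P ∪ R := by
    intro v hv
    simp only [Finset.mem_union, Finset.mem_insert, Finset.mem_singleton,
      Finset.notMem_empty, or_false] at hv
    rw [Finset.mem_union]
    rcases hv with (rfl | rfl) | (rfl | rfl)
    · exact Or.inl ha
    · exact Or.inr hb
    · exact Or.inl ha'
    · exact Or.inr hb'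
  obtain ⟨N, hN, heN, -, hc1, -⟩ := h.build (S1 := {a, b}) (S2 := {a', b'}) (T := ∅) (L := ∅)
    h1 h2 g9e_pm hd (Finset.disjoint_empty_right _) (Finset.disjoint_empty_right _) hs
    (by rw [e1]; exact Finset.card_pair n1) (by rw [e2]; exact Finset.card_pair n2)
  rw [e3, Finset.card_singleton] at hc1
  have h3 := h.ty1 N hN heN
  omega

/-- No four exits. Proof: `h.build` with `S1 = {a, a', b, b'}`, `S2 = T = ∅`: `#(P-C) = 2` and
`#(R-C) = 2`, contradiction to `h.ty1`. -/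
theorem PPS.no4 (h : G.PPS e u0 v0 P Q R S C D) {a b a' b' : V} (ha : a ∈ P) (hb : b ∈ R)
    (ha' : a' ∈ P) (hb' : b' ∈ R) (hne : a ≠ a') (hne' : b ≠ b') :
    ¬ G.Ex C {a, a', b, b'} := by
  intro hE
  obtain ⟨k1, k1R, k1P⟩ := h.g9e_PR ha hb
  obtain ⟨k2, k2R, k2P⟩ := h.g9e_PR ha hb'
  obtain ⟨k3, k3R, k3P⟩ := h.g9e_PR ha' hb
  obtain ⟨k4, k4R, k4P⟩ := h.g9e_PR ha' hb'
  have e1 : (({a, a', b, b'} : Finset V) ∩ P) = {a, a'} := by
    ext v
    simp only [Finset.mem_inter, Finset.mem_insert, Finset.mem_singleton]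
    constructor
    · rintro ⟨rfl | rfl | rfl | rfl, hv⟩
      · exact Or.inl rfl
      · exact Or.inr rfl
      · exact absurd hv k1P
      · exact absurd hv k2P
    · rintro (rfl | rfl)
      · exact ⟨Or.inl rfl, ha⟩
      · exact ⟨Or.inr (Or.inl rfl), ha'⟩
  have e2 : (({a, a', b, b'} : Finset V) ∩ R) = {b, b'} := by
    ext v
    simp only [Finset.mem_inter, Finset.mem_insert, Finset.mem_singleton]
    constructor
    · rintro ⟨rfl | rfl | rfl | rfl, hv⟩
      · exact absurd hv k1R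
      · exact absurd hv k3R
      · exact Or.inl rfl
      · exact Or.inr rfl
    · rintro (rfl | rfl)
      · exact ⟨Or.inr (Or.inr (Or.inl rfl)), hb⟩
      · exact ⟨Or.inr (Or.inr (Or.inr rfl)), hb'⟩
  have e3 : ({a, a', b, b'} ∪ ∅ ∪ ∅ : Finset V) = {a, a', b, b'} := by
    rw [Finset.union_empty, Finset.union_empty]
  have hs : ({a, a', b, b'} : Finset V) ⊆ P ∪ R := by
    intro v hv
    simp only [Finset.mem_insert, Finset.mem_singleton] at hv
    rw [Finset.mem_union]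
    rcases hv with rfl | rfl | rfl | rfl
    · exact Or.inl ha
    · exact Or.inl ha'
    · exact Or.inr hb
    · exact Or.inr hb'
  obtain ⟨N, hN, heN, -, hc1, hc2⟩ := h.build (S1 := {a, a', b, b'}) (S2 := ∅) (T := ∅) (L := ∅)
    hE h.ex0.2 g9e_pm (Finset.disjoint_empty_right _) (Finset.disjoint_empty_right _)
    (Finset.disjoint_empty_right _) (by rw [e3]; exact hs)
    (by rw [e3, e1]; exact Finset.card_pair hne) (by rw [e3, e2]; exact Finset.card_pair hne')
  rw [e1, Finset.card_pair hne] at hc1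
  rw [e2, Finset.card_pair hne'] at hc2
  have h3 := h.ty1 N hN heN
  omega

theorem PPS.g9e_step (h : G.PPS e u0 v0 P Q R S C D) : ∃ a1 ∈ P, ∃ a2 ∈ P, ∃ b1 ∈ R, ∃ b2 ∈ R,
    a1 ≠ a2 ∧ b1 ≠ b2 ∧ G.Ex C {a1, b1} ∧ G.Ex C {a2, b2} := by
  obtain ⟨⟨a, ha, a', ha', haa, h1⟩, -⟩ := h.typeI
  obtain ⟨-, ⟨b, hb, b', hb', hbb, h2⟩⟩ := h.swap.typeI
  have hPC : Disjoint P C := h.dj.1.2.2.2.1
  have hRC : Disjoint R C := h.dj.2.2.1.2.1
  have k1 := (h.g9e_PR ha hb).1
  have k2 := (h.g9e_PR ha hb').1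
  have k3 := (h.g9e_PR ha' hb).1
  have k4 := (h.g9e_PR ha' hb').1
  have hnd : [a, a', b, b'].Nodup := by
    simp [haa, hbb, k1, k2, k3, k4]
  rcases Ex.exchange hnd (Finset.disjoint_left.1 hPC ha) (Finset.disjoint_left.1 hPC ha')
    (Finset.disjoint_left.1 hRC hb) (Finset.disjoint_left.1 hRC hb') h1 h2 with h3 | ⟨h3, h4⟩ | ⟨h3, h4⟩
  · exact absurd h3 (h.no4 ha hb ha' hb' haa hbb)
  · exact ⟨a, ha, a', ha', b, hb, b', hb', haa, hbb, h3, h4⟩
  · exact ⟨a, ha, a', ha', b', hb', b, hb, haa, hbb.symm, h3, h4⟩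

/-- 5.10. Proof: `typeI` of `h` gives `Ex C {a, a'}` and `Ex D {β, β'}`, `typeI` of `h.swap` gives
`Ex D {α, α'}`, `Ex C {b, b'}` (`a, a', α, α' ∈ P`, `b, b', β, β' ∈ R`). `Ex.exchange` for `C`:
`Ex C {a, a', b, b'}` is excluded by `no4`, so `Ex C {a, b1}` and `Ex C {a', b2}` with `{b1, b2} = {b, b'}`. In
the same way (`h.swap`) `Ex D {α, γ1}`, `Ex D {α', γ2}` with `{γ1, γ2} = {β, β'}`. CI for the four pairs:
`a = α ∨ b1 = γ1`, `a = α' ∨ b1 = γ2`, `a' = α ∨ b2 = γ1`, `a' = α' ∨ b2 = γ2`. As `a ≠ a'`, `α ≠ α'`, `b1 ≠ b2`,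
`γ1 ≠ γ2`: if `a = α` then `b1 = γ2`, `b2 = γ1`, `a' = α'`; otherwise `b1 = γ1`, `a = α'`, `a' = α`, `b2 = γ2`. In
both cases `Ex D {a, b2}` and `Ex D {a', b1}`. -/
theorem PPS.pairs (h : G.PPS e u0 v0 P Q R S C D) : ∃ a1 ∈ P, ∃ a2 ∈ P, ∃ b1 ∈ R, ∃ b2 ∈ R,
    a1 ≠ a2 ∧ b1 ≠ b2 ∧ G.Ex C {a1, b1} ∧ G.Ex C {a2, b2} ∧ G.Ex D {a1, b2} ∧
      G.Ex D {a2, b1} := by
  obtain ⟨a, ha, a', ha', b1, hb1, b2, hb2, haa, hbb, h1, h2⟩ := h.g9e_step
  obtain ⟨α, hα, α', hα', γ1, hγ1, γ2, hγ2, hαα, hγγ, h3, h4⟩ := h.swap.g9e_step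
  have c1 := h.CI ha hb1 hα hγ1 h1 h3
  have c2 := h.CI ha hb1 hα' hγ2 h1 h4
  have c3 := h.CI ha' hb2 hα hγ1 h2 h3
  have c4 := h.CI ha' hb2 hα' hγ2 h2 h4
  by_cases hc : a = α
  · have e1 : b1 = γ2 := by
      rcases c2 with c | c
      · exact absurd (hc.symm.trans c) hαα
      · exact c
    have e2 : b2 = γ1 := by
      rcases c3 with c | c
      · exact absurd (hc.trans c.symm) haa
      · exact c
    have e3 : a' = α' := by
      rcases c4 with c | c
      · exact c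
      · exact absurd (e2.symm.trans c) hγγ
    refine ⟨a, ha, a', ha', b1, hb1, b2, hb2, haa, hbb, h1, h2, ?_, ?_⟩
    · rw [hc, e2]
      exact h3
    · rw [e3, e1]
      exact h4
  · have e1 : b1 = γ1 := by
      rcases c1 with c | c
      · exact absurd c hc
      · exact c
    have e2 : a = α' := by
      rcases c2 with c | c
      · exact c
      · exact absurd (e1.symm.trans c) hγγ
    have e3 : b2 = γ2 := by
      rcases c4 with c | c
      · exact absurd (e2.trans c.symm) haa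
      · exact c
    have e4 : a' = α := by
      rcases c3 with c | c
      · exact c
      · exact absurd (c.symm.trans e3) hγγ
    refine ⟨a, ha, a', ha', b1, hb1, b2, hb2, haa, hbb, h1, h2, ?_, ?_⟩
    · rw [e2, e3]
      exact h4
    · rw [e4, e1]
      exact h3

end MG

end ML
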