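import Pool.Agent.ML.G9e

/-!
# ML-G9f : `PPS`: no `P-R` edges, `|P| = 2`
-/

set_option autoImplicit false
set_option linter.unusedSectionVars false
set_option linter.unusedFintypeInType false
set_option linter.unusedVariables false

namespace ML

namespace MG

variable {V E : Type} [Fintype V] [Fintype E] [DecidableEq V] [DecidableEq E]

variable {G : MG V E} {e : E} {u0 v0 : V} {P Q R S C D : Finset V}

/-- The only exit pairs of `C`. Proof: `CI` with the two exit pairs of `D`. -/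
theorem PPS.uniq (h : G.PPS e u0 v0 P Q R S C D) {a1 a2 b1 b2 : V} (ha1 : a1 ∈ P) (ha2 : a2 ∈ P)
    (hb1 : b1 ∈ R) (hb2 : b2 ∈ R) (hne : a1 ≠ a2) (hne' : b1 ≠ b2)
    (h3 : G.Ex D {a1, b2}) (h4 : G.Ex D {a2, b1}) {a b : V} (ha : a ∈ P) (hb : b ∈ R)
    (hx : G.Ex C {a, b}) : (a = a1 ∧ b = b1) ∨ (a = a2 ∧ b = b2) := by
  rcases h.CI ha hb ha1 hb2 hx h3 with e1 | e1
  · rcases h.CI ha hb ha2 hb1 hx h4 with e2 | e2
    · exact absurd (e1.symm.trans e2) hne
    · exact Or.inl ⟨e1, e2⟩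
  · rcases h.CI ha hb ha2 hb1 hx h4 with e2 | e2
    · exact Or.inr ⟨e2, e1⟩
    · exact absurd (e2.symm.trans e1) hne'

/-- 5.11, no edges between `P` and `R`.

Proof. `f ≠ e` (`atP`). `L = {f}` is a perfect matching of `sub {a, b}` (`isPM_jsingle`, `a ≠ b` as `P`, `R` are
disjoint). One of `a1 ≠ a ∧ b1 ≠ b` (use `S1 = {a1, b1}`, `S2 = ∅`), `a2 ≠ a ∧ b2 ≠ b` (`S1 = {a2, b2}`, `S2 = ∅`),
`a1 ≠ a ∧ b2 ≠ b` (`S1 = ∅`, `S2 = {a1, b2}`), `a2 ≠ a ∧ b1 ≠ b` (`S1 = ∅`, `S2 = {a2, b1}`) holds (if `a = a1` then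
`a ≠ a2`, and `b ≠ b1` or `b ≠ b2`; etc.). `h.build` with `T = {a, b}` and `ex0` gives `N` with `e, f ∈ N`,
`f ∈ btw P R`: contradiction to `h.ty1` (`#(P-R) = 0`). -/
theorem PPS.noPR (h : G.PPS e u0 v0 P Q R S C D) {a1 a2 b1 b2 : V} (ha1 : a1 ∈ P) (ha2 : a2 ∈ P)
    (hb1 : b1 ∈ R) (hb2 : b2 ∈ R) (hne : a1 ≠ a2) (hne' : b1 ≠ b2)
    (h1 : G.Ex C {a1, b1}) (h2 : G.Ex C {a2, b2}) (h3 : G.Ex D {a1, b2}) (h4 : G.Ex D {a2, b1})
    {f : E} (hf : f ∈ G.F) {a b : V} (hj : G.Jn f a b) (ha : a ∈ P) (hb : b ∈ R) : False := by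
  obtain ⟨⟨dPQ, dPR, dPS, dPC, dPD⟩, _⟩ := h.dj
  have nPR : ∀ v, v ∈ P → v ∉ R := fun v hv => Finset.disjoint_left.1 dPR hv
  have hab : a ≠ b := by
    rintro rfl
    exact nPR a ha hb
  have hL := isPM_jsingle hf hj hab
  have hfin : ∀ N, G.IsPM N → e ∈ N → {f} ⊆ N → False := by
    intro N hN heN hfN
    have h5 := (h.ty1 N hN heN).1
    rw [Finset.card_eq_zero] at h5
    have h6 : f ∈ N ∩ G.btw P R :=
      Finset.mem_inter.2 ⟨Finset.singleton_subset_iff.1 hfN, (hj.mem_btw hf P R).2 (Or.inl ⟨ha, hb⟩)⟩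
    rw [h5] at h6
    exact Finset.notMem_empty f h6
  have key : ∀ x y, x ∈ P → y ∈ R → x ≠ a → y ≠ b → G.Ex C {x, y} ∨ G.Ex D {x, y} → False := by
    intro x y hx hy hxa hyb hE
    have hxy : x ≠ y := by
      rintro rfl
      exact nPR x hx hy
    have hxb : x ≠ b := by
      rintro rfl
      exact nPR x hx hb
    have hya : y ≠ a := by
      rintro rfl
      exact nPR y ha hy
    have hdis : Disjoint ({x, y} : Finset V) {a, b} := by
      rw [Finset.disjoint_left]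
      intro v hv hv'
      simp only [Finset.mem_insert, Finset.mem_singleton] at hv hv'
      rcases hv with rfl | rfl
      · rcases hv' with h7 | h7
        · exact hxa h7
        · exact hxb h7
      · rcases hv' with h7 | h7
        · exact hya h7
        · exact hyb h7
    have hsub : ({x, y} : Finset V) ∪ {a, b} ⊆ P ∪ R := by
      intro v hv
      simp only [Finset.mem_union, Finset.mem_insert, Finset.mem_singleton] at hv ⊢
      rcases hv with (rfl | rfl) | (rfl | rfl)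
      · exact Or.inl hx
      · exact Or.inr hy
      · exact Or.inl ha
      · exact Or.inr hb
    have hcP : ((({x, y} : Finset V) ∪ {a, b}) ∩ P).card = 2 := by
      have h7 : (({x, y} : Finset V) ∪ {a, b}) ∩ P = {x, a} := by
        ext v
        simp only [Finset.mem_inter, Finset.mem_union, Finset.mem_insert, Finset.mem_singleton]
        constructor
        · rintro ⟨(rfl | rfl) | (rfl | rfl), hv⟩
          · exact Or.inl rfl
          · exact absurd hy (nPR _ hv)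
          · exact Or.inr rfl
          · exact absurd hb (nPR _ hv)
        · rintro (rfl | rfl)
          · exact ⟨Or.inl (Or.inl rfl), hx⟩
          · exact ⟨Or.inr (Or.inl rfl), ha⟩
      rw [h7, Finset.card_pair hxa]
    have hcR : ((({x, y} : Finset V) ∪ {a, b}) ∩ R).card = 2 := by
      have h7 : (({x, y} : Finset V) ∪ {a, b}) ∩ R = {y, b} := by
        ext v
        simp only [Finset.mem_inter, Finset.mem_union, Finset.mem_insert, Finset.mem_singleton]
        constructor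
        · rintro ⟨(rfl | rfl) | (rfl | rfl), hv⟩
          · exact absurd hv (nPR _ hx)
          · exact Or.inl rfl
          · exact absurd hv (nPR _ ha)
          · exact Or.inr rfl
        · rintro (rfl | rfl)
          · exact ⟨Or.inl (Or.inr rfl), hy⟩
          · exact ⟨Or.inr (Or.inr rfl), hb⟩
      rw [h7, Finset.card_pair hyb]
    rcases hE with hE | hE
    · obtain ⟨N, hN, heN, hfN, _⟩ := h.build (S1 := {x, y}) (S2 := ∅) (T := {a, b}) hE h.ex0.2 hL
        (Finset.disjoint_empty_right _) hdis (Finset.disjoint_empty_left _)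
        (by rw [Finset.union_empty]; exact hsub) (by rw [Finset.union_empty]; exact hcP)
        (by rw [Finset.union_empty]; exact hcR)
      exact hfin N hN heN hfN
    · obtain ⟨N, hN, heN, hfN, _⟩ := h.build (S1 := ∅) (S2 := {x, y}) (T := {a, b}) h.ex0.1 hE hL
        (Finset.disjoint_empty_left _) (Finset.disjoint_empty_left _) hdis
        (by rw [Finset.empty_union]; exact hsub) (by rw [Finset.empty_union]; exact hcP)
        (by rw [Finset.empty_union]; exact hcR)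
      exact hfin N hN heN hfN
  by_cases ea : a1 = a
  · have ea2 : a2 ≠ a := fun h7 => hne (ea.trans h7.symm)
    by_cases eb : b1 = b
    · have eb2 : b2 ≠ b := fun h7 => hne' (eb.trans h7.symm)
      exact key a2 b2 ha2 hb2 ea2 eb2 (Or.inl h2)
    · exact key a2 b1 ha2 hb1 ea2 eb (Or.inr h4)
  · by_cases eb : b1 = b
    · have eb2 : b2 ≠ b := fun h7 => hne' (eb.trans h7.symm)
      exact key a1 b2 ha1 hb2 ea eb2 (Or.inr h3)
    · exact key a1 b1 ha1 hb1 ea eb (Or.inl h1)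

/-- 5.11: `P = {a1, a2}`, `Q = {u0}`, and `u0` is joined to `a1` and `a2`.

Proof. Edges from `P` go to `Q`, `C`, `D` (`atP`, `noPR`). An edge from `a ∈ P` to `C`: `pairC` and `uniq` give
`a ∈ {a1, a2}`; to `D`: `h.swap.pairC` and `h.swap.uniq` (for `h.swap` the exit pairs are exchanged: apply
it with `b1`, `b2` exchanged). Let `Z = P \ {a1, a2}`. If `Z` is nonempty: `G.inn Z = ∅` (`atP`), `nb Z ⊆ Q`, so
by `Brick.ind_nb` `|Z| + 2 ≤ |Q| = |P| - 1 = |Z| + 1`: contradiction. So `P = {a1, a2}`, `|Q| = 1`,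
`Q = {u0}` (`h.hu`). `nb {u0} ⊆ {a1, a2, v0}` (`atQ`) and `|nb {u0}| ≥ 3` (`Brick.ind_nb`, `inn {u0} = ∅`): so
`a1, a2 ∈ nb {u0}`. -/
theorem PPS.small (h : G.PPS e u0 v0 P Q R S C D) {a1 a2 b1 b2 : V} (ha1 : a1 ∈ P) (ha2 : a2 ∈ P)
    (hb1 : b1 ∈ R) (hb2 : b2 ∈ R) (hne : a1 ≠ a2) (hne' : b1 ≠ b2)
    (h1 : G.Ex C {a1, b1}) (h2 : G.Ex C {a2, b2}) (h3 : G.Ex D {a1, b2}) (h4 : G.Ex D {a2, b1}) :
    P = {a1, a2} ∧ Q = {u0} ∧ (∃ f ∈ G.F, G.Jn f u0 a1) ∧ (∃ f ∈ G.F, G.Jn f u0 a2) := by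
  obtain ⟨⟨dPQ, dPR, dPS, dPC, dPD⟩, ⟨dQR, dQS, dQC, dQD⟩, _⟩ := h.dj
  obtain ⟨sP, sQ, sR, sS, sC, sD⟩ := h.subU
  have hpair : ({a1, a2} : Finset V) ⊆ P := by
    intro v hv
    simp only [Finset.mem_insert, Finset.mem_singleton] at hv
    rcases hv with rfl | rfl
    · exact ha1
    · exact ha2
  have hcp : ({a1, a2} : Finset V).card = 2 := Finset.card_pair hne
  have hinn : G.inn (P \ {a1, a2}) = ∅ := by
    rw [Finset.eq_empty_iff_forall_notMem]
    intro f hf
    have hf1 : f ∈ G.F := ginn_subset _ hf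
    have h5 := ((jn_self f : G.Jn f (G.s f) (G.t f)).mem_inn hf1 (P \ {a1, a2})).1 hf
    have h6 := (Finset.mem_sdiff.1 h5.1).1
    have h7 := (Finset.mem_sdiff.1 h5.2).1
    rcases (h.atP hf1 (jn_self f) h6).2 with h8 | h8 | h8 | h8
    · exact Finset.disjoint_left.1 dPQ h7 h8
    · exact Finset.disjoint_left.1 dPC h7 h8
    · exact Finset.disjoint_left.1 dPD h7 h8
    · exact Finset.disjoint_left.1 dPR h7 h8
  have hnb : G.nb (P \ {a1, a2}) ⊆ Q := by
    intro v hv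
    obtain ⟨hvU, f, hf, hfv⟩ := Finset.mem_filter.1 hv
    have hex : ∃ z ∈ P \ {a1, a2}, G.Jn f z v := by
      rcases hfv with ⟨h5, h6⟩ | ⟨h5, h6⟩
      · exact ⟨_, h6, Or.inr ⟨h5, rfl⟩⟩
      · exact ⟨_, h6, Or.inl ⟨rfl, h5⟩⟩
    obtain ⟨z, hz, hj⟩ := hex
    obtain ⟨hzP, hz12⟩ := Finset.mem_sdiff.1 hz
    simp only [Finset.mem_insert, Finset.mem_singleton, not_or] at hz12
    rcases (h.atP hf hj hzP).2 with h8 | h8 | h8 | h8
    · exact h8
    · obtain ⟨b, hb, hE⟩ := h.pairC hf hj hzP h8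
      rcases h.uniq ha1 ha2 hb1 hb2 hne hne' h3 h4 hzP hb hE with h9 | h9
      · exact absurd h9.1 hz12.1
      · exact absurd h9.1 hz12.2
    · obtain ⟨b, hb, hE⟩ := h.swap.pairC hf hj hzP h8
      rcases h.swap.uniq ha1 ha2 hb2 hb1 hne (Ne.symm hne') h1 h2 hzP hb hE with h9 | h9
      · exact absurd h9.1 hz12.1
      · exact absurd h9.1 hz12.2
    · exact absurd (h.noPR ha1 ha2 hb1 hb2 hne hne' h1 h2 h3 h4 hf hj hzP h8) id
  have hZ : P \ {a1, a2} = ∅ := by
    by_contra hZ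
    have h5 := h.brick.ind_nb (Finset.sdiff_subset.trans sP) (Finset.nonempty_iff_ne_empty.2 hZ) hinn
    have h6 := Finset.card_le_card hnb
    have h7 := Finset.card_sdiff_of_subset hpair
    have h8 := Finset.card_le_card hpair
    have h9 := h.cardP
    omega
  have hP : P = {a1, a2} := Finset.Subset.antisymm (Finset.sdiff_eq_empty_iff_subset.1 hZ) hpair
  have hQ1 : Q.card = 1 := by
    have h9 := h.cardP
    rw [hP, hcp] at h9
    omega
  have hQ : Q = {u0} := by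
    obtain ⟨w, hw⟩ := Finset.card_eq_one.1 hQ1
    have h5 := h.hu
    rw [hw, Finset.mem_singleton] at h5
    rw [hw, h5]
  have hu0P : u0 ∉ P := fun h5 => Finset.disjoint_left.1 dPQ h5 h.hu
  have hu0v : u0 ≠ v0 := by
    intro h5
    have h6 := h.hv
    rw [← h5] at h6
    exact Finset.disjoint_left.1 dQS h.hu h6
  have hinn' : G.inn {u0} = ∅ := by
    rw [Finset.eq_empty_iff_forall_notMem]
    intro f hf
    have hf1 : f ∈ G.F := ginn_subset _ hf
    have h5 := ((jn_self f : G.Jn f (G.s f) (G.t f)).mem_inn hf1 {u0}).1 hf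
    have h6 := Finset.mem_singleton.1 h5.1
    have h7 := Finset.mem_singleton.1 h5.2
    have h8 : G.Jn f u0 u0 := Or.inl ⟨h6, h7⟩
    rcases h.atQ hf1 h8 h.hu with h9 | h9
    · exact hu0P h9
    · exact hu0v h9.2
  have hnb' : G.nb {u0} ⊆ {a1, a2, v0} := by
    intro v hv
    obtain ⟨hvU, f, hf, hfv⟩ := Finset.mem_filter.1 hv
    have hj : G.Jn f u0 v := by
      rcases hfv with ⟨h5, h6⟩ | ⟨h5, h6⟩
      · exact Or.inr ⟨h5, Finset.mem_singleton.1 h6⟩
      · exact Or.inl ⟨Finset.mem_singleton.1 h6, h5⟩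
    simp only [Finset.mem_insert, Finset.mem_singleton]
    rcases h.atQ hf hj h.hu with h9 | h9
    · rw [hP] at h9
      simp only [Finset.mem_insert, Finset.mem_singleton] at h9
      rcases h9 with h9 | h9
      · exact Or.inl h9
      · exact Or.inr (Or.inl h9)
    · exact Or.inr (Or.inr h9.2)
  have h5 := h.brick.ind_nb (Z := {u0}) (Finset.singleton_subset_iff.2 (sQ h.hu))
    (Finset.singleton_nonempty u0) hinn'
  rw [Finset.card_singleton] at h5
  have h6 : G.nb {u0} = {a1, a2, v0} :=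
    Finset.eq_of_subset_of_card_le hnb' (Finset.card_le_three.trans h5)
  have hjoin : ∀ v, v ∈ G.nb {u0} → ∃ f ∈ G.F, G.Jn f u0 v := by
    intro v hv
    obtain ⟨hvU, f, hf, hfv⟩ := Finset.mem_filter.1 hv
    refine ⟨f, hf, ?_⟩
    rcases hfv with ⟨h7, h8⟩ | ⟨h7, h8⟩
    · exact Or.inr ⟨h7, Finset.mem_singleton.1 h8⟩
    · exact Or.inl ⟨Finset.mem_singleton.1 h8, h7⟩
  refine ⟨hP, hQ, hjoin a1 ?_, hjoin a2 ?_⟩
  · rw [h6]
    exact Finset.mem_insert_self _ _
  · rw [h6]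
    exact Finset.mem_insert_of_mem (Finset.mem_insert_self _ _)

end MG

end ML
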