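import Pool.Agent.ML.F9b
import Pool.Agent.ML.C2

/-!
# ML-H1: no Petersen structure on the contractions in Case 2 (step 5.1)
-/

set_option autoImplicit false
set_option linter.unusedSectionVars false
set_option linter.unusedFintypeInType false
set_option linter.unusedVariables false

namespace ML
namespace MG

variable {V E : Type} [Fintype V] [Fintype E] [DecidableEq V] [DecidableEq E] (G : MG V E)

variable {X : Finset V} {x : V}

/-- Induced subgraphs inside `X` are the same in `G` and in `G.shr X x`. -/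
theorem shr_sub_isPM (hX : X ⊆ G.U) (hx : x ∉ X) {W : Finset V} (hW : W ⊆ X) {N : Finset E} :
    ((G.shr X x).sub W).IsPM N ↔ (G.sub W).IsPM N := by
  have hxW : x ∉ W := fun h => hx (hW h)
  have hinn : (G.shr X x).inn W = G.inn W := by
    ext e
    rw [mem_inn, mem_inn, shr_F, mem_tou, shr_s, shr_t]
    constructor
    · rintro ⟨⟨hF, _⟩, h1, h2⟩
      refine ⟨hF, ?_, ?_⟩
      · by_cases h : G.s e ∈ X
        · rwa [if_pos h] at h1
        · rw [if_neg h] at h1; exact absurd h1 hxW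
      · by_cases h : G.t e ∈ X
        · rwa [if_pos h] at h2
        · rw [if_neg h] at h2; exact absurd h2 hxW
    · rintro ⟨hF, h1, h2⟩
      rw [if_pos (hW h1), if_pos (hW h2)]
      exact ⟨⟨hF, Or.inl (hW h1)⟩, h1, h2⟩
  rw [sub_isPM, sub_isPM, hinn]
  refine and_congr_right fun _ => ?_
  refine forall_congr' fun v => forall_congr' fun hv => ?_
  rw [Finset.sum_congr rfl fun e _ => G.shr_inc_mem hx (hW hv) e]

/-- `K`-degree sums of `N ∩ tou X`. -/
private theorem h1_deg (hX : X ⊆ G.U) (hx : x ∉ X) {N : Finset E} (hN : G.IsPM N) {S : Finset V}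
    (hS : S ⊆ insert x X) :
    ∑ v ∈ S, ∑ e ∈ N ∩ G.tou X, (G.shr X x).inc e v + (if x ∈ S then 1 else 0) =
      S.card + (if x ∈ S then (N ∩ G.cut X).card else 0) := by
  have hv : ∀ v ∈ S, ∑ e ∈ N ∩ G.tou X, (G.shr X x).inc e v + (if x = v then 1 else 0) =
      1 + (if x = v then (N ∩ G.cut X).card else 0) := by
    intro v hv
    rcases Finset.mem_insert.1 (hS hv) with h | h
    · subst h
      rw [if_pos rfl, if_pos rfl, add_comm]
      congr 1
      rw [Finset.sum_congr rfl fun e _ => G.shr_inc_x hx e, Finset.card_eq_sum_ones]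
      have h0 : ∀ e ∈ N ∩ G.tou X, ((if G.s e ∈ X then 0 else 1) + (if G.t e ∈ X then 0 else 1) : ℕ)
          = if e ∈ G.cut X then 1 else 0 := by
        intro e he
        have he2 := (Finset.mem_inter.1 he).2
        rw [mem_tou] at he2
        by_cases h1 : G.s e ∈ X <;> by_cases h2 : G.t e ∈ X
        · rw [if_pos h1, if_pos h2, if_neg]
          rw [mem_cut]
          tauto
        · rw [if_pos h1, if_neg h2, if_pos]
          rw [mem_cut]
          tauto
        · rw [if_neg h1, if_pos h2, if_pos]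
          rw [mem_cut]
          tauto
        · exfalso; tauto
      rw [Finset.sum_congr rfl h0, ← Finset.sum_filter]
      refine Finset.sum_congr ?_ fun _ _ => rfl
      ext e
      rw [Finset.mem_filter, Finset.mem_inter, Finset.mem_inter]
      constructor
      · rintro ⟨⟨h1, _⟩, h2⟩; exact ⟨h1, h2⟩
      · rintro ⟨h1, h2⟩
        refine ⟨⟨h1, ?_⟩, h2⟩
        rw [tou_eq]
        exact Finset.mem_union_right _ h2
    · have hne : ¬ x = v := fun h' => hx (h' ▸ h)
      rw [if_neg hne, if_neg hne, add_zero, add_zero,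
        Finset.sum_congr rfl fun e _ => G.shr_inc_mem hx h e, ← hN.2 v (hX h)]
      refine Finset.sum_subset Finset.inter_subset_left fun e he hne' => ?_
      have h3 : e ∉ G.tou X := fun h' => hne' (Finset.mem_inter.2 ⟨he, h'⟩)
      rw [mem_tou] at h3
      have h4 : ¬ (G.s e ∈ X ∨ G.t e ∈ X) := fun h' => h3 ⟨hN.1 he, h'⟩
      push Not at h4
      unfold inc
      rw [if_neg (fun h' => h4.1 (by rw [h']; exact h)),
        if_neg (fun h' => h4.2 (by rw [h']; exact h)), add_zero]
  have h1 := Finset.sum_congr rfl hv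
  rw [Finset.sum_add_distrib, Finset.sum_add_distrib] at h1
  rw [Finset.sum_ite_eq, Finset.sum_ite_eq, ← Finset.card_eq_sum_ones] at h1
  exact h1

/-- Step 5.1, main point.
Proof.  `K := G.shr X x`, `M := N ∩ tou X ⊆ K.F`.  The `K`-degree of `M` is `1` at `v ∈ X` and
`t := |N ∩ cut X|` at `x` (`shr_inc_mem`, `shr_inc_x`); `t` is odd (`IsPM.odd_cut`), so `t ≥ 3`.  Let
`p := π x`.  `exits` in `K` for the fibre of `q ≠ p` (contained in `X`): `|fib q ∩ A| = |fib q \ A| + exits`,
so `exits = 1` (`PS.size`).  For the fibre of `p`: if `x ∈ A`: `|fib p ∩ A| - 1 + t = |fib p \ A| + exits`, so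
`exits = t ≥ 3`; if `x ∉ A`: `|fib p ∩ A| = |fib p \ A| - 1 + t + exits`, i.e. `exits + t = 2`, impossible.
`claw` in `K`: `M ∩ K.cut W = ∅` for `W := W6 K π p ⊆ X` (`x` is in the fibre of `p`).
`K.cut W = G.cut W` (`shr_cut_of_subset`), and edges of `N ∩ G.cut W` are in `M`.  So `N ∩ G.cut W = ∅`,
`N \ inn W` is a perfect matching of `G.sub (U \ W)` (`isPM_restrict_sdiff` with `W' = U`,
`sub_self_isPM`).  `c6` for `K` and `χ₁` gives `M₁`, `M₂`, perfect matchings of `K.sub W`, hence of `G.sub W`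
(`shr_sub_isPM`).  `(N \ inn W) ∪ M_i` are perfect matchings of `G` (`isPM_union`, disjoint union), so
`∑_{M₁} χ = ∑_{M₂} χ`.  On `M_i ⊆ inn W ⊆ inn X` we have `χ₂ = 0` (such edges are not in `tou (U \ X)`), so
`χ = χ₁`: contradiction to `c6`. -/
theorem no_pstr (hX : G.Nontriv X) (hx : x ∈ G.U \ X) {χ χ₁ χ₂ : E → QZ} (hk : G.Kills χ)
    (hs : ∀ e ∈ G.F, χ e = χ₁ e + χ₂ e) (h2 : ∀ e, e ∉ G.tou (G.U \ X) → χ₂ e = 0)
    (hMc : (G.shr X x).Mc) {π : V → PV} {A : Finset V} {y : V → QZ} (hP : (G.shr X x).PS π A)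
    (hC : (G.shr X x).PC π y χ₁) {N : Finset E} (hN : G.IsPM N) (h1 : (N ∩ G.cut X).card ≠ 1) :
    False := by
  have hXU : X ⊆ G.U := hX.1
  have hxX : x ∉ X := (Finset.mem_sdiff.1 hx).2
  have ht : 3 ≤ (N ∩ G.cut X).card := by
    obtain ⟨k, hk'⟩ := hN.odd_cut hXU hX.2.1
    omega
  set K := G.shr X x with hK
  set M := N ∩ G.tou X with hM
  have hMF : M ⊆ K.F := Finset.inter_subset_right
  have hEC : ∀ e ∈ M, EC K π A e := fun e he => hP.edge e (hMF he)
  have hdeg : ∀ S : Finset V, S ⊆ insert x X →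
      ∑ v ∈ S, ∑ e ∈ M, K.inc e v + (if x ∈ S then 1 else 0) =
      S.card + (if x ∈ S then (N ∩ G.cut X).card else 0) := fun S hS =>
    G.h1_deg hXU hxX hN hS
  have hfib : ∀ q, K.fib π q ⊆ insert x X := fun q => Finset.filter_subset _ _
  have hxf : ∀ q, x ∈ K.fib π q ↔ π x = q := by
    intro q
    unfold fib
    rw [Finset.mem_filter]
    exact ⟨fun h => h.2, fun h => ⟨Finset.mem_insert_self _ _, h⟩⟩
  have hne : ∀ q, q ≠ π x → (M ∩ K.cut (K.fib π q)).card ≤ 1 := by
    intro q hq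
    have e1 := K.exits hMF hEC q
    have e2 := hdeg (K.fib π q ∩ A) (Finset.inter_subset_left.trans (hfib q))
    have e3 := hdeg (K.fib π q \ A) (Finset.sdiff_subset.trans (hfib q))
    have hn1 : x ∉ K.fib π q ∩ A := fun h =>
      hq ((hxf q).1 (Finset.mem_inter.1 h).1).symm
    have hn2 : x ∉ K.fib π q \ A := fun h =>
      hq ((hxf q).1 (Finset.mem_sdiff.1 h).1).symm
    rw [if_neg hn1, if_neg hn1] at e2
    rw [if_neg hn2, if_neg hn2] at e3
    have e4 := hP.size q
    omega
  have h3 : 3 ≤ (M ∩ K.cut (K.fib π (π x))).card := by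
    have e1 := K.exits hMF hEC (π x)
    have e2 := hdeg (K.fib π (π x) ∩ A) (Finset.inter_subset_left.trans (hfib _))
    have e3 := hdeg (K.fib π (π x) \ A) (Finset.sdiff_subset.trans (hfib _))
    have e4 := hP.size (π x)
    have hxf' : x ∈ K.fib π (π x) := (hxf _).2 rfl
    by_cases hxA : x ∈ A
    · have hn1 : x ∈ K.fib π (π x) ∩ A := Finset.mem_inter.2 ⟨hxf', hxA⟩
      have hn2 : x ∉ K.fib π (π x) \ A := fun h => (Finset.mem_sdiff.1 h).2 hxA
      rw [if_pos hn1, if_pos hn1] at e2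
      rw [if_neg hn2, if_neg hn2] at e3
      omega
    · have hn1 : x ∉ K.fib π (π x) ∩ A := fun h => hxA (Finset.mem_inter.1 h).2
      have hn2 : x ∈ K.fib π (π x) \ A := Finset.mem_sdiff.2 ⟨hxf', hxA⟩
      rw [if_neg hn1, if_neg hn1] at e2
      rw [if_pos hn2, if_pos hn2] at e3
      omega
  have hclaw := K.claw hMF hEC h3 hne
  have hWX : W6 K π (π x) ⊆ X := by
    intro v hv
    unfold W6 at hv
    rw [Finset.mem_biUnion] at hv
    obtain ⟨q, hq, hv⟩ := hv
    have hq1 := (Finset.mem_filter.1 hq).2.1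
    rcases Finset.mem_insert.1 (hfib q hv) with h | h
    · rw [h] at hv
      exact absurd ((hxf q).1 hv).symm hq1
    · exact h
  set W := W6 K π (π x) with hW
  have hcut : K.cut W = G.cut W := G.shr_cut_of_subset hxX hWX
  have hNW : N ∩ G.cut W = ∅ := by
    rw [Finset.eq_empty_iff_forall_notMem]
    intro e he
    obtain ⟨he1, he2⟩ := Finset.mem_inter.1 he
    have he3 : e ∈ G.tou X := by
      rw [mem_cut] at he2
      rw [mem_tou]
      refine ⟨he2.1, ?_⟩
      by_cases h : G.s e ∈ W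
      · exact Or.inl (hWX h)
      · by_cases h' : G.t e ∈ W
        · exact Or.inr (hWX h')
        · exact absurd (iff_of_false h h') he2.2
    have he4 : e ∈ M ∩ K.cut W := by
      rw [hcut]
      exact Finset.mem_inter.2 ⟨Finset.mem_inter.2 ⟨he1, he3⟩, he2⟩
    rw [hclaw] at he4
    exact absurd he4 (Finset.notMem_empty e)
  have hWU : W ⊆ G.U := hWX.trans hXU
  have hrest := G.isPM_restrict_sdiff (G.sub_self_isPM.2 hN) hWU hNW
  have hdis : Disjoint (G.U \ W) W := Finset.sdiff_disjoint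
  have hun : G.U \ W ∪ W = G.U := Finset.sdiff_union_of_subset hWU
  obtain ⟨M₁, M₂, hM1, hM2, hneq⟩ := c6 hMc hP hC (π x)
  have key : ∀ M' : Finset E, (K.sub W).IsPM M' →
      ∑ e ∈ N \ G.inn W, χ e + ∑ e ∈ M', χ₁ e = 0 := by
    intro M' hM'
    have hM'' : (G.sub W).IsPM M' := (G.shr_sub_isPM hXU hxX hWX).1 hM'
    have hu := G.isPM_union hdis hrest hM''
    rw [hun] at hu
    have hk1 := hk _ (G.sub_self_isPM.1 hu)
    rw [Finset.sum_union (G.disj_of_isPM hdis hrest hM'')] at hk1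
    have hs' : ∑ e ∈ M', χ e = ∑ e ∈ M', χ₁ e := by
      refine Finset.sum_congr rfl fun e he => ?_
      have he1 := hM''.1 he
      rw [sub_F, mem_inn] at he1
      have he2 : e ∉ G.tou (G.U \ X) := by
        rw [mem_tou]
        rintro ⟨_, h | h⟩
        · exact (Finset.mem_sdiff.1 h).2 (hWX he1.2.1)
        · exact (Finset.mem_sdiff.1 h).2 (hWX he1.2.2)
      rw [hs e he1.1, h2 e he2, add_zero]
    rw [hs'] at hk1
    exact hk1
  have k1 := key M₁ hM1
  have k2 := key M₂ hM2
  exact hneq (add_left_cancel (k1.trans k2.symm))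

end MG
end ML
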