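import Pool.Agent.ML.H1
import Pool.Agent.ML.E4
import Pool.Agent.ML.D3
import Pool.Agent.ML.D4

/-!
# ML-H2: in Case 2 the character kills the regular weights with w(cut X) = r (step 5.1)
-/

set_option autoImplicit false
set_option linter.unusedSectionVars false
set_option linter.unusedFintypeInType false
set_option linter.unusedVariables false

namespace ML
namespace MG

variable {V E : Type} [Fintype V] [Fintype E] [DecidableEq V] [DecidableEq E] (G : MG V E)

variable {G} in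
/-- Step 5.1.
Proof.  Choose `x ∈ U \ X`, `x' ∈ X`.  `char_comp` (with `hF.cov`) gives `χ = χ₁ + χ₂`.  `G₁ := G.shr X x` and
`G₂ := G.shr (U \ X) x'` are `NB` (`nb_shr` with `hF.cov`, `hF.sat`, `G.Conn`; for `G₂` use the shore `U \ X`:
`cut_compl`, `latX_compl`, `U \ (U \ X) = X`) with fewer vertices than `G` (`Nontriv`).  By `hIH` each `χ_i` is
`KillsReg` or `PStr` on `G_i`.  `PStr` is impossible by `no_pstr` (`X` is not tight in the brick, so there is a
perfect matching `N` with `|N ∩ cut X| ≠ 1`; for `G₂` use `no_pstr` for the shore `U \ X`, which is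
nontrivial, with the roles of `χ₁`, `χ₂` exchanged).  So both are `KillsReg`.  For `w` `Reg r` with
`w(cut X) = r` the restrictions are `Reg r` on `G₁`, `G₂` (`Reg.restr`), and
`pair χ w = pair χ₁ (restr (tou X) w) + pair χ₂ (restr (tou (U \ X)) w) = 0`. -/
theorem Fac.kills (hB : G.Brick) {e : E} {X : Finset V} (hF : Fac G e X) {χ : E → QZ}
    (hk : G.Kills χ)
    (hIH : ∀ G' : MG V E, G'.U.card < G.U.card → G'.NB → ∀ χ' : E → QZ, G'.Kills χ' →
      G'.KillsReg χ' ∨ G'.PStr χ') :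
    ∀ r w, G.Reg r w → ∑ g ∈ G.cut X, w g = r → pair χ w = 0 := by
  intro r w hw hc
  have hnt := hF.nt
  obtain ⟨hXU, hodd, h3, h3'⟩ := hF.nt
  have hne : X.Nonempty := Finset.card_pos.1 (by omega)
  have hne' : (G.U \ X).Nonempty := by
    rw [← Finset.card_pos, Finset.card_sdiff_of_subset hXU]
    omega
  obtain ⟨x', hx'⟩ := hne
  obtain ⟨x, hx⟩ := hne'
  have hYU : G.U \ X ⊆ G.U := Finset.sdiff_subset
  have hYY : G.U \ (G.U \ X) = X := Finset.sdiff_sdiff_eq_self hXU
  have hxX : x ∉ X := (Finset.mem_sdiff.1 hx).2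
  have hx'Y : x' ∉ G.U \ X := fun h => (Finset.mem_sdiff.1 h).2 hx'
  have hcc : G.cut (G.U \ X) = G.cut X := G.cut_compl hXU
  obtain ⟨χ₁, χ₂, hs, hz1, hz2, hk1, hk2⟩ :=
    G.char_comp hXU hx hx' hF.cov χ (fun N hN _ => hk N hN)
  have nb1 : (G.shr X x).NB := G.nb_shr hXU hx hx' hB.2.1 hF.cov hF.sat
  have nb2 : (G.shr (G.U \ X) x').NB := by
    refine G.nb_shr hYU (x := x') (x' := x) (by rw [hYY]; exact hx') hx hB.2.1 ?_ ?_
    · intro g hg
      rw [hcc]
      exact hF.cov g hg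
    · intro r w h1 h2
      rw [hcc] at h2
      rw [G.latX_compl hXU]
      exact hF.sat r w h1 h2
  have c1 : (G.shr X x).U.card < G.U.card := by
    rw [shr_U, Finset.card_insert_of_notMem hxX]
    omega
  have hYc : (G.U \ X).card = G.U.card - X.card := Finset.card_sdiff_of_subset hXU
  have c2 : (G.shr (G.U \ X) x').U.card < G.U.card := by
    rw [shr_U, Finset.card_insert_of_notMem hx'Y, hYc]
    omega
  have hntY : G.Nontriv (G.U \ X) := by
    obtain ⟨N, hN⟩ := hB.1.1
    have hev : Even G.U.card := hN.even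
    refine ⟨hYU, ?_, ?_, ?_⟩
    · rw [hYc]
      have hle := Finset.card_le_card hXU
      rw [Nat.odd_iff] at hodd ⊢
      rw [Nat.even_iff] at hev
      omega
    · rw [hYc]; omega
    · rw [hYc]; omega
  have hnT := hB.2.2.2 X hnt
  unfold Tight at hnT
  push Not at hnT
  obtain ⟨N, hN, hN1⟩ := hnT
  have kr1 : (G.shr X x).KillsReg χ₁ := by
    rcases hIH _ c1 nb1 χ₁ hk1 with h | ⟨π, A, y, hP, hC⟩
    · exact h
    · exact (no_pstr G hnt hx hk hs hz2 nb1.1 hP hC hN hN1).elim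
  have kr2 : (G.shr (G.U \ X) x').KillsReg χ₂ := by
    rcases hIH _ c2 nb2 χ₂ hk2 with h | ⟨π, A, y, hP, hC⟩
    · exact h
    · refine (no_pstr G (X := G.U \ X) (x := x') (χ₁ := χ₂) (χ₂ := χ₁) hntY
        (by rw [hYY]; exact hx') hk (fun e he => ?_) (by rw [hYY]; exact hz1) nb2.1 hP hC hN
        (by rw [hcc]; exact hN1)).elim
      rw [hs e he, add_comm]
  have e1 : pair χ w = pair χ₁ w + pair χ₂ w := by
    rw [← pair_add_left]
    apply pair_congr
    intro e
    by_cases he : e ∈ G.F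
    · rw [hs e he]
    · rw [hw.1 e he, zero_smul, zero_smul]
  have e2 : pair χ₁ w = pair χ₁ (ML.restr (G.tou X) w) := by
    apply pair_congr
    intro e
    by_cases he : e ∈ G.tou X
    · simp [ML.restr, he]
    · rw [hz1 e he, smul_zero, smul_zero]
  have e3 : pair χ₂ w = pair χ₂ (ML.restr (G.tou (G.U \ X)) w) := by
    apply pair_congr
    intro e
    by_cases he : e ∈ G.tou (G.U \ X)
    · simp [ML.restr, he]
    · rw [hz2 e he, smul_zero, smul_zero]
  have r1 := hw.restr hXU hxX hc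
  have r2 := hw.restr hYU hx'Y (by rw [hcc]; exact hc)
  rw [e1, e2, e3, kr1 r _ r1, kr2 r _ r2, add_zero]

variable {G} in
/-- Step 5.2, potentials.  Proof: `pot_char` (a weight with all degrees 0 and `w(cut X) = 0` is `Reg 0` with
`w(cut X) = 0`); a perfect matching `N` meeting the cut once (`hF.cov` for any edge; `F` is nonempty) gives
`0 = ∑_N χ = ∑_U y + 1 • η` (`IsPM.sum_pot`). -/
theorem Fac.pot (hB : G.Brick) {e : E} {X : Finset V} (hF : Fac G e X) {χ : E → QZ}
    (hk : G.Kills χ) (h : ∀ r w, G.Reg r w → ∑ g ∈ G.cut X, w g = r → pair χ w = 0) :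
    ∃ (y : V → QZ) (η : QZ), (∀ g ∈ G.F, χ g = y (G.s g) + y (G.t g) +
      (if g ∈ G.cut X then η else 0)) ∧ ∑ v ∈ G.U, y v + η = 0 := by
  obtain ⟨y, η, hy⟩ := G.pot_char χ X (fun w h1 h2 h3 => h 0 w ⟨h1, h2⟩ h3)
  refine ⟨y, η, hy, ?_⟩
  obtain ⟨hXU, hodd, h3, h3'⟩ := hF.nt
  have hne : X.Nonempty := Finset.card_pos.1 (by omega)
  have hneU : X ≠ G.U := by
    rintro rfl
    omega
  obtain ⟨g, hg⟩ := hB.2.1 X hXU hne hneU
  obtain ⟨N, hN, hN1, _⟩ := hF.cov g (G.cut_sub X hg)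
  have h4 := hN.sum_pot y η hy
  rw [hk N hN, hN1, one_smul] at h4
  exact h4.symm

end MG
end ML
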