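import Pool.Agent.ML.Defs

/-!
# ML-M0: definitions for Theorem M (section 6)
-/

set_option autoImplicit false
set_option linter.unusedSectionVars false
set_option linter.unusedFintypeInType false
set_option linter.unusedVariables false

namespace ML
namespace MG

variable {V E : Type} [Fintype V] [Fintype E] [DecidableEq V] [DecidableEq E] (G : MG V E)

/-- Total weight of the edges joining `a` and `b` (used for `a ≠ b`). -/
def wt (w : E → ℤ) (a b : V) : ℤ :=
  ∑ e ∈ G.F, if (G.s e = a ∧ G.t e = b) ∨ (G.s e = b ∧ G.t e = a) then w e else 0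

/-- `N` is used by some decomposition of `w` into perfect matchings. -/
def PMD (w : E → ℚ) (N : Finset E) : Prop := ∃ c, G.Dec w c ∧ 0 < c N

/-- A system of special pairs `v, σ v` (`σ v ≠ v`); the vertices with `σ z = z` are ordinary. -/
structure Pairs (w : E → ℤ) (σ : V → V) : Prop where
  mem : ∀ v ∈ G.U, σ v ∈ G.U
  inv : ∀ v ∈ G.U, σ (σ v) = v
  pos : ∀ v ∈ G.U, σ v ≠ v → 0 < G.wt w v (σ v)
  zero : ∀ v ∈ G.U, ∀ z ∈ G.U, σ v ≠ v → σ z ≠ z → z ≠ v → z ≠ σ v → G.wt w v z = 0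
  bal : ∀ v ∈ G.U, ∀ z ∈ G.U, σ v ≠ v → σ z = z → G.wt w z v = G.wt w z (σ v)
  even : ∀ z ∈ G.U, ∀ z' ∈ G.U, σ z = z → σ z' = z' → z ≠ z' → Even (G.wt w z z')

end MG
end ML
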