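import Pool.Agent.ML.M0
import Pool.Agent.ML.C8

/-!
# ML-M1: decompositions and the support graph (section 6)
-/

set_option autoImplicit false
set_option linter.unusedSectionVars false
set_option linter.unusedFintypeInType false
set_option linter.unusedVariables false

namespace ML
namespace MG

variable {V E : Type} [Fintype V] [Fintype E] [DecidableEq V] [DecidableEq E] (G : MG V E)

variable {G} in
theorem m1_sum {w : E → ℚ} {c : Finset E → ℚ} (h : G.Dec w c) (q : E → ℚ) :
    ∑ e ∈ G.F, q e * w e = ∑ N : Finset E, c N * ∑ e ∈ N, q e := by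
  have h1 : ∀ N : Finset E, c N * ∑ e ∈ N, q e =
      ∑ e ∈ G.F, q e * (if e ∈ N then c N else 0) := by
    intro N
    by_cases hc : c N = 0
    · rw [hc, zero_mul]
      symm
      refine Finset.sum_eq_zero fun e _ => ?_
      rw [ite_self, mul_zero]
    · have hN : N ⊆ G.F := (h.2.1 N hc).1
      rw [Finset.mul_sum]
      have h2 : ∀ e, q e * (if e ∈ N then c N else 0) = if e ∈ N then c N * q e else 0 := by
        intro e
        by_cases he : e ∈ N
        · rw [if_pos he, if_pos he, mul_comm]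
        · rw [if_neg he, if_neg he, mul_zero]
      rw [Finset.sum_congr rfl (fun e _ => h2 e), ← Finset.sum_filter]
      have h3 : G.F.filter (fun e => e ∈ N) = N := by
        ext e
        rw [Finset.mem_filter]
        exact ⟨fun h => h.2, fun h => ⟨hN h, h⟩⟩
      rw [h3]
  rw [Finset.sum_congr rfl (fun N _ => h1 N), Finset.sum_comm]
  refine Finset.sum_congr rfl fun e _ => ?_
  rw [← Finset.mul_sum, h.2.2 e]

variable {G} in
/-- weight of a cut -/
theorem m1_cut {w : E → ℚ} {c : Finset E → ℚ} (h : G.Dec w c) (X : Finset V) :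
    ∑ e ∈ G.cut X, w e = ∑ N : Finset E, c N * ((N ∩ G.cut X).card : ℚ) := by
  have h1 := m1_sum h (fun e => if e ∈ G.cut X then (1 : ℚ) else 0)
  have h2 : ∑ e ∈ G.F, (if e ∈ G.cut X then (1 : ℚ) else 0) * w e = ∑ e ∈ G.cut X, w e := by
    have h3 : ∀ e, (if e ∈ G.cut X then (1 : ℚ) else 0) * w e = if e ∈ G.cut X then w e else 0 := by
      intro e
      by_cases he : e ∈ G.cut X
      · rw [if_pos he, if_pos he, one_mul]
      · rw [if_neg he, if_neg he, zero_mul]
    rw [Finset.sum_congr rfl (fun e _ => h3 e), ← Finset.sum_filter]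
    have h4 : G.F.filter (fun e => e ∈ G.cut X) = G.cut X := by
      ext e
      rw [Finset.mem_filter]
      exact ⟨fun h => h.2, fun h => ⟨cut_sub G X h, h⟩⟩
    rw [h4]
  rw [← h2, h1]
  refine Finset.sum_congr rfl fun N _ => ?_
  congr 1
  rw [← Finset.sum_filter]
  have h5 : N.filter (fun e => e ∈ G.cut X) = N ∩ G.cut X := by
    ext e
    rw [Finset.mem_filter, Finset.mem_inter]
  rw [h5, Finset.sum_const, nsmul_eq_mul, mul_one]

/-- If all nontrivial odd cuts have weight `> r > 0`, every perfect matching in the support is used by some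
decomposition.  Proof: `peel` gives `l > 0` and `ConeHyp (r - l)` for `w - l N`; `cone` gives a
decomposition `c'` of it; `c' + l` at `N` is a decomposition of `w` with positive value at `N`. -/
theorem pmd_of_pos {r : ℚ} {w : E → ℚ} (hw : G.ConeHyp r w) (hr : 0 < r)
    (hn : ∀ X, G.Nontriv X → r < ∑ e ∈ G.cut X, w e) {N : Finset E} (hN : G.IsPM N)
    (hp : ∀ e ∈ N, 0 < w e) : G.PMD w N := by
  obtain ⟨l, hl, hlr, hc, -⟩ := peel G hw hr hn hN hp
  obtain ⟨c, hc0, hcN, hcs⟩ := cone G hc
  refine ⟨fun M => c M + (if M = N then l else 0), ⟨?_, ?_, ?_⟩, ?_⟩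
  · intro M
    show 0 ≤ c M + (if M = N then l else 0)
    have h1 := hc0 M
    split_ifs <;> linarith
  · intro M hM
    by_cases hMN : M = N
    · rw [hMN]; exact hN
    · apply hcN
      intro h0
      apply hM
      show c M + (if M = N then l else 0) = 0
      rw [h0, if_neg hMN, add_zero]
  · intro e
    have h1 : ∀ M : Finset E, (if e ∈ M then (c M + (if M = N then l else 0)) else 0) =
        (if e ∈ M then c M else 0) + (if M = N then (if e ∈ N then l else 0) else 0) := by
      intro M
      by_cases hMN : M = N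
      · rw [hMN, if_pos rfl, if_pos rfl]
        by_cases he : e ∈ N
        · rw [if_pos he, if_pos he, if_pos he]
        · rw [if_neg he, if_neg he, if_neg he, add_zero]
      · rw [if_neg hMN, if_neg hMN, add_zero, add_zero]
    show ∑ M : Finset E, (if e ∈ M then (c M + (if M = N then l else 0)) else 0) = w e
    rw [Finset.sum_congr rfl (fun M _ => h1 M), Finset.sum_add_distrib, hcs e,
      Finset.sum_ite_eq' Finset.univ N, if_pos (Finset.mem_univ _)]
    ring
  · show 0 < c N + (if N = N then l else 0)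
    rw [if_pos rfl]
    have h1 := hc0 N
    linarith

/-- Matchings used by decompositions are perfect and lie in the support. -/
theorem PMD.pos {G : MG V E} {w : E → ℚ} {N : Finset E} (h : G.PMD w N) :
    G.IsPM N ∧ ∀ e ∈ N, 0 < w e := by
  obtain ⟨c, ⟨hc0, hcN, hcs⟩, hp⟩ := h
  refine ⟨hcN N hp.ne', fun e he => ?_⟩
  rw [← hcs e]
  have h1 : (if e ∈ N then c N else 0) ≤ ∑ M : Finset E, (if e ∈ M then c M else 0) := by
    refine Finset.single_le_sum (f := fun M : Finset E => if e ∈ M then c M else 0) ?_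
      (Finset.mem_univ N)
    intro M _
    show 0 ≤ (if e ∈ M then c M else 0)
    have h2 := hc0 M
    split_ifs
    · exact h2
    · exact le_rfl
  rw [if_pos he] at h1
  exact lt_of_lt_of_le hp h1

/-- Every edge of the support is in a matching used by some decomposition. -/
theorem exists_pmd {r : ℚ} {w : E → ℚ} (hw : G.ConeHyp r w) {e : E} (he : 0 < w e) :
    ∃ N, G.PMD w N ∧ e ∈ N := by
  obtain ⟨c, hc⟩ := cone G hw
  have h1 : ∑ M : Finset E, (if e ∈ M then c M else 0) ≠ 0 := by
    rw [hc.2.2 e]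
    exact he.ne'
  obtain ⟨N, -, hN⟩ := Finset.exists_ne_zero_of_sum_ne_zero h1
  have h2 : e ∈ N := by
    by_contra h
    exact hN (if_neg h)
  rw [if_pos h2] at hN
  exact ⟨N, ⟨c, hc, lt_of_le_of_ne (hc.1 N) (Ne.symm hN)⟩, h2⟩

/-- The total of a decomposition is `r` (look at the degree of one vertex). -/
theorem Dec.total {G : MG V E} {r : ℚ} {w : E → ℚ} {c : Finset E → ℚ} (h : G.Dec w c) {v : V}
    (hv : v ∈ G.U) (hd : G.deg w v = r) : ∑ N : Finset E, c N = r := by
  have h1 := m1_sum h (fun e => (G.inc e v : ℚ))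
  have h2 : ∑ e ∈ G.F, (G.inc e v : ℚ) * w e = G.deg w v := by
    refine Finset.sum_congr rfl fun e _ => ?_
    rw [nsmul_eq_mul]
  rw [h2, hd] at h1
  rw [h1]
  refine Finset.sum_congr rfl fun N _ => ?_
  by_cases hc : c N = 0
  · rw [hc, zero_mul]
  · have h3 := (h.2.1 N hc).2 v hv
    have h4 : ∑ e ∈ N, (G.inc e v : ℚ) = 1 := by
      rw [← Nat.cast_sum, h3, Nat.cast_one]
    rw [h4, mul_one]

/-- A matching used by a decomposition meets every odd cut of weight `r` exactly once. -/
theorem PMD.tight {G : MG V E} {r : ℚ} {w : E → ℚ} {N : Finset E} (hw : G.ConeHyp r w)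
    (h : G.PMD w N) {X : Finset V} (hX : X ⊆ G.U) (ho : Odd X.card)
    (ht : ∑ e ∈ G.cut X, w e = r) : (N ∩ G.cut X).card = 1 := by
  obtain ⟨c, hc, hp⟩ := h
  have hne : X.Nonempty := by
    rw [← Finset.card_pos]
    exact ho.pos
  obtain ⟨v, hv⟩ := hne
  have h1 := Dec.total hc (hX hv) (hw.2.2.1 v (hX hv))
  have h2 := m1_cut hc X
  rw [ht] at h2
  have h3 : ∑ M : Finset E, c M * (((M ∩ G.cut X).card : ℚ) - 1) = 0 := by
    have h4 : ∀ M : Finset E, c M * (((M ∩ G.cut X).card : ℚ) - 1) =
        c M * ((M ∩ G.cut X).card : ℚ) - c M := by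
      intro M
      ring
    rw [Finset.sum_congr rfl (fun M _ => h4 M), Finset.sum_sub_distrib, ← h2, h1, sub_self]
  have h5 : ∀ M ∈ (Finset.univ : Finset (Finset E)),
      0 ≤ c M * (((M ∩ G.cut X).card : ℚ) - 1) := by
    intro M _
    by_cases h0 : c M = 0
    · rw [h0, zero_mul]
    · have h6 := (hc.2.1 M h0).odd_cut hX ho
      have h7 : (1 : ℚ) ≤ ((M ∩ G.cut X).card : ℚ) := by
        have h8 : 1 ≤ (M ∩ G.cut X).card := h6.pos
        exact_mod_cast h8
      exact mul_nonneg (hc.1 M) (by linarith)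
  have h6 := (Finset.sum_eq_zero_iff_of_nonneg h5).1 h3 N (Finset.mem_univ N)
  rcases mul_eq_zero.1 h6 with h7 | h7
  · exact absurd h7 hp.ne'
  · have h8 : ((N ∩ G.cut X).card : ℚ) = 1 := by linarith
    exact_mod_cast h8

end MG
end ML
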