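import Pool.Agent.ML.M1
import Pool.Agent.ML.D5
import Pool.Agent.ML.F1
import Pool.Agent.ML.A7c

/-!
# ML-M2: the support graph is bipartite or a brick if no nontrivial cut is tight (section 6)
-/

set_option autoImplicit false
set_option linter.unusedSectionVars false
set_option linter.unusedFintypeInType false
set_option linter.unusedVariables false

namespace ML
namespace MG

variable {V E : Type} [Fintype V] [Fintype E] [DecidableEq V] [DecidableEq E] (G : MG V E)

/-- The support graph. -/
def supp (w : E → ℚ) : MG V E := G.res (Finset.univ.filter (fun e => 0 < w e))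

theorem m2_even {H : MG V E} (hM : H.Mc) {K : Finset V} (hK : K ⊆ H.U) (hcut : H.cut K = ∅) :
    Even K.card := by
  obtain ⟨⟨N, hN⟩, -⟩ := hM
  have h1 := hN.card hK
  rw [hcut, Finset.inter_empty, Finset.card_empty, zero_add] at h1
  rw [h1]
  exact even_two_mul _

/-- an edge not in the cut has both ends inside or both outside -/
theorem m2_iff {H : MG V E} {K : Finset V} (hcut : H.cut K = ∅) {e : E} (he : e ∈ H.F) :
    H.s e ∈ K ↔ H.t e ∈ K := by
  by_contra h
  have h1 : e ∈ H.cut K := (mem_cut H).2 ⟨he, h⟩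
  rw [hcut] at h1
  exact absurd h1 (Finset.notMem_empty _)

theorem m2_le {H : MG V E} (hM : H.Mc) (hT : ∀ X, H.Nontriv X → ¬ H.Tight X) {K : Finset V}
    (hK : K ⊆ H.U) (hne : K.Nonempty) (hcut : H.cut K = ∅) : (H.U \ K).card ≤ 2 := by
  by_contra hlt
  have hcut' : H.cut (H.U \ K) = ∅ := by rw [cut_compl H hK, hcut]
  have e1 : Even K.card := m2_even hM hK hcut
  have e2 : Even (H.U \ K).card := m2_even hM Finset.sdiff_subset hcut'
  have c1 : 0 < K.card := Finset.card_pos.2 hne
  have c3 : (H.U \ K).card + K.card = H.U.card := Finset.card_sdiff_add_card_eq_card hK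
  obtain ⟨m, hm⟩ := e1
  obtain ⟨m', hm'⟩ := e2
  have hne2 : (H.U \ K).Nonempty := by
    rw [← Finset.card_pos]
    omega
  obtain ⟨k, hk⟩ := hne2
  obtain ⟨hkU, hkK⟩ := Finset.mem_sdiff.1 hk
  have cX : (insert k K).card = K.card + 1 := Finset.card_insert_of_notMem hkK
  refine hT (insert k K) ⟨?_, ?_, ?_, ?_⟩ ?_
  · intro x hx
    rcases Finset.mem_insert.1 hx with rfl | hx
    · exact hkU
    · exact hK hx
  · rw [cX, hm]
    exact ⟨m, by ring⟩
  · rw [cX]; omega
  · rw [cX]; omega
  · intro N hN
    obtain ⟨f, hfN, hf⟩ := hN.exists_edge hkU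
    have hfne := hN.ne hfN
    have hfF := hN.1 hfN
    have hs : N ∩ H.cut (insert k K) = {f} := by
      ext g
      rw [Finset.mem_inter, Finset.mem_singleton]
      constructor
      · rintro ⟨hgN, hg⟩
        obtain ⟨hgF, hg2⟩ := (mem_cut H).1 hg
        have h1 := m2_iff hcut hgF
        rw [Finset.mem_insert, Finset.mem_insert] at hg2
        have hgk : H.s g = k ∨ H.t g = k := by
          by_contra hcon
          rw [not_or] at hcon
          apply hg2
          constructor
          · rintro (h | h)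
            · exact absurd h hcon.1
            · exact Or.inr (h1.1 h)
          · rintro (h | h)
            · exact absurd h hcon.2
            · exact Or.inr (h1.2 h)
        exact hN.unique hkU hgN hfN hgk hf
      · rintro rfl
        refine ⟨hfN, (mem_cut H).2 ⟨hfF, ?_⟩⟩
        have h1 := m2_iff hcut hfF
        rw [Finset.mem_insert, Finset.mem_insert]
        rcases hf with hf | hf
        · intro h2
          rcases h2.1 (Or.inl hf) with h3 | h3
          · exact hfne (hf.trans h3.symm)
          · exact hkK (by rw [← hf]; exact h1.2 h3)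
        · intro h2
          rcases h2.2 (Or.inl hf) with h3 | h3
          · exact hfne (h3.trans hf.symm)
          · exact hkK (by rw [← hf]; exact h1.1 h3)
    rw [hs, Finset.card_singleton]

theorem m2_conn {H : MG V E} (hM : H.Mc) (hT : ∀ X, H.Nontriv X → ¬ H.Tight X)
    (hB : ¬ H.Bip) : H.Conn := by
  intro K hK hne hKU
  by_contra hcon
  have hcut : H.cut K = ∅ := Finset.not_nonempty_iff_eq_empty.1 hcon
  have hcut' : H.cut (H.U \ K) = ∅ := by rw [cut_compl H hK, hcut]
  have hne2 : (H.U \ K).Nonempty := by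
    rw [Finset.sdiff_nonempty]
    intro h
    exact hKU (Finset.Subset.antisymm hK h)
  have l1 := m2_le hM hT hK hne hcut
  have l2 := m2_le hM hT (Finset.sdiff_subset (s := H.U) (t := K)) hne2 hcut'
  rw [Finset.sdiff_sdiff_eq_self hK] at l2
  have e1 : Even K.card := m2_even hM hK hcut
  have e2 : Even (H.U \ K).card := m2_even hM Finset.sdiff_subset hcut'
  have c1 : 0 < K.card := Finset.card_pos.2 hne
  have c2 : 0 < (H.U \ K).card := Finset.card_pos.2 hne2
  obtain ⟨m, hm⟩ := e1
  obtain ⟨m', hm'⟩ := e2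
  obtain ⟨a, b, hab, hKab⟩ := Finset.card_eq_two.1 (show K.card = 2 by omega)
  obtain ⟨c, d, hcd, hKcd⟩ := Finset.card_eq_two.1 (show (H.U \ K).card = 2 by omega)
  have ha : a ∈ K := by rw [hKab]; simp
  have hc : c ∈ H.U \ K := by rw [hKcd]; simp
  obtain ⟨hcU, hcK⟩ := Finset.mem_sdiff.1 hc
  apply hB
  refine ⟨{a, c}, ?_, ?_⟩
  · intro x hx
    rcases Finset.mem_insert.1 hx with rfl | hx
    · exact hK ha
    · rw [Finset.mem_singleton.1 hx]; exact hcU
  · intro e he
    have hne := hM.ne he
    have h1 := m2_iff hcut he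
    refine (mem_cut H).2 ⟨he, ?_⟩
    by_cases hs : H.s e ∈ K
    · have ht := h1.1 hs
      have h2 : H.s e ≠ c := by rintro h; rw [h] at hs; exact hcK hs
      have h3 : H.t e ≠ c := by rintro h; rw [h] at ht; exact hcK ht
      rw [hKab, Finset.mem_insert, Finset.mem_singleton] at hs ht
      rw [Finset.mem_insert, Finset.mem_insert, Finset.mem_singleton, Finset.mem_singleton]
      intro h
      rcases hs with hs | hs <;> rcases ht with ht | ht
      · exact hne (hs.trans ht.symm)
      · rcases h.1 (Or.inl hs) with h4 | h4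
        · exact hne (hs.trans h4.symm)
        · exact h3 h4
      · rcases h.2 (Or.inl ht) with h4 | h4
        · exact hne (h4.trans ht.symm)
        · exact h2 h4
      · exact hne (hs.trans ht.symm)
    · have ht : H.t e ∉ K := fun h => hs (h1.2 h)
      have h2 : H.s e ≠ a := by rintro h; rw [h] at hs; exact hs ha
      have h3 : H.t e ≠ a := by rintro h; rw [h] at ht; exact ht ha
      have hs' : H.s e ∈ H.U \ K := Finset.mem_sdiff.2 ⟨H.hs e he, hs⟩
      have ht' : H.t e ∈ H.U \ K := Finset.mem_sdiff.2 ⟨H.ht e he, ht⟩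
      rw [hKcd, Finset.mem_insert, Finset.mem_singleton] at hs' ht'
      rw [Finset.mem_insert, Finset.mem_insert, Finset.mem_singleton, Finset.mem_singleton]
      intro h
      rcases hs' with hs' | hs' <;> rcases ht' with ht' | ht'
      · exact hne (hs'.trans ht'.symm)
      · rcases h.1 (Or.inr hs') with h4 | h4
        · exact h3 h4
        · exact hne (hs'.trans h4.symm)
      · rcases h.2 (Or.inr ht') with h4 | h4
        · exact h2 h4
        · exact hne (h4.trans ht'.symm)
      · exact hne (hs'.trans ht'.symm)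

variable {G} in
theorem m2_isPM {w : E → ℚ} {N : Finset E} :
    (G.supp w).IsPM N ↔ G.IsPM N ∧ ∀ e ∈ N, 0 < w e := by
  have h1 : (G.supp w).IsPM N ↔ G.IsPM N ∧ N ⊆ Finset.univ.filter (fun e => 0 < w e) :=
    res_isPM G
  rw [h1]
  constructor
  · rintro ⟨h2, h3⟩
    exact ⟨h2, fun e he => (Finset.mem_filter.1 (h3 he)).2⟩
  · rintro ⟨h2, h3⟩
    exact ⟨h2, fun e he => Finset.mem_filter.2 ⟨Finset.mem_univ _, h3 e he⟩⟩

/-- `ConeHyp` and no nontrivial odd cut of weight `r`, `r > 0`: the support graph is matching covered, and it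
is bipartite or a brick.
Proof.  `G' := G.supp w`, `G'.F = {e ∈ F | w e > 0}`.  Perfect matchings of `G'` are the perfect matchings of
`G` in the support (`res_isPM`).  `Mc`: `exists_isPM_pos`, `exists_pmd` and `PMD.pos`.
No nontrivial `X` is tight in `G'`: all `N` with `c N > 0` in a decomposition `c` (`cone`) would meet `cut X`
once, so `w(cut X) = ∑_N c N |N ∩ cut X| = ∑_N c N = r` (`Dec.total`), excluded.
If `G'` is connected it is a brick unless it is bipartite.  If it is not connected there is `K ⊆ U`,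
nonempty, `≠ U`, with `G'.cut K = ∅`; `|K|`, `|U \ K|` are even (perfect matchings of `G'` do not leave `K`),
so `≥ 2`.  If `|U \ K| ≥ 4`, choose `k ∈ U \ K`: `X := insert k K` is nontrivial, and tight in `G'`: an
edge of `G'` in `cut X` has the end `k` (no edge leaves `K`), and the edge of `N` at `k` is in `cut X` (it does
not enter `K`): contradiction.  Symmetrically `|K| = 2`.  So `K = {a, b}`, `U \ K = {c, d}`, all edges of
`G'` join `a, b` or `c, d` (no loops, `Mc.ne`): `F' ⊆ cut {a, c}`: bipartite. -/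
theorem supp_brick {r : ℚ} {w : E → ℚ} (hw : G.ConeHyp r w) (hr : 0 < r)
    (hn : ∀ X, G.Nontriv X → ∑ e ∈ G.cut X, w e ≠ r) :
    (G.supp w).Mc ∧ ((G.supp w).Bip ∨ (G.supp w).Brick) := by
  have hM : (G.supp w).Mc := by
    constructor
    · obtain ⟨N, hN, hp⟩ := exists_isPM_pos G hw hr
      exact ⟨N, m2_isPM.2 ⟨hN, hp⟩⟩
    · intro e he
      have he' : e ∈ G.F ∩ Finset.univ.filter (fun e => 0 < w e) := he
      have he2 : 0 < w e := (Finset.mem_filter.1 (Finset.mem_inter.1 he').2).2
      obtain ⟨N, hN, heN⟩ := exists_pmd G hw he2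
      exact ⟨N, m2_isPM.2 hN.pos, heN⟩
  have hT : ∀ X, (G.supp w).Nontriv X → ¬ (G.supp w).Tight X := by
    intro X hX hT
    have hX' : G.Nontriv X := hX
    apply hn X hX'
    obtain ⟨c, hc⟩ := cone G hw
    have h3 : 3 ≤ X.card := hX'.2.2.1
    have hne : X.Nonempty := by
      rw [← Finset.card_pos]
      omega
    obtain ⟨v, hv⟩ := hne
    rw [m1_cut hc X, ← Dec.total hc (hX'.1 hv) (hw.2.2.1 v (hX'.1 hv))]
    refine Finset.sum_congr rfl fun N _ => ?_
    by_cases h0 : c N = 0
    · rw [h0, zero_mul]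
    · have h1 : G.PMD w N := ⟨c, hc, lt_of_le_of_ne (hc.1 N) (Ne.symm h0)⟩
      have h2 : (G.supp w).IsPM N := m2_isPM.2 h1.pos
      have h4 := hT N h2
      have h5 : N ∩ (G.supp w).cut X = N ∩ G.cut X := by
        have h6 : (G.supp w).cut X = G.cut X ∩ Finset.univ.filter (fun e => 0 < w e) := res_cut G
        rw [h6]
        ext g
        rw [Finset.mem_inter, Finset.mem_inter, Finset.mem_inter]
        constructor
        · rintro ⟨k1, k2, -⟩
          exact ⟨k1, k2⟩
        · rintro ⟨k1, k2⟩
          exact ⟨k1, k2, Finset.mem_filter.2 ⟨Finset.mem_univ _, h1.pos.2 g k1⟩⟩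
      rw [h5] at h4
      rw [h4, Nat.cast_one, mul_one]
  refine ⟨hM, ?_⟩
  by_cases hB : (G.supp w).Bip
  · exact Or.inl hB
  · exact Or.inr ⟨hM, m2_conn hM hT hB, hB, hT⟩

end MG
end ML
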