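import Pool.Agent.ML.M2
import Pool.Agent.ML.F5

/-!
# ML-M3: singleton fibres, the sum of the potential (section 6)
-/

set_option autoImplicit false
set_option linter.unusedSectionVars false
set_option linter.unusedFintypeInType false
set_option linter.unusedVariables false

namespace ML
namespace MG

variable {V E : Type} [Fintype V] [Fintype E] [DecidableEq V] [DecidableEq E] (G : MG V E)

variable {G} in
/-- In a graph with Petersen structure and without nontrivial tight cuts all fibres are singletons.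
(`PS.exit_one`: fibres are tight; they are odd; at most 7 = ... the complement of a fibre contains nine
nonempty fibres, so it has at least 9 vertices; so `|fib p| < 3`, odd.) -/
theorem PS.fib_single {π : V → PV} {A : Finset V} (hP : G.PS π A)
    (hn : ∀ X, G.Nontriv X → ¬ G.Tight X) (p : PV) : ∃ v, G.fib π p = {v} := by
  have h1 : ∀ q, 1 ≤ (G.fib π q).card := fun q => by
    have h := (hP.card_fib q).1
    omega
  have hodd : Odd (G.fib π p).card := ⟨(G.fib π p \ A).card, (hP.card_fib p).1⟩
  have htight : G.Tight (G.fib π p) := fun N hN => hP.exit_one hN p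
  have hsub : G.fib π p ⊆ G.U := Finset.filter_subset _ _
  have hU : (G.fib π p).card + 3 ≤ G.U.card := by
    have e1 : G.U.card = ∑ q : PV, (G.fib π q).card := by
      rw [← G.fib_union (π := π)]
      rw [Finset.card_biUnion]
      intro q _ r _ hqr
      exact G.fib_disj hqr
    have e2 : ∑ q : PV, (G.fib π q).card =
        (G.fib π p).card + ∑ q ∈ Finset.univ.erase p, (G.fib π q).card :=
      (Finset.add_sum_erase _ _ (Finset.mem_univ p)).symm
    have e3 : (Finset.univ.erase p : Finset PV).card • 1 ≤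
        ∑ q ∈ Finset.univ.erase p, (G.fib π q).card :=
      Finset.card_nsmul_le_sum _ _ _ fun q _ => h1 q
    have e4 : (Finset.univ.erase p : Finset PV).card = 9 := by
      rw [Finset.card_erase_of_mem (Finset.mem_univ p)]
      rfl
    rw [e4] at e3
    simp only [smul_eq_mul, mul_one] at e3
    omega
  have hlt : ¬ 3 ≤ (G.fib π p).card := fun h3 => hn _ ⟨hsub, hodd, h3, hU⟩ htight
  have hone : (G.fib π p).card = 1 := by
    obtain ⟨k, hk⟩ := hodd
    omega
  exact Finset.card_eq_one.1 hone

/-- The sum of the potential over `U` vanishes if all fibres are singletons and `χ` kills the perfect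
matchings.  Proof: choose edges over the five spokes `(1, i)` (`exists_over`); the pattern
`D = {(1, i)}` has all degrees 1 and `pout D = 0`; with `assemble` (`W = univ`; `fib q` minus the ends is
empty, matched by `∅`) there is a perfect matching `N` with `∑_N och = 0`; `0 = ∑_N χ = ∑_U y`. -/
theorem sum_pot_zero {π : V → PV} {A : Finset V} {y : V → QZ} {χ : E → QZ} (hP : G.PS π A)
    (hC : G.PC π y χ) (hk : G.Kills χ) (h1 : ∀ p, ∃ v, G.fib π p = {v}) :
    ∑ v ∈ G.U, y v = 0 := by
  classical
  obtain ⟨ε, hε⟩ := exists_over hP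
  set D : Finset PE := Finset.univ.filter (fun i : PE => i.1 = 1) with hD
  have hmem : ∀ a : Fin 5, ((1, a) : PE) ∈ D := fun a =>
    Finset.mem_filter.2 ⟨Finset.mem_univ _, rfl⟩
  have hsp : ∀ i ∈ D, ∃ a : Fin 5, i = (1, a) := by
    intro i hi
    exact ⟨i.2, Prod.ext (Finset.mem_filter.1 hi).2 rfl⟩
  have hd : ∀ i ∈ D, ∀ j ∈ D, i ≠ j → ∀ x, (G.s (ε i) = x ∨ G.t (ε i) = x) →
      ¬ (G.s (ε j) = x ∨ G.t (ε j) = x) := by
    intro i hi j hj hij x hx hx'
    obtain ⟨h2, h3⟩ := G.share_end (hε i) (hε j) hx hx'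
    obtain ⟨a, rfl⟩ := hsp i hi
    obtain ⟨b, rfl⟩ := hsp j hj
    have e2 : (π x).2 = a := by
      rcases h2 with h2 | h2
      · rw [← h2]; rfl
      · rw [← h2]; rfl
    have e3 : (π x).2 = b := by
      rcases h3 with h3 | h3
      · rw [← h3]; rfl
      · rw [← h3]; rfl
    exact hij (by rw [← e2, ← e3])
  have hm : ∀ q ∈ (Finset.univ : Finset PV), ∃ M, (G.sub (G.fib π q \
      (G.U.filter (fun x => ∃ i ∈ D, G.s (ε i) = x ∨ G.t (ε i) = x)))).IsPM M := by
    intro q _
    refine ⟨∅, isPM_empty _ ?_⟩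
    show G.fib π q \ (G.U.filter (fun x => ∃ i ∈ D, G.s (ε i) = x ∨ G.t (ε i) = x)) = ∅
    rw [Finset.sdiff_eq_empty_iff_subset]
    obtain ⟨v, hv⟩ := h1 q
    rw [hv, Finset.singleton_subset_iff, Finset.mem_filter]
    have hvU : v ∈ G.U := by
      have h2 : v ∈ G.fib π q := by rw [hv]; exact Finset.mem_singleton_self v
      exact (Finset.mem_filter.1 h2).1
    refine ⟨hvU, (1, q.2), hmem _, ?_⟩
    have hq : ∀ x, x ∈ G.U → π x = q → x = v := by
      intro x hx hxq
      have h2 : x ∈ G.fib π q := Finset.mem_filter.2 ⟨hx, hxq⟩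
      rw [hv, Finset.mem_singleton] at h2
      exact h2
    obtain ⟨hF, hor⟩ := hε (1, q.2)
    have hs := G.hs _ hF
    have ht := G.ht _ hF
    obtain ⟨b, a⟩ := q
    have c1 : src (1, a) = (false, a) := rfl
    have c2 : tgt (1, a) = (true, a) := rfl
    rw [c1, c2] at hor
    cases b with
    | false =>
      rcases hor with h2 | h2
      · exact Or.inl (hq _ hs h2.1)
      · exact Or.inr (hq _ ht h2.2)
    | true =>
      rcases hor with h2 | h2
      · exact Or.inr (hq _ ht h2.2)
      · exact Or.inl (hq _ hs h2.1)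
  obtain ⟨N, hN, hsum⟩ := G.assemble (fun i _ => hε i) hd Finset.univ
    (fun i _ => ⟨Finset.mem_univ _, Finset.mem_univ _⟩) hm
  rw [G.fib_union] at hN
  have hN1 : G.IsPM N := (G.sub_self_isPM).1 hN
  have hp0 : pout D = 0 := by
    unfold pout
    rw [Finset.card_eq_zero, Finset.filter_eq_empty_iff]
    intro i hi h0
    have h2 := (Finset.mem_filter.1 hi).2
    rw [h0] at h2
    exact absurd h2 (by decide)
  rw [hp0, zero_smul] at hsum
  have h2 := hk N hN1
  have h3 : ∑ e ∈ N, χ e = ∑ e ∈ N, (y (G.s e) + y (G.t e)) +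
      ∑ e ∈ N, och (π (G.s e)) (π (G.t e)) := by
    rw [← Finset.sum_add_distrib]
    exact Finset.sum_congr rfl fun e he => hC e (hN1.1 he)
  rw [h3, hsum, add_zero, hN1.pot] at h2
  exact h2


end MG
end ML
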