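import Pool.Agent.ML.M3

/-!
# ML-M3b: Petersen bricks with a pair system (section 6)
-/

set_option autoImplicit false
set_option linter.unusedSectionVars false
set_option linter.unusedFintypeInType false
set_option linter.unusedVariables false

namespace ML
namespace MG

variable {V E : Type} [Fintype V] [Fintype E] [DecidableEq V] [DecidableEq E] (G : MG V E)

private lemma m3b_wt_pos {w : E → ℤ} (h0 : ∀ e, 0 ≤ (w e : ℚ)) {e : E}
    (he : e ∈ (G.supp (fun e => (w e : ℚ))).F) {a b : V}
    (hab : (G.s e = a ∧ G.t e = b) ∨ (G.s e = b ∧ G.t e = a)) : 0 < G.wt w a b := by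
  have h1 : e ∈ G.F ∩ Finset.univ.filter (fun e => 0 < (w e : ℚ)) := he
  rw [Finset.mem_inter, Finset.mem_filter] at h1
  have h0' : ∀ e, 0 ≤ w e := fun e => by exact_mod_cast h0 e
  have h2 : 0 < w e := by exact_mod_cast h1.2.2
  unfold wt
  refine Finset.sum_pos' (fun f _ => ?_) ⟨e, h1.1, ?_⟩
  · split_ifs
    · exact h0' f
    · exact le_refl _
  · rw [if_pos hab]; exact h2

private lemma m3b_wt_ex {w : E → ℤ} {a b : V} (h : 0 < G.wt w a b) :
    ∃ e ∈ (G.supp (fun e => (w e : ℚ))).F,
      (G.s e = a ∧ G.t e = b) ∨ (G.s e = b ∧ G.t e = a) := by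
  by_contra hno
  push Not at hno
  apply absurd h
  rw [not_lt]
  unfold wt
  refine Finset.sum_nonpos fun e he => ?_
  split_ifs with hc
  · by_contra hpos
    have h1 : e ∈ (G.supp (fun e => (w e : ℚ))).F := by
      show e ∈ G.F ∩ Finset.univ.filter (fun e => 0 < (w e : ℚ))
      rw [Finset.mem_inter, Finset.mem_filter]
      exact ⟨he, Finset.mem_univ _, by exact_mod_cast not_le.1 hpos⟩
    rcases hc with hc | hc
    · exact (hno e h1).1 hc.1 hc.2
    · exact (hno e h1).2 hc.1 hc.2
  · exact le_refl _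

private def m3b_c (p q : PV) (i : Fin 5) : Bool :=
  decide ((p = (false, i) ∧ q = (false, i + 1)) ∨ (p = (false, i + 1) ∧ q = (false, i)))

private lemma m3b_c1 : ∀ p q : PV, padj p q = true → oc p q = true →
    ∃ i : Fin 5, m3b_c p q i = true ∧ ∀ j : Fin 5, m3b_c p q j = true → j = i := by
  decide

private lemma m3b_c2 : ∀ p q : PV, oc p q = false → ∀ j : Fin 5, m3b_c p q j = false := by
  decide

private lemma m3b_och (p q : PV) (h : padj p q = true) :
    och p q = ∑ i : Fin 5, (if (p = (false, i) ∧ q = (false, i + 1)) ∨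
      (p = (false, i + 1) ∧ q = (false, i)) then half else 0) := by
  unfold och
  cases hoc : oc p q
  · rw [if_neg (by simp)]
    symm
    refine Finset.sum_eq_zero fun i _ => ?_
    rw [if_neg (of_decide_eq_false (m3b_c2 p q hoc i))]
  · obtain ⟨i, hi, hj⟩ := m3b_c1 p q h hoc
    rw [if_pos rfl, Finset.sum_eq_single i]
    · rw [if_pos (of_decide_eq_true hi)]
    · intro j _ hji
      rw [if_neg]
      intro hc
      exact hji (hj j (decide_eq_true hc))
    · intro hi'
      exact absurd (Finset.mem_univ i) hi'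

/-- Petersen bricks with a pair system contribute 0.
`G' = G.supp w` has Petersen structure with singleton fibres `fib p = {v_p}`.
(1) No vertex is special: let `σ v ≠ v`, `v = v_p`, `σ v = v_q`.  `wt v (σ v) > 0`, so some edge of the
support joins them, `p`, `q` are adjacent.  Let `n ≠ q` be another neighbour of `p` (`three_nbrs`), `z = v_n`.
By `PS.real` an edge of the support joins `v` and `z`, so `wt z v > 0` (all weights are nonnegative), and
`wt v z > 0`.  If `σ z ≠ z`: `z ≠ v`, `z ≠ σ v`, so `wt v z = 0`, contradiction.  If `σ z = z`: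
`wt z (σ v) = wt z v > 0`, so an edge of the support joins `z` and `σ v`, so `n`, `q` are adjacent: triangle
`p, q, n`, contradiction (`tri_free`).
(2) So `wt z z'` is even for all `z ≠ z'` in `U`.  `pair χ w = ∑_{e ∈ F'} w e • (y s + y t + och) =
r • ∑_U y + ∑_{e ∈ F'} w e • och (π s) (π t)`; the first term is 0 (`sum_pot_zero`); in the second only edges
over the five outer edges `(0, i)` count, grouped by these: `∑_i (wt v_i v_{i+1}) • half`, each `wt` is even:
`0`. -/
theorem thmM_pet {r : ℚ} {w : E → ℤ} (hw : G.ConeHyp r (fun e => (w e : ℚ))) {σ : V → V}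
    (hσ : G.Pairs w σ) {χ : E → QZ} {π : V → PV} {A : Finset V} {y : V → QZ}
    (hP : (G.supp (fun e => (w e : ℚ))).PS π A) (hC : (G.supp (fun e => (w e : ℚ))).PC π y χ)
    (hk : (G.supp (fun e => (w e : ℚ))).Kills χ)
    (h1 : ∀ p, ∃ v, (G.supp (fun e => (w e : ℚ))).fib π p = {v}) : pair χ w = 0 := by
  have hsum := sum_pot_zero (G.supp (fun e => (w e : ℚ))) hP hC hk h1
  choose v hv using h1
  have hfib : ∀ x p, x ∈ (G.supp (fun e => (w e : ℚ))).fib π p ↔ (x ∈ G.U ∧ π x = p) :=
    fun x p => Finset.mem_filter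
  have hvU : ∀ p, v p ∈ G.U := fun p => ((hfib _ _).1 (by rw [hv p]; exact Finset.mem_singleton_self _)).1
  have hvπ : ∀ p, π (v p) = p := fun p => ((hfib _ _).1 (by rw [hv p]; exact Finset.mem_singleton_self _)).2
  have hx : ∀ x ∈ G.U, x = v (π x) := by
    intro x hxU
    have : x ∈ (G.supp (fun e => (w e : ℚ))).fib π (π x) := (hfib _ _).2 ⟨hxU, rfl⟩
    rw [hv] at this
    exact Finset.mem_singleton.1 this
  have h0 : ∀ e, 0 ≤ (w e : ℚ) := hw.1
  have hFs : ∀ e ∈ (G.supp (fun e => (w e : ℚ))).F, G.s e ∈ G.U := fun e he => (G.supp (fun e => (w e : ℚ))).hs e he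
  have hFt : ∀ e ∈ (G.supp (fun e => (w e : ℚ))).F, G.t e ∈ G.U := fun e he => (G.supp (fun e => (w e : ℚ))).ht e he
  have hadj : ∀ e ∈ (G.supp (fun e => (w e : ℚ))).F, padj (π (G.s e)) (π (G.t e)) = true := by
    intro e he
    rcases hP.edge e he with h | h
    · exfalso
      have h3 : G.s e = G.t e := by
        rw [hx _ (hFs e he), hx _ (hFt e he)]
        exact congrArg v h.1
      apply h.2
      show G.s e ∈ A ↔ G.t e ∈ A
      rw [h3]
    · exact h.1
  have hW3 : ∀ p q, padj p q = true → 0 < G.wt w (v p) (v q) := by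
    intro p q hpq
    obtain ⟨e, he, h⟩ := hP.real p q hpq
    refine m3b_wt_pos G h0 he ?_
    rcases h with ⟨h3, h4⟩ | ⟨h3, h4⟩
    · left
      exact ⟨by rw [hx _ (hFs e he)]; exact congrArg v h3, by rw [hx _ (hFt e he)]; exact congrArg v h4⟩
    · right
      exact ⟨by rw [hx _ (hFs e he)]; exact congrArg v h3, by rw [hx _ (hFt e he)]; exact congrArg v h4⟩
  have hW4 : ∀ a b, 0 < G.wt w a b → padj (π a) (π b) = true := by
    intro a b hab
    obtain ⟨e, he, h⟩ := m3b_wt_ex G hab
    rcases h with ⟨h3, h4⟩ | ⟨h3, h4⟩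
    · rw [← h3, ← h4]; exact hadj e he
    · rw [← h3, ← h4, padj_comm]; exact hadj e he
  have hord : ∀ x ∈ G.U, σ x = x := by
    intro x hxU
    by_contra hne
    have hpq : padj (π x) (π (σ x)) = true := hW4 _ _ (hσ.pos x hxU hne)
    obtain ⟨a, b, c, hab, hac, hbc, hn⟩ := three_nbrs (π x)
    obtain ⟨m, hm, hmq⟩ : ∃ m, padj (π x) m = true ∧ m ≠ π (σ x) := by
      by_cases ha : a = π (σ x)
      · exact ⟨b, (hn b).2 (Or.inr (Or.inl rfl)), fun hb => hab (ha.trans hb.symm)⟩
      · exact ⟨a, (hn a).2 (Or.inl rfl), ha⟩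
    have hzx : v m ≠ x := by
      intro h
      have h3 := hvπ m
      rw [h] at h3
      rw [← h3, padj_self] at hm
      exact Bool.false_ne_true hm
    have hzs : v m ≠ σ x := by
      intro h
      have h3 := hvπ m
      rw [h] at h3
      exact hmq h3.symm
    by_cases hz : σ (v m) = v m
    · have h3 := hσ.bal x hxU (v m) (hvU m) hne hz
      have h4 : 0 < G.wt w (v m) x := by
        have := hW3 m (π x) (by rw [padj_comm]; exact hm)
        rwa [← hx x hxU] at this
      rw [h3] at h4
      have h5 := hW4 _ _ h4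
      rw [hvπ m] at h5
      exact tri_free (π x) (π (σ x)) m ⟨hpq, by rw [padj_comm]; exact h5, hm⟩
    · have h3 := hσ.zero x hxU (v m) (hvU m) hne hz hzx hzs
      have h4 : 0 < G.wt w x (v m) := by
        have := hW3 (π x) m hm
        rwa [← hx x hxU] at this
      omega
  -- the weight is regular on the support
  have hFw : ∀ e, e ∉ (G.supp (fun e => (w e : ℚ))).F → w e = 0 := by
    intro e he
    by_contra hne
    apply he
    show e ∈ G.F ∩ Finset.univ.filter (fun e => 0 < (w e : ℚ))
    rw [Finset.mem_inter, Finset.mem_filter]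
    refine ⟨?_, Finset.mem_univ _, ?_⟩
    · by_contra heF
      have h3 : (w e : ℚ) = 0 := hw.2.1 e heF
      exact hne (by exact_mod_cast h3)
    · have h3 := h0 e
      rcases h3.lt_or_eq with h4 | h4
      · exact h4
      · exact absurd (by exact_mod_cast h4.symm) hne
  have hsub : (G.supp (fun e => (w e : ℚ))).F ⊆ G.F := Finset.inter_subset_left
  have hdeg : ∀ x ∈ G.U, (((G.supp (fun e => (w e : ℚ))).deg w x : ℤ) : ℚ) = r := by
    intro x hxU
    have h3 := hw.2.2.1 x hxU
    rw [← h3]
    unfold deg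
    rw [Finset.sum_subset hsub (fun e _ he => by rw [hFw e he, smul_zero])]
    push_cast
    refine Finset.sum_congr rfl fun e _ => ?_
    rw [nsmul_eq_mul, nsmul_eq_mul]
    push_cast
    rfl
  have hreg : (G.supp (fun e => (w e : ℚ))).Reg
      ((G.supp (fun e => (w e : ℚ))).deg w (v (false, 0))) w := by
    refine ⟨hFw, fun x hxU => ?_⟩
    have h3 := hdeg x hxU
    have h4 := hdeg (v (false, 0)) (hvU _)
    exact_mod_cast h3.trans h4.symm
  have hpot := hreg.pair_pot (χ := fun e => y (G.s e) + y (G.t e)) (X := ∅) y 0 (by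
    intro e _
    rw [ite_self, add_zero]
    rfl)
  rw [hsum, smul_zero, smul_zero, add_zero] at hpot
  have hsplit : pair χ w = pair (fun e => y (G.s e) + y (G.t e)) w +
      pair (fun e => och (π (G.s e)) (π (G.t e))) w := by
    rw [← pair_add_left]
    refine pair_congr fun e => ?_
    by_cases he : e ∈ (G.supp (fun e => (w e : ℚ))).F
    · rw [hC e he]; rfl
    · rw [hFw e he, zero_smul, zero_smul]
  rw [hsplit, hpot, zero_add]
  have hgroup : pair (fun e => och (π (G.s e)) (π (G.t e))) w =
      ∑ i : Fin 5, (G.wt w (v (false, i)) (v (false, i + 1))) • half := by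
    unfold pair wt
    have h3 : ∀ i : Fin 5, (∑ e ∈ G.F, if (G.s e = v (false, i) ∧ G.t e = v (false, i + 1)) ∨
        (G.s e = v (false, i + 1) ∧ G.t e = v (false, i)) then w e else 0) • half =
        ∑ e : E, w e • (if (G.s e = v (false, i) ∧ G.t e = v (false, i + 1)) ∨
        (G.s e = v (false, i + 1) ∧ G.t e = v (false, i)) then half else 0) := by
      intro i
      rw [Finset.sum_smul]
      rw [← Finset.sum_subset (Finset.subset_univ G.F)]
      · refine Finset.sum_congr rfl fun e _ => ?_
        split_ifs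
        · rfl
        · rw [zero_smul, smul_zero]
      · intro e _ he
        have h4 : (w e : ℚ) = 0 := hw.2.1 e he
        have h5 : w e = 0 := by exact_mod_cast h4
        rw [h5, zero_smul]
    rw [Finset.sum_congr rfl fun i _ => h3 i, Finset.sum_comm]
    refine Finset.sum_congr rfl fun e _ => ?_
    by_cases he : e ∈ (G.supp (fun e => (w e : ℚ))).F
    · rw [← Finset.smul_sum]
      congr 1
      show och (π (G.s e)) (π (G.t e)) = _
      rw [m3b_och _ _ (hadj e he)]
      refine Finset.sum_congr rfl fun i _ => ?_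
      have hs' : ∀ p, π (G.s e) = p ↔ G.s e = v p := fun p =>
        ⟨fun h => by rw [hx _ (hFs e he)]; exact congrArg v h, fun h => by rw [h]; exact hvπ p⟩
      have ht' : ∀ p, π (G.t e) = p ↔ G.t e = v p := fun p =>
        ⟨fun h => by rw [hx _ (hFt e he)]; exact congrArg v h, fun h => by rw [h]; exact hvπ p⟩
      simp only [hs', ht']
    · rw [hFw e he, zero_smul]
      symm
      refine Finset.sum_eq_zero fun i _ => ?_
      rw [zero_smul]
  rw [hgroup]
  refine Finset.sum_eq_zero fun i _ => ?_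
  have hne : v (false, i) ≠ v (false, i + 1) := by
    intro h
    have h3 := congrArg π h
    rw [hvπ, hvπ, Prod.mk.injEq] at h3
    have h4 : ∀ i : Fin 5, i ≠ i + 1 := by decide
    exact h4 i h3.2
  obtain ⟨k, hk2⟩ := hσ.even _ (hvU (false, i)) _ (hvU (false, i + 1)) (hord _ (hvU _))
    (hord _ (hvU _)) hne
  rw [hk2, add_smul, ← smul_add, half_add_half, smul_zero]


end MG
end ML
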