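import Pool.Agent.ML.M0
import Pool.Agent.ML.C3

/-!
# ML-M4: pair systems pass to contractions (section 6)
-/

set_option autoImplicit false
set_option linter.unusedSectionVars false
set_option linter.unusedFintypeInType false
set_option linter.unusedVariables false

namespace ML
namespace MG

variable {V E : Type} [Fintype V] [Fintype E] [DecidableEq V] [DecidableEq E] (G : MG V E)

lemma m4_shr_s {X : Finset V} {x : V} (hx : x ∉ X) {v : V} (hv : v ∈ X) (e : E) :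
    (G.shr X x).s e = v ↔ G.s e = v := by
  rw [G.shr_s]
  by_cases h : G.s e ∈ X
  · rw [if_pos h]
  · rw [if_neg h]
    constructor
    · intro h1
      exact absurd (h1 ▸ hv) hx
    · intro h1
      exact absurd (h1 ▸ hv) h

lemma m4_shr_t {X : Finset V} {x : V} (hx : x ∉ X) {v : V} (hv : v ∈ X) (e : E) :
    (G.shr X x).t e = v ↔ G.t e = v := by
  rw [G.shr_t]
  by_cases h : G.t e ∈ X
  · rw [if_pos h]
  · rw [if_neg h]
    constructor
    · intro h1
      exact absurd (h1 ▸ hv) hx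
    · intro h1
      exact absurd (h1 ▸ hv) h

lemma m4_shr_sx {X : Finset V} {x : V} (hx : x ∉ X) (e : E) :
    (G.shr X x).s e = x ↔ G.s e ∉ X := by
  rw [G.shr_s]
  by_cases h : G.s e ∈ X
  · rw [if_pos h]
    constructor
    · intro h1
      exact absurd (h1 ▸ h) hx
    · intro h1
      exact absurd h h1
  · rw [if_neg h]
    exact ⟨fun _ => h, fun _ => rfl⟩

lemma m4_shr_tx {X : Finset V} {x : V} (hx : x ∉ X) (e : E) :
    (G.shr X x).t e = x ↔ G.t e ∉ X := by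
  rw [G.shr_t]
  by_cases h : G.t e ∈ X
  · rw [if_pos h]
    constructor
    · intro h1
      exact absurd (h1 ▸ h) hx
    · intro h1
      exact absurd h h1
  · rw [if_neg h]
    exact ⟨fun _ => h, fun _ => rfl⟩

/-- sum over the outer end -/
lemma m4_sum_out {X : Finset V} (w : ℤ) {e : E} (he : e ∈ G.F) {v : V} (hv : v ∈ X) :
    (∑ z ∈ G.U \ X, if (G.s e = v ∧ G.t e = z) ∨ (G.s e = z ∧ G.t e = v) then w else 0) =
      if (G.s e = v ∧ G.t e ∉ X) ∨ (G.s e ∉ X ∧ G.t e = v) then w else 0 := by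
  by_cases h1 : G.s e = v ∧ G.t e ∉ X
  · rw [if_pos (Or.inl h1), Finset.sum_eq_single (G.t e)]
    · rw [if_pos (Or.inl ⟨h1.1, rfl⟩)]
    · intro z hz hne
      rw [if_neg]
      rintro (h2 | h2)
      · exact hne h2.2.symm
      · rw [h1.1] at h2
        exact (Finset.mem_sdiff.1 hz).2 (h2.1 ▸ hv)
    · intro h2
      exact absurd (Finset.mem_sdiff.2 ⟨G.ht e he, h1.2⟩) h2
  · by_cases h2 : G.s e ∉ X ∧ G.t e = v
    · rw [if_pos (Or.inr h2), Finset.sum_eq_single (G.s e)]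
      · rw [if_pos (Or.inr ⟨rfl, h2.2⟩)]
      · intro z hz hne
        rw [if_neg]
        rintro (h3 | h3)
        · exact h2.1 (h3.1 ▸ hv)
        · exact hne h3.1.symm
      · intro h3
        exact absurd (Finset.mem_sdiff.2 ⟨G.hs e he, h2.1⟩) h3
    · rw [if_neg (by rintro (h | h); exacts [h1 h, h2 h])]
      refine Finset.sum_eq_zero fun z hz => ?_
      rw [if_neg]
      rintro (h3 | h3)
      · exact h1 ⟨h3.1, h3.2 ▸ (Finset.mem_sdiff.1 hz).2⟩
      · exact h2 ⟨h3.1 ▸ (Finset.mem_sdiff.1 hz).2, h3.2⟩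

lemma m4_wt_nonneg {r : ℚ} {w : E → ℤ} (hw : G.ConeHyp r (fun e => (w e : ℚ))) (a b : V) :
    0 ≤ G.wt w a b := by
  unfold wt
  refine Finset.sum_nonneg fun e _ => ?_
  split_ifs
  · have h : (0 : ℚ) ≤ (w e : ℚ) := hw.1 e
    exact_mod_cast h
  · exact le_rfl

/-- Weights between vertex sets in the contraction: for `v ∈ X` the total weight between `x` and `v` is the
sum of `wt v z` over `z ∈ U \ X`. -/
theorem wt_shr_x {X : Finset V} {x : V} (hX : X ⊆ G.U) (hx : x ∈ G.U \ X) {w : E → ℤ} {v : V}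
    (hv : v ∈ X) : (G.shr X x).wt (restr (G.tou X) w) v x = ∑ z ∈ G.U \ X, G.wt w v z := by
  have hxX : x ∉ X := (Finset.mem_sdiff.1 hx).2
  have hR : ∑ z ∈ G.U \ X, G.wt w v z = ∑ e ∈ G.F,
      if (G.s e = v ∧ G.t e ∉ X) ∨ (G.s e ∉ X ∧ G.t e = v) then w e else 0 := by
    unfold wt
    rw [Finset.sum_comm]
    exact Finset.sum_congr rfl fun e he => G.m4_sum_out (w e) he hv
  rw [hR]
  unfold wt
  rw [G.shr_F]
  refine Finset.sum_subset_zero_on_sdiff (G.tou_sub X) ?_ ?_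
  · intro e he
    rw [Finset.mem_sdiff] at he
    rw [if_neg]
    rintro (h | h)
    · exact he.2 ((G.mem_tou).2 ⟨he.1, Or.inl (h.1 ▸ hv)⟩)
    · exact he.2 ((G.mem_tou).2 ⟨he.1, Or.inr (h.2 ▸ hv)⟩)
  · intro e he
    exact if_congr (or_congr (and_congr (G.m4_shr_s hxX hv e) (G.m4_shr_tx hxX e))
      (and_congr (G.m4_shr_sx hxX e) (G.m4_shr_t hxX hv e))) (if_pos he) rfl

theorem wt_shr {X : Finset V} {x : V} (hX : X ⊆ G.U) (hx : x ∈ G.U \ X) {w : E → ℤ} {v z : V}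
    (hv : v ∈ X) (hz : z ∈ X) (hvz : v ≠ z) :
    (G.shr X x).wt (restr (G.tou X) w) v z = G.wt w v z := by
  have hxX : x ∉ X := (Finset.mem_sdiff.1 hx).2
  unfold wt
  rw [G.shr_F]
  refine Finset.sum_subset_zero_on_sdiff (G.tou_sub X) ?_ ?_
  · intro e he
    rw [Finset.mem_sdiff] at he
    rw [if_neg]
    rintro (h | h)
    · exact he.2 ((G.mem_tou).2 ⟨he.1, Or.inl (h.1 ▸ hv)⟩)
    · exact he.2 ((G.mem_tou).2 ⟨he.1, Or.inl (h.1 ▸ hz)⟩)
  · intro e he
    exact if_congr (or_congr (and_congr (G.m4_shr_s hxX hv e) (G.m4_shr_t hxX hz e))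
      (and_congr (G.m4_shr_s hxX hz e) (G.m4_shr_t hxX hv e))) (if_pos he) rfl

lemma wt_comm (w : E → ℤ) (a b : V) : G.wt w a b = G.wt w b a := by
  unfold wt
  refine Finset.sum_congr rfl fun e _ => ?_
  have h : ((G.s e = a ∧ G.t e = b) ∨ (G.s e = b ∧ G.t e = a)) ↔
      ((G.s e = b ∧ G.t e = a) ∨ (G.s e = a ∧ G.t e = b)) := or_comm
  by_cases h1 : (G.s e = a ∧ G.t e = b) ∨ (G.s e = b ∧ G.t e = a)
  · rw [if_pos h1, if_pos (h.1 h1)]
  · rw [if_neg h1, if_neg (fun h2 => h1 (h.2 h2))]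

/-- Cuts in terms of `wt`. -/
theorem cut_wt {w : E → ℤ} {X : Finset V} (hX : X ⊆ G.U) :
    ∑ e ∈ G.cut X, w e = ∑ a ∈ X, ∑ b ∈ G.U \ X, G.wt w a b := by
  have hR : ∀ a ∈ X, ∑ b ∈ G.U \ X, G.wt w a b = ∑ e ∈ G.F,
      if (G.s e = a ∧ G.t e ∉ X) ∨ (G.s e ∉ X ∧ G.t e = a) then w e else 0 := by
    intro a ha
    unfold wt
    rw [Finset.sum_comm]
    exact Finset.sum_congr rfl fun e he => G.m4_sum_out (w e) he ha
  rw [Finset.sum_congr rfl hR, Finset.sum_comm]
  refine Finset.sum_subset_zero_on_sdiff (G.cut_sub X) ?_ ?_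
  · intro e he
    rw [Finset.mem_sdiff] at he
    refine Finset.sum_eq_zero fun a ha => ?_
    rw [if_neg]
    rintro (h | h)
    · refine he.2 ((G.mem_cut).2 ⟨he.1, fun h1 => h.2 (h1.1 (h.1 ▸ ha))⟩)
    · refine he.2 ((G.mem_cut).2 ⟨he.1, fun h1 => h.1 (h1.2 (h.2 ▸ ha))⟩)
  · intro e he
    obtain ⟨heF, hc⟩ := (G.mem_cut).1 he
    by_cases h1 : G.s e ∈ X
    · have h2 : G.t e ∉ X := fun h2 => hc ⟨fun _ => h2, fun _ => h1⟩
      symm
      rw [Finset.sum_eq_single (G.s e)]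
      · rw [if_pos (Or.inl ⟨rfl, h2⟩)]
      · intro a ha hne
        rw [if_neg]
        rintro (h | h)
        · exact hne h.1.symm
        · exact h.1 h1
      · intro h3
        exact absurd h1 h3
    · have h2 : G.t e ∈ X := by
        by_contra h2
        exact hc ⟨fun h => absurd h h1, fun h => absurd h h2⟩
      symm
      rw [Finset.sum_eq_single (G.t e)]
      · rw [if_pos (Or.inr ⟨h1, rfl⟩)]
      · intro a ha hne
        rw [if_neg]
        rintro (h | h)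
        · exact h.2 h2
        · exact hne h.2.symm
      · intro h3
        exact absurd h2 h3

/-- A pair separated by a tight cut: `a ∈ X`, `b = σ a ∉ X`, `w(cut X) = r`.  Then all edges of positive
weight in the cut have an end in `{a, b}`.
Proof: for a vertex `z` other than `a`, `b`: `wt z a = wt z b` (`z` ordinary: `bal`; `z` special: both `0` by
`zero`).  `r = deg w a = wt a b + ∑_{z ≠ a, b} wt a z` (loops have weight 0 by `ConeHyp.cut_single`;
so `deg w a = w(cut {a})`, `cut_wt`).  Split `z ∈ X` (sum `α`) and `z ∉ X` (sum `α'`): `wt a b + α + α' = r`.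
`w(cut X) ≥ wt a b + ∑_{z ∉ X, z ≠ b} wt a z + ∑_{z ∈ X, z ≠ a} wt z b = wt a b + α' + α = r`, and the
remaining terms `wt z z'` with `z ∈ X`, `z ≠ a`, `z' ∉ X`, `z' ≠ b` are nonnegative with sum
`w(cut X) - r = 0`. -/
theorem sep_pair {r : ℚ} {w : E → ℤ} (hw : G.ConeHyp r (fun e => (w e : ℚ))) {σ : V → V}
    (hσ : G.Pairs w σ) {X : Finset V} (hX : X ⊆ G.U) (ht : ∑ e ∈ G.cut X, (w e : ℚ) = r)
    {a : V} (ha : a ∈ X) (hb : σ a ∉ X) :
    ∀ z ∈ X, ∀ z' ∈ G.U \ X, z ≠ a → z' ≠ σ a → G.wt w z z' = 0 := by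
  set b := σ a with hbdef
  have haU : a ∈ G.U := hX ha
  have hbU : b ∈ G.U := hσ.mem a haU
  have hbX : b ∈ G.U \ X := Finset.mem_sdiff.2 ⟨hbU, hb⟩
  have hba : σ a ≠ a := fun h => hb (by rw [hbdef, h]; exact ha)
  have hab : σ b = a := hσ.inv a haU
  have hbb : σ b ≠ b := by
    rw [hab]
    intro h
    exact hba h.symm
  have hsym : ∀ z ∈ G.U, z ≠ a → z ≠ b → G.wt w a z = G.wt w z b := by
    intro z hz hza hzb
    by_cases h : σ z = z
    · rw [G.wt_comm w a z]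
      exact hσ.bal a haU z hz hba h
    · rw [hσ.zero a haU z hz hba h hza hzb, G.wt_comm w z b,
        hσ.zero b hbU z hz hbb h hzb (by rw [hab]; exact hza)]
  have hr : ((∑ e ∈ G.cut X, w e : ℤ) : ℚ) = r := by
    push_cast
    exact ht
  have hca : ∑ e ∈ G.cut {a}, w e = ∑ e ∈ G.cut X, w e := by
    have h1 := (ConeHyp.cut_single G hw haU).1
    have h2 : ((∑ e ∈ G.cut {a}, w e : ℤ) : ℚ) = ((∑ e ∈ G.cut X, w e : ℤ) : ℚ) := by
      rw [hr]
      push_cast
      exact h1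
    exact_mod_cast h2
  have h1 : ∑ e ∈ G.cut {a}, w e = (∑ z ∈ X.erase a, G.wt w a z) +
      (G.wt w a b + ∑ z ∈ (G.U \ X).erase b, G.wt w a z) := by
    rw [G.cut_wt (Finset.singleton_subset_iff.2 haU), Finset.sum_singleton,
      Finset.add_sum_erase (G.U \ X) (fun z => G.wt w a z) hbX]
    have hU : G.U \ {a} = X.erase a ∪ (G.U \ X) := by
      ext z
      simp only [Finset.mem_sdiff, Finset.mem_singleton, Finset.mem_union, Finset.mem_erase]
      constructor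
      · rintro ⟨h2, h3⟩
        by_cases hz : z ∈ X
        · exact Or.inl ⟨h3, hz⟩
        · exact Or.inr ⟨h2, hz⟩
      · rintro (h2 | h2)
        · exact ⟨hX h2.2, h2.1⟩
        · exact ⟨h2.1, fun h3 => h2.2 (h3 ▸ ha)⟩
    have hd : Disjoint (X.erase a) (G.U \ X) := by
      rw [Finset.disjoint_left]
      intro z hz hz'
      exact (Finset.mem_sdiff.1 hz').2 (Finset.mem_of_mem_erase hz)
    rw [hU, Finset.sum_union hd]
  have h2 : ∑ e ∈ G.cut X, w e = (G.wt w a b + ∑ z ∈ (G.U \ X).erase b, G.wt w a z) +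
      ∑ z ∈ X.erase a, (G.wt w z b + ∑ z' ∈ (G.U \ X).erase b, G.wt w z z') := by
    rw [G.cut_wt hX, ← Finset.add_sum_erase X _ ha]
    congr 1
    · rw [Finset.add_sum_erase (G.U \ X) (fun z => G.wt w a z) hbX]
    · refine Finset.sum_congr rfl fun z _ => ?_
      rw [Finset.add_sum_erase (G.U \ X) (fun z' => G.wt w z z') hbX]
  have h3 : ∑ z ∈ X.erase a, G.wt w a z = ∑ z ∈ X.erase a, G.wt w z b := by
    refine Finset.sum_congr rfl fun z hz => ?_
    have hzX := Finset.mem_of_mem_erase hz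
    exact hsym z (hX hzX) (Finset.ne_of_mem_erase hz) (fun h => hb (h ▸ hzX))
  rw [Finset.sum_add_distrib] at h2
  have h4 : ∑ z ∈ X.erase a, ∑ z' ∈ (G.U \ X).erase b, G.wt w z z' = 0 := by
    rw [hca, h3] at h1
    linarith
  intro z hz z' hz' hza hzb
  have h5 := (Finset.sum_eq_zero_iff_of_nonneg (fun y _ =>
    Finset.sum_nonneg fun y' _ => G.m4_wt_nonneg hw y y')).1 h4 z (Finset.mem_erase.2 ⟨hza, hz⟩)
  exact (Finset.sum_eq_zero_iff_of_nonneg (fun y _ => G.m4_wt_nonneg hw z y)).1 h5 z'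
    (Finset.mem_erase.2 ⟨hzb, hz'⟩)

end MG
end ML
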