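import Pool.Agent.ML.M4

/-!
# ML-M5: the pair system of the contraction (section 6)
-/

set_option autoImplicit false
set_option linter.unusedSectionVars false
set_option linter.unusedFintypeInType false
set_option linter.unusedVariables false

namespace ML
namespace MG

variable {V E : Type} [Fintype V] [Fintype E] [DecidableEq V] [DecidableEq E] (G : MG V E)

private theorem m5_nonneg {w : E → ℤ} (h : ∀ e, 0 ≤ w e) (a b : V) : 0 ≤ G.wt w a b := by
  unfold wt
  refine Finset.sum_nonneg fun e _ => ?_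
  split_ifs
  · exact h e
  · exact le_refl _

private theorem m5_even {w : E → ℤ} {σ : V → V} (hσ : G.Pairs w σ) {Y : Finset V} (hY : Y ⊆ G.U)
    (hYσ : ∀ y ∈ Y, σ y ∈ Y) {z : V} (hz : z ∈ G.U) (hzY : z ∉ Y) (hzo : σ z = z) :
    Even (∑ y ∈ Y, G.wt w z y) := by
  rw [even_iff_two_dvd]
  have h1 : ((∑ y ∈ Y, G.wt w z y : ℤ) : ZMod 2) = 0 := by
    push_cast
    refine Finset.sum_involution (fun y _ => σ y) ?_ ?_ ?_ ?_
    · intro y hy
      by_cases hyo : σ y = y
      · have h2 := hσ.even z hz y (hY hy) hzo hyo (fun h => hzY (h ▸ hy))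
        obtain ⟨m, hm⟩ := h2
        rw [hyo, hm]
        push_cast
        have h3 : (2 : ZMod 2) = 0 := rfl
        linear_combination 2 * (m : ZMod 2) * h3
      · rw [← hσ.bal y (hY hy) z hz hyo hzo]
        have h3 : (2 : ZMod 2) = 0 := rfl
        linear_combination (G.wt w z y : ZMod 2) * h3
    · intro y hy h0 hyo
      apply h0
      have h2 := hσ.even z hz y (hY hy) hzo hyo (fun h => hzY (h ▸ hy))
      obtain ⟨m, hm⟩ := h2
      rw [hm]
      push_cast
      have h3 : (2 : ZMod 2) = 0 := rfl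
      linear_combination (m : ZMod 2) * h3
    · intro y hy
      exact hYσ y hy
    · intro y hy
      exact hσ.inv y (hY hy)
  exact (ZMod.intCast_zmod_eq_zero_iff_dvd _ 2).1 h1

/-- Case 1: no pair is separated. -/
private theorem m5_case1 {w : E → ℤ} {σ : V → V}
    (hσ : G.Pairs w σ) {X : Finset V} {x : V} (hX : X ⊆ G.U) (hx : x ∈ G.U \ X)
    (hc : ∀ v ∈ X, σ v ∈ X) :
    (G.shr X x).Pairs (restr (G.tou X) w) (fun v => if v ∈ X then σ v else v) := by
  have hxX : x ∉ X := (Finset.mem_sdiff.1 hx).2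
  have hYσ : ∀ z ∈ G.U \ X, σ z ∈ G.U \ X := by
    intro z hz
    obtain ⟨h1, h2⟩ := Finset.mem_sdiff.1 hz
    refine Finset.mem_sdiff.2 ⟨hσ.mem z h1, fun h3 => h2 ?_⟩
    have h4 := hc _ h3
    rwa [hσ.inv z h1] at h4
  have key : ∀ v ∈ X, σ v ≠ v → ∀ z ∈ G.U \ X, G.wt w v z = G.wt w (σ v) z := by
    intro v hv hsv z hz
    obtain ⟨h1, h2⟩ := Finset.mem_sdiff.1 hz
    have hvz : z ≠ v := fun h => h2 (h ▸ hv)
    have hvz' : z ≠ σ v := fun h => h2 (h ▸ hc v hv)
    by_cases hzo : σ z = z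
    · rw [G.wt_comm w v z, G.wt_comm w (σ v) z]
      exact hσ.bal v (hX hv) z h1 hsv hzo
    · rw [hσ.zero v (hX hv) z h1 hsv hzo hvz hvz']
      rw [hσ.zero (σ v) (hX (hc v hv)) z h1 ?_ hzo hvz' ?_]
      · rw [hσ.inv v (hX hv)]
        exact fun h => hsv h.symm
      · rw [hσ.inv v (hX hv)]
        exact hvz
  refine ⟨?_, ?_, ?_, ?_, ?_, ?_⟩
  · intro v hv
    change (if v ∈ X then σ v else v) ∈ insert x X
    by_cases h : v ∈ X
    · rw [if_pos h]
      exact Finset.mem_insert_of_mem (hc v h)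
    · rw [if_neg h]
      exact hv
  · intro v hv
    by_cases h : v ∈ X
    · rw [if_pos h, if_pos (hc v h)]
      exact hσ.inv v (hX h)
    · rw [if_neg h, if_neg h]
  · intro v hv hs
    by_cases h : v ∈ X
    · rw [if_pos h] at hs ⊢
      rw [G.wt_shr hX hx h (hc v h) (Ne.symm hs)]
      exact hσ.pos v (hX h) hs
    · rw [if_neg h] at hs
      exact absurd rfl hs
  · intro v hv z hz hs hs' hzv hzv'
    by_cases h : v ∈ X
    · by_cases h' : z ∈ X
      · rw [if_pos h] at hs hzv'
        rw [if_pos h'] at hs'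
        rw [G.wt_shr hX hx h h' (Ne.symm hzv)]
        exact hσ.zero v (hX h) z (hX h') hs hs' hzv hzv'
      · rw [if_neg h'] at hs'
        exact absurd rfl hs'
    · rw [if_neg h] at hs
      exact absurd rfl hs
  · intro v hv z hz hs hs'
    by_cases h : v ∈ X
    · rw [if_pos h] at hs ⊢
      rcases Finset.mem_insert.1 hz with h' | h'
      · rw [h', MG.wt_comm, G.wt_shr_x hX hx h, MG.wt_comm _ _ x (σ v), G.wt_shr_x hX hx (hc v h)]
        exact Finset.sum_congr rfl fun z hz => key v h hs z hz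
      · rw [if_pos h'] at hs'
        have h1 : z ≠ v := fun h2 => hs (by rw [← h2]; exact hs')
        have h3 : z ≠ σ v := fun h2 => by
          rw [h2, hσ.inv v (hX h)] at hs'
          exact hs hs'.symm
        rw [G.wt_shr hX hx h' h h1, G.wt_shr hX hx h' (hc v h) h3]
        exact hσ.bal v (hX h) z (hX h') hs hs'
    · rw [if_neg h] at hs
      exact absurd rfl hs
  · have aux : ∀ z ∈ X, σ z = z → Even ((G.shr X x).wt (restr (G.tou X) w) z x) := by
      intro z hz hzo
      rw [G.wt_shr_x hX hx hz]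
      exact m5_even G hσ Finset.sdiff_subset hYσ (hX hz)
        (fun h => (Finset.mem_sdiff.1 h).2 hz) hzo
    intro z hz z' hz' hs hs' hzz
    rcases Finset.mem_insert.1 hz with h | h
    · rcases Finset.mem_insert.1 hz' with h' | h'
      · exact absurd (h.trans h'.symm) hzz
      · rw [if_pos h'] at hs'
        rw [h, MG.wt_comm]
        exact aux z' h' hs'
    · rw [if_pos h] at hs
      rcases Finset.mem_insert.1 hz' with h' | h'
      · rw [h']
        exact aux z h hs
      · rw [if_pos h'] at hs'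
        rw [G.wt_shr hX hx h h' hzz]
        exact hσ.even z (hX h) z' (hX h') hs hs' hzz

/-- Case 2: the pair `a`, `σ a` is separated. -/
private theorem m5_case2 {r : ℚ} {w : E → ℤ} (hw : G.ConeHyp r (fun e => (w e : ℚ))) {σ : V → V}
    (hσ : G.Pairs w σ) {X : Finset V} {x : V} (hX : X ⊆ G.U) (hx : x ∈ G.U \ X)
    (ht : ∑ e ∈ G.cut X, (w e : ℚ) = r) {a : V} (ha : a ∈ X) (hb : σ a ∉ X) :
    (G.shr X x).Pairs (restr (G.tou X) w)
      (fun v => if v = x then a else if v = a then x else σ v) := by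
  have hxX : x ∉ X := (Finset.mem_sdiff.1 hx).2
  have hax : a ≠ x := fun h => hxX (h ▸ ha)
  have hsep := G.sep_pair hw hσ hX ht ha hb
  have hsa : σ a ≠ a := fun h => hb (by rw [h]; exact ha)
  have hbU : σ a ∈ G.U := hσ.mem a (hX ha)
  have hbY : σ a ∈ G.U \ X := Finset.mem_sdiff.2 ⟨hbU, hb⟩
  have hsb : σ (σ a) ≠ σ a := by
    rw [hσ.inv a (hX ha)]
    exact fun h => hsa h.symm
  have hw0 : ∀ e, 0 ≤ w e := fun e => by
    have h : (0 : ℚ) ≤ (w e : ℚ) := hw.1 e
    exact_mod_cast h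
  have hmem : ∀ v ∈ X, v ≠ a → σ v ∈ X := by
    intro v hv hva
    by_contra h1
    have h2 : σ v ∈ G.U \ X := Finset.mem_sdiff.2 ⟨hσ.mem v (hX hv), h1⟩
    have h3 : σ v ≠ σ a := fun h4 => hva (by
      rw [← hσ.inv v (hX hv), h4, hσ.inv a (hX ha)])
    have h5 := hsep v hv (σ v) h2 hva h3
    have h6 := hσ.pos v (hX hv) (fun h7 => h1 (by rw [h7]; exact hv))
    omega
  have hne : ∀ v ∈ X, v ≠ a → σ v ≠ a := by
    intro v hv hva h1
    apply hb
    rw [← h1, hσ.inv v (hX hv)]
    exact hv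
  have hnx : ∀ v ∈ X, v ≠ x := fun v hv h => hxX (h ▸ hv)
  have hvx : ∀ v ∈ X, v ≠ a →
      (G.shr X x).wt (restr (G.tou X) w) v x = G.wt w v (σ a) := by
    intro v hv hva
    rw [G.wt_shr_x hX hx hv]
    refine Finset.sum_eq_single_of_mem _ hbY fun z hz hzb => ?_
    exact hsep v hv z hz hva hzb
  have hord : ∀ v ∈ X, v ≠ a → σ v = v →
      (G.shr X x).wt (restr (G.tou X) w) v x = G.wt w v a := by
    intro v hv hva hvo
    rw [hvx v hv hva]
    exact (hσ.bal a (hX ha) v (hX hv) hsa hvo).symm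
  have hspec : ∀ v ∈ X, v ≠ a → σ v ≠ v →
      (G.shr X x).wt (restr (G.tou X) w) v x = 0 := by
    intro v hv hva hvs
    rw [hvx v hv hva]
    refine hσ.zero v (hX hv) (σ a) hbU hvs hsb ?_ ?_
    · exact fun h => hb (by rw [h]; exact hv)
    · exact fun h => hb (by rw [h]; exact hmem v hv hva)
  have hposx : 0 < (G.shr X x).wt (restr (G.tou X) w) a x := by
    rw [G.wt_shr_x hX hx ha]
    have h1 := hσ.pos a (hX ha) hsa
    have h2 : G.wt w a (σ a) ≤ ∑ z ∈ G.U \ X, G.wt w a z :=
      Finset.single_le_sum (f := fun z => G.wt w a z) (fun z _ => m5_nonneg G hw0 a z) hbY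
    omega
  have ex : (if x = x then a else if x = a then x else σ x) = a := if_pos rfl
  have ea : (if a = x then a else if a = a then x else σ a) = x := by
    rw [if_neg hax, if_pos rfl]
  have eo : ∀ v ∈ X, v ≠ a → (if v = x then a else if v = a then x else σ v) = σ v := by
    intro v hv hva
    rw [if_neg (hnx v hv), if_neg hva]
  have cases3 : ∀ v ∈ (G.shr X x).U, v = x ∨ v = a ∨ (v ∈ X ∧ v ≠ a) := by
    intro v hv
    rcases Finset.mem_insert.1 hv with h | h
    · exact Or.inl h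
    · by_cases h1 : v = a
      · exact Or.inr (Or.inl h1)
      · exact Or.inr (Or.inr ⟨h, h1⟩)
  refine ⟨?_, ?_, ?_, ?_, ?_, ?_⟩
  · intro v hv
    change (if v = x then a else if v = a then x else σ v) ∈ insert x X
    rcases cases3 v hv with rfl | rfl | ⟨h1, h2⟩
    · rw [ex]
      exact Finset.mem_insert_of_mem ha
    · rw [ea]
      exact Finset.mem_insert_self _ _
    · rw [eo v h1 h2]
      exact Finset.mem_insert_of_mem (hmem v h1 h2)
  · intro v hv
    rcases cases3 v hv with rfl | rfl | ⟨h1, h2⟩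
    · beta_reduce
      rw [ex, ea]
    · beta_reduce
      rw [ea, ex]
    · beta_reduce
      rw [eo v h1 h2, eo _ (hmem v h1 h2) (hne v h1 h2), hσ.inv v (hX h1)]
  · intro v hv hs
    rcases cases3 v hv with rfl | rfl | ⟨h1, h2⟩
    · beta_reduce
      rw [ex, MG.wt_comm]
      exact hposx
    · beta_reduce
      rw [ea]
      exact hposx
    · beta_reduce at hs ⊢
      rw [eo v h1 h2] at hs ⊢
      rw [G.wt_shr hX hx h1 (hmem v h1 h2) (Ne.symm hs)]
      exact hσ.pos v (hX h1) hs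
  · intro v hv z hz hs hs' hzv hzv'
    rcases cases3 v hv with rfl | rfl | ⟨h1, h2⟩
    · rw [ex] at hzv'
      rcases cases3 z hz with h3 | h3 | ⟨h3, h4⟩
      · exact absurd h3 hzv
      · exact absurd h3 hzv'
      · rw [eo z h3 h4] at hs'
        rw [MG.wt_comm]
        exact hspec z h3 h4 hs'
    · rw [ea] at hzv'
      rcases cases3 z hz with h3 | h3 | ⟨h3, h4⟩
      · exact absurd h3 hzv'
      · exact absurd h3 hzv
      · rw [eo z h3 h4] at hs'
        rw [G.wt_shr hX hx ha h3 (Ne.symm hzv)]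
        exact hσ.zero v (hX ha) z (hX h3) hsa hs' hzv (fun h => hb (by rw [← h]; exact h3))
    · rw [eo v h1 h2] at hs hzv'
      rcases cases3 z hz with rfl | rfl | ⟨h3, h4⟩
      · exact hspec v h1 h2 hs
      · rw [G.wt_shr hX hx h1 ha h2]
        exact hσ.zero v (hX h1) z (hX ha) hs hsa hzv hzv'
      · rw [eo z h3 h4] at hs'
        rw [G.wt_shr hX hx h1 h3 (Ne.symm hzv)]
        exact hσ.zero v (hX h1) z (hX h3) hs hs' hzv hzv'
  · intro v hv z hz hs hs'
    beta_reduce at hs hs' ⊢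
    rcases cases3 z hz with rfl | rfl | ⟨h3, h4⟩
    · rw [ex] at hs'
      exact absurd hs' hax
    · rw [ea] at hs'
      exact absurd hs' (Ne.symm hax)
    · rw [eo z h3 h4] at hs'
      rcases cases3 v hv with rfl | rfl | ⟨h1, h2⟩
      · rw [ex, hord z h3 h4 hs', G.wt_shr hX hx h3 ha h4]
      · rw [ea, hord z h3 h4 hs', G.wt_shr hX hx h3 ha h4]
      · rw [eo v h1 h2] at hs ⊢
        have h5 : z ≠ v := fun h => hs (by rw [← h]; exact hs')
        have h6 : z ≠ σ v := fun h => by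
          rw [h, hσ.inv v (hX h1)] at hs'
          exact hs hs'.symm
        rw [G.wt_shr hX hx h3 h1 h5, G.wt_shr hX hx h3 (hmem v h1 h2) h6]
        exact hσ.bal v (hX h1) z (hX h3) hs hs'
  · intro z hz z' hz' hs hs' hzz
    beta_reduce at hs hs'
    rcases cases3 z hz with rfl | rfl | ⟨h3, h4⟩
    · rw [ex] at hs
      exact absurd hs hax
    · rw [ea] at hs
      exact absurd hs (Ne.symm hax)
    · rcases cases3 z' hz' with rfl | rfl | ⟨h3', h4'⟩
      · rw [ex] at hs'
        exact absurd hs' hax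
      · rw [ea] at hs'
        exact absurd hs' (Ne.symm hax)
      · rw [eo z h3 h4] at hs
        rw [eo z' h3' h4'] at hs'
        rw [G.wt_shr hX hx h3 h3' hzz]
        exact hσ.even z (hX h3) z' (hX h3') hs hs' hzz

/-- Pair systems are inherited by the contraction of a tight cut.
Proof.  Case 1: no pair is separated (`σ v ∈ X` for all `v ∈ X`; then also `σ z ∈ U \ X` for `z ∈ U \ X`).
`σ' v := σ v` on `X`, `σ' x := x` (and `σ' v := v` elsewhere).  `x` is ordinary.  Conditions between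
vertices of `X` follow from `wt_shr`.  `bal` for `v ∈ X` special and `z = x`: `wt x v = ∑_{z ∈ U \ X} wt v z`
(`wt_shr_x`, `wt_comm`), and for each `z ∈ U \ X`: `wt v z = wt (σ v) z` (ordinary: `bal`; special: both
are `0` by `zero`, as `z` is not in the pair `v, σ v`).  `even` for `z ∈ X` ordinary and `x`:
`∑_{z' ∈ U \ X} wt z z'`: the ordinary `z'` contribute even numbers (`even`), the special `z'` come in pairs
`z', σ z'` (both in `U \ X`) with `wt z z' = wt z (σ z')`: the sum over them is even.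
Case 2: some `a ∈ X` has `b = σ a ∉ X`.  `sep_pair`: all positive weights in the cut are at `a` or `b`.
It is the only separated pair: if `c ∈ X`, `σ c ∉ X`, `c ≠ a`, then `σ c ≠ b` and `wt c (σ c) = 0` by
`sep_pair`, contradiction to `pos`.  `σ' a := x`, `σ' x := a`, `σ' v := σ v` for the other `v ∈ X`
(they have `σ v ∈ X`).  `wt' a x = ∑_{z ∉ X} wt a z ≥ wt a b > 0`.  For `v ∈ X`, `v ≠ a`:
`wt' v x = ∑_{z ∉ X} wt v z = wt v b` by `sep_pair`.  So for `v` ordinary `wt' v x = wt v b = wt v a`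
(`bal`), and for `v` special (`v ≠ a`) `wt' v x = wt v b = 0` (`zero`).  All conditions follow. -/
theorem pairs_shr {r : ℚ} {w : E → ℤ} (hw : G.ConeHyp r (fun e => (w e : ℚ))) {σ : V → V}
    (hσ : G.Pairs w σ) {X : Finset V} {x : V} (hX : X ⊆ G.U) (hx : x ∈ G.U \ X)
    (ht : ∑ e ∈ G.cut X, (w e : ℚ) = r) :
    ∃ σ' : V → V, (G.shr X x).Pairs (restr (G.tou X) w) σ' := by
  by_cases h : ∀ v ∈ X, σ v ∈ X
  · exact ⟨_, m5_case1 G hσ hX hx h⟩
  · push Not at h
    obtain ⟨a, ha, hb⟩ := h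
    exact ⟨_, m5_case2 G hw hσ hX hx ht ha hb⟩

end MG
end ML
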