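import Pool.Agent.ML.D1
import Pool.Agent.ML.C2

/-!
# ML-M6: composition of characters along a cut, general form (section 6)
-/

set_option autoImplicit false
set_option linter.unusedSectionVars false
set_option linter.unusedFintypeInType false
set_option linter.unusedVariables false

namespace ML
namespace MG

variable {V E : Type} [Fintype V] [Fintype E] [DecidableEq V] [DecidableEq E] (G : MG V E)

private lemma m6_split {Y : Finset V} {N : Finset E} (hN : N ⊆ G.tou Y) (f : E → QZ) :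
    ∑ e ∈ N, f e = ∑ e ∈ N ∩ G.inn Y, f e + ∑ e ∈ N ∩ G.cut Y, f e := by
  have hd : Disjoint (N ∩ G.inn Y) (N ∩ G.cut Y) :=
    (G.disj_inn_cut Y).mono Finset.inter_subset_right Finset.inter_subset_right
  rw [← Finset.sum_union hd, ← Finset.inter_union_distrib_left, ← G.tou_eq,
    Finset.inter_eq_left.2 hN]

private lemma m6_inn_compl {X : Finset V} {e : E} (h : e ∈ G.inn X) :
    e ∉ G.tou (G.U \ X) := by
  intro h2
  obtain ⟨_, hs, ht⟩ := (G.mem_inn).1 h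
  rcases ((G.mem_tou).1 h2).2 with h3 | h3
  · exact (Finset.mem_sdiff.1 h3).2 hs
  · exact (Finset.mem_sdiff.1 h3).2 ht

private lemma m6_key {X : Finset V} (χ : E → QZ) {N₁ M₂ : Finset E}
    (hN1 : N₁ ⊆ G.tou X) (hM2 : M₂ ⊆ G.tou (G.U \ X)) (h : N₁ ∩ G.cut X = M₂ ∩ G.cut X)
    (g6 : ∑ e ∈ N₁ ∪ M₂, χ e = 0) :
    ∑ e ∈ N₁ ∩ G.inn X, χ e + ∑ e ∈ M₂, χ e = 0 := by
  have hd : Disjoint (N₁ ∩ G.inn X) M₂ := by
    rw [Finset.disjoint_left]
    intro e he1 he2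
    exact G.m6_inn_compl (Finset.mem_inter.1 he1).2 (hM2 he2)
  have hu : N₁ ∪ M₂ = (N₁ ∩ G.inn X) ∪ M₂ := by
    ext e
    rw [Finset.mem_union, Finset.mem_union, Finset.mem_inter]
    constructor
    · rintro (he | he)
      · have h3 := hN1 he
        rw [G.tou_eq, Finset.mem_union] at h3
        rcases h3 with h3 | h3
        · exact Or.inl ⟨he, h3⟩
        · have h4 : e ∈ N₁ ∩ G.cut X := Finset.mem_inter.2 ⟨he, h3⟩
          rw [h] at h4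
          exact Or.inr (Finset.mem_inter.1 h4).1
      · exact Or.inr he
    · rintro (he | he)
      · exact Or.inl he.1
      · exact Or.inr he
  rw [hu, Finset.sum_union hd] at g6
  exact g6

private lemma m6_cut_eq {X : Finset V} {N : Finset E} {h : E} (hc : (N ∩ G.cut X).card = 1)
    (h1 : h ∈ N) (h2 : h ∈ G.cut X) : N ∩ G.cut X = {h} := by
  obtain ⟨a, ha⟩ := Finset.card_eq_one.1 hc
  have h4 : h ∈ N ∩ G.cut X := Finset.mem_inter.2 ⟨h1, h2⟩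
  rw [ha, Finset.mem_singleton] at h4
  rw [ha, h4]

/-- General form of `char_comp` (same proof as ML-D3): `P₁`, `P₂` sets of perfect matchings of the two
contractions which use the same cut edges, such that `χ` kills all glued matchings.
Proof.  For `h ∈ cut X` used by `P₁` choose `N₂ h` with `P₂ (N₂ h)`, `h ∈ N₂ h` and `N₁ h` with `P₁ (N₁ h)`,
`h ∈ N₁ h`.  `χ₁ e := χ e` on `inn X`, `χ₁ h := ∑ g ∈ N₂ h, χ g` for used `h ∈ cut X`, `0` for the other cut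
edges and elsewhere.  `χ₂ e := χ e` on `inn (U \ X)`, `χ₂ h := χ h - χ₁ h` on `cut X`, `0` elsewhere.
Key: `P₁ N₁`, `P₂ N₂`, same cut edge: `0 = ∑_{N₁ ∪ N₂} χ = ∑_{N₁ ∩ inn X} χ + ∑_{N₂} χ`. -/
theorem char_comp_gen {X : Finset V} {x x' : V} (hX : X ⊆ G.U) (hx : x ∈ G.U \ X) (hx' : x' ∈ X)
    {P₁ P₂ : Finset E → Prop} (h1 : ∀ N, P₁ N → (G.shr X x).IsPM N)
    (h2 : ∀ N, P₂ N → (G.shr (G.U \ X) x').IsPM N)
    (hh : ∀ h ∈ G.cut X, (∃ N, P₁ N ∧ h ∈ N) ↔ (∃ N, P₂ N ∧ h ∈ N)) {χ : E → QZ}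
    (hk : ∀ N₁ N₂, P₁ N₁ → P₂ N₂ → N₁ ∩ G.cut X = N₂ ∩ G.cut X → ∑ e ∈ N₁ ∪ N₂, χ e = 0) :
    ∃ χ₁ χ₂ : E → QZ, (∀ e ∈ G.F, χ e = χ₁ e + χ₂ e) ∧ (∀ e, e ∉ G.tou X → χ₁ e = 0) ∧
      (∀ e, e ∉ G.tou (G.U \ X) → χ₂ e = 0) ∧ (∀ N, P₁ N → ∑ e ∈ N, χ₁ e = 0) ∧
      ∀ N, P₂ N → ∑ e ∈ N, χ₂ e = 0 := by
  classical
  have hxX : x ∉ X := (Finset.mem_sdiff.1 hx).2
  have hx'U : x' ∉ G.U \ X := fun h => (Finset.mem_sdiff.1 h).2 hx'
  have hcc : G.cut (G.U \ X) = G.cut X := G.cut_compl hX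
  have hch1 : ∀ h : E, ∃ N : Finset E, (h ∈ G.cut X → (∃ N, P₁ N ∧ h ∈ N) → P₁ N ∧ h ∈ N) := by
    intro h
    by_cases hu : ∃ N, P₁ N ∧ h ∈ N
    · obtain ⟨N, hN⟩ := hu
      exact ⟨N, fun _ _ => hN⟩
    · exact ⟨∅, fun _ h' => absurd h' hu⟩
  have hch2 : ∀ h : E, ∃ N : Finset E, (h ∈ G.cut X → (∃ N, P₁ N ∧ h ∈ N) → P₂ N ∧ h ∈ N) := by
    intro h
    by_cases hc : h ∈ G.cut X
    · by_cases hu : ∃ N, P₁ N ∧ h ∈ N
      · obtain ⟨N, hN⟩ := (hh h hc).1 hu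
        exact ⟨N, fun _ _ => hN⟩
      · exact ⟨∅, fun _ h' => absurd h' hu⟩
    · exact ⟨∅, fun h' _ => absurd h' hc⟩
  choose N₁f hN₁f using hch1
  choose N₂f hN₂f using hch2
  have hcut1 : G.cut X ⊆ G.tou X := by
    rw [G.tou_eq]
    exact Finset.subset_union_right
  have hcard1 : ∀ N, P₁ N → (N ∩ G.cut X).card = 1 := fun N hN => G.shr_isPM_cut hxX (h1 N hN)
  have hcard2 : ∀ N, P₂ N → (N ∩ G.cut X).card = 1 := by
    intro N hN
    have h3 := G.shr_isPM_cut hx'U (h2 N hN)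
    rwa [hcc] at h3
  have hkey : ∀ N₁ M₂, P₁ N₁ → P₂ M₂ → N₁ ∩ G.cut X = M₂ ∩ G.cut X →
      ∑ e ∈ N₁ ∩ G.inn X, χ e + ∑ e ∈ M₂, χ e = 0 := fun N₁ M₂ hN hM hc =>
    G.m6_key χ (h1 N₁ hN).1 (h2 M₂ hM).1 hc (hk N₁ M₂ hN hM hc)
  set S : E → QZ := fun e => ∑ g ∈ N₂f e, χ g with hS
  set χ₁ : E → QZ := fun e => if e ∈ G.inn X then χ e else if e ∈ G.cut X then S e else 0 with hχ1
  set χ₂ : E → QZ := fun e => if e ∈ G.inn (G.U \ X) then χ e else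
    if e ∈ G.cut X then χ e - S e else 0 with hχ2
  have hic : ∀ e, e ∈ G.cut X → e ∉ G.inn X := fun e he h =>
    Finset.disjoint_left.1 (G.disj_inn_cut X) h he
  have hic2 : ∀ e, e ∈ G.cut X → e ∉ G.inn (G.U \ X) := by
    intro e he h
    rw [← hcc] at he
    exact Finset.disjoint_left.1 (G.disj_inn_cut (G.U \ X)) h he
  have hii : ∀ e, e ∈ G.inn X → e ∉ G.inn (G.U \ X) := by
    intro e he h
    apply G.m6_inn_compl he
    rw [G.tou_eq]
    exact Finset.mem_union_left _ h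
  have hχ1i : ∀ e ∈ G.inn X, χ₁ e = χ e := fun e he => if_pos he
  have hχ1c : ∀ e ∈ G.cut X, χ₁ e = S e := by
    intro e he
    simp only [hχ1, if_neg (hic e he), if_pos he]
  have hχ2i : ∀ e ∈ G.inn (G.U \ X), χ₂ e = χ e := fun e he => if_pos he
  have hχ2c : ∀ e ∈ G.cut X, χ₂ e = χ e - S e := by
    intro e he
    simp only [hχ2, if_neg (hic2 e he), if_pos he]
  refine ⟨χ₁, χ₂, ?_, ?_, ?_, ?_, ?_⟩
  · intro e he
    rcases G.mem_tou_or hX he with h | h | h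
    · have h1 : e ∉ G.cut X := fun h' => hic e h' h
      rw [hχ1i e h]
      simp only [hχ2, if_neg (hii e h), if_neg h1, add_zero]
    · rw [hχ1c e h, hχ2c e h]
      abel
    · have h1 : e ∉ G.cut X := fun h' => hic2 e h' h
      have h2 : e ∉ G.inn X := fun h' => hii e h' h
      rw [hχ2i e h]
      simp only [hχ1, if_neg h2, if_neg h1, zero_add]
  · intro e he
    rw [G.tou_eq, Finset.mem_union, not_or] at he
    simp only [hχ1, if_neg he.1, if_neg he.2]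
  · intro e he
    rw [G.tou_eq, hcc, Finset.mem_union, not_or] at he
    simp only [hχ2, if_neg he.1, if_neg he.2]
  · intro N hN
    have hNt : N ⊆ G.tou X := (h1 N hN).1
    obtain ⟨h, heq⟩ := Finset.card_eq_one.1 (hcard1 N hN)
    have hmem : h ∈ N ∩ G.cut X := by rw [heq]; exact Finset.mem_singleton_self h
    have hhN : h ∈ N := (Finset.mem_inter.1 hmem).1
    have hhc : h ∈ G.cut X := (Finset.mem_inter.1 hmem).2
    obtain ⟨hP2, hh2⟩ := hN₂f h hhc ⟨N, hN, hhN⟩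
    have h3 : ∑ e ∈ N ∩ G.inn X, χ₁ e = ∑ e ∈ N ∩ G.inn X, χ e :=
      Finset.sum_congr rfl fun e he => hχ1i e (Finset.mem_inter.1 he).2
    rw [G.m6_split hNt, h3, heq, Finset.sum_singleton, hχ1c h hhc]
    exact hkey N (N₂f h) hN hP2 (by rw [heq, G.m6_cut_eq (hcard2 _ hP2) hh2 hhc])
  · intro M hM
    have hMt : M ⊆ G.tou (G.U \ X) := (h2 M hM).1
    obtain ⟨h, heq⟩ := Finset.card_eq_one.1 (hcard2 M hM)
    have hmem : h ∈ M ∩ G.cut X := by rw [heq]; exact Finset.mem_singleton_self h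
    have hhM : h ∈ M := (Finset.mem_inter.1 hmem).1
    have hhc : h ∈ G.cut X := (Finset.mem_inter.1 hmem).2
    have hused : ∃ N, P₁ N ∧ h ∈ N := (hh h hhc).2 ⟨M, hM, hhM⟩
    obtain ⟨hP1, hh1⟩ := hN₁f h hhc hused
    obtain ⟨hP2, hh2⟩ := hN₂f h hhc hused
    have h3 : ∑ e ∈ M ∩ G.inn (G.U \ X), χ₂ e = ∑ e ∈ M ∩ G.inn (G.U \ X), χ e :=
      Finset.sum_congr rfl fun e he => hχ2i e (Finset.mem_inter.1 he).2
    have hk1 := hkey (N₁f h) M hP1 hM (by rw [heq, G.m6_cut_eq (hcard1 _ hP1) hh1 hhc])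
    have hk2 := hkey (N₁f h) (N₂f h) hP1 hP2 (by
      rw [G.m6_cut_eq (hcard1 _ hP1) hh1 hhc, G.m6_cut_eq (hcard2 _ hP2) hh2 hhc])
    have hk3 : ∑ e ∈ M, χ e = S h := by
      rw [← hk2] at hk1
      exact add_left_cancel hk1
    have hk4 := G.m6_split hMt χ
    rw [hcc, heq, Finset.sum_singleton, hk3] at hk4
    rw [G.m6_split hMt, hcc, h3, heq, Finset.sum_singleton, hχ2c h hhc, hk4]
    abel

end MG
end ML
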