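import Pool.Agent.ML.T3
import Pool.Agent.ML.D5
import Pool.Agent.ML.D4

/-!
# ML-T4: Theorem X for near-bricks with a nontrivial tight cut (step 3.1)
-/

set_option autoImplicit false
set_option linter.unusedSectionVars false
set_option linter.unusedFintypeInType false
set_option linter.unusedVariables false

namespace ML
namespace MG

variable {V E : Type} [Fintype V] [Fintype E] [DecidableEq V] [DecidableEq E] (G : MG V E)

/-- Theorem X for `G`, in case of a nontrivial tight cut, from Theorem X for smaller graphs.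
Proof.  `tight_shore` gives `Y`, `A`.  `Y` is nonempty and `≠ U` (`X` nontrivial); choose `x ∈ U \ Y`,
`x' ∈ Y`.  `cut Y = cut X` is tight.  All hypotheses of `char_comp` and `nb_shr` hold with `latX = lat`
(`latX_of_tight`; every perfect matching meets the cut once), for `Y` and for `U \ Y`.
`char_comp` gives `χ₁`, `χ₂`.  `G₁ := G.shr Y x` is `NB` (`nb_shr`), so `Mc`, and bipartite
(`BShore.bip`), so `χ₁` is `KillsReg` (`bip_kills`), and `pot_char0` gives `z` (weights with all degrees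
zero are `Reg 0`).  `G₂ := G.shr (U \ Y) x'` is `NB` (`nb_shr` for the shore `U \ Y`, whose
complement is `Y`), has `|U \ Y| + 1 < |U|` vertices; by hypothesis `hIH`, `χ₂` is `KillsReg` on
`G₂` or `G₂.PStr χ₂`.
If `KillsReg`: for `w` `Reg r` on `G`: `w(cut Y) = r` (`tight_reg`), so the restrictions are `Reg r` on
`G₁`, `G₂` (`Reg.restr`), and `pair χ w = pair χ₁ (restr (tou Y) w) + pair χ₂ (restr (tou (U \ Y)) w) = 0`.
If `PStr`: `ext_PS` and `ext_PC`. -/
theorem tight_case (hNB : G.NB) {χ : E → QZ} (hk : G.Kills χ) {X : Finset V} (hX : G.Nontriv X)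
    (hT : G.Tight X)
    (hIH : ∀ G' : MG V E, G'.U.card < G.U.card → G'.NB → ∀ χ' : E → QZ, G'.Kills χ' →
      G'.KillsReg χ' ∨ G'.PStr χ') :
    G.KillsReg χ ∨ G.PStr χ := by
  obtain ⟨Y, A, hY, hB⟩ := G.tight_shore hNB hX hT
  obtain ⟨hXU, -, hX3, hXU3⟩ := hX
  have hYs : Y ⊆ G.U := hB.sub
  have hcutY : G.cut Y = G.cut X := by
    rcases hY with h | h
    · rw [h]
    · rw [h]
      exact G.cut_compl hXU
  have hcardsd : (G.U \ Y).card = G.U.card - Y.card := Finset.card_sdiff_of_subset hYs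
  have hYle : Y.card ≤ G.U.card := Finset.card_le_card hYs
  have hcardX : (G.U \ X).card = G.U.card - X.card := Finset.card_sdiff_of_subset hXU
  have hY3 : 3 ≤ Y.card := by
    rcases hY with h | h
    · rw [h]; exact hX3
    · rw [h, hcardX]; omega
  have hUY3 : 3 ≤ (G.U \ Y).card := by
    rw [hcardsd]
    rcases hY with h | h
    · rw [h]; omega
    · rw [h, hcardX]; omega
  obtain ⟨x', hx'⟩ : Y.Nonempty := Finset.card_pos.mp (by omega)
  obtain ⟨x, hx⟩ : (G.U \ Y).Nonempty := Finset.card_pos.mp (by omega)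
  have hxY : x ∉ Y := (Finset.mem_sdiff.mp hx).2
  have hx'c : x' ∉ G.U \ Y := fun h => (Finset.mem_sdiff.mp h).2 hx'
  have hUs : G.U \ Y ⊆ G.U := Finset.sdiff_subset
  have hx'' : x' ∈ G.U \ (G.U \ Y) := by
    rw [Finset.sdiff_sdiff_eq_self hYs]
    exact hx'
  have hTY : G.Tight Y := by
    intro N hN
    rw [hcutY]
    exact hT N hN
  have hTY' : G.Tight (G.U \ Y) := by
    intro N hN
    rw [G.cut_compl hYs]
    exact hTY N hN
  obtain ⟨hMc, hC, hsat⟩ := hNB
  have hcov : ∀ e ∈ G.F, ∃ N, G.IsPM N ∧ (N ∩ G.cut Y).card = 1 ∧ e ∈ N := by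
    intro e he
    obtain ⟨N, hN, heN⟩ := hMc.2 e he
    exact ⟨N, hN, hTY N hN, heN⟩
  have hcov' : ∀ e ∈ G.F, ∃ N, G.IsPM N ∧ (N ∩ G.cut (G.U \ Y)).card = 1 ∧ e ∈ N := by
    intro e he
    obtain ⟨N, hN, heN⟩ := hMc.2 e he
    exact ⟨N, hN, hTY' N hN, heN⟩
  obtain ⟨χ₁, χ₂, hs, h1, h2, hk1, hk2⟩ := G.char_comp hYs hx hx' hcov χ
    (fun N hN _ => hk N hN)
  have hNB1 : (G.shr Y x).NB := G.nb_shr hYs hx hx' hC hcov (by
    intro r w hw _
    rw [G.latX_of_tight hTY]
    exact hsat r w hw)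
  have hNB2 : (G.shr (G.U \ Y) x').NB := G.nb_shr hUs hx'' hx hC hcov' (by
    intro r w hw _
    rw [G.latX_of_tight hTY']
    exact hsat r w hw)
  have hKR1 : (G.shr Y x).KillsReg χ₁ :=
    (G.shr Y x).bip_kills (hB.bip hx) hNB1.1 hk1
  obtain ⟨z, hz⟩ := (G.shr Y x).pot_char0 χ₁ (fun w hw1 hw2 => hKR1 0 w ⟨hw1, hw2⟩)
  have hcard2 : (G.shr (G.U \ Y) x').U.card < G.U.card := by
    rw [shr_U, Finset.card_insert_of_notMem hx'c, hcardsd]
    omega
  rcases hIH _ hcard2 hNB2 χ₂ hk2 with hKR2 | hPS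
  · left
    intro r w hw
    have hU : G.U.Nonempty := ⟨x', hYs hx'⟩
    obtain ⟨m, hm, hl⟩ := hsat r w hw
    have hc : ∑ e ∈ G.cut Y, w e = r := G.tight_reg hTY hw hU hm hl
    have hc' : ∑ e ∈ G.cut (G.U \ Y), w e = r := by
      rw [G.cut_compl hYs]
      exact hc
    have e1 := hKR1 r _ (hw.restr hYs hxY hc)
    have e2 := hKR2 r _ (hw.restr hUs hx'c hc')
    have e3 : pair χ w = pair χ₁ (ML.restr (G.tou Y) w) + pair χ₂ (ML.restr (G.tou (G.U \ Y)) w) := by
      unfold pair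
      rw [← Finset.sum_add_distrib]
      refine Finset.sum_congr rfl (fun e _ => ?_)
      by_cases he : e ∈ G.F
      · rw [hs e he, smul_add]
        congr 1
        · by_cases ht : e ∈ G.tou Y
          · unfold ML.restr
            rw [if_pos ht]
          · rw [h1 e ht, smul_zero, smul_zero]
        · by_cases ht : e ∈ G.tou (G.U \ Y)
          · unfold ML.restr
            rw [if_pos ht]
          · rw [h2 e ht, smul_zero, smul_zero]
      · have h0 : w e = 0 := hw.1 e he
        have hr : ∀ S : Finset E, ML.restr S w e = 0 := by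
          intro S
          unfold ML.restr
          rw [h0]
          exact ite_self 0
        rw [h0, hr, hr, zero_smul, zero_smul, zero_smul, add_zero]
    rw [e3, e1, e2, add_zero]
  · right
    obtain ⟨π, A₂, y₂, hP, hPC⟩ := hPS
    obtain ⟨y, hy⟩ := G.ext_PC hB hx hx' hs h1 h2 hz hPC
    exact ⟨_, _, y, G.ext_PS hB hx' hP, hy⟩

end MG
end ML
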