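import Pool.Agent.ML.GM
import Pool.Agent.ML.H2
import Pool.Agent.ML.T4
import Pool.Agent.ML.F10c
import Pool.Agent.ML.E5

/-!
# ML-X0: Theorem X (main induction)
-/

set_option autoImplicit false
set_option linter.unusedSectionVars false
set_option linter.unusedFintypeInType false
set_option linter.unusedVariables false

namespace ML
namespace MG

variable {V E : Type} [Fintype V] [Fintype E] [DecidableEq V] [DecidableEq E] (G : MG V E)

/-- Case 2 produces a perfect matching with different cut numbers. -/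
private lemma x0_np {G : MG V E} (hNB : G.NB) (hU : G.U.Nonempty) {X Y : Finset V}
    (h : ∃ r w, G.Reg r w ∧ ∑ g ∈ G.cut X, w g = r ∧ ∑ g ∈ G.cut Y, w g ≠ r) :
    ∃ N, G.IsPM N ∧ (N ∩ G.cut X).card ≠ (N ∩ G.cut Y).card := by
  by_contra hcon
  push Not at hcon
  obtain ⟨r, w, hw, h1, h2⟩ := h
  obtain ⟨m, hm, hl⟩ := hNB.2.2 r w hw
  have key : ∀ z ∈ G.lat, ∑ g ∈ G.cut X, z g = ∑ g ∈ G.cut Y, z g := by
    intro z hz
    unfold lat at hz
    induction hz using AddSubgroup.closure_induction with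
    | mem z hz =>
      obtain ⟨N, hN, rfl⟩ := hz
      have := hcon N hN
      have e1 : ∀ Z : Finset V, ∑ g ∈ G.cut Z, ind N g = ((N ∩ G.cut Z).card : ℤ) := by
        intro Z
        simp only [ind]
        rw [← Finset.sum_filter, Finset.sum_const, nsmul_eq_mul, mul_one]
        congr 2
        ext g; simp [and_comm]
      rw [e1, e1, this]
    | zero => simp
    | add a b _ _ ha hb => simp only [Pi.add_apply, Finset.sum_add_distrib, ha, hb]
    | neg a _ ha => simp only [Pi.neg_apply, Finset.sum_neg_distrib, ha]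
  have h3 := key _ hl
  simp only [Pi.smul_apply, nsmul_eq_mul] at h3
  rw [← Finset.mul_sum, ← Finset.mul_sum] at h3
  have hm' : (m : ℤ) ≠ 0 := by exact_mod_cast hm.ne'
  have h4 := mul_left_cancel₀ hm' h3
  exact h2 (h4 ▸ h1)

private lemma x0_main : ∀ (n k : ℕ) (G : MG V E), G.U.card = n → G.F.card = k → G.NB →
    ∀ χ : E → QZ, G.Kills χ → G.KillsReg χ ∨ G.PStr χ := by
  intro n
  induction n using Nat.strong_induction_on with
  | _ n ihn =>
  intro k
  induction k using Nat.strong_induction_on with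
  | _ k ihk =>
  intro G hn hkk hNB χ hk
  have hIH : ∀ G' : MG V E, G'.U.card < G.U.card → G'.NB → ∀ χ' : E → QZ, G'.Kills χ' →
      G'.KillsReg χ' ∨ G'.PStr χ' := by
    intro G' hlt hNB' χ' hk'
    exact ihn G'.U.card (hn ▸ hlt) G'.F.card G' rfl rfl hNB' χ' hk'
  by_cases hT : ∃ X, G.Nontriv X ∧ G.Tight X
  · obtain ⟨X, hX, hXT⟩ := hT
    exact G.tight_case hNB hk hX hXT hIH
  by_cases hBip : G.Bip
  · exact Or.inl (G.bip_kills hBip hNB.1 hk)
  have hB : G.Brick := ⟨hNB.1, hNB.2.1, hBip, fun X hX hXT => hT ⟨X, hX, hXT⟩⟩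
  have hFne : G.F.Nonempty := by
    by_contra hcon
    rw [Finset.not_nonempty_iff_eq_empty] at hcon
    exact hBip ⟨∅, Finset.empty_subset _, by rw [hcon]; exact Finset.empty_subset _⟩
  have hUne : G.U.Nonempty := by
    obtain ⟨g, hg⟩ := hFne
    exact ⟨G.s g, G.hs g hg⟩
  obtain ⟨e, he, hd⟩ := G.dep_exists hFne
  by_cases hf : ∃ f ∈ G.F, f ≠ e ∧ ∀ N, G.IsPM N → (f ∈ N ↔ e ∈ N)
  · obtain ⟨f, hf, hne, hfe⟩ := hf
    exact Or.inl (hB.dep_kills he hd hf hne hfe hk)
  push Not at hf
  have hd' : ∀ g ∈ G.F, g ≠ e → ∃ N, G.IsPM N ∧ g ∈ N ∧ e ∉ N := by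
    intro g hg hge
    rcases hd g hg with h | h
    · obtain ⟨N, hN, hcon⟩ := hf g hg hge
      exact absurd (h N hN) (by tauto)
    · exact h
  obtain ⟨hMc, hConn⟩ := hB.del_mc he hd'
  rcases hB.cases he hMc hConn with hH | ⟨X, Y, hFX, hFY, hw⟩
  · have hlt : (G.del e).F.card < k := by
      rw [← hkk]; exact Finset.card_erase_lt_of_mem he
    have hkH : (G.del e).Kills χ := fun N hN => hk N ((G.del_isPM).1 hN).1
    exact case1 hB he hMc hk (ihk _ hlt (G.del e) hn rfl hH χ hkH)
  · by_cases hkr : G.KillsReg χ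
    · exact Or.inl hkr
    right
    obtain ⟨y, η, hy, hys⟩ := hFX.pot hB hk (hFX.kills hB hk hIH)
    obtain ⟨y', η', hy', hys'⟩ := hFY.pot hB hk (hFY.kills hB hk hIH)
    exact G_main hB hNB he hMc hConn hFX.nt hFY.nt hFX.tight hFY.tight hk hkr hy hys hy' hys'
      (x0_np hNB hUne hw)

/-- Theorem X.  A character which kills the perfect matchings of a near-brick kills all integral weights of
constant degree, or the graph and the character have a Petersen structure. -/
theorem thmX (hNB : G.NB) {χ : E → QZ} (hk : G.Kills χ) : G.KillsReg χ ∨ G.PStr χ :=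
  x0_main _ _ G rfl rfl hNB χ hk

end MG
end ML
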