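import Pool.Agent.ML.M3b
import Pool.Agent.ML.X0
import Pool.Agent.ML.M5
import Pool.Agent.ML.M6
import Pool.Agent.ML.C4
import Pool.Agent.ML.D6

/-!
# ML-M8: proof of Theorem M (section 6)
-/

set_option autoImplicit false
set_option linter.unusedSectionVars false
set_option linter.unusedFintypeInType false
set_option linter.unusedVariables false

namespace ML
namespace MG

variable {V E : Type} [Fintype V] [Fintype E] [DecidableEq V] [DecidableEq E] (G : MG V E)

/-- auxiliary: weights vanish if `r ≤ 0` -/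
private lemma m8_zero {r : ℚ} {w : E → ℚ} (hw : G.ConeHyp r w) (hr : r ≤ 0) : ∀ e, w e = 0 := by
  intro e
  by_cases he : e ∈ G.F
  · have hd := hw.2.2.1 (G.s e) (G.hs e he)
    unfold MG.deg at hd
    have h1 : G.inc e (G.s e) • w e ≤ ∑ e' ∈ G.F, G.inc e' (G.s e) • w e' :=
      Finset.single_le_sum (f := fun e' => G.inc e' (G.s e) • w e')
        (fun e' _ => nsmul_nonneg (hw.1 e') _) he
    have h2 : 1 ≤ G.inc e (G.s e) := by
      unfold MG.inc
      simp
    have h3 : w e ≤ G.inc e (G.s e) • w e := by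
      rw [nsmul_eq_mul]
      have h4 : (1 : ℚ) ≤ (G.inc e (G.s e) : ℚ) := by exact_mod_cast h2
      nlinarith [hw.1 e]
    have := hw.1 e
    linarith
  · exact hw.2.1 e he

private lemma m8_cast (S : Finset E) (w : E → ℤ) :
    restr S (fun e => (w e : ℚ)) = fun e => ((restr S w e : ℤ) : ℚ) := by
  funext e
  unfold restr
  split_ifs <;> simp

private lemma m8_deg (w : E → ℤ) (v : V) :
    ((G.deg w v : ℤ) : ℚ) = G.deg (fun e => (w e : ℚ)) v := by
  unfold MG.deg
  rw [Int.cast_sum]
  apply Finset.sum_congr rfl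
  intro e _
  simp [nsmul_eq_mul]

private lemma m8_pair_zero {χ : E → QZ} {w : E → ℤ} (h : ∀ e, w e = 0) : pair χ w = 0 := by
  unfold pair
  apply Finset.sum_eq_zero
  intro e _
  rw [h e, zero_smul]

private lemma m8_notight {r : ℚ} {w : E → ℤ} (hw : G.ConeHyp r (fun e => (w e : ℚ))) (hr : 0 < r)
    {σ : V → V} (hσ : G.Pairs w σ) {χ : E → QZ}
    (hχ : ∀ N, G.PMD (fun e => (w e : ℚ)) N → ∑ e ∈ N, χ e = 0)
    (hX : ∀ X, G.Nontriv X → ∑ e ∈ G.cut X, (w e : ℚ) ≠ r) : pair χ w = 0 := by
  obtain ⟨hMc, hB⟩ := supp_brick G hw hr hX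
  have hk : (G.supp (fun e => (w e : ℚ))).Kills χ := by
    intro N hN
    obtain ⟨hN1, hN2⟩ := (res_isPM G).1 hN
    apply hχ
    apply pmd_of_pos G hw hr (fun X hX' =>
      lt_of_le_of_ne (hw.2.2.2 X hX'.1 hX'.2.1) (Ne.symm (hX X hX'))) hN1
    intro e he
    exact (Finset.mem_filter.1 (hN2 he)).2
  by_cases hU : G.U.Nonempty
  · obtain ⟨v, hv⟩ := hU
    have hReg : (G.supp (fun e => (w e : ℚ))).Reg (G.deg w v) w := by
      constructor
      · intro e he
        by_cases heF : e ∈ G.F
        · have h0 : ¬ (0 : ℚ) < (w e : ℚ) := by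
            intro h1
            apply he
            exact Finset.mem_inter.2 ⟨heF, Finset.mem_filter.2 ⟨Finset.mem_univ _, h1⟩⟩
          have h1 := hw.1 e
          have h2 : (w e : ℚ) = 0 := le_antisymm (not_lt.1 h0) h1
          exact_mod_cast h2
        · have h2 : (w e : ℚ) = 0 := hw.2.1 e heF
          exact_mod_cast h2
      · intro u hu
        have h1 : (G.supp (fun e => (w e : ℚ))).deg w u = G.deg w u := by
          unfold MG.deg
          apply Finset.sum_subset Finset.inter_subset_left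
          intro e he he'
          have h0 : ¬ (0 : ℚ) < (w e : ℚ) := by
            intro h1
            apply he'
            exact Finset.mem_inter.2 ⟨he, Finset.mem_filter.2 ⟨Finset.mem_univ _, h1⟩⟩
          have h1 := hw.1 e
          have h2 : (w e : ℚ) = 0 := le_antisymm (not_lt.1 h0) h1
          have h3 : w e = 0 := by exact_mod_cast h2
          rw [h3, smul_zero]
        rw [h1]
        have h2 : ((G.deg w u : ℤ) : ℚ) = ((G.deg w v : ℤ) : ℚ) := by
          rw [m8_deg, m8_deg, hw.2.2.1 u hu, hw.2.2.1 v hv]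
        exact_mod_cast h2
    rcases hB with hB | hB
    · exact bip_kills _ hB hMc hk _ _ hReg
    · rcases thmX _ (Brick.nb hB) hk with h | ⟨π, A, y, hP, hC⟩
      · exact h _ _ hReg
      · exact thmM_pet G hw hσ hP hC hk (PS.fib_single hP hB.2.2.2)
  · apply m8_pair_zero
    intro e
    have h2 : (w e : ℚ) = 0 := hw.2.1 e (fun he => hU ⟨_, G.hs e he⟩)
    exact_mod_cast h2

private lemma m8_cut_tou {X : Finset V} {e : E} (he : e ∈ G.cut X) (hX : X ⊆ G.U) :
    e ∈ G.tou X ∧ e ∈ G.tou (G.U \ X) := by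
  obtain ⟨h1, h2⟩ := Finset.mem_filter.1 he
  have hs := G.hs e h1
  have ht := G.ht e h1
  unfold MG.tou
  simp only [Finset.mem_filter, Finset.mem_sdiff, h1, hs, ht, true_and]
  tauto

private lemma m8_main : ∀ (n : ℕ) (G : MG V E), G.U.card < n → ∀ (r : ℚ) (w : E → ℤ),
    G.ConeHyp r (fun e => (w e : ℚ)) → ∀ σ : V → V, G.Pairs w σ → ∀ χ : E → QZ,
    (∀ N, G.PMD (fun e => (w e : ℚ)) N → ∑ e ∈ N, χ e = 0) → pair χ w = 0 := by
  intro n
  induction n with
  | zero => intro G h; exact absurd h (Nat.not_lt_zero _)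
  | succ n ih =>
    intro G hG r w hw σ hσ χ hχ
    by_cases hr : r ≤ 0
    · apply m8_pair_zero
      intro e
      have h2 : (w e : ℚ) = 0 := m8_zero G hw hr e
      exact_mod_cast h2
    push Not at hr
    by_cases hX : ∃ X, G.Nontriv X ∧ ∑ e ∈ G.cut X, (w e : ℚ) = r
    · obtain ⟨X, ⟨hXU, ho, h3, h3'⟩, ht⟩ := hX
      have hE : Even G.U.card := ConeHyp.even G hw hr
      have hcard : (G.U \ X).card = G.U.card - X.card := Finset.card_sdiff_of_subset hXU
      obtain ⟨x, hx⟩ : (G.U \ X).Nonempty := by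
        rw [← Finset.card_pos, hcard]; omega
      obtain ⟨x', hx'⟩ : X.Nonempty := by
        rw [← Finset.card_pos]; omega
      have hxX : x ∉ X := (Finset.mem_sdiff.1 hx).2
      have hUU : G.U \ (G.U \ X) = X := by
        ext v
        simp only [Finset.mem_sdiff]
        constructor
        · rintro ⟨h1, h2⟩
          by_contra h4
          exact h2 ⟨h1, h4⟩
        · intro h1
          exact ⟨hXU h1, fun h2 => h2.2 h1⟩
      have hx'2 : x' ∈ G.U \ (G.U \ X) := by rw [hUU]; exact hx'
      have hx'3 : x' ∉ G.U \ X := fun h => (Finset.mem_sdiff.1 h).2 hx'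
      have ho' : Odd (G.U \ X).card := by
        rw [hcard]
        exact Nat.Even.sub_odd (by omega) hE ho
      have ht' : ∑ e ∈ G.cut (G.U \ X), (w e : ℚ) = r := by rw [cut_compl G hXU]; exact ht
      have h1 := coneHyp_shr G hE hXU hx ho hw ht
      have h2 := coneHyp_shr G hE Finset.sdiff_subset hx'2 ho' hw ht'
      obtain ⟨σ₁, hσ₁⟩ := pairs_shr G hw hσ hXU hx ht
      obtain ⟨σ₂, hσ₂⟩ := pairs_shr G hw hσ Finset.sdiff_subset hx'2 ht'
      obtain ⟨χ₁, χ₂, hχ0, hχ1, hχ2, hP1, hP2⟩ := char_comp_gen G hXU hx hx'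
        (P₁ := fun N => (G.shr X x).PMD (restr (G.tou X) (fun e => (w e : ℚ))) N)
        (P₂ := fun N => (G.shr (G.U \ X) x').PMD (restr (G.tou (G.U \ X)) (fun e => (w e : ℚ))) N)
        (fun N hN => (PMD.pos hN).1) (fun N hN => (PMD.pos hN).1)
        (by
          intro h hh
          obtain ⟨t1, t2⟩ := m8_cut_tou G hh hXU
          constructor
          · rintro ⟨N, hN, hhN⟩
            have h4 := (PMD.pos hN).2 h hhN
            apply exists_pmd _ h2
            unfold restr at h4 ⊢
            rw [if_pos t1] at h4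
            rw [if_pos t2]
            exact h4
          · rintro ⟨N, hN, hhN⟩
            have h4 := (PMD.pos hN).2 h hhN
            apply exists_pmd _ h1
            unfold restr at h4 ⊢
            rw [if_pos t2] at h4
            rw [if_pos t1]
            exact h4) (χ := χ)
        (by
          rintro N₁ N₂ ⟨c₁, hc₁, hp₁⟩ ⟨c₂, hc₂, hp₂⟩ hcut
          obtain ⟨c, hc, hpos⟩ := dec_glue G hXU hx hx' hw.1 hw.2.1 hc₁ hc₂
          exact hχ _ ⟨c, hc, hpos _ _ hp₁ hp₂ hcut⟩)
      rw [m8_cast] at h1 h2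
      rw [m8_cast] at hP1 hP2
      have e1 := ih (G.shr X x) (by
        rw [shr_U, Finset.card_insert_of_notMem hxX]; omega) r _ h1 σ₁ hσ₁ χ₁ hP1
      have e2 := ih (G.shr (G.U \ X) x') (by
        rw [shr_U, Finset.card_insert_of_notMem hx'3, hcard]; omega) r _ h2 σ₂ hσ₂ χ₂ hP2
      have e3 : pair χ w = pair (fun e => χ₁ e + χ₂ e) w := by
        apply pair_congr
        intro e
        by_cases he : e ∈ G.F
        · rw [hχ0 e he]
        · have h4 : (w e : ℚ) = 0 := hw.2.1 e he
          have h5 : w e = 0 := by exact_mod_cast h4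
          rw [h5, zero_smul, zero_smul]
      have e4 : pair χ₁ w = pair χ₁ (restr (G.tou X) w) := by
        apply pair_congr
        intro e
        unfold restr
        by_cases he : e ∈ G.tou X
        · rw [if_pos he]
        · rw [hχ1 e he, smul_zero, smul_zero]
      have e5 : pair χ₂ w = pair χ₂ (restr (G.tou (G.U \ X)) w) := by
        apply pair_congr
        intro e
        unfold restr
        by_cases he : e ∈ G.tou (G.U \ X)
        · rw [if_pos he]
        · rw [hχ2 e he, smul_zero, smul_zero]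
      rw [e3, pair_add_left, e4, e5, e1, e2, add_zero]
    · push Not at hX
      exact m8_notight G hw hr hσ hχ hX

/-- Theorem M (this is `thmM` of ML-M9; proved here under another name).
Induction on `|U|` (generalizing `G`, `w`, `σ`, `χ`, same `V`, `E`).
If `r ≤ 0`: all weights vanish (degrees of a nonnegative weight are `≤ 0`; every edge of `F` has an end in
`U`), `pair χ w = 0`.
`r > 0`, no nontrivial `X` with `w(cut X) = r`: `G' := G.supp w` (`supp_brick`), `w` is `Reg r'` on `G'`
where `r'` is the common integral degree (`U` nonempty as `r > 0` needs... if `U = ∅` then `F = ∅`, `w = 0`);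
`χ` kills the perfect matchings of `G'` because they are in `PMD` (`pmd_of_pos`; the strict inequality from
`ConeHyp` and `≠`).  `G'` bipartite: `bip_kills`.  `G'` a brick: `Brick.nb` (import D6) and `thmX`: `KillsReg`
done, or `PStr`: `PS.fib_single` (bricks have no nontrivial tight cuts) and `thmM_pet`.
Some nontrivial `X` has `w(cut X) = r`: choose `x ∈ U \ X`, `x' ∈ X`.  `coneHyp_shr`, `pairs_shr` for `X`
and for `U \ X` (`cut_compl`).  `P₁` := `PMD` of the restricted weight on `G.shr X x`, `P₂` on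
`G.shr (U \ X) x'`.  `char_comp_gen`: `hh`: for `h ∈ cut X` both sides are equivalent to `w h > 0`
(`PMD.pos`, `exists_pmd`); `hk`: `dec_glue` shows that `N₁ ∪ N₂` is in `PMD w`.  By induction (fewer vertices)
`pair χ₁ (restr (tou X) w) = 0 = pair χ₂ (restr (tou (U \ X)) w)` and the sum is `pair χ w`. -/
theorem thmM' : ∀ (n : ℕ) (G : MG V E), G.U.card = n → ∀ (r : ℚ) (w : E → ℤ),
    G.ConeHyp r (fun e => (w e : ℚ)) → ∀ σ : V → V, G.Pairs w σ → ∀ χ : E → QZ,
    (∀ N, G.PMD (fun e => (w e : ℚ)) N → ∑ e ∈ N, χ e = 0) → pair χ w = 0 :=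
  fun n G hG => m8_main (n + 1) G (by omega)

end MG
end ML
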