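import Pool.Agent.ML.M0
import Pool.Agent.ML.D1
import Pool.Agent.ML.M8

/-!
# ML-M9: Theorem M (statement used by the reduction)
-/

set_option autoImplicit false
set_option linter.unusedSectionVars false
set_option linter.unusedFintypeInType false
set_option linter.unusedVariables false

namespace ML
namespace MG

variable {V E : Type} [Fintype V] [Fintype E] [DecidableEq V] [DecidableEq E] (G : MG V E)

/-- Theorem M (section 6), character form. -/
theorem thmM {r : ℚ} {w : E → ℤ} (hw : G.ConeHyp r (fun e => (w e : ℚ))) {σ : V → V}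
    (hσ : G.Pairs w σ) {χ : E → QZ}
    (hk : ∀ N, G.PMD (fun e => (w e : ℚ)) N → ∑ e ∈ N, χ e = 0) : pair χ w = 0 :=
  thmM' _ G rfl r w hw σ hσ χ hk

/-- Theorem M, lattice form (from the character form by `mem_closure_iff_pair`). -/
theorem thmM_lat {r : ℚ} {w : E → ℤ} (hw : G.ConeHyp r (fun e => (w e : ℚ))) {σ : V → V}
    (hσ : G.Pairs w σ) :
    w ∈ AddSubgroup.closure {z | ∃ N, G.PMD (fun e => (w e : ℚ)) N ∧ z = ind N} := by
  rw [mem_closure_iff_pair]
  intro χ hχ
  refine G.thmM hw hσ (fun N hN => ?_)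
  rw [← pair_ind]
  exact hχ _ ⟨N, hN, rfl⟩

end MG
end ML
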