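import Mathlib

/-!
# ML-R1: faithful circuit covers, definitions and elementary lemmas

The definitions are those of the hand-in `Pool/Agent/Results/MP_3c540c_co/OddPetersen.lean`.
-/

set_option autoImplicit false
set_option linter.unusedSectionVars false
set_option linter.unusedFintypeInType false
set_option linter.unusedVariables false

namespace ML.R

/-- A multigraph with vertex type `V` and edge type `E`: each edge has an unordered pair of ends.
Parallel edges (and also loops) are allowed. -/
structure MGraph (V E : Type) where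
  /-- the ends of an edge -/
  ends : E → Sym2 V

section Defs

variable {V E : Type} [Fintype V] [Fintype E] [DecidableEq V] [DecidableEq E]

/-- Number of times the edge `e` is attached to the vertex `v` (a loop counts twice). -/
def MGraph.mult (G : MGraph V E) (e : E) (v : V) : ℕ :=
  if G.ends e = s(v, v) then 2 else if v ∈ G.ends e then 1 else 0

/-- Degree of `v` in the subgraph formed by the edge set `C`. -/
def MGraph.deg (G : MGraph V E) (C : Finset E) (v : V) : ℕ := ∑ e ∈ C, G.mult e v

/-- `C` is the edge set of a circuit: nonempty, every vertex has degree 0 or 2 in `C`, and any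
two edges of `C` are joined by a chain of edges of `C` in which consecutive edges share a vertex. -/
def MGraph.IsCircuit (G : MGraph V E) (C : Finset E) : Prop :=
  C.Nonempty ∧ (∀ v, G.deg C v = 0 ∨ G.deg C v = 2) ∧
    ∀ e ∈ C, ∀ f ∈ C,
      Relation.ReflTransGen (fun a b => a ∈ C ∧ b ∈ C ∧ ∃ v, v ∈ G.ends a ∧ v ∈ G.ends b) e f

/-- The edge-cut `δ(X)`: the edges with exactly one end in `X`. -/
def MGraph.cut (G : MGraph V E) (X : Finset V) : Finset E :=
  Finset.univ.filter (fun e => (∃ v, v ∈ G.ends e ∧ v ∈ X) ∧ (∃ v, v ∈ G.ends e ∧ v ∉ X))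

/-- Admissible weights. -/
def MGraph.Admissible (G : MGraph V E) (w : E → ℕ) : Prop :=
  ∀ X : Finset V, X.Nonempty → X ≠ Finset.univ →
    ∀ e ∈ G.cut X, w e ≤ ∑ f ∈ (G.cut X).erase e, w f

/-- Eulerian weights. -/
def MGraph.Eulerian (G : MGraph V E) (w : E → ℕ) : Prop :=
  ∀ X : Finset V, X.Nonempty → X ≠ Finset.univ → Even (∑ f ∈ G.cut X, w f)

/-- `(G, w)` has a faithful circuit cover. -/
def MGraph.HasFaithfulCover (G : MGraph V E) (w : E → ℕ) : Prop :=
  ∃ F : Multiset (Finset E), (∀ C ∈ F, G.IsCircuit C) ∧ ∀ e, F.countP (fun C => e ∈ C) = w e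

/-- Property `P_k`. -/
def MGraph.PropP (G : MGraph V E) (k : ℕ) : Prop :=
  ∀ w : E → ℕ, (∀ e, k ∣ w e) → G.Admissible w → G.Eulerian w → G.HasFaithfulCover w

end Defs

section Basic

variable {V E : Type} [Fintype V] [Fintype E] [DecidableEq V] [DecidableEq E] (G : MGraph V E)

/-- First and second ends of the edges. -/
lemma exists_ab : ∃ a b : E → V, ∀ e, G.ends e = s(a e, b e) := by
  have h : ∀ e, ∃ p : V × V, G.ends e = s(p.1, p.2) := fun e => by
    induction hz : G.ends e with
    | _ x y => exact ⟨(x, y), rfl⟩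
  choose p hp using h
  exact ⟨fun e => (p e).1, fun e => (p e).2, hp⟩

lemma mult_eq {e : E} {a b : V} (h : G.ends e = s(a, b)) (v : V) :
    G.mult e v = (if a = v then 1 else 0) + (if b = v then 1 else 0) := by
  unfold MGraph.mult
  rw [h]
  by_cases ha : a = v
  · subst ha
    by_cases hb : b = a
    · subst hb; simp
    · have : ¬ (s(a, b) = s(a, a)) := by
        intro h'
        rw [Sym2.eq_iff] at h'
        rcases h' with h' | h'
        · exact hb h'.2
        · exact hb h'.2
      rw [if_neg this, if_neg hb]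
      simp
  · have h1 : ¬ (s(a, b) = s(v, v)) := by
      intro h'
      rw [Sym2.eq_iff] at h'
      rcases h' with h' | h'
      · exact ha h'.1
      · exact ha h'.1
    rw [if_neg h1, if_neg ha]
    by_cases hb : b = v
    · subst hb; simp
    · rw [if_neg hb, if_neg]
      rw [Sym2.mem_iff]
      rintro (h' | h')
      · exact ha h'.symm
      · exact hb h'.symm

lemma mem_cut_iff {e : E} {a b : V} (h : G.ends e = s(a, b)) (X : Finset V) :
    e ∈ G.cut X ↔ ¬ (a ∈ X ↔ b ∈ X) := by
  unfold MGraph.cut
  simp only [Finset.mem_filter, Finset.mem_univ, true_and, h, Sym2.mem_iff]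
  constructor
  · rintro ⟨⟨v, hv, hv'⟩, ⟨u, hu, hu'⟩⟩ hab
    rcases hv with rfl | rfl <;> rcases hu with rfl | rfl
    · exact hu' hv'
    · exact hu' (hab.1 hv')
    · exact hu' (hab.2 hv')
    · exact hu' hv'
  · intro hab
    by_cases ha : a ∈ X
    · have hb : b ∉ X := fun hb => hab ⟨fun _ => hb, fun _ => ha⟩
      exact ⟨⟨a, Or.inl rfl, ha⟩, ⟨b, Or.inr rfl, hb⟩⟩
    · have hb : b ∈ X := by
        by_contra hb
        exact hab ⟨fun h => absurd h ha, fun h => absurd h hb⟩
      exact ⟨⟨b, Or.inr rfl, hb⟩, ⟨a, Or.inl rfl, ha⟩⟩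

/-- Every edge set with all degrees even meets every cut in an even number of edges. -/
lemma even_inter_cut {C : Finset E} (h : ∀ v, G.deg C v = 0 ∨ G.deg C v = 2) (X : Finset V) :
    Even (C ∩ G.cut X).card := by
  obtain ⟨a, b, hab⟩ := exists_ab G
  have h1 : Even (∑ v ∈ X, G.deg C v) := by
    apply Finset.sum_induction _ (fun n => Even n) (fun _ _ => Even.add) Even.zero
    intro v _
    rcases h v with h | h <;> rw [h]
    · exact Even.zero
    · exact even_two
  have h2 : ∑ v ∈ X, G.deg C v
      = ∑ e ∈ C, ((if a e ∈ X then 1 else 0) + (if b e ∈ X then 1 else 0)) := by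
    unfold MGraph.deg
    rw [Finset.sum_comm]
    refine Finset.sum_congr rfl fun e _ => ?_
    rw [Finset.sum_congr rfl (fun v _ => mult_eq G (hab e) v), Finset.sum_add_distrib,
      Finset.sum_ite_eq, Finset.sum_ite_eq]
  have h3 : (C ∩ G.cut X).card = ∑ e ∈ C, (if ¬ (a e ∈ X ↔ b e ∈ X) then 1 else 0) := by
    rw [← Finset.card_filter]
    congr 1
    ext e
    simp only [Finset.mem_inter, Finset.mem_filter, mem_cut_iff G (hab e)]
  have h4 : ∑ e ∈ C, ((if a e ∈ X then 1 else 0) + (if b e ∈ X then 1 else 0))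
      = (C ∩ G.cut X).card + 2 * ∑ e ∈ C, (if a e ∈ X ∧ b e ∈ X then 1 else 0) := by
    rw [h3, Finset.mul_sum, ← Finset.sum_add_distrib]
    refine Finset.sum_congr rfl fun e _ => ?_
    by_cases ha : a e ∈ X <;> by_cases hb : b e ∈ X <;> simp [ha, hb]
  rw [h2, h4] at h1
  rw [Nat.even_add] at h1
  exact h1.2 (even_two_mul _)

end Basic

end ML.R
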