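import Pool.Agent.ML.R8b

/-!
# ML-R8c: at most three parallel edges
-/

set_option autoImplicit false
set_option linter.unusedSectionVars false
set_option linter.unusedFintypeInType false
set_option linter.unusedVariables false

namespace ML.R

variable {V E : Type} [Fintype V] [Fintype E] [DecidableEq V] [DecidableEq E] (G : MGraph V E)

/-- Reduction to weights with at most three parallel edges in the support.
Proof: strong induction on the number of `e` with `w e ≠ 0`.  If for some `z` the class
`S := univ.filter (fun e => G.ends e = z ∧ w e ≠ 0)` has at least 4 elements, choose `e ∈ S` with `w e`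
minimal, `f ∈ S.erase e` with `w f` minimal (`Finset.exists_min_image`), `g ≠ g'` in
`(S.erase e).erase f`.  `merge w e f` is admissible (`merge_adm`), its values are divisible by `k`, and its
support is the support of `w` without `e`.  Induction and `lift_cover`. -/
theorem reduce_parallel (k : ℕ)
    (H : ∀ w : E → ℕ, (∀ e, k ∣ w e) → G.Admissible w →
      (∀ z : Sym2 V, (Finset.univ.filter (fun e => G.ends e = z ∧ w e ≠ 0)).card ≤ 3) →
      G.HasFaithfulCover w) :
    ∀ w : E → ℕ, (∀ e, k ∣ w e) → G.Admissible w → G.HasFaithfulCover w := by
  have key : ∀ N : ℕ, ∀ w : E → ℕ, (Finset.univ.filter (fun e => w e ≠ 0)).card = N →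
      (∀ e, k ∣ w e) → G.Admissible w → G.HasFaithfulCover w := by
    intro N
    induction N using Nat.strong_induction_on with
    | _ N ih =>
      intro w hN hk hA
      by_cases hz : ∀ z : Sym2 V, (Finset.univ.filter (fun e => G.ends e = z ∧ w e ≠ 0)).card ≤ 3
      · exact H w hk hA hz
      · push Not at hz
        obtain ⟨z, hz⟩ := hz
        obtain ⟨S, hS⟩ : ∃ S, S = Finset.univ.filter (fun e => G.ends e = z ∧ w e ≠ 0) :=
          ⟨_, rfl⟩
        rw [← hS] at hz
        have hmem : ∀ x ∈ S, G.ends x = z ∧ w x ≠ 0 := fun x hx => by
          rw [hS, Finset.mem_filter] at hx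
          exact hx.2
        obtain ⟨e, heS, hemin⟩ := S.exists_min_image w (Finset.card_pos.1 (by omega))
        have hS1 : (S.erase e).card = S.card - 1 := Finset.card_erase_of_mem heS
        obtain ⟨f, hfS, hfmin⟩ :=
          (S.erase e).exists_min_image w (Finset.card_pos.1 (by omega))
        have hS2 : ((S.erase e).erase f).card = S.card - 1 - 1 := by
          rw [Finset.card_erase_of_mem hfS, hS1]
        have hS3 : 1 < ((S.erase e).erase f).card := by omega
        obtain ⟨g, hg, g', hg', hgg'⟩ := Finset.one_lt_card.1 hS3
        rw [Finset.mem_erase] at hg hg'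
        have hfe := (Finset.mem_erase.1 hfS).1
        have hfS' := (Finset.mem_erase.1 hfS).2
        have hge := (Finset.mem_erase.1 hg.2).1
        have hgS := (Finset.mem_erase.1 hg.2).2
        have hge' := (Finset.mem_erase.1 hg'.2).1
        have hgS' := (Finset.mem_erase.1 hg'.2).2
        have pe : G.ends e = G.ends f := by rw [(hmem e heS).1, (hmem f hfS').1]
        have pg : G.ends g = G.ends f := by rw [(hmem g hgS).1, (hmem f hfS').1]
        have pg' : G.ends g' = G.ends f := by rw [(hmem g' hgS').1, (hmem f hfS').1]
        have hA' : G.Admissible (merge w e f) :=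
          merge_adm G hA hfe.symm hge.symm hge'.symm hg.1.symm hg'.1.symm hgg' pe pg pg'
            (hemin g hgS) (hfmin g' hg'.2)
        refine lift_cover G hfe.symm pe (ih _ ?_ (merge w e f) rfl ?_ hA')
        · rw [← hN]
          apply Finset.card_lt_card
          rw [Finset.ssubset_iff_of_subset]
          · refine ⟨e, Finset.mem_filter.2 ⟨Finset.mem_univ _, (hmem e heS).2⟩, ?_⟩
            intro h
            apply (Finset.mem_filter.1 h).2
            simp [merge]
          · intro x hx
            rw [Finset.mem_filter] at hx ⊢
            refine ⟨hx.1, ?_⟩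
            by_cases h1 : x = e
            · subst h1; exact (hmem x heS).2
            · by_cases h2 : x = f
              · subst h2; exact (hmem x hfS').2
              · have h3 := hx.2
                simpa [merge, h1, h2] using h3
        · intro x
          unfold merge
          split_ifs
          · exact dvd_zero _
          · exact dvd_add (hk e) (hk f)
          · exact hk x
  intro w hk hA
  exact key _ w rfl hk hA

end ML.R
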