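import Pool.Agent.ML.R9b

/-!
# ML-R9c: pulling back covers
-/

set_option autoImplicit false
set_option linter.unusedSectionVars false
set_option linter.unusedFintypeInType false
set_option linter.unusedVariables false

namespace ML.R

variable {V E : Type} [Fintype V] [Fintype E] [DecidableEq V] [DecidableEq E] (G : MGraph V E)

private lemma r9c_mult {n : ℕ} (ι : V ↪ Fin n) {j : E → Fin n × Fin n × Fin 3}
    (h1 : ∀ e, (bigG n).ends (j e) = (G.ends e).map ι) (e : E) (v : V) :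
    (bigG n).mult (j e) (ι v) = G.mult e v := by
  obtain ⟨a, b, hab⟩ := exists_ab G
  have h2 : (bigG n).ends (j e) = s(ι (a e), ι (b e)) := by
    rw [h1, hab, Sym2.map_mk]
  rw [mult_eq _ h2, mult_eq _ (hab e)]
  simp only [ι.injective.eq_iff]

/-- Pulling back a circuit.  Proof: let `C' := univ.filter (fun e => w e ≠ 0 ∧ j e ∈ C)`; by `hC'` the map
`j` is a bijection of `C'` onto `C`.  `G.mult e v = (bigG n).mult (j e) (ι v)` (`h1`, `ι` injective), so
`G.deg C' v = (bigG n).deg C (ι v)` (`Finset.sum_nbij`).  For the chains choose `g` with `g x ∈ C'`,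
`j (g x) = x` for `x ∈ C` and use `Relation.ReflTransGen.lift g`; a common vertex of `x = j e` and
`y = j f` is `ι u` with `u ∈ G.ends e` and `u ∈ G.ends f` (`Sym2.mem_map`). -/
theorem pull_circuit {n : ℕ} (ι : V ↪ Fin n) {w : E → ℕ} {j : E → Fin n × Fin n × Fin 3}
    (h1 : ∀ e, (bigG n).ends (j e) = (G.ends e).map ι)
    (h2 : ∀ e f, w e ≠ 0 → w f ≠ 0 → j e = j f → e = f)
    {C : Finset (Fin n × Fin n × Fin 3)} (hC : (bigG n).IsCircuit C)
    (hC' : ∀ x ∈ C, ∃ e, w e ≠ 0 ∧ j e = x) :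
    G.IsCircuit (Finset.univ.filter (fun e => w e ≠ 0 ∧ j e ∈ C)) := by
  classical
  obtain ⟨⟨x₀, hx₀⟩, hdeg, hch⟩ := hC
  obtain ⟨e₀, he₀, hje₀⟩ := hC' x₀ hx₀
  have hmem : ∀ e, e ∈ Finset.univ.filter (fun e => w e ≠ 0 ∧ j e ∈ C) ↔ w e ≠ 0 ∧ j e ∈ C := by
    intro e
    simp
  refine ⟨⟨e₀, (hmem e₀).2 ⟨he₀, by rw [hje₀]; exact hx₀⟩⟩, ?_, ?_⟩
  · intro v
    have h3 : G.deg (Finset.univ.filter (fun e => w e ≠ 0 ∧ j e ∈ C)) v = (bigG n).deg C (ι v) := by
      unfold MGraph.deg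
      apply Finset.sum_nbij j
      · intro e he
        exact ((hmem e).1 he).2
      · intro e he f hf hef
        exact h2 e f ((hmem e).1 (Finset.mem_coe.1 he)).1 ((hmem f).1 (Finset.mem_coe.1 hf)).1 hef
      · intro x hx
        obtain ⟨e, he, hje⟩ := hC' x (Finset.mem_coe.1 hx)
        exact ⟨e, Finset.mem_coe.2 ((hmem e).2 ⟨he, by rw [hje]; exact Finset.mem_coe.1 hx⟩), hje⟩
      · intro e _
        exact (r9c_mult G ι h1 e v).symm
    rw [h3]
    exact hdeg _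
  · have hg : ∃ g : Fin n × Fin n × Fin 3 → E, ∀ x ∈ C, w (g x) ≠ 0 ∧ j (g x) = x := by
      refine ⟨fun x => if hx : x ∈ C then (hC' x hx).choose else e₀, fun x hx => ?_⟩
      simp only [dif_pos hx]
      exact (hC' x hx).choose_spec
    obtain ⟨g, hg⟩ := hg
    intro e he f hf
    obtain ⟨he1, he2⟩ := (hmem e).1 he
    obtain ⟨hf1, hf2⟩ := (hmem f).1 hf
    have h3 := Relation.ReflTransGen.lift (r := fun a b => a ∈ C ∧ b ∈ C ∧
      ∃ v, v ∈ (bigG n).ends a ∧ v ∈ (bigG n).ends b) (p := fun a b =>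
      a ∈ Finset.univ.filter (fun e => w e ≠ 0 ∧ j e ∈ C) ∧
      b ∈ Finset.univ.filter (fun e => w e ≠ 0 ∧ j e ∈ C) ∧ ∃ v, v ∈ G.ends a ∧ v ∈ G.ends b) g
      (by
        rintro x y ⟨hx, hy, v, hvx, hvy⟩
        obtain ⟨hx1, hx2⟩ := hg x hx
        obtain ⟨hy1, hy2⟩ := hg y hy
        refine ⟨(hmem _).2 ⟨hx1, by rw [hx2]; exact hx⟩, (hmem _).2 ⟨hy1, by rw [hy2]; exact hy⟩, ?_⟩
        rw [← hx2, h1, Sym2.mem_map] at hvx
        rw [← hy2, h1, Sym2.mem_map] at hvy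
        obtain ⟨u, hu, hu'⟩ := hvx
        obtain ⟨u', hu1, hu1'⟩ := hvy
        have : u' = u := ι.injective (hu1'.trans hu'.symm)
        subst this
        exact ⟨u', hu, hu1⟩) _ _ (hch (j e) he2 (j f) hf2)
    have e1 : g (j e) = e := h2 _ _ (hg _ he2).1 he1 (hg _ he2).2
    have e2 : g (j f) = f := h2 _ _ (hg _ hf2).1 hf1 (hg _ hf2).2
    simp only [Function.onFun, e1, e2] at h3
    exact h3

/-- Pulling back a cover.  Proof: for a cover `F` of `wT w j` take
`F.map (fun C => univ.filter (fun e => w e ≠ 0 ∧ j e ∈ C))`: for `C ∈ F`, `x ∈ C` we have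
`wT w j x = F.countP (x ∈ ·) ≠ 0`, so `exists_of_wT` and `pull_circuit` apply.  The number of members
containing `e` is `0` if `w e = 0`, and `F.countP (j e ∈ ·) = wT w j (j e) = w e` otherwise
(`Multiset.countP_map`). -/
theorem pull_cover {n : ℕ} (ι : V ↪ Fin n) {w : E → ℕ} {j : E → Fin n × Fin n × Fin 3}
    (h1 : ∀ e, (bigG n).ends (j e) = (G.ends e).map ι)
    (h2 : ∀ e f, w e ≠ 0 → w f ≠ 0 → j e = j f → e = f)
    (h : (bigG n).HasFaithfulCover (wT w j)) : G.HasFaithfulCover w := by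
  classical
  obtain ⟨F, hF1, hF2⟩ := h
  refine ⟨F.map (fun C => Finset.univ.filter (fun e => w e ≠ 0 ∧ j e ∈ C)), ?_, ?_⟩
  · intro C' hC'
    obtain ⟨C, hC, rfl⟩ := Multiset.mem_map.1 hC'
    apply pull_circuit G ι h1 h2 (hF1 C hC)
    intro x hx
    apply exists_of_wT
    rw [← hF2 x]
    have : 0 < F.countP (fun C => x ∈ C) := Multiset.countP_pos.2 ⟨C, hC, hx⟩
    omega
  · intro e
    rw [Multiset.countP_map, ← Multiset.countP_eq_card_filter]
    by_cases he : w e = 0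
    · rw [he, Multiset.countP_eq_zero]
      intro C _ h3
      exact (Finset.mem_filter.1 h3).2.1 he
    · rw [← wT_eq h2 he, ← hF2 (j e)]
      apply Multiset.countP_congr rfl
      intro C _
      simp [he]

end ML.R
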