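import Pool.Agent.ML.R7c
import Pool.Agent.ML.R8c
import Pool.Agent.ML.R9c

/-!
# ML-R10: final theorem
-/

set_option autoImplicit false
set_option linter.unusedSectionVars false
set_option linter.unusedFintypeInType false
set_option linter.unusedVariables false

namespace ML.R

/-- Every multigraph on at most `n` vertices has property `P_k` for all large even `k`.
Proof: `fixed_graph (bigG n)` gives `K`; take `K + 1`.  Let `k ≥ K + 1` be even, `G`, `w` as in `PropP`.
`reduce_parallel` reduces to weights with small classes; choose `ι : V ↪ Fin n`, `exists_emb`; the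
weight `wT w j` is divisible by `k` (so even, so Eulerian: `Finset.even_sum`), admissible (`adm_wT`), so it
has a cover by `fixed_graph`, and `pull_cover`. -/
theorem all_graphs (n : ℕ) : ∃ K : ℕ, ∀ k, K ≤ k → Even k →
    ∀ (V E : Type) [Fintype V] [Fintype E] [DecidableEq V] [DecidableEq E],
      Fintype.card V ≤ n → ∀ G : MGraph V E, G.PropP k := by
  obtain ⟨K, hK⟩ := fixed_graph (bigG n)
  refine ⟨K, fun k hk hk2 V E _ _ _ _ hV G => ?_⟩
  have hT := hK k hk hk2
  intro w hw hadm _
  refine reduce_parallel G k ?_ w hw hadm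
  intro w hw hadm hz
  obtain ⟨ι⟩ : Nonempty (V ↪ Fin n) :=
    Function.Embedding.nonempty_of_card_le (by simpa using hV)
  obtain ⟨j, h1, h2⟩ := exists_emb G ι w hz
  have hdvd : ∀ x, k ∣ wT w j x := fun x => Finset.dvd_sum fun e _ => hw e
  refine pull_cover G ι h1 h2 (hT (wT w j) hdvd (adm_wT G ι hadm h1 h2) ?_)
  intro X _ _
  refine even_iff_two_dvd.2 (Finset.dvd_sum fun x _ => ?_)
  exact (even_iff_two_dvd.1 hk2).trans (hdvd x)

end ML.R
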