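import Pool.Agent.ML.R2a

/-!
# ML-R2b: an edge set with all degrees 0 or 2 is a disjoint union of circuits
-/

set_option autoImplicit false
set_option linter.unusedSectionVars false
set_option linter.unusedFintypeInType false
set_option linter.unusedVariables false

namespace ML.R

variable {V E : Type} [Fintype V] [Fintype E] [DecidableEq V] [DecidableEq E] (G : MGraph V E)

/-- Decomposition into circuits.  Proof: strong induction on `D.card`: for `D = ∅` the empty multiset;
otherwise `exists_circuit` gives `C`, nonempty, and the induction hypothesis for `D \ C` gives `F`; take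
`C ::ₘ F` (`Multiset.countP_cons`). -/
theorem exists_circuits (D : Finset E) (h : ∀ v, G.deg D v = 0 ∨ G.deg D v = 2) :
    ∃ F : Multiset (Finset E), (∀ C ∈ F, G.IsCircuit C) ∧
      ∀ e, F.countP (fun C => e ∈ C) = if e ∈ D then 1 else 0 := by
  induction hn : D.card using Nat.strong_induction_on generalizing D with
  | _ n ih =>
    rcases Finset.eq_empty_or_nonempty D with hD | hD
    · refine ⟨0, fun C hC => absurd hC (Multiset.notMem_zero C), fun e => ?_⟩
      rw [hD, if_neg (Finset.notMem_empty e)]
      exact Multiset.countP_zero _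
    · obtain ⟨C, hCD, hC, hdiff⟩ := exists_circuit G h hD
      have hlt : (D \ C).card < n := by
        rw [← hn]
        apply Finset.card_lt_card
        rw [Finset.ssubset_iff_of_subset Finset.sdiff_subset]
        obtain ⟨e, he⟩ := hC.1
        exact ⟨e, hCD he, fun h' => (Finset.mem_sdiff.1 h').2 he⟩
      obtain ⟨F, hF, hcount⟩ := ih (D \ C).card hlt (D \ C) hdiff rfl
      refine ⟨C ::ₘ F, fun C' hC' => ?_, fun e => ?_⟩
      · rcases Multiset.mem_cons.1 hC' with h1 | h1
        · rw [h1]; exact hC
        · exact hF C' h1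
      · rw [Multiset.countP_cons, hcount e]
        by_cases he : e ∈ C
        · rw [if_pos he, if_pos (hCD he), if_neg (fun h' => (Finset.mem_sdiff.1 h').2 he)]
        · rw [if_neg he]
          by_cases heD : e ∈ D
          · rw [if_pos heD, if_pos (Finset.mem_sdiff.2 ⟨heD, he⟩)]
          · rw [if_neg heD, if_neg (fun h' => heD (Finset.mem_sdiff.1 h').1)]

/-- Nonnegative combinations of such edge sets have faithful covers.  Proof: choose the multisets
`F i` of `exists_circuits` for `D i` (`i ∈ P`) and take `∑ i ∈ P, m i • F i`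
(`Multiset.countP_add`, `Multiset.countP_nsmul`, `Multiset.mem_sum`, `Multiset.mem_of_mem_nsmul`;
induction on `P`). -/
theorem hasCover_of_comb {ι : Type} (P : Finset ι) (D : ι → Finset E) (m : ι → ℕ)
    (h : ∀ i ∈ P, ∀ v, G.deg (D i) v = 0 ∨ G.deg (D i) v = 2) (w : E → ℕ)
    (hw : ∀ e, w e = ∑ i ∈ P, m i * (if e ∈ D i then 1 else 0)) : G.HasFaithfulCover w := by
  classical
  have key : ∀ Q : Finset ι, (∀ i ∈ Q, ∀ v, G.deg (D i) v = 0 ∨ G.deg (D i) v = 2) →
      ∃ F : Multiset (Finset E), (∀ C ∈ F, G.IsCircuit C) ∧
        ∀ e, F.countP (fun C => e ∈ C) = ∑ i ∈ Q, m i * (if e ∈ D i then 1 else 0) := by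
    intro Q
    induction Q using Finset.induction_on with
    | empty =>
      intro _
      refine ⟨0, fun C hC => absurd hC (Multiset.notMem_zero C), fun e => ?_⟩
      rw [Finset.sum_empty]
      exact Multiset.countP_zero _
    | insert i Q hi ih =>
      intro hQ
      obtain ⟨F, hF, hc⟩ := ih (fun j hj => hQ j (Finset.mem_insert_of_mem hj))
      obtain ⟨F', hF', hc'⟩ := exists_circuits G (D i) (hQ i (Finset.mem_insert_self i Q))
      refine ⟨m i • F' + F, fun C hC => ?_, fun e => ?_⟩
      · rcases Multiset.mem_add.1 hC with h1 | h1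
        · exact hF' C (Multiset.mem_of_mem_nsmul h1)
        · exact hF C h1
      · rw [Multiset.countP_add, Multiset.countP_nsmul, hc e, hc' e, Finset.sum_insert hi]
  obtain ⟨F, hF, hc⟩ := key P h
  exact ⟨F, hF, fun e => by rw [hc e, hw e]⟩

end ML.R
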