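import Pool.Agent.ML.R1
import Pool.Agent.ML.M0

/-!
# ML-R3: the auxiliary graph `G*`: definition, degrees, signs
-/

set_option autoImplicit false
set_option linter.unusedSectionVars false
set_option linter.unusedFintypeInType false
set_option linter.unusedVariables false

namespace ML.R

open ML

/-- Vertices of the auxiliary graph: `inl (v, i)` (two copies of every vertex), `inr (e, i)` (two
copies of every edge). -/
abbrev SV (V E : Type) := (V × Bool) ⊕ (E × Bool)

/-- Edges of the auxiliary graph: `inl v` joins the two copies of `v`, `inr (inl e)` joins the two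
copies of `e`, `inr (inr (e, i, j))` joins the copy `i` of `e` to the copy `j` of the end `i` of `e`. -/
abbrev SE (V E : Type) := V ⊕ (E ⊕ (E × Bool × Bool))

/-- The end number `i` of `e`. -/
def endp {V E : Type} (a b : E → V) (e : E) (i : Bool) : V := if i = true then b e else a e

/-- The auxiliary graph. -/
def gst {V E : Type} [Fintype V] [Fintype E] [DecidableEq V] [DecidableEq E] (a b : E → V) :
    MG (SV V E) (SE V E) where
  s := fun x => match x with
    | Sum.inl v => Sum.inl (v, false)
    | Sum.inr (Sum.inl e) => Sum.inr (e, false)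
    | Sum.inr (Sum.inr (e, i, j)) => Sum.inr (e, i)
  t := fun x => match x with
    | Sum.inl v => Sum.inl (v, true)
    | Sum.inr (Sum.inl e) => Sum.inr (e, true)
    | Sum.inr (Sum.inr (e, i, j)) => Sum.inl (endp a b e i, j)
  U := Finset.univ
  F := Finset.univ
  hs := fun _ _ => Finset.mem_univ _
  ht := fun _ _ => Finset.mem_univ _

variable {V E : Type} [Fintype V] [Fintype E] [DecidableEq V] [DecidableEq E] (a b : E → V)
  (μ : E → ℕ)

/-- Weighted degree of `v` (a loop counts twice). -/
def dgr (v : V) : ℤ := ∑ e, ∑ i : Bool, if endp a b e i = v then (μ e : ℤ) else 0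

/-- The common degree of the auxiliary weight. -/
def rr (μ : E → ℕ) : ℤ := 4 * ∑ e, (μ e : ℤ) + 2

/-- The auxiliary weight. -/
def wst : SE V E → ℤ := fun x => match x with
  | Sum.inl v => rr μ - dgr a b μ v
  | Sum.inr (Sum.inl e) => rr μ - 2 * μ e
  | Sum.inr (Sum.inr (e, _, _)) => μ e

/-- `0 ≤ dgr ≤ 2 Σ μ` (each summand of the inner sums is at most `μ e`). -/
lemma dgr_le (v : V) : 0 ≤ dgr a b μ v ∧ dgr a b μ v ≤ 2 * ∑ e, (μ e : ℤ) := by
  unfold dgr
  constructor
  · refine Finset.sum_nonneg fun e _ => Finset.sum_nonneg fun i _ => ?_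
    split_ifs
    · positivity
    · exact le_refl _
  · rw [Finset.mul_sum]
    refine Finset.sum_le_sum fun e _ => ?_
    rw [Fintype.sum_bool]
    have h0 : (0 : ℤ) ≤ μ e := by positivity
    split_ifs <;> linarith

lemma le_sum (e : E) : (μ e : ℤ) ≤ ∑ e, (μ e : ℤ) := by
  exact Finset.single_le_sum (f := fun e => (μ e : ℤ)) (fun i _ => by positivity)
    (Finset.mem_univ e)

/-- The auxiliary weight is nonnegative; `wst (inl v)` and `wst (inr (inl e))` are positive and at
least `2 Σ μ + 2`. -/
lemma wst_bounds : (∀ x, 0 ≤ wst a b μ x) ∧ (∀ v, 2 * ∑ e, (μ e : ℤ) + 2 ≤ wst a b μ (Sum.inl v)) ∧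
    ∀ e, 2 * ∑ e, (μ e : ℤ) + 2 ≤ wst a b μ (Sum.inr (Sum.inl e)) := by
  have h0 : (0 : ℤ) ≤ ∑ e, (μ e : ℤ) := Finset.sum_nonneg fun i _ => by positivity
  have h1 : ∀ v, 2 * ∑ e, (μ e : ℤ) + 2 ≤ wst a b μ (Sum.inl v) := by
    intro v
    have h := (dgr_le a b μ v).2
    show 2 * ∑ e, (μ e : ℤ) + 2 ≤ rr μ - dgr a b μ v
    unfold rr
    linarith
  have h2 : ∀ e, 2 * ∑ e, (μ e : ℤ) + 2 ≤ wst a b μ (Sum.inr (Sum.inl e)) := by
    intro e
    have h := le_sum μ e
    show 2 * ∑ e, (μ e : ℤ) + 2 ≤ rr μ - 2 * μ e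
    unfold rr
    linarith
  refine ⟨?_, h1, h2⟩
  intro x
  rcases x with v | e | ⟨e, i, j⟩
  · have := h1 v
    linarith
  · have := h2 e
    linarith
  · show (0 : ℤ) ≤ (μ e : ℤ)
    positivity

/-- A sum over the edges of the auxiliary graph (`Fintype.sum_sum_type`, `Fintype.sum_prod_type`,
`Fintype.sum_bool`; keep the sums over `Bool` as sums). -/
lemma sum_SE {M : Type} [AddCommMonoid M] (f : SE V E → M) : ∑ x, f x
    = ∑ v, f (Sum.inl v) + (∑ e, f (Sum.inr (Sum.inl e)) +
      ∑ e, ∑ i : Bool, ∑ j : Bool, f (Sum.inr (Sum.inr (e, i, j)))) := by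
  rw [Fintype.sum_sum_type, Fintype.sum_sum_type, Fintype.sum_prod_type]
  congr 2
  refine Finset.sum_congr rfl fun e _ => ?_
  rw [Fintype.sum_prod_type]

/-- Degrees in the auxiliary graph at a copy of a vertex, for an arbitrary weight.
Proof: `sum_SE`; `inc (inl u) (inl (v, j))` is `1` iff `u = v`; `inc (inr (inl e)) (inl (v, j)) = 0`;
`inc (inr (inr (e, i, j'))) (inl (v, j))` is `1` iff `endp a b e i = v` and `j' = j`. -/
lemma deg_gst_inl {M : Type} [AddCommMonoid M] (w : SE V E → M) (v : V) (j : Bool) :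
    (gst a b).deg w (Sum.inl (v, j)) = w (Sum.inl v) +
      ∑ e, ∑ i : Bool, if endp a b e i = v then w (Sum.inr (Sum.inr (e, i, j))) else 0 := by
  have h1 : ∀ u : V, (gst a b).inc (Sum.inl u) (Sum.inl (v, j)) = if u = v then 1 else 0 := by
    intro u
    show (if (Sum.inl (u, false) : SV V E) = Sum.inl (v, j) then 1 else 0) +
      (if (Sum.inl (u, true) : SV V E) = Sum.inl (v, j) then 1 else 0) = _
    by_cases h : u = v
    · cases j <;> simp [h]
    · simp [h]
  have h2 : ∀ e : E, (gst a b).inc (Sum.inr (Sum.inl e)) (Sum.inl (v, j)) = 0 := by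
    intro e
    show (if (Sum.inr (e, false) : SV V E) = Sum.inl (v, j) then 1 else 0) +
      (if (Sum.inr (e, true) : SV V E) = Sum.inl (v, j) then 1 else 0) = _
    simp
  have h3 : ∀ (e : E) (i j' : Bool), (gst a b).inc (Sum.inr (Sum.inr (e, i, j')))
      (Sum.inl (v, j)) = if j' = j then (if endp a b e i = v then 1 else 0) else 0 := by
    intro e i j'
    show (if (Sum.inr (e, i) : SV V E) = Sum.inl (v, j) then 1 else 0) +
      (if (Sum.inl (endp a b e i, j') : SV V E) = Sum.inl (v, j) then 1 else 0) = _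
    by_cases h : j' = j
    · by_cases h' : endp a b e i = v
      · simp [h, h']
      · simp [h, h']
    · simp [h]
  unfold MG.deg
  show ∑ x, (gst a b).inc x (Sum.inl (v, j)) • w x = _
  rw [sum_SE]
  congr 1
  · rw [Finset.sum_eq_single v]
    · rw [h1, if_pos rfl, one_smul]
    · intro u _ hu
      rw [h1, if_neg hu, zero_smul]
    · intro h
      exact absurd (Finset.mem_univ v) h
  · rw [Finset.sum_eq_zero (s := Finset.univ)
      (f := fun e : E => (gst a b).inc (Sum.inr (Sum.inl e)) (Sum.inl (v, j)) •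
        w (Sum.inr (Sum.inl e))) (fun e _ => by rw [h2, zero_smul]), zero_add]
    refine Finset.sum_congr rfl fun e _ => Finset.sum_congr rfl fun i _ => ?_
    rw [Finset.sum_eq_single j]
    · rw [h3, if_pos rfl]
      split_ifs
      · rw [one_smul]
      · rw [zero_smul]
    · intro j' _ hj
      rw [h3, if_neg hj, zero_smul]
    · intro h
      exact absurd (Finset.mem_univ j) h

/-- Degrees in the auxiliary graph at a copy of an edge. -/
lemma deg_gst_inr {M : Type} [AddCommMonoid M] (w : SE V E → M) (e : E) (i : Bool) :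
    (gst a b).deg w (Sum.inr (e, i)) = w (Sum.inr (Sum.inl e)) +
      ∑ j : Bool, w (Sum.inr (Sum.inr (e, i, j))) := by
  have h1 : ∀ u : V, (gst a b).inc (Sum.inl u) (Sum.inr (e, i)) = 0 := by
    intro u
    show (if (Sum.inl (u, false) : SV V E) = Sum.inr (e, i) then 1 else 0) +
      (if (Sum.inl (u, true) : SV V E) = Sum.inr (e, i) then 1 else 0) = _
    simp
  have h2 : ∀ f : E, (gst a b).inc (Sum.inr (Sum.inl f)) (Sum.inr (e, i)) =
      if f = e then 1 else 0 := by
    intro f
    show (if (Sum.inr (f, false) : SV V E) = Sum.inr (e, i) then 1 else 0) +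
      (if (Sum.inr (f, true) : SV V E) = Sum.inr (e, i) then 1 else 0) = _
    by_cases h : f = e
    · cases i <;> simp [h]
    · simp [h]
  have h3 : ∀ (f : E) (i' j : Bool), (gst a b).inc (Sum.inr (Sum.inr (f, i', j)))
      (Sum.inr (e, i)) = if f = e then (if i' = i then 1 else 0) else 0 := by
    intro f i' j
    show (if (Sum.inr (f, i') : SV V E) = Sum.inr (e, i) then 1 else 0) +
      (if (Sum.inl (endp a b f i', j) : SV V E) = Sum.inr (e, i) then 1 else 0) = _
    by_cases h : f = e
    · by_cases h' : i' = i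
      · simp [h, h']
      · simp [h, h']
    · simp [h]
  unfold MG.deg
  show ∑ x, (gst a b).inc x (Sum.inr (e, i)) • w x = _
  rw [sum_SE]
  rw [Finset.sum_eq_zero (s := Finset.univ)
      (f := fun u : V => (gst a b).inc (Sum.inl u) (Sum.inr (e, i)) •
        w (Sum.inl u)) (fun u _ => by rw [h1, zero_smul]), zero_add]
  congr 1
  · rw [Finset.sum_eq_single e]
    · rw [h2, if_pos rfl, one_smul]
    · intro f _ hf
      rw [h2, if_neg hf, zero_smul]
    · intro h
      exact absurd (Finset.mem_univ e) h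
  · rw [Finset.sum_eq_single e]
    · rw [Finset.sum_eq_single i]
      · refine Finset.sum_congr rfl fun j _ => ?_
        rw [h3, if_pos rfl, if_pos rfl, one_smul]
      · intro i' _ hi
        refine Finset.sum_eq_zero fun j _ => ?_
        rw [h3, if_pos rfl, if_neg hi, zero_smul]
      · intro h
        exact absurd (Finset.mem_univ i) h
    · intro f _ hf
      refine Finset.sum_eq_zero fun i' _ => Finset.sum_eq_zero fun j _ => ?_
      rw [h3, if_neg hf, zero_smul]
    · intro h
      exact absurd (Finset.mem_univ e) h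

/-- All degrees of the auxiliary weight are `rr μ` (`deg_gst_inl`, `deg_gst_inr`). -/
lemma deg_wst (x : SV V E) : (gst a b).deg (wst a b μ) x = rr μ := by
  rcases x with ⟨v, j⟩ | ⟨e, i⟩
  · rw [deg_gst_inl]
    show (rr μ - dgr a b μ v) + dgr a b μ v = rr μ
    ring
  · rw [deg_gst_inr, Fintype.sum_bool]
    show (rr μ - 2 * μ e) + ((μ e : ℤ) + (μ e : ℤ)) = rr μ
    ring

end ML.R
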