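import Pool.Agent.ML.R3

/-!
# ML-R3b1: cuts of the auxiliary graph: parity, weight, at least three separated pairs
-/

set_option autoImplicit false
set_option linter.unusedSectionVars false
set_option linter.unusedFintypeInType false
set_option linter.unusedVariables false

namespace ML.R

open ML

variable {V E : Type} [Fintype V] [Fintype E] [DecidableEq V] [DecidableEq E] (a b : E → V)
  (μ : E → ℕ)

/-- The vertices whose two copies are separated by `X`. -/
def sepV (X : Finset (SV V E)) : Finset V :=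
  Finset.univ.filter (fun v => ¬ (Sum.inl (v, false) ∈ X ↔ Sum.inl (v, true) ∈ X))

/-- The edges whose two copies are separated by `X`. -/
def sepE (X : Finset (SV V E)) : Finset E :=
  Finset.univ.filter (fun e => ¬ (Sum.inr (e, false) ∈ X ↔ Sum.inr (e, true) ∈ X))

/-- Parity.  Proof: `X.card = ∑ x, if x ∈ X then 1 else 0`, split with `Fintype.sum_sum_type`,
`Fintype.sum_prod_type`, `Fintype.sum_bool`; the two summands of `v` are equal modulo 2 iff `v` is not
separated: `X.card = ∑ v, ([v ∈ sepV] + 2 * [both copies in X]) + ∑ e, …`. -/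
lemma odd_sep {X : Finset (SV V E)} (hX : Odd X.card) :
    Odd ((sepV X).card + (sepE X).card) := by
  have h1 : X.card = ∑ x : SV V E, (if x ∈ X then 1 else 0) := by
    rw [← Finset.sum_filter, Finset.filter_mem_eq_inter, Finset.univ_inter, Finset.card_eq_sum_ones]
  rw [Fintype.sum_sum_type, Fintype.sum_prod_type, Fintype.sum_prod_type] at h1
  simp only [Fintype.sum_bool] at h1
  have h2 : ∀ (P Q : Prop) [Decidable P] [Decidable Q], (if Q then 1 else 0) + (if P then 1 else 0)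
      = (if ¬ (P ↔ Q) then 1 else 0) + 2 * (if P ∧ Q then 1 else 0) := by
    intro P Q _ _
    by_cases hP : P <;> by_cases hQ : Q <;> simp [hP, hQ]
  have h3 : ∑ v : V, ((if (Sum.inl (v, true) : SV V E) ∈ X then 1 else 0) +
      (if (Sum.inl (v, false) : SV V E) ∈ X then 1 else 0)) = (sepV X).card +
      2 * ∑ v : V, (if (Sum.inl (v, false) : SV V E) ∈ X ∧ (Sum.inl (v, true) : SV V E) ∈ X
        then 1 else 0) := by
    rw [Finset.mul_sum]
    unfold sepV
    rw [Finset.card_filter, ← Finset.sum_add_distrib]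
    exact Finset.sum_congr rfl fun v _ => h2 _ _
  have h4 : ∑ e : E, ((if (Sum.inr (e, true) : SV V E) ∈ X then 1 else 0) +
      (if (Sum.inr (e, false) : SV V E) ∈ X then 1 else 0)) = (sepE X).card +
      2 * ∑ e : E, (if (Sum.inr (e, false) : SV V E) ∈ X ∧ (Sum.inr (e, true) : SV V E) ∈ X
        then 1 else 0) := by
    rw [Finset.mul_sum]
    unfold sepE
    rw [Finset.card_filter, ← Finset.sum_add_distrib]
    exact Finset.sum_congr rfl fun v _ => h2 _ _
  rw [h3, h4] at h1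
  obtain ⟨k, hk⟩ := hX
  rw [Nat.odd_iff]
  omega

/-- The weight of a cut of the auxiliary graph.  Proof: `∑ x ∈ cut X, w x = ∑ x, if x ∈ cut X …`,
then `sum_SE`; `x ∈ cut X` iff not (`s x ∈ X ↔ t x ∈ X`). -/
lemma cut_wst (X : Finset (SV V E)) : ∑ x ∈ (gst a b).cut X, wst a b μ x =
    ∑ v ∈ sepV X, (rr μ - dgr a b μ v) + (∑ e ∈ sepE X, (rr μ - 2 * (μ e : ℤ)) +
      ∑ e, ∑ i : Bool, ∑ j : Bool,
        if ¬ (Sum.inr (e, i) ∈ X ↔ Sum.inl (endp a b e i, j) ∈ X) then (μ e : ℤ) else 0) := by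
  have h1 : ∑ x ∈ (gst a b).cut X, wst a b μ x = ∑ x : SE V E,
      if ¬ ((gst a b).s x ∈ X ↔ (gst a b).t x ∈ X) then wst a b μ x else 0 := by
    rw [← Finset.sum_filter]
    rfl
  rw [h1, sum_SE]
  congr 1
  · unfold sepV
    rw [Finset.sum_filter]
    rfl
  · congr 1
    unfold sepE
    rw [Finset.sum_filter]
    rfl

/-- At least three separated pairs.  Proof: `cut_wst`, all terms are nonnegative, each of the separated
pairs contributes at least `2 Σ μ + 2` (`wst_bounds`), and `3 (2 Σ μ + 2) ≥ rr μ`. -/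
lemma cut_ge_three {X : Finset (SV V E)} (h : 3 ≤ (sepV X).card + (sepE X).card) :
    rr μ ≤ ∑ x ∈ (gst a b).cut X, wst a b μ x := by
  rw [cut_wst]
  obtain ⟨-, hV, hE⟩ := wst_bounds a b μ
  have hS : 0 ≤ ∑ e, (μ e : ℤ) := Finset.sum_nonneg fun e _ => Int.natCast_nonneg _
  have h1 : (sepV X).card • (2 * ∑ e, (μ e : ℤ) + 2) ≤ ∑ v ∈ sepV X, (rr μ - dgr a b μ v) :=
    Finset.card_nsmul_le_sum _ _ _ fun v _ => hV v
  have h2 : (sepE X).card • (2 * ∑ e, (μ e : ℤ) + 2) ≤ ∑ e ∈ sepE X, (rr μ - 2 * (μ e : ℤ)) :=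
    Finset.card_nsmul_le_sum _ _ _ fun e _ => hE e
  have h3 : 0 ≤ ∑ e, ∑ i : Bool, ∑ j : Bool,
        if ¬ (Sum.inr (e, i) ∈ X ↔ Sum.inl (endp a b e i, j) ∈ X) then (μ e : ℤ) else 0 := by
    refine Finset.sum_nonneg fun e _ => Finset.sum_nonneg fun i _ => Finset.sum_nonneg fun j _ => ?_
    by_cases hc : ¬ (Sum.inr (e, i) ∈ X ↔ Sum.inl (endp a b e i, j) ∈ X)
    · rw [if_pos hc]
      exact Int.natCast_nonneg _
    · rw [if_neg hc]
  have h4 : ((3 : ℕ) : ℤ) * (2 * ∑ e, (μ e : ℤ) + 2) ≤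
      (((sepV X).card + (sepE X).card : ℕ) : ℤ) * (2 * ∑ e, (μ e : ℤ) + 2) :=
    mul_le_mul_of_nonneg_right (by exact_mod_cast h) (by linarith)
  rw [nsmul_eq_mul] at h1 h2
  push_cast at h4
  have h5 : rr μ = 4 * ∑ e, (μ e : ℤ) + 2 := rfl
  rw [add_mul] at h4
  linarith [h1, h2, h3, h4, hS, h5]

end ML.R
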