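import Pool.Agent.ML.R3b1

/-!
# ML-R3b2: cuts of the auxiliary graph: exactly one separated pair
-/

set_option autoImplicit false
set_option linter.unusedSectionVars false
set_option linter.unusedFintypeInType false
set_option linter.unusedVariables false

namespace ML.R

open ML

variable {V E : Type} [Fintype V] [Fintype E] [DecidableEq V] [DecidableEq E] (a b : E → V)
  (μ : E → ℕ)

/-- Exactly one separated pair, the copies of the vertex `v`.  Proof: `cut_wst`; the first sum is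
`rr μ - dgr a b μ v`, the second is empty; in the third sum, for every `e`, `i` with `endp a b e i = v`
exactly one `j` gives a crossing edge (as exactly one of `inl (v, false)`, `inl (v, true)` is in `X`),
so the third sum is at least `dgr a b μ v`. -/
lemma cut_ge_V {X : Finset (SV V E)} {v : V} (h : sepV X = {v}) (h' : sepE X = ∅) :
    rr μ ≤ ∑ x ∈ (gst a b).cut X, wst a b μ x := by
  have hv : v ∈ sepV X := by rw [h]; exact Finset.mem_singleton_self v
  unfold sepV at hv
  rw [Finset.mem_filter] at hv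
  have hv2 := hv.2
  rw [cut_wst, h, h', Finset.sum_singleton, Finset.sum_empty, zero_add]
  have key : dgr a b μ v ≤ ∑ e, ∑ i : Bool, ∑ j : Bool,
      if ¬ (Sum.inr (e, i) ∈ X ↔ Sum.inl (endp a b e i, j) ∈ X) then (μ e : ℤ) else 0 := by
    unfold dgr
    apply Finset.sum_le_sum
    intro e _
    apply Finset.sum_le_sum
    intro i _
    have hμ0 : (0 : ℤ) ≤ (μ e : ℤ) := Int.natCast_nonneg _
    rw [Fintype.sum_bool]
    by_cases he : endp a b e i = v
    · rw [if_pos he, he]
      by_cases h1 : (Sum.inr (e, i) : SV V E) ∈ X <;>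
        by_cases h2 : (Sum.inl (v, true) : SV V E) ∈ X <;>
        by_cases h3 : (Sum.inl (v, false) : SV V E) ∈ X <;>
        simp [h1, h2, h3] <;> simp [h2, h3] at hv2
    · rw [if_neg he]
      split_ifs <;> omega
  linarith

/-- Exactly one separated pair, the copies of the edge `e`.  `hμ` is admissibility.
Proof: let `Y := univ.filter (fun v => inl (v, false) ∈ X)`; as `sepV X = ∅`, `inl (v, j) ∈ X ↔ v ∈ Y` for
both `j`.  `cut_wst`: the first sum is `0`, the second is `rr μ - 2 μ e`; the third sum is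
`T := ∑ f, ∑ i, if ¬ (inr (f, i) ∈ X ↔ endp a b f i ∈ Y) then 2 * μ f else 0`; we need `T ≥ 2 μ e`.
(1) `a e ∈ Y ↔ b e ∈ Y`: exactly one of `inr (e, false)`, `inr (e, true)` is in `X`, so exactly one `i`
contributes `2 μ e` to the term of `e`.
(2) otherwise, if one of the two terms of `e` is nonzero, then it is `2 μ e`, done.
(3) otherwise: for `f ≠ e` with `¬ (a f ∈ Y ↔ b f ∈ Y)`, the two copies of `f` are both in `X` or both
outside `X`, so exactly one `i` contributes `2 μ f`; hence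
`T ≥ 2 * ∑ f ∈ univ.filter (fun f => f ≠ e ∧ ¬ (a f ∈ Y ↔ b f ∈ Y)), μ f ≥ 2 μ e` by `hμ Y e`. -/
lemma cut_ge_E {X : Finset (SV V E)} {e : E} (h : sepV X = ∅) (h' : sepE X = {e})
    (hμ : ∀ Y : Finset V, ∀ e : E, ¬ (a e ∈ Y ↔ b e ∈ Y) →
      μ e ≤ ∑ f ∈ Finset.univ.filter (fun f => f ≠ e ∧ ¬ (a f ∈ Y ↔ b f ∈ Y)), μ f) :
    rr μ ≤ ∑ x ∈ (gst a b).cut X, wst a b μ x := by
  have he : e ∈ sepE X := by rw [h']; exact Finset.mem_singleton_self e
  unfold sepE at he
  rw [Finset.mem_filter] at he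
  have he2 := he.2
  have hV : ∀ v, (Sum.inl (v, false) ∈ X ↔ Sum.inl (v, true) ∈ X) := by
    intro v
    by_contra hc
    have h1 : v ∈ sepV X := Finset.mem_filter.mpr ⟨Finset.mem_univ v, hc⟩
    rw [h] at h1
    exact Finset.notMem_empty v h1
  have hE : ∀ f, f ≠ e → (Sum.inr (f, false) ∈ X ↔ Sum.inr (f, true) ∈ X) := by
    intro f hf
    by_contra hc
    have h1 : f ∈ sepE X := Finset.mem_filter.mpr ⟨Finset.mem_univ f, hc⟩
    rw [h', Finset.mem_singleton] at h1
    exact hf h1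
  obtain ⟨Y, hY⟩ : ∃ Y : Finset V, ∀ v, v ∈ Y ↔ Sum.inl (v, false) ∈ X :=
    ⟨Finset.univ.filter (fun v => Sum.inl (v, false) ∈ X), fun v => by simp⟩
  have hYt : ∀ v, v ∈ Y ↔ Sum.inl (v, true) ∈ X := fun v => (hY v).trans (hV v)
  rw [cut_wst, h, h', Finset.sum_singleton, Finset.sum_empty, zero_add]
  obtain ⟨T, hT⟩ : ∃ T : E → ℤ, ∀ f, T f = ∑ i : Bool, ∑ j : Bool,
      if ¬ (Sum.inr (f, i) ∈ X ↔ Sum.inl (endp a b f i, j) ∈ X) then (μ f : ℤ) else 0 :=
    ⟨_, fun f => rfl⟩
  have hTe : ∀ f, T f = (if ¬ (Sum.inr (f, true) ∈ X ↔ b f ∈ Y) then 2 * (μ f : ℤ) else 0) +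
      (if ¬ (Sum.inr (f, false) ∈ X ↔ a f ∈ Y) then 2 * (μ f : ℤ) else 0) := by
    intro f
    rw [hT, Fintype.sum_bool, Fintype.sum_bool, Fintype.sum_bool]
    have e1 : endp a b f true = b f := rfl
    have e2 : endp a b f false = a f := rfl
    rw [e1, e2]
    simp only [← hY, ← hYt]
    split_ifs <;> ring
  have hT0 : ∀ f, 0 ≤ T f := by
    intro f
    rw [hTe]
    have hμ0 : (0 : ℤ) ≤ (μ f : ℤ) := Int.natCast_nonneg _
    split_ifs <;> omega
  have hsum : ∑ f, ∑ i : Bool, ∑ j : Bool,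
      (if ¬ (Sum.inr (f, i) ∈ X ↔ Sum.inl (endp a b f i, j) ∈ X) then (μ f : ℤ) else 0)
      = ∑ f, T f := Finset.sum_congr rfl fun f _ => (hT f).symm
  rw [hsum]
  have key : 2 * (μ e : ℤ) ≤ ∑ f, T f := by
    by_cases hab : a e ∈ Y ↔ b e ∈ Y
    · have h1 : T e = 2 * (μ e : ℤ) := by
        rw [hTe]
        by_cases k1 : a e ∈ Y
        · have k2 := hab.mp k1
          by_cases k3 : (Sum.inr (e, false) : SV V E) ∈ X <;>
            by_cases k4 : (Sum.inr (e, true) : SV V E) ∈ X <;>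
            simp [k1, k2, k3, k4] <;> simp [k3, k4] at he2
        · have k2 : b e ∉ Y := fun k => k1 (hab.mpr k)
          by_cases k3 : (Sum.inr (e, false) : SV V E) ∈ X <;>
            by_cases k4 : (Sum.inr (e, true) : SV V E) ∈ X <;>
            simp [k1, k2, k3, k4] <;> simp [k3, k4] at he2
      rw [← h1]
      exact Finset.single_le_sum (f := T) (fun f _ => hT0 f) (Finset.mem_univ e)
    · have h1 := hμ Y e hab
      have h2 : ∑ f ∈ Finset.univ.filter (fun f => f ≠ e ∧ ¬ (a f ∈ Y ↔ b f ∈ Y)),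
          2 * (μ f : ℤ) ≤ ∑ f, T f := by
        refine le_trans (Finset.sum_le_sum ?_) (Finset.sum_le_sum_of_subset_of_nonneg
          (Finset.filter_subset _ _) (fun f _ _ => hT0 f))
        intro f hf
        obtain ⟨_, hfe, hfab⟩ := Finset.mem_filter.mp hf
        have h3 := hE f hfe
        rw [hTe]
        by_cases k1 : a f ∈ Y <;> by_cases k2 : b f ∈ Y <;>
          by_cases k3 : (Sum.inr (f, false) : SV V E) ∈ X <;>
          by_cases k4 : (Sum.inr (f, true) : SV V E) ∈ X <;>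
          simp [k1, k2, k3, k4] at hfab h3 ⊢
      rw [← Finset.mul_sum] at h2
      have h4 : (μ e : ℤ) ≤
          ∑ f ∈ Finset.univ.filter (fun f => f ≠ e ∧ ¬ (a f ∈ Y ↔ b f ∈ Y)), (μ f : ℤ) := by
        exact_mod_cast h1
      linarith
  linarith

end ML.R
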