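import Pool.Agent.ML.R3b2

/-!
# ML-R3b3: the auxiliary weight satisfies the hypotheses of the cone theorem
-/

set_option autoImplicit false
set_option linter.unusedSectionVars false
set_option linter.unusedFintypeInType false
set_option linter.unusedVariables false

namespace ML.R

open ML

variable {V E : Type} [Fintype V] [Fintype E] [DecidableEq V] [DecidableEq E] (a b : E → V)
  (μ : E → ℕ)

/-- Admissibility in terms of the end maps.  Proof: `mem_cut_iff`; `Y` is nonempty and not `univ` as it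
contains exactly one of `a e`, `b e`. -/
lemma adm_ab {G : MGraph V E} (hab : ∀ e, G.ends e = s(a e, b e)) (h : G.Admissible μ) :
    ∀ Y : Finset V, ∀ e : E, ¬ (a e ∈ Y ↔ b e ∈ Y) →
      μ e ≤ ∑ f ∈ Finset.univ.filter (fun f => f ≠ e ∧ ¬ (a f ∈ Y ↔ b f ∈ Y)), μ f := by
  intro Y e he
  have hne : Y.Nonempty := by
    by_contra hY
    rw [Finset.not_nonempty_iff_eq_empty] at hY
    apply he
    rw [hY]
    exact ⟨fun h1 => absurd h1 (Finset.notMem_empty _), fun h1 => absurd h1 (Finset.notMem_empty _)⟩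
  have hnu : Y ≠ Finset.univ := by
    intro hY
    apply he
    rw [hY]
    exact ⟨fun _ => Finset.mem_univ _, fun _ => Finset.mem_univ _⟩
  have h1 := h Y hne hnu e ((mem_cut_iff G (hab e) Y).2 he)
  have h2 : (G.cut Y).erase e
      = Finset.univ.filter (fun f => f ≠ e ∧ ¬ (a f ∈ Y ↔ b f ∈ Y)) := by
    ext f
    rw [Finset.mem_erase, mem_cut_iff G (hab f) Y, Finset.mem_filter]
    exact ⟨fun h3 => ⟨Finset.mem_univ _, h3⟩, fun h3 => h3.2⟩
  rw [h2] at h1
  exact h1

/-- The hypotheses of the cone theorem.  Proof: `wst_bounds`, `F = univ`, `deg_wst` (cast to `ℚ`: unfold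
`MG.deg`, `push_cast`), `odd_sep` and the three lemmas (`(sepV X).card + (sepE X).card` is odd, so it is
`1` or at least `3`), cast to `ℚ` (`Int.cast_sum`, `Int.cast_le`). -/
theorem coneHyp_wst {G : MGraph V E} (hab : ∀ e, G.ends e = s(a e, b e)) (h : G.Admissible μ) :
    (gst a b).ConeHyp (rr μ : ℚ) (fun x => ((wst a b μ x : ℤ) : ℚ)) := by
  refine ⟨fun x => ?_, fun x hx => absurd (Finset.mem_univ x) hx, fun x _ => ?_, fun X _ hX => ?_⟩
  · have h0 := (wst_bounds a b μ).1 x
    show (0 : ℚ) ≤ ((wst a b μ x : ℤ) : ℚ)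
    exact Int.cast_nonneg h0
  · have h1 := deg_wst a b μ x
    rw [← h1]
    unfold MG.deg
    push_cast
    refine Finset.sum_congr rfl fun e _ => ?_
    rw [nsmul_eq_mul, nsmul_eq_mul]
    push_cast
    rfl
  · have hadm := adm_ab a b μ hab h
    have hodd := odd_sep hX
    have hmain : rr μ ≤ ∑ x ∈ (gst a b).cut X, wst a b μ x := by
      by_cases h3 : 3 ≤ (sepV X).card + (sepE X).card
      · exact cut_ge_three a b μ h3
      · have h1 : (sepV X).card + (sepE X).card = 1 := by
          obtain ⟨k, hk⟩ := hodd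
          omega
        have h2 : ((sepV X).card = 1 ∧ (sepE X).card = 0) ∨
            ((sepV X).card = 0 ∧ (sepE X).card = 1) := by omega
        rcases h2 with ⟨hV, hE⟩ | ⟨hV, hE⟩
        · obtain ⟨v, hv⟩ := Finset.card_eq_one.1 hV
          exact cut_ge_V a b μ hv (Finset.card_eq_zero.1 hE)
        · obtain ⟨e, he⟩ := Finset.card_eq_one.1 hE
          exact cut_ge_E a b μ (Finset.card_eq_zero.1 hV) he hadm
    have h4 : ((rr μ : ℤ) : ℚ) ≤ ((∑ x ∈ (gst a b).cut X, wst a b μ x : ℤ) : ℚ) :=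
      Int.cast_le.2 hmain
    rw [Int.cast_sum] at h4
    exact h4

end ML.R
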