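import Pool.Agent.ML.R3

/-!
# ML-R3c: the special pairs of the auxiliary graph
-/

set_option autoImplicit false
set_option linter.unusedSectionVars false
set_option linter.unusedFintypeInType false
set_option linter.unusedVariables false

namespace ML.R

open ML

variable {V E : Type} [Fintype V] [Fintype E] [DecidableEq V] [DecidableEq E] (a b : E → V)
  (μ : E → ℕ)

/-- The two copies of a vertex are exchanged, the copies of edges are fixed. -/
def sw {V E : Type} (x : SV V E) : SV V E := match x with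
  | Sum.inl (v, i) => Sum.inl (v, !i)
  | Sum.inr y => Sum.inr y

/-- Weight between two copies of vertices (`sum_SE`; the other edges join a copy of an edge to
something). -/
lemma wt_ll (u v : V) (i j : Bool) : (gst a b).wt (wst a b μ) (Sum.inl (u, i)) (Sum.inl (v, j)) =
    if u = v ∧ i ≠ j then wst a b μ (Sum.inl v) else 0 := by
  unfold MG.wt
  show ∑ x, _ = _
  rw [sum_SE]
  have h2 : ∑ e : E, (if ((gst a b).s (Sum.inr (Sum.inl e)) = Sum.inl (u, i) ∧
      (gst a b).t (Sum.inr (Sum.inl e)) = Sum.inl (v, j)) ∨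
      ((gst a b).s (Sum.inr (Sum.inl e)) = Sum.inl (v, j) ∧
      (gst a b).t (Sum.inr (Sum.inl e)) = Sum.inl (u, i)) then
      wst a b μ (Sum.inr (Sum.inl e)) else 0) = 0 := by
    refine Finset.sum_eq_zero fun e _ => if_neg ?_
    simp [gst]
  have h3 : ∑ e : E, ∑ i' : Bool, ∑ j' : Bool,
      (if ((gst a b).s (Sum.inr (Sum.inr (e, i', j'))) = Sum.inl (u, i) ∧
      (gst a b).t (Sum.inr (Sum.inr (e, i', j'))) = Sum.inl (v, j)) ∨
      ((gst a b).s (Sum.inr (Sum.inr (e, i', j'))) = Sum.inl (v, j) ∧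
      (gst a b).t (Sum.inr (Sum.inr (e, i', j'))) = Sum.inl (u, i)) then
      wst a b μ (Sum.inr (Sum.inr (e, i', j'))) else 0) = 0 := by
    refine Finset.sum_eq_zero fun e _ => Finset.sum_eq_zero fun i' _ =>
      Finset.sum_eq_zero fun j' _ => if_neg ?_
    simp [gst]
  rw [h2, h3, add_zero, add_zero]
  have h1 : ∀ x : V, (if ((gst a b).s (Sum.inl x) = Sum.inl (u, i) ∧
      (gst a b).t (Sum.inl x) = Sum.inl (v, j)) ∨
      ((gst a b).s (Sum.inl x) = Sum.inl (v, j) ∧
      (gst a b).t (Sum.inl x) = Sum.inl (u, i)) then wst a b μ (Sum.inl x) else 0) =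
      if x = v then (if u = v ∧ i ≠ j then wst a b μ (Sum.inl v) else 0) else 0 := by
    intro x
    by_cases hx : x = v
    · subst hx
      rw [if_pos rfl]
      by_cases hu : u = x
      · subst hu
        cases i <;> cases j <;> simp [gst]
      · rw [if_neg (show ¬ (u = x ∧ i ≠ j) from fun h => hu h.1)]
        refine if_neg ?_
        rintro (⟨h4, h5⟩ | ⟨h4, h5⟩)
        · have h6 : x = u := by simpa [gst] using congrArg (Sum.elim Prod.fst (fun _ => u)) h4
          exact hu h6.symm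
        · have h6 : x = u := by simpa [gst] using congrArg (Sum.elim Prod.fst (fun _ => u)) h5
          exact hu h6.symm
    · rw [if_neg hx]
      refine if_neg ?_
      rintro (⟨h4, h5⟩ | ⟨h4, h5⟩)
      · exact hx (by simpa [gst] using congrArg (Sum.elim Prod.fst (fun _ => u)) h5)
      · exact hx (by simpa [gst] using congrArg (Sum.elim Prod.fst (fun _ => u)) h4)
  rw [Finset.sum_congr rfl (fun x _ => h1 x), Finset.sum_ite_eq' Finset.univ v,
    if_pos (Finset.mem_univ v)]

/-- Weight between a copy of an edge and a copy of a vertex. -/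
lemma wt_rl (e : E) (v : V) (i j : Bool) : (gst a b).wt (wst a b μ) (Sum.inr (e, i)) (Sum.inl (v, j)) =
    if endp a b e i = v then (μ e : ℤ) else 0 := by
  unfold MG.wt
  show ∑ x, _ = _
  rw [sum_SE]
  have h1 : ∑ x : V, (if ((gst a b).s (Sum.inl x) = Sum.inr (e, i) ∧
      (gst a b).t (Sum.inl x) = Sum.inl (v, j)) ∨
      ((gst a b).s (Sum.inl x) = Sum.inl (v, j) ∧
      (gst a b).t (Sum.inl x) = Sum.inr (e, i)) then
      wst a b μ (Sum.inl x) else 0) = 0 := by
    refine Finset.sum_eq_zero fun x _ => if_neg ?_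
    simp [gst]
  have h2 : ∑ f : E, (if ((gst a b).s (Sum.inr (Sum.inl f)) = Sum.inr (e, i) ∧
      (gst a b).t (Sum.inr (Sum.inl f)) = Sum.inl (v, j)) ∨
      ((gst a b).s (Sum.inr (Sum.inl f)) = Sum.inl (v, j) ∧
      (gst a b).t (Sum.inr (Sum.inl f)) = Sum.inr (e, i)) then
      wst a b μ (Sum.inr (Sum.inl f)) else 0) = 0 := by
    refine Finset.sum_eq_zero fun f _ => if_neg ?_
    simp [gst]
  rw [h1, h2, zero_add, zero_add]
  have h3 : ∀ (f : E) (i' j' : Bool),
      (if ((gst a b).s (Sum.inr (Sum.inr (f, i', j'))) = Sum.inr (e, i) ∧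
      (gst a b).t (Sum.inr (Sum.inr (f, i', j'))) = Sum.inl (v, j)) ∨
      ((gst a b).s (Sum.inr (Sum.inr (f, i', j'))) = Sum.inl (v, j) ∧
      (gst a b).t (Sum.inr (Sum.inr (f, i', j'))) = Sum.inr (e, i)) then
      wst a b μ (Sum.inr (Sum.inr (f, i', j'))) else 0) =
      if f = e then (if i' = i then (if j' = j then
        (if endp a b e i = v then (μ e : ℤ) else 0) else 0) else 0) else 0 := by
    intro f i' j'
    have h4 : (((gst a b).s (Sum.inr (Sum.inr (f, i', j'))) = Sum.inr (e, i) ∧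
      (gst a b).t (Sum.inr (Sum.inr (f, i', j'))) = Sum.inl (v, j)) ∨
      ((gst a b).s (Sum.inr (Sum.inr (f, i', j'))) = Sum.inl (v, j) ∧
      (gst a b).t (Sum.inr (Sum.inr (f, i', j'))) = Sum.inr (e, i))) ↔
      ((f = e ∧ i' = i) ∧ (endp a b f i' = v ∧ j' = j)) := by
      simp [gst]
    by_cases hf : f = e
    · subst hf
      by_cases hi : i' = i
      · subst hi
        by_cases hj : j' = j
        · subst hj
          rw [if_pos rfl, if_pos rfl, if_pos rfl]
          by_cases hv : endp a b f i' = v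
          · rw [if_pos hv, if_pos (h4.mpr ⟨⟨rfl, rfl⟩, hv, rfl⟩)]
            rfl
          · rw [if_neg hv, if_neg (fun h => hv (h4.mp h).2.1)]
        · rw [if_pos rfl, if_pos rfl, if_neg hj, if_neg (fun h => hj (h4.mp h).2.2)]
      · rw [if_pos rfl, if_neg hi, if_neg (fun h => hi (h4.mp h).1.2)]
    · rw [if_neg hf, if_neg (fun h => hf (h4.mp h).1.1)]
  rw [Finset.sum_congr rfl (fun f _ => Finset.sum_congr rfl (fun i' _ =>
    Finset.sum_congr rfl (fun j' _ => h3 f i' j')))]
  rw [Finset.sum_eq_single e, Finset.sum_eq_single i, Finset.sum_eq_single j]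
  · simp
  · intro k _ hk; simp [hk]
  · intro h; exact absurd (Finset.mem_univ _) h
  · intro k _ hk; simp [hk]
  · intro h; exact absurd (Finset.mem_univ _) h
  · intro k _ hk; simp [hk]
  · intro h; exact absurd (Finset.mem_univ _) h

/-- Weight between two copies of edges. -/
lemma wt_rr (e f : E) (i j : Bool) : (gst a b).wt (wst a b μ) (Sum.inr (e, i)) (Sum.inr (f, j)) =
    if e = f ∧ i ≠ j then wst a b μ (Sum.inr (Sum.inl e)) else 0 := by
  unfold MG.wt
  show ∑ x, _ = _
  rw [sum_SE]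
  have h1 : ∑ x : V, (if ((gst a b).s (Sum.inl x) = Sum.inr (e, i) ∧
      (gst a b).t (Sum.inl x) = Sum.inr (f, j)) ∨
      ((gst a b).s (Sum.inl x) = Sum.inr (f, j) ∧
      (gst a b).t (Sum.inl x) = Sum.inr (e, i)) then
      wst a b μ (Sum.inl x) else 0) = 0 := by
    refine Finset.sum_eq_zero fun x _ => if_neg ?_
    simp [gst]
  have h3 : ∑ g : E, ∑ i' : Bool, ∑ j' : Bool,
      (if ((gst a b).s (Sum.inr (Sum.inr (g, i', j'))) = Sum.inr (e, i) ∧
      (gst a b).t (Sum.inr (Sum.inr (g, i', j'))) = Sum.inr (f, j)) ∨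
      ((gst a b).s (Sum.inr (Sum.inr (g, i', j'))) = Sum.inr (f, j) ∧
      (gst a b).t (Sum.inr (Sum.inr (g, i', j'))) = Sum.inr (e, i)) then
      wst a b μ (Sum.inr (Sum.inr (g, i', j'))) else 0) = 0 := by
    refine Finset.sum_eq_zero fun e _ => Finset.sum_eq_zero fun i' _ =>
      Finset.sum_eq_zero fun j' _ => if_neg ?_
    simp [gst]
  rw [h1, h3, zero_add, add_zero]
  have h2 : ∀ g : E, (if ((gst a b).s (Sum.inr (Sum.inl g)) = Sum.inr (e, i) ∧
      (gst a b).t (Sum.inr (Sum.inl g)) = Sum.inr (f, j)) ∨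
      ((gst a b).s (Sum.inr (Sum.inl g)) = Sum.inr (f, j) ∧
      (gst a b).t (Sum.inr (Sum.inl g)) = Sum.inr (e, i)) then
      wst a b μ (Sum.inr (Sum.inl g)) else 0) =
      if g = e then (if e = f ∧ i ≠ j then wst a b μ (Sum.inr (Sum.inl e)) else 0) else 0 := by
    intro g
    by_cases hg : g = e
    · subst hg
      rw [if_pos rfl]
      by_cases hu : g = f
      · subst hu
        cases i <;> cases j <;> simp [gst]
      · rw [if_neg (show ¬ (g = f ∧ i ≠ j) from fun h => hu h.1)]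
        refine if_neg ?_
        rintro (⟨h4, h5⟩ | ⟨h4, h5⟩)
        · exact hu (by simpa [gst] using congrArg (Sum.elim (fun _ => f) Prod.fst) h5)
        · exact hu (by simpa [gst] using congrArg (Sum.elim (fun _ => f) Prod.fst) h4)
    · rw [if_neg hg]
      refine if_neg ?_
      rintro (⟨h4, h5⟩ | ⟨h4, h5⟩)
      · exact hg (by simpa [gst] using congrArg (Sum.elim (fun _ => e) Prod.fst) h4)
      · exact hg (by simpa [gst] using congrArg (Sum.elim (fun _ => e) Prod.fst) h5)
  rw [Finset.sum_congr rfl (fun x _ => h2 x), Finset.sum_ite_eq' Finset.univ e,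
    if_pos (Finset.mem_univ e)]

/-- The pair structure.  Proof: special vertices (`sw v ≠ v`) are exactly the `inl (v, i)`.
`pos`: `wt_ll`, `wst_bounds`; `zero`: `wt_ll`; `bal`: `wt_rl` (it does not depend on `j`);
`even`: `wt_rr`, `rr μ - 2 μ e = 4 Σ μ + 2 - 2 μ e` is even. -/
theorem pairs_gst : (gst a b).Pairs (wst a b μ) sw := by
  have hS : 0 ≤ ∑ e, (μ e : ℤ) := Finset.sum_nonneg fun e _ => Int.natCast_nonneg _
  refine ⟨fun _ _ => Finset.mem_univ _, ?_, ?_, ?_, ?_, ?_⟩
  · rintro (⟨v, i⟩ | y) _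
    · cases i <;> rfl
    · rfl
  · rintro (⟨v, i⟩ | y) _ h
    · show 0 < (gst a b).wt (wst a b μ) (Sum.inl (v, i)) (Sum.inl (v, !i))
      rw [wt_ll, if_pos ⟨rfl, by cases i <;> decide⟩]
      have := (wst_bounds a b μ).2.1 v
      omega
    · exact absurd rfl h
  · rintro (⟨v, i⟩ | y) _ (⟨u, j⟩ | y') _ h1 h2 h3 h4
    · rw [wt_ll, if_neg]
      rintro ⟨rfl, hij⟩
      apply h4
      show (Sum.inl (v, j) : SV V E) = Sum.inl (v, !i)
      have : j = !i := by cases i <;> cases j <;> simp_all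
      rw [this]
    · exact absurd rfl h2
    · exact absurd rfl h1
    · exact absurd rfl h1
  · rintro (⟨v, i⟩ | y) _ (⟨u, j⟩ | ⟨e, k⟩) _ h1 h2
    · exfalso
      have h3 : (Sum.inl (u, !j) : SV V E) = Sum.inl (u, j) := h2
      have h4 : (!j) = j := (Prod.mk.inj (Sum.inl.inj h3)).2
      cases j <;> exact absurd h4 (by decide)
    · show (gst a b).wt (wst a b μ) (Sum.inr (e, k)) (Sum.inl (v, i)) =
        (gst a b).wt (wst a b μ) (Sum.inr (e, k)) (Sum.inl (v, !i))
      rw [wt_rl, wt_rl]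
    · exact absurd rfl h1
    · exact absurd rfl h1
  · rintro (⟨v, i⟩ | ⟨e, i⟩) _ (⟨u, j⟩ | ⟨f, j⟩) _ h1 h2 h3
    · exfalso
      have h3 : (Sum.inl (v, !i) : SV V E) = Sum.inl (v, i) := h1
      have h4 : (!i) = i := (Prod.mk.inj (Sum.inl.inj h3)).2
      cases i <;> exact absurd h4 (by decide)
    · exfalso
      have h3 : (Sum.inl (v, !i) : SV V E) = Sum.inl (v, i) := h1
      have h4 : (!i) = i := (Prod.mk.inj (Sum.inl.inj h3)).2
      cases i <;> exact absurd h4 (by decide)
    · exfalso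
      have h3 : (Sum.inl (u, !j) : SV V E) = Sum.inl (u, j) := h2
      have h4 : (!j) = j := (Prod.mk.inj (Sum.inl.inj h3)).2
      cases j <;> exact absurd h4 (by decide)
    · rw [wt_rr]
      split_ifs with h
      · show Even (rr μ - 2 * (μ e : ℤ))
        unfold rr
        exact ⟨2 * ∑ e, (μ e : ℤ) + 1 - μ e, by ring⟩
      · exact Even.zero

end ML.R
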