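import Pool.Agent.ML.R3

/-!
# ML-R4: perfect matchings of the auxiliary graph are edge sets with all degrees 0 or 2
-/

set_option autoImplicit false
set_option linter.unusedSectionVars false
set_option linter.unusedFintypeInType false
set_option linter.unusedVariables false

namespace ML.R

open ML

variable {V E : Type} [Fintype V] [Fintype E] [DecidableEq V] [DecidableEq E] (a b : E → V)

/-- The edge set of `G` that corresponds to a perfect matching of the auxiliary graph. -/
def DN (N : Finset (SE V E)) : Finset E := Finset.univ.filter (fun e => Sum.inr (Sum.inl e) ∉ N)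

/-- Degree of the indicator function. -/
private lemma r4_deg {N : Finset (SE V E)} (hN : (gst a b).IsPM N) (x : SV V E) :
    (gst a b).deg (fun y => if y ∈ N then (1 : ℕ) else 0) x = 1 := by
  have h1 : ∑ y ∈ N, (gst a b).inc y x = 1 := hN.2 x (Finset.mem_univ x)
  have h2 : (gst a b).deg (fun y => if y ∈ N then (1 : ℕ) else 0) x =
      ∑ y ∈ (Finset.univ : Finset (SE V E)), (gst a b).inc y x • (if y ∈ N then (1 : ℕ) else 0) :=
    rfl
  rw [h2]
  have h3 : ∀ y : SE V E, (gst a b).inc y x • (if y ∈ N then (1 : ℕ) else 0) =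
      if y ∈ N then (gst a b).inc y x else 0 := by
    intro y
    by_cases hy : y ∈ N
    · rw [if_pos hy, if_pos hy, smul_eq_mul, mul_one]
    · rw [if_neg hy, if_neg hy, smul_zero]
  rw [Finset.sum_congr rfl (fun y _ => h3 y), Finset.sum_ite_mem, Finset.univ_inter]
  exact h1

/-- At the copy `j` of `v`.  Proof: `∑ x ∈ N, inc x v = deg (indicator of N) v`
(`MG.deg` with weights in `ℕ`: `∑ x ∈ univ, inc x v • (if x ∈ N then 1 else 0)`), then `deg_gst_inl`. -/
lemma pm_inl {N : Finset (SE V E)} (hN : (gst a b).IsPM N) (v : V) (j : Bool) :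
    (if Sum.inl v ∈ N then 1 else 0) + ∑ e, ∑ i : Bool,
      (if endp a b e i = v then (if Sum.inr (Sum.inr (e, i, j)) ∈ N then 1 else 0) else 0) = 1 := by
  have h1 := r4_deg a b hN (Sum.inl (v, j))
  rw [deg_gst_inl] at h1
  exact h1

/-- At the copy `i` of `e` (`deg_gst_inr`). -/
lemma pm_inr {N : Finset (SE V E)} (hN : (gst a b).IsPM N) (e : E) (i : Bool) :
    (if Sum.inr (Sum.inl e) ∈ N then 1 else 0) + ∑ j : Bool,
      (if Sum.inr (Sum.inr (e, i, j)) ∈ N then 1 else 0) = 1 := by
  have h1 := r4_deg a b hN (Sum.inr (e, i))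
  rw [deg_gst_inr] at h1
  exact h1

/-- Degrees of `DN N`.  Proof: with `mult_eq` and `endp`,
`G.deg (DN N) v = ∑ e, ∑ i, if endp a b e i = v then (if inr (inl e) ∈ N then 0 else 1) else 0`
`= ∑ e, ∑ i, if endp a b e i = v then ∑ j, [inr (inr (e, i, j)) ∈ N] else 0` (`pm_inr`)
`= ∑ j, (1 - [inl v ∈ N])` (`pm_inl`, exchanging the sums), which is `0` or `2`. -/
theorem deg_DN {G : MGraph V E} (hab : ∀ e, G.ends e = s(a e, b e)) {N : Finset (SE V E)}
    (hN : (gst a b).IsPM N) (v : V) : G.deg (DN N) v = 0 ∨ G.deg (DN N) v = 2 := by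
  have h1 : G.deg (DN N) v = ∑ e, ∑ i : Bool,
      (if endp a b e i = v then (∑ j : Bool,
        (if Sum.inr (Sum.inr (e, i, j)) ∈ N then 1 else 0)) else 0) := by
    unfold MGraph.deg DN
    rw [Finset.sum_filter]
    refine Finset.sum_congr rfl fun e _ => ?_
    rw [mult_eq G (hab e) v, Fintype.sum_bool]
    have ht := pm_inr a b hN e true
    have hf := pm_inr a b hN e false
    have e1 : endp a b e true = b e := if_pos rfl
    have e2 : endp a b e false = a e := if_neg (by decide)
    rw [e1, e2]
    by_cases hm : Sum.inr (Sum.inl e) ∈ N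
    · rw [if_pos hm] at ht hf
      have ht' : (∑ j : Bool, (if Sum.inr (Sum.inr (e, true, j)) ∈ N then 1 else 0)) = 0 := by
        omega
      have hf' : (∑ j : Bool, (if Sum.inr (Sum.inr (e, false, j)) ∈ N then 1 else 0)) = 0 := by
        omega
      rw [ht', hf', if_neg (not_not.2 hm), ite_self, ite_self, add_zero]
    · rw [if_neg hm] at ht hf
      have ht' : (∑ j : Bool, (if Sum.inr (Sum.inr (e, true, j)) ∈ N then 1 else 0)) = 1 := by
        omega
      have hf' : (∑ j : Bool, (if Sum.inr (Sum.inr (e, false, j)) ∈ N then 1 else 0)) = 1 := by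
        omega
      rw [ht', hf', if_pos hm, add_comm]
  have h2 : ∀ (e : E) (i : Bool), (if endp a b e i = v then (∑ j : Bool,
        (if Sum.inr (Sum.inr (e, i, j)) ∈ N then 1 else 0)) else 0) =
      (if endp a b e i = v then (if Sum.inr (Sum.inr (e, i, true)) ∈ N then 1 else 0) else 0) +
      (if endp a b e i = v then (if Sum.inr (Sum.inr (e, i, false)) ∈ N then 1 else 0) else 0) := by
    intro e i
    rw [Fintype.sum_bool]
    by_cases hc : endp a b e i = v
    · rw [if_pos hc, if_pos hc, if_pos hc]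
    · rw [if_neg hc, if_neg hc, if_neg hc]
  rw [Finset.sum_congr rfl (fun e _ => Finset.sum_congr rfl (fun i _ => h2 e i))] at h1
  simp only [Finset.sum_add_distrib] at h1
  have p1 := pm_inl a b hN v true
  have p2 := pm_inl a b hN v false
  by_cases hv : Sum.inl v ∈ N
  · rw [if_pos hv] at p1 p2
    left
    rw [h1]
    omega
  · rw [if_neg hv] at p1 p2
    right
    rw [h1]
    omega

end ML.R
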