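import Pool.Agent.ML.M0

/-!
# ML-R5a: positive decompositions, integral combinations
-/

set_option autoImplicit false
set_option linter.unusedSectionVars false
set_option linter.unusedFintypeInType false
set_option linter.unusedVariables false

namespace ML

section General

variable {V E : Type} [Fintype V] [Fintype E] [DecidableEq V] [DecidableEq E] (G : MG V E)

/-- The average of two decompositions is a decomposition. -/
lemma MG.Dec.avg {w : E → ℚ} {c d : Finset E → ℚ} (hc : G.Dec w c) (hd : G.Dec w d) :
    G.Dec w (fun N => (c N + d N) / 2) := by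
  obtain ⟨hc1, hc2, hc3⟩ := hc
  obtain ⟨hd1, hd2, hd3⟩ := hd
  refine ⟨fun N => ?_, fun N hN => ?_, fun e => ?_⟩
  · have h1 := hc1 N
    have h2 := hd1 N
    positivity
  · by_cases h : c N = 0
    · refine hd2 N fun h' => hN ?_
      simp [h, h']
    · exact hc2 N h
  · have h1 : ∀ N : Finset E, (if e ∈ N then (c N + d N) / 2 else 0) =
        ((if e ∈ N then c N else 0) + (if e ∈ N then d N else 0)) / 2 := by
      intro N
      split_ifs
      · rfl
      · simp
    simp only [h1]
    rw [← Finset.sum_div, Finset.sum_add_distrib, hc3, hd3]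
    ring

/-- A decomposition that is positive on all matchings used by some decomposition.  Proof: for every
finite set `S` of edge sets there is a decomposition which is positive at all `N ∈ S` with `PMD w N`:
induction on `S`, starting with `h`, averaging with a decomposition that is positive at the new
element (`MG.Dec.avg`; values are nonnegative).  Take `S = univ`. -/
lemma MG.dec_full {w : E → ℚ} (h : ∃ c, G.Dec w c) :
    ∃ c, G.Dec w c ∧ ∀ N, G.PMD w N → 0 < c N := by
  have key : ∀ S : Finset (Finset E), ∃ c, G.Dec w c ∧ ∀ N ∈ S, G.PMD w N → 0 < c N := by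
    intro S
    induction S using Finset.induction_on with
    | empty =>
      obtain ⟨c, hc⟩ := h
      exact ⟨c, hc, fun N hN => absurd hN (Finset.notMem_empty N)⟩
    | insert M S hM ih =>
      obtain ⟨c, hc, hpos⟩ := ih
      by_cases hP : G.PMD w M
      · obtain ⟨d, hd, hdM⟩ := hP
        refine ⟨_, hc.avg G hd, fun N hN hPN => ?_⟩
        have h1 := hc.1 N
        have h2 := hd.1 N
        rcases Finset.mem_insert.1 hN with h3 | h3
        · rw [h3] at h1 ⊢
          show 0 < (c M + d M) / 2
          linarith
        · have h4 := hpos N h3 hPN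
          show 0 < (c N + d N) / 2
          linarith
      · refine ⟨c, hc, fun N hN hPN => ?_⟩
        rcases Finset.mem_insert.1 hN with h3 | h3
        · rw [h3] at hPN
          exact absurd hPN hP
        · exact hpos N h3 hPN
  obtain ⟨c, hc, hpos⟩ := key Finset.univ
  exact ⟨c, hc, fun N hN => hpos N (Finset.mem_univ N) hN⟩

/-- Integral combinations.  Proof: `AddSubgroup.closure_induction`: a generator `ind N` is the
combination with the coefficients `Pi.single N 1`; `0`, sums and negatives are clear. -/
lemma mem_closure_comb {P : Finset E → Prop} {w : E → ℤ}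
    (h : w ∈ AddSubgroup.closure {z | ∃ N, P N ∧ z = ind N}) :
    ∃ z : Finset E → ℤ, (∀ N, z N ≠ 0 → P N) ∧ ∀ e, w e = ∑ N : Finset E, z N * ind N e := by
  induction h using AddSubgroup.closure_induction with
  | mem x hx =>
    obtain ⟨N, hN, rfl⟩ := hx
    refine ⟨Pi.single N 1, fun M hM => ?_, fun e => ?_⟩
    · by_cases h : M = N
      · rw [h]; exact hN
      · exact absurd (Pi.single_eq_of_ne h _) hM
    · rw [Finset.sum_eq_single N]
      · rw [Pi.single_eq_same, one_mul]
      · intro M _ hM
        rw [Pi.single_eq_of_ne hM, zero_mul]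
      · intro h
        exact absurd (Finset.mem_univ N) h
  | zero =>
    exact ⟨0, fun N hN => absurd rfl hN, fun e => by simp⟩
  | add x y _ _ hx hy =>
    obtain ⟨z1, h1, h2⟩ := hx
    obtain ⟨z2, h3, h4⟩ := hy
    refine ⟨fun N => z1 N + z2 N, fun N hN => ?_, fun e => ?_⟩
    · by_cases h : z1 N = 0
      · refine h3 N fun h' => hN ?_
        simp [h, h']
      · exact h1 N h
    · rw [Pi.add_apply, h2, h4, ← Finset.sum_add_distrib]
      exact Finset.sum_congr rfl fun N _ => by ring
  | neg x _ hx =>
    obtain ⟨z1, h1, h2⟩ := hx
    refine ⟨fun N => - z1 N, fun N hN => h1 N fun h' => hN ?_, fun e => ?_⟩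
    · simp [h']
    · rw [Pi.neg_apply, h2, ← Finset.sum_neg_distrib]
      exact Finset.sum_congr rfl fun N _ => by ring

end General

end ML
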