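import Pool.Agent.ML.R3b3
import Pool.Agent.ML.R3c
import Pool.Agent.ML.R4
import Pool.Agent.ML.R5a
import Pool.Agent.ML.M9
import Pool.Agent.ML.C7

/-!
# ML-R5b: the two representations of `2 μ`
-/

set_option autoImplicit false
set_option linter.unusedSectionVars false
set_option linter.unusedFintypeInType false
set_option linter.unusedVariables false

namespace ML.R

open ML

variable {V E : Type} [Fintype V] [Fintype E] [DecidableEq V] [DecidableEq E] (a b : E → V)
  (μ : E → ℕ)

/-- From a combination of perfect matchings to a combination of the sets `DN N`.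
Proof: `2 μ e = ∑ j : Bool, wst (inr (inr (e, false, j))) = ∑ j, ∑ N, [.. ∈ N] * c N
= ∑ N, c N * ∑ j, [inr (inr (e, false, j)) ∈ N]`, and for `c N ≠ 0` the inner sum is
`1 - [inr (inl e) ∈ N]` by `pm_inr` (cast to `R`), which is `[e ∈ DN N]`. -/
lemma two_mu {R : Type} [CommRing R] (c : Finset (SE V E) → R)
    (hP : ∀ N, c N ≠ 0 → (gst a b).IsPM N)
    (hc : ∀ x, ∑ N : Finset (SE V E), (if x ∈ N then c N else 0) = ((wst a b μ x : ℤ) : R)) (e : E) :
    2 * (μ e : R) = ∑ N : Finset (SE V E), c N * (if e ∈ DN N then 1 else 0) := by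
  have h0 : ∀ j : Bool, ∑ N : Finset (SE V E),
      (if (Sum.inr (Sum.inr (e, false, j)) : SE V E) ∈ N then c N else 0) = (μ e : R) := by
    intro j
    rw [hc]
    show ((μ e : ℤ) : R) = (μ e : R)
    exact Int.cast_natCast _
  have h1 : 2 * (μ e : R) = ∑ j : Bool, ∑ N : Finset (SE V E),
      (if (Sum.inr (Sum.inr (e, false, j)) : SE V E) ∈ N then c N else 0) := by
    rw [Fintype.sum_bool, h0, h0, two_mul]
  rw [h1, Finset.sum_comm]
  refine Finset.sum_congr rfl fun N _ => ?_
  by_cases hcN : c N = 0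
  · rw [hcN, zero_mul]
    exact Finset.sum_eq_zero fun j _ => ite_self _
  · have h2 := pm_inr a b (hP N hcN) e false
    rw [Fintype.sum_bool] at h2
    rw [Fintype.sum_bool]
    have h3 : e ∈ DN N ↔ (Sum.inr (Sum.inl e) : SE V E) ∉ N := by
      unfold DN
      rw [Finset.mem_filter]
      exact ⟨fun h => h.2, fun h => ⟨Finset.mem_univ _, h⟩⟩
    by_cases h4 : (Sum.inr (Sum.inl e) : SE V E) ∈ N
    · rw [if_pos h4] at h2
      have h5 : (Sum.inr (Sum.inr (e, false, true)) : SE V E) ∉ N := by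
        intro h; rw [if_pos h] at h2; omega
      have h6 : (Sum.inr (Sum.inr (e, false, false)) : SE V E) ∉ N := by
        intro h; rw [if_pos h] at h2; omega
      rw [if_neg h5, if_neg h6, if_neg (fun h => h3.1 h h4), mul_zero, add_zero]
    · rw [if_neg h4] at h2
      rw [if_pos (h3.2 h4), mul_one]
      by_cases h5 : (Sum.inr (Sum.inr (e, false, true)) : SE V E) ∈ N
      · have h6 : (Sum.inr (Sum.inr (e, false, false)) : SE V E) ∉ N := by
          intro h; rw [if_pos h5, if_pos h] at h2; omega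
        rw [if_pos h5, if_neg h6, add_zero]
      · have h6 : (Sum.inr (Sum.inr (e, false, false)) : SE V E) ∈ N := by
          by_contra h; rw [if_neg h5, if_neg h] at h2; omega
        rw [if_neg h5, if_pos h6, zero_add]

/-- The two representations of `2 μ`.  Proof: `P := univ.filter (PMD w)` for
`w := fun x => (wst a b μ x : ℚ)` (classical).  Members of `P` are perfect matchings (`c N ≠ 0`).
`c` from `cone` (with `coneHyp_wst`) and `dec_full`; it vanishes outside `P` (`c N ≠ 0` and `0 ≤ c N` give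
`PMD w N`).  `z` from `thmM_lat` (with `coneHyp_wst`, `pairs_gst`) and `mem_closure_comb`.  Then `two_mu`
for `c` and for `z`, and restrict the sums to `P` (`Finset.sum_subset`). -/
theorem family {G : MGraph V E} (hab : ∀ e, G.ends e = s(a e, b e)) (h : G.Admissible μ) :
    ∃ (P : Finset (Finset (SE V E))) (z : Finset (SE V E) → ℤ) (c : Finset (SE V E) → ℚ),
      (∀ N ∈ P, (gst a b).IsPM N) ∧ (∀ N ∈ P, 0 < c N) ∧
      (∀ e, 2 * (μ e : ℤ) = ∑ N ∈ P, z N * (if e ∈ DN N then 1 else 0)) ∧
      ∀ e, 2 * (μ e : ℚ) = ∑ N ∈ P, c N * (if e ∈ DN N then 1 else 0) := by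
  classical
  have hcone := coneHyp_wst a b μ hab h
  obtain ⟨c, hc, hpos⟩ := MG.dec_full _ (MG.cone _ hcone)
  have hlat := MG.thmM_lat (gst a b) hcone (pairs_gst a b μ)
  obtain ⟨z, hz, hz2⟩ := mem_closure_comb hlat
  have hPM : ∀ N, (gst a b).PMD (fun x => ((wst a b μ x : ℤ) : ℚ)) N → (gst a b).IsPM N := by
    rintro N ⟨c', hc', hp⟩
    exact hc'.2.1 N (ne_of_gt hp)
  refine ⟨Finset.univ.filter (fun N => (gst a b).PMD (fun x => ((wst a b μ x : ℤ) : ℚ)) N), z, c,
    ?_, ?_, ?_, ?_⟩
  · intro N hN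
    exact hPM N (Finset.mem_filter.1 hN).2
  · intro N hN
    exact hpos N (Finset.mem_filter.1 hN).2
  · intro e
    have h1 := two_mu (R := ℤ) a b μ z (fun N hN => hPM N (hz N hN)) (by
      intro x
      rw [hz2 x]
      refine Finset.sum_congr rfl fun N _ => ?_
      unfold ind
      by_cases hx : x ∈ N
      · rw [if_pos hx, if_pos hx, mul_one]
      · rw [if_neg hx, if_neg hx, mul_zero]) e
    rw [h1]
    symm
    refine Finset.sum_subset (Finset.subset_univ _) fun N _ hN => ?_
    have h2 : z N = 0 := by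
      by_contra h3
      exact hN (Finset.mem_filter.2 ⟨Finset.mem_univ _, hz N h3⟩)
    rw [h2, zero_mul]
  · intro e
    have h1 := two_mu (R := ℚ) a b μ c (fun N hN => hc.2.1 N hN) (fun x => hc.2.2 x) e
    rw [h1]
    symm
    refine Finset.sum_subset (Finset.subset_univ _) fun N _ hN => ?_
    have h2 : c N = 0 := by
      by_contra h3
      exact hN (Finset.mem_filter.2 ⟨Finset.mem_univ _, c, hc, lt_of_le_of_ne (hc.1 N) (Ne.symm h3)⟩)
    rw [h2, zero_mul]

end ML.R
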