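import Mathlib

/-!
# ML-R6: from the two representations of `2 μ` to nonnegative representations of `k μ`
-/

set_option autoImplicit false
set_option linter.unusedSectionVars false
set_option linter.unusedFintypeInType false
set_option linter.unusedVariables false

namespace ML.R

/-- Common denominator.  Proof: induction on `P`, or `D := ∏ i ∈ P, (c i).den`, and
`D * c i = (∏ over P.erase i) * (c i).num` is a positive integer. -/
lemma clear_den {ι : Type} [DecidableEq ι] (P : Finset ι) (c : ι → ℚ) (hc : ∀ i ∈ P, 0 < c i) :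
    ∃ (D : ℕ) (n : ι → ℕ), 0 < D ∧ ∀ i ∈ P, 1 ≤ n i ∧ (D : ℚ) * c i = n i := by
  obtain ⟨D, hDdef⟩ : ∃ D : ℕ, D = ∏ i ∈ P, (c i).den := ⟨_, rfl⟩
  have hD : 0 < D := by
    rw [hDdef]
    exact Finset.prod_pos fun i _ => (c i).den_pos
  have h : ∀ i ∈ P, ∃ n : ℕ, 1 ≤ n ∧ (D : ℚ) * c i = n := by
    intro i hi
    obtain ⟨k, hk⟩ : (c i).den ∣ D := by
      rw [hDdef]
      exact Finset.dvd_prod_of_mem _ hi
    have hk0 : 0 < k := by
      rcases Nat.eq_zero_or_pos k with h0 | h0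
      · rw [h0, mul_zero] at hk
        omega
      · exact h0
    have hnum : 0 < (c i).num := Rat.num_pos.2 (hc i hi)
    refine ⟨k * (c i).num.toNat, Nat.mul_pos hk0 (by omega), ?_⟩
    have h1 : ((c i).den : ℚ) * c i = (c i).num := Rat.den_mul_eq_num (c i)
    have h2 : (((c i).num.toNat : ℕ) : ℚ) = ((c i).num : ℚ) := by
      have h3 : (((c i).num.toNat : ℕ) : ℤ) = (c i).num := Int.toNat_of_nonneg hnum.le
      exact_mod_cast h3
    rw [hk]
    push_cast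
    rw [h2, ← h1]
    ring
  choose! n hn using h
  exact ⟨D, n, hD, hn⟩

/-- Main arithmetic step.  `x i e` is `0` or `1` in the application.
Proof: `clear_den` gives `D`, `n` with `2 D μ e = ∑ i ∈ P, n i * x i e`, `n i ≥ 1`.  Let `M := 2 D` and
`Z := ∑ i ∈ P, |z i|` and `K := M * (D * Z + 1)`.  For `k = 2 l ≥ K` write `l = D q + s`, `s < D`
(`q = l / D`, `s = l % D`), so `q ≥ D * Z` and `k μ e = q * (2 D μ e) + s * (2 μ e)
= ∑ i ∈ P, (q * n i + s * z i) * x i e`, and `q * n i + s * z i ≥ q - s * |z i| ≥ D Z - D Z ≥ 0` for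
`i ∈ P`.  Take `m i := (q * n i + s * z i).toNat`. -/
theorem arith {ι E : Type} [DecidableEq ι] (P : Finset ι) (x : ι → E → ℕ) (μ : E → ℕ)
    (z : ι → ℤ) (c : ι → ℚ) (hc : ∀ i ∈ P, 0 < c i)
    (h1 : ∀ e, 2 * (μ e : ℤ) = ∑ i ∈ P, z i * (x i e : ℤ))
    (h2 : ∀ e, 2 * (μ e : ℚ) = ∑ i ∈ P, c i * (x i e : ℚ)) :
    ∃ K : ℕ, ∀ k, K ≤ k → Even k → ∃ m : ι → ℕ, ∀ e, k * μ e = ∑ i ∈ P, m i * x i e := by
  obtain ⟨D, n, hD, hn⟩ := clear_den P c hc
  have h3 : ∀ e, 2 * (D : ℤ) * (μ e : ℤ) = ∑ i ∈ P, (n i : ℤ) * (x i e : ℤ) := by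
    intro e
    have h4 : 2 * (D : ℚ) * (μ e : ℚ) = ∑ i ∈ P, (n i : ℚ) * (x i e : ℚ) := by
      have h5 : 2 * (D : ℚ) * (μ e : ℚ) = D * (2 * (μ e : ℚ)) := by ring
      rw [h5, h2 e, Finset.mul_sum]
      refine Finset.sum_congr rfl fun i hi => ?_
      rw [← (hn i hi).2]
      ring
    exact_mod_cast h4
  obtain ⟨Z, hZ⟩ : ∃ Z : ℕ, Z = ∑ i ∈ P, (z i).natAbs := ⟨_, rfl⟩
  have hZi : ∀ i ∈ P, (z i).natAbs ≤ Z := by
    intro i hi
    rw [hZ]
    exact Finset.single_le_sum (f := fun i => (z i).natAbs) (fun _ _ => Nat.zero_le _) hi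
  refine ⟨2 * (D * (D * Z + 1)), fun k hk hev => ?_⟩
  obtain ⟨l, hl⟩ := hev
  obtain ⟨q, hq⟩ : ∃ q, q = l / D := ⟨_, rfl⟩
  obtain ⟨s, hs⟩ : ∃ s, s = l % D := ⟨_, rfl⟩
  have hlq : l = D * q + s := by
    rw [hq, hs]
    exact (Nat.div_add_mod l D).symm
  have hsD : s < D := by
    rw [hs]
    exact Nat.mod_lt _ hD
  have hlD : D * (D * Z + 1) ≤ l := by omega
  have hqZ : D * Z + 1 ≤ q := by
    rw [hq, Nat.le_div_iff_mul_le hD, mul_comm]
    exact hlD
  refine ⟨fun i => ((q : ℤ) * n i + s * z i).toNat, fun e => ?_⟩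
  have hnn : ∀ i ∈ P, 0 ≤ (q : ℤ) * n i + s * z i := by
    intro i hi
    have h5 := (hn i hi).1
    have h6 := hZi i hi
    have h7 : s * (z i).natAbs ≤ D * Z := Nat.mul_le_mul hsD.le h6
    have h8 : q ≤ q * n i := Nat.le_mul_of_pos_right _ h5
    have h9 : ((s * (z i).natAbs : ℕ) : ℤ) ≤ ((q * n i : ℕ) : ℤ) := by
      have : s * (z i).natAbs ≤ q * n i := by omega
      exact_mod_cast this
    push_cast at h9
    have h10 : -((s : ℤ) * |z i|) ≤ s * z i := by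
      have h11 := neg_abs_le (z i)
      have h12 : (0 : ℤ) ≤ s := Int.natCast_nonneg s
      nlinarith
    linarith
  have hfin : ((k * μ e : ℕ) : ℤ) =
      ((∑ i ∈ P, ((q : ℤ) * n i + s * z i).toNat * x i e : ℕ) : ℤ) := by
    push_cast
    have h5 : ∑ i ∈ P, (((q : ℤ) * n i + s * z i).toNat : ℤ) * (x i e : ℤ) =
        ∑ i ∈ P, ((q : ℤ) * n i + s * z i) * (x i e : ℤ) := by
      refine Finset.sum_congr rfl fun i hi => ?_
      rw [Int.toNat_of_nonneg (hnn i hi)]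
    have h6 : ∑ i ∈ P, ((q : ℤ) * n i + s * z i) * (x i e : ℤ) =
        q * ∑ i ∈ P, (n i : ℤ) * (x i e : ℤ) + s * ∑ i ∈ P, z i * (x i e : ℤ) := by
      rw [Finset.mul_sum, Finset.mul_sum, ← Finset.sum_add_distrib]
      exact Finset.sum_congr rfl fun i _ => by ring
    have h7 : ∑ i ∈ P, (((q : ℤ) * n i + s * z i).toNat : ℤ) * (x i e : ℤ) =
        2 * (D * q + s) * μ e := by
      rw [h5, h6, ← h3, ← h1]
      ring
    have h8 : (k : ℤ) = 2 * (D * q + s) := by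
      rw [hl, hlq]
      push_cast
      ring
    rw [h8, ← h7]
    try simp only [Int.ofNat_toNat]
  exact_mod_cast hfin

end ML.R
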