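import Pool.Agent.ML.R2b
import Pool.Agent.ML.R5b
import Pool.Agent.ML.R6

/-!
# ML-R7a: a fixed admissible weight
-/

set_option autoImplicit false
set_option linter.unusedSectionVars false
set_option linter.unusedFintypeInType false
set_option linter.unusedVariables false

namespace ML.R

variable {V E : Type} [Fintype V] [Fintype E] [DecidableEq V] [DecidableEq E] (G : MGraph V E)

/-- A fixed admissible weight.  Proof: `exists_ab`, `family`, `arith` with `ι := Finset (SE V E)` and
`x N e := if e ∈ DN N then 1 else 0` (`push_cast`), `hasCover_of_comb` with `deg_DN`. -/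
theorem cover_mul {μ : E → ℕ} (h : G.Admissible μ) :
    ∃ K : ℕ, ∀ k, K ≤ k → Even k → G.HasFaithfulCover (fun e => k * μ e) := by
  obtain ⟨a, b, hab⟩ := exists_ab G
  obtain ⟨P, z, c, hP, hc, h1, h2⟩ := family a b μ hab h
  obtain ⟨K, hK⟩ := arith (E := E) P (fun N e => if e ∈ DN N then 1 else 0) μ z c hc
    (fun e => by
      rw [h1 e]
      refine Finset.sum_congr rfl fun N _ => ?_
      by_cases he : e ∈ DN N <;> simp [he])
    (fun e => by
      rw [h2 e]
      refine Finset.sum_congr rfl fun N _ => ?_
      by_cases he : e ∈ DN N <;> simp [he])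
  refine ⟨K, fun k hk hev => ?_⟩
  obtain ⟨m, hm⟩ := hK k hk hev
  exact hasCover_of_comb G P DN m (fun N hN v => deg_DN a b hab (hP N hN) v) _ hm

end ML.R
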