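import Pool.Agent.ML.R2b

/-!
# ML-R7b: covers in coordinates, admissibility of covered weights
-/

set_option autoImplicit false
set_option linter.unusedSectionVars false
set_option linter.unusedFintypeInType false
set_option linter.unusedVariables false

namespace ML.R

variable {V E : Type} [Fintype V] [Fintype E] [DecidableEq V] [DecidableEq E] (G : MGraph V E)

private lemma r7b_countP (F : Multiset (Finset E)) (e : E) :
    F.countP (fun C => e ∈ C) = ∑ C : Finset E, F.count C * (if e ∈ C then 1 else 0) := by
  induction F using Multiset.induction_on with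
  | empty => simp
  | cons a F ih =>
    rw [Multiset.countP_cons, ih]
    simp only [Multiset.count_cons, add_mul, Finset.sum_add_distrib]
    congr 1
    rw [Finset.sum_eq_single a]
    · simp
    · intro b _ hb
      rw [if_neg hb, zero_mul]
    · intro h
      exact absurd (Finset.mem_univ a) h

/-- Coordinates of a cover.  Proof: `c C := F.count C`; `F.countP (e ∈ ·) = ∑ C, F.count C * [e ∈ C]`
(induction on `F`).  Conversely `∑ C, c C • {C}`. -/
theorem hasCover_iff (w : E → ℕ) : G.HasFaithfulCover w ↔
    ∃ c : Finset E → ℕ, (∀ C, c C ≠ 0 → G.IsCircuit C) ∧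
      ∀ e, w e = ∑ C : Finset E, c C * (if e ∈ C then 1 else 0) := by
  constructor
  · rintro ⟨F, hF, hw⟩
    refine ⟨fun C => F.count C, fun C hC => hF C (Multiset.count_ne_zero.1 hC), fun e => ?_⟩
    rw [← hw e, r7b_countP]
  · rintro ⟨c, h1, h2⟩
    have hcount : ∀ C, (∑ D : Finset E, c D • ({D} : Multiset (Finset E))).count C = c C := by
      intro C
      rw [Multiset.count_sum', Finset.sum_eq_single C]
      · rw [Multiset.count_nsmul, Multiset.count_singleton_self, mul_one]
      · intro D _ hD
        rw [Multiset.count_nsmul, Multiset.count_singleton, if_neg hD.symm, mul_zero]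
      · intro h
        exact absurd (Finset.mem_univ C) h
    refine ⟨∑ D : Finset E, c D • ({D} : Multiset (Finset E)), fun C hC => h1 C ?_, fun e => ?_⟩
    · rw [← hcount]
      exact Multiset.count_ne_zero.2 hC
    · rw [r7b_countP, h2 e]
      exact Finset.sum_congr rfl fun C _ => by rw [hcount]

/-- Weights with a faithful cover are admissible.  Proof: `hasCover_iff`; let `X` be nonempty, not
`univ`, `e ∈ cut X`.  For each `C` with `c C ≠ 0` and `e ∈ C`, the number `(C ∩ cut X).card` is even
(`even_inter_cut`) and positive, so some `f ≠ e` is in `C ∩ cut X`; hence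
`[e ∈ C] ≤ ∑ f ∈ (cut X).erase e, [f ∈ C]`.  Multiply by `c C` and sum over `C`. -/
theorem admissible_of_cover {w : E → ℕ} (h : G.HasFaithfulCover w) : G.Admissible w := by
  obtain ⟨c, h1, h2⟩ := (hasCover_iff G w).1 h
  intro X _ _ e he
  have h3 : ∑ f ∈ (G.cut X).erase e, w f =
      ∑ C : Finset E, c C * ∑ f ∈ (G.cut X).erase e, (if f ∈ C then 1 else 0) := by
    simp only [h2, Finset.mul_sum]
    rw [Finset.sum_comm]
  rw [h3, h2 e]
  refine Finset.sum_le_sum fun C _ => ?_
  by_cases hc : c C = 0
  · rw [hc, zero_mul, zero_mul]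
  · refine Nat.mul_le_mul_left _ ?_
    split_ifs with heC
    · have heven := even_inter_cut G (h1 C hc).2.1 X
      have hmem : e ∈ C ∩ G.cut X := Finset.mem_inter.2 ⟨heC, he⟩
      have h4 : 1 < (C ∩ G.cut X).card := by
        have h5 := Finset.card_pos.2 ⟨e, hmem⟩
        obtain ⟨k, hk⟩ := heven
        omega
      obtain ⟨f, hf, hfe⟩ := Finset.exists_mem_ne h4 e
      rw [Finset.mem_inter] at hf
      calc 1 = if f ∈ C then 1 else 0 := by rw [if_pos hf.1]
        _ ≤ _ := Finset.single_le_sum (f := fun f => if f ∈ C then 1 else 0)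
          (fun _ _ => Nat.zero_le _) (Finset.mem_erase.2 ⟨hfe, hf.2⟩)
    · exact Nat.zero_le _

/-- Scaling: `k μ` admissible, `k > 0` implies `μ` admissible, and conversely. -/
lemma admissible_mul {k : ℕ} (hk : 0 < k) (μ : E → ℕ) :
    G.Admissible (fun e => k * μ e) ↔ G.Admissible μ := by
  unfold MGraph.Admissible
  refine forall_congr' fun X => forall_congr' fun _ => forall_congr' fun _ =>
    forall_congr' fun e => forall_congr' fun _ => ?_
  rw [← Finset.mul_sum]
  exact Nat.mul_le_mul_left_iff hk

lemma HasFaithfulCover_add {w z : E → ℕ} (hw : G.HasFaithfulCover w) (hz : G.HasFaithfulCover z) :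
    G.HasFaithfulCover (fun e => w e + z e) := by
  obtain ⟨F, hF, hFw⟩ := hw
  obtain ⟨F', hF', hFz⟩ := hz
  refine ⟨F + F', fun C hC => ?_, fun e => ?_⟩
  · rcases Multiset.mem_add.1 hC with h | h
    · exact hF C h
    · exact hF' C h
  · rw [Multiset.countP_add, hFw, hFz]

end ML.R
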