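import Pool.Agent.ML.R7a
import Pool.Agent.ML.R7b

/-!
# ML-R7c: a fixed multigraph
-/

set_option autoImplicit false
set_option linter.unusedSectionVars false
set_option linter.unusedFintypeInType false
set_option linter.unusedVariables false

namespace ML.R

variable {V E : Type} [Fintype V] [Fintype E] [DecidableEq V] [DecidableEq E] (G : MGraph V E)

/-- Remainders.  Every admissible `μ` is `μ' + ν` with `μ'` admissible and bounded by `2 ^ |E|`, and `k ν`
has a faithful cover for every `k`. -/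
theorem remainder {μ : E → ℕ} (h : G.Admissible μ) :
    ∃ μ' ν : E → ℕ, (∀ e, μ e = μ' e + ν e) ∧ G.Admissible μ' ∧ (∀ e, μ' e ≤ 2 ^ Fintype.card E) ∧
      ∀ k : ℕ, G.HasFaithfulCover (fun e => k * ν e) := by
  obtain ⟨K, hK⟩ := cover_mul G h
  obtain ⟨q, hq⟩ : ∃ q, q = 2 * (K + 1) := ⟨_, rfl⟩
  have hq0 : 0 < q := by omega
  have hcov := hK q (by omega) (by rw [hq]; exact even_two_mul _)
  obtain ⟨c, hc1, hc2⟩ := (hasCover_iff G _).1 hcov
  obtain ⟨ν, hν⟩ : ∃ ν : E → ℕ, ν = fun e => ∑ C : Finset E, (c C / q) * (if e ∈ C then 1 else 0) :=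
    ⟨_, rfl⟩
  obtain ⟨ρ, hρ⟩ : ∃ ρ : E → ℕ, ρ = fun e => ∑ C : Finset E, (c C % q) * (if e ∈ C then 1 else 0) :=
    ⟨_, rfl⟩
  have hsum : ∀ e, q * μ e = q * ν e + ρ e := by
    intro e
    rw [hc2 e, hν, hρ]
    simp only
    rw [Finset.mul_sum, ← Finset.sum_add_distrib]
    refine Finset.sum_congr rfl fun C _ => ?_
    rw [← mul_assoc, ← add_mul, Nat.div_add_mod]
  have hle : ∀ e, ν e ≤ μ e := by
    intro e
    have := hsum e
    exact Nat.le_of_mul_le_mul_left (by omega) hq0
  have hρμ : ∀ e, ρ e = q * (μ e - ν e) := by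
    intro e
    rw [Nat.mul_sub, hsum e]
    omega
  have hρcov : G.HasFaithfulCover ρ := by
    refine (hasCover_iff G _).2 ⟨fun C => c C % q, fun C hC => hc1 C ?_, fun e => ?_⟩
    · intro h0
      apply hC
      simp [h0]
    · rw [hρ]
  refine ⟨fun e => μ e - ν e, ν, fun e => ?_, ?_, fun e => ?_, fun k => ?_⟩
  · have := hle e
    simp only
    omega
  · have h1 := admissible_of_cover G hρcov
    have h2 : ρ = fun e => q * (μ e - ν e) := funext hρμ
    rw [h2] at h1
    exact (admissible_mul G hq0 _).1 h1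
  · have h1 : ρ e ≤ q * 2 ^ Fintype.card E := by
      rw [hρ]
      simp only
      calc ∑ C : Finset E, (c C % q) * (if e ∈ C then 1 else 0)
          ≤ ∑ C : Finset E, q := by
            refine Finset.sum_le_sum fun C _ => ?_
            have h3 : c C % q ≤ q := (Nat.mod_lt _ hq0).le
            split_ifs <;> simp [h3]
        _ = q * 2 ^ Fintype.card E := by
            rw [Finset.sum_const, Finset.card_univ, Fintype.card_finset, smul_eq_mul, mul_comm]
    rw [hρμ e] at h1
    exact Nat.le_of_mul_le_mul_left h1 hq0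
  · refine (hasCover_iff G _).2 ⟨fun C => k * (c C / q), fun C hC => hc1 C ?_, fun e => ?_⟩
    · intro h0
      apply hC
      simp [h0]
    · rw [hν]
      simp only
      rw [Finset.mul_sum]
      exact Finset.sum_congr rfl fun C _ => by ring

/-- A fixed multigraph. -/
theorem fixed_graph : ∃ K : ℕ, ∀ k, K ≤ k → Even k → G.PropP k := by
  classical
  have hex : ∀ μ : E → ℕ, ∃ K : ℕ, G.Admissible μ →
      ∀ k, K ≤ k → Even k → G.HasFaithfulCover (fun e => k * μ e) := by
    intro μ
    by_cases h : G.Admissible μ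
    · obtain ⟨K, hK⟩ := cover_mul G h
      exact ⟨K, fun _ => hK⟩
    · exact ⟨0, fun h' => absurd h' h⟩
  choose Kf hKf using hex
  obtain ⟨S, hS⟩ : ∃ S : Finset (E → ℕ),
      S = Fintype.piFinset (fun _ : E => Finset.range (2 ^ Fintype.card E + 1)) := ⟨_, rfl⟩
  refine ⟨1 + ∑ μ ∈ S, Kf μ, fun k hk hk2 => ?_⟩
  intro w hw hadm _
  choose μ hμ using hw
  have hw' : w = fun e => k * μ e := funext hμ
  subst hw'
  have hk0 : 0 < k := by omega
  have hadm' := (admissible_mul G hk0 μ).1 hadm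
  obtain ⟨μ', ν, h1, h2, h3, h4⟩ := remainder G hadm'
  have hmem : μ' ∈ S := by
    rw [hS, Fintype.mem_piFinset]
    intro e
    rw [Finset.mem_range]
    have := h3 e
    omega
  have hle : Kf μ' ≤ ∑ μ ∈ S, Kf μ := Finset.single_le_sum (fun _ _ => Nat.zero_le _) hmem
  have hcov := hKf μ' h2 k (by omega) hk2
  have h5 : (fun e => k * μ e) = fun e => k * μ' e + k * ν e := by
    funext e
    rw [h1 e, mul_add]
  rw [h5]
  exact HasFaithfulCover_add G hcov (h4 k)

end ML.R
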