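import Pool.Agent.ML.R1

/-!
# ML-R8a: merging parallel edges: admissibility
-/

set_option autoImplicit false
set_option linter.unusedSectionVars false
set_option linter.unusedFintypeInType false
set_option linter.unusedVariables false

namespace ML.R

variable {V E : Type} [Fintype V] [Fintype E] [DecidableEq V] [DecidableEq E] (G : MGraph V E)

/-- Admissibility: no edge of a cut has more than half of the weight of the cut
(`Finset.add_sum_erase`; a cut with an edge is not the cut of `∅` or `univ`, by `mem_cut_iff`). -/
lemma adm_iff (w : E → ℕ) :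
    G.Admissible w ↔ ∀ X : Finset V, ∀ e ∈ G.cut X, 2 * w e ≤ ∑ f ∈ G.cut X, w f := by
  obtain ⟨a, b, hab⟩ := exists_ab G
  constructor
  · intro h X e he
    have hm := (mem_cut_iff G (hab e) X).1 he
    have hne : X.Nonempty := by
      rw [Finset.nonempty_iff_ne_empty]
      rintro rfl
      exact hm ⟨fun h' => absurd h' (Finset.notMem_empty _), fun h' => absurd h' (Finset.notMem_empty _)⟩
    have hnu : X ≠ Finset.univ := by
      rintro rfl
      exact hm ⟨fun _ => Finset.mem_univ _, fun _ => Finset.mem_univ _⟩
    have h1 := h X hne hnu e he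
    have h2 := Finset.add_sum_erase (G.cut X) w he
    omega
  · intro h X _ _ e he
    have h1 := h X e he
    have h2 := Finset.add_sum_erase (G.cut X) w he
    omega

private lemma r8a_cut_iff {x y : E} (h : G.ends x = G.ends y) (X : Finset V) :
    x ∈ G.cut X ↔ y ∈ G.cut X := by
  unfold MGraph.cut
  rw [Finset.mem_filter, Finset.mem_filter, h]
  simp only [Finset.mem_univ, true_and]

/-- The weight of `e` is moved to `f`. -/
def merge (w : E → ℕ) (e f : E) : E → ℕ :=
  fun x => if x = e then 0 else if x = f then w e + w f else w x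

/-- Merging preserves admissibility if two further parallel edges are at least as heavy.
Proof: `adm_iff`.  Parallel edges are in the same cuts (`mem_cut_iff`).  If `e ∉ cut X` then `f ∉ cut X`
and nothing changes.  Otherwise `e, f, g, g' ∈ cut X`, the total `T := ∑ f ∈ cut X, w f` does not change;
the edge `e` has weight `0`, the edge `f` has `2 (w e + w f) ≤ w e + w f + w g + w g' ≤ T`, the others
have unchanged weights. -/
lemma merge_adm {w : E → ℕ} (h : G.Admissible w) {e f g g' : E} (h1 : e ≠ f) (h2 : e ≠ g)
    (h3 : e ≠ g') (h4 : f ≠ g) (h5 : f ≠ g') (h6 : g ≠ g') (p1 : G.ends e = G.ends f)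
    (p2 : G.ends g = G.ends f) (p3 : G.ends g' = G.ends f) (w1 : w e ≤ w g) (w2 : w f ≤ w g') :
    G.Admissible (merge w e f) := by
  rw [adm_iff] at h ⊢
  intro X x hx
  by_cases he : e ∈ G.cut X
  · have hf : f ∈ G.cut X := (r8a_cut_iff G p1 X).1 he
    have hg : g ∈ G.cut X := (r8a_cut_iff G p2 X).2 hf
    have hg' : g' ∈ G.cut X := (r8a_cut_iff G p3 X).2 hf
    have hf1 : f ∈ (G.cut X).erase e := Finset.mem_erase.2 ⟨fun h' => h1 h'.symm, hf⟩
    have hg1 : g ∈ ((G.cut X).erase e).erase f :=
      Finset.mem_erase.2 ⟨fun h' => h4 h'.symm, Finset.mem_erase.2 ⟨fun h' => h2 h'.symm, hg⟩⟩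
    have hg1' : g' ∈ (((G.cut X).erase e).erase f).erase g :=
      Finset.mem_erase.2 ⟨fun h' => h6 h'.symm, Finset.mem_erase.2 ⟨fun h' => h5 h'.symm,
        Finset.mem_erase.2 ⟨fun h' => h3 h'.symm, hg'⟩⟩⟩
    have s1 := Finset.add_sum_erase (G.cut X) w he
    have s2 := Finset.add_sum_erase ((G.cut X).erase e) w hf1
    have s3 := Finset.add_sum_erase (((G.cut X).erase e).erase f) w hg1
    have s4 := Finset.add_sum_erase ((((G.cut X).erase e).erase f).erase g) w hg1'
    have t1 := Finset.add_sum_erase (G.cut X) (merge w e f) he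
    have t2 := Finset.add_sum_erase ((G.cut X).erase e) (merge w e f) hf1
    have me : merge w e f e = 0 := if_pos rfl
    have mf : merge w e f f = w e + w f := by
      unfold merge
      rw [if_neg (fun h' => h1 h'.symm), if_pos rfl]
    have t3 : ∑ y ∈ ((G.cut X).erase e).erase f, merge w e f y =
        ∑ y ∈ ((G.cut X).erase e).erase f, w y := by
      refine Finset.sum_congr rfl fun y hy => ?_
      obtain ⟨hy1, hy2⟩ := Finset.mem_erase.1 hy
      obtain ⟨hy3, _⟩ := Finset.mem_erase.1 hy2
      unfold merge
      rw [if_neg hy3, if_neg hy1]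
    by_cases hxe : x = e
    · rw [hxe, me]
      omega
    · by_cases hxf : x = f
      · rw [hxf, mf]
        omega
      · have hxm : merge w e f x = w x := by
          unfold merge
          rw [if_neg hxe, if_neg hxf]
        have := h X x hx
        rw [hxm]
        omega
  · have hf : f ∉ G.cut X := fun hf => he ((r8a_cut_iff G p1 X).2 hf)
    have hm : ∀ y ∈ G.cut X, merge w e f y = w y := by
      intro y hy
      unfold merge
      have hy1 : y ≠ e := fun h' => he (h' ▸ hy)
      have hy2 : y ≠ f := fun h' => hf (h' ▸ hy)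
      rw [if_neg hy1, if_neg hy2]
    rw [hm x hx, Finset.sum_congr rfl hm]
    exact h X x hx

end ML.R
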