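import Pool.Agent.ML.R8a

/-!
# ML-R8b: merging parallel edges: lifting covers
-/

set_option autoImplicit false
set_option linter.unusedSectionVars false
set_option linter.unusedFintypeInType false
set_option linter.unusedVariables false

namespace ML.R

variable {V E : Type} [Fintype V] [Fintype E] [DecidableEq V] [DecidableEq E] (G : MGraph V E)

private lemma r8b_exists_sub {α : Type} (s : Multiset α) {n : ℕ} (h : n ≤ s.card) :
    ∃ t ≤ s, t.card = n := by
  have h1 : 0 < (Multiset.powersetCard n s).card := by
    rw [Multiset.card_powersetCard]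
    exact Nat.choose_pos h
  obtain ⟨t, ht⟩ := Multiset.card_pos_iff_exists_mem.1 h1
  exact ⟨t, (Multiset.mem_powersetCard.1 ht).1, (Multiset.mem_powersetCard.1 ht).2⟩

/-- Exchange of an edge of a circuit with a parallel edge.  Proof: `mult` depends only on the ends, so
`deg (insert e (C.erase f)) v = mult e v + deg (C.erase f) v = deg C v`.  Let
`φ x := if x = f then e else x`; `φ` maps `C` onto `insert e (C.erase f)` and `G.ends (φ x) = G.ends x`, so
chains are mapped to chains (`Relation.ReflTransGen.lift φ`). -/
lemma swap_circuit {C : Finset E} (hC : G.IsCircuit C) {e f : E} (hef : G.ends e = G.ends f)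
    (hf : f ∈ C) (he : e ∉ C) : G.IsCircuit (insert e (C.erase f)) := by
  obtain ⟨hne, hdeg, hconn⟩ := hC
  have hef' : e ≠ f := fun h => he (h ▸ hf)
  have hmult : ∀ v, G.mult e v = G.mult f v := fun v => by
    unfold MGraph.mult
    rw [hef]
  have hdeg' : ∀ v, G.deg (insert e (C.erase f)) v = G.deg C v := by
    intro v
    unfold MGraph.deg
    rw [Finset.sum_insert (fun h => he (Finset.mem_of_mem_erase h)), hmult v,
      Finset.add_sum_erase C (fun x => G.mult x v) hf]
  have hmap : ∀ x ∈ C, (if x = f then e else x) ∈ insert e (C.erase f) := by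
    intro x hx
    split_ifs with h
    · exact Finset.mem_insert_self _ _
    · exact Finset.mem_insert_of_mem (Finset.mem_erase.2 ⟨h, hx⟩)
  have hends : ∀ x, G.ends (if x = f then e else x) = G.ends x := by
    intro x
    split_ifs with h
    · rw [h, hef]
    · rfl
  have hsurj : ∀ y ∈ insert e (C.erase f), ∃ x ∈ C, (if x = f then e else x) = y := by
    intro y hy
    rcases Finset.mem_insert.1 hy with h | h
    · exact ⟨f, hf, by rw [if_pos rfl, h]⟩
    · rw [Finset.mem_erase] at h
      exact ⟨y, h.2, if_neg h.1⟩
  refine ⟨⟨e, Finset.mem_insert_self _ _⟩, fun v => by rw [hdeg']; exact hdeg v,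
    fun y hy z hz => ?_⟩
  obtain ⟨x, hx, rfl⟩ := hsurj y hy
  obtain ⟨x', hx', rfl⟩ := hsurj z hz
  refine Relation.ReflTransGen.lift (fun x => if x = f then e else x) ?_ _ _ (hconn x hx x' hx')
  rintro a b ⟨ha, hb, v, hva, hvb⟩
  refine ⟨hmap a ha, hmap b hb, v, ?_, ?_⟩
  · rw [hends]
    exact hva
  · rw [hends]
    exact hvb

/-- Lifting a cover.  Proof: let `F` be a cover of `merge w e f`: no member contains `e`
(`countP = 0`), and `F₁ := F.filter (f ∈ ·)` has `w e + w f` members.  Write `F₁ = S + T` with
`S.card = w e`, and `F₂ := F.filter (f ∉ ·)`; `F = S + T + F₂`.  The cover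
`S.map (fun C => insert e (C.erase f)) + T + F₂` works (`swap_circuit`; count the members containing
`e`: `w e`; `f`: `w f`; another edge: unchanged).  (`w e` and `w f` may be `0`.) -/
theorem lift_cover {w : E → ℕ} {e f : E} (hne : e ≠ f) (hef : G.ends e = G.ends f)
    (h : G.HasFaithfulCover (merge w e f)) : G.HasFaithfulCover w := by
  classical
  obtain ⟨F, hF, hw⟩ := h
  have he0 : ∀ C ∈ F, e ∉ C := by
    have h1 : F.countP (fun C => e ∈ C) = 0 := by
      rw [hw e]
      simp [merge]
    rw [Multiset.countP_eq_zero] at h1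
    exact h1
  have hfc : (F.filter (fun C => f ∈ C)).card = w e + w f := by
    rw [← Multiset.countP_eq_card_filter, hw f]
    simp [merge, hne.symm]
  obtain ⟨S, hS, hSc⟩ : ∃ S ≤ F.filter (fun C => f ∈ C), S.card = w e :=
    r8b_exists_sub _ (by rw [hfc]; exact Nat.le_add_right _ _)
  obtain ⟨T, hT⟩ := Multiset.le_iff_exists_add.1 hS
  have hTc : T.card = w f := by
    have h1 := congrArg Multiset.card hT
    rw [hfc, Multiset.card_add, hSc] at h1
    omega
  have hFeq : F = S + T + F.filter (fun C => ¬ f ∈ C) := by
    rw [← hT, Multiset.filter_add_not]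
  have hSf : ∀ C ∈ S, C ∈ F ∧ f ∈ C := fun C hC =>
    Multiset.mem_filter.1 (Multiset.mem_of_le hS hC)
  have hTf : ∀ C ∈ T, C ∈ F ∧ f ∈ C := fun C hC =>
    Multiset.mem_filter.1 (hT ▸ Multiset.mem_add.2 (Or.inr hC))
  have hall : ∀ (M : Multiset (Finset E)) (p : Finset E → Prop) [DecidablePred p],
      (∀ C ∈ M, p C) → M.countP p = M.card := fun M p _ h =>
    Multiset.countP_eq_card.2 h
  have hnone : ∀ (M : Multiset (Finset E)) (p : Finset E → Prop) [DecidablePred p],
      (∀ C ∈ M, ¬ p C) → M.countP p = 0 := fun M p _ h => Multiset.countP_eq_zero.2 h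
  refine ⟨S.map (fun C => insert e (C.erase f)) + T + F.filter (fun C => ¬ f ∈ C),
    fun C hC => ?_, fun x => ?_⟩
  · rcases Multiset.mem_add.1 hC with h | h
    · rcases Multiset.mem_add.1 h with h | h
      · obtain ⟨C', hC', rfl⟩ := Multiset.mem_map.1 h
        exact swap_circuit G (hF C' (hSf C' hC').1) hef (hSf C' hC').2 (he0 C' (hSf C' hC').1)
      · exact hF C (hTf C h).1
    · exact hF C (Multiset.mem_filter.1 h).1
  · rw [Multiset.countP_add, Multiset.countP_add, Multiset.countP_map,
      ← Multiset.countP_eq_card_filter]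
    by_cases hxe : x = e
    · subst hxe
      rw [hall S _ fun C _ => Finset.mem_insert_self _ _, hSc,
        hnone T _ fun C hC => he0 C (hTf C hC).1,
        hnone _ _ fun C hC => he0 C (Multiset.mem_filter.1 hC).1]
      rfl
    · by_cases hxf : x = f
      · subst hxf
        rw [hnone S _ fun C _ h => ?_, hall T _ fun C hC => (hTf C hC).2, hTc,
          hnone _ _ fun C hC => (Multiset.mem_filter.1 hC).2]
        · omega
        · rcases Finset.mem_insert.1 h with h | h
          · exact hxe h
          · exact (Finset.mem_erase.1 h).1 rfl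
      · have h1 : S.countP (fun C => x ∈ insert e (C.erase f)) = S.countP (fun C => x ∈ C) := by
          refine Multiset.countP_congr rfl fun C _ => ?_
          simp [hxe, hxf]
        have h2 := hw x
        rw [hFeq, Multiset.countP_add, Multiset.countP_add] at h2
        rw [h1, h2]
        simp [merge, hxe, hxf]

end ML.R
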