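import Pool.Agent.ML.R1

/-!
# ML-R9a: embedding into a universal multigraph
-/

set_option autoImplicit false
set_option linter.unusedSectionVars false
set_option linter.unusedFintypeInType false
set_option linter.unusedVariables false

namespace ML.R

/-- The universal multigraph on `Fin n`: three edges for every ordered pair of vertices. -/
def bigG (n : ℕ) : MGraph (Fin n) (Fin n × Fin n × Fin 3) where
  ends := fun x => s(x.1, x.2.1)

variable {V E : Type} [Fintype V] [Fintype E] [DecidableEq V] [DecidableEq E] (G : MGraph V E)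

/-- The edges of the support of `w` can be embedded.
Proof: for `z : Sym2 V` let `S z := univ.filter (fun e => G.ends e = z ∧ w e ≠ 0)`, of cardinality at most
3; choose `t z : E → Fin 3` injective on `S z` (for instance from `(S z).equivFin` and
`Fin.castLE`), and `j e := (ι (G.ends e).out.1, ι (G.ends e).out.2, t (G.ends e) e)` (`Quot.out`; or
choose `p : Sym2 V → V × V` with `s((p z).1, (p z).2) = z`).  If `j e = j f` then `G.ends e = G.ends f`,
as `ι` is injective, so `e, f` are in the same class, and `t` is injective there. -/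
theorem exists_emb {n : ℕ} (ι : V ↪ Fin n) (w : E → ℕ)
    (h : ∀ z : Sym2 V, (Finset.univ.filter (fun e => G.ends e = z ∧ w e ≠ 0)).card ≤ 3) :
    ∃ j : E → Fin n × Fin n × Fin 3, (∀ e, (bigG n).ends (j e) = (G.ends e).map ι) ∧
      ∀ e f, w e ≠ 0 → w f ≠ 0 → j e = j f → e = f := by
  have hp : ∀ z : Sym2 V, ∃ p : V × V, z = s(p.1, p.2) := fun z => by
    induction z with
    | _ x y => exact ⟨(x, y), rfl⟩
  choose p hp using hp
  have ht : ∀ z : Sym2 V, ∃ t : E → Fin 3, ∀ e f, (G.ends e = z ∧ w e ≠ 0) →
      (G.ends f = z ∧ w f ≠ 0) → t e = t f → e = f := by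
    intro z
    obtain ⟨S, hS⟩ : ∃ S, S = Finset.univ.filter (fun e => G.ends e = z ∧ w e ≠ 0) := ⟨_, rfl⟩
    have hc : Fintype.card S ≤ Fintype.card (Fin 3) := by
      rw [Fintype.card_coe, Fintype.card_fin, hS]
      exact h z
    obtain ⟨emb⟩ := Function.Embedding.nonempty_of_card_le hc
    refine ⟨fun e => if he : e ∈ S then emb ⟨e, he⟩ else 0, ?_⟩
    intro e f he hf hef
    have he' : e ∈ S := by rw [hS]; exact Finset.mem_filter.2 ⟨Finset.mem_univ _, he⟩
    have hf' : f ∈ S := by rw [hS]; exact Finset.mem_filter.2 ⟨Finset.mem_univ _, hf⟩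
    simp only [dif_pos he', dif_pos hf'] at hef
    exact congrArg Subtype.val (emb.injective hef)
  choose t ht using ht
  refine ⟨fun e => (ι (p (G.ends e)).1, ι (p (G.ends e)).2, t (G.ends e) e), ?_, ?_⟩
  · intro e
    show s(ι (p (G.ends e)).1, ι (p (G.ends e)).2) = (G.ends e).map ι
    conv_rhs => rw [hp (G.ends e)]
    rfl
  · intro e f he hf hj
    simp only [Prod.mk.injEq] at hj
    obtain ⟨h1, h2, h3⟩ := hj
    have h1' := ι.injective h1
    have h2' := ι.injective h2
    have hz : G.ends e = G.ends f := by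
      rw [hp (G.ends e), hp (G.ends f), h1', h2']
    rw [hz] at h3
    exact ht (G.ends f) e f ⟨hz, he⟩ ⟨rfl, hf⟩ h3

end ML.R
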