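import Pool.Agent.ML.R9a
import Pool.Agent.ML.R8a

/-!
# ML-R9b: the weight on the universal multigraph
-/

set_option autoImplicit false
set_option linter.unusedSectionVars false
set_option linter.unusedFintypeInType false
set_option linter.unusedVariables false

namespace ML.R

variable {V E : Type} [Fintype V] [Fintype E] [DecidableEq V] [DecidableEq E] (G : MGraph V E)

/-- The weight on the universal multigraph. -/
def wT {n : ℕ} (w : E → ℕ) (j : E → Fin n × Fin n × Fin 3) : Fin n × Fin n × Fin 3 → ℕ :=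
  fun x => ∑ e ∈ Finset.univ.filter (fun e => j e = x), w e

/-- Values of `wT` on the image of the support, and outside. -/
lemma wT_eq {n : ℕ} {w : E → ℕ} {j : E → Fin n × Fin n × Fin 3}
    (hj : ∀ e f, w e ≠ 0 → w f ≠ 0 → j e = j f → e = f) {e : E} (he : w e ≠ 0) :
    wT w j (j e) = w e := by
  unfold wT
  refine Finset.sum_eq_single e ?_ ?_
  · intro f hf hfe
    by_contra h0
    exact hfe (hj f e h0 he (Finset.mem_filter.1 hf).2)
  · intro h
    exact absurd (Finset.mem_filter.2 ⟨Finset.mem_univ e, rfl⟩ :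
      e ∈ Finset.univ.filter (fun f => j f = j e)) h

lemma exists_of_wT {n : ℕ} {w : E → ℕ} {j : E → Fin n × Fin n × Fin 3}
    {x : Fin n × Fin n × Fin 3} (hx : wT w j x ≠ 0) : ∃ e, w e ≠ 0 ∧ j e = x := by
  obtain ⟨e, he, hne⟩ := Finset.exists_ne_zero_of_sum_ne_zero hx
  exact ⟨e, hne, (Finset.mem_filter.1 he).2⟩

/-- Admissibility is preserved.  Proof: `adm_iff`.  Let `x ∈ cut X` with `wT x ≠ 0` (otherwise trivial),
`x = j e`, `w e ≠ 0`, `wT x = w e`.  Let `Y := univ.filter (fun v => ι v ∈ X)`; for every `f`,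
`j f ∈ cut X ↔ f ∈ cut Y` (`mem_cut_iff`, `Sym2.map_pair_eq`; choose the ends of `f`), so
`∑ y ∈ cut X, wT y = ∑ f ∈ cut Y, w f` (`Finset.sum_fiberwise_of_maps_to` or exchange the sums), which
is at least `2 * w e`. -/
theorem adm_wT {n : ℕ} (ι : V ↪ Fin n) {w : E → ℕ} (hw : G.Admissible w)
    {j : E → Fin n × Fin n × Fin 3} (h1 : ∀ e, (bigG n).ends (j e) = (G.ends e).map ι)
    (h2 : ∀ e f, w e ≠ 0 → w f ≠ 0 → j e = j f → e = f) : (bigG n).Admissible (wT w j) := by
  rw [adm_iff] at hw ⊢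
  intro X x hx
  by_cases h0 : wT w j x = 0
  · rw [h0, mul_zero]
    exact Nat.zero_le _
  obtain ⟨e, he, rfl⟩ := exists_of_wT h0
  rw [wT_eq h2 he]
  obtain ⟨a, b, hab⟩ := exists_ab G
  have key : ∀ f, j f ∈ (bigG n).cut X ↔ f ∈ G.cut (Finset.univ.filter (fun v => ι v ∈ X)) := by
    intro f
    have h3 : (bigG n).ends (j f) = s(ι (a f), ι (b f)) := by
      rw [h1 f, hab f]
      exact Sym2.map_mk ..
    rw [mem_cut_iff (bigG n) h3, mem_cut_iff G (hab f), Finset.mem_filter, Finset.mem_filter]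
    simp only [Finset.mem_univ, true_and]
  have hsum : ∑ y ∈ (bigG n).cut X, wT w j y =
      ∑ f ∈ G.cut (Finset.univ.filter (fun v => ι v ∈ X)), w f := by
    rw [← Finset.sum_fiberwise_of_maps_to (t := (bigG n).cut X) (g := j)
      (fun f hf => (key f).2 hf)]
    refine Finset.sum_congr rfl fun y hy => ?_
    unfold wT
    refine Finset.sum_congr ?_ fun _ _ => rfl
    ext f
    rw [Finset.mem_filter, Finset.mem_filter]
    constructor
    · rintro ⟨-, rfl⟩
      exact ⟨(key f).1 hy, rfl⟩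
    · rintro ⟨-, hf⟩
      exact ⟨Finset.mem_univ _, hf⟩
  rw [hsum]
  exact hw _ e ((key e).1 hx)

end ML.R
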