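import Pool.Agent.ML.D2
import Pool.Agent.ML.D4

/-!
# ML-T1: a tight cut of a near-brick has a bipartite shore (step 3.1, first part)
-/

set_option autoImplicit false
set_option linter.unusedSectionVars false
set_option linter.unusedFintypeInType false
set_option linter.unusedVariables false

namespace ML
namespace MG

variable {V E : Type} [Fintype V] [Fintype E] [DecidableEq V] [DecidableEq E] (G : MG V E)

/-- A bipartite shore: `Y` has a subset `A` with `|A| = |Y \ A| + 1`, edges inside `Y` join `A` and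
`Y \ A`, and the edges of the cut have their end of `Y` in `A`. -/
structure BShore (G : MG V E) (Y A : Finset V) : Prop where
  sub : Y ⊆ G.U
  A_sub : A ⊆ Y
  card : A.card = (Y \ A).card + 1
  inn : ∀ e ∈ G.inn Y, ¬ (G.s e ∈ A ↔ G.t e ∈ A)
  cut : ∀ e ∈ G.cut Y, G.s e ∈ A ∨ G.t e ∈ A

/-- (a): ends of cut edges in `Y`. -/
private theorem t1_end {G : MG V E} (hMc : G.Mc) {Y : Finset V} (hYU : Y ⊆ G.U)
    (hT : G.Tight Y) {y : V → ℚ}
    (hy : ∀ e ∈ G.F, y (G.s e) + y (G.t e) = if e ∈ G.cut Y then 1 else 0) {h : E}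
    (hh : h ∈ G.cut Y) :
    (G.s h ∈ Y → y (G.s h) = ∑ v ∈ Y, y v) ∧ (G.t h ∈ Y → y (G.t h) = ∑ v ∈ Y, y v) := by
  obtain ⟨N, hN, hhN⟩ := hMc.2 h ((G.mem_cut.1 hh).1)
  have hcard := hT N hN
  have hmem : h ∈ N ∩ G.cut Y := Finset.mem_inter.2 ⟨hhN, hh⟩
  have huniq : ∀ e ∈ N, e ∈ G.cut Y → e = h := by
    intro e he hec
    exact Finset.card_le_one.1 hcard.le e (Finset.mem_inter.2 ⟨he, hec⟩) h hmem
  have hpot := hN.pot (fun v => if v ∈ Y then y v else 0)
  have hR : ∑ v ∈ G.U, (if v ∈ Y then y v else 0) = ∑ v ∈ Y, y v := by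
    rw [← Finset.sum_filter]
    have : G.U.filter (fun v => v ∈ Y) = Y := by
      ext v
      rw [Finset.mem_filter]
      exact ⟨fun hv => hv.2, fun hv => ⟨hYU hv, hv⟩⟩
    rw [this]
  have hL : ∑ e ∈ N, ((if G.s e ∈ Y then y (G.s e) else 0) +
      (if G.t e ∈ Y then y (G.t e) else 0)) =
      (if G.s h ∈ Y then y (G.s h) else 0) + (if G.t h ∈ Y then y (G.t h) else 0) := by
    refine Finset.sum_eq_single_of_mem h hhN ?_
    intro e he hne
    have heF : e ∈ G.F := hN.1 he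
    have hec : e ∉ G.cut Y := fun hc => hne (huniq e he hc)
    have h1 := hy e heF
    rw [if_neg hec] at h1
    have h2 : G.s e ∈ Y ↔ G.t e ∈ Y := by
      by_contra h3
      exact hec (G.mem_cut.2 ⟨heF, h3⟩)
    by_cases h4 : G.s e ∈ Y
    · rw [if_pos h4, if_pos (h2.1 h4), h1]
    · rw [if_neg h4, if_neg (fun h5 => h4 (h2.2 h5)), add_zero]
  have key : (if G.s h ∈ Y then y (G.s h) else 0) + (if G.t h ∈ Y then y (G.t h) else 0) =
      ∑ v ∈ Y, y v := by
    rw [← hL, ← hR]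
    exact hpot
  have hx := (G.mem_cut.1 hh).2
  constructor
  · intro h1
    have h2 : G.t h ∉ Y := fun h3 => hx ⟨fun _ => h3, fun _ => h1⟩
    rw [if_pos h1, if_neg h2, add_zero] at key
    exact key
  · intro h1
    have h2 : G.s h ∉ Y := fun h3 => hx ⟨fun _ => h1, fun _ => h3⟩
    rw [if_pos h1, if_neg h2, zero_add] at key
    exact key

private theorem t1_core {G : MG V E} (hMc : G.Mc) (hC : G.Conn) {Y : Finset V} (hYU : Y ⊆ G.U)
    (hYne : Y ≠ G.U) (hT : G.Tight Y) {y : V → ℚ}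
    (hy : ∀ e ∈ G.F, y (G.s e) + y (G.t e) = if e ∈ G.cut Y then 1 else 0)
    (hτ : ∑ v ∈ Y, y v ≠ 0) : ∃ A, BShore G Y A := by
  obtain ⟨τ, hτd⟩ : ∃ τ : ℚ, τ = ∑ v ∈ Y, y v := ⟨_, rfl⟩
  have hend : ∀ h ∈ G.cut Y, (G.s h ∈ Y → y (G.s h) = τ) ∧ (G.t h ∈ Y → y (G.t h) = τ) := by
    intro h hh
    rw [hτd]
    exact t1_end hMc hYU hT hy hh
  rw [← hτd] at hτ
  have hinn : ∀ e ∈ G.F, G.s e ∈ Y → G.t e ∈ Y → y (G.s e) + y (G.t e) = 0 := by
    intro e he h1 h2
    have h3 : e ∉ G.cut Y := fun hc => (G.mem_cut.1 hc).2 ⟨fun _ => h2, fun _ => h1⟩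
    have h4 := hy e he
    rwa [if_neg h3] at h4
  -- (b)
  have hK : ∀ v ∈ Y, y v = τ ∨ y v = -τ := by
    by_contra hcon
    push Not at hcon
    obtain ⟨v0, hv0, hv1, hv2⟩ := hcon
    obtain ⟨K, hKd⟩ : ∃ K : Finset V, K = Y.filter (fun v => y v ≠ τ ∧ y v ≠ -τ) := ⟨_, rfl⟩
    have hmK : ∀ v, v ∈ K ↔ v ∈ Y ∧ y v ≠ τ ∧ y v ≠ -τ := by
      intro v
      rw [hKd, Finset.mem_filter]
    have hKY : K ⊆ Y := fun v hv => ((hmK v).1 hv).1
    have hKne : K ≠ G.U := by
      intro h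
      apply hYne
      apply Finset.Subset.antisymm hYU
      rw [← h]
      exact hKY
    have hcutK := hC K (hKY.trans hYU) ⟨v0, (hmK v0).2 ⟨hv0, hv1, hv2⟩⟩ hKne
    obtain ⟨e, he⟩ := hcutK
    obtain ⟨heF, hex⟩ := G.mem_cut.1 he
    -- a helper for the two symmetric cases
    have main : ∀ a b : V, a ∈ K → b ∉ K → (b ∈ Y → y a + y b = 0) → (b ∉ Y → y a = τ) →
        False := by
      intro a b ha hb h1 h2
      obtain ⟨haY, ha1, ha2⟩ := (hmK a).1 ha
      by_cases hbY : b ∈ Y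
      · have h3 := h1 hbY
        apply hb
        rw [hmK]
        refine ⟨hbY, fun h4 => ha2 ?_, fun h4 => ha1 ?_⟩
        · rw [h4] at h3
          linarith
        · rw [h4] at h3
          linarith
      · exact ha1 (h2 hbY)
    by_cases hs : G.s e ∈ K
    · have ht : G.t e ∉ K := fun ht => hex ⟨fun _ => ht, fun _ => hs⟩
      refine main (G.s e) (G.t e) hs ht (fun h1 => hinn e heF (hKY hs) h1) (fun h1 => ?_)
      have hec : e ∈ G.cut Y := G.mem_cut.2 ⟨heF, fun h2 => h1 (h2.1 (hKY hs))⟩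
      exact (hend e hec).1 (hKY hs)
    · have ht : G.t e ∈ K := by
        by_contra ht
        exact hex ⟨fun h => absurd h hs, fun h => absurd h ht⟩
      refine main (G.t e) (G.s e) ht hs (fun h1 => ?_) (fun h1 => ?_)
      · rw [add_comm]
        exact hinn e heF h1 (hKY ht)
      · have hec : e ∈ G.cut Y := G.mem_cut.2 ⟨heF, fun h2 => h1 (h2.2 (hKY ht))⟩
        exact (hend e hec).2 (hKY ht)
  obtain ⟨A, hAd⟩ : ∃ A : Finset V, A = Y.filter (fun v => y v = τ) := ⟨_, rfl⟩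
  have hmA : ∀ v, v ∈ A ↔ v ∈ Y ∧ y v = τ := by
    intro v
    rw [hAd, Finset.mem_filter]
  have hAY : A ⊆ Y := fun v hv => ((hmA v).1 hv).1
  refine ⟨A, hYU, hAY, ?_, ?_, ?_⟩
  · have h1 : ∑ v ∈ A, y v = (A.card : ℚ) * τ := by
      rw [Finset.sum_congr rfl (fun v hv => ((hmA v).1 hv).2), Finset.sum_const, nsmul_eq_mul]
    have h2 : ∑ v ∈ Y \ A, y v = ((Y \ A).card : ℚ) * (-τ) := by
      have h3 : ∀ v ∈ Y \ A, y v = -τ := by
        intro v hv
        rw [Finset.mem_sdiff] at hv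
        rcases hK v hv.1 with h | h
        · exact absurd ((hmA v).2 ⟨hv.1, h⟩) hv.2
        · exact h
      rw [Finset.sum_congr rfl h3, Finset.sum_const, nsmul_eq_mul]
    have h4 : ∑ v ∈ Y \ A, y v + ∑ v ∈ A, y v = ∑ v ∈ Y, y v := Finset.sum_sdiff hAY
    rw [h1, h2, ← hτd] at h4
    have h5 : ((A.card : ℚ) - ((Y \ A).card + 1)) * τ = 0 := by linear_combination h4
    rcases mul_eq_zero.1 h5 with h6 | h6
    · have h7 : (A.card : ℚ) = (((Y \ A).card + 1 : ℕ) : ℚ) := by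
        push_cast
        linarith
      exact_mod_cast h7
    · exact absurd h6 hτ
  · intro e he hiff
    obtain ⟨heF, hs, ht⟩ := G.mem_inn.1 he
    have h1 := hinn e heF hs ht
    by_cases hsA : G.s e ∈ A
    · have h2 := ((hmA _).1 hsA).2
      have h3 := ((hmA _).1 (hiff.1 hsA)).2
      rw [h2, h3] at h1
      exact hτ (by linarith)
    · have h2 : y (G.s e) = -τ := by
        rcases hK _ hs with h | h
        · exact absurd ((hmA _).2 ⟨hs, h⟩) hsA
        · exact h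
      have h3 : G.t e ∈ A := by
        rw [hmA]
        refine ⟨ht, ?_⟩
        rw [h2] at h1
        linarith
      exact hsA (hiff.2 h3)
  · intro e he
    obtain ⟨heF, hx⟩ := G.mem_cut.1 he
    by_cases hs : G.s e ∈ Y
    · left
      rw [hmA]
      exact ⟨hs, (hend e he).1 hs⟩
    · right
      have ht : G.t e ∈ Y := by
        by_contra ht
        exact hx ⟨fun h => absurd h hs, fun h => absurd h ht⟩
      rw [hmA]
      exact ⟨ht, (hend e he).2 ht⟩

/-- Step 3.1, first part.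
Proof.  Every weight `w` supported on `F` with all degrees `0` is `Reg 0`, has a multiple in `lat`, so
`w(cut X) = 0` (`tight_reg`).  By `pot_rat` there is `y : V → ℚ` with `y (s e) + y (t e) = 1` on
`cut X` and `= 0` on the rest of `F`.  For a perfect matching `N`: `∑_{v ∈ U} y v = |N ∩ cut X| = 1`.
Let `τ = ∑_{v ∈ X} y v`, `τ' = ∑_{v ∈ U \ X} y v`; `τ + τ' = 1`, so one of them is not `0`.
Let `Y = X` if `τ ≠ 0`, otherwise `Y = U \ X`, and `τ_Y` the corresponding sum (`≠ 0`); the cut of `Y`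
is the cut of `X` (`cut_compl`).
(a) If `h ∈ cut Y` has its end `a` in `Y` then `y a = τ_Y`: let `N` be a perfect matching containing `h`
(`Mc`); `N ∩ cut Y = {h}`, so `∑_{v ∈ Y} y v = y a + ∑ over the edges of N inside Y of (y s + y t) = y a`
(`N ∩ inn Y` is a perfect matching of `G.sub (Y.erase a)`; or use `hand`-like splitting with
`IsPM.unique`).
(b) Every vertex of `Y` has `y v = τ_Y` or `y v = - τ_Y`: let `K` be the set of the other vertices of
`Y`.  An edge leaving `K` is in `inn Y` or in `cut Y`; in `cut Y` its end in `Y` has `y = τ_Y`, not in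
`K`; in `inn Y` its ends have opposite values of `y`, so both ends are in `K` or none.  So `cut K = ∅`;
`K ≠ U` (as `U \ Y` is nonempty: `X` is nontrivial), so `K = ∅` by `Conn`.
`A := {v ∈ Y | y v = τ_Y}`.  Edges inside `Y`: `y s + y t = 0` and both are `± τ_Y ≠ 0`, so exactly one end
is in `A`.  Cut edges: (a).  `τ_Y = ∑_{v ∈ Y} y v = (|A| - |Y \ A|) τ_Y`, so `|A| = |Y \ A| + 1`. -/
theorem tight_shore (hNB : G.NB) {X : Finset V} (hX : G.Nontriv X) (hT : G.Tight X) :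
    ∃ Y A, (Y = X ∨ Y = G.U \ X) ∧ BShore G Y A := by
  obtain ⟨hMc, hC, hsat⟩ := hNB
  obtain ⟨hXU, hXo, hX3, hXU3⟩ := hX
  have hUne : G.U.Nonempty := by
    rw [← Finset.card_pos]
    omega
  have hXne : X ≠ G.U := by
    intro h
    rw [← h] at hXU3
    omega
  have hXcne : G.U \ X ≠ G.U := by
    intro h
    have h1 : (G.U \ X).card = G.U.card := by rw [h]
    rw [Finset.card_sdiff_of_subset hXU] at h1
    omega
  obtain ⟨y, hy⟩ := G.pot_rat X (by
    intro w hw1 hw2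
    obtain ⟨m, hm, hl⟩ := hsat 0 w ⟨hw1, hw2⟩
    exact G.tight_reg hT (r := 0) ⟨hw1, hw2⟩ hUne hm hl)
  obtain ⟨N, hN⟩ := hMc.1
  have hsum : ∑ v ∈ G.U, y v = 1 := by
    rw [← hN.pot y]
    have h1 : ∑ e ∈ N, (y (G.s e) + y (G.t e)) = ∑ e ∈ N, if e ∈ G.cut X then (1 : ℚ) else 0 :=
      Finset.sum_congr rfl fun e he => hy e (hN.1 he)
    rw [h1, ← Finset.sum_filter, Finset.sum_const, nsmul_eq_mul, mul_one]
    have h2 : N.filter (fun e => e ∈ G.cut X) = N ∩ G.cut X := by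
      ext e
      rw [Finset.mem_filter, Finset.mem_inter]
    rw [h2, hT N hN]
    norm_num
  have hcc := G.cut_compl hXU
  by_cases hτ : ∑ v ∈ X, y v = 0
  · have hτ' : ∑ v ∈ G.U \ X, y v ≠ 0 := by
      have h1 : ∑ v ∈ G.U \ X, y v + ∑ v ∈ X, y v = ∑ v ∈ G.U, y v := Finset.sum_sdiff hXU
      rw [hτ, add_zero, hsum] at h1
      rw [h1]
      exact one_ne_zero
    obtain ⟨A, hA⟩ := t1_core hMc hC (Y := G.U \ X) Finset.sdiff_subset hXcne
      (by intro N hN; rw [hcc]; exact hT N hN) (y := y) (by rw [hcc]; exact hy) hτ'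
    exact ⟨_, A, Or.inr rfl, hA⟩
  · obtain ⟨A, hA⟩ := t1_core hMc hC hXU hXne hT hy hτ
    exact ⟨_, A, Or.inl rfl, hA⟩

/-- The contraction of the complement of a bipartite shore is bipartite: class `A`. -/
theorem BShore.bip {G : MG V E} {Y A : Finset V} (h : BShore G Y A) {x : V} (hx : x ∈ G.U \ Y) :
    (G.shr Y x).Bip := by
  have hxY : x ∉ Y := (Finset.mem_sdiff.1 hx).2
  have hxA : x ∉ A := fun h1 => hxY (h.A_sub h1)
  refine ⟨A, ?_, ?_⟩
  · intro v hv
    exact Finset.mem_insert_of_mem (h.A_sub hv)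
  · intro e he
    have he' : e ∈ G.tou Y := he
    obtain ⟨heF, hor⟩ := G.mem_tou.1 he'
    rw [mem_cut]
    refine ⟨he, ?_⟩
    rw [shr_s, shr_t]
    by_cases hs : G.s e ∈ Y
    · by_cases ht : G.t e ∈ Y
      · rw [if_pos hs, if_pos ht]
        exact h.inn e (G.mem_inn.2 ⟨heF, hs, ht⟩)
      · rw [if_pos hs, if_neg ht]
        have hec : e ∈ G.cut Y := G.mem_cut.2 ⟨heF, fun h2 => ht (h2.1 hs)⟩
        rcases h.cut e hec with h1 | h1
        · exact fun h2 => hxA (h2.1 h1)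
        · exact absurd (h.A_sub h1) ht
    · have ht : G.t e ∈ Y := by
        rcases hor with h1 | h1
        · exact absurd h1 hs
        · exact h1
      rw [if_neg hs, if_pos ht]
      have hec : e ∈ G.cut Y := G.mem_cut.2 ⟨heF, fun h2 => hs (h2.2 ht)⟩
      rcases h.cut e hec with h1 | h1
      · exact absurd (h.A_sub h1) hs
      · exact fun h2 => hxA (h2.2 h1)

end MG
end ML
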