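import Pool.Agent.ML.T1

/-!
# ML-T2: extending the combinatorial Petersen structure over a bipartite shore (step 3.1)
-/

set_option autoImplicit false
set_option linter.unusedSectionVars false
set_option linter.unusedFintypeInType false
set_option linter.unusedVariables false

namespace ML
namespace MG

variable {V E : Type} [Fintype V] [Fintype E] [DecidableEq V] [DecidableEq E] (G : MG V E)

/-- The map of the extended structure. -/
def extMap (π : V → PV) (Y : Finset V) (x' : V) : V → PV := fun v => if v ∈ Y then π x' else π v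

/-- The class of the extended structure: `A₂` outside `Y`; on `Y` the large class `A` if the contracted
vertex is in `A₂`, the small class `Y \ A` otherwise. -/
def extSet (U Y A A₂ : Finset V) (x' : V) : Finset V :=
  (A₂ ∩ (U \ Y)) ∪ (if x' ∈ A₂ then A else Y \ A)

private theorem t2_mi (π : V → PV) {Y : Finset V} {x' v : V} (hv : v ∈ Y) :
    extMap π Y x' v = π x' := if_pos hv

private theorem t2_mo (π : V → PV) {Y : Finset V} {x' v : V} (hv : v ∉ Y) :
    extMap π Y x' v = π v := if_neg hv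

private theorem t2_map (π : V → PV) {U Y : Finset V} {x' v : V} (hv : v ∈ U) :
    extMap π Y x' v = π (if v ∈ U \ Y then v else x') := by
  by_cases h : v ∈ Y
  · have h1 : v ∉ U \ Y := fun h2 => (Finset.mem_sdiff.1 h2).2 h
    rw [extMap, if_pos h, if_neg h1]
  · have h1 : v ∈ U \ Y := Finset.mem_sdiff.2 ⟨hv, h⟩
    rw [extMap, if_neg h, if_pos h1]

private theorem t2_out {U Y A A₂ : Finset V} {x' v : V} (hA : A ⊆ Y) (hv : v ∈ U) (h : v ∉ Y) :
    v ∈ extSet U Y A A₂ x' ↔ v ∈ A₂ := by
  have h1 : v ∉ A := fun h2 => h (hA h2)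
  unfold extSet
  split_ifs with hx
  · simp [h1, hv, h]
  · simp [hv, h]

private theorem t2_in {U Y A A₂ : Finset V} {x' v : V} (hA : A ⊆ Y) (h : v ∈ Y) :
    v ∈ extSet U Y A A₂ x' ↔ (x' ∈ A₂ ↔ v ∈ A) := by
  unfold extSet
  split_ifs with hx
  · simp [h, hx]
  · simp [h, hx]

private theorem t2_cardR {U Y A A₂ R : Finset V} {x' : V} (hA : A ⊆ Y) (hR : R ⊆ U \ Y) :
    R ∩ extSet U Y A A₂ x' = R ∩ A₂ ∧ R \ extSet U Y A A₂ x' = R \ A₂ := by
  have key : ∀ v ∈ R, (v ∈ extSet U Y A A₂ x' ↔ v ∈ A₂) := fun v hv =>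
    t2_out hA (Finset.mem_sdiff.1 (hR hv)).1 (Finset.mem_sdiff.1 (hR hv)).2
  constructor
  · ext v
    simp only [Finset.mem_inter]
    constructor
    · rintro ⟨h1, h2⟩
      exact ⟨h1, (key v h1).1 h2⟩
    · rintro ⟨h1, h2⟩
      exact ⟨h1, (key v h1).2 h2⟩
  · ext v
    simp only [Finset.mem_sdiff]
    constructor
    · rintro ⟨h1, h2⟩
      exact ⟨h1, fun h3 => h2 ((key v h1).2 h3)⟩
    · rintro ⟨h1, h2⟩
      exact ⟨h1, fun h3 => h2 ((key v h1).1 h3)⟩

private theorem t2_cardY {U Y A A₂ : Finset V} {x' : V} (hA : A ⊆ Y) :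
    Y ∩ extSet U Y A A₂ x' = (if x' ∈ A₂ then A else Y \ A) ∧
      Y \ extSet U Y A A₂ x' = (if x' ∈ A₂ then Y \ A else A) := by
  constructor
  · ext v
    rw [Finset.mem_inter]
    by_cases hx : x' ∈ A₂
    · rw [if_pos hx]
      constructor
      · rintro ⟨h1, h2⟩
        exact ((t2_in hA h1).1 h2).1 hx
      · intro h1
        exact ⟨hA h1, (t2_in hA (hA h1)).2 ⟨fun _ => h1, fun _ => hx⟩⟩
    · rw [if_neg hx, Finset.mem_sdiff]
      constructor
      · rintro ⟨h1, h2⟩
        exact ⟨h1, fun h3 => hx (((t2_in hA h1).1 h2).2 h3)⟩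
      · rintro ⟨h1, h2⟩
        exact ⟨h1, (t2_in hA h1).2 ⟨fun h3 => absurd h3 hx, fun h3 => absurd h3 h2⟩⟩
  · ext v
    rw [Finset.mem_sdiff]
    by_cases hx : x' ∈ A₂
    · rw [if_pos hx, Finset.mem_sdiff]
      constructor
      · rintro ⟨h1, h2⟩
        exact ⟨h1, fun h3 => h2 ((t2_in hA h1).2 ⟨fun _ => h3, fun _ => hx⟩)⟩
      · rintro ⟨h1, h2⟩
        exact ⟨h1, fun h3 => h2 (((t2_in hA h1).1 h3).1 hx)⟩
    · rw [if_neg hx]
      constructor
      · rintro ⟨h1, h2⟩
        by_contra h3
        exact h2 ((t2_in hA h1).2 ⟨fun h4 => absurd h4 hx, fun h4 => absurd h4 h3⟩)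
      · intro h1
        exact ⟨hA h1, fun h3 => hx (((t2_in hA (hA h1)).1 h3).2 h1)⟩

/-- Extension of `PS` from the contraction `G.shr (U \ Y) x'` (the bipartite shore `Y` contracted to
`x' ∈ Y`) to `G`.
Proof.  `edge`: for `e ∈ inn (U \ Y)` nothing changes.  For `e ∈ cut Y` with ends `a ∈ Y`, `b ∉ Y`: in the
contraction the ends are `x'`, `b`; `a ∈ A` (`BShore.cut`); if `x' ∈ A₂` then `a` is in the new set, so
the alternatives are the same as in the contraction; if `x' ∉ A₂` the second alternative is impossible,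
so `π x' = π b`, `b ∈ A₂`, and `a ∈ A` is not in the new set.  For `e ∈ inn Y`: both ends have the image
`π x'` and exactly one is in `A`, so exactly one is in the new set.
`size`: only the fibre of `π x'` changes: it becomes `(fibre minus x') ∪ Y`.  If `x' ∈ A₂`:
`a - 1 + |A|` against `b + |Y \ A|` with `a = b + 1`, `|A| = |Y \ A| + 1`.  If `x' ∉ A₂`:
`a + |Y \ A|` against `b - 1 + |A|`.
`real`: the same edges. -/
theorem ext_PS {Y A : Finset V} (h : BShore G Y A) {x' : V} (hx' : x' ∈ Y) {π : V → PV}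
    {A₂ : Finset V} (hP : (G.shr (G.U \ Y) x').PS π A₂) :
    G.PS (extMap π Y x') (extSet G.U Y A A₂ x') := by
  have hxU : x' ∉ G.U \ Y := fun h1 => (Finset.mem_sdiff.1 h1).2 hx'
  refine ⟨?_, ?_, ?_⟩
  · intro e he
    have hs := G.hs e he
    have ht := G.ht e he
    by_cases hsY : G.s e ∈ Y
    · by_cases htY : G.t e ∈ Y
      · left
        refine ⟨?_, ?_⟩
        · rw [t2_mi π hsY, t2_mi π htY]
        · rw [t2_in h.A_sub hsY, t2_in h.A_sub htY]
          have h1 := h.inn e (Finset.mem_filter.2 ⟨he, hsY, htY⟩)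
          tauto
      · have h1 : G.t e ∈ G.U \ Y := Finset.mem_sdiff.2 ⟨ht, htY⟩
        have h2 : G.s e ∉ G.U \ Y := fun h3 => (Finset.mem_sdiff.1 h3).2 hsY
        have h3 := hP.edge e (Finset.mem_filter.2 ⟨he, Or.inr h1⟩)
        have h4 : (G.shr (G.U \ Y) x').s e = x' := if_neg h2
        have h5 : (G.shr (G.U \ Y) x').t e = G.t e := if_pos h1
        rw [h4, h5] at h3
        have h6 : G.s e ∈ A := by
          rcases h.cut e (Finset.mem_filter.2 ⟨he, fun h7 => htY (h7.1 hsY)⟩) with h7 | h7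
          · exact h7
          · exact absurd (h.A_sub h7) htY
        rw [t2_in h.A_sub hsY, t2_out h.A_sub ht htY, t2_mi π hsY, t2_mo π htY]
        have h8 : (x' ∈ A₂ ↔ G.s e ∈ A) ↔ x' ∈ A₂ := by simp [h6]
        rw [h8]
        exact h3
    · have h1 : G.s e ∈ G.U \ Y := Finset.mem_sdiff.2 ⟨hs, hsY⟩
      have h4 : (G.shr (G.U \ Y) x').s e = G.s e := if_pos h1
      have h3 := hP.edge e (Finset.mem_filter.2 ⟨he, Or.inl h1⟩)
      by_cases htY : G.t e ∈ Y
      · have h2 : G.t e ∉ G.U \ Y := fun h3 => (Finset.mem_sdiff.1 h3).2 htY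
        have h5 : (G.shr (G.U \ Y) x').t e = x' := if_neg h2
        rw [h4, h5] at h3
        have h6 : G.t e ∈ A := by
          rcases h.cut e (Finset.mem_filter.2 ⟨he, fun h7 => hsY (h7.2 htY)⟩) with h7 | h7
          · exact absurd (h.A_sub h7) hsY
          · exact h7
        rw [t2_out h.A_sub hs hsY, t2_in h.A_sub htY, t2_mo π hsY, t2_mi π htY]
        have h8 : (x' ∈ A₂ ↔ G.t e ∈ A) ↔ x' ∈ A₂ := by simp [h6]
        rw [h8]
        exact h3
      · have h2 : G.t e ∈ G.U \ Y := Finset.mem_sdiff.2 ⟨ht, htY⟩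
        have h5 : (G.shr (G.U \ Y) x').t e = G.t e := if_pos h2
        rw [h4, h5] at h3
        rw [t2_out h.A_sub hs hsY, t2_out h.A_sub ht htY, t2_mo π hsY, t2_mo π htY]
        exact h3
  · intro p
    set R : Finset V := (G.U \ Y).filter (fun v => π v = p) with hR
    have hRs : R ⊆ G.U \ Y := Finset.filter_subset _ _
    have hRY : Disjoint Y R := by
      rw [Finset.disjoint_left]
      intro v h1 h2
      exact (Finset.mem_sdiff.1 (hRs h2)).2 h1
    have hxR : x' ∉ R := fun h1 => hxU (hRs h1)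
    obtain ⟨hr1, hr2⟩ := t2_cardR (A₂ := A₂) (x' := x') h.A_sub hRs
    have hsize := hP.size p
    have hcA := h.card
    by_cases hp : π x' = p
    · have hfG : G.fib (extMap π Y x') p = Y ∪ R := by
        ext v
        rw [fib, Finset.mem_filter, Finset.mem_union, hR, Finset.mem_filter, Finset.mem_sdiff]
        constructor
        · rintro ⟨h1, h2⟩
          by_cases h3 : v ∈ Y
          · exact Or.inl h3
          · rw [t2_mo π h3] at h2
            exact Or.inr ⟨⟨h1, h3⟩, h2⟩
        · rintro (h1 | ⟨⟨h1, h3⟩, h2⟩)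
          · exact ⟨h.sub h1, by rw [t2_mi π h1]; exact hp⟩
          · exact ⟨h1, by rw [t2_mo π h3]; exact h2⟩
      have hfH : (G.shr (G.U \ Y) x').fib π p = insert x' R := by
        ext v
        simp only [fib, shr, Finset.mem_filter, Finset.mem_insert, hR]
        constructor
        · rintro ⟨h1 | h1, h2⟩
          · exact Or.inl h1
          · exact Or.inr ⟨h1, h2⟩
        · rintro (h1 | ⟨h1, h2⟩)
          · exact ⟨Or.inl h1, by rw [h1]; exact hp⟩
          · exact ⟨Or.inr h1, h2⟩
      obtain ⟨hy1, hy2⟩ := t2_cardY (U := G.U) (A₂ := A₂) (x' := x') h.A_sub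
      rw [hfG, Finset.union_inter_distrib_right, Finset.union_sdiff_distrib, hr1, hr2, hy1, hy2]
      rw [hfH] at hsize
      have hd1 : Disjoint (if x' ∈ A₂ then A else Y \ A) (R ∩ A₂) := by
        rw [← hy1, ← hr1]
        exact Finset.disjoint_of_subset_left Finset.inter_subset_left
          (Finset.disjoint_of_subset_right Finset.inter_subset_left hRY)
      have hd2 : Disjoint (if x' ∈ A₂ then Y \ A else A) (R \ A₂) := by
        rw [← hy2, ← hr2]
        exact Finset.disjoint_of_subset_left Finset.sdiff_subset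
          (Finset.disjoint_of_subset_right Finset.sdiff_subset hRY)
      rw [Finset.card_union_of_disjoint hd1, Finset.card_union_of_disjoint hd2]
      by_cases hx : x' ∈ A₂
      · rw [if_pos hx, if_pos hx]
        rw [Finset.insert_inter_of_mem hx, Finset.insert_sdiff_of_mem _ hx,
          Finset.card_insert_of_notMem (fun h1 => hxR (Finset.mem_inter.1 h1).1)] at hsize
        omega
      · rw [if_neg hx, if_neg hx]
        rw [Finset.insert_inter_of_notMem hx, Finset.insert_sdiff_of_notMem _ hx,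
          Finset.card_insert_of_notMem (fun h1 => hxR (Finset.mem_sdiff.1 h1).1)] at hsize
        omega
    · have hfG : G.fib (extMap π Y x') p = R := by
        ext v
        rw [fib, Finset.mem_filter, hR, Finset.mem_filter, Finset.mem_sdiff]
        constructor
        · rintro ⟨h1, h2⟩
          by_cases h3 : v ∈ Y
          · rw [t2_mi π h3] at h2
            exact absurd h2 hp
          · rw [t2_mo π h3] at h2
            exact ⟨⟨h1, h3⟩, h2⟩
        · rintro ⟨⟨h1, h3⟩, h2⟩
          exact ⟨h1, by rw [t2_mo π h3]; exact h2⟩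
      have hfH : (G.shr (G.U \ Y) x').fib π p = R := by
        ext v
        simp only [fib, shr, Finset.mem_filter, Finset.mem_insert, hR]
        constructor
        · rintro ⟨h1 | h1, h2⟩
          · rw [h1] at h2
            exact absurd h2 hp
          · exact ⟨h1, h2⟩
        · rintro ⟨h1, h2⟩
          exact ⟨Or.inr h1, h2⟩
      rw [hfG, hr1, hr2, ← hfH]
      exact hsize
  · intro p q hpq
    obtain ⟨e, he, h1⟩ := hP.real p q hpq
    have heF : e ∈ G.F := (Finset.mem_filter.1 he).1
    refine ⟨e, heF, ?_⟩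
    rw [t2_map π (G.hs e heF), t2_map π (G.ht e heF)]
    exact h1

end MG
end ML
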