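import Pool.Agent.ML.T2
import Pool.Agent.ML.D3

/-!
# ML-T3: extending the potential (step 3.1)
-/

set_option autoImplicit false
set_option linter.unusedSectionVars false
set_option linter.unusedFintypeInType false
set_option linter.unusedVariables false

namespace ML
namespace MG

variable {V E : Type} [Fintype V] [Fintype E] [DecidableEq V] [DecidableEq E] (G : MG V E)

lemma t3_oc_comm (p q : PV) : oc p q = oc q p := by
  revert p q
  decide

lemma t3_oc_self (p : PV) : oc p p = false := by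
  revert p
  decide

lemma t3_och_self (p : PV) : och p p = 0 := by
  unfold och
  rw [t3_oc_self]
  rfl

/-- Extension of the potential.
`χ = χ₁ + χ₂` on `F`, `χ₁ = 0` outside `tou Y`, `χ₂ = 0` outside `tou (U \ Y)`;
`χ₁ = z + z` on the contraction `G.shr Y x`; `χ₂` satisfies `PC` on `G.shr (U \ Y) x'`.
Proof: let `c := z x + y₂ x'` and `y v := z v + c` for `v ∈ A`, `z v - c` for `v ∈ Y \ A`, `y₂ v` outside `Y`.
`e ∈ inn Y`: `χ₂ e = 0`, one end in `A`: `χ e = z s + z t = y s + y t`, and `och (π x') (π x') = 0`.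
`e ∈ inn (U \ Y)`: `χ₁ e = 0`.  `e ∈ cut Y` with ends `a ∈ A` and `b ∉ Y`:
`χ e = (z a + z x) + (y₂ x' + y₂ b + och (π x') (π b)) = y a + y b + och ..` (careful with the order of the
two ends: `och` is symmetric). -/
theorem ext_PC {Y A : Finset V} (h : BShore G Y A) {x x' : V} (hx : x ∈ G.U \ Y) (hx' : x' ∈ Y)
    {π : V → PV} {χ χ₁ χ₂ : E → QZ} (hs : ∀ e ∈ G.F, χ e = χ₁ e + χ₂ e)
    (h1 : ∀ e, e ∉ G.tou Y → χ₁ e = 0) (h2 : ∀ e, e ∉ G.tou (G.U \ Y) → χ₂ e = 0)
    {z : V → QZ} (hz : ∀ e ∈ (G.shr Y x).F, χ₁ e = z ((G.shr Y x).s e) + z ((G.shr Y x).t e))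
    {y₂ : V → QZ} (hy : (G.shr (G.U \ Y) x').PC π y₂ χ₂) :
    ∃ y, G.PC (extMap π Y x') y χ := by
  classical
  rw [Finset.mem_sdiff] at hx
  refine ⟨fun v => if v ∈ Y then (if v ∈ A then z v + (z x + y₂ x') else z v - (z x + y₂ x'))
    else y₂ v, ?_⟩
  have hyin : ∀ v, v ∈ Y → v ∈ A → (if v ∈ Y then (if v ∈ A then z v + (z x + y₂ x')
      else z v - (z x + y₂ x')) else y₂ v) = z v + (z x + y₂ x') := by
    intro v h1 h2
    rw [if_pos h1, if_pos h2]
  have hyin' : ∀ v, v ∈ Y → v ∉ A → (if v ∈ Y then (if v ∈ A then z v + (z x + y₂ x')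
      else z v - (z x + y₂ x')) else y₂ v) = z v - (z x + y₂ x') := by
    intro v h1 h2
    rw [if_pos h1, if_neg h2]
  have hyout : ∀ v, v ∉ Y → (if v ∈ Y then (if v ∈ A then z v + (z x + y₂ x')
      else z v - (z x + y₂ x')) else y₂ v) = y₂ v := by
    intro v h1
    rw [if_neg h1]
  have hmin : ∀ v, v ∈ Y → extMap π Y x' v = π x' := fun v hv => if_pos hv
  have hmout : ∀ v, v ∉ Y → extMap π Y x' v = π v := fun v hv => if_neg hv
  intro e he
  have hsU := G.hs e he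
  have htU := G.ht e he
  show χ e = (if G.s e ∈ Y then (if G.s e ∈ A then z (G.s e) + (z x + y₂ x')
      else z (G.s e) - (z x + y₂ x')) else y₂ (G.s e)) +
    (if G.t e ∈ Y then (if G.t e ∈ A then z (G.t e) + (z x + y₂ x')
      else z (G.t e) - (z x + y₂ x')) else y₂ (G.t e)) + _
  rw [hs e he]
  by_cases h1s : G.s e ∈ Y <;> by_cases h1t : G.t e ∈ Y
  · -- both in Y
    have e2 : χ₂ e = 0 := by
      apply h2
      rw [G.mem_tou]
      rintro ⟨_, h3 | h3⟩
      · exact (Finset.mem_sdiff.1 h3).2 h1s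
      · exact (Finset.mem_sdiff.1 h3).2 h1t
    have e1 : χ₁ e = z (G.s e) + z (G.t e) := by
      have := hz e (G.mem_tou.2 ⟨he, Or.inl h1s⟩)
      rwa [shr_s, shr_t, if_pos h1s, if_pos h1t] at this
    have hA := h.inn e (G.mem_inn.2 ⟨he, h1s, h1t⟩)
    rw [e1, e2, hmin _ h1s, hmin _ h1t, t3_och_self]
    by_cases h3 : G.s e ∈ A
    · have h4 : G.t e ∉ A := fun h4 => hA (iff_of_true h3 h4)
      rw [hyin _ h1s h3, hyin' _ h1t h4]
      abel
    · have h4 : G.t e ∈ A := by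
        by_contra h4
        exact hA (iff_of_false h3 h4)
      rw [hyin' _ h1s h3, hyin _ h1t h4]
      abel
  · -- s in Y
    have hcut : e ∈ G.cut Y := G.mem_cut.2 ⟨he, fun hc => h1t (hc.1 h1s)⟩
    have hA : G.s e ∈ A := by
      rcases h.cut e hcut with h3 | h3
      · exact h3
      · exact absurd (h.A_sub h3) h1t
    have e1 : χ₁ e = z (G.s e) + z x := by
      have := hz e (G.mem_tou.2 ⟨he, Or.inl h1s⟩)
      rwa [shr_s, shr_t, if_pos h1s, if_neg h1t] at this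
    have htc : G.t e ∈ G.U \ Y := Finset.mem_sdiff.2 ⟨htU, h1t⟩
    have hsc : G.s e ∉ G.U \ Y := fun h3 => (Finset.mem_sdiff.1 h3).2 h1s
    have e2 : χ₂ e = y₂ x' + y₂ (G.t e) + och (π x') (π (G.t e)) := by
      have := hy e (G.mem_tou.2 ⟨he, Or.inr htc⟩)
      rwa [shr_s, shr_t, if_neg hsc, if_pos htc] at this
    rw [e1, e2, hyin _ h1s hA, hyout _ h1t, hmin _ h1s, hmout _ h1t]
    abel
  · -- t in Y
    have hcut : e ∈ G.cut Y := G.mem_cut.2 ⟨he, fun hc => h1s (hc.2 h1t)⟩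
    have hA : G.t e ∈ A := by
      rcases h.cut e hcut with h3 | h3
      · exact absurd (h.A_sub h3) h1s
      · exact h3
    have e1 : χ₁ e = z x + z (G.t e) := by
      have := hz e (G.mem_tou.2 ⟨he, Or.inr h1t⟩)
      rwa [shr_s, shr_t, if_neg h1s, if_pos h1t] at this
    have hsc : G.s e ∈ G.U \ Y := Finset.mem_sdiff.2 ⟨hsU, h1s⟩
    have htc : G.t e ∉ G.U \ Y := fun h3 => (Finset.mem_sdiff.1 h3).2 h1t
    have e2 : χ₂ e = y₂ (G.s e) + y₂ x' + och (π (G.s e)) (π x') := by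
      have := hy e (G.mem_tou.2 ⟨he, Or.inl hsc⟩)
      rwa [shr_s, shr_t, if_pos hsc, if_neg htc] at this
    rw [e1, e2, hyout _ h1s, hyin _ h1t hA, hmout _ h1s, hmin _ h1t]
    abel
  · -- both outside
    have e1 : χ₁ e = 0 := by
      apply h1
      rw [G.mem_tou]
      rintro ⟨_, h3 | h3⟩
      · exact h1s h3
      · exact h1t h3
    have hsc : G.s e ∈ G.U \ Y := Finset.mem_sdiff.2 ⟨hsU, h1s⟩
    have htc : G.t e ∈ G.U \ Y := Finset.mem_sdiff.2 ⟨htU, h1t⟩
    have e2 : χ₂ e = y₂ (G.s e) + y₂ (G.t e) + och (π (G.s e)) (π (G.t e)) := by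
      have := hy e (G.mem_tou.2 ⟨he, Or.inl hsc⟩)
      rwa [shr_s, shr_t, if_pos hsc, if_pos htc] at this
    rw [e1, e2, hyout _ h1s, hyout _ h1t, hmout _ h1s, hmout _ h1t, zero_add]

/-- `och` is symmetric and vanishes on the diagonal. -/
lemma _root_.ML.och_comm (p q : PV) : och p q = och q p := by
  unfold och
  rw [t3_oc_comm]

lemma _root_.ML.och_self (p : PV) : och p p = 0 := by
  exact t3_och_self p

end MG
end ML
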